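import Pool.Agent.Lib.MP_7fcda1_ag.CT1

open scoped IntermediateField Polynomial WithZero
open Module

noncomputable section

universe u

namespace Pool.Agent.Lib.MP_7fcda1_ag


variable {κ L : Type*} [Field κ] [Field L] [Algebra κ L] [IsFF κ L] {ι : Type*}

omit [IsFF κ L] in
theorem mem_Ls {D : Div κ L} {a : L} : a ∈ Ls D ↔ ∀ v : Place κ L, Ge v.O (-D v) a := by
  refine ⟨fun h => ?_, fun h => Submodule.subset_span h⟩
  induction h using Submodule.span_induction with
  | mem x hx => exact hx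
  | zero => exact fun v => ge_zero
  | add x y _ _ hx hy => exact fun v => (hx v).add (hy v)
  | smul c x _ hx => exact fun v => v.ge_smul (hx v) c

omit [IsFF κ L] in
theorem CT2_Ls_mono {D D' : Div κ L} (h : D ≤ D') : Ls D ≤ Ls D' := fun a ha =>
  mem_Ls.2 fun v => (mem_Ls.1 ha v).mono (neg_le_neg (h v))

/-- imposing the conditions of an effective divisor -/
theorem CT2_cut (E : Div κ L) : ∀ (D : Div κ L), 0 ≤ E → ∀ (U : Submodule κ L)
    [FiniteDimensional κ U], U ≤ Ls (D + E) →
      ∃ U' ≤ U, U' ≤ Ls D ∧ (finrank κ U : ℤ) ≤ finrank κ U' + degD E := by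
  classical
  induction E using Finsupp.induction with
  | zero => exact fun D _ U _ h => ⟨U, le_rfl, by simpa using h, by simp⟩
  | single_add a b g ha hb ih =>
    intro D hE U _ hU
    have hga : g a = 0 := Finsupp.notMem_support_iff.1 ha
    have hb0 : 0 ≤ b := by simpa [hga] using hE a
    have hg : 0 ≤ g := fun v => by
      by_cases hv : v = a
      · subst hv; simp [hga]
      · simpa [Finsupp.single_apply, Ne.symm hv] using hE v
    obtain ⟨U₁, h1, h2, h3⟩ := cond a U LinearMap.id (-(D a + b)) b.toNat fun w hw => by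
      simpa [hga] using mem_Ls.1 (hU hw) a
    have : FiniteDimensional κ U₁ := Submodule.finiteDimensional_of_le h1
    obtain ⟨U₂, h4, h5, h6⟩ := ih D hg U₁ fun w hw => mem_Ls.2 fun v => by
      by_cases hv : v = a
      · subst hv
        have h7 := (h2 w (h1 hw)).1 hw
        rw [Int.toNat_of_nonneg hb0] at h7
        simpa [hga] using h7
      · simpa [Finsupp.single_apply, Ne.symm hv] using mem_Ls.1 (hU (h1 hw)) v
    refine ⟨U₂, h4.trans h1, h5, ?_⟩
    rw [map_add, degD_single]
    have h7 : (finrank κ U : ℤ) ≤ finrank κ U₁ + b * a.deg := by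
      have h8 : ((finrank κ U : ℕ) : ℤ) ≤ ((finrank κ U₁ + b.toNat * a.deg : ℕ) : ℤ) :=
        Int.ofNat_le.2 h3
      rwa [Nat.cast_add, Nat.cast_mul, Int.toNat_of_nonneg hb0] at h8
    linarith

theorem CT2_algebraic_of_mem {a : L} (ha : a ∈ Ls (0 : Div κ L)) : IsAlgebraic κ a := by
  by_contra h
  obtain ⟨v, hv⟩ := exists_pole (κ := κ) h
  have h0 : a ≠ 0 := by rintro rfl; exact h isAlgebraic_zero
  have h1 := (ge_iff h0).1 (mem_Ls.1 ha v)
  simp at h1
  omega

theorem CT2_finite_zero : FiniteDimensional κ (Ls (0 : Div κ L)) := by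
  obtain ⟨f, hf, hfin⟩ := IsFF.ex (κ := κ) (L := L)
  have h0 : f ≠ 0 := by rintro rfl; exact hf isAlgebraic_zero
  obtain ⟨v, hv⟩ := exists_pole (κ := κ) (f := f⁻¹) fun h => hf (IsAlgebraic.inv_iff.1 h)
  rw [ord_inv] at hv
  have hd := Or.inl (b := v.O = ⊤) v.disc
  rw [FiniteDimensional, ← Module.rank_lt_aleph0_iff]
  refine lt_of_le_of_lt (rank_le (n := finrank κ⟮f⟯ L) fun T hT => ?_) Cardinal.natCast_lt_aleph0
  have hli : LinearIndependent κ⟮f⟯ fun r : T => ((r : Ls (0 : Div κ L)) : L) := by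
    refine CT1_indep h0 _ fun c p h => ?_
    have h1 : Ge v.O (ord v.O f) (∑ i : T, c i • ((i : Ls (0 : Div κ L)) : L)) := by
      rw [← val_le_iff hd h0, eq_neg_of_add_eq_zero_left h, Valuation.map_neg]
      exact v.CT1_val_tail ((mem_iff_ge hd).2 (Or.inr (by omega)))
        (fun i => v.CT1_mem_of_algebraic (CT2_algebraic_of_mem i.1.2)) p
    have h2 : (∑ i : T, c i • ((i : Ls (0 : Div κ L)) : L)) ∈ Ls (0 : Div κ L) :=
      Submodule.sum_mem _ fun i _ => Submodule.smul_mem _ _ i.1.2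
    have h3 : ∑ i : T, c i • ((i : Ls (0 : Div κ L)) : L) = 0 := by
      rcases h1 with h1 | h1
      · exact h1
      · rw [v.ord_algebraic (CT2_algebraic_of_mem h2)] at h1
        omega
    refine Fintype.linearIndependent_iff.1 hT c (Subtype.ext ?_)
    simpa using h3
  simpa using hli.fintype_card_le_finrank

instance (D : Div κ L) : FiniteDimensional κ (Ls D) := by
  have := CT2_finite_zero (κ := κ) (L := L)
  rw [FiniteDimensional, ← Module.rank_lt_aleph0_iff]
  refine lt_of_le_of_lt (rank_le (n := finrank κ (Ls (0 : Div κ L)) + (degD (D ⊔ 0)).toNat)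
    fun T hT => ?_) Cardinal.natCast_lt_aleph0
  have hli : LinearIndependent κ fun r : T => ((r : Ls D) : L) :=
    hT.map' (Ls D).subtype (Submodule.ker_subtype _)
  have : FiniteDimensional κ (Submodule.span κ (Set.range fun r : T => ((r : Ls D) : L))) :=
    FiniteDimensional.span_of_finite κ (Set.finite_range _)
  obtain ⟨U', -, h2, h3⟩ := CT2_cut (D ⊔ 0) 0 le_sup_right
    (Submodule.span κ (Set.range fun r : T => ((r : Ls D) : L))) (by
      rw [zero_add]
      refine le_trans ?_ (CT2_Ls_mono le_sup_left)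
      rw [Submodule.span_le]
      rintro _ ⟨r, rfl⟩
      exact r.1.2)
  rw [finrank_span_eq_card hli, Fintype.card_coe] at h3
  have h4 := Submodule.finrank_mono h2
  have h5 := Int.self_le_toNat (degD (D ⊔ 0))
  omega

theorem finrank_Ls_le {D D' : Div κ L} (h : D ≤ D') :
    (finrank κ (Ls D') : ℤ) ≤ finrank κ (Ls D) + (degD D' - degD D) := by
  obtain ⟨U', -, h2, h3⟩ := CT2_cut (D' - D) D (sub_nonneg.2 h) (Ls D') (by simp)
  have h4 := Submodule.finrank_mono h2
  rw [map_sub] at h3
  omega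

omit [IsFF κ L] in
theorem CT2_adjoin_inv (f : L) : κ⟮f⁻¹⟯ = κ⟮f⟯ := by
  refine le_antisymm ?_ ?_
  · rw [IntermediateField.adjoin_simple_le_iff]
    exact inv_mem (IntermediateField.mem_adjoin_simple_self κ f)
  · rw [IntermediateField.adjoin_simple_le_iff]
    simpa using inv_mem (IntermediateField.mem_adjoin_simple_self κ f⁻¹)

theorem CT2_degD_poles_le {f : L} (hf : Transcendental κ f) :
    degD (poles κ f) ≤ finrank κ⟮f⟯ L := by
  have hg : Transcendental κ f⁻¹ := fun h => hf (IsAlgebraic.inv_iff.1 h)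
  have h1 : ∀ v ∈ (poles κ f).support, 0 < ord v.O f⁻¹ := fun v hv => by
    have h2 := Finsupp.mem_support_iff.1 hv
    rw [poles_apply] at h2
    rw [ord_inv]
    omega
  have h2 := sum_ord_le hg _ h1
  rw [CT2_adjoin_inv] at h2
  refine le_trans (le_of_eq ?_) h2
  rw [degD, Finsupp.linearCombination_apply, Finsupp.sum]
  refine Finset.sum_congr rfl fun v hv => ?_
  have h3 := h1 v hv
  rw [ord_inv] at h3
  rw [poles_apply, ord_inv, max_eq_right h3.le, smul_eq_mul]

theorem CT2_poles_nonneg (a : L) : 0 ≤ poles κ a := fun v => by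
  rw [poles_apply]
  exact le_max_left _ _

theorem CT2_ge_poles (a : L) (v : Place κ L) : Ge v.O (-poles κ a v) a := by
  refine Or.inr ?_
  rw [poles_apply]
  omega

/-- the basic count -/
theorem CT2_count {f : L} (hf : Transcendental κ f) : ∃ C : Div κ L, 0 ≤ C ∧ ∀ l : ℕ,
    (l + 1) * finrank κ⟮f⟯ L ≤ finrank κ (Ls (l • poles κ f + C)) := by
  classical
  have hfin := IsFF.finite hf
  let b := Module.finBasis κ⟮f⟯ L
  refine ⟨∑ i, poles κ (b i), Finset.sum_nonneg fun i _ => CT2_poles_nonneg _, fun l => ?_⟩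
  have h1 : LinearIndependent κ fun j : Fin (l + 1) =>
      (IntermediateField.AdjoinSimple.gen κ f) ^ (j : ℕ) := by
    rw [Fintype.linearIndependent_iff]
    intro c hc j
    have h2 : Polynomial.aeval f (∑ i : Fin (l + 1), Polynomial.monomial (i : ℕ) (c i)) = 0 := by
      have h3 := congrArg (fun x : κ⟮f⟯ => (x : L)) hc
      simp only [IntermediateField.coe_sum, IntermediateField.coe_smul, IntermediateField.coe_pow,
        IntermediateField.AdjoinSimple.coe_gen, ZeroMemClass.coe_zero] at h3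
      rw [map_sum, ← h3]
      exact Finset.sum_congr rfl fun i _ => by rw [Polynomial.aeval_monomial, Algebra.smul_def]
    have h4 := congrArg (fun p : κ[X] => p.coeff j) (transcendental_iff.1 hf _ h2)
    simp only [Polynomial.finsetSum_coeff, Polynomial.coeff_monomial, Polynomial.coeff_zero] at h4
    rwa [Finset.sum_eq_single j (fun i _ hi => if_neg fun h => hi (Fin.ext h)) (by simp),
      if_pos rfl] at h4
  have h2 := linearIndependent_smul h1 b.linearIndependent
  have h3 : ∀ p : Fin (l + 1) × Fin (finrank κ⟮f⟯ L),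
      (IntermediateField.AdjoinSimple.gen κ f) ^ (p.1 : ℕ) • b p.2 ∈
        Ls (l • poles κ f + ∑ i, poles κ (b i)) := fun p => by
    refine mem_Ls.2 fun v => ?_
    have h4 : (IntermediateField.AdjoinSimple.gen κ f) ^ (p.1 : ℕ) • b p.2 =
        f ^ (p.1 : ℕ) * b p.2 := by
      rw [IntermediateField.smul_def, smul_eq_mul, IntermediateField.coe_pow,
        IntermediateField.AdjoinSimple.coe_gen]
    rw [h4]
    refine (((CT2_ge_poles (κ := κ) f v).pow p.1).mul (CT2_ge_poles (κ := κ) (b p.2) v)).mono ?_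
    have h5 : poles κ (b p.2) v ≤ ∑ i, poles κ (b i) v :=
      Finset.single_le_sum (f := fun i => poles κ (b i) v) (fun i _ => CT2_poles_nonneg _ v)
        (Finset.mem_univ _)
    have h6 : (0 : ℤ) ≤ poles κ f v := CT2_poles_nonneg f v
    have h7 : ((p.1 : ℕ) : ℤ) ≤ l := by exact_mod_cast Nat.le_of_lt_succ p.1.2
    rw [Finsupp.add_apply, Finsupp.smul_apply, Finsupp.finsetSum_apply, nsmul_eq_mul]
    nlinarith
  have h4 : LinearIndependent κ fun p : Fin (l + 1) × Fin (finrank κ⟮f⟯ L) =>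
      (⟨_, h3 p⟩ : Ls (l • poles κ f + ∑ i, poles κ (b i))) :=
    LinearIndependent.of_comp (Submodule.subtype _) h2
  simpa using h4.fintype_card_le_finrank

theorem degD_poles {f : L} (hf : Transcendental κ f) :
    degD (poles κ f) = finrank κ⟮f⟯ L := by
  refine le_antisymm (CT2_degD_poles_le hf) ?_
  obtain ⟨C, hC, h⟩ := CT2_count hf
  by_contra hlt
  push Not at hlt
  let l : ℕ := finrank κ (Ls (0 : Div κ L)) + (degD C).toNat + 1
  have h1 := finrank_Ls_le (D := 0) (D' := l • poles κ f + C)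
    (add_nonneg (nsmul_nonneg (CT2_poles_nonneg f) l) hC)
  have h2 : ((l : ℤ) + 1) * finrank κ⟮f⟯ L ≤ finrank κ (Ls (l • poles κ f + C)) := by
    exact_mod_cast h l
  rw [map_add, map_nsmul, map_zero, nsmul_eq_mul] at h1
  have h3 := Int.self_le_toNat (degD C)
  have h4 : (l : ℤ) = finrank κ (Ls (0 : Div κ L)) + (degD C).toNat + 1 := by simp [l]
  have h5 : (0 : ℤ) ≤ finrank κ⟮f⟯ L := Nat.cast_nonneg _
  have h6 : (0 : ℤ) ≤ l := Nat.cast_nonneg _
  nlinarith

theorem degD_div (a : L) : degD (div κ a) = 0 := by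
  by_cases ha : IsAlgebraic κ a
  · have : div κ a = 0 := by
      ext v
      rw [div_apply, v.ord_algebraic ha]
      rfl
    rw [this, map_zero]
  · have hg : Transcendental κ a⁻¹ := fun h => ha (IsAlgebraic.inv_iff.1 h)
    have : div κ a = poles κ a⁻¹ - poles κ a := by
      ext v
      rw [Finsupp.sub_apply, div_apply, poles_apply, poles_apply, ord_inv]
      omega
    rw [this, map_sub, degD_poles ha, degD_poles hg, CT2_adjoin_inv, sub_self]

theorem eq_zero_of_degD_neg {D : Div κ L} (h : degD D < 0) {a : L}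
    (ha : ∀ v : Place κ L, Ge v.O (-D v) a) : a = 0 := by
  by_contra h0
  have h1 : -D ≤ div κ a := fun v => by
    rw [div_apply]
    exact (ge_iff h0).1 (ha v)
  have h2 := degD_mono h1
  rw [map_neg, degD_div] at h2
  omega

theorem CT2_finrank_le_shift (D : Div κ L) {z : L} (hz : z ≠ 0) :
    finrank κ (Ls D) ≤ finrank κ (Ls (D + div κ z)) := by
  have h1 : ∀ a ∈ Ls D, LinearMap.mulLeft κ z⁻¹ a ∈ Ls (D + div κ z) := fun a ha =>
    mem_Ls.2 fun v => by
      refine ((ge_ord (V := v.O) (a := z⁻¹)).mul (mem_Ls.1 ha v)).mono ?_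
      rw [Finsupp.add_apply, div_apply, ord_inv]
      omega
  refine LinearMap.finrank_le_finrank_of_injective
    (f := (LinearMap.mulLeft κ z⁻¹).restrict h1) fun a b hab => ?_
  have h2 : z⁻¹ * (a : L) = z⁻¹ * b := congrArg Subtype.val hab
  exact Subtype.ext (mul_left_cancel₀ (inv_ne_zero hz) h2)

variable (κ L) in
theorem exists_RR : ∃ c, RR κ L c := by
  obtain ⟨f, hf, hfin⟩ := IsFF.ex (κ := κ) (L := L)
  obtain ⟨C, hC, h⟩ := CT2_count hf
  have hN : (1 : ℤ) ≤ finrank κ⟮f⟯ L := by exact_mod_cast Module.finrank_pos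
  have key : ∀ D : Div κ L, 0 ≤ D → degD D - degD C ≤ finrank κ (Ls D) := fun D hD => by
    let l : ℕ := (degD D).toNat
    have h1 : degD D ≤ l := Int.self_le_toNat _
    have h2 : ((l : ℤ) + 1) * finrank κ⟮f⟯ L ≤ finrank κ (Ls (l • poles κ f + C)) := by
      exact_mod_cast h l
    have h3 := finrank_Ls_le (D := l • poles κ f + C - D) (D' := l • poles κ f + C)
      (sub_le_self _ hD)
    rw [map_sub, sub_sub_cancel] at h3
    have h6 : (0 : ℤ) ≤ l := Nat.cast_nonneg _
    have h4 : 0 < finrank κ (Ls (l • poles κ f + C - D)) := by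
      have : (0 : ℤ) < finrank κ (Ls (l • poles κ f + C - D)) := by nlinarith
      exact_mod_cast this
    obtain ⟨z, hz⟩ := Module.finrank_pos_iff_exists_ne_zero.1 h4
    have hz0 : (z : L) ≠ 0 := fun h0 => hz (Subtype.ext h0)
    have h5 : D ≤ l • poles κ f + C + div κ (z : L) := fun v => by
      have h7 := (ge_iff hz0).1 (mem_Ls.1 z.2 v)
      rw [Finsupp.sub_apply] at h7
      rw [Finsupp.add_apply, div_apply]
      omega
    have h7 := finrank_Ls_le h5
    have h8 := CT2_finrank_le_shift (l • poles κ f + C) hz0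
    rw [map_add, map_add, map_nsmul, degD_div, degD_poles hf, nsmul_eq_mul] at h7
    have h9 : (finrank κ (Ls (l • poles κ f + C)) : ℤ) ≤
        finrank κ (Ls (l • poles κ f + C + div κ (z : L))) := by exact_mod_cast h8
    nlinarith
  refine ⟨finrank κ (Ls (0 : Div κ L)) + (degD C).toNat, fun D => ⟨?_, fun hD => ?_⟩⟩
  · have h1 := key (D ⊔ 0) le_sup_right
    have h2 := finrank_Ls_le (D := D) (D' := D ⊔ 0) le_sup_left
    have h3 := Int.self_le_toNat (degD C)
    omega
  · have h2 := finrank_Ls_le hD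
    rw [map_zero] at h2
    omega

omit [IsFF κ L] in
theorem CT2_finrank_lift (L₀ : IntermediateField κ L) (f : L₀) :
    finrank κ⟮f⟯ L = finrank κ⟮(f : L)⟯ L := by
  rw [← IntermediateField.lift_adjoin_simple]
  exact Algebra.finrank_eq_of_equiv_equiv (IntermediateField.liftAlgEquiv κ⟮f⟯).toRingEquiv
    (RingEquiv.refl L) (by ext; rfl)

theorem CT2_deg_le (L₀ : IntermediateField κ L) (w : Place κ L₀) (v : Place κ L)
    (h : w.O = v.O.comap (algebraMap L₀ L)) : w.deg ≤ v.deg := by
  choose s hs using IsLocalRing.residue_surjective (R := w.O)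
  by_cases hfin : FiniteDimensional κ (IsLocalRing.ResidueField w.O)
  swap
  · rw [Place.deg, Module.finrank_of_not_finite hfin]
    exact Nat.zero_le _
  let b := Module.finBasis κ (IsLocalRing.ResidueField w.O)
  have h3 : LinearIndependent κ fun i => IsLocalRing.residue w.O (s (b i)) := by
    simp only [hs]
    exact b.linearIndependent
  let s' : Fin w.deg → v.O := fun i => ⟨algebraMap L₀ L (s (b i)), by
    have h1 : ((s (b i) : w.O) : L₀) ∈ v.O.comap (algebraMap L₀ L) := h ▸ (s (b i)).2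
    exact h1⟩
  have h4 : LinearIndependent κ fun i => IsLocalRing.residue v.O (s' i) := by
    rw [Fintype.linearIndependent_iff]
    intro c hc
    refine w.CT1_eq_zero_of_res h3 ?_
    have h6 : ∀ a : L₀, w.O.valuation a < 1 ↔ v.O.valuation (algebraMap L₀ L a) < 1 := by
      rw [h]
      exact val_comap_lt_one _
    rw [h6]
    have h5 : ∑ i, c i • s' i ∈ IsLocalRing.maximalIdeal v.O := by
      rw [← IsLocalRing.residue_eq_zero_iff, map_sum, ← hc]
      exact Finset.sum_congr rfl fun i _ => v.CT1_res_smul _ _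
    rw [v.O.valuation_lt_one_iff] at h5
    convert h5 using 2
    rw [map_sum, AddSubmonoidClass.coe_finsetSum]
    refine Finset.sum_congr rfl fun i _ => ?_
    rw [v.CT1_coe_smul]
    rfl
  have h5 := h4.fintype_card_le_finrank
  rwa [Fintype.card_fin] at h5

theorem fund (L₀ : IntermediateField κ L) [FiniteDimensional L₀ L] {f : L} (hf₀ : f ∈ L₀)
    (hf : Transcendental κ f) (v : Place κ L) (hv : 0 < ord v.O f)
    (hm : ∀ a ∈ L₀, 0 < ord v.O a → ord v.O f ≤ ord v.O a)
    (hu : ∀ v' : Place κ L, 0 < ord v'.O f → ∀ a ∈ L₀, a ∈ v'.O ↔ a ∈ v.O) :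
    finrank κ⟮f⟯ L ≤ finrank L₀ L * v.deg := by
  classical
  let g : L₀ := ⟨f, hf₀⟩
  let ψ : L₀ →+* L := algebraMap L₀ L
  have hg : Transcendental κ g := fun h => hf (h.algHom L₀.val)
  have hfin := IsFF.finite hf
  have hN : finrank κ⟮g⟯ L = finrank κ⟮f⟯ L := CT2_finrank_lift L₀ g
  have hfin1 : FiniteDimensional κ⟮g⟯ L :=
    Module.finite_of_finrank_pos (hN ▸ Module.finrank_pos)
  have hfin2 : FiniteDimensional κ⟮g⟯ L₀ := FiniteDimensional.left κ⟮g⟯ L₀ L
  have : IsFF κ L₀ := ⟨⟨g, hg, hfin2⟩⟩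
  have hne : v.O.comap ψ ≠ ⊤ := fun h => by
    have h1 : ord v.O f = 0 := ord_of_comap_top h g
    omega
  let w : Place κ L₀ := ⟨v.O.comap ψ, hne, fun c => v.const c⟩
  obtain ⟨-, e, he, hord⟩ := (v.disc.comap ψ).resolve_left hne
  have hw1 : ord w.O g = 1 := by
    obtain ⟨t, -, ht⟩ := w.disc.exists_ord 1
    have h1 : ord v.O (t : L) = e * ord w.O t := hord t
    have h2 : ord v.O f = e * ord w.O g := hord g
    have h3 : (0 : ℤ) < e := by exact_mod_cast he
    rw [ht, mul_one] at h1
    have h4 := hm t t.2 (by omega)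
    have h5 : 0 < ord w.O g := by
      by_contra h6
      nlinarith
    nlinarith
  have huniq : ∀ w' : Place κ L₀, 0 < ord w'.O g → w' = w := fun w' hw' => by
    obtain ⟨V, hV⟩ := exists_comap_eq ψ w'.O
    have hne' : V.comap ψ ≠ ⊤ := hV ▸ w'.ne_top
    let v' : Place κ L := ⟨V, fun h => hne' (by rw [h]; rfl), fun c => by
      have h1 : algebraMap κ L₀ c ∈ V.comap ψ := hV ▸ w'.const c
      exact h1⟩
    obtain ⟨-, e', he', hord'⟩ := (v'.disc.comap ψ).resolve_left hne'
    have h2 : ord v'.O f = e' * ord (V.comap ψ) g := hord' g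
    have h3 : (0 : ℤ) < e' := by exact_mod_cast he'
    rw [hV] at h2
    refine Place.ext ?_
    rw [← hV]
    ext a
    exact hu v' (h2 ▸ mul_pos h3 hw') a a.2
  have hp : poles κ g⁻¹ = Finsupp.single w 1 := by
    ext w'
    rw [poles_apply, ord_inv, neg_neg]
    by_cases h : w' = w
    · rw [h, hw1, Finsupp.single_eq_same]
      rfl
    · rw [Finsupp.single_eq_of_ne h]
      exact max_eq_left (not_lt.1 fun h1 => h (huniq w' h1))
  have h1 := degD_poles (κ := κ) (f := g⁻¹) fun h => hg (IsAlgebraic.inv_iff.1 h)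
  rw [hp, degD_single, one_mul, CT2_adjoin_inv] at h1
  have h2 : w.deg ≤ v.deg := CT2_deg_le L₀ w v rfl
  rw [← hN, ← Module.finrank_mul_finrank κ⟮g⟯ L₀ L, mul_comm]
  refine Nat.mul_le_mul_left _ ?_
  omega

end Pool.Agent.Lib.MP_7fcda1_ag
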