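import Pool.Agent.Lib.MP_7fcda1_ag.Ord2

open scoped IntermediateField Polynomial WithZero
open Module

noncomputable section

universe u

namespace Pool.Agent.Lib.MP_7fcda1_ag


variable {E E' Ω : Type*} [Field E] [Field E'] [Field Ω] {P : Plc E Ω} {a a' : E} {b b' : Ω}
  {k K : Type*} [Field k] [Field K] [Algebra k K] {ι : Type}

theorem Plc.To.unique (h : P.To a b) (h' : P.To a b') : b = b' := h.2.symm.trans h'.2
theorem Plc.to_zero : P.To 0 0 := ⟨zero_mem _, map_zero P.ρ⟩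
theorem Plc.to_one : P.To 1 1 := ⟨one_mem _, map_one P.ρ⟩
theorem Plc.To.add (h : P.To a b) (h' : P.To a' b') : P.To (a + a') (b + b') :=
  ⟨add_mem h.1 h'.1, by rw [← h.2, ← h'.2, ← map_add]; rfl⟩
theorem Plc.To.neg (h : P.To a b) : P.To (-a) (-b) :=
  ⟨neg_mem h.1, by rw [← h.2, ← map_neg]; rfl⟩
theorem Plc.To.sub (h : P.To a b) (h' : P.To a' b') : P.To (a - a') (b - b') := by
  rw [sub_eq_add_neg, sub_eq_add_neg]; exact h.add h'.neg
theorem Plc.To.mul (h : P.To a b) (h' : P.To a' b') : P.To (a * a') (b * b') :=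
  ⟨mul_mem h.1 h'.1, by rw [← h.2, ← h'.2, ← map_mul]; rfl⟩
theorem Plc.To.pow (h : P.To a b) (j : ℕ) : P.To (a ^ j) (b ^ j) := by
  induction j with
  | zero => rw [pow_zero, pow_zero]; exact Plc.to_one
  | succ j ih => rw [pow_succ, pow_succ]; exact ih.mul h
theorem Plc.To.val_eq_one_iff (h : P.To a b) : P.V.valuation a = 1 ↔ b ≠ 0 := by
  obtain ⟨ha, rfl⟩ := h
  rw [Ne, P.ker, not_lt]
  exact ⟨fun e => e.ge, fun e => le_antisymm ((P.V.valuation_le_one_iff a).2 ha) e⟩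
theorem Plc.To.ne_zero (h : P.To a b) (hb : b ≠ 0) : a ≠ 0 := by
  rintro rfl
  exact hb (h.unique Plc.to_zero)
theorem Plc.To.inv (h : P.To a b) (hb : b ≠ 0) : P.To a⁻¹ b⁻¹ := by
  have h1 : a⁻¹ ∈ P.V := by
    rw [← P.V.valuation_le_one_iff, map_inv₀, h.val_eq_one_iff.2 hb, inv_one]
  have h2 : P.To a⁻¹ (P.ρ ⟨_, h1⟩) := ⟨h1, rfl⟩
  have h3 := h.mul h2
  rw [mul_inv_cancel₀ (h.ne_zero hb)] at h3
  rw [← eq_inv_of_mul_eq_one_right (h3.unique Plc.to_one)]
  exact h2
theorem Plc.To.sum {σ : Type*} {s : Finset σ} {f : σ → E} {g : σ → Ω}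
    (h : ∀ i ∈ s, P.To (f i) (g i)) : P.To (∑ i ∈ s, f i) (∑ i ∈ s, g i) := by
  classical
  induction s using Finset.induction_on with
  | empty => rw [Finset.sum_empty, Finset.sum_empty]; exact Plc.to_zero
  | insert i s hi ih =>
    rw [Finset.sum_insert hi, Finset.sum_insert hi]
    exact (h i (Finset.mem_insert_self _ _)).add (ih fun j hj => h j (Finset.mem_insert_of_mem hj))
theorem Plc.to_zero_iff : P.To a 0 ↔ P.V.valuation a < 1 :=
  ⟨fun h => (P.ker ⟨a, h.1⟩).1 h.2, fun h =>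
    ⟨(P.V.valuation_le_one_iff a).1 h.le, (P.ker ⟨a, _⟩).2 h⟩⟩
theorem Plc.To.aeval [Algebra k E] [Algebra k Ω] (hP : P.Over k) {σ : Type*} {z : σ → E}
    {z' : σ → Ω} (h : ∀ i, P.To (z i) (z' i)) (f : MvPolynomial σ k) :
    P.To (MvPolynomial.aeval z f) (MvPolynomial.aeval z' f) := by
  induction f using MvPolynomial.induction_on with
  | C c => rw [MvPolynomial.aeval_C, MvPolynomial.aeval_C]; exact hP c
  | add f g hf hg => rw [map_add, map_add]; exact hf.add hg
  | mul_X f i hf => rw [map_mul, map_mul, MvPolynomial.aeval_X, MvPolynomial.aeval_X]; exact hf.mul (h i)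

/-- one more element can be given a value -/
theorem plc1_step [IsAlgClosed Ω] {R : Type*} [CommRing R] [IsLocalRing R] (r : R →+* E)
    (ψ : R →+* Ω) [IsLocalHom r] [IsLocalHom ψ] (x : E) :
    ∃ c : Ω, ∀ p : R[X], p.eval₂ r x = 0 → p.eval₂ ψ c = 0 := by
  let F := IsLocalRing.ResidueField R
  let _ : Algebra F E := (IsLocalRing.ResidueField.lift r).toAlgebra
  have e1 : ∀ p : R[X], p.eval₂ r x = Polynomial.aeval x (p.map (IsLocalRing.residue R)) := fun p => by
    rw [Polynomial.aeval_def, Polynomial.eval₂_map]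
    exact congrArg (fun f => p.eval₂ f x) (IsLocalRing.ResidueField.lift_comp_residue r).symm
  have e2 : ∀ (c : Ω) (p : R[X]), p.eval₂ ψ c =
      (p.map (IsLocalRing.residue R)).eval₂ (IsLocalRing.ResidueField.lift ψ) c := fun c p => by
    rw [Polynomial.eval₂_map, IsLocalRing.ResidueField.lift_comp_residue]
  by_cases hx : IsIntegral F x
  · obtain ⟨c, hc⟩ := IsAlgClosed.exists_eval₂_eq_zero (IsLocalRing.ResidueField.lift ψ)
      (minpoly F x) (minpoly.degree_pos hx).ne'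
    refine ⟨c, fun p hp => ?_⟩
    rw [e1] at hp
    obtain ⟨q, hq⟩ := minpoly.dvd F x hp
    rw [e2, hq, Polynomial.eval₂_mul, hc, zero_mul]
  · refine ⟨0, fun p hp => ?_⟩
    rw [e1] at hp
    have : p.map (IsLocalRing.residue R) = 0 := by
      by_contra h
      exact hx (IsAlgebraic.isIntegral ⟨_, h, hp⟩)
    rw [e2, this, Polynomial.eval₂_zero]

theorem exists_plc_of_hom [IsAlgClosed Ω] {R : Type*} [CommRing R] (i : R →+* E) (φ : R →+* Ω)
    (h : ∀ r, i r = 0 → φ r = 0) : ∃ P : Plc E Ω, ∀ r, P.To (i r) (φ r) := by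
  let S : Set (Subring (E × Ω)) := {G | ∀ g ∈ G, g.1 = 0 → g.2 = 0}
  have h0 : (i.prod φ).range ∈ S := by
    rintro _ ⟨r, rfl⟩ hr
    exact h r hr
  obtain ⟨G, hG0, hG⟩ := zorn_le_nonempty₀ S (fun c hc hch y hy => ⟨sSup c, fun g hg => by
    obtain ⟨G, hG, hg⟩ := (Subring.mem_sSup_of_directedOn ⟨y, hy⟩ hch.directedOn).1 hg
    exact hc hG g hg, fun z hz => le_sSup hz⟩) _ h0
  let j : G →+* E := (RingHom.fst E Ω).comp G.subtype
  let ψ : G →+* Ω := (RingHom.snd E Ω).comp G.subtype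
  have hu : ∀ g : G, ψ g ≠ 0 → IsUnit g := fun g hg => by
    have hg2 : g.1.2 ≠ 0 := hg
    have hg1 : g.1.1 ≠ 0 := fun e => hg2 (hG.1 _ g.2 e)
    let G' : Subring (E × Ω) :=
      { carrier := {z | ∃ n : ℕ, z * g.1 ^ n ∈ G}
        mul_mem' := by
          rintro y z ⟨m, hm⟩ ⟨n, hn⟩
          refine ⟨m + n, ?_⟩
          rw [show y * z * g.1 ^ (m + n) = (y * g.1 ^ m) * (z * g.1 ^ n) by ring]
          exact mul_mem hm hn
        one_mem' := ⟨0, by simp⟩
        add_mem' := by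
          rintro y z ⟨m, hm⟩ ⟨n, hn⟩
          refine ⟨m + n, ?_⟩
          rw [show (y + z) * g.1 ^ (m + n) = (y * g.1 ^ m) * g.1 ^ n + (z * g.1 ^ n) * g.1 ^ m by ring]
          exact add_mem (mul_mem hm (pow_mem g.2 n)) (mul_mem hn (pow_mem g.2 m))
        zero_mem' := ⟨0, by simp⟩
        neg_mem' := by
          rintro y ⟨m, hm⟩
          exact ⟨m, by rw [neg_mul]; exact neg_mem hm⟩ }
    have hS : G' ∈ S := by
      rintro z ⟨n, hn⟩ hz
      have := hG.1 _ hn (by simp [hz])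
      simpa [hg2] using this
    have hle : G ≤ G' := fun z hz => ⟨0, by simpa using hz⟩
    have e : (g.1.1⁻¹, g.1.2⁻¹) * g.1 = 1 := by
      ext
      · exact inv_mul_cancel₀ hg1
      · exact inv_mul_cancel₀ hg2
    have hm : (g.1.1⁻¹, g.1.2⁻¹) ∈ G := hG.2 hS hle ⟨1, by rw [pow_one, e]; exact one_mem _⟩
    exact isUnit_iff_exists_inv'.2 ⟨⟨_, hm⟩, Subtype.ext e⟩
  have : Nontrivial G := ψ.domain_nontrivial
  have : IsLocalRing G := IsLocalRing.of_isUnit_or_isUnit_one_sub_self fun g => by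
    by_cases hg : ψ g = 0
    · exact .inr (hu _ (by simp [hg]))
    · exact .inl (hu _ hg)
  have : IsLocalHom ψ := ⟨fun g hg => hu g hg.ne_zero⟩
  obtain ⟨V, hV, hloc⟩ := IsLocalRing.exists_factor_valuationRing j
  let j' : G →+* V := j.codRestrict V.toSubring hV
  have hloc' : IsLocalHom j' := hloc
  have hinj : Function.Injective j' := (injective_iff_map_eq_zero _).2 fun g hg => by
    have h1 : g.1.1 = 0 := congrArg Subtype.val hg
    exact Subtype.ext (Prod.ext h1 (hG.1 _ g.2 h1))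
  have hsurj : Function.Surjective j' := fun x => by
    obtain ⟨c, hc⟩ := plc1_step ((IsLocalRing.residue V).comp j') ψ (IsLocalRing.residue V x)
    let G' := ((Polynomial.eval₂RingHom j x.1).prod (Polynomial.eval₂RingHom ψ c)).range
    have hS : G' ∈ S := by
      rintro _ ⟨p, rfl⟩ hp
      refine hc p ?_
      have h1 : p.eval₂ j' x = 0 := Subtype.ext ((Polynomial.hom_eval₂ p j' V.subtype x).trans hp)
      rw [← Polynomial.hom_eval₂, h1, map_zero]
    have hle : G ≤ G' := fun z hz => ⟨Polynomial.C ⟨z, hz⟩, by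
      ext
      · exact Polynomial.eval₂_C j x.1
      · exact Polynomial.eval₂_C ψ c⟩
    have hm : (x.1, c) ∈ G := hG.2 hS hle ⟨Polynomial.X, by
      ext
      · exact Polynomial.eval₂_X j x.1
      · exact Polynomial.eval₂_X ψ c⟩
    exact ⟨⟨_, hm⟩, rfl⟩
  let e := RingEquiv.ofBijective j' ⟨hinj, hsurj⟩
  refine ⟨⟨V, ψ.comp e.symm.toRingHom, fun x => ?_⟩, fun r => ⟨hV ⟨_, hG0 ⟨r, rfl⟩⟩, ?_⟩⟩
  · obtain ⟨g, rfl⟩ := e.surjective x
    rw [← V.valuation_lt_one_iff, IsLocalRing.mem_maximalIdeal, mem_nonunits_iff]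
    change ψ (e.symm (e g)) = 0 ↔ _
    rw [e.symm_apply_apply, MulEquiv.isUnit_map]
    exact ⟨fun h1 h2 => (h2.map ψ).ne_zero h1, fun h1 => by_contra fun h2 => h1 (hu g h2)⟩
  · change ψ (e.symm (e ⟨_, hG0 ⟨r, rfl⟩⟩)) = _
    rw [e.symm_apply_apply]
    rfl

/-- place extension -/
theorem exists_plc [IsAlgClosed Ω] (A : Subring E) (φ : A →+* Ω) :
    ∃ P : Plc E Ω, ∀ a : A, P.To a (φ a) :=
  exists_plc_of_hom A.subtype φ fun r hr => by rw [show r = 0 from Subtype.ext hr, map_zero]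

theorem Plc.exists_comap (P : Plc E Ω) (j : E' →+* E) :
    ∃ P' : Plc E' Ω, P'.V = P.V.comap j ∧ ∀ a b, P'.To a b ↔ P.To (j a) b :=
  ⟨⟨P.V.comap j, P.ρ.comp ((j.comp (P.V.comap j).subtype).codRestrict P.V.toSubring fun a => a.2),
    fun a => (P.ker _).trans (val_comap_lt_one j a.1).symm⟩, rfl, fun _ _ => Iff.rfl⟩

theorem exists_plc_residue (V : ValuationSubring E) (χ : IsLocalRing.ResidueField V →+* Ω) :
    ∃ P : Plc E Ω, P.V = V ∧ ∀ a : V, P.To a (χ (IsLocalRing.residue V a)) :=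
  ⟨⟨V, χ.comp (IsLocalRing.residue V), fun a => by
    rw [RingHom.comp_apply, map_eq_zero, IsLocalRing.residue_eq_zero_iff, V.valuation_lt_one_iff]⟩,
    rfl, fun a => ⟨a.2, rfl⟩⟩

theorem Plc.exists_sp [Finite ι] (P : Plc E Ω) {w : ι → E} (hw : w ≠ 0) : ∃ z, P.Sp w z := by
  obtain ⟨j, hj, h⟩ := exists_min_coord P.V hw
  have h1 : ∀ i, P.To ((w j)⁻¹ * w i) (P.ρ ⟨_, h i⟩) := fun i => by
    rw [← div_eq_inv_mul]; exact ⟨h i, rfl⟩
  refine ⟨fun i => P.ρ ⟨_, h i⟩, fun e => ?_, _, h1⟩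
  have h2 := h1 j
  rw [inv_mul_cancel₀ hj] at h2
  exact one_ne_zero ((Plc.to_one.unique h2).trans (congrFun e j))

theorem Plc.Sp.unique {w : ι → E} {z z' : ι → Ω} (h : P.Sp w z) (h' : P.Sp w z') :
    ∃ c : Ω, c ≠ 0 ∧ z' = c • z := by
  obtain ⟨hz, l, hl⟩ := h
  obtain ⟨hz', l', hl'⟩ := h'
  obtain ⟨i, hi⟩ := Function.ne_iff.1 hz
  obtain ⟨j, hj⟩ := Function.ne_iff.1 hz'
  have h1 := (hl i).ne_zero hi
  have h2 := (hl' i).mul ((hl i).inv hi)
  have h3 : ∀ s, z' s = z' i * (z i)⁻¹ * z s := fun s => by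
    have h4 := h2.mul (hl s)
    have e : l' * w i * (l * w i)⁻¹ * (l * w s) = l' * w s := by
      have := left_ne_zero_of_mul h1
      have := right_ne_zero_of_mul h1
      field_simp
    rw [e] at h4
    exact (hl' s).unique h4
  refine ⟨_, fun e => hj ?_, funext h3⟩
  rw [h3 j, e, zero_mul]; rfl

theorem plc1_aeval_smul {R σ : Type*} [CommRing R] [Algebra k R] {G : MvPolynomial σ k} {d : ℕ}
    (hG : G.IsHomogeneous d) (c : R) (z : σ → R) :
    MvPolynomial.aeval (c • z) G = c ^ d * MvPolynomial.aeval z G := by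
  rw [MvPolynomial.aeval_def, MvPolynomial.aeval_def, MvPolynomial.eval₂_eq, MvPolynomial.eval₂_eq,
    Finset.mul_sum]
  refine Finset.sum_congr rfl fun s hs => ?_
  rw [hG.degree_eq_sum_deg_support hs, ← Finset.prod_pow_eq_pow_sum]
  simp only [Pi.smul_apply, smul_eq_mul, mul_pow, Finset.prod_mul_distrib]
  ring

theorem Plc.Sp.on [Algebra k E] [Algebra k Ω] (hP : P.Over k) {ξ : ι → K} {w : ι → E} {z : ι → Ω}
    (h : P.Sp w z) (hw : On k ξ w) : On k ξ z := by
  obtain ⟨-, l, hl⟩ := h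
  intro d G hG h0
  have h1 := Plc.To.aeval hP (z := l • w) hl G
  rw [plc1_aeval_smul hG, hw d G hG h0, mul_zero] at h1
  exact h1.unique Plc.to_zero

theorem Plc.exists_in [Finite ι] (P : Plc E Ω) {w : ι → Polynomial E} (hw : w ≠ 0) {ρ : E}
    (hρ : ρ ≠ 0) : ∃ π, P.In w ρ π := by
  obtain ⟨N, hN⟩ := (Set.finite_range fun i => (w i).natDegree).bddAbove
  have hN' : ∀ i, (w i).natDegree < N + 1 := fun i => Nat.lt_succ_of_le (hN ⟨i, rfl⟩)
  obtain ⟨i₀, hi₀⟩ := Function.ne_iff.1 hw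
  obtain ⟨z, hz, l, hl⟩ := P.exists_sp
    (w := fun s : ι × Fin (N + 1) => (w s.1).coeff s.2 * ρ ^ (s.2 : ℕ))
    (Function.ne_iff.2 ⟨(i₀, ⟨_, hN' i₀⟩),
      mul_ne_zero (Polynomial.leadingCoeff_ne_zero.2 hi₀) (pow_ne_zero _ hρ)⟩)
  let π : ι → Polynomial Ω := fun i => ∑ j : Fin (N + 1), Polynomial.monomial j (z (i, j))
  have h1 : ∀ i (j : Fin (N + 1)), (π i).coeff j = z (i, j) := fun i j => by
    simp [π, Polynomial.coeff_monomial, Fin.val_inj]
  refine ⟨π, fun e => hz (funext fun s => ?_), l, fun i j => ?_⟩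
  · rw [← h1 s.1 s.2, e]; simp
  · rcases lt_or_ge j (N + 1) with hj | hj
    · rw [mul_assoc, h1 i ⟨j, hj⟩]; exact hl (i, ⟨j, hj⟩)
    · have h2 : (π i).coeff j = 0 := by
        simp only [π, Polynomial.finsetSum_coeff, Polynomial.coeff_monomial]
        exact Finset.sum_eq_zero fun s _ => if_neg (by have := s.2; omega)
      rw [h2, Polynomial.coeff_eq_zero_of_natDegree_lt ((hN' i).trans_le hj), mul_zero, zero_mul]
      exact Plc.to_zero

theorem exists_low [Finite ι] {π : ι → Polynomial Ω} (h : π ≠ 0) : ∃ z, Low π z := by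
  classical
  obtain ⟨i₀, hi₀⟩ := Function.ne_iff.1 h
  have h1 : ∃ j, ∃ i, (π i).coeff j ≠ 0 := ⟨_, i₀, Polynomial.leadingCoeff_ne_zero.2 hi₀⟩
  obtain ⟨i, hi⟩ := Nat.find_spec h1
  exact ⟨fun i => (π i).coeff (Nat.find h1), Function.ne_iff.2 ⟨i, hi⟩, _, fun _ => rfl,
    fun i j hj => by_contra fun e => Nat.find_min h1 hj ⟨i, e⟩⟩

theorem exists_top [Finite ι] {π : ι → Polynomial Ω} (h : π ≠ 0) : ∃ z, Top π z := by
  obtain ⟨i₀, hi₀⟩ := Function.ne_iff.1 h
  have : Nonempty {i // π i ≠ 0} := ⟨⟨i₀, hi₀⟩⟩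
  obtain ⟨i, hi⟩ := Finite.exists_max fun i : {i // π i ≠ 0} => (π i).natDegree
  refine ⟨fun s => (π s).coeff (π i).natDegree,
    Function.ne_iff.2 ⟨i, Polynomial.leadingCoeff_ne_zero.2 i.2⟩, _, fun _ => rfl, fun s j hj => ?_⟩
  by_cases hs : π s = 0
  · rw [hs, Polynomial.coeff_zero]
  · exact Polynomial.coeff_eq_zero_of_natDegree_lt ((hi ⟨s, hs⟩).trans_lt hj)

variable {ξ : ι → K}

theorem On.smul {R : Type*} [CommRing R] [Algebra k R] {z : ι → R} (h : On k ξ z) (c : R) :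
    On k ξ (c • z) := fun d G hG h0 => by rw [plc1_aeval_smul hG, h d G hG h0, mul_zero]
theorem On.of_smul {R : Type*} [CommRing R] [IsDomain R] [Algebra k R] {z : ι → R} {c : R}
    (hc : c ≠ 0) (h : On k ξ (c • z)) : On k ξ z := fun d G hG h0 => by
  have := h d G hG h0
  rw [plc1_aeval_smul hG] at this
  exact (mul_eq_zero.1 this).resolve_left (pow_ne_zero _ hc)
theorem On.map {R R' : Type*} [CommRing R] [Algebra k R] [CommRing R'] [Algebra k R'] {z : ι → R}
    (h : On k ξ z) (φ : R →ₐ[k] R') : On k ξ fun i => φ (z i) := fun d G hG h0 => by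
  rw [← MvPolynomial.comp_aeval_apply, h d G hG h0, map_zero]
theorem On.of_map {R R' : Type*} [CommRing R] [Algebra k R] [CommRing R'] [Algebra k R'] {z : ι → R}
    (φ : R →ₐ[k] R') (hφ : Function.Injective φ) (h : On k ξ fun i => φ (z i)) : On k ξ z :=
  fun d G hG h0 => hφ (by rw [MvPolynomial.comp_aeval_apply, h d G hG h0, map_zero])
theorem on_self : On k ξ ξ := fun _ _ _ h => h

theorem plc1_homog {L : Type*} [Field L] [Algebra k L] (f : MvPolynomial ι k) {y : ι → L} {j : ι}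
    (hj : y j ≠ 0) : MvPolynomial.aeval y (∑ d ∈ Finset.range (f.totalDegree + 1),
      MvPolynomial.X j ^ (f.totalDegree - d) * MvPolynomial.homogeneousComponent d f) =
      y j ^ f.totalDegree * MvPolynomial.aeval (fun i => y i / y j) f := by
  have e : (fun i => y i / y j) = (y j)⁻¹ • y := funext fun i => by
    rw [Pi.smul_apply, smul_eq_mul, div_eq_inv_mul]
  conv_rhs => rw [e]; arg 2; rw [← MvPolynomial.sum_homogeneousComponent f]
  rw [map_sum, map_sum, Finset.mul_sum]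
  refine Finset.sum_congr rfl fun d hd => ?_
  rw [plc1_aeval_smul (MvPolynomial.homogeneousComponent_isHomogeneous d f), map_mul, map_pow,
    MvPolynomial.aeval_X, ← mul_assoc,
    pow_sub₀ _ hj (Nat.le_of_lt_succ (Finset.mem_range.1 hd)), inv_pow]

variable [Algebra k Ω] {z z' : ι → Ω}

/-- the homomorphism of a chart ring defined by a point -/
theorem On.chart [Finite ι] (h : On k ξ z) {j : ι} (hj : z j ≠ 0) : ξ j ≠ 0 ∧
    ∀ f : MvPolynomial ι k, MvPolynomial.aeval (fun i => ξ i / ξ j) f = 0 →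
      MvPolynomial.aeval (fun i => z i / z j) f = 0 := by
  have h1 : ξ j ≠ 0 := fun e => hj (by
    simpa using h 1 (MvPolynomial.X j) (MvPolynomial.isHomogeneous_X k j) (by simpa using e))
  refine ⟨h1, fun f hf => ?_⟩
  have h2 := h f.totalDegree _ (MvPolynomial.IsHomogeneous.sum _ _ _ fun d hd => by
    have := (MvPolynomial.isHomogeneous_X_pow (R := k) j (f.totalDegree - d)).mul
      (MvPolynomial.homogeneousComponent_isHomogeneous d f)
    rwa [Nat.sub_add_cancel (Nat.le_of_lt_succ (Finset.mem_range.1 hd))] at this)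
    (by rw [plc1_homog f h1, hf, mul_zero])
  rw [plc1_homog f hj] at h2
  exact (mul_eq_zero.1 h2).resolve_left (pow_ne_zero _ hj)

theorem link_of_low_top [Finite ι] {π : ι → Polynomial Ω} (h : On k ξ π) (hz : Low π z)
    (hz' : Top π z') : Link k ξ z z' := by
  obtain ⟨h0, j, hj, hl⟩ := hz
  obtain ⟨h0', j', hj', ht⟩ := hz'
  choose Q hQ using fun i => Polynomial.X_pow_dvd_iff.2 (hl i)
  have hc : ∀ i d, (Q i).coeff d = (π i).coeff (d + j) := fun i d => by
    rw [hQ i, Polynomial.coeff_X_pow_mul]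
  have hle : j ≤ j' := by
    obtain ⟨i, hi⟩ := Function.ne_iff.1 h0'
    exact not_lt.1 fun e => hi ((hj' i).symm.trans (hl i j' e))
  refine ⟨h0, h0', j' - j, Q, On.of_smul (c := Polynomial.X ^ j) (pow_ne_zero _ Polynomial.X_ne_zero) ?_,
    fun i => Polynomial.natDegree_le_iff_coeff_eq_zero.2 fun N hN => ?_, fun i => ?_, fun i => ?_⟩
  · rwa [show (Polynomial.X ^ j : Polynomial Ω) • Q = π from funext fun i => (hQ i).symm]
  · rw [hc]; exact ht i _ (by omega)
  · rw [hc, zero_add, hj]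
  · rw [hc, Nat.sub_add_cancel hle, hj']

theorem link_of_eval_top [Finite ι] {π : ι → Polynomial Ω} (h : On k ξ π) (c : Ω)
    (hz : (fun i => (π i).eval c) ≠ 0) (hz' : Top π z') :
    Link k ξ (fun i => (π i).eval c) z' := by
  obtain ⟨h0', j, hj, ht⟩ := hz'
  have hd : ∀ i, (π i).natDegree ≤ j := fun i =>
    Polynomial.natDegree_le_iff_coeff_eq_zero.2 fun N hN => ht i N hN
  refine ⟨hz, h0', j, fun i => Polynomial.taylor c (π i),
    h.map ((Polynomial.taylorAlgHom c).restrictScalars k),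
    fun i => by rw [Polynomial.natDegree_taylor]; exact hd i,
    fun i => Polynomial.taylor_coeff_zero _ _, fun i => ?_⟩
  rw [← hj i]
  rcases (hd i).eq_or_lt with e | e
  · rw [← e, Polynomial.coeff_taylor_natDegree]; rfl
  · rw [Polynomial.coeff_eq_zero_of_natDegree_lt e, Polynomial.coeff_eq_zero_of_natDegree_lt]
    rwa [Polynomial.natDegree_taylor]

theorem Link.symm (h : Link k ξ z z') : Link k ξ z' z := by
  obtain ⟨h0, h0', d, Q, hQ, hd, h1, h2⟩ := h
  refine ⟨h0', h0, d, fun i => (Q i).reflect d, ?_,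
    fun i => Polynomial.natDegree_reflect_le.trans (max_le le_rfl (hd i)), fun i => ?_, fun i => ?_⟩
  · have hX : (RatFunc.X : RatFunc Ω)⁻¹ ≠ 0 := inv_ne_zero RatFunc.X_ne_zero
    let _ := invertibleOfNonzero hX
    refine On.of_map ((Polynomial.aeval (RatFunc.X : RatFunc Ω)).restrictScalars k) (fun p q e => ?_)
      (On.of_smul (pow_ne_zero d hX) ?_)
    · simp only [AlgHom.restrictScalars_apply, RatFunc.aeval_X_left_eq_algebraMap] at e
      exact RatFunc.algebraMap_injective Ω e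
    · have := hQ.map ((Polynomial.aeval (RatFunc.X : RatFunc Ω)⁻¹).restrictScalars k)
      convert this using 2 with i
      have e := Polynomial.eval₂_reflect_mul_pow (algebraMap Ω (RatFunc Ω)) (RatFunc.X : RatFunc Ω)⁻¹ d
        (Q i) (hd i)
      rw [invOf_eq_inv, inv_inv, mul_comm] at e
      exact e
  · rw [Polynomial.coeff_reflect, Polynomial.revAt_zero, h2]
  · rw [Polynomial.coeff_reflect, Polynomial.revAt_le le_rfl, Nat.sub_self, h1]

theorem plc1_link_on (h : Link k ξ z z') : On k ξ z := by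
  obtain ⟨-, -, d, Q, hQ, -, h1, -⟩ := h
  have := hQ.map ((Polynomial.aeval (0 : Ω)).restrictScalars k)
  convert this using 2 with i
  rw [← h1, AlgHom.restrictScalars_apply, Polynomial.coe_aeval_eq_eval, Polynomial.coeff_zero_eq_eval_zero]

theorem Link.on (h : Link k ξ z z') : On k ξ z ∧ On k ξ z' := ⟨plc1_link_on h, plc1_link_on h.symm⟩

theorem link_smul (h : On k ξ z) (hz : z ≠ 0) {c : Ω} (hc : c ≠ 0) : Link k ξ z (c • z) := by
  refine ⟨hz, smul_ne_zero hc hz, 1, _, (h.map (IsScalarTower.toAlgHom k Ω (Polynomial Ω))).smul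
    (1 + Polynomial.C c * Polynomial.X), fun i => ?_, fun i => ?_, fun i => ?_⟩
  · simp only [Pi.smul_apply, smul_eq_mul, IsScalarTower.coe_toAlgHom', Polynomial.algebraMap_eq]
    compute_degree
  · simp
  · simp [add_mul, Polynomial.coeff_C]

theorem Chain.symm (h : Chain k ξ z z') : Chain k ξ z' z := by
  induction h with
  | refl => exact Relation.ReflTransGen.refl
  | tail _ h ih => exact Relation.ReflTransGen.head h.symm ih
theorem Chain.on (h : Chain k ξ z z') (hz : On k ξ z) : On k ξ z' := by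
  induction h with
  | refl => exact hz
  | tail _ h _ => exact h.on.2
theorem Chain.ne_zero (h : Chain k ξ z z') (hz : z ≠ 0) : z' ≠ 0 := by
  induction h with
  | refl => exact hz
  | tail _ h _ => exact h.2.1
theorem Link.map (h : Link k ξ z z') {Ω' : Type*} [Field Ω'] [Algebra k Ω'] (φ : Ω →ₐ[k] Ω') :
    Link k ξ (fun i => φ (z i)) fun i => φ (z' i) := by
  obtain ⟨h0, h0', d, Q, hQ, hd, h1, h2⟩ := h
  have hn : ∀ y : ι → Ω, y ≠ 0 → (fun i => φ (y i)) ≠ 0 := fun y hy => by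
    obtain ⟨i, hi⟩ := Function.ne_iff.1 hy
    exact Function.ne_iff.2 ⟨i, (map_ne_zero φ).2 hi⟩
  refine ⟨hn z h0, hn z' h0', d, _, hQ.map (Polynomial.mapAlgHom φ),
    fun i => Polynomial.natDegree_map_le.trans (hd i), fun i => ?_, fun i => ?_⟩
  · exact (Polynomial.coeff_map _ _).trans (congrArg φ (h1 i))
  · exact (Polynomial.coeff_map _ _).trans (congrArg φ (h2 i))
theorem Chain.map (h : Chain k ξ z z') {Ω' : Type*} [Field Ω'] [Algebra k Ω'] (φ : Ω →ₐ[k] Ω') :
    Chain k ξ (fun i => φ (z i)) fun i => φ (z' i) := by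
  induction h with
  | refl => exact Relation.ReflTransGen.refl
  | tail _ h ih => exact Relation.ReflTransGen.tail ih (h.map φ)

end Pool.Agent.Lib.MP_7fcda1_ag
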