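import Pool.Agent.Lib.MP_7fcda1_ag.Rk
import Pool.Agent.Lib.MP_7fcda1_ag.Plc1

open scoped IntermediateField Polynomial WithZero
open Module

noncomputable section

universe u

namespace Pool.Agent.Lib.MP_7fcda1_ag


section aux
variable {E Ω : Type*} [Field E] [Field Ω] {P : Plc E Ω}

theorem Gauss_exists_res (k : Type*) {E : Type u} [Field k] [Field E] [Algebra k E]
    (V : ValuationSubring E) (hk : ∀ c : k, algebraMap k E c ∈ V) :
    ∃ (Ω : Type u) (_ : Field Ω) (_ : Algebra k Ω) (P : Plc E Ω), P.V = V ∧ P.Over k := by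
  obtain ⟨P, h1, h2⟩ := exists_plc_residue V (RingHom.id _)
  let φ : k →+* V := (algebraMap k E).codRestrict V hk
  exact ⟨_, inferInstance, ((IsLocalRing.residue V).comp φ).toAlgebra, P, h1, fun c => h2 (φ c)⟩

theorem Gauss_exists_fun (P : Plc E Ω) : ∃ r : E → Ω, ∀ a ∈ P.V, P.To a (r a) := by
  have h : ∀ a ∈ P.V, ∃ b, P.To a b := fun a ha => ⟨_, ha, rfl⟩
  choose! r hr using h
  exact ⟨r, hr⟩

theorem Gauss_to_prod {σ : Type*} {s : Finset σ} {f : σ → E} {g : σ → Ω}
    (h : ∀ i ∈ s, P.To (f i) (g i)) : P.To (∏ i ∈ s, f i) (∏ i ∈ s, g i) := by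
  classical
  induction s using Finset.induction_on with
  | empty => simpa using Plc.to_one
  | insert a s ha ih =>
    rw [Finset.prod_insert ha, Finset.prod_insert ha]
    exact (h a (Finset.mem_insert_self _ _)).mul
      (ih fun i hi => h i (Finset.mem_insert_of_mem hi))

variable {k : Type*} [Field k] [Algebra k E] [Algebra k Ω]

theorem Gauss_resInd_iff (hP : P.Over k) {σ : Type*} {z : σ → E} {z' : σ → Ω}
    (h : ∀ i, P.To (z i) (z' i)) : ResInd k P.V z ↔ AlgebraicIndependent k z' := by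
  rw [algebraicIndependent_iff]
  constructor
  · intro H g hg
    by_contra hne
    exact (Plc.To.aeval hP h g).val_eq_one_iff.1 (H g hne) hg
  · intro H g hg
    exact (Plc.To.aeval hP h g).val_eq_one_iff.2 fun e => hg (H g e)

theorem Gauss_to_adjoin (hP : P.Over k) {S : Set E} (T : IntermediateField k Ω)
    (h : ∀ s ∈ S, ∃ b ∈ T, P.To s b) {a : E} (ha : a ∈ Algebra.adjoin k S) :
    ∃ b ∈ T, P.To a b := by
  induction ha using Algebra.adjoin_induction with
  | mem x hx => exact h x hx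
  | algebraMap c => exact ⟨_, T.algebraMap_mem c, hP c⟩
  | add x y _ _ hx hy =>
    obtain ⟨b, hb, e⟩ := hx
    obtain ⟨b', hb', e'⟩ := hy
    exact ⟨_, T.add_mem hb hb', e.add e'⟩
  | mul x y _ _ hx hy =>
    obtain ⟨b, hb, e⟩ := hx
    obtain ⟨b', hb', e'⟩ := hy
    exact ⟨_, T.mul_mem hb hb', e.mul e'⟩

theorem Gauss_resInd_mem {V : ValuationSubring E} {σ : Type*} {f : σ → E} (hf : ResInd k V f)
    (i : σ) : f i ∈ V := by
  have := hf (MvPolynomial.X i) (MvPolynomial.X_ne_zero i)
  rw [MvPolynomial.aeval_X] at this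
  exact (V.valuation_le_one_iff _).1 this.le

omit [Algebra k Ω] in
theorem Gauss_to_aeval {K : Type*} [Field K] [Algebra K Ω] {σ : Type*} {z : σ → E} {z' : σ → Ω}
    (h : ∀ i, P.To (z i) (z' i)) (G : MvPolynomial σ k) (c : (σ →₀ ℕ) → K)
    (hc : ∀ m, P.To (algebraMap k E (G.coeff m)) (algebraMap K Ω (c m))) :
    P.To (MvPolynomial.aeval z G)
      (MvPolynomial.aeval z' (∑ m ∈ G.support, MvPolynomial.monomial m (c m))) := by
  conv_lhs => rw [G.as_sum]
  rw [map_sum, map_sum]
  refine Plc.To.sum fun m _ => ?_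
  rw [MvPolynomial.aeval_monomial, MvPolynomial.aeval_monomial]
  exact (hc m).mul (Gauss_to_prod fun i _ => (h i).pow _)

end aux

variable {k F L : Type*} [Field k] [Field F] [Field L] [Algebra k F] [Algebra k L] [Algebra F L]
  [IsScalarTower k F L] {Z Φ : Type*} [Fintype Z] [Fintype Φ] {ν : ℕ} {V : ValuationSubring L}

/-- a nontrivial valuation has residue rank smaller than the rank of the field -/
theorem resInd_card_lt {V : ValuationSubring F} (hV : V ≠ ⊤)
    (hF : rk k (Set.univ : Set F) ≤ ν + 1) {f : Φ → F} (hf : ResInd k V f) :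
    Fintype.card Φ ≤ ν := by
  obtain ⟨a, ha⟩ : ∃ a, a ∉ V := by
    by_contra! h
    exact hV (eq_top_iff.2 fun a _ => h a)
  have ht : Transcendental (IntermediateField.adjoin k (Set.range f)) a := by
    intro halg
    have hi := halg.isIntegral
    refine ha (mem_of_monic ((minpoly (IntermediateField.adjoin k (Set.range f)) a).map
      (algebraMap _ F)) ((minpoly.monic hi).map _) (fun i => ?_) ?_)
    · rw [Polynomial.coeff_map]
      exact hf.mem _ (Subtype.mem _)
    · rw [Polynomial.eval_map_algebraMap]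
      exact minpoly.aeval _ _
  have h1 := rk_insert ht
  rw [rk_range_indep hf.indep] at h1
  have h2 : rk k (insert a (Set.range f)) ≤ ν + 1 := (rk_mono (Set.subset_univ _)).trans hF
  rw [h1] at h2
  have h3 : Fintype.card Φ + 1 ≤ ν + 1 := by exact_mod_cast h2
  omega

theorem gauss (hF : rk k (Set.univ : Set F) ≤ ν + 1) (hV : V.comap (algebraMap F L) ≠ ⊤)
    {z : Z → L} (hz : ∀ i, z i ∈ V) {f : Φ → L} (hf : ResInd k V f)
    (hc : ν + Fintype.card Z ≤ Fintype.card Φ) {C : Set F} (hC : ∀ c ∈ C, algebraMap F L c ∈ V)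
    (hfC : ∀ φ, f φ ∈ Algebra.adjoin k (algebraMap F L '' C ∪ Set.range z)) :
    (∀ G : MvPolynomial Z F, (∀ m, algebraMap F L (G.coeff m) ∈ V) →
      (∃ m, V.valuation (algebraMap F L (G.coeff m)) = 1) →
        V.valuation (MvPolynomial.aeval z G) = 1) ∧
    ∃ w : Fin ν → F, (∀ i, w i ∈ C) ∧ ResInd k V fun i => algebraMap F L (w i) := by
  obtain ⟨Ω, _, _, P, rfl, hP⟩ := Gauss_exists_res k V hf.const
  obtain ⟨r, hr⟩ := Gauss_exists_fun P
  have hz' : ∀ i, P.To (z i) (r (z i)) := fun i => hr _ (hz i)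
  have hf' : ∀ i, P.To (f i) (r (f i)) := fun i => hr _ (Gauss_resInd_mem hf i)
  have hfi := (Gauss_resInd_iff hP hf').1 hf
  have lift : ∀ {j : ℕ} {D : Set F}, (∀ c ∈ D, algebraMap F L c ∈ P.V) →
      (j : ℕ∞) ≤ rk k ((fun c => r (algebraMap F L c)) '' D) →
      ∃ w : Fin j → F, (∀ i, w i ∈ D) ∧ ResInd k P.V fun i => algebraMap F L (w i) := by
    intro j D hD hj
    obtain ⟨w, hw, hi⟩ := exists_indep hj
    choose c hc e using hw
    refine ⟨c, hc, (Gauss_resInd_iff hP (z' := w) fun i => ?_).2 hi⟩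
    rw [← e i]
    exact hr _ (hD _ (hc i))
  have h1 : ((ν + Fintype.card Z : ℕ) : ℕ∞) ≤
      rk k ((fun c => r (algebraMap F L c)) '' C ∪ Set.range fun i => r (z i)) := by
    refine le_trans (Nat.cast_le.2 hc) ?_
    rw [← rk_range_indep hfi]
    refine rk_le_of_mem ?_
    rintro _ ⟨φ, rfl⟩
    obtain ⟨b, hb, e⟩ := Gauss_to_adjoin hP (IntermediateField.adjoin k
      ((fun c => r (algebraMap F L c)) '' C ∪ Set.range fun i => r (z i))) (by
        rintro _ (⟨c, hc, rfl⟩ | ⟨i, rfl⟩)
        · exact ⟨_, IntermediateField.subset_adjoin _ _ (Or.inl ⟨c, hc, rfl⟩), hr _ (hC c hc)⟩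
        · exact ⟨_, IntermediateField.subset_adjoin _ _ (Or.inr ⟨i, rfl⟩), hz' i⟩) (hfC φ)
    rwa [← (hf' φ).unique e] at hb
  constructor
  · intro G hG ⟨m₀, hm₀⟩
    let S₀ : Set Ω := (fun c => r (algebraMap F L c)) '' {c | algebraMap F L c ∈ P.V}
    have h2 : rk k S₀ ≤ ν := by
      by_contra! h
      obtain ⟨w, -, hw⟩ := lift (j := ν + 1) (D := {c | algebraMap F L c ∈ P.V}) (fun _ h => h)
        (by exact_mod_cast Order.add_one_le_of_lt h)
      have h3 : ResInd k (P.V.comap (algebraMap F L)) w := by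
        intro g hg
        rw [val_comap_eq_one, ← MvPolynomial.aeval_algebraMap_apply]
        exact hw g hg
      have := resInd_card_lt hV hF h3
      simp at this
    let K₀ := IntermediateField.adjoin k S₀
    have h3 : rk k (Set.univ : Set K₀) ≤ ν := by
      rw [← rk_image K₀.val]
      refine le_trans (rk_le_of_mem ?_) h2
      rintro _ ⟨c, -, rfl⟩
      exact c.2
    have h4 := rk_tower (k := k) (K := K₀) (S := Set.range fun i => r (z i))
    have h5 : ((ν + Fintype.card Z : ℕ) : ℕ∞) ≤ ν + rk K₀ (Set.range fun i => r (z i)) := by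
      refine h1.trans (le_trans (rk_mono ?_) (h4.le.trans (add_le_add_left h3 _)))
      refine Set.union_subset_union_left _ ?_
      rintro _ ⟨c, hc, rfl⟩
      exact ⟨⟨_, IntermediateField.subset_adjoin _ _ ⟨c, hC c hc, rfl⟩⟩, rfl⟩
    rw [Nat.cast_add, ENat.add_le_add_iff_left (ENat.natCast_ne_top ν)] at h5
    have h6 := indep_of_rk h5
    let c : (Z →₀ ℕ) → K₀ := fun m =>
      ⟨r (algebraMap F L (G.coeff m)), IntermediateField.subset_adjoin _ _ ⟨_, hG m, rfl⟩⟩
    have h7 := Gauss_to_aeval hz' G c fun m => hr _ (hG m)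
    refine h7.val_eq_one_iff.2 fun e => ?_
    have h8 := congrArg (MvPolynomial.coeff m₀) (algebraicIndependent_iff.1 h6 _ e)
    have hm : m₀ ∈ G.support := by
      rw [MvPolynomial.mem_support_iff]
      intro e'
      simp [e'] at hm₀
    classical
    simp only [MvPolynomial.coeff_sum, MvPolynomial.coeff_monomial, Finset.sum_ite_eq', hm, if_true,
      MvPolynomial.coeff_zero] at h8
    exact (hr _ (hG m₀)).val_eq_one_iff.1 hm₀ (congrArg Subtype.val h8)
  · refine lift hC ?_
    have h2 := h1.trans (rk_union_le.trans (add_le_add_right (rk_range_le _) _))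
    rwa [Nat.cast_add, ENat.add_le_add_iff_right (ENat.natCast_ne_top _)] at h2

theorem gauss_triv (hF : rk k (Set.univ : Set F) ≤ ν + 1) (hV : V.comap (algebraMap F L) = ⊤)
    {z : Z → L} (hz : ∀ i, z i ∈ V) {f : Φ → L} (hf : ResInd k V f)
    (hc : ν + Fintype.card Z ≤ Fintype.card Φ)
    (hfC : ∀ φ, f φ ∈ Algebra.adjoin F (Set.range z)) :
    ∃ π : MvPolynomial Z F, ∀ G, V.valuation (MvPolynomial.aeval z G) < 1 ↔ π ∣ G := by
  have hFV : ∀ c : F, algebraMap F L c ∈ V := fun c =>
    ValuationSubring.mem_comap.1 (hV ▸ ValuationSubring.mem_top c)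
  obtain ⟨Ω, _, _, P, rfl, hP⟩ := Gauss_exists_res F V hFV
  let _ : Algebra k Ω := ((algebraMap F Ω).comp (algebraMap k F)).toAlgebra
  have _ : IsScalarTower k F Ω := IsScalarTower.of_algebraMap_eq fun _ => rfl
  have hPk : P.Over k := fun c => by
    rw [IsScalarTower.algebraMap_apply k F L]
    exact hP _
  obtain ⟨r, hr⟩ := Gauss_exists_fun P
  have hz' : ∀ i, P.To (z i) (r (z i)) := fun i => hr _ (hz i)
  have hf' : ∀ i, P.To (f i) (r (f i)) := fun i => hr _ (Gauss_resInd_mem hf i)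
  have hfi := (Gauss_resInd_iff hPk hf').1 hf
  have h1 : ((ν + Fintype.card Z : ℕ) : ℕ∞) ≤
      rk k (Set.range (algebraMap F Ω) ∪ Set.range fun i => r (z i)) := by
    refine le_trans (Nat.cast_le.2 hc) ?_
    rw [← rk_range_indep hfi]
    refine rk_le_of_mem ?_
    rintro _ ⟨φ, rfl⟩
    have h0 : f φ ∈ Algebra.adjoin k (Set.range (algebraMap F L) ∪ Set.range z) := by
      have := hfC φ
      generalize f φ = a at this
      induction this using Algebra.adjoin_induction with
      | mem x hx => exact Algebra.subset_adjoin (Or.inr hx)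
      | algebraMap c => exact Algebra.subset_adjoin (Or.inl ⟨c, rfl⟩)
      | add x y _ _ hx hy => exact add_mem hx hy
      | mul x y _ _ hx hy => exact mul_mem hx hy
    obtain ⟨b, hb, e⟩ := Gauss_to_adjoin hPk (IntermediateField.adjoin k
      (Set.range (algebraMap F Ω) ∪ Set.range fun i => r (z i))) (by
        rintro _ (⟨c, rfl⟩ | ⟨i, rfl⟩)
        · exact ⟨_, IntermediateField.subset_adjoin _ _ (Or.inl ⟨c, rfl⟩), hP c⟩
        · exact ⟨_, IntermediateField.subset_adjoin _ _ (Or.inr ⟨i, rfl⟩), hz' i⟩) h0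
    rwa [← (hf' φ).unique e] at hb
  rw [rk_tower] at h1
  have h2 := h1.trans (add_le_add_left hF _)
  rw [Nat.cast_add, add_assoc, ENat.add_le_add_iff_left (ENat.natCast_ne_top ν), add_comm] at h2
  obtain ⟨π, hπ⟩ := ker_principal _ h2
  refine ⟨π, fun G => ?_⟩
  rw [← hπ, ← Plc.to_zero_iff]
  have h3 := Plc.To.aeval hP hz' G
  exact ⟨fun h => h3.unique h, fun h => h ▸ h3⟩

omit [Fintype Z] in
/-- consequence of the Gauss property for orders -/
theorem ge_coeff (hV : Disc V) {z : Z → L}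
    (h : ∀ G : MvPolynomial Z F, (∀ m, algebraMap F L (G.coeff m) ∈ V) →
      (∃ m, V.valuation (algebraMap F L (G.coeff m)) = 1) →
        V.valuation (MvPolynomial.aeval z G) = 1) {G : MvPolynomial Z F} {N : ℤ}
    (hG : Ge V N (MvPolynomial.aeval z G)) (m : Z →₀ ℕ) :
    Ge V N (algebraMap F L (G.coeff m)) := by
  by_cases hm : G.coeff m = 0
  · rw [hm, map_zero]
    exact ge_zero
  have hm' : m ∈ G.support := MvPolynomial.mem_support_iff.2 hm
  obtain ⟨j, hj, hj'⟩ := exists_min_coord V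
    (w := fun i : G.support => algebraMap F L (G.coeff i.1)) (by
      intro e
      exact hm ((map_eq_zero _).1 (congrFun e ⟨m, hm'⟩)))
  have hc : G.coeff j.1 ≠ 0 := fun e => hj (by simp only [e, map_zero])
  have h1 := h (MvPolynomial.C (G.coeff j.1)⁻¹ * G) (fun i => by
    rw [MvPolynomial.coeff_C_mul]
    by_cases hi : i ∈ G.support
    · have := hj' ⟨i, hi⟩
      rwa [map_mul, map_inv₀, mul_comm, ← div_eq_mul_inv]
    · rw [MvPolynomial.notMem_support_iff.1 hi, mul_zero, map_zero]
      exact V.zero_mem) ⟨j.1, by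
    rw [MvPolynomial.coeff_C_mul, inv_mul_cancel₀ hc, map_one, map_one]⟩
  rw [val_eq_one_iff (Or.inl hV), map_mul, MvPolynomial.aeval_C, map_inv₀] at h1
  obtain ⟨h2, h3⟩ := h1
  have h4 : MvPolynomial.aeval z G ≠ 0 := right_ne_zero_of_mul h2
  rw [ord_mul (inv_ne_zero hj) h4, ord_inv] at h3
  have h5 : Ge V N (algebraMap F L (G.coeff j.1)) := by
    rw [ge_iff h4] at hG
    rw [ge_iff hj]
    omega
  have h6 := ((mem_iff_ge (Or.inl hV)).1 (hj' ⟨m, hm'⟩)).mul h5
  rwa [zero_add, div_mul_cancel₀ _ hj] at h6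

omit [Fintype Z] in
theorem exists_gauss (V₀ : ValuationSubring F) {z : Z → L} (hz : AlgebraicIndependent F z) :
    ∃ V : ValuationSubring L, V.comap (algebraMap F L) = V₀ ∧ (∀ i, z i ∈ V) ∧
      ∀ G : MvPolynomial Z F, (∀ m, G.coeff m ∈ V₀) → (∃ m, V₀.valuation (G.coeff m) = 1) →
        V.valuation (MvPolynomial.aeval z G) = 1 := by
  let κ := IsLocalRing.ResidueField V₀
  let Ω := AlgebraicClosure (FractionRing (MvPolynomial Z κ))
  let i : MvPolynomial Z V₀ →+* L :=
    (MvPolynomial.aeval z : MvPolynomial Z F →ₐ[F] L).toRingHom.comp (MvPolynomial.map V₀.subtype)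
  let ψ : MvPolynomial Z κ →+* Ω :=
    (algebraMap (FractionRing (MvPolynomial Z κ)) Ω).comp (algebraMap _ _)
  have hψ : Function.Injective ψ :=
    (algebraMap (FractionRing (MvPolynomial Z κ)) Ω).injective.comp (IsFractionRing.injective _ _)
  let φ : MvPolynomial Z V₀ →+* Ω := ψ.comp (MvPolynomial.map (IsLocalRing.residue V₀))
  have hi : Function.Injective i :=
    Function.Injective.comp (g := MvPolynomial.aeval (R := F) z)
      (f := MvPolynomial.map V₀.subtype) hz (MvPolynomial.map_injective _ Subtype.val_injective)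
  obtain ⟨P, hP⟩ := exists_plc_of_hom i φ fun r h => by
    rw [(injective_iff_map_eq_zero i).1 hi r h, map_zero]
  have hC : ∀ a : V₀, i (MvPolynomial.C a) = algebraMap F L a := fun a => by simp [i]
  refine ⟨P.V, ?_, fun j => ?_, fun G hG ⟨m, hm⟩ => ?_⟩
  · ext a
    rw [ValuationSubring.mem_comap]
    constructor
    · intro ha
      by_contra hn
      have h0 : a ≠ 0 := by
        rintro rfl
        exact hn V₀.zero_mem
      have h1 : a⁻¹ ∈ V₀ := (V₀.mem_or_inv_mem a).resolve_left hn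
      have h2 : IsLocalRing.residue V₀ ⟨a⁻¹, h1⟩ = 0 := by
        rw [IsLocalRing.residue_eq_zero_iff, IsLocalRing.mem_maximalIdeal, mem_nonunits_iff]
        intro hu
        obtain ⟨b, hb⟩ := hu.exists_right_inv
        have hb' : a⁻¹ * (b : F) = 1 := congrArg Subtype.val hb
        have : a = b := by
          field_simp at hb'
          exact hb'.symm
        exact hn (this ▸ b.2)
      have h3 := hP (MvPolynomial.C ⟨a⁻¹, h1⟩)
      have h4 : φ (MvPolynomial.C ⟨a⁻¹, h1⟩) = 0 := by
        simp only [φ, RingHom.comp_apply, MvPolynomial.map_C, h2, map_zero]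
      rw [h4, hC, Plc.to_zero_iff] at h3
      have h5 := (P.V.valuation_le_one_iff _).2 ha
      have h6 : P.V.valuation (algebraMap F L a⁻¹ * algebraMap F L a) < 1 := by
        rw [map_mul]
        exact mul_lt_one_of_lt_of_le h3 h5
      rw [← map_mul, inv_mul_cancel₀ h0, map_one, map_one] at h6
      exact lt_irrefl _ h6
    · intro ha
      have := (hP (MvPolynomial.C ⟨a, ha⟩)).1
      rwa [hC] at this
  · have := (hP (MvPolynomial.X j)).1
    simpa [i] using this
  · let G₀ : MvPolynomial Z V₀ := ∑ m ∈ G.support, MvPolynomial.monomial m ⟨G.coeff m, hG m⟩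
    have h1 : MvPolynomial.map V₀.subtype G₀ = G := by
      conv_rhs => rw [G.as_sum]
      simp only [G₀, map_sum, MvPolynomial.map_monomial]
      rfl
    have h2 : i G₀ = MvPolynomial.aeval z G := by
      rw [← h1]
      rfl
    rw [← h2]
    refine (hP G₀).val_eq_one_iff.2 fun e => ?_
    have h3 := congrArg (MvPolynomial.coeff m) ((injective_iff_map_eq_zero ψ).1 hψ _ e)
    rw [MvPolynomial.coeff_map, MvPolynomial.coeff_zero, IsLocalRing.residue_eq_zero_iff,
      ValuationSubring.valuation_lt_one_iff] at h3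
    have h4 : ((G₀.coeff m : V₀) : F) = G.coeff m := by
      rw [← h1, MvPolynomial.coeff_map]
      rfl
    rw [h4, hm] at h3
    exact lt_irrefl _ h3


end Pool.Agent.Lib.MP_7fcda1_ag
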