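import Pool.Agent.Lib.MP_7fcda1_ag.Ord

open scoped IntermediateField Polynomial WithZero
open Module

noncomputable section

universe u

namespace Pool.Agent.Lib.MP_7fcda1_ag


variable {L : Type*} [Field L] {ι : Type*} {V : ValuationSubring L} {a b : L} {m n : ℤ}

theorem Ord2_mem (hV : Disc V) (ha : a ≠ 0) : a ∈ V ↔ 0 ≤ ord V a := by
  rw [mem_iff_ge (Or.inl hV), ge_iff ha]

/-- an additive function with the right nonnegativity locus and a value one is the order -/
theorem Ord2_ord_eq (hV : Disc V) (f : L → ℤ)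
    (hmul : ∀ a b, a ≠ 0 → b ≠ 0 → f (a * b) = f a + f b)
    (hmem : ∀ a, a ≠ 0 → (a ∈ V ↔ 0 ≤ f a)) (ht : ∃ t, t ≠ 0 ∧ f t = 1) :
    ∀ a, a ≠ 0 → ord V a = f a := by
  have f1 : f 1 = 0 := by
    have := hmul 1 1 one_ne_zero one_ne_zero
    rw [mul_one] at this
    omega
  have finv : ∀ a, a ≠ 0 → f a⁻¹ = -f a := by
    intro a ha
    have := hmul a a⁻¹ ha (inv_ne_zero ha)
    rw [mul_inv_cancel₀ ha] at this
    omega
  have fpow : ∀ a, a ≠ 0 → ∀ j : ℕ, f (a ^ j) = j * f a := by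
    intro a ha j
    induction j with
    | zero => simp [f1]
    | succ j ih => rw [pow_succ, hmul _ _ (pow_ne_zero _ ha) ha, ih]; push_cast; ring
  have fzpow : ∀ a, a ≠ 0 → ∀ j : ℤ, f (a ^ j) = j * f a := by
    intro a ha j
    cases j with
    | ofNat j => simpa using fpow a ha j
    | negSucc j =>
      rw [zpow_negSucc, finv _ (pow_ne_zero _ ha), fpow a ha, Int.negSucc_eq]
      push_cast
      ring
  obtain ⟨s, hs, hs1⟩ := hV.exists_ord 1
  have key : ∀ a, a ≠ 0 → f a = ord V a * f s := by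
    intro a ha
    have hz : s ^ ord V a ≠ 0 := zpow_ne_zero _ hs
    have hu : a * (s ^ ord V a)⁻¹ ≠ 0 := mul_ne_zero ha (inv_ne_zero hz)
    have h0 : ord V (a * (s ^ ord V a)⁻¹) = 0 := by
      rw [ord_mul ha (inv_ne_zero hz), ord_inv, ord_zpow, hs1]
      ring
    have h1 := (hmem _ hu).1 ((Ord2_mem hV hu).2 h0.ge)
    have h2 := (hmem _ (inv_ne_zero hu)).1
      ((Ord2_mem hV (inv_ne_zero hu)).2 (by rw [ord_inv, h0]; simp))
    rw [finv _ hu] at h2
    rw [hmul _ _ ha (inv_ne_zero hz), finv _ hz, fzpow _ hs] at h1 h2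
    omega
  obtain ⟨t, ht0, ht1⟩ := ht
  have hs0 : 0 ≤ f s := (hmem s hs).1 ((Ord2_mem hV hs).2 (by omega))
  have hfs : f s = 1 := by
    have := key t ht0
    rw [ht1] at this
    exact Int.eq_one_of_mul_eq_one_left hs0 this.symm
  intro a ha
  rw [key a ha, hfs, mul_one]

theorem Ord2_mk (f : L → ℤ)
    (hmul : ∀ a b, a ≠ 0 → b ≠ 0 → f (a * b) = f a + f b)
    (hmem : ∀ a, a ≠ 0 → (a ∈ V ↔ 0 ≤ f a)) (ht : ∃ t, t ≠ 0 ∧ f t = 1) : Disc V := by
  classical
  have f1 : f 1 = 0 := by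
    have := hmul 1 1 one_ne_zero one_ne_zero
    rw [mul_one] at this
    omega
  have finv : ∀ a, a ≠ 0 → f a⁻¹ = -f a := by
    intro a ha
    have := hmul a a⁻¹ ha (inv_ne_zero ha)
    rw [mul_inv_cancel₀ ha] at this
    omega
  have fadd : ∀ a b, a ≠ 0 → b ≠ 0 → a + b ≠ 0 → f a ≤ f b → f a ≤ f (a + b) := by
    intro a b ha hb hab h
    have h1 : b * a⁻¹ ∈ V := (hmem _ (mul_ne_zero hb (inv_ne_zero ha))).2 (by
      rw [hmul _ _ hb (inv_ne_zero ha), finv _ ha]; omega)
    have h2 : (a + b) * a⁻¹ ∈ V := by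
      rw [add_mul, mul_inv_cancel₀ ha]
      exact add_mem (one_mem _) h1
    have h3 := (hmem _ (mul_ne_zero hab (inv_ne_zero ha))).1 h2
    rw [hmul _ _ hab (inv_ne_zero ha), finv _ ha] at h3
    omega
  let v : Valuation L ℤᵐ⁰ :=
    { toFun := fun a => if a = 0 then 0 else WithZero.exp (-f a)
      map_zero' := by simp
      map_one' := by simp [f1]
      map_mul' := by
        intro a b
        by_cases ha : a = 0
        · simp [ha]
        by_cases hb : b = 0
        · simp [hb]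
        rw [if_neg (mul_ne_zero ha hb), if_neg ha, if_neg hb, hmul a b ha hb, neg_add,
          WithZero.exp_add]
      map_add_le_max' := by
        intro a b
        by_cases ha : a = 0
        · simp [ha]
        by_cases hb : b = 0
        · simp [hb]
        by_cases hab : a + b = 0
        · simp [hab]
        simp only [if_neg ha, if_neg hb, if_neg hab, le_max_iff, WithZero.exp_le_exp]
        rcases le_total (f a) (f b) with h | h
        · left
          have := fadd a b ha hb hab h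
          omega
        · right
          have := fadd b a hb ha (by rwa [add_comm]) h
          rw [add_comm b a] at this
          omega }
  have hv : ∀ a, v a = if a = 0 then 0 else WithZero.exp (-f a) := fun _ => rfl
  refine ⟨v, ?_, ?_⟩
  · obtain ⟨t, ht0, ht1⟩ := ht
    intro x
    by_cases hx : x = 0
    · exact ⟨0, by rw [hx, map_zero]⟩
    · refine ⟨t ^ (-WithZero.log x), ?_⟩
      rw [map_zpow₀, hv, if_neg ht0, ht1, ← WithZero.exp_zsmul]
      simp [WithZero.exp_log hx]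
  · intro a
    by_cases ha : a = 0
    · simp [ha]
    · rw [hv, if_neg ha, hmem a ha, ← WithZero.exp_zero, WithZero.exp_le_exp]
      omega

/-- a discrete valuation ring is a maximal proper subring -/
theorem Disc.eq_or_top (hV : Disc V) {V' : ValuationSubring L} (h : V ≤ V') :
    V' = V ∨ V' = ⊤ := by
  by_cases h' : V' ≤ V
  · exact Or.inl (le_antisymm h' h)
  right
  obtain ⟨a, ha, haV⟩ := SetLike.not_le_iff_exists.1 h'
  have ha0 : a ≠ 0 := fun e => haV (e ▸ zero_mem _)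
  rw [Ord2_mem hV ha0, not_le] at haV
  refine top_unique fun b _ => ?_
  by_cases hb : b = 0
  · exact hb ▸ zero_mem _
  have hp : a ^ (ord V b).natAbs ≠ 0 := pow_ne_zero _ ha0
  have h1 : b / a ^ (ord V b).natAbs ∈ V := by
    rw [Ord2_mem hV (div_ne_zero hb hp), ord_div hb hp, ord_pow]
    have h2 : (0 : ℤ) ≤ ((ord V b).natAbs : ℤ) := Int.natCast_nonneg _
    have h3 : -ord V b ≤ ((ord V b).natAbs : ℤ) := by omega
    nlinarith
  have h2 := mul_mem (h h1) (pow_mem ha (ord V b).natAbs)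
  rwa [div_mul_cancel₀ _ hp] at h2

/-- restriction to a subfield -/
theorem Disc.comap {F : Type*} [Field F] (hV : Disc V) (ψ : F →+* L) :
    V.comap ψ = ⊤ ∨ (Disc (V.comap ψ) ∧
      ∃ e : ℕ, 0 < e ∧ ∀ a, ord V (ψ a) = e * ord (V.comap ψ) a) := by
  classical
  by_cases htop : V.comap ψ = ⊤
  · exact Or.inl htop
  right
  have hne : ∀ {a : F}, a ≠ 0 → ψ a ≠ 0 := fun ha => (map_ne_zero ψ).2 ha
  have hex : ∃ e : ℕ, 0 < e ∧ ∃ t : F, t ≠ 0 ∧ ord V (ψ t) = e := by
    have h1 : ¬ (⊤ : ValuationSubring F) ≤ V.comap ψ := fun h => htop (top_unique h)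
    obtain ⟨a, -, haV⟩ := SetLike.not_le_iff_exists.1 h1
    have ha0 : a ≠ 0 := fun e => haV (e ▸ zero_mem _)
    rw [ValuationSubring.mem_comap, Ord2_mem hV (hne ha0), not_le] at haV
    refine ⟨(ord V (ψ a)).natAbs, by omega, a⁻¹, inv_ne_zero ha0, ?_⟩
    rw [map_inv₀, ord_inv]
    omega
  obtain ⟨he, t, ht0, ht⟩ := Nat.find_spec hex
  set e := Nat.find hex with he_def
  have he' : (0 : ℤ) < e := by exact_mod_cast he
  have hdvd : ∀ a : F, a ≠ 0 → (e : ℤ) ∣ ord V (ψ a) := by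
    intro a ha
    by_contra hnd
    have h0 : ord V (ψ a) % e ≠ 0 := fun h => hnd (Int.dvd_of_emod_eq_zero h)
    have h1 := Int.emod_nonneg (ord V (ψ a)) he'.ne'
    have h2 := Int.emod_lt_of_pos (ord V (ψ a)) he'
    have hz : t ^ (ord V (ψ a) / e) ≠ 0 := zpow_ne_zero _ ht0
    refine Nat.find_min hex (m := (ord V (ψ a) % e).natAbs) (by omega)
      ⟨by omega, a / t ^ (ord V (ψ a) / e), div_ne_zero ha hz, ?_⟩
    rw [map_div₀, ord_div (hne ha) (hne hz), map_zpow₀, ord_zpow, ht]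
    have h3 := Int.emod_add_mul_ediv (ord V (ψ a)) e
    rw [Int.natAbs_of_nonneg h1]
    linarith
  have hmul : ∀ a b : F, a ≠ 0 → b ≠ 0 →
      ord V (ψ (a * b)) / e = ord V (ψ a) / e + ord V (ψ b) / e := by
    intro a b ha hb
    rw [map_mul, ord_mul (hne ha) (hne hb), Int.add_ediv_of_dvd_left (hdvd a ha)]
  have hmem : ∀ a : F, a ≠ 0 → (a ∈ V.comap ψ ↔ 0 ≤ ord V (ψ a) / e) := by
    intro a ha
    rw [ValuationSubring.mem_comap, Ord2_mem hV (hne ha), Int.ediv_nonneg_iff_of_pos he']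
  have ht' : ∃ t : F, t ≠ 0 ∧ ord V (ψ t) / e = 1 := ⟨t, ht0, by rw [ht, Int.ediv_self he'.ne']⟩
  have hD : Disc (V.comap ψ) := Ord2_mk (fun a => ord V (ψ a) / e) hmul hmem ht'
  refine ⟨hD, e, he, fun a => ?_⟩
  by_cases ha : a = 0
  · simp [ha]
  rw [Ord2_ord_eq hD (fun a => ord V (ψ a) / e) hmul hmem ht' a ha]
  exact (Int.mul_ediv_cancel' (hdvd a ha)).symm

theorem ord_of_comap_top {F : Type*} [Field F] {ψ : F →+* L} (h : V.comap ψ = ⊤) (a : F) :
    ord V (ψ a) = 0 := by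
  by_cases hV : Disc V
  · by_cases ha : a = 0
    · simp [ha]
    have hm : ∀ c : F, ψ c ∈ V := fun c =>
      ValuationSubring.mem_comap.1 (h ▸ ValuationSubring.mem_top c)
    have h1 := (Ord2_mem hV ((map_ne_zero ψ).2 ha)).1 (hm a)
    have h2 := (Ord2_mem hV ((map_ne_zero ψ).2 (inv_ne_zero ha))).1 (hm a⁻¹)
    rw [map_inv₀, ord_inv] at h2
    omega
  · unfold ord
    rw [dif_neg hV]

theorem Ord2_val_eq_one : V.valuation a = 1 ↔ a ≠ 0 ∧ a ∈ V ∧ a⁻¹ ∈ V := by
  rw [← V.valuation_le_one_iff, ← V.valuation_le_one_iff, map_inv₀]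
  constructor
  · intro h
    refine ⟨fun e => ?_, h.le, by rw [h, inv_one]⟩
    rw [e, map_zero] at h
    exact zero_ne_one h
  · rintro ⟨h0, h1, h2⟩
    have h3 : 0 < V.valuation a := (Valuation.pos_iff _).2 h0
    exact le_antisymm h1 ((inv_le_one₀ h3).1 h2)

theorem val_comap_eq_one {F : Type*} [Field F] (ψ : F →+* L) (a : F) :
    (V.comap ψ).valuation a = 1 ↔ V.valuation (ψ a) = 1 := by
  rw [Ord2_val_eq_one, Ord2_val_eq_one, ValuationSubring.mem_comap, ValuationSubring.mem_comap,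
    map_inv₀, map_ne_zero]

theorem val_comap_lt_one {F : Type*} [Field F] (ψ : F →+* L) (a : F) :
    (V.comap ψ).valuation a < 1 ↔ V.valuation (ψ a) < 1 := by
  rw [lt_iff_le_and_ne, lt_iff_le_and_ne, ValuationSubring.valuation_le_one_iff,
    ValuationSubring.valuation_le_one_iff, ValuationSubring.mem_comap, Ne, Ne, val_comap_eq_one]

theorem Ord2_pair {W : ValuationSubring L} (hV : Disc V) (hW : Disc W) (h : W ≠ V) :
    ∃ b, b ≠ 0 ∧ ord V b < 0 ∧ 0 < ord W b := by
  have h1 : ¬ V ≤ W := fun h' => (hV.eq_or_top h').elim h hW.ne_top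
  have h2 : ¬ W ≤ V := fun h' => (hW.eq_or_top h').elim (fun e => h e.symm) hV.ne_top
  obtain ⟨x, hx, hx'⟩ := SetLike.not_le_iff_exists.1 h1
  obtain ⟨y, hy, hy'⟩ := SetLike.not_le_iff_exists.1 h2
  have hx0 : x ≠ 0 := fun e => hx' (e ▸ zero_mem _)
  have hy0 : y ≠ 0 := fun e => hy' (e ▸ zero_mem _)
  rw [Ord2_mem hV hx0] at hx
  rw [Ord2_mem hW hx0] at hx'
  rw [Ord2_mem hW hy0] at hy
  rw [Ord2_mem hV hy0] at hy'
  refine ⟨y / x, div_ne_zero hy0 hx0, ?_, ?_⟩
  · rw [ord_div hy0 hx0]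
    omega
  · rw [ord_div hy0 hx0]
    omega

theorem Ord2_one_add_neg (ha : a ≠ 0) (h : ord V a < 0) :
    1 + a ≠ 0 ∧ ord V (1 + a) = ord V a := by
  rw [add_comm]
  exact ord_add_of_ge ha ((ge_iff one_ne_zero).2 (by rw [ord_one]; omega))

theorem Ord2_one_add_pos (ha : a ≠ 0) (h : 0 < ord V a) : ord V (1 + a) = 0 := by
  have := (ord_add_of_ge (V := V) (a := 1) (b := a) one_ne_zero
    ((ge_iff ha).2 (by rw [ord_one]; omega))).2
  rwa [ord_one] at this

theorem Ord2_sep (hV : Disc V) (T : Finset (ValuationSubring L))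
    (hT : ∀ W ∈ T, Disc W ∧ W ≠ V) : ∃ a, a ≠ 0 ∧ ord V a < 0 ∧ ∀ W ∈ T, 0 < ord W a := by
  classical
  induction T using Finset.induction_on with
  | empty =>
    obtain ⟨a, ha, h⟩ := hV.exists_ord (-1)
    exact ⟨a, ha, by omega, by simp⟩
  | insert W T hW ih =>
    obtain ⟨a, ha, haV, haT⟩ := ih fun W' h => hT W' (Finset.mem_insert_of_mem h)
    obtain ⟨hWd, hWV⟩ := hT W (Finset.mem_insert_self _ _)
    obtain ⟨b, hb, hbV, hbW⟩ := Ord2_pair hV hWd hWV
    obtain ⟨c, hc, hcV, hcW, hcT⟩ :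
        ∃ c, c ≠ 0 ∧ ord V c ≤ 0 ∧ 0 ≤ ord W c ∧ ∀ W' ∈ T, 0 < ord W' c := by
      rcases le_or_gt 0 (ord W a) with h | h
      · exact ⟨a, ha, haV.le, h, haT⟩
      · obtain ⟨h1, h2⟩ := Ord2_one_add_neg ha haV
        refine ⟨a / (1 + a), div_ne_zero ha h1, ?_, ?_, fun W' hW' => ?_⟩
        · rw [ord_div ha h1, h2]
          omega
        · rw [ord_div ha h1, (Ord2_one_add_neg ha h).2]
          omega
        · rw [ord_div ha h1, Ord2_one_add_pos ha (haT W' hW')]
          have := haT W' hW'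
          omega
    set N : ℕ := 1 + ∑ W' ∈ T, (ord W' b).natAbs with hN
    have hN0 : (0 : ℤ) ≤ N := Int.natCast_nonneg _
    refine ⟨c ^ N * b, mul_ne_zero (pow_ne_zero _ hc) hb, ?_, fun W' hW' => ?_⟩
    · rw [ord_mul (pow_ne_zero _ hc) hb, ord_pow]
      nlinarith
    · rw [ord_mul (pow_ne_zero _ hc) hb, ord_pow]
      rcases Finset.mem_insert.1 hW' with rfl | hW'
      · nlinarith
      · have h1 : (ord W' b).natAbs ≤ ∑ W' ∈ T, (ord W' b).natAbs :=
          Finset.single_le_sum (f := fun W' => (ord W' b).natAbs) (fun _ _ => Nat.zero_le _) hW'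
        have h2 : -ord W' b + 1 ≤ N := by omega
        have h3 := hcT W' hW'
        nlinarith

/-- weak approximation -/
theorem approx (S : Finset (ValuationSubring L)) (hS : ∀ V ∈ S, Disc V) (hV : V ∈ S) (M : ℤ) :
    ∃ c, Ge V M (c - 1) ∧ ∀ V' ∈ S, V' ≠ V → Ge V' M c := by
  classical
  obtain ⟨a, ha, haV, haT⟩ := Ord2_sep (hS V hV) (S.erase V) fun W hW =>
    ⟨hS W (Finset.mem_of_mem_erase hW), Finset.ne_of_mem_erase hW⟩
  set N : ℕ := 1 + M.natAbs with hN
  have hN1 : (1 : ℤ) ≤ N := by omega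
  have hNM : M ≤ N := by omega
  have hp : a ^ N ≠ 0 := pow_ne_zero _ ha
  have hpV : ord V (a ^ N) ≤ -N := by
    rw [ord_pow]
    nlinarith
  obtain ⟨h1, h2⟩ := Ord2_one_add_neg (V := V) hp (by omega)
  refine ⟨a ^ N / (1 + a ^ N), ?_, fun W hW hWV => ?_⟩
  · have : a ^ N / (1 + a ^ N) - 1 = -(1 + a ^ N)⁻¹ := by
      field_simp
      ring
    rw [this]
    right
    rw [ord_neg, ord_inv, h2]
    omega
  · have h3 := haT W (Finset.mem_erase.2 ⟨hWV, hW⟩)
    have h4 : (N : ℤ) ≤ ord W (a ^ N) := by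
      rw [ord_pow]
      nlinarith
    right
    rw [ord_div hp h1, Ord2_one_add_pos hp (by omega)]
    omega

theorem disc_of_dvr [IsDiscreteValuationRing V] : Disc V := by
  refine ⟨(IsDiscreteValuationRing.maximalIdeal V).valuation L,
    IsDedekindDomain.HeightOneSpectrum.valuation_surjective L _, fun a => ⟨fun h => ?_, fun h => ?_⟩⟩
  · exact IsDedekindDomain.HeightOneSpectrum.valuation_le_one (K := L) _ (⟨a, h⟩ : V)
  · obtain ⟨b, rfl⟩ := IsDiscreteValuationRing.exists_lift_of_le_one h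
    exact b.2

/-- the valuation ring of a prime element of a factorial domain -/
theorem exists_disc_prime {R : Type*} [CommRing R] [IsDomain R] [UniqueFactorizationMonoid R]
    [Algebra R L] [IsFractionRing R L] {π : R} (hπ : Prime π) :
    ∃ V : ValuationSubring L, Disc V ∧ ord V (algebraMap R L π) = 1 ∧
      ∀ r, algebraMap R L r ∈ V ∧ (V.valuation (algebraMap R L r) < 1 ↔ π ∣ r) := by
  classical
  have hfin : ∀ {r : R}, r ≠ 0 → FiniteMultiplicity π r := fun hr =>
    FiniteMultiplicity.of_prime_left hπ hr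
  let v₀ : Valuation R ℤᵐ⁰ :=
    { toFun := fun r => if r = 0 then 0 else WithZero.exp (-(multiplicity π r : ℤ))
      map_zero' := by simp
      map_one' := by
        have : multiplicity π 1 = 0 := multiplicity_eq_zero.2 hπ.not_dvd_one
        simp [this]
      map_mul' := by
        intro a b
        by_cases ha : a = 0
        · simp [ha]
        by_cases hb : b = 0
        · simp [hb]
        rw [if_neg (mul_ne_zero ha hb), if_neg ha, if_neg hb,
          multiplicity_mul hπ (hfin (mul_ne_zero ha hb)), Nat.cast_add, neg_add, WithZero.exp_add]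
      map_add_le_max' := by
        intro a b
        by_cases ha : a = 0
        · simp [ha]
        by_cases hb : b = 0
        · simp [hb]
        by_cases hab : a + b = 0
        · simp [hab]
        simp only [if_neg ha, if_neg hb, if_neg hab, le_max_iff, WithZero.exp_le_exp,
          neg_le_neg_iff, Nat.cast_le]
        rw [← min_le_iff, ← (hfin hab).pow_dvd_iff_le_multiplicity]
        exact dvd_add ((hfin ha).pow_dvd_iff_le_multiplicity.2 (min_le_left _ _))
          ((hfin hb).pow_dvd_iff_le_multiplicity.2 (min_le_right _ _)) }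
  have hv₀ : ∀ r, v₀ r = if r = 0 then 0 else WithZero.exp (-(multiplicity π r : ℤ)) :=
    fun _ => rfl
  have hS : nonZeroDivisors R ≤ v₀.supp.primeCompl := by
    intro s hs
    have hs0 : s ≠ 0 := nonZeroDivisors.ne_zero hs
    change ¬ s ∈ v₀.supp
    rw [Valuation.mem_supp_iff, hv₀, if_neg hs0]
    exact WithZero.exp_ne_zero
  let v : Valuation L ℤᵐ⁰ := v₀.extendToLocalization hS L
  have hv : ∀ r, v (algebraMap R L r) = v₀ r := fun r =>
    Valuation.extendToLocalization_apply_map_apply v₀ hS L r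
  have hπ0 : algebraMap R L π ≠ 0 :=
    (map_ne_zero_iff _ (IsFractionRing.injective R L)).2 hπ.ne_zero
  have hvπ : v (algebraMap R L π) = WithZero.exp (-1) := by
    rw [hv, hv₀, if_neg hπ.ne_zero, multiplicity_self, Nat.cast_one]
  have hne : ∀ {a : L}, a ≠ 0 → v a ≠ 0 := fun ha => (Valuation.ne_zero_iff v).2 ha
  have hmul : ∀ a b : L, a ≠ 0 → b ≠ 0 →
      -WithZero.log (v (a * b)) = -WithZero.log (v a) + -WithZero.log (v b) := by
    intro a b ha hb
    rw [map_mul, WithZero.log_mul (hne ha) (hne hb), neg_add]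
  have hmem : ∀ a : L, a ≠ 0 → (a ∈ v.valuationSubring ↔ 0 ≤ -WithZero.log (v a)) := by
    intro a ha
    rw [Valuation.mem_valuationSubring_iff, neg_nonneg, WithZero.log_le_iff_le_exp (hne ha),
      WithZero.exp_zero]
  have ht : -WithZero.log (v (algebraMap R L π)) = 1 := by
    rw [hvπ, WithZero.log_exp, neg_neg]
  have hD : Disc v.valuationSubring :=
    Ord2_mk (fun a => -WithZero.log (v a)) hmul hmem ⟨_, hπ0, ht⟩
  have hord := Ord2_ord_eq hD (fun a => -WithZero.log (v a)) hmul hmem ⟨_, hπ0, ht⟩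
  refine ⟨v.valuationSubring, hD, (hord _ hπ0).trans ht, fun r => ?_⟩
  by_cases hr : r = 0
  · subst hr
    simp
  have hr0 : algebraMap R L r ≠ 0 := (map_ne_zero_iff _ (IsFractionRing.injective R L)).2 hr
  have hor : ord v.valuationSubring (algebraMap R L r) = multiplicity π r := by
    rw [hord _ hr0, hv, hv₀, if_neg hr, WithZero.log_exp, neg_neg]
  refine ⟨(Ord2_mem hD hr0).2 (by rw [hor]; exact Int.natCast_nonneg _), ?_⟩
  rw [val_lt_one_iff (Or.inl hD), ge_iff hr0, hor, ← dvd_iff_multiplicity_pos]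
  omega

/-- Chevalley extension -/
theorem exists_comap_eq {F : Type*} [Field F] (ψ : F →+* L) (V₀ : ValuationSubring F) :
    ∃ V : ValuationSubring L, V.comap ψ = V₀ := by
  obtain ⟨V, hle, hloc⟩ := (V₀.toLocalSubring.map ψ).exists_le_valuationSubring
  have hsub : ∀ c ∈ V₀, ψ c ∈ (V₀.toLocalSubring.map ψ).toSubring := fun c hc => ⟨c, hc, rfl⟩
  refine ⟨V, le_antisymm (fun a ha => ?_) fun a ha => hle (hsub a ha)⟩
  rcases V₀.mem_or_inv_mem a with h | h
  · exact h
  by_cases ha0 : a = 0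
  · exact ha0 ▸ zero_mem _
  have ha' : ψ a ∈ V := ha
  have hu : IsUnit (Subring.inclusion hle ⟨ψ a⁻¹, hsub _ h⟩) := by
    refine IsUnit.of_mul_eq_one ⟨ψ a, ha'⟩ (Subtype.ext ?_)
    change ψ a⁻¹ * ψ a = 1
    rw [← map_mul, inv_mul_cancel₀ ha0, map_one]
  obtain ⟨⟨y, c, hc, rfl⟩, hy⟩ := (hloc.1 _ hu).exists_right_inv
  have h1 : ψ a⁻¹ * ψ c = 1 := congrArg Subtype.val hy
  rw [← map_mul, ← map_one ψ] at h1
  have h2 : c = a := by
    have := ψ.injective h1
    field_simp at this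
    exact this
  exact h2 ▸ hc

theorem mem_of_monic (P : L[X]) (hP : P.Monic) (hc : ∀ i, P.coeff i ∈ V) (h : P.eval a = 0) :
    a ∈ V := by
  have h1 : P ∈ Polynomial.lifts (algebraMap V L) :=
    (Polynomial.lifts_iff_coeff_lifts P).2 fun i => ⟨⟨_, hc i⟩, rfl⟩
  obtain ⟨Q, hQ, -, hQm⟩ := Polynomial.lifts_and_natDegree_eq_and_monic h1 hP
  have h2 : IsIntegral V a := ⟨Q, hQm, by rw [← Polynomial.eval_map, hQ, h]⟩
  obtain ⟨y, rfl⟩ := IsIntegrallyClosed.isIntegral_iff.1 h2
  exact y.2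

theorem eq_top_of_algebraic {F : Type*} [Field F] [Algebra F L] [Algebra.IsAlgebraic F L]
    (h : ∀ c, algebraMap F L c ∈ V) : V = ⊤ := by
  refine top_unique fun a _ => ?_
  obtain ⟨Q, hQm, hQ⟩ := (Algebra.IsAlgebraic.isAlgebraic (R := F) a).isIntegral
  refine mem_of_monic (Q.map (algebraMap F L)) (hQm.map _) (fun i => ?_) ?_
  · rw [Polynomial.coeff_map]
    exact h _
  · rw [Polynomial.eval_map, hQ]

theorem exists_min_coord [Finite ι] (V : ValuationSubring L) {w : ι → L} (hw : w ≠ 0) :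
    ∃ j, w j ≠ 0 ∧ ∀ i, w i / w j ∈ V := by
  obtain ⟨i₀, hi₀⟩ := Function.ne_iff.1 hw
  have : Nonempty ι := ⟨i₀⟩
  obtain ⟨j, hj⟩ := Finite.exists_max fun i => V.valuation (w i)
  have h0 : 0 < V.valuation (w j) := ((Valuation.pos_iff _).2 hi₀).trans_le (hj i₀)
  refine ⟨j, (Valuation.pos_iff _).1 h0, fun i => ?_⟩
  rw [← V.valuation_le_one_iff, map_div₀, div_le_one₀ h0]
  exact hj i

theorem aeval_mem {k σ : Type*} [Field k] [Algebra k L] (hk : ∀ c, algebraMap k L c ∈ V)
    {z : σ → L} (hz : ∀ i, z i ∈ V) (f : MvPolynomial σ k) : MvPolynomial.aeval z f ∈ V := by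
  induction f using MvPolynomial.induction_on with
  | C c => rw [MvPolynomial.aeval_C]; exact hk c
  | add f g hf hg => rw [map_add]; exact add_mem hf hg
  | mul_X f i hf => rw [map_mul, MvPolynomial.aeval_X]; exact mul_mem hf (hz i)

theorem ResInd.const {k σ : Type*} [Field k] [Algebra k L] {z : σ → L} (h : ResInd k V z) (c : k) :
    algebraMap k L c ∈ V := by
  by_cases hc : c = 0
  · rw [hc, map_zero]
    exact zero_mem _
  have := h (MvPolynomial.C c) (by simpa using hc)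
  rw [MvPolynomial.aeval_C] at this
  exact (V.valuation_le_one_iff _).1 this.le

theorem ResInd.mem {k σ : Type*} [Field k] [Algebra k L] {z : σ → L} (h : ResInd k V z) :
    ∀ c ∈ IntermediateField.adjoin k (Set.range z), c ∈ V := by
  intro c hc
  obtain ⟨r, s, rfl⟩ := (IntermediateField.mem_adjoin_range_iff k z c).1 hc
  by_cases hr : r = 0
  · simp [hr]
  by_cases hs : s = 0
  · simp [hs]
  rw [← V.valuation_le_one_iff, map_div₀, h r hr, h s hs, div_one]

theorem ResInd.indep {k σ : Type*} [Field k] [Algebra k L] {z : σ → L} (h : ResInd k V z) :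
    AlgebraicIndependent k z := by
  refine algebraicIndependent_iff.2 fun g hg => ?_
  by_contra hg0
  have := h g hg0
  rw [hg, map_zero] at this
  exact zero_ne_one this

theorem resInd_of_mem {k σ : Type*} [Field k] [Algebra k L] {z : σ → L}
    (hz : AlgebraicIndependent k z)
    (h : ∀ c ∈ IntermediateField.adjoin k (Set.range z), c ∈ V) : ResInd k V z := by
  intro g hg
  have h1 : MvPolynomial.aeval z g ∈ IntermediateField.adjoin k (Set.range z) :=
    (IntermediateField.mem_adjoin_range_iff k z _).2 ⟨g, 1, by simp⟩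
  exact Ord2_val_eq_one.2 ⟨fun e => hg (algebraicIndependent_iff.1 hz g e), h _ h1,
    h _ (inv_mem h1)⟩

end Pool.Agent.Lib.MP_7fcda1_ag
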