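import Pool.Agent.Lib.MP_7fcda1_ag.Ord2

open scoped IntermediateField Polynomial WithZero
open Module

noncomputable section

universe u

namespace Pool.Agent.Lib.MP_7fcda1_ag


variable {F L : Type*} [Field F] [Field L] {ι ι' : Type*} {r : ℕ}

theorem eq_sum_echelon {e : Fin r → ι → F} {f : Fin r → ι}
    (h : ∀ i j, e i (f j) = if i = j then 1 else 0) {w : ι → F}
    (hw : w ∈ Submodule.span F (Set.range e)) : w = ∑ i, w (f i) • e i := by
  obtain ⟨c, rfl⟩ := (Submodule.mem_span_range_iff_exists_fun F).1 hw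
  refine Finset.sum_congr rfl fun i _ => ?_
  congr 1
  simp [Finset.sum_apply, h]

theorem linearIndependent_echelon {e : Fin r → ι → F} {f : Fin r → ι}
    (h : ∀ i j, e i (f j) = if i = j then 1 else 0) : LinearIndependent F e := by
  rw [Fintype.linearIndependent_iff]
  intro c hc i
  have := congrFun hc (f i)
  simpa [Finset.sum_apply, h] using this

theorem exists_ker_eq [Fintype ι] (W : Submodule F (ι → F)) :
    ∃ φ : Matrix ι ι F, LinearMap.ker φ.mulVecLin = W := by
  classical
  obtain ⟨W', h⟩ := W.exists_isCompl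
  refine ⟨LinearMap.toMatrix' (Submodule.projection W' W h.symm), ?_⟩
  rw [← Matrix.toLin'_apply', Matrix.toLin'_toMatrix']
  exact Submodule.ker_projection _

theorem pl_map {R S : Type*} [CommRing R] [CommRing S] (χ : R →+* S) (w : Fin r → ι → R) :
    pl (fun s i => χ (w s i)) = fun f => χ (pl w f) := by
  funext f
  simp only [pl]
  rw [RingHom.map_det]
  rfl

theorem pl_mul {R : Type*} [CommRing R] (A : Matrix (Fin r) (Fin r) R) (w : Fin r → ι → R) :
    pl (fun s => ∑ t, A s t • w t) = A.det • pl w := by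
  funext f
  simp only [pl, Pi.smul_apply, smul_eq_mul]
  rw [← Matrix.det_mul]
  congr 1
  ext i j
  simp [Matrix.mul_apply, Finset.sum_apply]

theorem pl_ne_zero_iff [Finite ι] {w : Fin r → ι → F} : pl w ≠ 0 ↔ LinearIndependent F w := by
  classical
  constructor
  · intro h
    obtain ⟨f, hf⟩ := Function.ne_iff.1 h
    have h1 := Matrix.linearIndependent_rows_of_det_ne_zero
      (A := Matrix.of fun i j => w i (f j)) hf
    exact LinearIndependent.of_comp (LinearMap.funLeft F F f) h1
  · intro h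
    cases nonempty_fintype ι
    let M : Matrix (Fin r) ι F := Matrix.of w
    have hr : M.rank = r := by
      have := LinearIndependent.rank_matrix (M := M) h
      simpa using this
    rw [Matrix.rank_eq_finrank_span_cols] at hr
    obtain ⟨κ, a, ha, hsp, hli⟩ := exists_linearIndependent' F M.col
    have : Finite κ := Finite.of_injective a ha
    cases nonempty_fintype κ
    have hc : Fintype.card κ = r := by
      rw [← hr, ← hsp]
      exact (finrank_span_eq_card hli).symm
    let q : Fin r ≃ κ := (Fintype.equivFinOfCardEq hc).symm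
    have h2 : LinearIndependent F (Matrix.of fun i j => w i (a (q j))).col :=
      hli.comp q q.injective
    have h3 := Matrix.linearIndependent_cols_iff_isUnit.1 h2
    intro h0
    have h4 : pl w (fun j => a (q j)) = 0 := by rw [h0]; rfl
    exact ((Matrix.isUnit_iff_isUnit_det _).1 h3).ne_zero h4

theorem lin_exists_matrix {w w' : Fin r → ι → F}
    (h : ∀ s, w s ∈ Submodule.span F (Set.range w')) :
    ∃ A : Matrix (Fin r) (Fin r) F, w = fun s => ∑ t, A s t • w' t := by
  choose c hc using fun s => (Submodule.mem_span_range_iff_exists_fun F).1 (h s)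
  exact ⟨Matrix.of c, funext fun s => (hc s).symm⟩

/-- two bases of the same subspace have proportional Pluecker vectors -/
theorem pl_eq_smul [Finite ι] {w w' : Fin r → ι → F} (hw : LinearIndependent F w)
    (h : Submodule.span F (Set.range w) = Submodule.span F (Set.range w')) :
    ∃ c : F, c ≠ 0 ∧ pl w = c • pl w' := by
  obtain ⟨A, hA⟩ := lin_exists_matrix (w := w) (w' := w') fun s =>
    h ▸ Submodule.subset_span ⟨s, rfl⟩
  have h1 : pl w = A.det • pl w' := by rw [← pl_mul, ← hA]
  refine ⟨A.det, fun h0 => pl_ne_zero_iff.2 hw ?_, h1⟩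
  rw [h1, h0, zero_smul]

theorem lin_pl_update {e : Fin r → ι → F} {f : Fin r → ι}
    (h : ∀ i j, e i (f j) = if i = j then 1 else 0) (i : Fin r) (j : ι) :
    pl e (Function.update f i j) = e i j := by
  have h1 : (Matrix.of fun s t => e s (Function.update f i j t)) =
      (1 : Matrix (Fin r) (Fin r) F).updateCol i fun s => e s j := by
    ext s t
    by_cases ht : t = i
    · subst ht
      simp
    · simp [ht, h, Matrix.one_apply]
  simp only [pl]
  rw [h1, ← Matrix.cramer_apply, Matrix.cramer_one]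
  rfl

theorem lin_pl_self {e : Fin r → ι → F} {f : Fin r → ι}
    (h : ∀ i j, e i (f j) = if i = j then 1 else 0) : pl e f = 1 := by
  have h1 : (Matrix.of fun s t => e s (f t)) = (1 : Matrix (Fin r) (Fin r) F) := by
    ext s t
    simp [h, Matrix.one_apply]
  simp only [pl]
  rw [h1, Matrix.det_one]

/-- the echelon form at a nonzero minor -/
theorem echelon_at [Finite ι] {w : Fin r → ι → F} {f : Fin r → ι} (hf : pl w f ≠ 0) :
    ∃ e : Fin r → ι → F, Submodule.span F (Set.range e) = Submodule.span F (Set.range w) ∧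
      (∀ i j, e i (f j) = if i = j then 1 else 0) ∧
      (∀ i j, e i j = pl w (Function.update f i j) / pl w f) ∧
      ∀ g, pl e g = pl w g / pl w f := by
  let A : Matrix (Fin r) (Fin r) F := Matrix.of fun i j => w i (f j)
  have hA : IsUnit A.det := Ne.isUnit hf
  let e : Fin r → ι → F := fun s => ∑ t, A⁻¹ s t • w t
  have h1 : ∀ i j, e i (f j) = if i = j then 1 else 0 := by
    intro i j
    have := congrFun (congrFun (Matrix.nonsing_inv_mul A hA) i) j
    rw [Matrix.mul_apply, Matrix.one_apply] at this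
    rw [← this]
    simp [e, A, Finset.sum_apply]
  have h2 : ∀ g, pl e g = pl w g / pl w f := by
    intro g
    have := congrFun (pl_mul A⁻¹ w) g
    rw [Pi.smul_apply, Matrix.det_nonsing_inv, Ring.inverse_eq_inv', smul_eq_mul] at this
    rw [div_eq_inv_mul]
    exact this
  refine ⟨e, ?_, h1, fun i j => by rw [← h2, lin_pl_update h1], h2⟩
  apply Submodule.eq_of_le_of_finrank_eq
  · rw [Submodule.span_le]
    rintro _ ⟨s, rfl⟩
    exact Submodule.sum_mem _ fun t _ => Submodule.smul_mem _ _ (Submodule.subset_span ⟨t, rfl⟩)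
  · have hw : LinearIndependent F w := pl_ne_zero_iff.1 fun h0 => hf (by rw [h0]; rfl)
    rw [finrank_span_eq_card (linearIndependent_echelon h1), finrank_span_eq_card hw]

/-- echelon form over a valuation ring -/
theorem lin_echelon [Finite ι] (V : ValuationSubring F) {w : Fin r → ι → F}
    (hw : LinearIndependent F w) :
    ∃ (e : Fin r → ι → F) (f : Fin r → ι), pl w f ≠ 0 ∧
      Submodule.span F (Set.range e) = Submodule.span F (Set.range w) ∧
      (∀ i j, e i (f j) = if i = j then 1 else 0) ∧ (∀ i j, e i j ∈ V) ∧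
      (∀ g, pl e g = pl w g / pl w f) ∧ ∀ g, pl e g ∈ V := by
  obtain ⟨f, hf, hmin⟩ := exists_min_coord V (pl_ne_zero_iff.2 hw)
  obtain ⟨e, h1, h2, h3, h4⟩ := echelon_at hf
  exact ⟨e, f, hf, h1, h2, fun i j => h3 i j ▸ hmin _, h4, fun g => h4 g ▸ hmin _⟩

theorem lin_span_finBasis [Finite ι] (W : Submodule F (ι → F)) :
    LinearIndependent F (fun i => (Module.finBasis F W i : ι → F)) ∧
      Submodule.span F (Set.range fun i => (Module.finBasis F W i : ι → F)) = W := by
  refine ⟨(Module.finBasis F W).linearIndependent.map' W.subtype W.ker_subtype, ?_⟩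
  have h : (Set.range fun i => (Module.finBasis F W i : ι → F)) =
      W.subtype '' Set.range (Module.finBasis F W) := by
    rw [← Set.range_comp]
    rfl
  rw [h, ← Submodule.map_span, Basis.span_eq, Submodule.map_top, Submodule.range_subtype]

theorem echelon [Finite ι] (V : ValuationSubring F) (W : Submodule F (ι → F)) :
    ∃ (e : Fin (finrank F W) → ι → F) (f : Fin (finrank F W) → ι),
      Submodule.span F (Set.range e) = W ∧ (∀ i j, e i (f j) = if i = j then 1 else 0) ∧
        ∀ i j, e i j ∈ V := by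
  obtain ⟨e, f, -, h1, h2, h3, -⟩ := lin_echelon V (lin_span_finBasis W).1
  exact ⟨e, f, h1.trans (lin_span_finBasis W).2, h2, h3⟩

variable (ψ : F →+* L)

theorem bc_span (S : Set (ι → F)) :
    bc ψ (Submodule.span F S) = Submodule.span L ((fun (w : ι → F) i => ψ (w i)) '' S) := by
  apply le_antisymm
  · rw [bc, Submodule.span_le]
    rintro _ ⟨w, hw, rfl⟩
    induction hw using Submodule.span_induction with
    | mem x hx => exact Submodule.subset_span ⟨x, hx, rfl⟩
    | zero =>
      have : (fun i => ψ ((0 : ι → F) i)) = 0 := by funext i; simp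
      simp only [this, SetLike.mem_coe, Submodule.zero_mem]
    | add x y _ _ hx hy =>
      have : (fun i => ψ ((x + y) i)) = (fun i => ψ (x i)) + fun i => ψ (y i) := by
        funext i; simp
      simp only [this, SetLike.mem_coe]
      exact Submodule.add_mem _ hx hy
    | smul c x _ hx =>
      have : (fun i => ψ ((c • x) i)) = ψ c • fun i => ψ (x i) := by funext i; simp
      simp only [this, SetLike.mem_coe]
      exact Submodule.smul_mem _ _ hx
  · exact Submodule.span_mono (Set.image_mono Submodule.subset_span)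

theorem bc_mono {W W' : Submodule F (ι → F)} (h : W ≤ W') : bc ψ W ≤ bc ψ W' :=
  Submodule.span_mono (Set.image_mono h)

theorem bc_comp {E : Type*} [Field E] (χ : L →+* E) (W : Submodule F (ι → F)) :
    bc χ (bc ψ W) = bc (χ.comp ψ) W := by
  conv_lhs => rw [bc.eq_1 ψ W]
  rw [bc_span, Set.image_image]
  rfl

theorem bc_id (W : Submodule F (ι → F)) : bc (RingHom.id F) W = W := by
  simp [bc]

theorem bc_top [Finite ι] : bc ψ (⊤ : Submodule F (ι → F)) = ⊤ := by
  classical
  cases nonempty_fintype ι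
  rw [eq_top_iff]
  intro v _
  rw [pi_eq_sum_univ v]
  refine Submodule.sum_mem _ fun i _ => Submodule.smul_mem _ _ (Submodule.subset_span ?_)
  refine ⟨fun j => if i = j then 1 else 0, trivial, ?_⟩
  funext j
  by_cases h : i = j <;> simp [h]

theorem linearIndependent_map [Finite ι] {σ : Type*} {w : σ → ι → F}
    (h : LinearIndependent F w) : LinearIndependent L fun s i => ψ (w s i) := by
  let := ψ.toAlgebra
  exact (linearIndependent_algebraMap_comp_iff (R := F) (S := L)).2 h

theorem finrank_bc [Finite ι] (W : Submodule F (ι → F)) : finrank L (bc ψ W) = finrank F W := by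
  obtain ⟨h1, h2⟩ := lin_span_finBasis W
  have h3 : bc ψ W =
      Submodule.span L (Set.range fun s i => ψ ((Module.finBasis F W s : ι → F) i)) := by
    conv_lhs => rw [← h2]
    rw [bc_span, ← Set.range_comp]
    rfl
  rw [h3, finrank_span_eq_card (linearIndependent_map ψ h1), Fintype.card_fin]

theorem lin_map_mulVec [Fintype ι] (φ : Matrix ι' ι F) (w : ι → F) :
    (fun i => ψ (φ.mulVecLin w i)) = (φ.map ψ).mulVecLin fun i => ψ (w i) := by
  funext i
  exact RingHom.map_mulVec ψ φ w i

theorem bc_map [Fintype ι] (φ : Matrix ι' ι F) (W : Submodule F (ι → F)) :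
    bc ψ (W.map φ.mulVecLin) = (bc ψ W).map (φ.map ψ).mulVecLin := by
  rw [bc, bc, Submodule.map_span, Submodule.map_coe, Set.image_image, Set.image_image]
  congr 2
  funext w
  exact lin_map_mulVec ψ φ w

theorem bc_ker [Fintype ι] [Finite ι'] (φ : Matrix ι' ι F) :
    bc ψ (LinearMap.ker φ.mulVecLin) = LinearMap.ker (φ.map ψ).mulVecLin := by
  apply Submodule.eq_of_le_of_finrank_eq
  · rw [bc, Submodule.span_le]
    rintro _ ⟨w, hw, rfl⟩
    have hw' : φ.mulVecLin w = 0 := hw
    simp only [SetLike.mem_coe, LinearMap.mem_ker]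
    rw [← lin_map_mulVec, hw']
    funext i
    simp
  · have h1 := LinearMap.finrank_range_add_finrank_ker φ.mulVecLin
    have h2 := LinearMap.finrank_range_add_finrank_ker (φ.map ψ).mulVecLin
    have h3 := bc_map ψ φ ⊤
    rw [bc_top, Submodule.map_top, Submodule.map_top] at h3
    rw [← h3, finrank_bc] at h2
    rw [finrank_bc]
    simp only [finrank_fintype_fun_eq_card] at h1 h2
    omega

theorem mem_bc_iff [Finite ι] {W : Submodule F (ι → F)} {w : ι → F} :
    (fun i => ψ (w i)) ∈ bc ψ W ↔ w ∈ W := by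
  cases nonempty_fintype ι
  refine ⟨fun h => ?_, fun h => Submodule.subset_span ⟨w, h, rfl⟩⟩
  obtain ⟨φ, rfl⟩ := exists_ker_eq W
  rw [bc_ker, LinearMap.mem_ker, ← lin_map_mulVec] at h
  rw [LinearMap.mem_ker]
  funext i
  exact (map_eq_zero ψ).1 (congrFun h i)

theorem bc_comap [Fintype ι] [Finite ι'] (φ : Matrix ι' ι F) (W : Submodule F (ι' → F)) :
    bc ψ (W.comap φ.mulVecLin) = (bc ψ W).comap (φ.map ψ).mulVecLin := by
  cases nonempty_fintype ι'
  obtain ⟨χ, rfl⟩ := exists_ker_eq W
  rw [bc_ker, ← LinearMap.ker_comp, ← LinearMap.ker_comp, ← Matrix.mulVecLin_mul,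
    ← Matrix.mulVecLin_mul, bc_ker, Matrix.map_mul]

theorem lin_ker_stack [Fintype ι] {σ : Type*} (φ : σ → Matrix ι' ι F) :
    LinearMap.ker (Matrix.of fun (p : σ × ι') j => φ p.1 p.2 j).mulVecLin =
      ⨅ s, LinearMap.ker (φ s).mulVecLin := by
  ext w
  simp only [LinearMap.mem_ker, Submodule.mem_iInf]
  constructor
  · intro h s
    funext i
    exact congrFun h (s, i)
  · intro h
    funext p
    exact congrFun (h p.1) p.2

theorem bc_iInf [Finite ι] {σ : Type*} [Finite σ] (W : σ → Submodule F (ι → F)) :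
    bc ψ (⨅ s, W s) = ⨅ s, bc ψ (W s) := by
  cases nonempty_fintype ι
  choose φ hφ using fun s => exists_ker_eq (W s)
  simp only [← hφ, bc_ker]
  rw [← lin_ker_stack, bc_ker, ← lin_ker_stack]
  rfl

/-- Laplace expansion along the last row -/
theorem lin_pl_snoc (w : Fin r → ι → L) (a : ι → L) (g : Fin (r + 1) → ι) :
    pl (Fin.snoc w a : Fin (r + 1) → ι → L) g =
      ∑ j : Fin (r + 1), (-1) ^ (r + j : ℕ) * a (g j) * pl w fun t => g (j.succAbove t) := by
  simp only [pl]
  rw [Matrix.det_succ_row _ (Fin.last r)]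
  refine Finset.sum_congr rfl fun j _ => ?_
  congr 1
  · simp
  · congr 1
    ext s t
    simp

theorem lin_pl_snoc_self (w : Fin r → ι → L) (i : Fin r) (g : Fin (r + 1) → ι) :
    pl (Fin.snoc w (w i) : Fin (r + 1) → ι → L) g = 0 := by
  simp only [pl]
  refine Matrix.det_zero_of_row_eq (i := Fin.castSucc i) (j := Fin.last r)
    (Fin.castSucc_lt_last i).ne ?_
  funext t
  simp

theorem lin_pl_snoc_sub (w : Fin r → ι → L) (a : ι → L) (c : Fin r → L) :
    pl (Fin.snoc w (a - ∑ i, c i • w i) : Fin (r + 1) → ι → L) =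
      pl (Fin.snoc w a : Fin (r + 1) → ι → L) := by
  funext g
  have h : ∑ i, c i * pl (Fin.snoc w (w i) : Fin (r + 1) → ι → L) g = 0 := by
    simp [lin_pl_snoc_self]
  rw [← sub_zero (pl (Fin.snoc w a : Fin (r + 1) → ι → L) g), ← h]
  simp only [lin_pl_snoc, Finset.mul_sum]
  rw [Finset.sum_comm, ← Finset.sum_sub_distrib]
  refine Finset.sum_congr rfl fun j _ => ?_
  simp only [Pi.sub_apply, Finset.sum_apply, Pi.smul_apply, smul_eq_mul, mul_sub, sub_mul,
    Finset.mul_sum, Finset.sum_mul]
  congr 1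
  refine Finset.sum_congr rfl fun i _ => ?_
  ring

theorem lin_ge_sign (V : ValuationSubring L) (m : ℕ) : Ge V 0 ((-1 : L) ^ m) := by
  right
  simp

theorem lin_vord_eq [Finite ι] {V : ValuationSubring L} {w : ι → L} {n : ℤ} {i : ι}
    (h : VGe V n w) (hi : w i ≠ 0) (hn : ord V (w i) = n) : vord V w = n := by
  have hw : w ≠ 0 := fun h0 => hi (by rw [h0]; rfl)
  refine le_antisymm ?_ ((vge_iff hw).1 h)
  rw [← hn]
  exact (ge_iff hi).1 ((vge_iff hw).2 le_rfl i)

theorem lin_vord_pl [Finite ι] {V : ValuationSubring L} (hV : Disc V) {w e : Fin r → ι → L}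
    {f : Fin r → ι} (hf : pl w f ≠ 0) (h4 : ∀ g, pl e g = pl w g / pl w f)
    (h5 : ∀ g, pl e g ∈ V) : vord V (pl w) = ord V (pl w f) := by
  refine lin_vord_eq (fun g => ?_) hf rfl
  have h1 : pl w g = pl w f * pl e g := by rw [h4, mul_div_cancel₀ _ hf]
  rw [h1]
  simpa using (ge_ord (V := V) (a := pl w f)).mul ((mem_iff_ge (Or.inl hV)).1 (h5 g))

/-- the line formula -/
theorem line [Finite ι] {V : ValuationSubring L} (hV : Disc V) {w : Fin r → ι → L} {a : ι → L}
    (hw : LinearIndependent L (Fin.snoc w a : Fin (r + 1) → ι → L)) (n : ℤ) :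
    QGe V n (Submodule.span L (Set.range w)) a ↔
      n ≤ vord V (pl (Fin.snoc w a : Fin (r + 1) → ι → L)) - vord V (pl w) := by
  obtain ⟨hw0, ha⟩ := linearIndependent_finSnoc.1 hw
  obtain ⟨e, f, hf, h1, h2, h3, h4, h5⟩ := lin_echelon V hw0
  set a' : ι → L := a - ∑ i, a (f i) • e i with ha'
  have hsum : ∀ c : Fin r → L, ∑ i, c i • e i ∈ Submodule.span L (Set.range w) := fun c =>
    h1 ▸ Submodule.sum_mem _ fun t _ => Submodule.smul_mem _ _ (Submodule.subset_span ⟨t, rfl⟩)
  have ha0 : a' ≠ 0 := fun h0 => ha (by rw [sub_eq_zero.1 h0]; exact hsum _)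
  have haf : ∀ j, a' (f j) = 0 := by
    intro j
    simp [ha', Finset.sum_apply, h2]
  have he : ∀ i, VGe V 0 (e i) := fun i j => (mem_iff_ge (Or.inl hV)).1 (h3 i j)
  have hq : QGe V n (Submodule.span L (Set.range w)) a ↔ VGe V n a' := by
    constructor
    · rintro ⟨w', hw', hb⟩
      have h6 : w' = ∑ i, w' (f i) • e i := eq_sum_echelon h2 (h1 ▸ hw')
      have h7 : a' = (a + w') + ∑ i, (-(a + w') (f i)) • e i := by
        rw [ha']
        nth_rewrite 1 [h6]
        simp only [Pi.add_apply, neg_add, add_smul, neg_smul, Finset.sum_add_distrib,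
          Finset.sum_neg_distrib]
        abel
      rw [h7]
      refine hb.add (VGe.sum fun i _ => ?_)
      simpa using VGe.smul (hb (f i)).neg (he i)
    · intro h
      refine ⟨-∑ i, a (f i) • e i, Submodule.neg_mem _ (hsum _), ?_⟩
      rwa [← sub_eq_add_neg]
  have hP : pl (Fin.snoc w a : Fin (r + 1) → ι → L) =
      pl w f • pl (Fin.snoc e a' : Fin (r + 1) → ι → L) := by
    rw [ha', lin_pl_snoc_sub]
    funext g
    simp only [Pi.smul_apply, smul_eq_mul, lin_pl_snoc, Finset.mul_sum, h4]
    refine Finset.sum_congr rfl fun j _ => ?_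
    field_simp
  obtain ⟨j, hj, hjo⟩ := exists_vord (V := V) ha0
  have hj' : pl (Fin.snoc e a' : Fin (r + 1) → ι → L) (Fin.snoc f j) = a' j := by
    rw [lin_pl_snoc, Fin.sum_univ_castSucc]
    simp [haf, lin_pl_self h2, ← two_mul]
  have hv : vord V (pl (Fin.snoc e a' : Fin (r + 1) → ι → L)) = vord V a' := by
    refine lin_vord_eq (i := Fin.snoc f j) (fun g => ?_) (by rwa [hj']) (by rw [hj', hjo])
    rw [lin_pl_snoc]
    refine Ge.sum fun t _ => ?_
    simpa using ((lin_ge_sign V (r + t)).mul ((vge_iff ha0).2 le_rfl (g t))).mul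
      ((mem_iff_ge (Or.inl hV)).1 (h5 fun s => g (t.succAbove s)))
  have hne : pl (Fin.snoc e a' : Fin (r + 1) → ι → L) ≠ 0 := fun h0 =>
    hj (by rw [← hj', h0]; rfl)
  rw [hq, vge_iff ha0, hP, vord_smul hf hne, hv, lin_vord_pl hV hf h4 h5]
  simp

theorem lin_vge_pl {V : ValuationSubring L} {w : Fin r → ι → L} {δ : ℤ}
    (h : ∀ i, VGe V δ (w i)) : VGe V (r * δ) (pl w) := by
  intro g
  simp only [pl]
  rw [Matrix.det_apply']
  refine Ge.sum fun s _ => ?_
  have h1 : Ge V 0 (((Equiv.Perm.sign s : ℤˣ) : ℤ) : L) := by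
    right
    rcases Int.units_eq_one_or (Equiv.Perm.sign s) with h1 | h1 <;> simp [h1]
  have h2 := Ge.prod (V := V) (s := Finset.univ) (f := fun i => w (s i) (g i)) (n := fun _ => δ)
    fun i _ => h _ _
  simpa using h1.mul h2

theorem local7 [Finite ι] [Finite ι'] {V : ValuationSubring L} (hV : Disc V) {w : Fin r → ι → L}
    {w' : Fin r → ι' → L} (hw : LinearIndependent L w) (hw' : LinearIndependent L w') (δ : ℤ)
    (h : ∀ (c : Fin r → L) (n : ℤ), VGe V n (∑ i, c i • w i) → VGe V (n + δ) (∑ i, c i • w' i)) :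
    vord V (pl w) + r * δ ≤ vord V (pl w') := by
  obtain ⟨e, f, hf, h1, h2, h3, h4, h5⟩ := lin_echelon V hw
  obtain ⟨A, hA⟩ := lin_exists_matrix (w := e) (w' := w) fun s =>
    h1 ▸ Submodule.subset_span ⟨s, rfl⟩
  have h6 : A.det * pl w f = 1 := by
    have := congrFun (pl_mul A w) f
    rw [← hA, lin_pl_self h2] at this
    exact this.symm
  have hd : A.det ≠ 0 := left_ne_zero_of_mul_eq_one h6
  have h7 : ord V A.det + ord V (pl w f) = 0 := by rw [← ord_mul hd hf, h6, ord_one]
  have h8 : VGe V (r * δ) (pl fun s => ∑ t, A s t • w' t) := by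
    refine lin_vge_pl fun s => ?_
    have : VGe V 0 (∑ t, A s t • w t) := by
      have h9 : ∑ t, A s t • w t = e s := (congrFun hA s).symm
      rw [h9]
      exact fun j => (mem_iff_ge (Or.inl hV)).1 (h3 s j)
    simpa using h _ 0 this
  have hne : pl w' ≠ 0 := pl_ne_zero_iff.2 hw'
  rw [pl_mul, vge_iff (smul_ne_zero hd hne), vord_smul hd hne] at h8
  rw [lin_vord_pl hV hf h4 h5]
  omega

end Pool.Agent.Lib.MP_7fcda1_ag
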