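import Pool.Agent.Lib.MP_7fcda1_ag.Iface

open scoped IntermediateField Polynomial WithZero
open Module

noncomputable section

universe u

namespace Pool.Agent.Lib.MP_7fcda1_ag


variable {k E E' : Type*} [Field k] [Field E] [Field E'] [Algebra k E] [Algebra k E'] {S T : Set E}
  {σ : Type*}

theorem Rk_mem_cl {a : E} : a ∈ (AlgebraicIndependent.matroid k E).closure T ↔
    IsAlgebraic (IntermediateField.adjoin k T) a := by
  rw [AlgebraicIndependent.matroid_closure_eq, IntermediateField.isAlgebraic_adjoin_iff]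
  rfl

theorem Rk_alg_of_subset {A B : Type*} [CommRing A] [CommRing B] [Algebra A E] [Algebra B E]
    (hA : Function.Injective (algebraMap A E))
    (h : ∀ x, algebraMap A E x ∈ Set.range (algebraMap B E)) {s : E} (hs : IsAlgebraic A s) :
    IsAlgebraic B s := by
  obtain ⟨p, hp, hps⟩ := hs
  have : p.map (algebraMap A E) ∈ Polynomial.lifts (algebraMap B E) := by
    rw [Polynomial.lifts_iff_coeff_lifts]
    intro n
    rw [Polynomial.coeff_map]
    exact h _
  obtain ⟨q, hq⟩ := (Polynomial.mem_lifts _).1 this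
  refine ⟨q, ?_, ?_⟩
  · rintro rfl
    rw [Polynomial.map_zero] at hq
    exact hp ((Polynomial.map_eq_zero_iff hA).1 hq.symm)
  · rw [← Polynomial.eval_map_algebraMap, hq, Polynomial.eval_map_algebraMap, hps]

theorem Rk_lift {R : Type*} [CommRing R] [Algebra R E] {u : σ → E} {a : E}
    (h : IsAlgebraic (Algebra.adjoin R (Set.range u)) a) :
    ∃ P : Polynomial (MvPolynomial σ R), P ≠ 0 ∧
      P.eval₂ (MvPolynomial.aeval u : MvPolynomial σ R →ₐ[R] E).toRingHom a = 0 := by
  obtain ⟨p, hp, hps⟩ := h
  have : p.map (algebraMap _ E) ∈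
      Polynomial.lifts (MvPolynomial.aeval u : MvPolynomial σ R →ₐ[R] E).toRingHom := by
    rw [Polynomial.lifts_iff_coeff_lifts]
    intro n
    rw [Polynomial.coeff_map]
    exact (Algebra.adjoin_range_eq_range_aeval R u).le (p.coeff n).2
  obtain ⟨q, hq⟩ := (Polynomial.mem_lifts _).1 this
  refine ⟨q, ?_, ?_⟩
  · rintro rfl
    rw [Polynomial.map_zero] at hq
    exact hp ((Polynomial.map_eq_zero_iff Subtype.val_injective).1 hq.symm)
  · rw [← Polynomial.eval_map, hq, Polynomial.eval_map_algebraMap, hps]

theorem Rk_indep_range {x : σ → E} (hx : AlgebraicIndependent k x) :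
    (AlgebraicIndependent.matroid k E).Indep (Set.range x) := hx.to_subtype_range

theorem Rk_range_card {x : σ → E} (hx : AlgebraicIndependent k x) :
    rk k (Set.range x) = ENat.card σ := by
  rw [rk, (Rk_indep_range hx).eRk_eq_encard, ← Set.image_univ, hx.injective.injOn.encard_image,
    Set.encard_univ]

theorem rk_mono (h : S ⊆ T) : rk k S ≤ rk k T := Matroid.eRk_mono _ h

theorem rk_union_le : rk k (S ∪ T) ≤ rk k S + rk k T := Matroid.eRk_union_le_eRk_add_eRk _ _ _

theorem Rk_le_encard (S : Set E) : rk k S ≤ S.encard := Matroid.eRk_le_encard _ _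

theorem rk_range_le [Fintype σ] (z : σ → E) : rk k (Set.range z) ≤ Fintype.card σ := by
  refine (Rk_le_encard _).trans ?_
  rw [← Set.image_univ]
  refine (Set.encard_image_le _ _).trans ?_
  simp

theorem rk_range_indep [Fintype σ] {z : σ → E} (h : AlgebraicIndependent k z) :
    rk k (Set.range z) = Fintype.card σ := by
  rw [Rk_range_card h]; simp

theorem indep_of_rk [Fintype σ] {z : σ → E} (h : (Fintype.card σ : ℕ∞) ≤ rk k (Set.range z)) :
    AlgebraicIndependent k z := by
  have h1 : (Set.range z).encard ≤ Fintype.card σ := by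
    rw [← Set.image_univ]
    refine (Set.encard_image_le _ _).trans ?_
    simp
  have h2 : rk k (Set.range z) = (Set.range z).encard := le_antisymm (Rk_le_encard _) (h1.trans h)
  have h3 : Function.Injective z := by
    rw [← Set.injOn_univ]
    refine Set.finite_univ.injOn_of_encard_image_eq ?_
    rw [Set.image_univ]
    refine le_antisymm (by simpa using h1) ?_
    rw [← h2]
    simpa using h
  have h4 := (Matroid.indep_iff_eRk_eq_encard_of_finite (Set.finite_range z)).2 h2
  exact (algebraicIndependent_subtype_range h3).1 h4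

theorem rk_le_of_alg (h : ∀ s ∈ S, IsAlgebraic (IntermediateField.adjoin k T) s) :
    rk k S ≤ rk k T := by
  rw [rk, rk, ← Matroid.eRk_closure_eq _ T]
  exact Matroid.eRk_mono _ fun s hs => Rk_mem_cl.2 (h s hs)

theorem rk_le_of_mem (h : ∀ s ∈ S, s ∈ IntermediateField.adjoin k T) : rk k S ≤ rk k T :=
  rk_le_of_alg fun s hs =>
    isAlgebraic_algebraMap (⟨s, h s hs⟩ : IntermediateField.adjoin k T)

theorem rk_insert {a : E} (h : Transcendental (IntermediateField.adjoin k T) a) :
    rk k (insert a T) = rk k T + 1 :=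
  Matroid.eRk_insert_eq_add_one ⟨Set.mem_univ _, fun h' => h (Rk_mem_cl.1 h')⟩

theorem alg_of_rk (hT : rk k T ≠ ⊤) (h : rk k (S ∪ T) ≤ rk k T) :
    ∀ s ∈ S, IsAlgebraic (IntermediateField.adjoin k T) s := by
  intro s hs
  by_contra hn
  have h1 : rk k (insert s T) ≤ rk k (S ∪ T) :=
    rk_mono (Set.insert_subset (Or.inl hs) Set.subset_union_right)
  rw [rk_insert hn] at h1
  exact absurd (h1.trans h) (not_le.2 (ENat.lt_add_one_iff hT |>.2 le_rfl))

theorem exists_indep {j : ℕ} (h : (j : ℕ∞) ≤ rk k S) :
    ∃ w : Fin j → E, (∀ i, w i ∈ S) ∧ AlgebraicIndependent k w := by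
  obtain ⟨I, hIS, hI, hc⟩ := Matroid.le_eRk_iff.1 h
  have hf : I.Finite := Set.finite_of_encard_eq_coe hc
  have := hf.fintype
  have hc' : Fintype.card I = j := by
    have : (Fintype.card I : ℕ∞) = j := by
      rw [← hc, Set.encard_eq_coe_toFinset_card, Set.toFinset_card]
    exact_mod_cast this
  let e := (Fintype.equivFinOfCardEq hc').symm
  exact ⟨fun i => e i, fun i => hIS (e i).2,
    (algebraicIndependent_equiv e).2 (show AlgebraicIndependent k ((↑) : I → E) from hI)⟩

theorem Rk_indep_image (φ : E →ₐ[k] E') {I : Set E} :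
    (AlgebraicIndependent.matroid k E').Indep (φ '' I) ↔
      (AlgebraicIndependent.matroid k E).Indep I :=
  ((algebraicIndependent_image (R := k) φ.injective.injOn).symm).trans
    (AlgHom.algebraicIndependent_iff (x := ((↑) : I → E)) φ φ.injective)

theorem rk_image (φ : E →ₐ[k] E') : rk k (φ '' S) = rk k S := by
  have hφ : Function.Injective φ := φ.injective
  refine le_antisymm (Matroid.eRk_le_iff.2 fun J hJ hi => ?_)
    (Matroid.eRk_le_iff.2 fun I hI hi => ?_)
  · obtain ⟨I, hI, rfl⟩ := Set.subset_image_iff.1 hJ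
    rw [hφ.injOn.encard_image]
    exact ((Rk_indep_image φ).1 hi).encard_le_eRk_of_subset hI
  · rw [← hφ.injOn.encard_image (s := I)]
    exact ((Rk_indep_image φ).2 hi).encard_le_eRk_of_subset (Set.image_mono hI)

theorem Rk_cl_alg {A : Type*} [CommRing A] [Algebra A E] (hA : Function.Injective (algebraMap A E))
    (h : ∀ x, algebraMap A E x ∈ (AlgebraicIndependent.matroid k E).closure T) {s : E}
    (hs : IsAlgebraic A s) : s ∈ (AlgebraicIndependent.matroid k E).closure T := by
  obtain ⟨F, hF, hF'⟩ := AlgebraicIndependent.matroid_isFlat_iff.1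
    ((AlgebraicIndependent.matroid k E).isFlat_closure T)
  refine hF' s (Rk_alg_of_subset hA (fun x => ?_) hs)
  have := h x
  rw [← hF] at this
  exact ⟨⟨_, this⟩, rfl⟩

theorem rk_tower {K : Type*} [Field K] [Algebra k K] [Algebra K E] [IsScalarTower k K E] :
    rk k (Set.range (algebraMap K E) ∪ S) = rk k (Set.univ : Set K) + rk K S := by
  obtain ⟨I, hI⟩ := (AlgebraicIndependent.matroid k K).exists_isBasis Set.univ
  obtain ⟨J, hJ⟩ := (AlgebraicIndependent.matroid K E).exists_isBasis S
  have hx : AlgebraicIndependent k ((↑) : I → K) := hI.indep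
  have hy : AlgebraicIndependent K ((↑) : J → E) := hJ.indep
  have hxy := hx.sumElim_comp hy
  have hr := Rk_range_card hxy
  rw [ENat.card_sum] at hr
  set U := Set.range (Sum.elim ((↑) : J → E) (algebraMap K E ∘ ((↑) : I → K))) with hU
  have hUe : U = J ∪ algebraMap K E '' I := by
    rw [hU, Set.Sum.elim_range, Set.range_comp]; simp
  have h1 : rk k (Set.univ : Set K) = ENat.card I := hI.eRk_eq_encard
  have h2 : rk K S = ENat.card J := hJ.eRk_eq_encard
  rw [h1, h2, add_comm, ← hr]
  refine le_antisymm ?_ (rk_mono ?_)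
  swap
  · rw [hUe]
    rintro x (hx | ⟨y, -, rfl⟩)
    · exact Or.inr (hJ.subset hx)
    · exact Or.inl ⟨y, rfl⟩
  obtain ⟨F, hF, -⟩ := AlgebraicIndependent.matroid_isFlat_iff.1
    ((AlgebraicIndependent.matroid k E).isFlat_closure U)
  have hUF : U ⊆ F := by
    rw [hF]; exact (AlgebraicIndependent.matroid k E).subset_closure U
  have hK : ∀ b : K, algebraMap K E b ∈ (AlgebraicIndependent.matroid k E).closure U := by
    intro b
    have hb := (AlgebraicIndependent.matroid_isBasis_iff.1 hI).2.2 b (Set.mem_univ _)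
    have hb' : IsAlgebraic (Algebra.adjoin k I) (algebraMap K E b) := hb.algebraMap
    refine Rk_cl_alg (A := Algebra.adjoin k I)
      (fun x y h => Subtype.val_injective ((algebraMap K E).injective h)) ?_ hb'
    rintro ⟨x, hx⟩
    rw [← hF]
    change algebraMap K E x ∈ F
    have : Algebra.adjoin k I ≤ F.comap (IsScalarTower.toAlgHom k K E) :=
      Algebra.adjoin_le fun y hy => hUF (by rw [hUe]; exact Or.inr ⟨y, hy, rfl⟩)
    exact this hx
  rw [rk, rk, ← Matroid.eRk_closure_eq _ U]
  refine Matroid.eRk_mono _ ?_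
  rintro s (⟨b, rfl⟩ | hs)
  · exact hK b
  · have hs' := (AlgebraicIndependent.matroid_isBasis_iff.1 hJ).2.2 s hs
    refine Rk_cl_alg Subtype.val_injective ?_ hs'
    rintro ⟨x, hx⟩
    rw [← hF]
    change x ∈ F
    induction hx using Algebra.adjoin_induction with
    | mem y hy => exact hUF (by rw [hUe]; exact Or.inl hy)
    | algebraMap r => have := hK r; rw [← hF] at this; exact this
    | add a b _ _ ha hb => exact F.add_mem ha hb
    | mul a b _ _ ha hb => exact F.mul_mem ha hb

theorem Rk_adjoin_union : rk k ((IntermediateField.adjoin k T : Set E) ∪ S) = rk k (T ∪ S) := by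
  refine le_antisymm (rk_le_of_mem ?_)
    (rk_mono (Set.union_subset_union_left _ (IntermediateField.subset_adjoin k T)))
  rintro s (hs | hs)
  · exact IntermediateField.adjoin.mono k _ _ Set.subset_union_left hs
  · exact IntermediateField.subset_adjoin k _ (Or.inr hs)

theorem Rk_univ_adjoin : rk k (Set.univ : Set (IntermediateField.adjoin k T)) = rk k T := by
  rw [← rk_image (IntermediateField.adjoin k T).val]
  have := Rk_adjoin_union (k := k) (T := T) (S := ∅)
  rw [Set.union_empty, Set.union_empty] at this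
  rw [← this]
  congr 1
  ext x; simp

theorem Rk_union_eq : rk k (T ∪ S) = rk k T + rk (IntermediateField.adjoin k T) S := by
  rw [← Rk_univ_adjoin (T := T), ← rk_tower, ← Rk_adjoin_union]
  congr 2
  ext x; simp

theorem rk_union_indep [Fintype σ] {z : σ → E}
    (h : AlgebraicIndependent (IntermediateField.adjoin k T) z) :
    rk k (T ∪ Set.range z) = rk k T + Fintype.card σ := by
  rw [Rk_union_eq, rk_range_indep h]

theorem rk_univ_of_finite {K : Type*} [Field K] [Algebra k K] {S : Set K}
    [Algebra.IsAlgebraic (IntermediateField.adjoin k S) K] :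
    rk k (Set.univ : Set K) = rk k S :=
  le_antisymm (rk_le_of_alg fun s _ => Algebra.IsAlgebraic.isAlgebraic s)
    (rk_mono (Set.subset_univ _))

theorem finite_of_rk {K : IntermediateField k E} (hS : S.Finite)
    (h : IntermediateField.adjoin k (S ∪ K) = ⊤) (hK : rk k (K : Set E) ≠ ⊤)
    (h' : rk k (Set.univ : Set E) ≤ rk k (K : Set E)) : FiniteDimensional K E := by
  have h1 := alg_of_rk (S := S) hK ((rk_mono (Set.subset_univ _)).trans h')
  have h2 : ∀ s ∈ S, IsIntegral K s := fun s hs => by
    refine IsAlgebraic.isIntegral (Rk_alg_of_subset Subtype.val_injective ?_ (h1 s hs))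
    rintro ⟨x, hx⟩
    rw [IntermediateField.adjoin_self] at hx
    exact ⟨⟨x, hx⟩, rfl⟩
  have := hS.to_subtype
  have h3 := IntermediateField.finiteDimensional_adjoin h2
  have h4 : IntermediateField.adjoin K S = ⊤ := by
    apply IntermediateField.restrictScalars_injective k
    rw [IntermediateField.restrictScalars_adjoin, Set.union_comm, h]
    rfl
  rw [h4] at h3
  exact (IntermediateField.topEquiv (F := K) (E := E)).toLinearEquiv.finiteDimensional

end Pool.Agent.Lib.MP_7fcda1_ag
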