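import Pool.Agent.Lib.MP_7fcda1_ag.Ord2
import Pool.Agent.Lib.MP_7fcda1_ag.Rka

open scoped IntermediateField Polynomial WithZero
open Module

noncomputable section

universe u

namespace Pool.Agent.Lib.MP_7fcda1_ag


variable {k E E' : Type*} [Field k] [Field E] [Field E'] [Algebra k E] [Algebra k E'] {S T : Set E}
  {σ : Type*}

theorem Rk_pull {z : σ → E} {z' : σ → E'}
    (h : ∀ f : MvPolynomial σ k, MvPolynomial.aeval z f = 0 → MvPolynomial.aeval z' f = 0)
    {J : Type*} {s : J → σ} (hs : AlgebraicIndependent k (z' ∘ s)) :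
    AlgebraicIndependent k (z ∘ s) := by
  rw [algebraicIndependent_iff] at hs ⊢
  intro p hp
  refine hs p ?_
  rw [← MvPolynomial.aeval_rename] at hp ⊢
  exact h _ hp

theorem Rk_basis (z' : σ → E') : ∃ (J : Set E') (s : J → σ),
    AlgebraicIndependent k (z' ∘ s) ∧ rk k (Set.range z') = ENat.card J := by
  obtain ⟨J, hJ⟩ := (AlgebraicIndependent.matroid k E').exists_isBasis (Set.range z')
  choose s hs using fun j : J => hJ.subset j.2
  refine ⟨J, s, ?_, hJ.eRk_eq_encard⟩
  have : z' ∘ s = ((↑) : J → E') := funext hs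
  rw [this]
  exact hJ.indep

theorem rk_hom_le {z : σ → E} {z' : σ → E'}
    (h : ∀ f : MvPolynomial σ k, MvPolynomial.aeval z f = 0 → MvPolynomial.aeval z' f = 0) :
    rk k (Set.range z') ≤ rk k (Set.range z) := by
  obtain ⟨J, s, hs, hJ⟩ := Rk_basis (k := k) z'
  rw [hJ, ← Rk_range_card (Rk_pull h hs)]
  exact rk_mono (Set.range_comp_subset_range _ _)

theorem Rk_key {J : Type*} (s : J → σ) (Q : Polynomial (MvPolynomial J k)) (g : MvPolynomial σ k)
    (y : σ → E) :
    MvPolynomial.aeval y (Q.eval₂ (MvPolynomial.rename (R := k) s).toRingHom g) =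
      Q.eval₂ (MvPolynomial.aeval (y ∘ s) : MvPolynomial J k →ₐ[k] E).toRingHom
        (MvPolynomial.aeval y g) := by
  have := Polynomial.hom_eval₂ Q (MvPolynomial.rename (R := k) s).toRingHom
    (MvPolynomial.aeval y : MvPolynomial σ k →ₐ[k] E).toRingHom g
  refine this.trans ?_
  congr 1
  refine RingHom.ext fun p => ?_
  exact MvPolynomial.aeval_rename _ _ _

theorem rk_hom_lt {z : σ → E} {z' : σ → E'} (hz : rk k (Set.range z) ≠ ⊤)
    (h : ∀ f : MvPolynomial σ k, MvPolynomial.aeval z f = 0 → MvPolynomial.aeval z' f = 0)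
    {g : MvPolynomial σ k} (hg : MvPolynomial.aeval z g ≠ 0) (hg' : MvPolynomial.aeval z' g = 0) :
    rk k (Set.range z') < rk k (Set.range z) := by
  obtain ⟨J, s, hs, hJ⟩ := Rk_basis (k := k) z'
  have htr : Transcendental (IntermediateField.adjoin k (Set.range (z ∘ s)))
      (MvPolynomial.aeval z g) := by
    rw [IntermediateField.transcendental_adjoin_iff]
    intro ha
    obtain ⟨P, hP, hP0⟩ := Rk_lift ha
    obtain ⟨Q, hQ, hQ0⟩ := Polynomial.exists_eq_pow_rootMultiplicity_mul_and_not_dvd P hP 0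
    rw [map_zero, sub_zero] at hQ hQ0
    rw [hQ, Polynomial.eval₂_mul, Polynomial.eval₂_X_pow] at hP0
    have h1 := (mul_eq_zero.1 hP0).resolve_left (pow_ne_zero _ hg)
    rw [← Rk_key] at h1
    have h3 := h _ h1
    rw [Rk_key, hg', Polynomial.eval₂_at_zero] at h3
    exact hQ0 (Polynomial.X_dvd_iff.2 (algebraicIndependent_iff.1 hs _ h3))
  have h2 : rk k (insert (MvPolynomial.aeval z g) (Set.range (z ∘ s))) ≤ rk k (Set.range z) := by
    refine rk_le_of_mem ?_
    rintro x (rfl | ⟨j, rfl⟩)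
    · exact IntermediateField.algebra_adjoin_le_adjoin k _
        ((Algebra.adjoin_range_eq_range_aeval k z).ge ⟨g, rfl⟩)
    · exact IntermediateField.subset_adjoin k _ ⟨s j, rfl⟩
  rw [rk_insert htr, Rk_range_card (Rk_pull h hs), ← hJ] at h2
  exact (ENat.add_one_le_iff (ne_top_of_le_ne_top hz (rk_hom_le h))).1 h2

/-- primes of coheight at least `n - 1` are principal -/
theorem ker_principal [Fintype σ] (z : σ → E)
    (h : (Fintype.card σ : ℕ∞) ≤ rk k (Set.range z) + 1) :
    ∃ π : MvPolynomial σ k, ∀ f, MvPolynomial.aeval z f = 0 ↔ π ∣ f := by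
  let I : Ideal (MvPolynomial σ k) := RingHom.ker (MvPolynomial.aeval z : _ →ₐ[k] E)
  by_cases hI : I = ⊥
  · refine ⟨0, fun f => ?_⟩
    rw [zero_dvd_iff, ← Ideal.mem_bot (x := f), ← hI]
    rfl
  have hp : I.IsPrime := RingHom.ker_isPrime _
  obtain ⟨π, hπI, hπ⟩ := hp.exists_mem_prime_of_ne_bot hI
  have hπ0 : MvPolynomial.aeval z π = 0 := hπI
  refine ⟨π, fun f => ⟨fun hf => ?_, ?_⟩⟩
  swap
  · rintro ⟨q, rfl⟩
    rw [map_mul, hπ0, zero_mul]
  by_contra hn
  have hpr : (Ideal.span {π}).IsPrime := (Ideal.span_singleton_prime hπ.ne_zero).2 hπ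
  let A := MvPolynomial σ k ⧸ Ideal.span {π}
  let L := FractionRing A
  let z₀ : σ → L := fun i => algebraMap A L (Ideal.Quotient.mk _ (MvPolynomial.X i))
  have hz₀ : ∀ F : MvPolynomial σ k, MvPolynomial.aeval z₀ F = 0 ↔ π ∣ F := by
    intro F
    have : (MvPolynomial.aeval z₀ : _ →ₐ[k] L) =
        (IsScalarTower.toAlgHom k A L).comp (Ideal.Quotient.mkₐ k (Ideal.span {π})) :=
      MvPolynomial.algHom_ext fun i => MvPolynomial.aeval_X _ _
    rw [this, ← Ideal.mem_span_singleton, ← Ideal.Quotient.eq_zero_iff_mem]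
    exact map_eq_zero_iff (algebraMap A L) (IsFractionRing.injective A L)
  have h0 : rk k (Set.range z₀) < Fintype.card σ := by
    by_contra hle
    have := indep_of_rk (not_lt.1 hle)
    exact hπ.ne_zero (algebraicIndependent_iff.1 this π ((hz₀ π).2 dvd_rfl))
  have h1 : rk k (Set.range z) < rk k (Set.range z₀) := by
    refine rk_hom_lt h0.ne_top (fun F hF => ?_) (g := f) (fun h => hn ((hz₀ f).1 h)) hf
    obtain ⟨q, rfl⟩ := (hz₀ F).1 hF
    rw [map_mul, hπ0, zero_mul]
  exact absurd (h.trans (Order.add_one_le_of_lt h1)) (not_le.2 h0)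

theorem exists_indep_mod {n : ℕ} {π : MvPolynomial (Fin (n + 1)) k} (hπ : Prime π) :
    ∃ g : Fin n → Fin (n + 1), ∀ f : MvPolynomial (Fin n) k, f ≠ 0 →
      ¬π ∣ MvPolynomial.rename g f := by
  have hv : π.vars ≠ ∅ := by
    intro hv
    have h1 := MvPolynomial.vars_eq_empty_iff_eq_C.1 hv
    by_cases h0 : π.coeff 0 = 0
    · rw [h0, map_zero] at h1
      exact hπ.ne_zero h1
    · exact hπ.not_isUnit (h1 ▸ (IsUnit.mk0 _ h0).map MvPolynomial.C)
  obtain ⟨i, hi⟩ := Finset.nonempty_iff_ne_empty.2 hv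
  refine ⟨i.succAbove, fun f hf ⟨q, hq⟩ => ?_⟩
  have hf' : MvPolynomial.rename i.succAbove f ≠ 0 := fun h =>
    hf (MvPolynomial.rename_injective _ Fin.succAbove_right_injective (h.trans (map_zero _).symm))
  have hq0 : q ≠ 0 := by
    rintro rfl
    exact hf' (hq.trans (mul_zero _))
  have h2 : i ∈ (MvPolynomial.rename i.succAbove f).vars := by
    rw [MvPolynomial.mem_vars_iff_degreeOf_ne_zero] at hi ⊢
    rw [hq, MvPolynomial.degreeOf_mul_eq hπ.ne_zero hq0]
    omega
  obtain ⟨j, -, hj⟩ := MvPolynomial.mem_vars_rename _ _ h2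
  exact Fin.succAbove_ne i j hj

theorem Rk_gp1 {K L ι : Type*} [Field K] [Infinite K] [Field L] [Algebra K E] [Algebra L E]
    [Fintype ι] (ψ : K →+* L) (hψ : ∀ x, algebraMap L E (ψ x) = algebraMap K E x) (w : ι → L)
    {u : ι → E} (hu : AlgebraicIndependent L u)
    (h : IsAlgebraic (Algebra.adjoin K (Set.range u)) (∑ i, u i * algebraMap L E (w i))) (j : ι) :
    IsAlgebraic K (algebraMap L E (w j)) := by
  classical
  obtain ⟨P, hP, hP0⟩ := Rk_lift h
  have hF : P.eval₂ (MvPolynomial.map ψ)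
      (∑ i, MvPolynomial.X i * MvPolynomial.C (w i) : MvPolynomial ι L) = 0 := by
    refine algebraicIndependent_iff.1 hu _ ?_
    have := Polynomial.hom_eval₂ P (MvPolynomial.map ψ)
      (MvPolynomial.aeval u : MvPolynomial ι L →ₐ[L] E).toRingHom
      (∑ i, MvPolynomial.X i * MvPolynomial.C (w i))
    refine this.trans ?_
    rw [← hP0]
    congr 1
    · refine MvPolynomial.ringHom_ext (fun r => ?_) (fun i => ?_)
      · simp [hψ]
      · simp
    · simp
  have hc : ∀ c : ι → K, MvPolynomial.eval c P.leadingCoeff ≠ 0 →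
      IsAlgebraic K (∑ i, algebraMap K E (c i) * algebraMap L E (w i)) := by
    intro c hc
    refine ⟨P.map (MvPolynomial.eval c), fun h0 => hc ?_, ?_⟩
    · have := congrArg (fun q => q.coeff P.natDegree) h0
      simpa using this
    · have := Polynomial.hom_eval₂ P (MvPolynomial.map ψ)
        (MvPolynomial.eval₂Hom (algebraMap L E) fun i => algebraMap K E (c i))
        (∑ i, MvPolynomial.X i * MvPolynomial.C (w i))
      rw [hF, map_zero] at this
      rw [Polynomial.aeval_def, Polynomial.eval₂_map, this]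
      congr 1
      · refine MvPolynomial.ringHom_ext (fun r => ?_) (fun i => ?_)
        · simp [hψ]
        · simp
      · simp
  set θ := P.leadingCoeff with hθ
  have hθ0 : θ ≠ 0 := Polynomial.leadingCoeff_ne_zero.2 hP
  let θ' : MvPolynomial ι K :=
    MvPolynomial.aeval (fun i => MvPolynomial.X i + MvPolynomial.C (Pi.single (M := fun _ => K) j 1 i)) θ
  have hθ' : ∀ c : ι → K, MvPolynomial.eval c θ' = MvPolynomial.eval (c + Pi.single j 1) θ := by
    intro c
    have : (MvPolynomial.eval c).comp (MvPolynomial.aeval (fun i => MvPolynomial.X i +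
        MvPolynomial.C (Pi.single (M := fun _ => K) j 1 i)) :
          MvPolynomial ι K →ₐ[K] MvPolynomial ι K).toRingHom =
        MvPolynomial.eval (c + Pi.single j 1) := by
      refine MvPolynomial.ringHom_ext (fun r => ?_) (fun i => ?_) <;> simp
    exact congrArg (fun φ => φ θ) this
  have hθ'0 : θ' ≠ 0 := by
    intro h0
    refine hθ0 (MvPolynomial.funext fun c => ?_)
    have := hθ' (c - Pi.single j 1)
    rw [h0, sub_add_cancel] at this
    rw [← this]
    simp
  obtain ⟨c, hc0⟩ : ∃ c : ι → K, MvPolynomial.eval c (θ * θ') ≠ 0 := by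
    by_contra hn
    refine mul_ne_zero hθ0 hθ'0 (MvPolynomial.funext fun c => ?_)
    rw [map_zero]
    exact not_not.1 fun h => hn ⟨c, h⟩
  rw [map_mul, hθ'] at hc0
  have h1 := hc c (left_ne_zero_of_mul hc0)
  have h2 := hc _ (right_ne_zero_of_mul hc0)
  have h3 := h2.sub h1
  suffices h4 : ∑ i, algebraMap K E ((c + Pi.single j 1 : ι → K) i) * algebraMap L E (w i) -
      ∑ i, algebraMap K E (c i) * algebraMap L E (w i) = algebraMap L E (w j) from h4 ▸ h3
  rw [← Finset.sum_sub_distrib, Finset.sum_eq_single j]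
  · simp [add_mul]
  · intro i _ hi
    simp [Pi.single_eq_of_ne hi]
  · simp

theorem Rk_indep_le {K L : IntermediateField k E} (h : K ≤ L) {z : σ → E}
    (hz : AlgebraicIndependent L z) : AlgebraicIndependent K z := by
  let : Algebra K L := (IntermediateField.inclusion h).toRingHom.toAlgebra
  have : IsScalarTower K L E := IsScalarTower.of_algebraMap_eq fun _ => rfl
  exact hz.restrictScalars (algebraMap K L).injective

theorem Rk_gp2 [Infinite k] {A ι Z : Type*} [Fintype A] [Fintype ι] [Fintype Z] (B : Set E)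
    (w : ι → E) (z : Z → E) (e : A × ι → Z) (he : Function.Injective e)
    (hz : AlgebraicIndependent (IntermediateField.adjoin k (B ∪ Set.range w)) z)
    (hB : rk k B ≠ ⊤) (h : rk k B + Fintype.card A ≤ rk k (B ∪ Set.range w))
    (s : Finset A) (a : A) (ha : a ∉ s) :
    Transcendental (IntermediateField.adjoin k
      (B ∪ Set.range z ∪ (fun a => ∑ i, z (e (a, i)) * w i) '' s)) (∑ i, z (e (a, i)) * w i) := by
  classical
  intro halg
  set l : A → E := fun a => ∑ i, z (e (a, i)) * w i with hl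
  let F := IntermediateField.adjoin k (B ∪ Set.range w)
  let t : Set Z := Set.range fun i => e (a, i)
  let B₁ : Set E := B ∪ z '' tᶜ ∪ l '' s
  let K := IntermediateField.adjoin k B₁
  let L := IntermediateField.adjoin F (z '' tᶜ)
  have hFL : ∀ x ∈ B ∪ Set.range w, x ∈ L := fun x hx =>
    L.algebraMap_mem (⟨x, IntermediateField.subset_adjoin k _ hx⟩ : F)
  have hu : AlgebraicIndependent L fun i => z (e (a, i)) := by
    have h1 := hz.adjoin_of_disjoint (s := tᶜ) (t := t) disjoint_compl_left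
    rw [← IntermediateField.algebraicIndependent_adjoin_iff] at h1
    exact h1.comp (fun i => (⟨e (a, i), i, rfl⟩ : t)) fun i j hij =>
      (Prod.ext_iff.1 (he (congrArg Subtype.val hij))).2
  have hKL : K ≤ L.restrictScalars k := by
    refine IntermediateField.adjoin_le_iff.2 ?_
    rintro x ((hx | hx) | ⟨b, hb, rfl⟩)
    · exact hFL x (Or.inl hx)
    · exact IntermediateField.subset_adjoin F _ hx
    · refine L.sum_mem fun i _ => L.mul_mem ?_ (hFL _ (Or.inr ⟨i, rfl⟩))
      refine IntermediateField.subset_adjoin F _ ⟨_, ?_, rfl⟩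
      rintro ⟨j, hj⟩
      have hab : a = b := (Prod.ext_iff.1 (he hj)).1
      exact ha (hab ▸ hb)
  have : Infinite K := Infinite.of_injective _ (algebraMap k K).injective
  have hw : ∀ j, IsAlgebraic K (w j) := by
    refine Rk_gp1 (L := L) (IntermediateField.inclusion hKL).toRingHom (fun _ => rfl)
      (fun i => ⟨w i, hFL _ (Or.inr ⟨i, rfl⟩)⟩) hu ?_
    rw [IntermediateField.isAlgebraic_adjoin_iff] at halg
    refine Rk_alg_of_subset Subtype.val_injective ?_ halg
    rintro ⟨x, hx⟩
    have hK : ∀ y ∈ B₁, y ∈ Algebra.adjoin K (Set.range fun i => z (e (a, i))) := fun y hy =>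
      Subalgebra.algebraMap_mem _ (⟨y, IntermediateField.subset_adjoin k _ hy⟩ : K)
    have : Algebra.adjoin k (B ∪ Set.range z ∪ l '' s) ≤
        (Algebra.adjoin K (Set.range fun i => z (e (a, i)))).restrictScalars k := by
      refine Algebra.adjoin_le ?_
      rintro y ((hy | ⟨j, rfl⟩) | hy)
      · exact hK y (Or.inl (Or.inl hy))
      · by_cases hj : j ∈ t
        · obtain ⟨i, rfl⟩ := hj
          exact Algebra.subset_adjoin (R := K) ⟨i, rfl⟩
        · exact hK _ (Or.inl (Or.inr ⟨j, hj, rfl⟩))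
      · exact hK y (Or.inr hy)
    exact ⟨⟨x, this hx⟩, rfl⟩
  have hr : z '' tᶜ = Set.range (z ∘ ((↑) : ↥tᶜ → Z)) := by
    rw [Set.range_comp, Subtype.range_coe]
  have h1 : rk k (B ∪ Set.range w ∪ z '' tᶜ) ≤ rk k B₁ := by
    refine rk_le_of_alg ?_
    rintro x ((hx | ⟨j, rfl⟩) | hx)
    · exact isAlgebraic_algebraMap
        (⟨x, IntermediateField.subset_adjoin k _ (Or.inl (Or.inl hx))⟩ : K)
    · exact hw j
    · exact isAlgebraic_algebraMap
        (⟨x, IntermediateField.subset_adjoin k _ (Or.inl (Or.inr hx))⟩ : K)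
  have h2 : rk k B₁ ≤ rk k B + Fintype.card ↥tᶜ + s.card := by
    refine rk_union_le.trans (add_le_add (rk_union_le.trans (add_le_add le_rfl ?_)) ?_)
    · rw [hr]; exact rk_range_le _
    · refine (Rk_le_encard _).trans ((Set.encard_image_le _ _).trans ?_)
      simp
  rw [hr, rk_union_indep (hz.comp _ Subtype.val_injective)] at h1
  have h3 := (add_le_add h le_rfl).trans (h1.trans h2)
  have h4 : s.card < Fintype.card A :=
    Finset.card_lt_card ⟨Finset.subset_univ _, fun h => ha (h (Finset.mem_univ a))⟩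
  obtain ⟨r, hr⟩ := ENat.ne_top_iff_exists.1 hB
  rw [← hr] at h3
  have h5 : r + Fintype.card A + Fintype.card ↥tᶜ ≤ r + Fintype.card ↥tᶜ + s.card := by
    exact_mod_cast h3
  omega

/-- generic projection -/
theorem gp [Infinite k] {A ι Z : Type*} [Fintype A] [Fintype ι] [Fintype Z] (B : Set E)
    (w : ι → E) (z : Z → E) (e : A × ι → Z) (he : Function.Injective e)
    (hz : AlgebraicIndependent (IntermediateField.adjoin k (B ∪ Set.range w)) z)
    (hB : rk k B ≠ ⊤) (h : rk k B + Fintype.card A ≤ rk k (B ∪ Set.range w)) :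
    rk k (B ∪ Set.range z ∪ Set.range fun a => ∑ i, z (e (a, i)) * w i) =
      rk k B + Fintype.card Z + Fintype.card A := by
  classical
  have key : ∀ s : Finset A, rk k (B ∪ Set.range z ∪ (fun a => ∑ i, z (e (a, i)) * w i) '' s) =
      rk k B + Fintype.card Z + s.card := by
    intro s
    induction s using Finset.induction_on with
    | empty =>
      rw [Finset.coe_empty, Set.image_empty, Set.union_empty, Finset.card_empty, Nat.cast_zero,
        add_zero]
      exact rk_union_indep
        (Rk_indep_le (IntermediateField.adjoin.mono k _ _ Set.subset_union_left) hz)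
    | insert a s ha ih =>
      rw [Finset.coe_insert, Set.image_insert_eq, Set.union_insert,
        rk_insert (Rk_gp2 B w z e he hz hB h s a ha), ih, Finset.card_insert_of_notMem ha,
        Nat.cast_add, Nat.cast_one, add_assoc (rk k B + _)]
  have := key Finset.univ
  rwa [Finset.coe_univ, Set.image_univ, Finset.card_univ] at this

end Pool.Agent.Lib.MP_7fcda1_ag
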