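import Pool.Agent.Lib.MP_7fcda1_ag.CT2
import Pool.Agent.Lib.MP_7fcda1_ag.Lin

open scoped IntermediateField Polynomial WithZero
open Module

noncomputable section

universe u

namespace Pool.Agent.Lib.MP_7fcda1_ag


variable {κ L : Type*} [Field κ] [Field L] [Algebra κ L] [IsFF κ L] {ι ι' : Type*} [Fintype ι]
  [Fintype ι'] {r c : ℕ}

omit [IsFF κ L] [Fintype ι] in
theorem mem_Gam {W : Submodule L (ι → L)} {D : Div κ L} {w : ι → L} :
    w ∈ Gam W D ↔ w ∈ W ∧ ∀ v : Place κ L, VGe v.O (-D v) w := by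
  refine ⟨fun h => ?_, fun h => Submodule.subset_span h⟩
  induction h using Submodule.span_induction with
  | mem x hx => exact hx
  | zero => exact ⟨W.zero_mem, fun v i => ge_zero⟩
  | add x y _ _ hx hy => exact ⟨W.add_mem hx.1 hy.1, fun v => (hx.2 v).add (hy.2 v)⟩
  | smul a x _ hx => exact ⟨W.smul_of_tower_mem a hx.1, fun v i => v.ge_smul (hx.2 v i) a⟩

instance (W : Submodule L (ι → L)) (D : Div κ L) : FiniteDimensional κ (Gam W D) := by
  let f : Gam W D →ₗ[κ] (ι → Ls D) := LinearMap.pi fun i =>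
    LinearMap.codRestrict (Ls D) ((LinearMap.proj i).comp (Gam W D).subtype)
      fun w => mem_Ls.2 fun v => (mem_Gam.1 w.2).2 v i
  refine Module.Finite.of_injective f fun a b hab => ?_
  ext i
  exact congrArg Subtype.val (congrFun hab i)

theorem bun1_vdiv_zero : vdiv κ (0 : ι → L) = 0 := by
  ext v
  rw [vdiv_apply, vord_zero]
  rfl

theorem degD_vdiv_smul {a : L} (ha : a ≠ 0) (w : ι → L) :
    degD (vdiv κ (a • w)) = degD (vdiv κ w) := by
  by_cases hw : w = 0
  · rw [hw, smul_zero]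
  have : vdiv κ (a • w) = div κ a + vdiv κ w := by
    ext v
    rw [Finsupp.add_apply, vdiv_apply, vdiv_apply, div_apply, vord_smul ha hw]
  rw [this, map_add, degD_div, zero_add]

theorem degD_vdiv_nonpos (w : ι → L) : degD (vdiv κ w) ≤ 0 := by
  by_cases hw : w = 0
  · rw [hw, bun1_vdiv_zero, map_zero]
  obtain ⟨i, hi⟩ := Function.ne_iff.1 hw
  have : vdiv κ w ≤ div κ (w i) := by
    intro v
    rw [vdiv_apply, div_apply]
    exact (ge_iff hi).1 ((vge_iff hw).2 le_rfl i)
  exact (degD_mono this).trans (degD_div _).le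

omit [Fintype ι] in
theorem bun1_span_finBasis [Finite ι] (W : Submodule L (ι → L)) :
    Submodule.span L (Set.range fun i => (Module.finBasis L W i : ι → L)) = W := by
  have h : (fun i => (Module.finBasis L W i : ι → L)) = W.subtype ∘ Module.finBasis L W := rfl
  rw [h, Set.range_comp, ← Submodule.map_span, (Module.finBasis L W).span_eq, Submodule.map_top,
    Submodule.range_subtype]

omit [Fintype ι] in
theorem bun1_indep_finBasis [Finite ι] (W : Submodule L (ι → L)) :
    LinearIndependent L fun i => (Module.finBasis L W i : ι → L) :=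
  (Module.finBasis L W).linearIndependent.map' W.subtype W.ker_subtype

theorem bun1_sdeg_eq_aux (W : Submodule L (ι → L)) {w : Fin r → ι → L} (hw : LinearIndependent L w)
    (h : Submodule.span L (Set.range w) = W) : sdeg κ W = degD (vdiv κ (pl w)) := by
  classical
  have hr : finrank L W = r := by
    rw [← h, finrank_span_eq_card hw, Fintype.card_fin]
  subst hr
  obtain ⟨a, ha, e⟩ := pl_eq_smul hw (h.trans (bun1_span_finBasis W).symm)
  rw [e, degD_vdiv_smul ha]
  rfl

theorem sdeg_eq {w : Fin r → ι → L} (hw : LinearIndependent L w) :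
    sdeg κ (Submodule.span L (Set.range w)) = degD (vdiv κ (pl w)) :=
  bun1_sdeg_eq_aux _ hw rfl

theorem sdeg_nonpos (W : Submodule L (ι → L)) : sdeg κ W ≤ 0 := by
  classical
  exact degD_vdiv_nonpos _

theorem bun1_degD_vdiv_const (w : ι → κ) : degD (vdiv κ fun i => algebraMap κ L (w i)) = 0 := by
  have : (vdiv κ fun i => algebraMap κ L (w i)) = 0 := by
    by_cases hw : (fun i => algebraMap κ L (w i)) = 0
    · rw [hw, bun1_vdiv_zero]
    ext v
    obtain ⟨i, -, hi⟩ := exists_vord (V := v.O) hw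
    rw [vdiv_apply, ← hi, v.ord_const]
    rfl
  rw [this, map_zero]

theorem bun1_sdeg_const (W : Submodule L (ι → L)) {w : Fin r → ι → κ} (hw : LinearIndependent κ w)
    (h : Submodule.span L (Set.range fun s i => algebraMap κ L (w s i)) = W) : sdeg κ W = 0 := by
  classical
  rw [bun1_sdeg_eq_aux W (linearIndependent_map (algebraMap κ L) hw) h, pl_map]
  exact bun1_degD_vdiv_const _

theorem sdeg_bot : sdeg κ (⊥ : Submodule L (ι → L)) = 0 :=
  bun1_sdeg_const (r := 0) _ (w := Fin.elim0) linearIndependent_empty_type (by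
    rw [Set.range_eq_empty, Submodule.span_empty])

theorem sdeg_top : sdeg κ (⊤ : Submodule L (ι → L)) = 0 := by
  refine bun1_sdeg_const _ (bun1_indep_finBasis (⊤ : Submodule κ (ι → κ))) ?_
  have h := bc_span (algebraMap κ L)
    (Set.range fun i => (Module.finBasis κ (⊤ : Submodule κ (ι → κ)) i : ι → κ))
  rw [bun1_span_finBasis, bc_top, ← Set.range_comp] at h
  exact h.symm

theorem sdeg_line {W : Submodule L (ι → L)} {a : ι → L} (ha : a ∉ W) :
    ∃ N : Div κ L, (∀ (v : Place κ L) (n : ℤ), QGe v.O n W a ↔ n ≤ N v) ∧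
      sdeg κ (W ⊔ Submodule.span L {a}) = sdeg κ W + degD N := by
  classical
  set w : Fin (finrank L W) → ι → L := fun i => (Module.finBasis L W i : ι → L) with hw
  have hs : Submodule.span L (Set.range w) = W := bun1_span_finBasis W
  have hi : LinearIndependent L (Fin.snoc w a : Fin (finrank L W + 1) → ι → L) :=
    linearIndependent_finSnoc.2 ⟨bun1_indep_finBasis W, by rwa [hs]⟩
  refine ⟨vdiv κ (pl (Fin.snoc w a : Fin (finrank L W + 1) → ι → L)) - vdiv κ (pl w),
    fun v n => ?_, ?_⟩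
  · rw [Finsupp.sub_apply, vdiv_apply, vdiv_apply, ← line v.disc hi n, hs]
  · rw [bun1_sdeg_eq_aux _ hi (by rw [Fin.range_snoc, Submodule.span_insert, hs, sup_comm]),
      bun1_sdeg_eq_aux W (bun1_indep_finBasis W) hs, map_sub]
    ring

omit [Fintype ι] in
theorem bun1_mem_sup_span_iff {W : Submodule L (ι → L)} {a b : ι → L} :
    b ∈ W ⊔ Submodule.span L {a} ↔ ∃ t : L, b + t • a ∈ W := by
  constructor
  · intro h
    obtain ⟨y, hy, z, hz, rfl⟩ := Submodule.mem_sup.1 h
    obtain ⟨t, rfl⟩ := Submodule.mem_span_singleton.1 hz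
    exact ⟨-t, by simpa using hy⟩
  · rintro ⟨t, ht⟩
    exact Submodule.mem_sup.2 ⟨_, ht, (-t) • a,
      Submodule.smul_mem _ _ (Submodule.mem_span_singleton_self a), by simp⟩

omit [Fintype ι] in
theorem bun1_qge_sup_span_iff {V : ValuationSubring L} {n : ℤ} {W : Submodule L (ι → L)}
    {a b : ι → L} : QGe V n (W ⊔ Submodule.span L {a}) b ↔ ∃ t : L, QGe V n W (b + t • a) := by
  constructor
  · rintro ⟨w, hw, h⟩
    obtain ⟨t, ht⟩ := bun1_mem_sup_span_iff.1 hw
    refine ⟨-t, _, ht, ?_⟩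
    convert h using 1
    rw [neg_smul]
    abel
  · rintro ⟨t, ht⟩
    refine (ht.mono le_rfl le_sup_left).congr ?_
    refine bun1_mem_sup_span_iff.2 ⟨t, ?_⟩
    simp

theorem bun1_sdeg_map_le_aux {U : Type*} [AddCommGroup U] [Module L U] (i : U →ₗ[L] ι → L)
    (f : U →ₗ[L] ι' → L) (D : Div κ L) (m : ℕ) (W : Submodule L (ι → L))
    (W' : Submodule L (ι' → L)) (hm : finrank L ↥(W ⊔ LinearMap.range i) ≤ finrank L W + m)
    (hk : ∀ a, i a ∈ W ↔ f a ∈ W')
    (h : ∀ (v : Place κ L) (n : ℤ) (a : U), QGe v.O n W (i a) → QGe v.O (n - D v) W' (f a)) :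
    sdeg κ (W ⊔ LinearMap.range i) - sdeg κ W -
        ((finrank L ↥(W ⊔ LinearMap.range i) : ℤ) - finrank L W) * degD D ≤
      sdeg κ (W' ⊔ LinearMap.range f) - sdeg κ W' := by
  induction m generalizing W W' with
  | zero =>
    have e : W = W ⊔ LinearMap.range i := Submodule.eq_of_le_of_finrank_le le_sup_left hm
    have e' : W' ⊔ LinearMap.range f = W' := by
      refine sup_eq_left.2 ?_
      rintro _ ⟨a, rfl⟩
      refine (hk a).1 ?_
      rw [e]
      exact Submodule.mem_sup_right ⟨a, rfl⟩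
    rw [← e, e']
    simp
  | succ m ih =>
    by_cases hle : finrank L ↥(W ⊔ LinearMap.range i) ≤ finrank L W + m
    · exact ih W W' hle hk h
    obtain ⟨a, ha⟩ : ∃ a, i a ∉ W := by
      by_contra hne
      push Not at hne
      have e : W ⊔ LinearMap.range i = W := sup_eq_left.2 (by rintro _ ⟨a, rfl⟩; exact hne a)
      rw [e] at hle
      omega
    have ha' : f a ∉ W' := fun h => ha ((hk a).2 h)
    have e : W ⊔ Submodule.span L {i a} ⊔ LinearMap.range i = W ⊔ LinearMap.range i := by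
      rw [sup_assoc, sup_eq_right.2 ((Submodule.span_singleton_le_iff_mem _ _).2
        (LinearMap.mem_range_self i a))]
    have e' : W' ⊔ Submodule.span L {f a} ⊔ LinearMap.range f = W' ⊔ LinearMap.range f := by
      rw [sup_assoc, sup_eq_right.2 ((Submodule.span_singleton_le_iff_mem _ _).2
        (LinearMap.mem_range_self f a))]
    have hr := Submodule.finrank_sup_span_singleton ha
    have := ih (W ⊔ Submodule.span L {i a}) (W' ⊔ Submodule.span L {f a})
      (by rw [e, hr]; omega)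
      (fun b => by
        simp only [bun1_mem_sup_span_iff, ← map_smul, ← map_add, hk])
      (fun v n b hb => by
        obtain ⟨t, ht⟩ := bun1_qge_sup_span_iff.1 hb
        refine bun1_qge_sup_span_iff.2 ⟨t, ?_⟩
        rw [← map_smul, ← map_add] at ht ⊢
        exact h v n _ ht)
    obtain ⟨N, hN, eN⟩ := sdeg_line (κ := κ) ha
    obtain ⟨N', hN', eN'⟩ := sdeg_line (κ := κ) ha'
    have hNN : degD (N - D) ≤ degD N' :=
      degD_mono fun v => (hN' v _).1 (h v _ a ((hN v _).2 le_rfl))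
    rw [e, e', hr, eN, eN'] at this
    rw [map_sub] at hNN
    push_cast at this
    nlinarith

/-- integral isomorphisms of subquotients increase the degree -/
theorem sdeg_map_le {U : Type*} [AddCommGroup U] [Module L U] (i : U →ₗ[L] ι → L)
    (f : U →ₗ[L] ι' → L) (W : Submodule L (ι → L)) (W' : Submodule L (ι' → L))
    (hk : ∀ a, i a ∈ W ↔ f a ∈ W') (D : Div κ L)
    (h : ∀ (v : Place κ L) (n : ℤ) (a : U), QGe v.O n W (i a) → QGe v.O (n - D v) W' (f a)) :
    sdeg κ (W ⊔ LinearMap.range i) - sdeg κ W -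
        ((finrank L ↥(W ⊔ LinearMap.range i) : ℤ) - finrank L W) * degD D ≤
      sdeg κ (W' ⊔ LinearMap.range f) - sdeg κ W' :=
  bun1_sdeg_map_le_aux i f D _ W W' (Nat.le_add_left _ _) hk h

/-- induction along a flag -/
theorem bun1_flag_ind (S : Set (ι → L)) (P : Submodule L (ι → L) → Prop)
    (step : ∀ W, ∀ a ∈ S, a ∉ W → P W → P (W ⊔ Submodule.span L {a}))
    (W : Submodule L (ι → L)) (hW : P W) : P (W ⊔ Submodule.span L S) := by
  obtain ⟨m, hm⟩ : ∃ m, finrank L ↥(W ⊔ Submodule.span L S) ≤ finrank L W + m :=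
    ⟨_, Nat.le_add_left _ _⟩
  induction m generalizing W with
  | zero =>
    have e : W = W ⊔ Submodule.span L S := Submodule.eq_of_le_of_finrank_le le_sup_left hm
    rwa [← e]
  | succ m ih =>
    by_cases hle : S ⊆ W
    · rwa [sup_eq_left.2 (Submodule.span_le.2 hle)]
    obtain ⟨a, haS, ha⟩ := Set.not_subset.1 hle
    have e : W ⊔ Submodule.span L {a} ⊔ Submodule.span L S = W ⊔ Submodule.span L S := by
      rw [sup_assoc, sup_eq_right.2 ((Submodule.span_singleton_le_iff_mem (R := L) _ _).2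
        (Submodule.subset_span haS))]
    have := ih _ (step W a haS ha hW) (by rw [e, Submodule.finrank_sup_span_singleton ha]; omega)
    rwa [e] at this

theorem sdeg_quot_ge (W : Submodule L (ι → L)) (S : Set (ι → L)) (D : Div κ L)
    (h : ∀ a ∈ S, ∀ v : Place κ L, QGe v.O (-D v) W a) :
    sdeg κ W - ((finrank L ↥(W ⊔ Submodule.span L S) : ℤ) - finrank L W) * degD D ≤
      sdeg κ (W ⊔ Submodule.span L S) := by
  refine (bun1_flag_ind S (fun W₁ => W ≤ W₁ ∧
    sdeg κ W - ((finrank L W₁ : ℤ) - finrank L W) * degD D ≤ sdeg κ W₁) ?_ W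
      ⟨le_rfl, by simp⟩).2
  rintro W₁ a haS ha ⟨h₁, h₂⟩
  refine ⟨h₁.trans le_sup_left, ?_⟩
  obtain ⟨N, hN, eN⟩ := sdeg_line (κ := κ) ha
  have hNN : degD (-D) ≤ degD N :=
    degD_mono fun v => (hN v _).1 ((h a haS v).mono le_rfl h₁)
  rw [map_neg] at hNN
  rw [eN, Submodule.finrank_sup_span_singleton ha]
  push_cast
  nlinarith

theorem sdeg_super (A B : Submodule L (ι → L)) :
    sdeg κ A + sdeg κ B ≤ sdeg κ (A ⊓ B) + sdeg κ (A ⊔ B) := by
  have := sdeg_map_le (κ := κ) A.subtype A.subtype (A ⊓ B) B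
    (fun a => ⟨fun h => h.2, fun h => ⟨a.2, h⟩⟩) 0
    (fun v n a h => h.mono (by simp) inf_le_right)
  rw [Submodule.range_subtype, sup_eq_right.2 (inf_le_left : A ⊓ B ≤ A), map_zero, mul_zero,
    sup_comm B A] at this
  linarith

theorem bun1_finrank_Gam_step {W : Submodule L (ι → L)} {D N : Div κ L} {s : ι → L} (hs : s ∉ W)
    (hN : ∀ (v : Place κ L) (n : ℤ), QGe v.O n W s ↔ n ≤ N v) :
    finrank κ (Gam (W ⊔ Submodule.span L {s}) D) ≤
      finrank κ (Ls (N + D)) + finrank κ (Gam W D) := by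
  obtain ⟨l, hl, hker⟩ := Submodule.exists_le_ker_of_notMem hs
  let l' : (ι → L) →ₗ[L] L := (l s)⁻¹ • l
  have key : ∀ w ∈ W ⊔ Submodule.span L {s}, w - l' w • s ∈ W := by
    intro w hw
    obtain ⟨t, ht⟩ := bun1_mem_sup_span_iff.1 hw
    have h0 : l (w + t • s) = 0 := hker ht
    have : l' w = -t := by
      rw [map_add, map_smul, smul_eq_mul] at h0
      change (l s)⁻¹ * l w = -t
      rw [eq_neg_of_add_eq_zero_left h0]
      field_simp
    rwa [this, neg_smul, sub_neg_eq_add]
  let g : Gam (W ⊔ Submodule.span L {s}) D →ₗ[κ] L :=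
    (l'.restrictScalars κ).comp (Submodule.subtype _)
  rw [← LinearMap.finrank_range_add_finrank_ker g]
  refine Nat.add_le_add (Submodule.finrank_mono ?_) ?_
  · rintro _ ⟨w, rfl⟩
    obtain ⟨hw, hv⟩ := mem_Gam.1 w.2
    refine mem_Ls.2 fun v => ?_
    change Ge v.O _ (l' w)
    by_cases h0 : l' w = 0
    · rw [h0]
      exact ge_zero
    have h1 : QGe v.O (ord v.O (l' w)⁻¹ + -D v) W ((l' w)⁻¹ • (w : ι → L)) :=
      QGe.smul ge_ord ((hv v).qge W)
    have h2 : QGe v.O (ord v.O (l' w)⁻¹ + -D v) W s := by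
      refine h1.congr ?_
      have := W.smul_mem (-(l' w)⁻¹) (key w hw)
      convert this using 1
      rw [smul_sub, smul_smul, neg_mul, inv_mul_cancel₀ h0, neg_smul, neg_smul, one_smul]
      abel
    have h3 := (hN v _).1 h2
    rw [ord_inv] at h3
    rw [ge_iff h0, Finsupp.add_apply]
    linarith
  · rw [← Submodule.finrank_map_subtype_eq]
    refine Submodule.finrank_mono ?_
    rintro _ ⟨w, hw0, rfl⟩
    obtain ⟨hw, hv⟩ := mem_Gam.1 w.2
    refine mem_Gam.2 ⟨?_, hv⟩
    have h0 : l' w = 0 := hw0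
    have := key w hw
    rwa [h0, zero_smul, sub_zero] at this

theorem riemann_upper (hc : RR κ L c) {W : Submodule L (ι → L)} {D : Div κ L} (h : gen W D = W) :
    (finrank κ (Gam W D) : ℤ) ≤ sdeg κ W + finrank L W * (degD D + c) := by
  have := bun1_flag_ind (Gam W D : Set (ι → L)) (fun W₁ =>
    (finrank κ (Gam W₁ D) : ℤ) ≤ sdeg κ W₁ + finrank L W₁ * (degD D + c)) ?_ ⊥ ?_
  · rw [bot_sup_eq] at this
    change (finrank κ (Gam (gen W D) D) : ℤ) ≤ sdeg κ (gen W D) +
      finrank L (gen W D) * (degD D + c) at this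
    rwa [h] at this
  · intro W₁ s hsS hs h₁
    obtain ⟨N, hN, eN⟩ := sdeg_line (κ := κ) hs
    have h₂ := bun1_finrank_Gam_step (D := D) hs hN
    have h₃ : 0 ≤ N + D := fun v => by
      have := (hN v _).1 (((mem_Gam.1 hsS).2 v).qge W₁)
      rw [Finsupp.add_apply]
      change (0 : ℤ) ≤ _
      linarith
    have h₄ := (hc (N + D)).2 h₃
    rw [map_add] at h₄
    have h₅ : (finrank κ (Gam (W₁ ⊔ Submodule.span L {s}) D) : ℤ) ≤
      finrank κ (Ls (N + D)) + finrank κ (Gam W₁ D) := by exact_mod_cast h₂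
    rw [eN, Submodule.finrank_sup_span_singleton hs]
    push_cast
    nlinarith
  · have e : Gam (⊥ : Submodule L (ι → L)) D = ⊥ := by
      refine eq_bot_iff.2 fun w hw => ?_
      exact (Submodule.mem_bot L).1 (mem_Gam.1 hw).1
    change (finrank κ (Gam (⊥ : Submodule L (ι → L)) D) : ℤ) ≤ _
    rw [e, sdeg_bot, finrank_bot, finrank_bot]
    simp

end Pool.Agent.Lib.MP_7fcda1_ag
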