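import Pool.Agent.Lib.MP_7fcda1_ag.Ord2

open scoped IntermediateField Polynomial WithZero
open Module

noncomputable section

universe u

namespace Pool.Agent.Lib.MP_7fcda1_ag


variable {κ L : Type*} [Field κ] [Field L] [Algebra κ L] [IsFF κ L] {ι : Type*}

theorem IsFF.finite {f : L} (hf : Transcendental κ f) : FiniteDimensional κ⟮f⟯ L := by
  obtain ⟨x, hx, hfin⟩ := IsFF.ex (κ := κ) (L := L)
  have halg : IsAlgebraic κ⟮f⟯ x :=
    IntermediateField.isAlgebraic_adjoin_iff.mpr (.adjoin_singleton hx hf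
      (IntermediateField.isAlgebraic_adjoin_iff.mp (Algebra.IsAlgebraic.isAlgebraic f)))
  let Fyx := IntermediateField.restrictScalars κ κ⟮f⟯⟮x⟯
  let Fxy := IntermediateField.restrictScalars κ κ⟮x⟯⟮f⟯
  let : Algebra κ⟮f⟯ Fyx := κ⟮f⟯⟮x⟯.algebra
  let : Algebra κ⟮x⟯ Fxy := κ⟮x⟯⟮f⟯.algebra
  have : FiniteDimensional κ⟮f⟯ Fyx :=
    IntermediateField.adjoin.finiteDimensional (isAlgebraic_iff_isIntegral.mp halg)
  have : FiniteDimensional Fyx L := by
    unfold Fyx
    rw [IntermediateField.adjoin_simple_comm]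
    have : IsScalarTower κ⟮x⟯ Fxy L := IntermediateField.isScalarTower_mid' κ⟮x⟯⟮f⟯
    exact .right κ⟮x⟯ Fxy L
  have : IsScalarTower κ⟮f⟯ Fyx L := IntermediateField.isScalarTower_mid' κ⟮f⟯⟮x⟯
  exact .trans κ⟮f⟯ Fyx L

omit [IsFF κ L] in
open scoped IntermediateField.algebraAdjoinAdjoin in
/-- criterion for linear independence over `κ(f)` -/
theorem CT1_indep {I : Type*} [Fintype I] {f : L} (hf : f ≠ 0) (z : I → L)
    (h : ∀ (c : I → κ) (p : I → κ[X]),
      ∑ i, c i • z i + f * ∑ i, Polynomial.aeval f (p i) * z i = 0 → ∀ i, c i = 0) :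
    LinearIndependent κ⟮f⟯ z := by
  have key : ∀ (N : ℕ) (p : I → κ[X]), (∀ i, (p i).degree < N) →
      ∑ i, Polynomial.aeval f (p i) * z i = 0 → ∀ i, p i = 0 := by
    intro N
    induction N with
    | zero =>
      intro p hp _ i
      have := hp i
      rwa [Nat.cast_zero, Nat.WithBot.lt_zero_iff, Polynomial.degree_eq_bot] at this
    | succ N ih =>
      intro p hp hs i
      have e : ∑ i, Polynomial.aeval f (p i) * z i =
          ∑ i, (p i).coeff 0 • z i + f * ∑ i, Polynomial.aeval f (p i).divX * z i := by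
        rw [Finset.mul_sum, ← Finset.sum_add_distrib]
        refine Finset.sum_congr rfl fun i _ => ?_
        conv_lhs => rw [← Polynomial.divX_mul_X_add (p i)]
        simp only [map_add, map_mul, Polynomial.aeval_X, Polynomial.aeval_C, Algebra.smul_def]
        ring
      have hc := h _ _ (e ▸ hs)
      have h2 : ∑ i, Polynomial.aeval f (p i).divX * z i = 0 := by
        rw [e] at hs
        simpa [hc, hf] using hs
      have h3 := ih (fun i => (p i).divX) (fun i => by
        by_cases h0 : p i = 0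
        · simp [h0]
        · have h1 := Polynomial.degree_divX_lt h0
          have h4 := hp i
          rw [Polynomial.degree_eq_natDegree h0] at h1 h4
          have h5 : (p i).natDegree ≤ N := by
            have : (p i).natDegree < N + 1 := by exact_mod_cast h4
            omega
          exact lt_of_lt_of_le h1 (by exact_mod_cast h5)) h2 i
      rw [← Polynomial.divX_mul_X_add (p i), h3, hc i]
      simp
  rw [← LinearIndependent.iff_fractionRing (Algebra.adjoin κ {f}) κ⟮f⟯, Fintype.linearIndependent_iff]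
  intro g hg i
  have h1 : ∀ i, ∃ p : κ[X], Polynomial.aeval f p = g i := fun i =>
    (Algebra.adjoin_singleton_eq_range_aeval κ f).le (g i).2
  choose p hp using h1
  have h2 := key ((Finset.univ.sup fun i => (p i).natDegree) + 1) p (fun i => by
    refine lt_of_le_of_lt Polynomial.degree_le_natDegree ?_
    have : (p i).natDegree ≤ Finset.univ.sup fun i => (p i).natDegree :=
      Finset.le_sup (f := fun i => (p i).natDegree) (Finset.mem_univ i)
    exact_mod_cast Nat.lt_succ_of_le this) (by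
    rw [← hg]
    exact Finset.sum_congr rfl fun i _ => by rw [hp]; rfl) i
  apply Subtype.ext
  rw [← hp, h2]
  simp

omit [IsFF κ L] in
theorem Place.CT1_mem_of_algebraic (v : Place κ L) {a : L} (ha : IsAlgebraic κ a) : a ∈ v.O := by
  refine mem_of_monic ((minpoly κ a).map (algebraMap κ L))
    ((minpoly.monic ha.isIntegral).map _) (fun i => ?_) ?_
  · rw [Polynomial.coeff_map]; exact v.const _
  · rw [Polynomial.eval_map_algebraMap, minpoly.aeval]

omit [IsFF κ L] in
theorem Place.CT1_aeval_mem (v : Place κ L) {a : L} (ha : a ∈ v.O) (p : κ[X]) :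
    Polynomial.aeval a p ∈ v.O := by
  induction p using Polynomial.induction_on' with
  | add p q hp hq => rw [map_add]; exact v.O.add_mem _ _ hp hq
  | monomial n c =>
    rw [Polynomial.aeval_monomial]
    exact v.O.mul_mem _ _ (v.const c) (pow_mem ha n)

omit [IsFF κ L] in
theorem Place.CT1_transcendental_of_val_lt (v : Place κ L) {f : L} (h0 : f ≠ 0)
    (hf : v.O.valuation f < 1) : Transcendental κ f := by
  intro ha
  have h1 := (v.O.valuation_le_one_iff _).2 (v.CT1_mem_of_algebraic ha.inv)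
  rw [map_inv₀, inv_le_one₀ ((Valuation.pos_iff _).2 h0)] at h1
  exact absurd hf (not_lt.2 h1)

omit [IsFF κ L] in
theorem Place.CT1_exists_val_lt (v : Place κ L) : ∃ f : L, f ≠ 0 ∧ v.O.valuation f < 1 := by
  obtain ⟨a, ha⟩ : ∃ a, a ∉ v.O := by
    by_contra h
    push Not at h
    exact v.ne_top (eq_top_iff.2 fun a _ => h a)
  have h0 : a ≠ 0 := by rintro rfl; exact ha v.O.zero_mem
  refine ⟨a⁻¹, inv_ne_zero h0, ?_⟩
  rw [← v.O.valuation_le_one_iff, not_le] at ha
  rw [map_inv₀]
  exact inv_lt_one_of_one_lt₀ ha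

omit [IsFF κ L] in
theorem Place.CT1_val_const (v : Place κ L) {c : κ} (hc : c ≠ 0) :
    v.O.valuation (algebraMap κ L c) = 1 := by
  have h1 := (v.O.valuation_le_one_iff _).2 (v.const c)
  have h2 := (v.O.valuation_le_one_iff _).2 (v.const c⁻¹)
  rw [map_inv₀, map_inv₀, inv_le_one₀ ((Valuation.pos_iff _).2 (by simpa using hc))] at h2
  exact le_antisymm h1 h2

omit [IsFF κ L] in
theorem Place.CT1_val_tail (v : Place κ L) {I : Type*} [Fintype I] {f : L} (hf : f ∈ v.O) {z : I → L}
    (hz : ∀ i, z i ∈ v.O) (p : I → κ[X]) :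
    v.O.valuation (f * ∑ i, Polynomial.aeval f (p i) * z i) ≤ v.O.valuation f := by
  rw [map_mul]
  refine mul_le_of_le_one_right' ((v.O.valuation_le_one_iff _).2 ?_)
  exact sum_mem fun i _ => v.O.mul_mem _ _ (v.CT1_aeval_mem hf _) (hz i)

/-- only finitely many values lie between the value of a nonzero element and one -/
theorem Place.CT1_finite_between (v : Place κ L) {f : L} (h0 : f ≠ 0) :
    {γ | v.O.valuation f < γ ∧ γ ≤ 1}.Finite := by
  classical
  by_cases hf : v.O.valuation f < 1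
  swap
  · convert Set.finite_empty
    ext γ
    simp only [Set.mem_ofPred_eq, Set.mem_empty_iff_false, iff_false, not_and, not_le]
    exact fun h => lt_of_le_of_lt (not_lt.1 hf) h
  have hfin := IsFF.finite (v.CT1_transcendental_of_val_lt h0 hf)
  by_contra hinf
  obtain ⟨T, hT, hcard⟩ := Set.Infinite.exists_subset_card_eq hinf (finrank κ⟮f⟯ L + 1)
  choose z hz using v.O.valuation_surjective
  have hli : LinearIndependent κ⟮f⟯ fun γ : T => z γ := by
    refine CT1_indep h0 _ fun c p hs => ?_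
    by_contra hc
    push Not at hc
    obtain ⟨γ, hγ, hmax⟩ := Finset.exists_max_image (Finset.univ.filter fun i => c i ≠ 0)
      (fun i : T => (i : v.O.ValueGroup)) (by
        obtain ⟨i, hi⟩ := hc
        exact ⟨i, by simpa using hi⟩)
    have hγ0 : c γ ≠ 0 := by simpa using hγ
    have hv : ∀ i : T, c i ≠ 0 → v.O.valuation (c i • z i) = i := fun i hi => by
      rw [Algebra.smul_def, map_mul, v.CT1_val_const hi, one_mul, hz]
    have hpos : (γ : v.O.ValueGroup) ≠ 0 := (lt_of_le_of_lt zero_le (hT γ.2).1).ne'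
    have h1 : v.O.valuation (∑ i, c i • z i) = γ := by
      rw [← hv γ hγ0]
      refine v.O.valuation.map_sum_eq_of_lt (Finset.mem_univ γ) fun i hi => ?_
      rw [hv γ hγ0]
      by_cases hi0 : c i = 0
      · rw [hi0, zero_smul, map_zero]; exact zero_lt_iff.2 hpos
      · rw [hv i hi0]
        refine lt_of_le_of_ne (hmax i (by simpa using hi0)) fun h => ?_
        simp [Subtype.ext h] at hi
    have h2 := v.CT1_val_tail ((v.O.valuation_le_one_iff _).1 hf.le) (z := fun γ : T => z γ)
      (fun i => (v.O.valuation_le_one_iff _).1 (by rw [hz]; exact (hT i.2).2)) p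
    rw [← neg_eq_of_add_eq_zero_right hs, Valuation.map_neg, h1] at h2
    exact absurd (hT γ.2).1 (not_lt.2 h2)
  have := hli.fintype_card_le_finrank
  rw [Fintype.card_coe, hcard] at this
  omega

theorem Place.disc (v : Place κ L) : Disc v.O := by
  have hwf : WfDvdMonoid v.O := ⟨by
    refine Subrelation.wf (r := InvImage (· < ·)
      fun a : v.O => {γ | v.O.valuation (a : L) < γ ∧ γ ≤ 1}.encard) ?_
      (InvImage.wf _ wellFounded_lt)
    rintro a b ⟨ha, x, hx, rfl⟩
    have ha' : (a : L) ≠ 0 := by simpa using ha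
    have hlt : v.O.valuation ((a * x : v.O) : L) < v.O.valuation (a : L) := by
      have h1 : v.O.valuation (x : L) < 1 :=
        (v.O.valuation_lt_one_iff x).1 ((IsLocalRing.mem_maximalIdeal _).2 hx)
      rw [MulMemClass.coe_mul, map_mul]
      exact mul_lt_of_lt_one_right ((Valuation.pos_iff _).2 ha') h1
    refine (v.CT1_finite_between ha').encard_lt_encard ⟨fun γ hγ => ⟨hlt.trans hγ.1, hγ.2⟩, fun h => ?_⟩
    exact lt_irrefl _ (h ⟨hlt, v.O.valuation_le_one a⟩).1⟩
  have hpid : IsPrincipalIdealRing v.O := ((IsBezout.TFAE (R := v.O)).out 3 1).1 hwf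
  have : IsDiscreteValuationRing v.O :=
    { not_a_field' := by
        obtain ⟨f, h0, hf⟩ := v.CT1_exists_val_lt
        intro h
        have h1 : (⟨f, (v.O.valuation_le_one_iff _).1 hf.le⟩ : v.O) ∈
            IsLocalRing.maximalIdeal v.O := (v.O.valuation_lt_one_iff _).2 hf
        rw [h, Ideal.mem_bot] at h1
        exact h0 (congrArg Subtype.val h1) }
  exact disc_of_dvr

omit [IsFF κ L] in
theorem Place.CT1_res_smul (v : Place κ L) (c : κ) (a : v.O) :
    IsLocalRing.residue v.O (c • a) = c • IsLocalRing.residue v.O a := by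
  rw [Algebra.smul_def, Algebra.smul_def, map_mul]; rfl

omit [IsFF κ L] in
theorem Place.CT1_coe_smul (v : Place κ L) (c : κ) (a : v.O) : ((c • a : v.O) : L) = c • (a : L) := by
  rw [Algebra.smul_def, Algebra.smul_def]; rfl

omit [IsFF κ L] in
/-- a combination of lifts of independent residues that lies in the maximal ideal is trivial -/
theorem Place.CT1_eq_zero_of_res (v : Place κ L) {I : Type*} [Fintype I] {s : I → v.O}
    (hs : LinearIndependent κ fun i => IsLocalRing.residue v.O (s i)) {c : I → κ}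
    (h : v.O.valuation (∑ i, c i • (s i : L)) < 1) (i : I) : c i = 0 := by
  refine Fintype.linearIndependent_iff.1 hs c ?_ i
  have h1 : ∑ i, c i • s i ∈ IsLocalRing.maximalIdeal v.O := by
    rw [v.O.valuation_lt_one_iff]
    simpa only [AddSubmonoidClass.coe_finsetSum, v.CT1_coe_smul] using h
  rw [← IsLocalRing.residue_eq_zero_iff, map_sum] at h1
  simpa only [v.CT1_res_smul] using h1

instance (v : Place κ L) : FiniteDimensional κ (IsLocalRing.ResidueField v.O) := by
  obtain ⟨f, h0, hf⟩ := v.CT1_exists_val_lt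
  have hfin := IsFF.finite (v.CT1_transcendental_of_val_lt h0 hf)
  rw [FiniteDimensional, ← Module.rank_lt_aleph0_iff]
  refine lt_of_le_of_lt (rank_le (n := finrank κ⟮f⟯ L) fun T hT => ?_) Cardinal.natCast_lt_aleph0
  choose s hs using IsLocalRing.residue_surjective (R := v.O)
  have hli : LinearIndependent κ⟮f⟯ fun r : T => (s r : L) := by
    refine CT1_indep h0 _ fun c p h => ?_
    refine v.CT1_eq_zero_of_res (s := fun r : T => s r) (by simpa only [hs] using hT) ?_
    have h2 := v.CT1_val_tail ((v.O.valuation_le_one_iff _).1 hf.le) (z := fun r : T => (s r : L))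
      (fun i => (s i).2) p
    rw [← neg_eq_of_add_eq_zero_right h, Valuation.map_neg] at h2
    exact h2.trans_lt hf
  simpa using hli.fintype_card_le_finrank

theorem Place.deg_pos (v : Place κ L) : 0 < v.deg := Module.finrank_pos

theorem Place.exists_res [IsAlgClosed κ] (v : Place κ L) {a : L} (ha : a ∈ v.O) :
    ∃ c : κ, Ge v.O 1 (a - algebraMap κ L c) := by
  obtain ⟨c, hc⟩ := (IsAlgClosed.algebraMap_bijective_of_isIntegral (k := κ)
    (K := IsLocalRing.ResidueField v.O)).2 (IsLocalRing.residue v.O ⟨a, ha⟩)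
  refine ⟨c, (val_lt_one_iff (Or.inl v.disc)).1 ?_⟩
  have h1 : (⟨a, ha⟩ - algebraMap κ v.O c : v.O) ∈ IsLocalRing.maximalIdeal v.O := by
    rw [← IsLocalRing.residue_eq_zero_iff, map_sub, ← hc, sub_eq_zero]; rfl
  exact (v.O.valuation_lt_one_iff _).1 h1

omit [IsFF κ L] in
theorem Place.ord_const (v : Place κ L) (c : κ) : ord v.O (algebraMap κ L c) = 0 :=
  ord_of_comap_top (eq_top_iff.2 fun c _ => v.const c) c

omit [IsFF κ L] in
theorem Place.ge_smul (v : Place κ L) {n : ℤ} {a : L} (h : Ge v.O n a) (c : κ) :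
    Ge v.O n (c • a) := by
  have h1 : Ge v.O 0 (algebraMap κ L c) := Or.inr (v.ord_const c).ge
  simpa [Algebra.smul_def] using h1.mul h

omit [IsFF κ L] in
theorem Place.ord_algebraic (v : Place κ L) {a : L} (ha : IsAlgebraic κ a) : ord v.O a = 0 :=
  ord_of_comap_top (ψ := (algebraicClosure κ L).val.toRingHom)
    (eq_top_iff.2 fun c _ => v.CT1_mem_of_algebraic (mem_algebraicClosure_iff.1 c.2))
    ⟨a, mem_algebraicClosure_iff.2 ha⟩

theorem exists_pole {f : L} (hf : Transcendental κ f) : ∃ v : Place κ L, ord v.O f < 0 := by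
  have hg : Transcendental κ f⁻¹ := fun h => hf (IsAlgebraic.inv_iff.1 h)
  have hg0 : f⁻¹ ≠ 0 := by rintro h; rw [h] at hg; exact hg isAlgebraic_zero
  let g : (Algebra.adjoin κ {f⁻¹}).toSubring := ⟨f⁻¹, Algebra.self_mem_adjoin_singleton κ _⟩
  have hI : Ideal.span {g} ≠ ⊤ := by
    rw [Ne, Ideal.span_singleton_eq_top, isUnit_iff_exists_inv]
    rintro ⟨⟨b, hb⟩, h⟩
    obtain ⟨p, rfl⟩ := (Algebra.adjoin_singleton_eq_range_aeval κ f⁻¹).le hb
    have h1 : f⁻¹ * Polynomial.aeval f⁻¹ p = 1 := congrArg Subtype.val h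
    have h2 := transcendental_iff.1 hg (Polynomial.X * p - 1) (by simp [h1])
    have h3 := congrArg (Polynomial.eval 0) h2
    simp at h3
  obtain ⟨V, hV, hV'⟩ := Ideal.image_subset_nonunits_valuationSubring _ hI
  have h1 : V.valuation f⁻¹ < 1 := hV' ⟨g, Ideal.subset_span rfl, rfl⟩
  let v : Place κ L := ⟨V, by
    rintro rfl
    have h2 := (ValuationSubring.valuation_le_one_iff ⊤ f).2 trivial
    rw [map_inv₀, inv_lt_one₀ ((Valuation.pos_iff _).2 (fun h => hg0 (by rw [h, inv_zero])))] at h1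
    exact absurd h1 (not_lt.2 h2), fun c => hV (Subalgebra.algebraMap_mem _ c)⟩
  refine ⟨v, ?_⟩
  have h2 := (ge_iff hg0).1 ((val_lt_one_iff (Or.inl v.disc)).1 h1)
  rw [ord_inv] at h2
  omega

/-- independence of the local expansions -/
theorem Place.CT1_eq_zero_of_ge (v : Place κ L) {I : Type*} [Fintype I] {s : I → v.O}
    (hs : LinearIndependent κ fun i => IsLocalRing.residue v.O (s i)) {t : L} (ht0 : t ≠ 0)
    (ht : ord v.O t = 1) {e : ℕ} {c : Fin e × I → κ}
    (h : Ge v.O e (∑ j, c j • (t ^ (j.1 : ℕ) * s j.2))) (j : Fin e × I) : c j = 0 := by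
  classical
  have hd := Or.inl (b := v.O = ⊤) v.disc
  have key : ∀ (m : ℕ) (j : Fin e), (j : ℕ) = m → ∀ i, c (j, i) = 0 := by
    intro m
    induction m using Nat.strong_induction_on with
    | _ m ih =>
      intro j hj
      refine v.CT1_eq_zero_of_res hs ((val_lt_one_iff hd).2 ?_)
      have e1 : ∑ j, c j • (t ^ (j.1 : ℕ) * s j.2) =
          ∑ j : Fin e, t ^ (j : ℕ) * ∑ i, c (j, i) • (s i : L) := by
        rw [Fintype.sum_prod_type]
        refine Finset.sum_congr rfl fun j _ => ?_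
        rw [Finset.mul_sum]
        exact Finset.sum_congr rfl fun i _ => (mul_smul_comm _ _ _).symm
      rw [e1, ← Finset.add_sum_erase _ _ (Finset.mem_univ j)] at h
      have h2 : Ge v.O (m + 1) (∑ j' ∈ Finset.univ.erase j,
          t ^ (j' : ℕ) * ∑ i, c (j', i) • (s i : L)) := by
        refine Ge.sum fun j' hj' => ?_
        rcases lt_or_ge (j' : ℕ) m with h3 | h3
        · simp [ih _ h3 j' rfl]
        · have h4 : (j' : ℕ) ≠ m := fun h5 =>
            (Finset.mem_erase.1 hj').1 (Fin.ext (h5.trans hj.symm))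
          have h5 : Ge v.O 0 (∑ i, c (j', i) • (s i : L)) :=
            Ge.sum fun i _ => v.ge_smul ((mem_iff_ge hd).1 (s i).2) _
          refine ((ge_ord (V := v.O) (a := t ^ (j' : ℕ))).mul h5).mono ?_
          rw [ord_pow, ht]
          omega
      have h3 := (h.mono (m := m + 1) (by have := j.2; omega)).sub h2
      rw [add_sub_cancel_right, ge_mul_iff (pow_ne_zero _ ht0), ord_pow, ht, hj] at h3
      simpa using h3
  exact key _ j.1 rfl j.2

theorem CT1_approx (S : Finset (Place κ L)) {v : Place κ L} (hv : v ∈ S) (e : Place κ L → ℤ)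
    (a : L) : ∃ z, Ge v.O (e v) (z - a) ∧ ∀ w ∈ S, w ≠ v → Ge w.O (e w) z := by
  classical
  obtain ⟨c, h1, h2⟩ := approx (S.image Place.O) (fun V hV => by
    obtain ⟨w, _, rfl⟩ := Finset.mem_image.1 hV
    exact w.disc) (Finset.mem_image_of_mem _ hv) (∑ w ∈ S, |e w - ord w.O a|)
  have h3 : ∀ w ∈ S, e w ≤ ∑ w ∈ S, |e w - ord w.O a| + ord w.O a := fun w hw => by
    have h4 := Finset.single_le_sum (f := fun w => |e w - ord w.O a|)
      (fun w _ => abs_nonneg _) hw
    have h5 := le_abs_self (e w - ord w.O a)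
    linarith
  refine ⟨c * a, ?_, fun w hw hwv => ?_⟩
  · rw [show c * a - a = (c - 1) * a by ring]
    exact (h1.mul ge_ord).mono (h3 v hv)
  · exact ((h2 _ (Finset.mem_image_of_mem _ hw) fun h => hwv (Place.ext h)).mul ge_ord).mono
      (h3 w hw)

/-- the fundamental inequality -/
theorem sum_ord_le {f : L} (hf : Transcendental κ f) (S : Finset (Place κ L))
    (hS : ∀ v ∈ S, 0 < ord v.O f) : ∑ v ∈ S, ord v.O f * v.deg ≤ finrank κ⟮f⟯ L := by
  classical
  have hfin := IsFF.finite hf
  have h0 : f ≠ 0 := by rintro rfl; exact hf isAlgebraic_zero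
  have hd : ∀ v : Place κ L, Disc v.O ∨ v.O = ⊤ := fun v => Or.inl v.disc
  choose t ht0 ht using fun v : Place κ L => v.disc.exists_ord 1
  have hs : ∀ v : Place κ L, ∃ s : Fin v.deg → v.O,
      LinearIndependent κ fun i => IsLocalRing.residue v.O (s i) := fun v => by
    choose s hs using IsLocalRing.residue_surjective (R := v.O)
    exact ⟨fun i => s (Module.finBasis κ _ i), by
      simp only [hs]
      exact (Module.finBasis κ _).linearIndependent⟩
  choose s hs using hs
  choose z hz1 hz2 using fun (v : S) (a : L) => CT1_approx S v.2 (fun w => ord w.O f) a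
  let I := (v : S) × (Fin (ord v.1.O f).toNat × Fin v.1.deg)
  let a : I → L := fun i => t i.1 ^ (i.2.1 : ℕ) * s i.1 i.2.2
  have hmem : ∀ (w : S) (i : I), z i.1 (a i) ∈ w.1.O := fun w i => by
    rw [mem_iff_ge (hd _)]
    by_cases hw : w = i.1
    · subst hw
      have h1 : Ge i.1.1.O 0 (a i) := by
        refine ((ge_ord (V := i.1.1.O) (a := t i.1 ^ (i.2.1 : ℕ))).mul
          ((mem_iff_ge (hd _)).1 (s i.1 i.2.2).2)).mono ?_
        rw [ord_pow, ht]
        omega
      simpa using ((hz1 i.1 (a i)).mono (hS _ i.1.2).le).add h1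
    · exact (hz2 i.1 (a i) w w.2 fun h => hw (Subtype.ext h)).mono (hS _ w.2).le
  have hli : LinearIndependent κ⟮f⟯ fun i : I => z i.1 (a i) := by
    refine CT1_indep h0 _ fun c p h => ?_
    rintro ⟨w, j⟩
    have hw := hS _ w.2
    have h1 : Ge w.1.O (ord w.1.O f) (∑ i, c i • z i.1 (a i)) := by
      rw [← val_le_iff (hd _) h0, eq_neg_of_add_eq_zero_left h, Valuation.map_neg]
      exact w.1.CT1_val_tail ((mem_iff_ge (hd _)).2 (Or.inr hw.le)) (hmem w) p
    rw [Fintype.sum_sigma, ← Finset.add_sum_erase _ _ (Finset.mem_univ w)] at h1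
    have h2 : Ge w.1.O (ord w.1.O f) (∑ v ∈ Finset.univ.erase w,
        ∑ j, c ⟨v, j⟩ • z v (a ⟨v, j⟩)) :=
      Ge.sum fun v hv => Ge.sum fun j _ => w.1.ge_smul
        (hz2 v _ w w.2 fun h => (Finset.mem_erase.1 hv).1 (Subtype.ext h).symm) _
    have h3 : Ge w.1.O (ord w.1.O f) (∑ j, c ⟨w, j⟩ • (z w (a ⟨w, j⟩) - a ⟨w, j⟩)) :=
      Ge.sum fun j _ => w.1.ge_smul (hz1 w _) _
    have h4 := (h1.sub h2).sub h3
    refine w.1.CT1_eq_zero_of_ge (hs w) (ht0 w) (ht w) (c := fun j => c ⟨w, j⟩) ?_ j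
    rw [Int.toNat_of_nonneg hw.le]
    convert h4 using 1
    simp only [add_sub_cancel_right, smul_sub, Finset.sum_sub_distrib, sub_sub_cancel]
    rfl
  have h1 := hli.fintype_card_le_finrank
  rw [Fintype.card_sigma] at h1
  refine le_trans (le_of_eq ?_) (Int.ofNat_le.2 h1)
  rw [← Finset.sum_coe_sort, Nat.cast_sum]
  refine Finset.sum_congr rfl fun v _ => ?_
  simp [(hS _ v.2).le]

theorem CT1_finite_zeros (a : L) : {v : Place κ L | 0 < ord v.O a}.Finite := by
  by_cases ha : IsAlgebraic κ a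
  · convert Set.finite_empty
    ext v
    simp [v.ord_algebraic ha]
  by_contra hinf
  obtain ⟨T, hT, hcard⟩ := Set.Infinite.exists_subset_card_eq hinf (finrank κ⟮a⟯ L + 1)
  have h1 := sum_ord_le ha T fun v hv => hT hv
  have h2 := Finset.card_nsmul_le_sum T (fun v => ord v.O a * v.deg) 1 fun v hv => by
    have h3 : 0 < ord v.O a := hT hv
    have h4 : (0 : ℤ) < v.deg := by exact_mod_cast v.deg_pos
    exact Int.add_one_le_iff.2 (mul_pos h3 h4)
  rw [hcard] at h2
  simp at h2
  omega

theorem finite_ord (a : L) : {v : Place κ L | ord v.O a ≠ 0}.Finite := by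
  refine ((CT1_finite_zeros (κ := κ) a).union (CT1_finite_zeros a⁻¹)).subset fun v hv => ?_
  simp only [Set.mem_ofPred_eq, Set.mem_union, ord_inv] at hv ⊢
  omega

omit [IsFF κ L] in
theorem CT1_mkDiv_apply {f : Place κ L → ℤ} (h : (Function.support f).Finite) (v : Place κ L) :
    mkDiv f v = f v := by
  rw [mkDiv, dif_pos h, Finsupp.ofSupportFinite_coe]

theorem div_apply (a : L) (v : Place κ L) : div κ a v = ord v.O a :=
  CT1_mkDiv_apply (finite_ord a) v

theorem poles_apply (a : L) (v : Place κ L) : poles κ a v = max 0 (-ord v.O a) :=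
  CT1_mkDiv_apply ((finite_ord a).subset fun w hw h => hw (by simp [h])) v

theorem vdiv_apply [Finite ι] (w : ι → L) (v : Place κ L) : vdiv κ w v = vord v.O w := by
  refine CT1_mkDiv_apply ((Set.finite_iUnion fun i => finite_ord (κ := κ) (w i)).subset
    fun v hv => ?_) v
  by_cases hw : w = 0
  · exact absurd (by simp [hw]) hv
  · obtain ⟨i, _, hi⟩ := exists_vord (V := v.O) hw
    exact Set.mem_iUnion.2 ⟨i, fun h => hv (hi.symm.trans h)⟩

omit [IsFF κ L] in
theorem degD_mono {D D' : Div κ L} (h : D ≤ D') : degD D ≤ degD D' := by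
  rw [← sub_nonneg, ← map_sub, degD, Finsupp.linearCombination_apply]
  refine Finset.sum_nonneg fun v _ => ?_
  exact mul_nonneg (sub_nonneg.2 (h v)) (Nat.cast_nonneg _)

omit [IsFF κ L] in
theorem degD_single (v : Place κ L) (n : ℤ) : degD (Finsupp.single v n) = n * v.deg := by
  rw [degD, Finsupp.linearCombination_single, smul_eq_mul]

theorem CT1_cond_one (v : Place κ L) {M : Type*} [AddCommGroup M] [Module κ M] (U : Submodule κ M)
    [FiniteDimensional κ U] (l : M →ₗ[κ] L) (n : ℤ) (h : ∀ w ∈ U, Ge v.O n (l w)) :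
    ∃ U' ≤ U, (∀ w ∈ U, w ∈ U' ↔ Ge v.O (n + 1) (l w)) ∧ finrank κ U ≤ finrank κ U' + v.deg := by
  have hd := Or.inl (b := v.O = ⊤) v.disc
  obtain ⟨t, ht0, ht⟩ := v.disc.exists_ord (-n)
  have hm : ∀ w : U, t * l w ∈ v.O := fun w => by
    rw [mem_iff_ge hd, ge_mul_iff ht0, ht]
    simpa using h w w.2
  let φ : U →ₗ[κ] IsLocalRing.ResidueField v.O :=
    { toFun := fun w => IsLocalRing.residue v.O ⟨t * l w, hm w⟩
      map_add' := fun w w' => by
        rw [← map_add]
        congr 1
        exact Subtype.ext (by simp [mul_add])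
      map_smul' := fun c w => by
        rw [RingHom.id_apply, ← v.CT1_res_smul]
        congr 1
        exact Subtype.ext (by simp [v.CT1_coe_smul]) }
  refine ⟨(LinearMap.ker φ).map U.subtype, Submodule.map_subtype_le _ _, fun w hw => ?_, ?_⟩
  · have h1 : φ ⟨w, hw⟩ = 0 ↔ Ge v.O (n + 1) (l w) := by
      change IsLocalRing.residue v.O ⟨t * l w, hm ⟨w, hw⟩⟩ = 0 ↔ _
      rw [IsLocalRing.residue_eq_zero_iff, v.O.valuation_lt_one_iff, val_lt_one_iff hd]
      change Ge v.O 1 (t * l w) ↔ _
      rw [ge_mul_iff ht0, ht, sub_neg_eq_add, add_comm]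
    rw [← h1]
    constructor
    · rintro ⟨w', hw', rfl⟩
      exact hw'
    · exact fun h2 => ⟨⟨w, hw⟩, h2, rfl⟩
  · rw [Submodule.finrank_map_subtype_eq, ← φ.finrank_range_add_finrank_ker, add_comm]
    exact Nat.add_le_add_left (Submodule.finrank_le _) _

/-- counting conditions -/
theorem cond (v : Place κ L) {M : Type*} [AddCommGroup M] [Module κ M] (U : Submodule κ M)
    [FiniteDimensional κ U] (l : M →ₗ[κ] L) (n : ℤ) (j : ℕ) (h : ∀ w ∈ U, Ge v.O n (l w)) :
    ∃ U' ≤ U, (∀ w ∈ U, w ∈ U' ↔ Ge v.O (n + j) (l w)) ∧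
      finrank κ U ≤ finrank κ U' + j * v.deg := by
  induction j with
  | zero => exact ⟨U, le_rfl, fun w hw => by simpa [hw] using h w hw, by simp⟩
  | succ j ih =>
    obtain ⟨U', h1, h2, h3⟩ := ih
    have : FiniteDimensional κ U' := Submodule.finiteDimensional_of_le h1
    obtain ⟨U'', h4, h5, h6⟩ := CT1_cond_one v U' l (n + j) fun w hw => (h2 w (h1 hw)).1 hw
    refine ⟨U'', h4.trans h1, fun w hw => ?_, ?_⟩
    · rw [Nat.cast_succ, ← add_assoc]
      exact ⟨fun h7 => (h5 w (h4 h7)).1 h7, fun h7 =>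
        (h5 w ((h2 w hw).2 (h7.mono (by omega)))).2 h7⟩
    · rw [Nat.succ_mul]
      omega

end Pool.Agent.Lib.MP_7fcda1_ag
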