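import Pool.Agent.Lib.MP_7fcda1_ag.Rk

open scoped IntermediateField Polynomial WithZero
open Module

noncomputable section

universe u

namespace Pool.Agent.Lib.MP_7fcda1_ag

/-- An element lying in every valuation ring over a subfield is integral over it. -/
theorem noe_isIntegral {F K : Type*} [Field F] [Field K] [Algebra F K] {a : K}
    (h : ∀ V : ValuationSubring K, (∀ c, algebraMap F K c ∈ V) → a ∈ V) : IsIntegral F a := by
  have h1 : a ∈ (integralClosure (Subring.closure (Set.range (algebraMap F K))) K).toSubring := by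
    rw [← iInf_valuationSubring_superset, Subring.mem_iInf]
    exact fun V => h V.1 fun c => V.2 ⟨c, rfl⟩
  have h2 : Subring.closure (Set.range (algebraMap F K)) = (algebraMap F K).range := by
    rw [← RingHom.coe_range, Subring.closure_eq]
  have h3 : IsIntegral (Subring.closure (Set.range (algebraMap F K))) a := h1
  rw [h2] at h3
  obtain ⟨p, hp, hp0⟩ := h3
  let e : F ≃+* (algebraMap F K).range := RingEquiv.ofBijective (algebraMap F K).rangeRestrict
    ⟨fun x y hxy => (algebraMap F K).injective (congrArg Subtype.val hxy),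
      (algebraMap F K).rangeRestrict_surjective⟩
  refine ⟨p.map e.symm.toRingHom, hp.map _, ?_⟩
  rw [Polynomial.eval₂_map]
  convert hp0
  ext c
  exact congrArg Subtype.val (e.apply_symm_apply c)

theorem noe_val_aeval {k K σ : Type*} [Field k] [Field K] [Algebra k K] (V : ValuationSubring K)
    (hV : ∀ c, algebraMap k K c ∈ V) (x : σ → K) (c : σ → k)
    (h : ∀ i, V.valuation (x i - algebraMap k K (c i)) < 1) (f : MvPolynomial σ k) :
    V.valuation (MvPolynomial.aeval x f - algebraMap k K (MvPolynomial.eval c f)) < 1 := by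
  have hle : ∀ c, V.valuation (algebraMap k K c) ≤ 1 := fun c => (V.valuation_le_one_iff _).2 (hV c)
  induction f using MvPolynomial.induction_on with
  | C a => simp
  | add p q hp hq =>
    rw [map_add, map_add, map_add, add_sub_add_comm]
    exact V.valuation.map_add_lt hp hq
  | mul_X p i hp =>
    have hx : V.valuation (x i) ≤ 1 := by
      have := V.valuation.map_add_le (h i).le (hle (c i))
      rwa [sub_add_cancel] at this
    have e : MvPolynomial.aeval x (p * MvPolynomial.X i) -
        algebraMap k K (MvPolynomial.eval c (p * MvPolynomial.X i)) =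
        (MvPolynomial.aeval x p - algebraMap k K (MvPolynomial.eval c p)) * x i +
          algebraMap k K (MvPolynomial.eval c p) * (x i - algebraMap k K (c i)) := by
      simp only [map_mul, MvPolynomial.aeval_X, MvPolynomial.eval_X]; ring
    rw [e]
    refine V.valuation.map_add_lt ?_ ?_
    · rw [map_mul]; exact (mul_le_of_le_one_right' hx).trans_lt hp
    · rw [map_mul]; exact (mul_le_of_le_one_left' (hle _)).trans_lt (h i)

theorem noe_val_const {k K : Type*} [Field k] [Field K] [Algebra k K] (V : ValuationSubring K)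
    (hV : ∀ c, algebraMap k K c ∈ V) {c : k} (hc : c ≠ 0) :
    V.valuation (algebraMap k K c) = 1 := by
  have h1 := (V.valuation_le_one_iff _).2 (hV c)
  have h2 := (V.valuation_le_one_iff _).2 (hV c⁻¹)
  refine le_antisymm h1 ?_
  have h3 : V.valuation (algebraMap k K c) * V.valuation (algebraMap k K c⁻¹) = 1 := by
    rw [← map_mul, ← map_mul, mul_inv_cancel₀ hc, map_one, map_one]
  exact h3.symm.le.trans (mul_le_of_le_one_right' h2)

theorem noe_div_mem {K : Type*} [Field K] (V : ValuationSubring K) {a b : K}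
    (h : V.valuation a ≤ V.valuation b) : a / b ∈ V := by
  rw [← V.valuation_le_one_iff, map_div₀]
  exact div_le_one_of_le₀ h zero_le

theorem noe_step {k K : Type*} [Field k] [Infinite k] [Field K] [Algebra k K] {m : ℕ}
    (η : Fin (m + 2) → K) (h : η 0 = 0 ∨ ¬AlgebraicIndependent k fun i : Fin (m + 1) =>
      η i.succ / η 0) :
    ∃ c : Fin (m + 1) → k, ∀ V : ValuationSubring K, (∀ c, algebraMap k K c ∈ V) →
      ∀ a, ∃ i, V.valuation (η a) ≤ V.valuation (η i.succ - c i • η 0) := by
  suffices H : ∃ c : Fin (m + 1) → k, ∀ V : ValuationSubring K, (∀ c, algebraMap k K c ∈ V) →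
      ∃ i, V.valuation (η 0) ≤ V.valuation (η i.succ - c i • η 0) by
    obtain ⟨c, hc⟩ := H
    refine ⟨c, fun V hV a => ?_⟩
    obtain ⟨i, hi⟩ := hc V hV
    refine Fin.cases ⟨i, hi⟩ (fun j => ?_) a
    have h1 : V.valuation (c j • η 0) ≤ V.valuation (η i.succ - c i • η 0) := by
      rw [Algebra.smul_def, map_mul]
      exact (mul_le_of_le_one_left' ((V.valuation_le_one_iff _).2 (hV _))).trans hi
    have h2 := V.valuation.map_add (η j.succ - c j • η 0) (c j • η 0)
    rw [sub_add_cancel, le_max_iff] at h2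
    rcases h2 with h2 | h2
    · exact ⟨j, h2⟩
    · exact ⟨i, h2.trans h1⟩
  by_cases h0 : η 0 = 0
  · exact ⟨0, fun V _ => ⟨0, by rw [h0, map_zero]; exact zero_le⟩⟩
  have h1 := h.resolve_left h0
  rw [algebraicIndependent_iff] at h1
  push Not at h1
  obtain ⟨f, hf, hf0⟩ := h1
  obtain ⟨c, hc⟩ : ∃ c : Fin (m + 1) → k, MvPolynomial.eval c f ≠ 0 := by
    by_contra hc
    push Not at hc
    exact hf0 (MvPolynomial.funext fun c => by rw [hc c, map_zero])
  refine ⟨c, fun V hV => ?_⟩
  by_contra hlt
  push Not at hlt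
  have hv : V.valuation (η 0) ≠ 0 := (map_ne_zero _).2 h0
  have h2 := noe_val_aeval V hV (fun i : Fin (m + 1) => η i.succ / η 0) c (fun i => by
    have e : η i.succ / η 0 - algebraMap k K (c i) = (η i.succ - c i • η 0) / η 0 := by
      rw [Algebra.smul_def]; field_simp
    rw [e, map_div₀]
    exact (div_lt_one₀ (zero_lt_iff.2 hv)).2 (hlt i)) f
  rw [hf, zero_sub, Valuation.map_neg, noe_val_const V hV hc] at h2
  exact lt_irrefl _ h2

theorem noether {k K : Type u} [Field k] [IsAlgClosed k] [Field K] [Algebra k K] {N : ℕ}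
    {ξ : Fin (N + 1) → K} {i₀ : Fin (N + 1)} (h₀ : ξ i₀ = 1)
    (hgen : IntermediateField.adjoin k (Set.range ξ) = ⊤) {h : K}
    (hh : h ∉ (algebraMap k K).range) :
    ∃ (n : ℕ) (x : Fin (n + 2) → K) (l : K), l ≠ 0 ∧ Model k x ∧
      (∀ a, l * x a ∈ Submodule.span k (Set.range ξ)) ∧
      ∀ V : ValuationSubring K, (∀ c, algebraMap k K c ∈ V) → ∀ a, (∀ b, x b / x a ∈ V) →
        ∀ i, ξ i / (l * x a) ∈ V := by
  suffices H : ∀ (m : ℕ) (η : Fin (m + 1) → K), (∀ a, η a ∈ Submodule.span k (Set.range ξ)) →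
      (∀ V : ValuationSubring K, (∀ c, algebraMap k K c ∈ V) →
        ∀ i, ∃ a, V.valuation (ξ i) ≤ V.valuation (η a)) →
      ∃ (n : ℕ) (x : Fin (n + 2) → K) (l : K), l ≠ 0 ∧ Model k x ∧
        (∀ a, l * x a ∈ Submodule.span k (Set.range ξ)) ∧
        ∀ V : ValuationSubring K, (∀ c, algebraMap k K c ∈ V) → ∀ a, (∀ b, x b / x a ∈ V) →
          ∀ i, ξ i / (l * x a) ∈ V from
    H N ξ (fun a => Submodule.subset_span ⟨a, rfl⟩) fun V _ i => ⟨i, le_rfl⟩
  intro m
  induction m with
  | zero =>
    intro η _ h2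
    exfalso
    have h3 : ∀ i, ξ i / η 0 ∈ (algebraMap k K).range := fun i => by
      have hi : IsIntegral k (ξ i / η 0) := noe_isIntegral fun V hV => by
        obtain ⟨a, ha⟩ := h2 V hV i
        rw [Subsingleton.elim (α := Fin 1) a 0] at ha
        exact noe_div_mem V ha
      exact minpoly.mem_range_of_degree_eq_one k _
        (IsAlgClosed.degree_eq_one_of_irreducible k (minpoly.irreducible hi))
    have h0 : η 0 ≠ 0 := by
      obtain ⟨a, ha⟩ := h2 ⊤ (fun _ => ValuationSubring.mem_top _) i₀
      rw [Subsingleton.elim (α := Fin 1) a 0, h₀, map_one] at ha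
      intro h0
      rw [h0, map_zero] at ha
      exact not_lt.2 ha zero_lt_one
    have h4 : IntermediateField.adjoin k (Set.range ξ) ≤ ⊥ := by
      rw [IntermediateField.adjoin_le_iff]
      rintro _ ⟨i, rfl⟩
      obtain ⟨c, hc⟩ := h3 i
      obtain ⟨d, hd⟩ := h3 i₀
      refine IntermediateField.mem_bot.2 ⟨c / d, ?_⟩
      rw [map_div₀, hc, hd, h₀]; field_simp
    rw [hgen] at h4
    exact hh (IntermediateField.mem_bot.1 (h4 IntermediateField.mem_top))
  | succ m ih =>
    intro η h1 h2
    by_cases hc : η 0 = 0 ∨ ¬AlgebraicIndependent k fun i : Fin (m + 1) => η i.succ / η 0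
    · obtain ⟨c, hc⟩ := noe_step η hc
      refine ih (fun i => η i.succ - c i • η 0)
        (fun i => Submodule.sub_mem _ (h1 _) (Submodule.smul_mem _ _ (h1 _))) fun V hV i => ?_
      obtain ⟨a, ha⟩ := h2 V hV i
      obtain ⟨j, hj⟩ := hc V hV a
      exact ⟨j, ha.trans hj⟩
    push Not at hc
    obtain ⟨h0, hind⟩ := hc
    have hl : ∀ a, η 0 * (η a / η 0) = η a := fun a => mul_div_cancel₀ _ h0
    have key : ∀ V : ValuationSubring K, (∀ c, algebraMap k K c ∈ V) → ∀ a,
        (∀ b, η b / η 0 / (η a / η 0) ∈ V) → ∀ i, ξ i / η a ∈ V := by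
      intro V hV a hb i
      by_cases ha : η a = 0
      · rw [ha, div_zero]; exact V.zero_mem
      obtain ⟨b, hb'⟩ := h2 V hV i
      have e : ξ i / η a = ξ i / η b * (η b / η 0 / (η a / η 0)) ∨ ξ i = 0 := by
        by_cases hb0 : η b = 0
        · rw [hb0, map_zero, le_zero_iff, map_eq_zero] at hb'
          exact Or.inr hb'
        · left; field_simp
      rcases e with e | e
      · rw [e]; exact V.mul_mem _ _ (noe_div_mem V hb') (hb b)
      · rw [e, zero_div]; exact V.zero_mem
    refine ⟨m, fun a => η a / η 0, η 0, h0, ⟨div_self h0, hind, ?_⟩, fun a => (hl a).symm ▸ h1 a,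
      fun V hV a hb i => (hl a).symm ▸ key V hV a hb i⟩
    set L := K0 k fun a => η a / η 0 with hL
    have h3 : ∀ i, IsIntegral L (ξ i / η 0) := fun i => noe_isIntegral fun V hV =>
      key V (fun c => hV (algebraMap k L c)) 0 (fun b => by
        rw [div_self h0, div_one]
        exact hV ⟨_, IntermediateField.subset_adjoin _ _ ⟨b, rfl⟩⟩) i
    have h4 : ∀ i, IsIntegral L (ξ i) := fun i => by
      have e : ξ i = ξ i / η 0 * (ξ i₀ / η 0)⁻¹ := by rw [h₀]; field_simp
      rw [e]
      exact (h3 i).mul (h3 i₀).inv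
    have h5 : IntermediateField.adjoin L (Set.range ξ) = ⊤ := by
      rw [eq_top_iff]
      intro y _
      have hy : y ∈ IntermediateField.adjoin k (Set.range ξ) := hgen ▸ IntermediateField.mem_top
      exact (IntermediateField.adjoin_le_iff.2 (IntermediateField.subset_adjoin L _) :
        _ ≤ (IntermediateField.adjoin L (Set.range ξ)).restrictScalars k) hy
    have h6 : FiniteDimensional L (IntermediateField.adjoin L (Set.range ξ)) :=
      IntermediateField.finiteDimensional_adjoin (by rintro _ ⟨i, rfl⟩; exact h4 i)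
    rw [h5] at h6
    exact IntermediateField.topEquiv.toLinearEquiv.finiteDimensional

end Pool.Agent.Lib.MP_7fcda1_ag
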