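import Pool.Agent.Lib.MP_7fcda1_ag.Iface

open scoped IntermediateField Polynomial WithZero
open Module MvPolynomial

noncomputable section

universe u

namespace Pool.Agent.Lib.MP_7fcda1_ag

section poly
variable {k : Type*} [Field k] {σ : Type*}

theorem Def1.aeval_hom {R : Type*} [CommRing R] [Algebra k R] {g : MvPolynomial σ k} {d : ℕ}
    (hg : g.IsHomogeneous d) (c : R) (z : σ → R) :
    aeval (fun i => c * z i) g = c ^ d * aeval z g := by
  rw [aeval_def, aeval_def, eval₂_eq, eval₂_eq, Finset.mul_sum]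
  refine Finset.sum_congr rfl fun m hm => ?_
  simp only [mul_pow, Finset.prod_mul_distrib, Finset.prod_pow_eq_pow_sum]
  rw [← hg.degree_eq_sum_deg_support hm]
  ring

theorem Def1.der_aeval [Fintype σ] {F : Type*} [CommRing F] [Algebra k F] (D : Derivation k F F)
    (z : σ → F) (f : MvPolynomial σ k) :
    D (aeval z f) = ∑ i, aeval z (pderiv i f) * D (z i) := by
  classical
  induction f using MvPolynomial.induction_on with
  | C a => simp
  | add f g hf hg => simp only [map_add, hf, hg, add_mul, Finset.sum_add_distrib]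
  | mul_X f j hf =>
    simp only [map_mul, aeval_X, Derivation.leibniz, smul_eq_mul, hf, map_add, pderiv_X,
      add_mul, Finset.sum_add_distrib, Finset.mul_sum, mul_assoc]
    congr 1
    rw [Finset.sum_eq_single j]
    · simp
    · intro b _ hb
      simp [hb.symm]
    · simp

theorem Def1.euler [Fintype σ] {F : Type*} [CommRing F] [Algebra k F] {z : σ → F}
    {g : MvPolynomial σ k} {d : ℕ} (hg : g.IsHomogeneous d) (h0 : aeval z g = 0) :
    ∑ i, aeval z (pderiv i g) * z i = 0 := by
  have := congrArg (aeval z) hg.sum_X_mul_pderiv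
  simp only [map_sum, map_mul, aeval_X, map_nsmul, h0, smul_zero] at this
  simpa only [mul_comm] using this

theorem Def1.cancel_aux {Λ : Type*} {G : Λ → MvPolynomial σ k} {δ : ℕ}
    (hG : ∀ l, (G l).IsHomogeneous δ) (j : σ) {q : MvPolynomial σ k}
    (h : (X j - 1) * q ∈ Ideal.span (Set.range G)) {Q : Type*} [CommRing Q] [Algebra k Q]
    (z : σ → Q) (hz : ∀ l, aeval z (G l) = 0) : aeval z q = 0 := by
  set τ : MvPolynomial σ k →ₐ[k] Q[X] := aeval fun i => Polynomial.X * Polynomial.C (z i) with hτ
  have h1 : Ideal.span (Set.range G) ≤ RingHom.ker τ := by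
    rw [Ideal.span_le]
    rintro _ ⟨l, rfl⟩
    rw [SetLike.mem_coe, RingHom.mem_ker, hτ, Def1.aeval_hom (hG l)]
    have := DFunLike.congr_fun (comp_aeval z (Polynomial.CAlgHom (R := k) (A := Q))) (G l)
    simp only [AlgHom.comp_apply, Polynomial.CAlgHom_apply] at this
    rw [← this, hz, map_zero, mul_zero]
  have h2 : τ (X j - 1) ∈ nonZeroDivisors Q[X] := by
    refine Polynomial.mem_nonzeroDivisors_of_coeff_mem 0 ?_
    simp only [hτ, map_sub, aeval_X, map_one, Polynomial.coeff_sub, Polynomial.mul_coeff_zero,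
      Polynomial.coeff_X_zero, zero_mul, Polynomial.coeff_one_zero, zero_sub]
    exact IsUnit.mem_nonZeroDivisors isUnit_one.neg
  have h3 : τ q = 0 := by
    have := h1 h
    rw [RingHom.mem_ker, map_mul] at this
    exact (mul_left_mem_nonZeroDivisors_eq_zero_iff h2).1 this
  have h4 := DFunLike.congr_fun (comp_aeval (fun i => Polynomial.X * Polynomial.C (z i))
    ((Polynomial.aeval (1 : Q)).restrictScalars k)) q
  simp only [AlgHom.comp_apply, AlgHom.coe_restrictScalars', map_mul, Polynomial.aeval_X,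
    Polynomial.aeval_C, one_mul, Algebra.algebraMap_self, RingHom.id_apply] at h4
  rw [← hτ, h3, map_zero] at h4
  exact h4.symm

/-- `X j - 1` is not a zero divisor modulo a homogeneous ideal. -/
theorem Def1.cancel {Λ : Type*} {G : Λ → MvPolynomial σ k} {δ : ℕ}
    (hG : ∀ l, (G l).IsHomogeneous δ) (j : σ) {q : MvPolynomial σ k}
    (h : (X j - 1) * q ∈ Ideal.span (Set.range G)) : q ∈ Ideal.span (Set.range G) := by
  have e0 : ∀ f : MvPolynomial σ k,
      aeval (fun i => Ideal.Quotient.mk (Ideal.span (Set.range G)) (X i)) f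
        = Ideal.Quotient.mk (Ideal.span (Set.range G)) f := fun f =>
    DFunLike.congr_fun (aeval_unique (Ideal.Quotient.mkₐ k (Ideal.span (Set.range G)))).symm f
  rw [← Ideal.Quotient.eq_zero_iff_mem, ← e0]
  exact Def1.cancel_aux hG j h _ fun l => by
    rw [e0]; exact Ideal.Quotient.eq_zero_iff_mem.2 (Ideal.subset_span ⟨l, rfl⟩)

/-- Injectivity of the conormal map at the generic point. -/
theorem Def1.conormal_inj [PerfectField k] [Fintype σ] {F : Type*} [Field F] [Algebra k F]
    (y : σ → F) (hs : ∀ c : F, ∃ a b : MvPolynomial σ k, aeval y b ≠ 0 ∧ c * aeval y b = aeval y a)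
    {g : MvPolynomial σ k} (hg : aeval y g = 0) (hd : ∀ j, aeval y (pderiv j g) = 0) :
    ∃ s, aeval y s ≠ 0 ∧ s * g ∈ RingHom.ker (aeval y : MvPolynomial σ k →ₐ[k] F) ^ 2 := by
  classical
  set ev : MvPolynomial σ k →ₐ[k] F := aeval y with hev
  set M : Submonoid (MvPolynomial σ k) := (nonZeroDivisors F).comap ev with hM
  have hu : ∀ m : M, IsUnit (ev m) := fun m => (nonZeroDivisors.ne_zero m.2).isUnit
  set φ : Localization M →ₐ[k] F := IsLocalization.liftAlgHom (M := M) hu with hφ
  have hφa : ∀ f, φ (algebraMap _ _ f) = ev f := fun f => IsLocalization.lift_eq hu f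
  have hsurj : Function.Surjective φ := fun c => by
    obtain ⟨a, b, hb, h⟩ := hs c
    refine ⟨IsLocalization.mk' _ a (⟨b, mem_nonZeroDivisors_of_ne_zero hb⟩ : M), ?_⟩
    exact (IsLocalization.lift_mk'_spec hu _ _ _).2 (by rw [mul_comm]; exact h.symm)
  have : Algebra.EssFiniteType k F := Algebra.EssFiniteType.of_surjective φ hsurj
  set J : Ideal (Localization M) := RingHom.ker φ.toRingHom with hJ
  have hsurj2 : Function.Surjective φ.kerSquareLift := fun c => by
    obtain ⟨x, rfl⟩ := hsurj c
    exact ⟨Ideal.Quotient.mk _ x, rfl⟩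
  have hsq : ∀ a b : Localization M ⧸ J ^ 2, φ.kerSquareLift a = 0 → φ.kerSquareLift b = 0 →
      a * b = 0 := fun a b ha hb => by
    obtain ⟨a, rfl⟩ := Ideal.Quotient.mk_surjective a
    obtain ⟨b, rfl⟩ := Ideal.Quotient.mk_surjective b
    rw [← map_mul, Ideal.Quotient.eq_zero_iff_mem, pow_two]
    exact Ideal.mul_mem_mul ha hb
  have hnil : IsNilpotent (RingHom.ker (φ.kerSquareLift : (Localization M ⧸ J ^ 2) →+* F)) :=
    ⟨2, (pow_two _).trans (eq_bot_iff.2 (Ideal.mul_le.2 fun a ha b hb => hsq a b ha hb))⟩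
  set sec : F →ₐ[k] Localization M ⧸ J ^ 2 :=
    Algebra.FormallySmooth.liftOfSurjective (AlgHom.id k F) φ.kerSquareLift hsurj2 hnil with hsec
  have hπ : ∀ c, φ.kerSquareLift (sec c) = c := fun c =>
    Algebra.FormallySmooth.liftOfSurjective_apply _ _ hsurj2 hnil c
  set mk : MvPolynomial σ k →ₐ[k] Localization M ⧸ J ^ 2 :=
    (Ideal.Quotient.mkₐ k _).comp (IsScalarTower.toAlgHom k _ _) with hmk
  have hπmk : ∀ f, φ.kerSquareLift (mk f) = ev f := fun f => hφa f
  have hδ : ∀ f, φ.kerSquareLift (mk f - sec (ev f)) = 0 := fun f => by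
    rw [map_sub, hπmk, hπ, sub_self]
  have key : ∀ f, mk f - sec (ev f) = ∑ i, mk (pderiv i f) * (mk (X i) - sec (ev (X i))) := by
    intro f
    induction f using MvPolynomial.induction_on with
    | C a =>
      rw [← algebraMap_eq, mk.commutes, ev.commutes, sec.commutes]
      simp
    | add f g hf hg =>
      simp only [map_add, add_mul, Finset.sum_add_distrib, ← hf, ← hg]; ring
    | mul_X f j hf =>
      have h1 := hsq _ _ (hδ f) (hδ (X j))
      have h2 : ∑ i, mk (pderiv i (f * X j)) * (mk (X i) - sec (ev (X i)))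
          = mk f * (mk (X j) - sec (ev (X j))) + mk (X j) * (mk f - sec (ev f)) := by
        rw [hf]
        simp only [Derivation.leibniz, smul_eq_mul, map_add, map_mul, add_mul,
          Finset.sum_add_distrib, Finset.mul_sum, mul_assoc]
        congr 1
        rw [Finset.sum_eq_single j]
        · simp
        · intro b _ hb
          simp [hb.symm]
        · simp
      rw [h2, map_mul, map_mul, map_mul]
      linear_combination -h1
  have h0 : mk g = 0 := by
    have := key g
    rw [hg, map_zero, sub_zero] at this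
    rw [this]
    exact Finset.sum_eq_zero fun i _ => hsq _ _ ((hπmk _).trans (hd i)) (hδ _)
  have h1 : algebraMap _ (Localization M) g ∈ J ^ 2 := Ideal.Quotient.eq_zero_iff_mem.1 h0
  have h2 : J ≤ (RingHom.ker ev).map (algebraMap _ (Localization M)) := fun x hx => by
    obtain ⟨⟨a, s⟩, rfl⟩ := IsLocalization.mk'_surjective M x
    refine (IsLocalization.mk'_mem_map_algebraMap_iff M _ _ a s).2 ⟨1, M.one_mem, ?_⟩
    have h3 := (IsLocalization.lift_mk'_spec hu a 0 s).1 hx
    rw [one_mul]
    exact h3.trans (mul_zero _)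
  have h3 := Ideal.pow_right_mono h2 2 h1
  rw [← Ideal.map_pow, IsLocalization.algebraMap_mem_map_algebraMap_iff M] at h3
  obtain ⟨s, hs, h4⟩ := h3
  exact ⟨s, nonZeroDivisors.ne_zero hs, h4⟩

end poly

/-- Factorisation of a linear map through another one with smaller kernel. -/
theorem Def1.exists_factor {F U W L : Type*} [Field F] [AddCommGroup U] [Module F U]
    [AddCommGroup W] [Module F W] [AddCommGroup L] [Module F L] (A : U →ₗ[F] W) (B : U →ₗ[F] L)
    (h : LinearMap.ker A ≤ LinearMap.ker B) : ∃ C : W →ₗ[F] L, ∀ x, C (A x) = B x := by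
  obtain ⟨C, hC⟩ := LinearMap.exists_extend
    (((LinearMap.ker A).liftQ B h).comp A.quotKerEquivRange.symm.toLinearMap)
  refine ⟨C, fun x => ?_⟩
  have := DFunLike.congr_fun hC ⟨A x, x, rfl⟩
  simpa [LinearMap.quotKerEquivRange_symm_apply_image] using this

end Pool.Agent.Lib.MP_7fcda1_ag
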