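import Pool.Agent.Lib.MP_7fcda1_ag.Car1
import Pool.Agent.Lib.MP_7fcda1_ag.Def1a

open scoped IntermediateField Polynomial WithZero
open Module

noncomputable section

universe u

namespace Pool.Agent.Lib.MP_7fcda1_ag

section abs
variable {R F L : Type*} [CommRing R] [Field F] [Field L]

/-- `η` is the value at `b` of the extension of the derivation `d`, modulo `Nn`. -/
def Def1.Rel (e : R →+* F) (ψ : F →+* L) (V : ValuationSubring L) (Nn : AddSubgroup L)
    (d : R → L) (b : F) (η : L) : Prop :=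
  ψ b ∈ V ∧ ∃ A B : R, V.valuation (ψ (e B)) = 1 ∧ b * e B = e A ∧
    η * ψ (e B) - (d A - ψ b * d B) ∈ Nn

theorem Def1.extend {k : Type*} [Field k] [Algebra k F] (p : ℕ) [Fact p.Prime] [CharP F p]
    (e : R →+* F) (ψ : F →+* L) (V : ValuationSubring L) (Nn : AddSubgroup L)
    (hN : ∀ a ∈ V, ∀ x ∈ Nn, a * x ∈ Nn) (d : R →+ L)
    (hd : ∀ f g, d (f * g) = ψ (e f) * d g + ψ (e g) * d f) (hker : ∀ f, e f = 0 → d f ∈ Nn)
    (hint : ∀ f, ψ (e f) ∈ V)
    (hloc : ∀ b, ψ b ∈ V → ∃ A B, V.valuation (ψ (e B)) = 1 ∧ b * e B = e A)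
    {r : ℕ} {Ψ : Frame k F r} (hΨ : Ψ.Spans ⊤) (hI : Ψ.Int (V.comap ψ))
    (hc : ∀ a : F, (∀ D : Derivation k F F, D a = 0) → ∃ b, a = b ^ p) :
    ∃ η : Fin r → L, ∀ f, d f - ∑ l, ψ (Ψ.D l (e f)) * η l ∈ Nn := by
  classical
  have d1 : d 1 = 0 := by
    have := hd 1 1
    simp only [mul_one, map_one, one_mul] at this
    linear_combination -this
  have hcan : ∀ a x, V.valuation a = 1 → a * x ∈ Nn → x ∈ Nn := fun a x ha hx => by
    have ha0 : a ≠ 0 := by rintro rfl; simp at ha
    have := hN a⁻¹ (V.mem_of_valuation_le_one _ (by simp [ha])) _ hx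
    rwa [inv_mul_cancel_left₀ ha0] at this
  have uniq : ∀ b η η', Def1.Rel e ψ V Nn d b η → Def1.Rel e ψ V Nn d b η' → η - η' ∈ Nn := by
    rintro b η η' ⟨-, A, B, hB, hA, h⟩ ⟨-, A', B', hB', hA', h'⟩
    refine hcan (ψ (e B) * ψ (e B')) _ (by rw [map_mul, hB, hB', mul_one]) ?_
    have h1 := hker (A * B' - A' * B) (by
      rw [map_sub, map_mul, map_mul, ← hA, ← hA']; ring)
    rw [map_sub, hd, hd, ← hA, ← hA', map_mul, map_mul] at h1
    have h2 := Nn.add_mem (Nn.sub_mem (hN _ (hint B') _ h) (hN _ (hint B) _ h')) h1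
    convert h2 using 1
    ring
  have ex : ∀ b, ψ b ∈ V → ∃ η, Def1.Rel e ψ V Nn d b η := fun b hb => by
    obtain ⟨A, B, hB, hA⟩ := hloc b hb
    have h0 : ψ (e B) ≠ 0 := by intro h; rw [h] at hB; simp at hB
    exact ⟨(d A - ψ b * d B) / ψ (e B), hb, A, B, hB, hA, by
      rw [div_mul_cancel₀ _ h0, sub_self]; exact Nn.zero_mem⟩
  have base : ∀ f, Def1.Rel e ψ V Nn d (e f) (d f) := fun f =>
    ⟨hint f, f, 1, by simp, by simp, by simp [d1]⟩
  have add : ∀ b b' η η', Def1.Rel e ψ V Nn d b η → Def1.Rel e ψ V Nn d b' η' →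
      Def1.Rel e ψ V Nn d (b + b') (η + η') := by
    rintro b b' η η' ⟨hb, A, B, hB, hA, h⟩ ⟨hb', A', B', hB', hA', h'⟩
    refine ⟨by rw [map_add]; exact V.add_mem _ _ hb hb', A * B' + A' * B, B * B',
      by rw [map_mul, map_mul, map_mul, hB, hB', mul_one],
      by rw [map_add, map_mul, map_mul, map_mul, ← hA, ← hA']; ring, ?_⟩
    have h2 := Nn.add_mem (hN _ (hint B') _ h) (hN _ (hint B) _ h')
    convert h2 using 1
    simp only [map_add, hd, ← hA, ← hA', map_mul]
    ring
  have mul : ∀ b b' η η', Def1.Rel e ψ V Nn d b η → Def1.Rel e ψ V Nn d b' η' →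
      Def1.Rel e ψ V Nn d (b * b') (ψ b * η' + ψ b' * η) := by
    rintro b b' η η' ⟨hb, A, B, hB, hA, h⟩ ⟨hb', A', B', hB', hA', h'⟩
    refine ⟨by rw [map_mul]; exact V.mul_mem _ _ hb hb', A * A', B * B',
      by rw [map_mul, map_mul, map_mul, hB, hB', mul_one],
      by rw [map_mul, map_mul, ← hA, ← hA']; ring, ?_⟩
    have h2 := Nn.add_mem (hN _ (hint A') _ h) (hN _ (hint A) _ h')
    convert h2 using 1
    simp only [hd, ← hA, ← hA', map_mul]
    ring
  have one : Def1.Rel e ψ V Nn d 1 0 := by simpa only [map_one, d1] using base 1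
  have pow : ∀ b η (n : ℕ), Def1.Rel e ψ V Nn d b η →
      Def1.Rel e ψ V Nn d (b ^ (n + 1)) ((n + 1 : ℕ) * ψ b ^ n * η) := by
    intro b η n h
    induction n with
    | zero => simpa using h
    | succ n ih =>
      have := mul _ _ _ _ ih h
      rw [← pow_succ] at this
      convert this using 1
      rw [map_pow]; push_cast; ring
  choose η hη using fun l => ex (Ψ.y l) (hI.1 l)
  let S : Subsemiring F :=
    { carrier := {b | Def1.Rel e ψ V Nn d b (∑ l, ψ (Ψ.D l b) * η l)}
      mul_mem' := fun {a b} ha hb => by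
        have := mul _ _ _ _ ha hb
        show Def1.Rel e ψ V Nn d _ _
        convert this using 1
        simp only [Derivation.leibniz, smul_eq_mul, map_add, map_mul, add_mul,
          Finset.sum_add_distrib, Finset.mul_sum, mul_assoc]
      one_mem' := by simpa using one
      add_mem' := fun {a b} ha hb => by
        have := add _ _ _ _ ha hb
        show Def1.Rel e ψ V Nn d _ _
        convert this using 1
        simp only [map_add, add_mul, Finset.sum_add_distrib]
      zero_mem' := by simpa using base 0 }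
  have hy : ∀ l, Ψ.y l ∈ S := fun l => by
    show Def1.Rel e ψ V Nn d _ _
    convert hη l using 1
    simp [Ψ.dual, apply_ite ψ]
  have hp : ∀ c, ψ c ∈ V → c ^ p ∈ S := fun c hc => by
    obtain ⟨η', h'⟩ := ex c hc
    obtain ⟨n, hn⟩ : ∃ n, p = n + 1 := ⟨p - 1, by have := (Fact.out : p.Prime).pos; omega⟩
    have h1 := pow _ _ n h'
    rw [← hn, ← map_natCast ψ, CharP.cast_eq_zero, map_zero, zero_mul, zero_mul] at h1
    show Def1.Rel e ψ V Nn d _ _
    convert h1 using 1
    simp only [der_pow, map_zero, zero_mul, Finset.sum_const_zero]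
  refine ⟨η, fun f => uniq _ _ _ (base f) ?_⟩
  obtain ⟨c, hcV, hf⟩ := expand_pow hΨ hI hc (a := e f) (hint f)
  have : e f ∈ S := by
    rw [hf]
    exact S.sum_mem fun α _ => S.mul_mem (hp _ (hcV α))
      (S.prod_mem fun i _ => S.pow_mem (hy i) _)
  exact this

end abs

variable {k F L : Type u} [Field k] [Field F] [Field L] [Algebra k F] {N : ℕ}
  {y : Fin (N + 1) → F} {Λ : Type} [Fintype Λ] {δ : ℕ} {G : Λ → MvPolynomial (Fin (N + 1)) k}

theorem exists_eqs (y : Fin (N + 1) → F) : ∃ (δ : ℕ) (Λ : Type) (_ : Fintype Λ)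
    (G : Λ → MvPolynomial (Fin (N + 1)) k), Eqs y δ G := by
  classical
  set S : Set (MvPolynomial (Fin (N + 1)) k) :=
    {H | (∃ d, H.IsHomogeneous d) ∧ MvPolynomial.aeval y H = 0} with hS
  obtain ⟨T, hTS, hT⟩ := (Submodule.fg_span_iff_fg_span_finset_subset
    (R := MvPolynomial (Fin (N + 1)) k) S).1 (IsNoetherian.noetherian _)
  set H : Fin T.card → MvPolynomial (Fin (N + 1)) k := fun l => (T.equivFin.symm l).1 with hH
  have hHS : ∀ l, H l ∈ S := fun l => hTS (T.equivFin.symm l).2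
  choose d hd using fun l => (hHS l).1
  have hle : ∀ l, d l ≤ Finset.univ.sup d + 1 := fun l =>
    (Finset.le_sup (Finset.mem_univ l)).trans (Nat.le_succ _)
  refine ⟨Finset.univ.sup d + 1, Fin T.card × Fin (N + 1), inferInstance,
    fun l => MvPolynomial.X l.2 ^ (Finset.univ.sup d + 1 - d l.1) * H l.1, by omega,
    fun l => ?_, fun l => ?_, fun d' H' j h1 h2 => ?_⟩
  · have := (MvPolynomial.isHomogeneous_X_pow (R := k) l.2
      (Finset.univ.sup d + 1 - d l.1)).mul (hd l.1)
    rwa [Nat.sub_add_cancel (hle l.1)] at this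
  · rw [map_mul, (hHS l.1).2, mul_zero]
  · have h3 : H' ∈ Submodule.span (MvPolynomial (Fin (N + 1)) k) (T : Set _) :=
      hT ▸ Submodule.subset_span ⟨⟨d', h1⟩, h2⟩
    refine Submodule.span_induction (p := fun x _ => MvPolynomial.X j ^ (Finset.univ.sup d + 1) * x
      ∈ Ideal.span _) ?_ ?_ ?_ ?_ h3
    · intro x hx
      obtain ⟨l, rfl⟩ : ∃ l, x = H l := ⟨T.equivFin ⟨x, hx⟩, by simp [hH]⟩
      have h4 : MvPolynomial.X j ^ (Finset.univ.sup d + 1) * H l = MvPolynomial.X j ^ d l *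
          (MvPolynomial.X j ^ (Finset.univ.sup d + 1 - d l) * H l) := by
        rw [← mul_assoc, ← pow_add, Nat.add_sub_cancel' (hle l)]
      rw [h4]
      exact Ideal.mul_mem_left _ _ (Ideal.subset_span ⟨(l, j), rfl⟩)
    · simp
    · intro a b _ _ ha hb
      rw [mul_add]; exact Ideal.add_mem _ ha hb
    · intro a b _ hb
      rw [smul_eq_mul, mul_left_comm]; exact Ideal.mul_mem_left _ _ hb

theorem Def1.pow_sub_one {R : Type*} [CommRing R] (a : R) (m : ℕ) :
    a ^ m - 1 ∈ Ideal.span {a - 1} :=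
  Ideal.mem_span_singleton.2 (by simpa using sub_dvd_pow_sub_pow a 1 m)

theorem exists_homog (j : Fin (N + 1)) (f : MvPolynomial (Fin (N + 1)) k) {D : ℕ}
    (h : f.totalDegree ≤ D) : ∃ g : MvPolynomial (Fin (N + 1)) k, g.IsHomogeneous D ∧
      g - f ∈ Ideal.span {MvPolynomial.X j - 1} := by
  refine ⟨∑ i ∈ Finset.range (f.totalDegree + 1),
    MvPolynomial.X j ^ (D - i) * MvPolynomial.homogeneousComponent i f, ?_, ?_⟩
  · refine MvPolynomial.IsHomogeneous.sum _ _ _ fun i hi => ?_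
    have := (MvPolynomial.isHomogeneous_X_pow (R := k) j (D - i)).mul
      (MvPolynomial.homogeneousComponent_isHomogeneous i f)
    rwa [Nat.sub_add_cancel (by have := Finset.mem_range.1 hi; omega)] at this
  · conv => enter [2, 2]; rw [← MvPolynomial.sum_homogeneousComponent f]
    rw [← Finset.sum_sub_distrib]
    refine Ideal.sum_mem _ fun i _ => ?_
    rw [← sub_one_mul]
    exact Ideal.mul_mem_right _ _ (Def1.pow_sub_one _ _)

omit [Fintype Λ] in
theorem Eqs.chart (h : Eqs y δ G) {j : Fin (N + 1)} (hj : y j ≠ 0)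
    {f : MvPolynomial (Fin (N + 1)) k} (hf : MvPolynomial.aeval (fun i => y i / y j) f = 0) :
    f ∈ Ideal.span (Set.range G) ⊔ Ideal.span {MvPolynomial.X j - 1} := by
  obtain ⟨g, hg, hgf⟩ := exists_homog j f le_rfl
  obtain ⟨q, hq⟩ := Ideal.mem_span_singleton'.1 hgf
  have h1 : MvPolynomial.aeval (fun i => y i / y j) g = 0 := by
    have := congrArg (MvPolynomial.aeval fun i => y i / y j) hq
    simp only [map_mul, map_sub, MvPolynomial.aeval_X, map_one, div_self hj, sub_self, mul_zero,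
      hf, sub_zero] at this
    exact this.symm
  have h2 : MvPolynomial.aeval y g = 0 := by
    have h3 := Def1.aeval_hom hg (y j) fun i => y i / y j
    simp only [mul_div_cancel₀ _ hj] at h3
    rw [h3, h1, mul_zero]
  have h4 : f = MvPolynomial.X j ^ δ * g - ((MvPolynomial.X j ^ δ - 1) * g + (g - f)) := by ring
  rw [h4]
  exact Ideal.sub_mem _ (Ideal.mem_sup_left (h.gen _ g j hg h2)) (Ideal.mem_sup_right
    (Ideal.add_mem _ (Ideal.mul_mem_right _ _ (Def1.pow_sub_one _ _)) hgf))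

omit [Fintype Λ] in
/-- exactness of the conormal sequence at the generic point -/
theorem conormal [PerfectField k] (h : Eqs y δ G) (h₀ : y 0 = 1) (hl : Loc k y 0 ⊤) (ψ : F →+* L)
    (γ : MvPolynomial (Fin (N + 1)) k →+ L)
    (hγ : ∀ a, ∀ g ∈ Ideal.span (Set.range G), γ (a * g) = ψ (MvPolynomial.aeval y a) * γ g) :
    ∃ ζ : Fin (N + 1) → L, ∀ l, γ (G l) = (jacM ψ y G).mulVec ζ l := by
  classical
  have hy : (fun i => y i / y 0) = y := by funext i; rw [h₀, div_one]
  have hs : ∀ c : F, ∃ a b : MvPolynomial (Fin (N + 1)) k, MvPolynomial.aeval y b ≠ 0 ∧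
      c * MvPolynomial.aeval y b = MvPolynomial.aeval y a := fun c => by
    obtain ⟨a, b, h1, h2⟩ := hl.2.2 c (ValuationSubring.mem_top c)
    rw [hy] at h1 h2
    exact ⟨a, b, fun h3 => by rw [h3] at h1; simp at h1, h2⟩
  set I := Ideal.span (Set.range G) with hI
  set P := RingHom.ker (MvPolynomial.aeval y : MvPolynomial (Fin (N + 1)) k →ₐ[k] F) with hP
  have hIP : I ≤ P := Ideal.span_le.2 (by rintro _ ⟨l, rfl⟩; exact h.zero l)
  have hPI : P ≤ I ⊔ Ideal.span {MvPolynomial.X 0 - 1} := fun f hf =>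
    h.chart (by rw [h₀]; exact one_ne_zero) (by rw [hy]; exact hf)
  have hX : MvPolynomial.X 0 - 1 ∈ P := by
    rw [hP, RingHom.mem_ker]; simp [h₀]
  have hγ0 : ∀ x ∈ P * I, γ x = 0 := fun x hx =>
    Submodule.mul_induction_on hx
      (fun a ha g hg => by rw [hγ a g hg, RingHom.mem_ker.1 ha, map_zero, zero_mul])
      fun a b ha hb => by rw [map_add, ha, hb, add_zero]
  have hsq : P ^ 2 ≤ P * I ⊔ Ideal.span {(MvPolynomial.X 0 - 1) * (MvPolynomial.X 0 - 1)} := by
    rw [pow_two]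
    refine (Ideal.mul_mono_right hPI).trans ?_
    rw [Ideal.mul_sup]
    refine sup_le le_sup_left ((Ideal.mul_mono_left hPI).trans ?_)
    rw [Ideal.sup_mul, Ideal.span_singleton_mul_span_singleton]
    refine sup_le (le_sup_of_le_left ?_) le_sup_right
    rw [mul_comm]
    exact Ideal.mul_mono_left ((Ideal.span_singleton_le_iff_mem _).2 hX)
  have key : ∀ g ∈ I, (∀ j, MvPolynomial.aeval y (MvPolynomial.pderiv j g) = 0) → γ g = 0 := by
    intro g hg hd
    obtain ⟨s, hs0, hsg⟩ := Def1.conormal_inj y hs (hIP hg) hd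
    obtain ⟨a, ha, b, hb, hab⟩ := Submodule.mem_sup.1 (hsq hsg)
    obtain ⟨q, rfl⟩ := Ideal.mem_span_singleton'.1 hb
    have h1 : (MvPolynomial.X 0 - 1) * ((MvPolynomial.X 0 - 1) * q) ∈ I := by
      have : (MvPolynomial.X 0 - 1) * ((MvPolynomial.X 0 - 1) * q) = s * g - a := by
        rw [← hab]; ring
      rw [this]
      exact Ideal.sub_mem _ (Ideal.mul_mem_left _ _ hg) (Ideal.mul_le_right (I := P) (J := I) ha)
    have h2 := Def1.cancel h.hom 0 h1
    have h3 : s * g ∈ P * I := by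
      have : s * g = a + (MvPolynomial.X 0 - 1) * ((MvPolynomial.X 0 - 1) * q) := by
        rw [← hab]; ring
      rw [this]
      exact Ideal.add_mem _ ha (Ideal.mul_mem_mul hX h2)
    have h4 := hγ0 _ h3
    rw [hγ s g hg] at h4
    exact (mul_eq_zero.1 h4).resolve_left ((map_ne_zero ψ).2 hs0)
  let _ : Algebra F L := ψ.toAlgebra
  have hsm : ∀ (c : F) (x : L), c • x = ψ c * x := fun c x => rfl
  obtain ⟨C, hC⟩ := Def1.exists_factor
    (Finsupp.linearCombination F fun l j => MvPolynomial.aeval y (MvPolynomial.pderiv j (G l)))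
    (Finsupp.linearCombination F fun l => γ (G l)) (by
      intro c hc
      rw [LinearMap.mem_ker, Finsupp.linearCombination_apply, Finsupp.sum] at hc ⊢
      obtain ⟨b, hb, hba⟩ : ∃ b : MvPolynomial (Fin (N + 1)) k, MvPolynomial.aeval y b ≠ 0 ∧
          ∀ l ∈ c.support, ∃ a : MvPolynomial (Fin (N + 1)) k,
            c l * MvPolynomial.aeval y b = MvPolynomial.aeval y a := by
        choose a b hb hab using fun l => hs (c l)
        refine ⟨∏ l ∈ c.support, b l, by
          rw [map_prod]; exact Finset.prod_ne_zero_iff.2 fun l _ => hb l, fun l hl => ?_⟩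
        refine ⟨a l * ∏ l' ∈ c.support.erase l, b l', ?_⟩
        rw [← Finset.mul_prod_erase _ _ hl, map_mul, map_mul, ← mul_assoc, hab]
      choose! a ha using hba
      have h1 := key (∑ l ∈ c.support, a l * G l)
        (Ideal.sum_mem _ fun l _ => Ideal.mul_mem_left _ _ (Ideal.subset_span ⟨l, rfl⟩)) (by
          intro j
          have h2 := congrFun hc j
          simp only [Finset.sum_apply, Pi.smul_apply, smul_eq_mul, Pi.zero_apply] at h2
          simp only [map_sum, Derivation.leibniz, smul_eq_mul, map_add, map_mul, h.zero, zero_mul,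
            add_zero]
          rw [← mul_zero (MvPolynomial.aeval y b), ← h2, Finset.mul_sum]
          refine Finset.sum_congr rfl fun l hl => ?_
          rw [← ha l hl]; ring)
      rw [map_sum] at h1
      refine (mul_eq_zero.1 (?_ : ψ (MvPolynomial.aeval y b) * _ = 0)).resolve_left
        ((map_ne_zero ψ).2 hb)
      rw [← h1, Finset.mul_sum]
      refine Finset.sum_congr rfl fun l hl => ?_
      rw [hγ _ _ (Ideal.subset_span ⟨l, rfl⟩), ← ha l hl, hsm, map_mul]; ring)
  refine ⟨fun j => C (Pi.single j 1), fun l => ?_⟩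
  have h1 := hC (Finsupp.single l 1)
  simp only [Finsupp.linearCombination_single, one_smul] at h1
  rw [← h1, LinearMap.pi_apply_eq_sum_univ]
  simp only [Matrix.mulVec, dotProduct, jacM, Matrix.of_apply, hsm]
  refine Finset.sum_congr rfl fun j _ => ?_
  congr 2
  funext i
  simp [Pi.single_apply, eq_comm]

omit [Fintype Λ] in
theorem tcone_le_ker (h : Eqs y δ G) (ψ : F →+* L) {r : ℕ} (D : Fin r → Derivation k F F) :
    tcone ψ D y ≤ LinearMap.ker (jacM ψ y G).mulVecLin := by
  refine sup_le ((Submodule.span_singleton_le_iff_mem _ _).2 ?_) ?_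
  · funext l
    have := congrArg ψ (Def1.euler (h.hom l) (h.zero l))
    simpa [Matrix.mulVec, dotProduct, jacM] using this
  · rintro _ ⟨a, rfl⟩
    funext l
    have h1 : ∀ s, ∑ i, ψ (MvPolynomial.aeval y (MvPolynomial.pderiv i (G l))) * ψ (D s (y i))
        = 0 := fun s => by
      have := congrArg ψ (Def1.der_aeval (D s) y (G l))
      rw [h.zero, map_zero, map_zero] at this
      simpa using this.symm
    simp only [Matrix.mulVecLin_apply, Matrix.mulVec, dotProduct, jacM, Matrix.of_apply,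
      LinearMap.pi_apply, dψ, Fintype.linearCombination_apply, smul_eq_mul, Finset.mul_sum,
      Pi.zero_apply]
    rw [Finset.sum_comm]
    refine Finset.sum_eq_zero fun s _ => ?_
    rw [← mul_zero (a s), ← h1 s, Finset.mul_sum]
    exact Finset.sum_congr rfl fun i _ => by ring

omit [Fintype Λ] in
/-- the Jacobian map is onto its saturation -/
theorem locsurj (p : ℕ) [Fact p.Prime] [CharP F p] (h : Eqs y δ G) {r : ℕ} {Φ Ψ : Frame k F r}
    (hΦ : Φ.Spans ⊤) (hΨ : Ψ.Spans ⊤)
    (hc : ∀ a : F, (∀ D : Derivation k F F, D a = 0) → ∃ b, a = b ^ p) {V : ValuationSubring L}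
    (hV : Disc V ∨ V = ⊤) {ψ : F →+* L} (hk : ∀ c, ψ (algebraMap k F c) ∈ V)
    (hI : Ψ.Int (V.comap ψ)) {j : Fin (N + 1)} (hl : Loc k y j (V.comap ψ)) {M : ℤ}
    {ζ : Fin (N + 1) → L} (hζ : VGe V M ((jacM ψ y G).mulVec ζ)) :
    QGe V (M - (δ - 1) * ord V (ψ (y j))) (tcone ψ Φ.D y) ζ := by
  classical
  have hj : y j ≠ 0 := hl.1
  have hψj : ψ (y j) ≠ 0 := (map_ne_zero ψ).2 hj
  set u : Fin (N + 1) → F := fun i => y i / y j with hu
  have hyu : ∀ i, y i = y j * u i := fun i => (mul_div_cancel₀ _ hj).symm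
  set M' : ℤ := M - (δ - 1) * ord V (ψ (y j)) with hM'
  let Nn : AddSubgroup L :=
    { carrier := {a | Ge V M' a}
      add_mem' := fun ha hb => Ge.add ha hb
      zero_mem' := ge_zero
      neg_mem' := fun ha => Ge.neg ha }
  have hN : ∀ a ∈ V, ∀ x ∈ Nn, a * x ∈ Nn := fun a ha x hx => by
    have := Ge.mul ((mem_iff_ge hV).1 ha) hx
    rwa [zero_add] at this
  have hint : ∀ f : MvPolynomial (Fin (N + 1)) k, ψ (MvPolynomial.aeval u f) ∈ V := fun f =>
    aeval_mem (V := V.comap ψ) hk hl.2.1 f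
  set ζ' : Fin (N + 1) → L := fun i => ζ i - ζ j * ψ (u i) with hζ'
  let d : MvPolynomial (Fin (N + 1)) k →+ L :=
    { toFun := fun f => ∑ i, ψ (MvPolynomial.aeval u (MvPolynomial.pderiv i f)) * ζ' i
      map_zero' := by simp
      map_add' := fun f g => by simp only [map_add, add_mul, Finset.sum_add_distrib] }
  have hda : ∀ f, d f = ∑ i, ψ (MvPolynomial.aeval u (MvPolynomial.pderiv i f)) * ζ' i :=
    fun f => rfl
  have hd : ∀ f g, d (f * g) = ψ (MvPolynomial.aeval u f) * d g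
      + ψ (MvPolynomial.aeval u g) * d f := fun f g => by
    simp only [hda, Derivation.leibniz, smul_eq_mul, map_add, map_mul, add_mul,
      Finset.sum_add_distrib, Finset.mul_sum, mul_assoc]
  have hdX : ∀ i, d (MvPolynomial.X i) = ζ' i := fun i => by
    rw [hda, Finset.sum_eq_single i]
    · simp
    · intro b _ hb
      simp [hb.symm]
    · simp
  have hGu : ∀ l, MvPolynomial.aeval u (G l) = 0 := fun l => by
    have := Def1.aeval_hom (h.hom l) (y j) u
    simp only [← hyu] at this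
    rw [h.zero] at this
    exact (mul_eq_zero.1 this.symm).resolve_left (pow_ne_zero _ hj)
  have hdG : ∀ l, d (G l) ∈ Nn := fun l => by
    have h1 := congrArg ψ (Def1.euler (h.hom l) (hGu l))
    simp only [map_sum, map_mul, map_zero] at h1
    have h2 : (jacM ψ y G).mulVec ζ l = ψ (y j) ^ (δ - 1) * d (G l) := by
      have h3 : ∀ i, MvPolynomial.aeval y (MvPolynomial.pderiv i (G l))
          = y j ^ (δ - 1) * MvPolynomial.aeval u (MvPolynomial.pderiv i (G l)) := fun i => by
        have := Def1.aeval_hom ((h.hom l).pderiv (i := i)) (y j) u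
        simpa only [← hyu] using this
      have h4 : d (G l) = ∑ i, ψ (MvPolynomial.aeval u (MvPolynomial.pderiv i (G l))) * ζ i := by
        rw [hda, ← sub_zero (∑ i, _ * ζ i), ← mul_zero (ζ j), ← h1, Finset.mul_sum,
          ← Finset.sum_sub_distrib]
        exact Finset.sum_congr rfl fun i _ => by simp only [hζ']; ring
      simp only [h4, Matrix.mulVec, dotProduct, jacM, Matrix.of_apply, h3, map_mul, map_pow,
        Finset.mul_sum, mul_assoc]
    have h5 := hζ l
    rw [h2, ge_mul_iff (pow_ne_zero _ hψj), ord_pow, Nat.cast_sub h.pos, Nat.cast_one] at h5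
    exact h5
  have hker : ∀ f, MvPolynomial.aeval u f = 0 → d f ∈ Nn := fun f hf => by
    have h1 : f ∈ Ideal.span (Set.range G ∪ {MvPolynomial.X j - 1}) := by
      rw [Ideal.span_union]; exact h.chart hj hf
    refine (Submodule.span_induction
      (p := fun x _ => MvPolynomial.aeval u x = 0 ∧ d x ∈ Nn) ?_ ?_ ?_ ?_ h1).2
    · rintro x (⟨l, rfl⟩ | rfl)
      · exact ⟨hGu l, hdG l⟩
      · have d1 : d 1 = 0 := by simp [hda]
        refine ⟨by simp [hu, hj], ?_⟩
        rw [map_sub, hdX, d1, sub_zero]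
        simp only [hζ', hu, div_self hj, map_one, mul_one, sub_self]
        exact Nn.zero_mem
    · exact ⟨map_zero _, by rw [map_zero]; exact Nn.zero_mem⟩
    · rintro a b - - ⟨ha, ha'⟩ ⟨hb, hb'⟩
      exact ⟨by rw [map_add, ha, hb, add_zero], by rw [map_add]; exact Nn.add_mem ha' hb'⟩
    · rintro a b - ⟨hb, hb'⟩
      refine ⟨by rw [smul_eq_mul, map_mul, hb, mul_zero], ?_⟩
      rw [smul_eq_mul, hd, hb, map_zero, zero_mul, add_zero]
      exact hN _ (hint a) _ hb'
  obtain ⟨η, hη⟩ := Def1.extend p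
    (MvPolynomial.aeval u : MvPolynomial (Fin (N + 1)) k →ₐ[k] F).toRingHom ψ V Nn hN d hd hker
    hint (fun b hb => by
      obtain ⟨A, B, h1, h2⟩ := hl.2.2 b hb
      exact ⟨A, B, (val_comap_eq_one ψ _).1 h1, h2⟩) hΨ hI hc
  set a : Fin r → L := fun s => ∑ l, ψ (Ψ.D l (Φ.y s)) * η l with ha
  have hT : ∀ b, dψ ψ Φ.D b a = ∑ l, ψ (Ψ.D l b) * η l := fun b => by
    have h1 : ∀ l, Ψ.D l b = ∑ s, Ψ.D l (Φ.y s) * Φ.D s b := fun l => by
      conv_lhs => rw [hΦ.eq_comb (D := Ψ.D l) Submodule.mem_top, comb_apply]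
    simp only [dψ, Fintype.linearCombination_apply, ha, smul_eq_mul, h1, map_sum, map_mul,
      Finset.sum_mul]
    rw [Finset.sum_comm]
    exact Finset.sum_congr rfl fun l _ => Finset.sum_congr rfl fun s _ => by ring
  have hL : ∀ i, dψ ψ Φ.D (y i) a
      = ψ (y j) * dψ ψ Φ.D (u i) a + ψ (u i) * dψ ψ Φ.D (y j) a := fun i => by
    conv_lhs => rw [hyu i]
    simp only [hT, Derivation.leibniz, smul_eq_mul, map_add, map_mul, add_mul,
      Finset.sum_add_distrib, Finset.mul_sum, mul_assoc]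
  refine ⟨((dψ ψ Φ.D (y j) a / ψ (y j) - ζ j) / ψ (y j)) • (fun i => ψ (y i))
      + (LinearMap.pi fun i => dψ ψ Φ.D (y i)) (-(ψ (y j))⁻¹ • a),
    Submodule.add_mem_sup (Submodule.smul_mem _ _ (Submodule.mem_span_singleton_self _))
      ⟨_, rfl⟩, fun i => ?_⟩
  have h1 := hη (MvPolynomial.X i)
  rw [hdX] at h1
  simp only [AlgHom.toRingHom_eq_coe, RingHom.coe_coe, MvPolynomial.aeval_X, ← hT] at h1
  have h2 : ψ (y i) = ψ (y j) * ψ (u i) := by rw [← map_mul, ← hyu]
  have h3 : Ge V M' (ζ' i - dψ ψ Φ.D (u i) a) := h1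
  convert h3 using 1
  simp only [Pi.add_apply, Pi.smul_apply, LinearMap.pi_apply, map_smul, smul_eq_mul, hζ']
  rw [hL i, h2]
  field_simp
  ring

end Pool.Agent.Lib.MP_7fcda1_ag
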