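import Mathlib

open scoped IntermediateField Polynomial WithZero
open Module

noncomputable section

universe u

namespace Pool.Agent.Lib.MP_7fcda1_ag

/-! ### Discrete valuation subrings -/
section ord
variable {L : Type*} [Field L] {ι : Type*}

/-- `V` is the ring of a normalised discrete valuation. -/
def Disc (V : ValuationSubring L) : Prop :=
  ∃ v : Valuation L ℤᵐ⁰, Function.Surjective v ∧ ∀ a, a ∈ V ↔ v a ≤ 1

open Classical in
/-- Order of vanishing (junk value `0` if `a = 0` or `V` is not discrete). -/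
def ord (V : ValuationSubring L) (a : L) : ℤ :=
  if h : Disc V then -WithZero.log (h.choose a) else 0

/-- `a` vanishes to order at least `n`. -/
def Ge (V : ValuationSubring L) (n : ℤ) (a : L) : Prop := a = 0 ∨ n ≤ ord V a

/-- All coordinates vanish to order at least `n`. -/
def VGe (V : ValuationSubring L) (n : ℤ) (w : ι → L) : Prop := ∀ i, Ge V n (w i)

/-- Minimum of the orders of the coordinates of a nonzero vector. -/
def vord (V : ValuationSubring L) (w : ι → L) : ℤ := sSup {n | VGe V n w}

/-- The class of `w` modulo `W` has quotient order at least `n`. -/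
def QGe (V : ValuationSubring L) (n : ℤ) (W : Submodule L (ι → L)) (w : ι → L) : Prop :=
  ∃ w' ∈ W, VGe V n (w + w')

/-- Pluecker vector of a family of vectors. -/
def pl {R : Type*} [CommRing R] {r : ℕ} (w : Fin r → ι → R) : (Fin r → ι) → R :=
  fun f => (Matrix.of fun i j => w i (f j)).det

/-- Base change of a subspace along a homomorphism of fields. -/
def bc {F : Type*} [Field F] (ψ : F →+* L) (W : Submodule F (ι → F)) : Submodule L (ι → L) :=
  Submodule.span L ((fun (w : ι → F) i => ψ (w i)) '' W)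

end ord

/-! ### Function fields in one variable over an arbitrary field of constants -/
section curve
variable (κ L : Type*) [Field κ] [Field L] [Algebra κ L] {ι : Type*}

class IsFF : Prop where
  ex : ∃ f : L, Transcendental κ f ∧ FiniteDimensional κ⟮f⟯ L

@[ext]
structure Place where
  O : ValuationSubring L
  ne_top : O ≠ ⊤
  const : ∀ c : κ, algebraMap κ L c ∈ O

variable {κ L}

instance (v : Place κ L) : Algebra κ v.O := ((algebraMap κ L).codRestrict v.O v.const).toAlgebra

/-- Degree of a place. -/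
def Place.deg (v : Place κ L) : ℕ := finrank κ (IsLocalRing.ResidueField v.O)

variable (κ L) in
abbrev Div : Type _ := Place κ L →₀ ℤ

/-- Degree of a divisor. -/
def degD : Div κ L →ₗ[ℤ] ℤ := Finsupp.linearCombination ℤ fun v => (v.deg : ℤ)

open Classical in
/-- The divisor with given multiplicities (junk value `0` if the support is infinite). -/
def mkDiv (f : Place κ L → ℤ) : Div κ L :=
  if h : (Function.support f).Finite then Finsupp.ofSupportFinite f h else 0

variable (κ) in
/-- Divisor of a function. -/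
def div (a : L) : Div κ L := mkDiv fun v => ord v.O a

variable (κ) in
/-- Polar divisor of a function. -/
def poles (a : L) : Div κ L := mkDiv fun v => max 0 (-ord v.O a)

variable (κ) in
/-- Divisor of a vector. -/
def vdiv (w : ι → L) : Div κ L := mkDiv fun v => vord v.O w

/-- Riemann-Roch space. -/
def Ls (D : Div κ L) : Submodule κ L := Submodule.span κ {a | ∀ v : Place κ L, Ge v.O (-D v) a}

/-- Sections of the `D`-twist of the subbundle of the trivial bundle with generic fibre `W`. -/
def Gam (W : Submodule L (ι → L)) (D : Div κ L) : Submodule κ (ι → L) :=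
  Submodule.span κ {w | w ∈ W ∧ ∀ v : Place κ L, VGe v.O (-D v) w}

/-- The part of `W` generated by the sections of the `D`-twist. -/
def gen (W : Submodule L (ι → L)) (D : Div κ L) : Submodule L (ι → L) :=
  Submodule.span L (Gam W D : Set (ι → L))

variable (κ) in
/-- Degree of the subbundle of the trivial bundle with generic fibre `W`. -/
def sdeg [Finite ι] (W : Submodule L (ι → L)) : ℤ :=
  degD (vdiv κ (pl fun i => (Module.finBasis L W i : ι → L)))

/-- `c` is an error term in the Riemann inequalities. -/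
def RR (κ L : Type*) [Field κ] [Field L] [Algebra κ L] (c : ℕ) : Prop :=
  ∀ D : Div κ L, degD D - c ≤ finrank κ (Ls D) ∧ (0 ≤ D → finrank κ (Ls D) ≤ degD D + c)

end curve

/-! ### Transcendence rank -/

/-- Transcendence degree over `k` of the field generated by `S`. -/
def rk (k : Type*) {E : Type*} [Field k] [Field E] [Algebra k E] (S : Set E) : ℕ∞ :=
  (AlgebraicIndependent.matroid k E).eRk S

/-- The residues of the `f i` along `V` are algebraically independent. -/
def ResInd (k : Type*) {E Φ : Type*} [Field k] [Field E] [Algebra k E] (V : ValuationSubring E)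
    (f : Φ → E) : Prop :=
  ∀ g : MvPolynomial Φ k, g ≠ 0 → V.valuation (MvPolynomial.aeval f g) = 1

/-! ### The field model of a finite normal cover of projective space of dimension `n + 1` -/
section model
variable (k : Type u) {F : Type u} [Field k] [Field F] [Algebra k F] {n : ℕ}

/-- The rational function field of the base projective space. -/
abbrev K0 (x : Fin (n + 2) → F) : IntermediateField k F := IntermediateField.adjoin k (Set.range x)

structure Model (x : Fin (n + 2) → F) : Prop where
  zero : x 0 = 1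
  indep : AlgebraicIndependent k fun i : Fin (n + 1) => x i.succ
  fin : FiniteDimensional (K0 k x) F

/-- `V` is the valuation ring of a prime divisor. -/
def IsPD (x : Fin (n + 2) → F) (V : ValuationSubring F) : Prop :=
  V ≠ ⊤ ∧ (∀ c : k, algebraMap k F c ∈ V) ∧ ∃ a, (∀ b, x b / x a ∈ V) ∧
    ∃ g : Fin n → Fin (n + 2), ResInd k V fun i => x (g i) / x a

/-- `f` has a pole of order at most `m` times the hyperplane at infinity along `V`. -/
def Bd (x : Fin (n + 2) → F) (V : ValuationSubring F) (m : ℕ) (f : F) : Prop :=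
  ∃ a, f / x a ^ m ∈ V

/-- `f` is a global section of `O(m)`. -/
def Sec (x : Fin (n + 2) → F) (m : ℕ) (f : F) : Prop := ∀ V, IsPD k x V → Bd x V m f

/-- `f` is regular along all prime divisors meeting the chart `x a ≠ 0`. -/
def ChartInt (x : Fin (n + 2) → F) (a : Fin (n + 2)) (f : F) : Prop :=
  ∀ V, IsPD k x V → (∀ b, x b / x a ∈ V) → f ∈ V

/-- `V` and `V'` lie over the same prime divisor of the base. -/
def SameBase (x : Fin (n + 2) → F) (V V' : ValuationSubring F) : Prop :=
  ∀ c ∈ K0 k x, c ∈ V ↔ c ∈ V'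

/-- `φ` is `q⁻¹`-linear. -/
def PLin (q : ℕ) (φ : F →+ F) : Prop := ∀ a s, φ (a ^ q * s) = a * φ s

/-- Global F-regularity in the model. -/
def MGFR (p : ℕ) (x : Fin (n + 2) → F) : Prop :=
  ∀ (u : F) (b : ℕ), u ≠ 0 → Sec k x b u → ∃ e : ℕ, 1 ≤ e ∧ ∃ φ : F →+ F, PLin (p ^ e) φ ∧
    φ 1 = 1 ∧ ∀ V, IsPD k x V → ∀ s, Bd x V b (u * s) → φ s ∈ V

/-- Frobenius splitting in the model. -/
def Split (p : ℕ) (x : Fin (n + 2) → F) : Prop :=
  ∃ σ : F →+ F, PLin p σ ∧ σ 1 = 1 ∧ ∀ V, IsPD k x V → ∀ s ∈ V, σ s ∈ V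

/-- A finite cover with a splitting trace that generates the dual in codimension one. -/
def IsCover (x : Fin (n + 2) → F) {F' : Type u} [Field F'] [Algebra F F'] [Algebra k F']
    (T : F' →ₗ[F] F) : Prop :=
  FiniteDimensional F F' ∧ T 1 = 1 ∧ ∀ V, IsPD k (fun a => algebraMap F F' (x a)) V →
    ∀ a, a ∈ V ↔ ∀ b ∈ V, algebraMap F F' (T (a * b)) ∈ V

/-- There is no proper cover. -/
def Maximal (x : Fin (n + 2) → F) : Prop :=
  ∀ (F' : Type u) [Field F'] [Algebra F F'] [Algebra k F'] [IsScalarTower k F F']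
    (T : F' →ₗ[F] F), IsCover k x T → finrank F F' = 1

/-- `V` is a localisation of one of the chart rings of the projective embedding `y`. -/
def Loc {ι : Type} (y : ι → F) (j : ι) (V : ValuationSubring F) : Prop :=
  y j ≠ 0 ∧ (∀ i, y i / y j ∈ V) ∧ ∀ c ∈ V, ∃ a b : MvPolynomial ι k,
    V.valuation (MvPolynomial.aeval (fun i => y i / y j) b) = 1 ∧
      c * MvPolynomial.aeval (fun i => y i / y j) b = MvPolynomial.aeval (fun i => y i / y j) a

/-- A projective embedding in codimension one by sections of `O(d)`. -/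
structure Emb (x : Fin (n + 2) → F) {N : ℕ} (d : ℕ) (y : Fin (N + 1) → F) : Prop where
  pos : 1 ≤ d
  zero : y 0 = 1
  sec : ∀ j, Sec k x d (y j)
  pow : ∀ a, ∃ j, y j = x a ^ d
  top : Loc k y 0 ⊤
  loc : ∀ V, IsPD k x V → ∃ j, Loc k y j V

/-- A curve `L / κ` mapping to the model, meeting only the generic point and generic points of
prime divisors, with `H` the pull-back of the hyperplane at infinity. -/
structure OnCurve (x : Fin (n + 2) → F) {κ L : Type u} [Field κ] [Field L] [Algebra κ L]
    (j : F →+* L) (H : Div κ L) : Prop where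
  const : ∀ c : k, j (algebraMap k F c) ∈ (algebraMap κ L).range
  cls : ∀ v : Place κ L, v.O.comap j = ⊤ ∨ IsPD k x (v.O.comap j)
  hge : ∀ (v : Place κ L) a, Ge v.O (-H v) (j (x a))
  hex : ∀ v : Place κ L, ∃ a, ord v.O (j (x a)) = -H v
  pos : 0 < degD H

end model

/-! ### Derivations -/
section der
variable (k F : Type*) [Field k] [Field F] [Algebra k F]

structure Frame (r : ℕ) where
  y : Fin r → F
  D : Fin r → Derivation k F F
  dual : ∀ i j, D i (y j) = if i = j then 1 else 0

variable {k F} {r : ℕ}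

/-- The operator `∏ D i ^ (p - 1)`. -/
def theta (p : ℕ) (D : Fin r → Derivation k F F) : Module.End k F :=
  (List.ofFn fun i => (D i : F →ₗ[k] F) ^ (p - 1)).prod

/-- `D'` is the `p`-th power of `D`. -/
def IsPow (p : ℕ) (D D' : Derivation k F F) : Prop := ∀ a, D' a = D^[p] a

/-- Closed under the bracket. -/
def IsInv (E : Submodule F (Derivation k F F)) : Prop := ∀ D ∈ E, ∀ D' ∈ E, ⁅D, D'⁆ ∈ E

/-- A `p`-closed foliation. -/
def IsFol (p : ℕ) (E : Submodule F (Derivation k F F)) : Prop :=
  IsInv E ∧ ∀ D ∈ E, ∀ D', IsPow p D D' → D' ∈ E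

/-- The frame spans `E`. -/
def Frame.Spans (Φ : Frame k F r) (E : Submodule F (Derivation k F F)) : Prop :=
  Submodule.span F (Set.range Φ.D) = E

/-- The frame is integral along `V`. -/
def Frame.Int (Φ : Frame k F r) (V : ValuationSubring F) : Prop :=
  (∀ j, Φ.y j ∈ V) ∧ ∀ j, ∀ a ∈ V, Φ.D j a ∈ V

/-- Jacobian determinant. -/
def jac (D : Fin r → Derivation k F F) (a : Fin r → F) : F := (Matrix.of fun i j => D i (a j)).det

/-- `J` generates the `V`-module spanned by the Jacobian determinants of elements of `V`. -/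
def IsJac (V : ValuationSubring F) (D : Fin r → Derivation k F F) (J : F) : Prop :=
  J ≠ 0 ∧ (∃ a, (∀ j, a j ∈ V) ∧ jac D a = J) ∧ ∀ a, (∀ j, a j ∈ V) → jac D a / J ∈ V

/-- The derivation with coordinates `a`. -/
def comb (D : Fin r → Derivation k F F) : (Fin r → F) →ₗ[F] Derivation k F F :=
  Fintype.linearCombination F D

variable {L : Type*} [Field L]

/-- The differential of `b`, pulled back along `ψ`, as a linear form on the pulled back tangent
space (coordinates with respect to `D`). -/
def dψ (ψ : F →+* L) (D : Fin r → Derivation k F F) (b : F) : (Fin r → L) →ₗ[L] L :=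
  Fintype.linearCombination L fun i => ψ (D i b)

/-- The pulled back tangent vector `a` vanishes to order at least `n` along `V`. -/
def TGe (V : ValuationSubring L) (ψ : F →+* L) (D : Fin r → Derivation k F F) (n : ℤ)
    (a : Fin r → L) : Prop :=
  ∀ b, ψ b ∈ V → Ge V n (dψ ψ D b a)

/-- The embedding `D ↦ y ∧ D y` of the pulled back tangent space. -/
def iota {ι : Type*} (ψ : F →+* L) (D : Fin r → Derivation k F F) (y : ι → F) :
    (Fin r → L) →ₗ[L] (ι × ι → L) :=
  LinearMap.pi fun i => ψ (y i.1) • dψ ψ D (y i.2) - ψ (y i.2) • dψ ψ D (y i.1)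

/-- Tangent space of the affine cone, pulled back along `ψ`. -/
def tcone {ι : Type*} (ψ : F →+* L) (D : Fin r → Derivation k F F) (y : ι → F) :
    Submodule L (ι → L) :=
  Submodule.span L {fun i => ψ (y i)} ⊔ LinearMap.range (LinearMap.pi fun i => dψ ψ D (y i))

/-- Jacobian matrix of the equations, pulled back along `ψ`. -/
def jacM {ι Λ : Type*} (ψ : F →+* L) (y : ι → F) (G : Λ → MvPolynomial ι k) : Matrix Λ ι L :=
  Matrix.of fun l j => ψ (MvPolynomial.aeval y (MvPolynomial.pderiv j (G l)))

/-- `G` is a system of homogeneous equations of degree `δ` for the projective point `y`. -/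
structure Eqs {ι Λ : Type*} (y : ι → F) (δ : ℕ) (G : Λ → MvPolynomial ι k) : Prop where
  pos : 1 ≤ δ
  hom : ∀ l, (G l).IsHomogeneous δ
  zero : ∀ l, MvPolynomial.aeval y (G l) = 0
  gen : ∀ (d : ℕ) (H : MvPolynomial ι k) (j : ι), H.IsHomogeneous d → MvPolynomial.aeval y H = 0 →
    MvPolynomial.X j ^ δ * H ∈ Ideal.span (Set.range G)

/-- Frobenius pull-backs of the tangent bundle become arbitrarily positive on the curve. -/
def Pos (p : ℕ) [ExpChar F p] {κ : Type*} [Field κ] [Algebra κ L] (j : F →+* L)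
    (D : Fin r → Derivation k F F) (H : Div κ L) : Prop :=
  ∀ B : ℕ, ∃ e : ℕ, Submodule.span L {a | ∀ v : Place κ L,
    TGe v.O (j.comp (iterateFrobenius F p e)) D (B * H v) a} = ⊤

end der

/-! ### The generic complete intersection curve -/
section master
variable {F 𝕂 : Type u} [Field F] [Field 𝕂] [Algebra F 𝕂] {n m : ℕ}

abbrev MA (n m : ℕ) : Type := Fin (n + 1) × Fin m
abbrev MZ (n m : ℕ) : Type := (Fin n × MA n m) ⊕ (Fin n × Option (MA n m)) ⊕ Fin n
abbrev MF (n m : ℕ) : Type := (Fin n × Option (MA n m)) ⊕ (Fin n × Option (MA n m)) ⊕ Fin n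

/-- The monomials of the linear system. -/
def mu (x : Fin (n + 2) → F) : Option (MA n m) → F
  | none => 1
  | some β => x β.1.succ ^ (β.2.1 + 1)

/-- Free coefficients of the hypersurfaces. -/
def sF (z : MZ n m → 𝕂) (β : Fin n × MA n m) : 𝕂 := z (.inl β)

/-- All coefficients of the hypersurfaces. -/
def sC (x : Fin (n + 2) → F) (z : MZ n m → 𝕂) (i : Fin n) : Option (MA n m) → 𝕂
  | none => -∑ β, z (.inl (i, β)) * algebraMap F 𝕂 (mu x (some β))
  | some β => z (.inl (i, β))

def bC (z : MZ n m → 𝕂) (i : Fin n) (α : Option (MA n m)) : 𝕂 := z (.inr (.inl (i, α)))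

def tC (z : MZ n m → 𝕂) (i : Fin n) : 𝕂 := z (.inr (.inr i))

/-- Generators of the field of constants of the curve. -/
def fC (x : Fin (n + 2) → F) (z : MZ n m → 𝕂) : MF n m → 𝕂
  | .inl β => sC x z β.1 β.2
  | .inr φ => z (.inr φ)

/-- Generators of the field of constants of the `i`-th transversal curve. -/
def fU (x : Fin (n + 2) → F) (z : MZ n m → 𝕂) (i : Fin n) : MF n m → 𝕂
  | .inl β => if β.1 = i then sC x z i β.2 + tC z i * bC z i β.2 else sC x z β.1 β.2
  | .inr (.inl β) => bC z β.1 β.2
  | .inr (.inr l) => if l = i then algebraMap F 𝕂 (x 1) else tC z l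

variable (k : Type u) [Field k] [Algebra k 𝕂]

abbrev κC (x : Fin (n + 2) → F) (z : MZ n m → 𝕂) : IntermediateField k 𝕂 :=
  IntermediateField.adjoin k (Set.range (fC x z))

abbrev κU (x : Fin (n + 2) → F) (z : MZ n m → 𝕂) (i : Fin n) : IntermediateField k 𝕂 :=
  IntermediateField.adjoin k (Set.range (fU x z i))

abbrev κ0 (x : Fin (n + 2) → F) (z : MZ n m → 𝕂) (i : Fin n) : IntermediateField k 𝕂 :=
  IntermediateField.adjoin k (fU x z i '' {φ | φ ≠ .inr (.inr i)})

/-- The hyperplane at infinity. -/
def hdiv (κ : Type u) [Field κ] [Algebra κ 𝕂] (x : Fin (n + 2) → F) : Div κ 𝕂 :=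
  -vdiv κ fun a => algebraMap F 𝕂 (x a)

/-- Valuations trivial on the constants of the curve or of a transversal curve. -/
def Adm (x : Fin (n + 2) → F) (z : MZ n m → 𝕂) (V : ValuationSubring 𝕂) : Prop :=
  ResInd k V (fC x z) ∨ ∃ i, ResInd k V (fU x z i)

/-- Degree in the coefficients of the `i`-th hypersurface. -/
def bdeg (i : Fin n) (g : MvPolynomial (Fin n × MA n m) F) : ℕ :=
  MvPolynomial.weightedTotalDegree (fun β => if β.1 = i then 1 else 0) g

structure Master [Algebra k F] (x : Fin (n + 2) → F) (z : MZ n m → 𝕂) : Prop where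
  model : Model k x
  pos : 0 < m
  indep : AlgebraicIndependent F z
  gen : IntermediateField.adjoin F (Set.range z) = ⊤

end master

/-! ### Points, chains of rational curves, places -/
section chain
variable (k : Type*) [Field k] {K : Type*} [Field K] [Algebra k K] {ι : Type}

/-- `z` satisfies all homogeneous relations of `ξ`. -/
def On (ξ : ι → K) {R : Type*} [CommRing R] [Algebra k R] (z : ι → R) : Prop :=
  ∀ (d : ℕ) (G : MvPolynomial ι k), G.IsHomogeneous d → MvPolynomial.aeval ξ G = 0 →
    MvPolynomial.aeval z G = 0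

variable {Ω : Type*} [Field Ω] [Algebra k Ω]

/-- `z` and `z'` are the values at `0` and `∞` of a map from the projective line. -/
def Link (ξ : ι → K) (z z' : ι → Ω) : Prop :=
  z ≠ 0 ∧ z' ≠ 0 ∧ ∃ (d : ℕ) (P : ι → Polynomial Ω), On k ξ P ∧ (∀ i, (P i).natDegree ≤ d) ∧
    (∀ i, (P i).coeff 0 = z i) ∧ ∀ i, (P i).coeff d = z' i

def Chain (ξ : ι → K) : (ι → Ω) → (ι → Ω) → Prop := Relation.ReflTransGen (Link k ξ)

/-- All rational points are connected by chains. -/
def MRCC (ξ : ι → K) : Prop :=
  ∀ z z' : ι → k, z ≠ 0 → On k ξ z → z' ≠ 0 → On k ξ z' → Chain k ξ z z'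

end chain

/-- A place of `E` with values in `Ω`. -/
structure Plc (E Ω : Type*) [Field E] [Field Ω] where
  V : ValuationSubring E
  ρ : V →+* Ω
  ker : ∀ a : V, ρ a = 0 ↔ V.valuation (a : E) < 1

section plc
variable {E Ω : Type*} [Field E] [Field Ω] {ι : Type*}

/-- The place is finite at `a` with value `b`. -/
def Plc.To (P : Plc E Ω) (a : E) (b : Ω) : Prop := ∃ h : a ∈ P.V, P.ρ ⟨a, h⟩ = b

/-- The place is the identity on `k`. -/
def Plc.Over (k : Type*) [Field k] [Algebra k E] [Algebra k Ω] (P : Plc E Ω) : Prop :=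
  ∀ c : k, P.To (algebraMap k E c) (algebraMap k Ω c)

/-- `z` is a specialisation of the projective point `w`. -/
def Plc.Sp (P : Plc E Ω) (w : ι → E) (z : ι → Ω) : Prop :=
  z ≠ 0 ∧ ∃ l : E, ∀ i, P.To (l * w i) (z i)

/-- `π` is an initial form of the polynomial vector `w` on the disc of centre `0`, radius `ρ`. -/
def Plc.In (P : Plc E Ω) (w : ι → Polynomial E) (ρ : E) (π : ι → Polynomial Ω) : Prop :=
  π ≠ 0 ∧ ∃ l : E, ∀ i j, P.To (l * (w i).coeff j * ρ ^ j) ((π i).coeff j)

/-- `z` is the lowest nonzero coefficient vector. -/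
def Low (π : ι → Polynomial Ω) (z : ι → Ω) : Prop :=
  z ≠ 0 ∧ ∃ j, (∀ i, (π i).coeff j = z i) ∧ ∀ i, ∀ j' < j, (π i).coeff j' = 0

/-- `z` is the highest nonzero coefficient vector. -/
def Top (π : ι → Polynomial Ω) (z : ι → Ω) : Prop :=
  z ≠ 0 ∧ ∃ j, (∀ i, (π i).coeff j = z i) ∧ ∀ i, ∀ j' > j, (π i).coeff j' = 0

/-- Ratios of the coordinates. -/
def ratios (y : ι → Ω) : Set Ω := {c | ∃ i j, c = y i / y j}

end plc

/-- Specialisations of `Δ` above points chained to the generic point are algebraic. -/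
def Rigid (k : Type u) [Field k] {K : Type u} [Field K] [Algebra k K] {ι J : Type} (ξ : ι → K)
    (Δ : J → K) : Prop :=
  ∀ (Ω : Type u) [Field Ω] [IsAlgClosed Ω] [Algebra K Ω] [Algebra k Ω] [IsScalarTower k K Ω]
    (P : Plc K Ω), P.Over k → ∀ z, P.Sp ξ z → Chain k ξ (fun i => algebraMap K Ω (ξ i)) z →
      ∀ δ, P.Sp Δ δ → ∀ I I', IsAlgebraic K (δ I / δ I')

/-- `V` is a valuation ring of the disc with centre `s` and radius `ρ`. -/
structure IsDisc {E M : Type*} [Field E] [Field M] (O : ValuationSubring E)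
    (i : PowerSeries E →+* M) (s ρ : E) (V : ValuationSubring M) : Prop where
  comap : V.comap (i.comp PowerSeries.C) = O
  mem : ∀ f : PowerSeries E, (∀ j, PowerSeries.coeff j f ∈ O) → i f ∈ V
  lt : V.valuation (i PowerSeries.X) < 1
  gauss : ∀ Q : Polynomial E, (∀ j, Q.coeff j ∈ O) → (∃ j, O.valuation (Q.coeff j) = 1) →
    V.valuation (Q.eval₂ (i.comp PowerSeries.C)
      (i (PowerSeries.X - PowerSeries.C s) / i (PowerSeries.C ρ))) = 1

/-- The coefficients of `f` span a finite dimensional space. -/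
def FinCoeff (Ω : Type*) {R : Type*} [Field Ω] [CommRing R] [Algebra Ω R] (f : PowerSeries R) :
    Prop :=
  ∃ s : Finset R, ∀ i, PowerSeries.coeff i f ∈ Submodule.span Ω (s : Set R)

/-- A family, with parameter ring `R`, of germs of curves through the generic point `x`. -/
structure Germs (k : Type*) {F Ω R : Type*} [Field k] [Field F] [Algebra k F] [Field Ω]
    [CommRing R] [Algebra Ω R] (x : F →+* Ω) (S : F →+* PowerSeries R) : Prop where
  zero : ∀ a, PowerSeries.constantCoeff (S a) = algebraMap Ω R (x a)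
  const : ∀ c : k, S (algebraMap k F c) = PowerSeries.C (algebraMap Ω R (x (algebraMap k F c)))
  bd : ∀ a, ∃ f g, FinCoeff Ω f ∧ FinCoeff Ω g ∧ IsUnit g ∧ S a * g = f

end Pool.Agent.Lib.MP_7fcda1_ag
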