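import Pool.Agent.Lib.MP_7fcda1_ag.Iface

open scoped IntermediateField Polynomial WithZero
open Module

noncomputable section

universe u

namespace Pool.Agent.Lib.MP_7fcda1_ag


variable {L : Type*} [Field L] {ι : Type*} {V : ValuationSubring L} {a b : L} {m n : ℤ}

theorem Disc.ne_top (hV : Disc V) : V ≠ ⊤ := by
  rintro rfl
  obtain ⟨v, hv, h⟩ := hV
  obtain ⟨a, ha⟩ := hv (WithZero.exp 1)
  have := (h a).1 (ValuationSubring.mem_top a)
  rw [ha, ← WithZero.exp_zero, WithZero.exp_le_exp] at this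
  omega

/-- `ord` is always computed by a valuation. -/
theorem Ord.ex_val (V : ValuationSubring L) : ∃ v : Valuation L ℤᵐ⁰,
    (∀ a, ord V a = -WithZero.log (v a)) ∧ (∀ n a, Ge V n a ↔ v a ≤ WithZero.exp (-n)) ∧
      (Disc V ∨ V = ⊤ → ∀ a, a ∈ V ↔ v a ≤ 1) := by
  classical
  have key : ∀ v : Valuation L ℤᵐ⁰, (∀ a, ord V a = -WithZero.log (v a)) →
      ∀ n a, Ge V n a ↔ v a ≤ WithZero.exp (-n) := by
    intro v hv n a
    by_cases ha : a = 0
    · subst ha
      simp [Ge]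
    · rw [Ge, hv, ← WithZero.log_le_iff_le_exp (v.ne_zero_iff.2 ha), or_iff_right ha, le_neg]
  by_cases h : Disc V
  · have h1 : ∀ a, ord V a = -WithZero.log (h.choose a) := fun a => dif_pos h
    exact ⟨h.choose, h1, key _ h1, fun _ => h.choose_spec.2⟩
  · have h1 : ∀ a, ord V a = -WithZero.log ((1 : Valuation L ℤᵐ⁰) a) := fun a => by
      rw [ord, dif_neg h]
      by_cases ha : a = 0
      · subst ha
        simp
      · rw [Valuation.one_apply_of_ne_zero ha]
        simp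
    refine ⟨1, h1, key _ h1, fun h' a => ?_⟩
    rw [h'.resolve_left h]
    exact iff_of_true (ValuationSubring.mem_top a) (Valuation.one_apply_le_one a)


@[simp] theorem ord_zero : ord V 0 = 0 := by
  obtain ⟨v, hv, -⟩ := Ord.ex_val V
  simp [hv]

@[simp] theorem ord_one : ord V 1 = 0 := by
  obtain ⟨v, hv, -⟩ := Ord.ex_val V
  simp [hv]

@[simp] theorem ord_top : ord ⊤ a = 0 := dif_neg fun h => Disc.ne_top h rfl

@[simp] theorem ord_neg : ord V (-a) = ord V a := by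
  obtain ⟨v, hv, -⟩ := Ord.ex_val V
  simp [hv]

@[simp] theorem ord_inv : ord V a⁻¹ = -ord V a := by
  obtain ⟨v, hv, -⟩ := Ord.ex_val V
  simp [hv]

@[simp] theorem ord_pow (j : ℕ) : ord V (a ^ j) = j * ord V a := by
  obtain ⟨v, hv, -⟩ := Ord.ex_val V
  simp [hv]

@[simp] theorem ord_zpow (j : ℤ) : ord V (a ^ j) = j * ord V a := by
  obtain ⟨v, hv, -⟩ := Ord.ex_val V
  simp [hv]

theorem ord_mul (ha : a ≠ 0) (hb : b ≠ 0) : ord V (a * b) = ord V a + ord V b := by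
  obtain ⟨v, hv, -⟩ := Ord.ex_val V
  rw [hv, hv, hv, map_mul, WithZero.log_mul (v.ne_zero_iff.2 ha) (v.ne_zero_iff.2 hb), neg_add]

theorem ord_div (ha : a ≠ 0) (hb : b ≠ 0) : ord V (a / b) = ord V a - ord V b := by
  rw [div_eq_mul_inv, ord_mul ha (inv_ne_zero hb), ord_inv, sub_eq_add_neg]

theorem ord_prod (s : Finset ι) (f : ι → L) (h : ∀ i ∈ s, f i ≠ 0) :
    ord V (∏ i ∈ s, f i) = ∑ i ∈ s, ord V (f i) := by
  classical
  induction s using Finset.induction_on with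
  | empty => simp
  | insert i s hi ih =>
    have h' : ∀ j ∈ s, f j ≠ 0 := fun j hj => h j (Finset.mem_insert_of_mem hj)
    rw [Finset.prod_insert hi, Finset.sum_insert hi,
      ord_mul (h i (Finset.mem_insert_self i s)) (Finset.prod_ne_zero_iff.2 h'), ih h']

theorem Disc.exists_ord (hV : Disc V) (n : ℤ) : ∃ a, a ≠ 0 ∧ ord V a = n := by
  obtain ⟨a, ha⟩ := hV.choose_spec.1 (WithZero.exp (-n))
  refine ⟨a, hV.choose.ne_zero_iff.1 (by rw [ha]; exact WithZero.exp_ne_zero), ?_⟩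
  rw [ord, dif_pos hV, ha, WithZero.log_exp, neg_neg]

theorem mem_iff_ge (hV : Disc V ∨ V = ⊤) : a ∈ V ↔ Ge V 0 a := by
  obtain ⟨v, -, hv, h⟩ := Ord.ex_val V
  rw [h hV, hv, neg_zero, WithZero.exp_zero]

theorem val_lt_one_iff (hV : Disc V ∨ V = ⊤) : V.valuation a < 1 ↔ Ge V 1 a := by
  by_cases ha : a = 0
  · subst ha
    simp [Ge]
  · rw [← not_le, ← inv_le_one₀ (zero_lt_iff.2 (V.valuation.ne_zero_iff.2 ha)), ← map_inv₀,
      ValuationSubring.valuation_le_one_iff, mem_iff_ge hV, Ge, Ge, or_iff_right ha,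
      or_iff_right (inv_ne_zero ha), ord_inv]
    omega

theorem val_eq_one_iff (hV : Disc V ∨ V = ⊤) : V.valuation a = 1 ↔ a ≠ 0 ∧ ord V a = 0 := by
  by_cases ha : a = 0
  · subst ha
    simp
  · rw [le_antisymm_iff, ← not_lt, ← not_lt (a := V.valuation a), val_lt_one_iff hV, not_lt,
      ValuationSubring.valuation_le_one_iff, mem_iff_ge hV, Ge, Ge, or_iff_right ha,
      or_iff_right ha, and_iff_right ha]
    omega

theorem val_le_iff (hV : Disc V ∨ V = ⊤) (hb : b ≠ 0) :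
    V.valuation a ≤ V.valuation b ↔ Ge V (ord V b) a := by
  rw [← div_le_one₀ (zero_lt_iff.2 (V.valuation.ne_zero_iff.2 hb)), ← map_div₀,
    ValuationSubring.valuation_le_one_iff, mem_iff_ge hV]
  by_cases ha : a = 0
  · subst ha
    simp [Ge]
  · rw [Ge, Ge, or_iff_right ha, or_iff_right (div_ne_zero ha hb), ord_div ha hb, sub_nonneg]


@[simp] theorem ge_zero : Ge V n 0 := Or.inl rfl

theorem ge_ord : Ge V (ord V a) a := Or.inr le_rfl

theorem ge_iff (ha : a ≠ 0) : Ge V n a ↔ n ≤ ord V a := or_iff_right ha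

theorem Ge.mono (h : Ge V n a) (hmn : m ≤ n) : Ge V m a := h.imp_right hmn.trans

theorem Ge.add (ha : Ge V n a) (hb : Ge V n b) : Ge V n (a + b) := by
  obtain ⟨v, -, hv, -⟩ := Ord.ex_val V
  rw [hv] at ha hb ⊢
  exact v.map_add_le ha hb

theorem Ge.neg (ha : Ge V n a) : Ge V n (-a) := by
  obtain ⟨v, -, hv, -⟩ := Ord.ex_val V
  rw [hv] at ha ⊢
  rwa [v.map_neg]

theorem Ge.sub (ha : Ge V n a) (hb : Ge V n b) : Ge V n (a - b) := by
  rw [sub_eq_add_neg]
  exact ha.add hb.neg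

theorem Ge.mul (ha : Ge V m a) (hb : Ge V n b) : Ge V (m + n) (a * b) := by
  obtain ⟨v, -, hv, -⟩ := Ord.ex_val V
  rw [hv] at ha hb ⊢
  rw [map_mul, neg_add, WithZero.exp_add]
  exact mul_le_mul' ha hb

theorem Ge.pow (ha : Ge V n a) (j : ℕ) : Ge V (j * n) (a ^ j) := by
  induction j with
  | zero => exact Or.inr (by simp)
  | succ j ih =>
    rw [pow_succ, Nat.cast_succ, add_mul, one_mul]
    exact ih.mul ha

theorem Ge.sum {s : Finset ι} {f : ι → L} (h : ∀ i ∈ s, Ge V n (f i)) :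
    Ge V n (∑ i ∈ s, f i) :=
  Finset.sum_induction f (Ge V n) (fun _ _ => Ge.add) ge_zero h

theorem Ge.prod {s : Finset ι} {f : ι → L} {n : ι → ℤ} (h : ∀ i ∈ s, Ge V (n i) (f i)) :
    Ge V (∑ i ∈ s, n i) (∏ i ∈ s, f i) := by
  classical
  induction s using Finset.induction_on with
  | empty => exact Or.inr (by simp)
  | insert i s hi ih =>
    rw [Finset.prod_insert hi, Finset.sum_insert hi]
    exact (h i (Finset.mem_insert_self i s)).mul
      (ih fun j hj => h j (Finset.mem_insert_of_mem hj))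

theorem ge_mul_iff (ha : a ≠ 0) : Ge V n (a * b) ↔ Ge V (n - ord V a) b := by
  by_cases hb : b = 0
  · subst hb
    simp
  · rw [ge_iff (mul_ne_zero ha hb), ge_iff hb, ord_mul ha hb]
    omega

theorem ge_pow_iff {j : ℕ} (hj : j ≠ 0) : Ge V (j * n) (a ^ j) ↔ Ge V n a := by
  by_cases ha : a = 0
  · subst ha
    simp [zero_pow hj]
  · rw [ge_iff (pow_ne_zero j ha), ge_iff ha, ord_pow]
    exact mul_le_mul_iff_right₀ (by exact_mod_cast Nat.pos_of_ne_zero hj)

theorem ord_add_of_ge (ha : a ≠ 0) (hb : Ge V (ord V a + 1) b) :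
    a + b ≠ 0 ∧ ord V (a + b) = ord V a := by
  have h1 : ¬ Ge V (ord V a + 1) (a + b) := fun h => by
    have := h.sub hb
    rw [add_sub_cancel_right, ge_iff ha] at this
    omega
  have h2 : a + b ≠ 0 := fun h => h1 (Or.inl h)
  have h3 : Ge V (ord V a) (a + b) := ge_ord.add (hb.mono (by omega))
  rw [ge_iff h2] at h1 h3
  exact ⟨h2, by omega⟩

theorem Ord.ex_min [Finite ι] {w : ι → L} (hw : w ≠ 0) :
    ∃ i, w i ≠ 0 ∧ ord V (w i) = vord V w ∧ ∀ n, VGe V n w ↔ n ≤ ord V (w i) := by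
  obtain ⟨i, hi, hmin⟩ := Set.exists_min_image {i | w i ≠ 0} (fun i => ord V (w i))
    (Set.toFinite _) (Function.ne_iff.1 hw)
  have h : ∀ n, VGe V n w ↔ n ≤ ord V (w i) := fun n =>
    ⟨fun h => (ge_iff hi).1 (h i), fun h j => by
      by_cases hj : w j = 0
      · exact Or.inl hj
      · exact Or.inr (h.trans (hmin j hj))⟩
  refine ⟨i, hi, ?_, h⟩
  have e : {n | VGe V n w} = Set.Iic (ord V (w i)) := Set.ext h
  rw [vord, e, csSup_Iic]


theorem vge_iff [Finite ι] {w : ι → L} (hw : w ≠ 0) : VGe V n w ↔ n ≤ vord V w := by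
  obtain ⟨i, -, h1, h2⟩ := Ord.ex_min (V := V) hw
  rw [h2, h1]

theorem exists_vord [Finite ι] {w : ι → L} (hw : w ≠ 0) :
    ∃ i, w i ≠ 0 ∧ ord V (w i) = vord V w := by
  obtain ⟨i, h0, h1, -⟩ := Ord.ex_min (V := V) hw
  exact ⟨i, h0, h1⟩

@[simp] theorem vord_zero : vord V (0 : ι → L) = 0 := by
  have e : {n | VGe V n (0 : ι → L)} = Set.univ :=
    Set.eq_univ_of_forall fun _ _ => ge_zero
  rw [vord, e]
  exact Int.csSup_of_not_bddAbove not_bddAbove_univ

theorem vord_smul [Finite ι] {w : ι → L} (ha : a ≠ 0) (hw : w ≠ 0) :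
    vord V (a • w) = ord V a + vord V w := by
  refine eq_of_forall_le_iff fun n => ?_
  rw [← vge_iff (smul_ne_zero ha hw), ← sub_le_iff_le_add', ← vge_iff hw]
  exact forall_congr' fun i => ge_mul_iff ha

theorem vord_pow [Finite ι] (w : ι → L) {j : ℕ} (hj : j ≠ 0) :
    vord V (fun i => w i ^ j) = j * vord V w := by
  by_cases hw : w = 0
  · subst hw
    have e : (fun i => (0 : ι → L) i ^ j) = 0 := funext fun i => zero_pow hj
    rw [e, vord_zero, mul_zero]
  · obtain ⟨i, h0, h1⟩ := exists_vord (V := V) hw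
    have hw' : (fun i => w i ^ j) ≠ 0 := fun h => pow_ne_zero j h0 (congrFun h i)
    refine le_antisymm ?_ ((vge_iff hw').1 fun l => ((vge_iff hw).2 le_rfl l).pow j)
    have := (ge_iff (pow_ne_zero j h0)).1 ((vge_iff (V := V) hw').2 le_rfl i)
    rwa [ord_pow, h1] at this

theorem VGe.mono {w : ι → L} (h : VGe V n w) (hmn : m ≤ n) : VGe V m w :=
  fun i => (h i).mono hmn

theorem VGe.add {w w' : ι → L} (h : VGe V n w) (h' : VGe V n w') : VGe V n (w + w') :=
  fun i => (h i).add (h' i)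

theorem VGe.smul {w : ι → L} (ha : Ge V m a) (h : VGe V n w) : VGe V (m + n) (a • w) :=
  fun i => ha.mul (h i)

theorem VGe.sum {σ : Type*} {s : Finset σ} {w : σ → ι → L} (h : ∀ i ∈ s, VGe V n (w i)) :
    VGe V n (∑ i ∈ s, w i) :=
  Finset.sum_induction w (VGe V n) (fun _ _ => VGe.add) (fun _ => ge_zero) h

theorem VGe.qge {w : ι → L} (h : VGe V n w) (W : Submodule L (ι → L)) : QGe V n W w :=
  ⟨0, W.zero_mem, by rwa [add_zero]⟩

theorem QGe.mono {W W' : Submodule L (ι → L)} {w : ι → L} (h : QGe V n W w) (hmn : m ≤ n)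
    (hW : W ≤ W') : QGe V m W' w := by
  obtain ⟨u, hu, h⟩ := h
  exact ⟨u, hW hu, h.mono hmn⟩

theorem QGe.add {W : Submodule L (ι → L)} {w w' : ι → L} (h : QGe V n W w) (h' : QGe V n W w') :
    QGe V n W (w + w') := by
  obtain ⟨u, hu, h⟩ := h
  obtain ⟨u', hu', h'⟩ := h'
  exact ⟨u + u', W.add_mem hu hu', by rw [add_add_add_comm]; exact h.add h'⟩

theorem QGe.smul {W : Submodule L (ι → L)} {w : ι → L} (ha : Ge V m a) (h : QGe V n W w) :
    QGe V (m + n) W (a • w) := by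
  obtain ⟨u, hu, h⟩ := h
  exact ⟨a • u, W.smul_mem a hu, by rw [← smul_add]; exact VGe.smul ha h⟩

theorem QGe.congr {W : Submodule L (ι → L)} {w w' : ι → L} (h : QGe V n W w) (hw : w' - w ∈ W) :
    QGe V n W w' := by
  obtain ⟨u, hu, h⟩ := h
  refine ⟨u - (w' - w), W.sub_mem hu hw, ?_⟩
  have e : w' + (u - (w' - w)) = w + u := by abel
  rwa [e]

theorem qge_bot {w : ι → L} : QGe V n ⊥ w ↔ VGe V n w := by
  refine ⟨?_, fun h => h.qge ⊥⟩
  rintro ⟨u, hu, h⟩
  rwa [(Submodule.mem_bot L).1 hu, add_zero] at h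


end Pool.Agent.Lib.MP_7fcda1_ag
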