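import Pool.Agent.Lib.MP_7fcda1_ag.Krull
import Pool.Agent.Lib.MP_7fcda1_ag.Ord

open scoped IntermediateField Polynomial WithZero
open Module MvPolynomial

noncomputable section

universe u

namespace Pool.Agent.Lib.MP_7fcda1_ag

section abs
variable {Ω O σ : Type*} [Field Ω] [CommRing O] [Algebra Ω O] (ex : O →ₐ[Ω] PowerSeries Ω)

/-- expansion of a polynomial family -/
def def3E : MvPolynomial σ O →+* PowerSeries (MvPolynomial σ Ω) :=
  eval₂Hom ((PowerSeries.map (C : Ω →+* MvPolynomial σ Ω)).comp (ex : O →+* PowerSeries Ω))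
    fun i => PowerSeries.C (X i)

@[simp] theorem def3E_C (c : O) :
    def3E ex (C c : MvPolynomial σ O) = PowerSeries.map C (ex c) := by simp [def3E]

@[simp] theorem def3E_X (i : σ) :
    def3E ex (X i : MvPolynomial σ O) = PowerSeries.C (X i) := by simp [def3E]

theorem def3E_monomial (α : σ →₀ ℕ) (c : O) :
    def3E ex (monomial α c) = PowerSeries.map C (ex c) * PowerSeries.C (monomial α 1) := by
  rw [monomial_eq, monomial_eq, map_mul, def3E_C, C_1, one_mul, Finsupp.prod, Finsupp.prod,
    map_prod, map_prod]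
  simp

/-- extension of a linear form -/
def def3L (O : Type*) [CommRing O] [Algebra Ω O] (l : MvPolynomial σ Ω →ₗ[Ω] Ω) :
    MvPolynomial σ O →ₗ[O] O :=
  (basisMonomials σ O).constr O fun α => algebraMap Ω O (l (monomial α 1))

theorem def3L_monomial (l : MvPolynomial σ Ω →ₗ[Ω] Ω) (α : σ →₀ ℕ) (c : O) :
    def3L O l (monomial α c) = c * algebraMap Ω O (l (monomial α 1)) := by
  have h : monomial α c = c • basisMonomials σ O α := by simp [smul_monomial]
  rw [h, map_smul, def3L, Basis.constr_basis, smul_eq_mul]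

theorem def3L_eq (l : MvPolynomial σ Ω →ₗ[Ω] Ω) (Q : MvPolynomial σ O) :
    def3L O l Q = ∑ α ∈ Q.support, l (monomial α 1) • coeff α Q := by
  conv_lhs => rw [Q.as_sum, map_sum]
  exact Finset.sum_congr rfl fun α _ => by rw [def3L_monomial, Algebra.smul_def, mul_comm]

theorem def3_coeff (l : MvPolynomial σ Ω →ₗ[Ω] Ω) (Q : MvPolynomial σ O) (n : ℕ) :
    PowerSeries.coeff n (ex (def3L O l Q)) = l (PowerSeries.coeff n (def3E ex Q)) := by
  induction Q using MvPolynomial.induction_on' with
  | monomial α c =>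
    rw [def3L_monomial, map_mul, AlgHom.commutes, def3E_monomial, PowerSeries.coeff_mul_C,
      PowerSeries.coeff_map, ← smul_eq_C_mul, map_smul, smul_eq_mul]
    exact PowerSeries.coeff_mul_C _ _ _
  | add P Q hP hQ => simp [hP, hQ]

theorem def3_cc (Q : MvPolynomial σ O) :
    PowerSeries.map constantCoeff (def3E ex Q) = ex (constantCoeff Q) := by
  have : (PowerSeries.map constantCoeff).comp (def3E ex) =
      (ex : O →+* PowerSeries Ω).comp (constantCoeff : MvPolynomial σ O →+* O) := by
    refine MvPolynomial.ringHom_ext (fun c => ?_) fun i => ?_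
    · ext n; simp
    · simp
  exact congrArg (fun f => f Q) this

theorem def3_cc' (Q : MvPolynomial σ O) (n : ℕ) :
    constantCoeff (PowerSeries.coeff n (def3E ex Q)) =
      PowerSeries.coeff n (ex (constantCoeff Q)) := by
  rw [← def3_cc, PowerSeries.coeff_map]

theorem def3_coeff_mul_mem {A : Type*} [CommRing A] {I J : Ideal A} {P Q : PowerSeries A}
    (hP : ∀ n, PowerSeries.coeff n P ∈ I) (hQ : ∀ n, PowerSeries.coeff n Q ∈ J) (n : ℕ) :
    PowerSeries.coeff n (P * Q) ∈ I * J := by
  rw [PowerSeries.coeff_mul]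
  exact Ideal.sum_mem _ fun x _ => Ideal.mul_mem_mul (hP _) (hQ _)

theorem def3_map_eq_zero {A : Type*} [CommRing A] {I : Ideal A} {P : PowerSeries A} :
    PowerSeries.map (Ideal.Quotient.mk I) P = 0 ↔ ∀ n, PowerSeries.coeff n P ∈ I := by
  simp [PowerSeries.ext_iff, Ideal.Quotient.eq_zero_iff_mem]

/-- the linear part -/
def def3lin [Fintype σ] (ζ : σ → Ω) : MvPolynomial σ Ω →ₗ[Ω] Ω :=
  ∑ i, ζ i • lcoeff Ω (Finsupp.single i 1)

theorem def3lin_apply [Fintype σ] (ζ : σ → Ω) (g : MvPolynomial σ Ω) :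
    def3lin ζ g = ∑ i, g.coeff (Finsupp.single i 1) * ζ i := by
  simp [def3lin, mul_comm]

theorem def3L_lin [Fintype σ] (ζ : σ → Ω) (Q : MvPolynomial σ O) :
    def3L O (def3lin ζ) Q = ∑ i, ζ i • constantCoeff (pderiv i Q) := by
  classical
  induction Q using MvPolynomial.induction_on' with
  | monomial α c =>
    rw [def3L_monomial, def3lin_apply, map_sum, Finset.mul_sum]
    refine Finset.sum_congr rfl fun i _ => ?_
    rw [constantCoeff_eq, coeff_pderiv, coeff_monomial, coeff_monomial, zero_add]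
    split_ifs <;> simp [Algebra.smul_def, mul_comm]
  | add P Q hP hQ => simp [hP, hQ, Finset.sum_add_distrib]

theorem def3L_lin_mul [Fintype σ] (ζ : σ → Ω) (P Q : MvPolynomial σ O) :
    def3L O (def3lin ζ) (P * Q) = constantCoeff P * def3L O (def3lin ζ) Q +
      constantCoeff Q * def3L O (def3lin ζ) P := by
  simp only [def3L_lin, Derivation.leibniz, smul_eq_mul, map_add, map_mul, smul_add,
    Finset.sum_add_distrib, Finset.mul_sum, mul_smul_comm]

theorem def3L_lin_C [Fintype σ] (ζ : σ → Ω) (c : O) : def3L O (def3lin ζ) (C c) = 0 := by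
  simp [def3L_lin]

theorem def3L_lin_X [Fintype σ] (ζ : σ → Ω) (i : σ) :
    def3L O (def3lin ζ) (X i) = algebraMap Ω O (ζ i) := by
  classical
  rw [def3L_lin, Finset.sum_eq_single i]
  · simp [Algebra.smul_def]
  · intro b _ hb
    simp [Pi.single_eq_of_ne' hb]
  · simp

theorem def3_chain [Fintype σ] (ζ : σ → Ω) {k τ : Type*} [CommRing k] [Fintype τ]
    (ev : MvPolynomial τ k →+* MvPolynomial σ O)
    (hC : ∀ c, def3L O (def3lin ζ) (ev (C c)) = 0) (f : MvPolynomial τ k) :
    def3L O (def3lin ζ) (ev f) =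
      ∑ i, constantCoeff (ev (pderiv i f)) * def3L O (def3lin ζ) (ev (X i)) := by
  classical
  induction f using MvPolynomial.induction_on with
  | C a => simp [hC]
  | add f g hf hg => simp [hf, hg, add_mul, Finset.sum_add_distrib]
  | mul_X f i hf =>
    rw [map_mul, def3L_lin_mul, hf]
    simp only [Derivation.leibniz, MvPolynomial.pderiv_X, smul_eq_mul, map_add, map_mul,
      add_mul, Finset.sum_add_distrib, Finset.mul_sum]
    congr 1
    · rw [Finset.sum_eq_single i]
      · simp
      · intro b _ hb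
        simp [Pi.single_eq_of_ne' hb]
      · simp
    · exact Finset.sum_congr rfl fun b _ => by ring

/-- a form killing `𝔪 I` extends to a form that is semilinear on families in `I` -/
theorem def3L_mul (hex : Function.Injective ex) {I : Ideal (MvPolynomial σ Ω)}
    {l : MvPolynomial σ Ω →ₗ[Ω] Ω} (hl : ∀ f ∈ RingHom.ker constantCoeff * I, l f = 0)
    (P : MvPolynomial σ O) {Q : MvPolynomial σ O}
    (hQ : ∀ n, PowerSeries.coeff n (def3E ex Q) ∈ I) :
    def3L O l (P * Q) = constantCoeff P * def3L O l Q := by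
  have h1 : P * Q = (P - C (constantCoeff P)) * Q + constantCoeff P • Q := by
    rw [smul_eq_C_mul]; ring
  have h2 : def3L O l ((P - C (constantCoeff P)) * Q) = 0 := by
    apply hex
    ext n
    rw [def3_coeff, map_mul, map_zero, map_zero]
    refine hl _ (def3_coeff_mul_mem (fun m => ?_) hQ n)
    rw [RingHom.mem_ker, def3_cc']
    simp
  rw [h1, map_add, h2, zero_add, map_smul, smul_eq_mul]

end abs

section pg
variable {L O σ : Type*} [Field L] [CommRing O] (V : ValuationSubring L) (ι : O →+* L)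

/-- all coefficients vanish to order `n` -/
def PGe (n : ℤ) (Q : MvPolynomial σ O) : Prop := ∀ α, Ge V n (ι (coeff α Q))

variable {V ι} {m n : ℤ} {P Q : MvPolynomial σ O}

theorem PGe.mul (hP : PGe V ι m P) (hQ : PGe V ι n Q) : PGe V ι (m + n) (P * Q) := fun α => by
  classical
  rw [coeff_mul, map_sum]
  exact Ge.sum fun x _ => by rw [map_mul]; exact (hP _).mul (hQ _)

theorem PGe.sum {τ : Type*} {s : Finset τ} {f : τ → MvPolynomial σ O}
    (h : ∀ i ∈ s, PGe V ι n (f i)) : PGe V ι n (∑ i ∈ s, f i) := fun α => by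
  rw [coeff_sum, map_sum]
  exact Ge.sum fun i hi => h i hi α

theorem PGe.add (hP : PGe V ι n P) (hQ : PGe V ι n Q) : PGe V ι n (P + Q) := fun α => by
  rw [coeff_add, map_add]
  exact (hP α).add (hQ α)

theorem pge_monomial {c : O} (h : Ge V n (ι c)) (β : σ →₀ ℕ) : PGe V ι n (monomial β c) :=
  fun α => by
  classical
  rw [coeff_monomial]
  split_ifs
  · exact h
  · rw [map_zero]; exact ge_zero

theorem pge_one : PGe V ι 0 (1 : MvPolynomial σ O) :=
  pge_monomial (by rw [map_one]; exact Or.inr (by simp)) 0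

theorem PGe.pow (hP : PGe V ι n P) (j : ℕ) : PGe V ι (j * n) (P ^ j) := by
  induction j with
  | zero => simpa using pge_one
  | succ j ih =>
    rw [pow_succ]
    convert ih.mul hP using 1
    push_cast; ring

theorem PGe.prod {τ : Type*} {s : Finset τ} {f : τ → MvPolynomial σ O} {n : τ → ℤ}
    (h : ∀ i ∈ s, PGe V ι (n i) (f i)) : PGe V ι (∑ i ∈ s, n i) (∏ i ∈ s, f i) := by
  classical
  induction s using Finset.induction_on with
  | empty => simpa using pge_one
  | insert a s ha ih =>
    rw [Finset.sum_insert ha, Finset.prod_insert ha]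
    exact (h a (by simp)).mul (ih fun i hi => h i (by simp [hi]))

theorem pge_hom {k τ : Type*} [CommRing k] [Fintype τ] (ev : MvPolynomial τ k →+* MvPolynomial σ O)
    (hC : ∀ c, PGe V ι 0 (ev (C c))) {t : ℤ} (hX : ∀ i, PGe V ι t (ev (X i)))
    {f : MvPolynomial τ k} {m : ℕ} (hf : f.IsHomogeneous m) : PGe V ι (m * t) (ev f) := by
  classical
  rw [f.as_sum, map_sum]
  refine PGe.sum fun s hs => ?_
  rw [monomial_eq, map_mul, Finsupp.prod_fintype _ _ (by simp), map_prod]
  have h2 : PGe V ι (∑ i, (s i : ℤ) * t) (∏ i, ev (X i ^ s i)) :=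
    PGe.prod fun i _ => by rw [map_pow]; exact (hX i).pow _
  have h3 : ∑ i, (s i : ℤ) = m := by
    have := hf (MvPolynomial.mem_support_iff.1 hs)
    rw [← this, Finsupp.weight_apply, Finsupp.sum_fintype _ _ (by simp)]
    simp
  have := (hC (coeff s f)).mul h2
  rwa [zero_add, ← Finset.sum_mul, h3] at this

end pg

end Pool.Agent.Lib.MP_7fcda1_ag
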