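import Pool.Agent.Lib.MP_7fcda1_ag.CT1

open scoped IntermediateField Polynomial WithZero
open Module

noncomputable section

universe u

namespace Pool.Agent.Lib.MP_7fcda1_ag


variable {Ω : Type u} [Field Ω]

section expand
variable {L : Type*} [Field L] [Algebra Ω L]

theorem Arc_ge_const (v : Place Ω L) (c : Ω) : Ge v.O 0 (algebraMap Ω L c) :=
  Or.inr (by rw [v.ord_const c])

theorem Arc_ge_aeval (v : Place Ω L) {π : L} (hπ : Ge v.O 0 π) (P : (Polynomial Ω)) :
    Ge v.O 0 (Polynomial.aeval π P) := by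
  induction P using Polynomial.induction_on' with
  | add p q hp hq => rw [map_add]; exact hp.add hq
  | monomial n c =>
    rw [Polynomial.aeval_monomial]
    simpa using (Arc_ge_const v c).mul (hπ.pow n)

theorem Arc_ge_of_dvd (v : Place Ω L) {π : L} (hπ : ord v.O π = 1) {N : ℕ} {P : (Polynomial Ω)}
    (h : Polynomial.X ^ N ∣ P) : Ge v.O N (Polynomial.aeval π P) := by
  obtain ⟨Q, rfl⟩ := h
  have h1 : Ge v.O 1 π := Or.inr hπ.ge
  rw [map_mul, map_pow, Polynomial.aeval_X]
  simpa using (h1.pow N).mul (Arc_ge_aeval v (h1.mono zero_le_one) Q)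

theorem Arc_dvd_of_ge (v : Place Ω L) {π : L} (hπ : ord v.O π = 1) (N : ℕ) :
    ∀ P : (Polynomial Ω), Ge v.O N (Polynomial.aeval π P) → Polynomial.X ^ N ∣ P := by
  have hπ0 : π ≠ 0 := by
    rintro rfl
    simp at hπ
  have h1 : Ge v.O 1 π := Or.inr hπ.ge
  induction N with
  | zero => intro P _; simp
  | succ N ih =>
    intro P hP
    have hd := Polynomial.X_mul_divX_add P
    have e : Polynomial.aeval π P =
        π * Polynomial.aeval π P.divX + algebraMap Ω L (P.coeff 0) := by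
      have h2 := congrArg (Polynomial.aeval π) hd
      rw [map_add, map_mul, Polynomial.aeval_X, Polynomial.aeval_C] at h2
      exact h2.symm
    have hq : Ge v.O 1 (π * Polynomial.aeval π P.divX) := by
      simpa using h1.mul (Arc_ge_aeval v (h1.mono zero_le_one) P.divX)
    have hc : Ge v.O 1 (algebraMap Ω L (P.coeff 0)) := by
      have h2 := (hP.mono (m := 1) (by push_cast; omega)).sub hq
      rwa [e, add_sub_cancel_left] at h2
    have hc0 : P.coeff 0 = 0 := by
      rcases hc with hc | hc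
      · exact (map_eq_zero _).1 hc
      · rw [v.ord_const] at hc
        omega
    rw [e, hc0, map_zero, add_zero, ge_mul_iff hπ0, hπ] at hP
    have h3 := ih P.divX (by simpa using hP)
    rw [← hd, hc0, map_zero, add_zero, pow_succ']
    exact mul_dvd_mul_left _ h3

/-- `f` is the expansion of `a` in powers of `π`. -/
def ArcExp (v : Place Ω L) (π a : L) (f : PowerSeries Ω) : Prop :=
  ∀ N : ℕ, ∃ P : (Polynomial Ω), PowerSeries.X ^ N ∣ f - (P : PowerSeries Ω) ∧
    Ge v.O N (a - Polynomial.aeval π P)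

theorem Arc_coe_dvd {N : ℕ} {P : (Polynomial Ω)} :
    PowerSeries.X ^ N ∣ (P : PowerSeries Ω) ↔ Polynomial.X ^ N ∣ P := by
  rw [PowerSeries.X_pow_dvd_iff, Polynomial.X_pow_dvd_iff]
  simp only [Polynomial.coeff_coe]

theorem ArcExp.unique {v : Place Ω L} {π a : L} (hπ : ord v.O π = 1) {f g : PowerSeries Ω}
    (hf : ArcExp v π a f) (hg : ArcExp v π a g) : f = g := by
  ext n
  obtain ⟨P, hP, hP'⟩ := hf (n + 1)
  obtain ⟨Q, hQ, hQ'⟩ := hg (n + 1)
  have h1 : Ge v.O (n + 1 : ℕ) (Polynomial.aeval π (P - Q)) := by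
    have h2 := hQ'.sub hP'
    rw [map_sub]
    convert h2 using 1
    ring
  have h2 := Arc_coe_dvd.2 (Arc_dvd_of_ge v hπ _ _ h1)
  have h3 : PowerSeries.X ^ (n + 1) ∣ f - g := by
    have h4 := (hP.add h2).sub hQ
    rw [Polynomial.coe_sub] at h4
    convert h4 using 1
    ring
  have h4 := PowerSeries.X_pow_dvd_iff.1 h3 n (Nat.lt_succ_self n)
  rwa [map_sub, sub_eq_zero] at h4

theorem ArcExp.add {v : Place Ω L} {π a b : L} {f g : PowerSeries Ω}
    (hf : ArcExp v π a f) (hg : ArcExp v π b g) : ArcExp v π (a + b) (f + g) := by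
  intro N
  obtain ⟨P, hP, hP'⟩ := hf N
  obtain ⟨Q, hQ, hQ'⟩ := hg N
  refine ⟨P + Q, ?_, ?_⟩
  · convert hP.add hQ using 1
    rw [Polynomial.coe_add]
    ring
  · convert hP'.add hQ' using 1
    rw [map_add]
    ring

theorem ArcExp.mul {v : Place Ω L} {π a b : L} (hπ : Ge v.O 0 π) (ha : Ge v.O 0 a)
    {f g : PowerSeries Ω} (hf : ArcExp v π a f) (hg : ArcExp v π b g) :
    ArcExp v π (a * b) (f * g) := by
  intro N
  obtain ⟨P, hP, hP'⟩ := hf N
  obtain ⟨Q, hQ, hQ'⟩ := hg N
  refine ⟨P * Q, ?_, ?_⟩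
  · convert (hQ.mul_left f).add (hP.mul_right (Q : PowerSeries Ω)) using 1
    rw [Polynomial.coe_mul]
    ring
  · have h1 := ha.mul hQ'
    have h2 := hP'.mul (Arc_ge_aeval v hπ Q)
    rw [zero_add] at h1
    rw [add_zero] at h2
    convert h1.add h2 using 1
    rw [map_mul]
    ring

theorem ArcExp.const (v : Place Ω L) (π : L) (c : Ω) :
    ArcExp v π (algebraMap Ω L c) (PowerSeries.C c) := by
  intro N
  exact ⟨Polynomial.C c, by simp, by simp⟩

theorem Arc_exists_exp (v : Place Ω L) (hv : Disc v.O)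
    (h : ∀ a ∈ v.O, ∃ c : Ω, Ge v.O 1 (a - algebraMap Ω L c)) {π : L} (hπ : ord v.O π = 1)
    (a : v.O) : ∃ f, ArcExp v π a f := by
  have hπ0 : π ≠ 0 := by
    rintro rfl
    simp at hπ
  have h1 : Ge v.O 1 π := Or.inr hπ.ge
  have step : ∀ b : v.O, ∃ (c : Ω) (b' : v.O), (b : L) = algebraMap Ω L c + π * b' := by
    intro b
    obtain ⟨c, hc⟩ := h b b.2
    have e : (b : L) - algebraMap Ω L c = π * (((b : L) - algebraMap Ω L c) / π) := by
      field_simp
    rw [e, ge_mul_iff hπ0, hπ, sub_self, ← mem_iff_ge (Or.inl hv)] at hc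
    refine ⟨c, ⟨_, hc⟩, ?_⟩
    rw [← e]
    ring
  choose c nx hnx using step
  refine ⟨PowerSeries.mk fun n => c (nx^[n] a), fun N => ?_⟩
  refine ⟨∑ j ∈ Finset.range N, Polynomial.monomial j (c (nx^[j] a)), ?_, ?_⟩
  · rw [PowerSeries.X_pow_dvd_iff]
    intro m hm
    rw [map_sub, PowerSeries.coeff_mk, Polynomial.coeff_coe, Polynomial.finsetSum_coeff]
    simp [Polynomial.coeff_monomial, hm]
  · have e : (a : L) - Polynomial.aeval π
        (∑ j ∈ Finset.range N, Polynomial.monomial j (c (nx^[j] a))) = π ^ N * (nx^[N] a : v.O) := by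
      induction N with
      | zero => simp
      | succ N ih =>
        rw [Finset.sum_range_succ, map_add, ← sub_sub, ih, Polynomial.aeval_monomial,
          Function.iterate_succ_apply', hnx (nx^[N] a)]
        ring
    rw [e]
    simpa using (h1.pow N).mul ((mem_iff_ge (Or.inl hv)).1 (nx^[N] a).2)

end expand

/-- power series expansion at a place of degree one -/
theorem expand {L : Type*} [Field L] [Algebra Ω L] (v : Place Ω L) (hv : Disc v.O)
    (h : ∀ a ∈ v.O, ∃ c : Ω, Ge v.O 1 (a - algebraMap Ω L c)) :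
    ∃ ex : v.O →ₐ[Ω] PowerSeries Ω, Function.Injective ex ∧
      ∀ a : v.O, PowerSeries.constantCoeff (ex a) = 0 ↔ Ge v.O 1 (a : L) := by
  obtain ⟨π, hπ0, hπ⟩ := hv.exists_ord 1
  have h1 : Ge v.O 1 π := Or.inr hπ.ge
  choose e he using Arc_exists_exp v hv h hπ
  have hc : ∀ c : Ω, e (algebraMap Ω v.O c) = PowerSeries.C c := fun c =>
    (he _).unique hπ (ArcExp.const v π c)
  let ex : v.O →ₐ[Ω] PowerSeries Ω :=
    { toFun := e
      map_one' := by simpa using hc 1
      map_zero' := by simpa using hc 0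
      map_mul' := fun a b => (he _).unique hπ
        (ArcExp.mul (h1.mono zero_le_one) ((mem_iff_ge (Or.inl hv)).1 a.2) (he a) (he b))
      map_add' := fun a b => (he _).unique hπ ((he a).add (he b))
      commutes' := fun c => hc c }
  have key : ∀ (a : v.O) (N : ℕ), PowerSeries.X ^ N ∣ e a ↔ Ge v.O N (a : L) := by
    intro a N
    obtain ⟨P, hP, hP'⟩ := he a N
    constructor
    · intro hd
      have h2 : PowerSeries.X ^ N ∣ (P : PowerSeries Ω) := by
        simpa using hd.sub hP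
      simpa using hP'.add (Arc_ge_of_dvd v hπ (Arc_coe_dvd.1 h2))
    · intro hg
      have h2 : Ge v.O N (Polynomial.aeval π P) := by
        simpa using hg.sub hP'
      simpa using hP.add (Arc_coe_dvd.2 (Arc_dvd_of_ge v hπ _ _ h2))
  refine ⟨ex, ?_, fun a => ?_⟩
  · rw [injective_iff_map_eq_zero]
    intro a ha
    have ha' : e a = 0 := ha
    rcases (key a ((ord v.O (a : L)).toNat + 1)).1 (by rw [ha']; exact dvd_zero _) with h2 | h2
    · exact Subtype.ext h2
    · push_cast at h2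
      omega
  · have h2 := key a 1
    rw [pow_one, PowerSeries.X_dvd_iff] at h2
    exact h2

theorem Arc_finite_of_gen {K L : Type*} [Field K] [Field L] [Algebra Ω K] [Algebra Ω L]
    [Algebra K L] [IsScalarTower Ω K L] [FiniteDimensional K L] {g : K} (hg : Ω⟮g⟯ = ⊤) :
    FiniteDimensional Ω⟮algebraMap K L g⟯ L := by
  have hm : ∀ x : K, algebraMap K L x ∈ Ω⟮algebraMap K L g⟯ := by
    intro x
    have h1 : IntermediateField.map (IsScalarTower.toAlgHom Ω K L) Ω⟮g⟯ =
        Ω⟮algebraMap K L g⟯ := by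
      rw [IntermediateField.adjoin_map, Set.image_singleton]
      rfl
    rw [← h1, hg]
    exact ⟨x, trivial, rfl⟩
  let : Algebra K Ω⟮algebraMap K L g⟯ :=
    ((algebraMap K L).codRestrict Ω⟮algebraMap K L g⟯ hm).toAlgebra
  have : IsScalarTower K Ω⟮algebraMap K L g⟯ L := IsScalarTower.of_algebraMap_eq fun _ => rfl
  exact Module.Finite.of_restrictScalars_finite K _ L

open scoped TensorProduct in
theorem Arc_exists_ff {R : Type u} [CommRing R] [IsDomain R] [Algebra Ω R]
    [Algebra.FiniteType Ω R] {a : R} (ha : Transcendental Ω a) :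
    ∃ (L : Type u) (_ : Field L) (_ : Algebra Ω L) (φ : R →ₐ[Ω] L),
      Transcendental Ω (φ a) ∧ FiniteDimensional Ω⟮φ a⟯ L := by
  let : Algebra (Polynomial Ω) R := (Polynomial.aeval a : (Polynomial Ω) →ₐ[Ω] R).toRingHom.toAlgebra
  have : IsScalarTower Ω (Polynomial Ω) R := IsScalarTower.of_algebraMap_eq fun c => by
    change _ = Polynomial.aeval a (algebraMap Ω (Polynomial Ω) c)
    simp
  have : Algebra.FiniteType (Polynomial Ω) R := Algebra.FiniteType.of_restrictScalars_finiteType Ω _ _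
  have hinj : Function.Injective (algebraMap (Polynomial Ω) R) := transcendental_iff_injective.1 ha
  have : Nontrivial (RatFunc Ω ⊗[Polynomial Ω] R) :=
    Algebra.TensorProduct.nontrivial_of_algebraMap_injective_of_isDomain (Polynomial Ω) (RatFunc Ω) R
      (IsFractionRing.injective _ _) hinj
  obtain ⟨m, hm⟩ := Ideal.exists_maximal (RatFunc Ω ⊗[Polynomial Ω] R)
  let : Field ((RatFunc Ω ⊗[Polynomial Ω] R) ⧸ m) := Ideal.Quotient.field m
  have : Module.Finite (RatFunc Ω) ((RatFunc Ω ⊗[Polynomial Ω] R) ⧸ m) :=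
    finite_of_finite_type_of_isJacobsonRing _ _
  let φ : R →ₐ[Ω] ((RatFunc Ω ⊗[Polynomial Ω] R) ⧸ m) :=
    (Ideal.Quotient.mkₐ Ω m).comp
      ((Algebra.TensorProduct.includeRight : R →ₐ[Polynomial Ω] RatFunc Ω ⊗[Polynomial Ω] R).restrictScalars Ω)
  have hφ : φ a = algebraMap (RatFunc Ω) ((RatFunc Ω ⊗[Polynomial Ω] R) ⧸ m) RatFunc.X := by
    have e1 : a = algebraMap (Polynomial Ω) R Polynomial.X := by
      change _ = Polynomial.aeval a Polynomial.X
      simp
    have e2 : (Algebra.TensorProduct.includeRight : R →ₐ[Polynomial Ω] RatFunc Ω ⊗[Polynomial Ω] R) a =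
        algebraMap (RatFunc Ω) (RatFunc Ω ⊗[Polynomial Ω] R) RatFunc.X := by
      conv_lhs => rw [e1]
      rw [AlgHom.commutes, ← RatFunc.algebraMap_X, ← IsScalarTower.algebraMap_apply]
    change Ideal.Quotient.mk m (Algebra.TensorProduct.includeRight a) = _
    rw [e2]
    rfl
  refine ⟨_, inferInstance, inferInstance, φ, ?_, ?_⟩
  · rw [hφ]
    exact (transcendental_algebraMap_iff (algebraMap (RatFunc Ω) _).injective).2
      RatFunc.transcendental_X
  · rw [hφ]
    exact Arc_finite_of_gen RatFunc.adjoin_X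

theorem curve [IsAlgClosed Ω] {R : Type u} [CommRing R] [IsDomain R] [Algebra Ω R]
    [Algebra.FiniteType Ω R] {a : R} (ha : Transcendental Ω a) :
    ∃ χ : R →ₐ[Ω] FractionRing (PowerSeries Ω),
      χ a ∉ (algebraMap (PowerSeries Ω) (FractionRing (PowerSeries Ω))).range := by
  obtain ⟨L, _, _, φ, ht, hfin⟩ := Arc_exists_ff ha
  have : IsFF Ω L := ⟨⟨φ a, ht, hfin⟩⟩
  obtain ⟨v, hv⟩ := exists_pole ht
  obtain ⟨ex, hinj, hex⟩ := expand v v.disc fun b hb => v.exists_res hb
  have : IsScalarTower Ω v.O L := IsScalarTower.of_algebraMap_eq fun _ => rfl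
  have hg : Function.Injective ((IsScalarTower.toAlgHom Ω (PowerSeries Ω)
      (FractionRing (PowerSeries Ω))).comp ex) :=
    (IsFractionRing.injective (PowerSeries Ω) (FractionRing (PowerSeries Ω))).comp hinj
  let Λ : L →ₐ[Ω] FractionRing (PowerSeries Ω) := IsFractionRing.liftAlgHom hg
  have hΛ : ∀ b : v.O, Λ b = algebraMap (PowerSeries Ω) _ (ex b) := fun b =>
    IsFractionRing.lift_algebraMap (K := L) hg b
  have hf0 : φ a ≠ 0 := by
    intro h0
    rw [h0, ord_zero] at hv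
    exact lt_irrefl _ hv
  have hge : Ge v.O 1 (φ a)⁻¹ := Or.inr (by rw [ord_inv]; omega)
  have hmem : (φ a)⁻¹ ∈ v.O := (mem_iff_ge (Or.inl v.disc)).2 (hge.mono zero_le_one)
  refine ⟨Λ.comp φ, ?_⟩
  rintro ⟨g, hg'⟩
  have h1 : algebraMap (PowerSeries Ω) (FractionRing (PowerSeries Ω)) (g * ex ⟨_, hmem⟩) =
      algebraMap (PowerSeries Ω) _ 1 := by
    rw [map_mul, hg', ← hΛ, map_one, AlgHom.comp_apply, ← map_mul, mul_inv_cancel₀ hf0, map_one]
  have h2 := congrArg PowerSeries.constantCoeff (IsFractionRing.injective _ _ h1)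
  rw [map_mul, (hex ⟨_, hmem⟩).2 hge, mul_zero, map_one] at h2
  exact zero_ne_one h2

section fincoeff
variable {R : Type*} [CommRing R] [Algebra Ω R]

theorem Arc_finCoeff_iff {f : PowerSeries R} :
    FinCoeff Ω f ↔ ∃ W : Submodule Ω R, W.FG ∧ ∀ i, PowerSeries.coeff i f ∈ W := by
  constructor
  · rintro ⟨s, hs⟩
    exact ⟨_, ⟨s, rfl⟩, hs⟩
  · rintro ⟨W, ⟨s, rfl⟩, hs⟩
    exact ⟨s, hs⟩

theorem Arc_finCoeff_add {f g : PowerSeries R} (hf : FinCoeff Ω f) (hg : FinCoeff Ω g) :
    FinCoeff Ω (f + g) := by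
  rw [Arc_finCoeff_iff] at hf hg ⊢
  obtain ⟨W, hW, hf⟩ := hf
  obtain ⟨W', hW', hg⟩ := hg
  refine ⟨W ⊔ W', hW.sup hW', fun i => ?_⟩
  rw [map_add]
  exact Submodule.add_mem_sup (hf i) (hg i)

theorem Arc_finCoeff_mul {f g : PowerSeries R} (hf : FinCoeff Ω f) (hg : FinCoeff Ω g) :
    FinCoeff Ω (f * g) := by
  rw [Arc_finCoeff_iff] at hf hg ⊢
  obtain ⟨W, hW, hf⟩ := hf
  obtain ⟨W', hW', hg⟩ := hg
  refine ⟨W * W', hW.mul hW', fun i => ?_⟩
  rw [PowerSeries.coeff_mul]
  exact Submodule.sum_mem _ fun p _ => Submodule.mul_mem_mul (hf _) (hg _)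

theorem Arc_finCoeff_C (c : R) : FinCoeff Ω (PowerSeries.C c) := by
  refine ⟨{c}, fun i => ?_⟩
  rw [PowerSeries.coeff_C]
  split_ifs
  · exact Submodule.subset_span (by simp)
  · exact Submodule.zero_mem _

theorem Arc_finCoeff_one : FinCoeff Ω (1 : PowerSeries R) := by
  simpa using Arc_finCoeff_C (Ω := Ω) (1 : R)

theorem Arc_finCoeff_map {R' : Type*} [CommRing R'] [Algebra Ω R'] {f : PowerSeries R}
    (hf : FinCoeff Ω f) (χ : R →ₐ[Ω] R') : FinCoeff Ω (PowerSeries.map (χ : R →+* R') f) := by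
  rw [Arc_finCoeff_iff] at hf ⊢
  obtain ⟨W, hW, hf⟩ := hf
  refine ⟨W.map χ.toLinearMap, hW.map _, fun i => ?_⟩
  rw [PowerSeries.coeff_map]
  exact Submodule.mem_map_of_mem (hf i)

end fincoeff

theorem Germs.map {k F R R' : Type*} [Field k] [Field F] [Algebra k F] [CommRing R] [Algebra Ω R]
    [CommRing R'] [Algebra Ω R'] {x : F →+* Ω} {S : F →+* PowerSeries R} (h : Germs k x S)
    (χ : R →ₐ[Ω] R') : Germs k x ((PowerSeries.map (χ : R →+* R')).comp S) := by
  refine ⟨fun a => ?_, fun c => ?_, fun a => ?_⟩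
  · rw [RingHom.comp_apply, ← PowerSeries.coeff_zero_eq_constantCoeff_apply, PowerSeries.coeff_map,
      PowerSeries.coeff_zero_eq_constantCoeff_apply, h.zero]
    exact χ.commutes _
  · rw [RingHom.comp_apply, h.const, PowerSeries.map_C]
    exact congrArg _ (χ.commutes _)
  · obtain ⟨f, g, hf, hg, hu, e⟩ := h.bd a
    refine ⟨_, _, Arc_finCoeff_map hf χ, Arc_finCoeff_map hg χ, hu.map _, ?_⟩
    rw [RingHom.comp_apply, ← map_mul, e]

theorem Germs.comp {k K F R : Type*} [Field k] [Field K] [Field F] [Algebra k K] [Algebra k F]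
    [Algebra K F] [IsScalarTower k K F] [CommRing R] [Algebra Ω R] {x : F →+* Ω}
    {S : F →+* PowerSeries R} (h : Germs k x S) :
    Germs k (x.comp (algebraMap K F)) (S.comp (algebraMap K F)) := by
  refine ⟨fun a => h.zero _, fun c => ?_, fun a => h.bd _⟩
  rw [RingHom.comp_apply, RingHom.comp_apply, ← IsScalarTower.algebraMap_apply]
  exact h.const c

/-- algebraisation criterion: `Germs.bd` only has to be checked on generators -/
theorem germs_of_gen {k F R : Type*} [Field k] [Field F] [Algebra k F] [CommRing R] [Algebra Ω R]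
    {x : F →+* Ω} {S : F →+* PowerSeries R}
    (h0 : ∀ a, PowerSeries.constantCoeff (S a) = algebraMap Ω R (x a))
    (hc : ∀ c : k, S (algebraMap k F c) = PowerSeries.C (algebraMap Ω R (x (algebraMap k F c))))
    {T : Set F} (hT : IntermediateField.adjoin k T = ⊤)
    (hb : ∀ a ∈ T, ∃ f g, FinCoeff Ω f ∧ FinCoeff Ω g ∧ IsUnit g ∧ S a * g = f) :
    Germs k x S := by
  refine ⟨h0, hc, fun a => ?_⟩
  have ha : a ∈ IntermediateField.adjoin k T := by
    rw [hT]
    trivial
  induction ha using IntermediateField.adjoin_induction with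
  | mem a ha => exact hb a ha
  | algebraMap c =>
    exact ⟨_, 1, Arc_finCoeff_C _, Arc_finCoeff_one, isUnit_one, by rw [mul_one, hc]⟩
  | add a b _ _ iha ihb =>
    obtain ⟨f, g, hf, hg, hu, e⟩ := iha
    obtain ⟨f', g', hf', hg', hu', e'⟩ := ihb
    refine ⟨f * g' + g * f', g * g',
      Arc_finCoeff_add (Arc_finCoeff_mul hf hg') (Arc_finCoeff_mul hg hf'),
      Arc_finCoeff_mul hg hg', hu.mul hu', ?_⟩
    rw [map_add, ← e, ← e']
    ring
  | inv a _ iha =>
    by_cases ha0 : a = 0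
    · rw [ha0, inv_zero, ← ha0]
      exact iha
    · obtain ⟨f, g, hf, hg, hu, e⟩ := iha
      refine ⟨g, f, hg, hf, ?_, ?_⟩
      · rw [← e]
        exact ((IsUnit.mk0 a ha0).map S).mul hu
      · rw [← e, ← mul_assoc, ← map_mul, inv_mul_cancel₀ ha0, map_one, one_mul]
  | mul a b _ _ iha ihb =>
    obtain ⟨f, g, hf, hg, hu, e⟩ := iha
    obtain ⟨f', g', hf', hg', hu', e'⟩ := ihb
    refine ⟨f * f', g * g', Arc_finCoeff_mul hf hf', Arc_finCoeff_mul hg hg', hu.mul hu', ?_⟩
    rw [map_mul, ← e, ← e']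
    ring

end Pool.Agent.Lib.MP_7fcda1_ag
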