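import Pool.Agent.Lib.MP_7fcda1_ag.Plc1

open scoped IntermediateField Polynomial WithZero
open Module

noncomputable section

universe u

namespace Pool.Agent.Lib.MP_7fcda1_ag

section val
variable {Γ : Type*} [LinearOrderedCommGroupWithZero Γ] {ι : Type}

/-- the term `(i, j)` is a largest term on the disc of radius `r` -/
def Plc2Mx (a : ι → ℕ → Γ) (r : Γ) (i : ι) (j : ℕ) : Prop :=
  a i j ≠ 0 ∧ ∀ i' j', a i' j' * r ^ j' ≤ a i j * r ^ j

theorem Plc2_shift {x y r : Γ} (hr : r ≠ 0) {j m : ℕ} :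
    x * r ^ j ≤ y * r ^ (j + m) ↔ x ≤ y * r ^ m := by
  rw [pow_add, mul_comm (r ^ j) (r ^ m), ← mul_assoc]
  exact mul_le_mul_iff_left₀ (zero_lt_iff.2 (pow_ne_zero _ hr))

theorem Plc2_shift' {x y r : Γ} (hr : r ≠ 0) {j m : ℕ} :
    y * r ^ (j + m) ≤ x * r ^ j ↔ y * r ^ m ≤ x := by
  rw [pow_add, mul_comm (r ^ j) (r ^ m), ← mul_assoc]
  exact mul_le_mul_iff_left₀ (zero_lt_iff.2 (pow_ne_zero _ hr))

/-- a largest term dominates the earlier terms on every larger disc -/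
theorem Plc2Mx.le_of_le {a : ι → ℕ → Γ} {r s : Γ} (hr : r ≠ 0) (hrs : r ≤ s) {i : ι} {j : ℕ}
    (h : Plc2Mx a r i j) (i' : ι) {j' : ℕ} (hj : j' ≤ j) : a i' j' * s ^ j' ≤ a i j * s ^ j := by
  have hs : s ≠ 0 := fun h0 => hr (le_zero_iff.1 (h0 ▸ hrs))
  obtain ⟨m, rfl⟩ := Nat.exists_eq_add_of_le hj
  have h1 := (Plc2_shift hr).1 (h.2 i' j')
  rw [Plc2_shift hs]
  exact h1.trans (mul_le_mul_right (pow_le_pow_left₀ zero_le hrs m) _)

/-- strict version -/
theorem Plc2Mx.lt_of_lt {a : ι → ℕ → Γ} {r s : Γ} (hr : r ≠ 0) (hrs : r < s) {i : ι} {j : ℕ}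
    (h : Plc2Mx a r i j) (i' : ι) {j' : ℕ} (hj : j' < j) : a i' j' * s ^ j' < a i j * s ^ j := by
  have hs : s ≠ 0 := fun h0 => not_lt_zero (h0 ▸ hrs)
  obtain ⟨m, rfl⟩ := Nat.exists_eq_add_of_le hj.le
  have hm : m ≠ 0 := by omega
  have h1 := (Plc2_shift hr).1 (h.2 i' j')
  rw [← not_le, Plc2_shift' hs, not_le]
  refine h1.trans_lt ?_
  exact mul_lt_mul_of_pos_left (pow_lt_pow_left₀ hrs zero_le hm) (zero_lt_iff.2 h.1)

end val

variable {E Ω : Type*} [Field E] [Field Ω] {ι : Type}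

/-- valuations of the coefficients -/
def Plc2A (P : Plc E Ω) (w : ι → Polynomial E) (i : ι) (j : ℕ) : P.V.ValueGroup :=
  P.V.valuation ((w i).coeff j)

theorem Plc2_to_le {P : Plc E Ω} {a : E} {b : Ω} (h : P.To a b) : P.V.valuation a ≤ 1 := by
  obtain ⟨h, -⟩ := h
  exact (P.V.valuation_le_one_iff a).2 h

theorem Plc2_in_iff {P : Plc E Ω} {w : ι → Polynomial E} {ρ : E} {π : ι → Polynomial Ω}
    (h : P.In w ρ π) (i : ι) (j : ℕ) (hρ : ρ ≠ 0) :
    (π i).coeff j ≠ 0 ↔ Plc2Mx (Plc2A P w) (P.V.valuation ρ) i j := by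
  obtain ⟨hπ, l, hl⟩ := h
  obtain ⟨i₀, hi₀⟩ := Function.ne_iff.1 hπ
  obtain ⟨j₀, hj₀⟩ : ∃ j₀, (π i₀).coeff j₀ ≠ 0 := by
    by_contra hc
    push Not at hc
    exact hi₀ (Polynomial.ext hc)
  have e : ∀ i j, P.V.valuation (l * (w i).coeff j * ρ ^ j) =
      P.V.valuation l * (Plc2A P w i j * P.V.valuation ρ ^ j) := by
    intro i j
    simp [Plc2A, mul_assoc]
  have h0 := (hl i₀ j₀).val_eq_one_iff.2 hj₀
  have hl0 : P.V.valuation l ≠ 0 := by
    intro h0'
    rw [e, h0', zero_mul] at h0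
    exact zero_ne_one h0
  have hlp : 0 < P.V.valuation l := zero_lt_iff.2 hl0
  rw [← (hl i j).val_eq_one_iff]
  constructor
  · intro h1
    refine ⟨?_, fun i' j' => ?_⟩
    · intro h2
      rw [e, h2, zero_mul, mul_zero] at h1
      exact zero_ne_one h1
    · have h3 := Plc2_to_le (hl i' j')
      rw [← h1, e, e] at h3
      exact (mul_le_mul_iff_right₀ hlp).1 h3
  · intro hm
    refine le_antisymm (Plc2_to_le (hl i j)) ?_
    rw [← h0, e, e]
    exact (mul_le_mul_iff_right₀ hlp).2 (hm.2 i₀ j₀)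

theorem Plc2_in_sp {P : Plc E Ω} {w : ι → Polynomial E} {ρ : E} {π : ι → Polynomial Ω}
    (h : P.In w ρ π) {j : ℕ} (hj : (fun i => (π i).coeff j) ≠ 0) :
    P.Sp (fun i => (w i).coeff j) fun i => (π i).coeff j := by
  obtain ⟨-, l, hl⟩ := h
  refine ⟨hj, l * ρ ^ j, fun i => ?_⟩
  have := hl i j
  rwa [mul_right_comm] at this

theorem Plc2_in_zero {P : Plc E Ω} {w : ι → Polynomial E} {ρ : E} {π : ι → Polynomial Ω}
    (h : P.In w ρ π) {i : ι} {j : ℕ} (hj : (w i).coeff j = 0) : (π i).coeff j = 0 := by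
  obtain ⟨-, l, hl⟩ := h
  have := hl i j
  rw [hj, mul_zero, zero_mul] at this
  exact this.unique Plc.to_zero

theorem Plc2_in_ne {P : Plc E Ω} {w : ι → Polynomial E} {ρ : E} {π : ι → Polynomial Ω}
    (h : P.In w ρ π) : w ≠ 0 := by
  rintro rfl
  refine h.1 (funext fun i => Polynomial.ext fun j => ?_)
  exact Plc2_in_zero h (by simp)

theorem Plc2_fin [Finite ι] (w : ι → Polynomial E) :
    {q : ι × ℕ | (w q.1).coeff q.2 ≠ 0}.Finite := by
  refine (Set.finite_iUnion fun i => ((w i).support.finite_toSet.image (Prod.mk i))).subset ?_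
  rintro ⟨i, j⟩ h
  exact Set.mem_iUnion.2 ⟨i, j, by simpa using h, rfl⟩

/-- coefficientwise specialisation of polynomials -/
def Plc2PT (P : Plc E Ω) (p : Polynomial E) (q : Polynomial Ω) : Prop :=
  ∀ j, P.To (p.coeff j) (q.coeff j)

variable {P : Plc E Ω} {p p' : Polynomial E} {q q' : Polynomial Ω}

theorem Plc2PT.add (h : Plc2PT P p q) (h' : Plc2PT P p' q') : Plc2PT P (p + p') (q + q') := by
  intro j
  rw [Polynomial.coeff_add, Polynomial.coeff_add]
  exact (h j).add (h' j)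

theorem Plc2PT.mul (h : Plc2PT P p q) (h' : Plc2PT P p' q') : Plc2PT P (p * p') (q * q') := by
  intro j
  rw [Polynomial.coeff_mul, Polynomial.coeff_mul]
  exact Plc.To.sum fun x _ => (h x.1).mul (h' x.2)

theorem Plc2PT.C {a : E} {b : Ω} (h : P.To a b) : Plc2PT P (Polynomial.C a) (Polynomial.C b) := by
  intro j
  rw [Polynomial.coeff_C, Polynomial.coeff_C]
  split_ifs
  · exact h
  · exact Plc.to_zero

theorem Plc2PT.X : Plc2PT P Polynomial.X Polynomial.X := by
  intro j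
  rw [Polynomial.coeff_X, Polynomial.coeff_X]
  split_ifs
  · exact Plc.to_one
  · exact Plc.to_zero

theorem Plc2PT.pow (h : Plc2PT P p q) (n : ℕ) : Plc2PT P (p ^ n) (q ^ n) := by
  induction n with
  | zero =>
    rw [pow_zero, pow_zero, ← Polynomial.C_1, ← Polynomial.C_1]
    exact Plc2PT.C Plc.to_one
  | succ n ih =>
    rw [pow_succ, pow_succ]
    exact ih.mul h

theorem Plc2PT.sum {σ : Type*} {s : Finset σ} {f : σ → Polynomial E} {g : σ → Polynomial Ω}
    (h : ∀ i ∈ s, Plc2PT P (f i) (g i)) : Plc2PT P (∑ i ∈ s, f i) (∑ i ∈ s, g i) := by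
  intro j
  rw [Polynomial.finsetSum_coeff, Polynomial.finsetSum_coeff]
  exact Plc.To.sum fun i hi => h i hi j

theorem Plc2PT.comp (h : Plc2PT P p q) (h' : Plc2PT P p' q') :
    Plc2PT P (p.comp p') (q.comp q') := by
  rw [Polynomial.comp, Polynomial.comp,
    Polynomial.eval₂_eq_sum_range' _ (Nat.lt_succ_of_le (le_max_left p.natDegree q.natDegree)),
    Polynomial.eval₂_eq_sum_range' _ (Nat.lt_succ_of_le (le_max_right p.natDegree q.natDegree))]
  exact Plc2PT.sum fun i _ => (Plc2PT.C (h i)).mul (h'.pow i)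

theorem Plc2PT.aeval {k : Type*} [Field k] [Algebra k E] [Algebra k Ω] (hP : P.Over k)
    {W : ι → Polynomial E} {π : ι → Polynomial Ω} (h : ∀ i, Plc2PT P (W i) (π i))
    (G : MvPolynomial ι k) : Plc2PT P (MvPolynomial.aeval W G) (MvPolynomial.aeval π G) := by
  induction G using MvPolynomial.induction_on with
  | C a =>
    rw [MvPolynomial.aeval_C, MvPolynomial.aeval_C, Polynomial.algebraMap_apply,
      Polynomial.algebraMap_apply]
    exact Plc2PT.C (hP a)
  | add f g hf hg =>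
    rw [map_add, map_add]
    exact hf.add hg
  | mul_X f i hf =>
    rw [map_mul, map_mul, MvPolynomial.aeval_X, MvPolynomial.aeval_X]
    exact hf.mul (h i)

theorem Plc2_coeff (l ρ : E) (p : Polynomial E) (j : ℕ) :
    (Polynomial.C l * p.comp (Polynomial.C ρ * Polynomial.X)).coeff j = l * p.coeff j * ρ ^ j := by
  rw [Polynomial.coeff_C_mul, Polynomial.comp_C_mul_X_coeff, mul_assoc]

theorem Plc2_in_on {k K : Type*} [Field k] [Field K] [Algebra k K] [Algebra k E] [Algebra k Ω]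
    (hP : P.Over k) {ξ : ι → K} {w : ι → Polynomial E} {ρ : E} {π : ι → Polynomial Ω}
    (hw : On k ξ w) (h : P.In w ρ π) : On k ξ π := by
  obtain ⟨-, l, hl⟩ := h
  have h1 := (hw.map ((Polynomial.aeval (Polynomial.C ρ * Polynomial.X) :
    Polynomial E →ₐ[E] Polynomial E).restrictScalars k)).smul (Polynomial.C l)
  intro d G hG h0
  have h2 := h1 d G hG h0
  have h3 : ∀ i, Plc2PT P ((Polynomial.C l • fun i => ((Polynomial.aeval
      (Polynomial.C ρ * Polynomial.X) : Polynomial E →ₐ[E] Polynomial E).restrictScalars k) (w i))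
      i) (π i) := by
    intro i j
    have e := Plc2_coeff l ρ (w i) j
    rw [Polynomial.comp_eq_aeval] at e
    have := hl i j
    rw [← e] at this
    exact this
  have h4 := Plc2PT.aeval hP h3 G
  rw [h2] at h4
  ext j
  exact (h4 j).unique (by simpa using Plc.to_zero)

end Pool.Agent.Lib.MP_7fcda1_ag
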