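import Pool.Agent.Lib.MP_7fcda1_ag.Plc2

open scoped IntermediateField Polynomial WithZero
open Module

noncomputable section

universe u

namespace Pool.Agent.Lib.MP_7fcda1_ag


variable {Ω : Type u} [Field Ω]

theorem BB1_val_coeff {E : Type*} [Field E] (O : ValuationSubring E) (φ : PowerSeries Ω →+* E)
    (hO : ∀ a, φ a ∈ O) {c : PowerSeries Ω} (hc : c ≠ 0) :
    ∃ n : ℕ, O.valuation (φ c) = O.valuation (φ PowerSeries.X) ^ n := by
  refine ⟨c.order.toNat, ?_⟩
  have hu : IsUnit (PowerSeries.divXPowOrder c) := PowerSeries.isUnit_divided_by_X_pow_order hc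
  have h1 : O.valuation (φ (PowerSeries.divXPowOrder c)) = 1 := by
    have := (hu.map (φ.codRestrict O hO))
    exact (O.valuation_eq_one_iff _).1 this
  conv_lhs => rw [← PowerSeries.X_pow_order_mul_divXPowOrder (f := c)]
  rw [map_mul, map_pow, map_mul, map_pow, h1, mul_one]

theorem BB1_two_terms {E : Type*} [Field E] [Algebra (PowerSeries Ω) E]
    [FaithfulSMul (PowerSeries Ω) E] (O : ValuationSubring E)
    (hO : ∀ a, algebraMap (PowerSeries Ω) E a ∈ O) {b : E} (hb : b ≠ 0)
    (hal : IsAlgebraic (PowerSeries Ω) b) :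
    ∃ m n n' : ℕ, 0 < m ∧ O.valuation (algebraMap (PowerSeries Ω) E PowerSeries.X) ^ n =
      O.valuation (algebraMap (PowerSeries Ω) E PowerSeries.X) ^ n' * O.valuation b ^ m := by
  classical
  obtain ⟨p, hp0, hp⟩ := hal
  rw [Polynomial.aeval_def, Polynomial.eval₂_eq_sum, Polynomial.sum_def] at hp
  set F : ℕ → E := fun i => algebraMap (PowerSeries Ω) E (p.coeff i) * b ^ i with hF
  obtain ⟨j, hj, hmax⟩ := Finset.exists_max_image p.support (fun i => O.valuation (F i))
    (Polynomial.support_nonempty.2 hp0)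
  have hne : ∀ i ∈ p.support, F i ≠ 0 := by
    intro i hi
    refine mul_ne_zero ?_ (pow_ne_zero _ hb)
    rw [Ne, map_eq_zero_iff _ (FaithfulSMul.algebraMap_injective _ _)]
    exact Polynomial.mem_support_iff.1 hi
  have hex : ∃ i ∈ p.support, i ≠ j ∧ O.valuation (F i) = O.valuation (F j) := by
    by_contra hcon
    push Not at hcon
    have := O.valuation.map_sum_eq_of_lt (f := F) hj (fun i hi => by
      rw [Finset.mem_sdiff, Finset.mem_singleton] at hi
      exact lt_of_le_of_ne (hmax i hi.1) (hcon i hi.1 hi.2))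
    rw [hp, map_zero] at this
    exact hne j hj (O.valuation.zero_iff.1 this.symm)
  have key : ∀ i ∈ p.support, ∀ j ∈ p.support, i < j →
      O.valuation (F i) = O.valuation (F j) →
      ∃ m n n' : ℕ, 0 < m ∧ O.valuation (algebraMap (PowerSeries Ω) E PowerSeries.X) ^ n =
      O.valuation (algebraMap (PowerSeries Ω) E PowerSeries.X) ^ n' * O.valuation b ^ m := by
    intro i hi j hj hij h
    obtain ⟨n, hn⟩ := BB1_val_coeff O (algebraMap (PowerSeries Ω) E) hO
      (Polynomial.mem_support_iff.1 hi)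
    obtain ⟨n', hn'⟩ := BB1_val_coeff O (algebraMap (PowerSeries Ω) E) hO
      (Polynomial.mem_support_iff.1 hj)
    refine ⟨j - i, n, n', by omega, ?_⟩
    have hb' : O.valuation b ^ i ≠ 0 := pow_ne_zero _ (O.valuation.ne_zero_iff.2 hb)
    apply mul_right_cancel₀ hb'
    simp only [hF, map_mul, map_pow, hn, hn'] at h
    rw [h, mul_assoc, ← pow_add, Nat.sub_add_cancel hij.le]
  obtain ⟨i, hi, hij, h⟩ := hex
  rcases lt_or_gt_of_ne hij with h' | h'
  · exact key i hi j hj h' h
  · exact key j hj i hi h' h.symm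

/-- the valued field of Puiseux-type series is archimedean -/
theorem exists_valued {E : Type u} [Field E] [Algebra (PowerSeries Ω) E]
    [FaithfulSMul (PowerSeries Ω) E] [Algebra.IsAlgebraic (PowerSeries Ω) E] :
    ∃ O : ValuationSubring E, (∀ a, algebraMap (PowerSeries Ω) E a ∈ O) ∧
      O.valuation (algebraMap (PowerSeries Ω) E PowerSeries.X) < 1 ∧
      ∀ a b : E, O.valuation a < 1 → b ≠ 0 → ∃ N : ℕ, O.valuation a ^ N < O.valuation b := by
  obtain ⟨P, hP⟩ := exists_plc_of_hom (algebraMap (PowerSeries Ω) E)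
    ((algebraMap Ω (AlgebraicClosure Ω)).comp PowerSeries.constantCoeff) (fun r hr => by
      rw [map_eq_zero_iff _ (FaithfulSMul.algebraMap_injective _ _)] at hr
      rw [hr, map_zero])
  have hO : ∀ a, algebraMap (PowerSeries Ω) E a ∈ P.V := fun a => (hP a).1
  have ht : P.V.valuation (algebraMap (PowerSeries Ω) E PowerSeries.X) < 1 := by
    have := hP PowerSeries.X
    simp only [RingHom.comp_apply, PowerSeries.constantCoeff_X, map_zero] at this
    exact Plc.to_zero_iff.1 this
  refine ⟨P.V, hO, ht, fun a b ha hb => ?_⟩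
  have hb0 : 0 < P.V.valuation b := zero_lt_iff.2 (P.V.valuation.ne_zero_iff.2 hb)
  by_cases ha0 : a = 0
  · exact ⟨1, by simpa [ha0] using hb0⟩
  by_cases hb1 : 1 ≤ P.V.valuation b
  · exact ⟨1, by simpa using lt_of_lt_of_le ha hb1⟩
  rw [not_le] at hb1
  set τ := P.V.valuation (algebraMap (PowerSeries Ω) E PowerSeries.X) with hτ
  have hτ0 : 0 < τ := by
    refine zero_lt_iff.2 (P.V.valuation.ne_zero_iff.2 ?_)
    rw [Ne, map_eq_zero_iff _ (FaithfulSMul.algebraMap_injective _ _)]
    exact PowerSeries.X_ne_zero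
  obtain ⟨m, n, n', hm, h⟩ := BB1_two_terms P.V hO ha0 (Algebra.IsAlgebraic.isAlgebraic a)
  obtain ⟨m₁, p, p', hm₁, h₁⟩ := BB1_two_terms P.V hO hb (Algebra.IsAlgebraic.isAlgebraic b)
  rw [← hτ] at h h₁
  have ham : P.V.valuation a ^ m < 1 := pow_lt_one₀ zero_le ha hm.ne'
  have hnn : n' < n := by
    by_contra hcon
    rw [not_lt] at hcon
    have h2 : τ ^ n' ≤ τ ^ n := pow_le_pow_of_le_one zero_le ht.le hcon
    have h3 : τ ^ n' * P.V.valuation a ^ m < τ ^ n' * 1 :=
      mul_lt_mul_of_pos_left ham (pow_pos hτ0 _)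
    rw [← h, mul_one] at h3
    exact absurd h2 (not_le.2 h3)
  have ha1 : P.V.valuation a ^ m ≤ τ := by
    have h2 : τ ^ n ≤ τ ^ (n' + 1) := pow_le_pow_of_le_one zero_le ht.le hnn
    rw [h, pow_succ] at h2
    exact le_of_mul_le_mul_left h2 (pow_pos hτ0 _)
  have hb2 : τ ^ p ≤ P.V.valuation b := by
    rw [h₁]
    calc τ ^ p' * P.V.valuation b ^ m₁ ≤ 1 * P.V.valuation b ^ 1 :=
          mul_le_mul' (pow_le_one₀ zero_le ht.le) (pow_le_pow_of_le_one zero_le hb1.le hm₁)
      _ = P.V.valuation b := by simp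
  refine ⟨m * (p + 1), ?_⟩
  calc P.V.valuation a ^ (m * (p + 1)) = (P.V.valuation a ^ m) ^ (p + 1) := pow_mul _ _ _
    _ ≤ τ ^ (p + 1) := pow_le_pow_left₀ zero_le ha1 _
    _ < τ ^ p := pow_lt_pow_right_of_lt_one₀ hτ0 ht (Nat.lt_succ_self p)
    _ ≤ _ := hb2

/-- a relation between integral power series and the coordinate of a disc reduces to zero -/
theorem BB1_key {A k₀ : Type*} [CommRing A] [IsDomain A] [CommRing k₀] (r : A →+* k₀)
    {s ρ μ s' ρ' m : A} (hρ : ρ ≠ 0) (hs' : s = μ * s') (hρ' : ρ = μ * ρ') (hμ : r μ = 0)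
    (hm : r m = 0) {J N : ℕ} (hN : μ ^ (N + 1) = ρ ^ J * m) (g : ℕ → PowerSeries A)
    (h : ∑ j ∈ Finset.range (J + 1),
      g j * (PowerSeries.X - PowerSeries.C s) ^ j * PowerSeries.C ρ ^ (J - j) = 0) :
    ∑ j ∈ Finset.range (J + 1),
      Polynomial.C (r (PowerSeries.constantCoeff (g j))) * Polynomial.X ^ j = 0 := by
  set t : ℕ → A[X] := fun j => PowerSeries.trunc (N + 1) (g j) with ht
  set W : A[X] := ∑ j ∈ Finset.range (J + 1),
    t j * (Polynomial.X - Polynomial.C s) ^ j * Polynomial.C ρ ^ (J - j) with hW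
  have hdvd : Polynomial.X ^ (N + 1) ∣ W := by
    have h1 : (PowerSeries.X : PowerSeries A) ^ (N + 1) ∣ (W : PowerSeries A) := by
      have h2 : (W : PowerSeries A) = ∑ j ∈ Finset.range (J + 1),
          ((t j : PowerSeries A) - g j) * (PowerSeries.X - PowerSeries.C s) ^ j *
            PowerSeries.C ρ ^ (J - j) := by
        simp only [sub_mul, Finset.sum_sub_distrib, h, sub_zero]
        rw [hW, ← Polynomial.coeToPowerSeries.ringHom_apply, map_sum]
        refine Finset.sum_congr rfl fun j _ => ?_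
        simp [Polynomial.coeToPowerSeries.ringHom_apply]
      rw [h2]
      refine Finset.dvd_sum fun j _ => Dvd.dvd.mul_right (Dvd.dvd.mul_right ?_ _) _
      rw [PowerSeries.X_pow_dvd_iff]
      intro d hd
      simp [ht, PowerSeries.coeff_trunc, hd]
    rw [Polynomial.X_pow_dvd_iff]
    intro d hd
    have := PowerSeries.X_pow_dvd_iff.1 h1 d hd
    rwa [Polynomial.coeff_coe] at this
  obtain ⟨W₁, hW₁⟩ := hdvd
  set y : A[X] := Polynomial.C s + Polynomial.C ρ * Polynomial.X with hy
  have h3 : W.comp y = Polynomial.C ρ ^ J *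
      ∑ j ∈ Finset.range (J + 1), (t j).comp y * Polynomial.X ^ j := by
    rw [hW, Polynomial.sum_comp, Finset.mul_sum]
    refine Finset.sum_congr rfl fun j hj => ?_
    have hj' : j ≤ J := Nat.lt_succ_iff.1 (Finset.mem_range.1 hj)
    have : (Polynomial.C ρ : A[X]) ^ J = Polynomial.C ρ ^ j * Polynomial.C ρ ^ (J - j) := by
      rw [← pow_add, Nat.add_sub_cancel' hj']
    rw [this]
    simp only [Polynomial.mul_comp, Polynomial.pow_comp, Polynomial.sub_comp, Polynomial.X_comp,
      Polynomial.C_comp, hy]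
    ring
  have h4 : W.comp y = Polynomial.C ρ ^ J * (Polynomial.C m *
      ((Polynomial.C s' + Polynomial.C ρ' * Polynomial.X) ^ (N + 1) * W₁.comp y)) := by
    have hy' : y = Polynomial.C μ * (Polynomial.C s' + Polynomial.C ρ' * Polynomial.X) := by
      rw [hy, hs', hρ', map_mul, map_mul]; ring
    have hN' : (Polynomial.C μ : A[X]) ^ (N + 1) = Polynomial.C ρ ^ J * Polynomial.C m := by
      rw [← map_pow, hN, map_mul, map_pow]
    rw [hW₁, Polynomial.mul_comp, Polynomial.pow_comp, Polynomial.X_comp]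
    conv_lhs => enter [1]; rw [hy', mul_pow, hN']
    ring
  have h5 := mul_left_cancel₀ (pow_ne_zero J (Polynomial.C_ne_zero.2 hρ)) (h3.symm.trans h4)
  have h6 := congrArg (Polynomial.map r) h5
  rw [Polynomial.map_mul, Polynomial.map_C, hm, map_zero, zero_mul, Polynomial.map_sum] at h6
  rw [← h6]
  refine Finset.sum_congr rfl fun j _ => ?_
  have hy0 : y.map r = 0 := by
    rw [hy, hs', hρ']
    simp [hμ]
  rw [Polynomial.map_mul, Polynomial.map_comp, hy0, Polynomial.comp_zero, Polynomial.map_pow,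
    Polynomial.map_X, ← Polynomial.coeff_zero_eq_eval_zero, Polynomial.coeff_map]
  simp [ht, PowerSeries.coeff_trunc]

theorem BB1_div {E : Type*} [Field E] (O : ValuationSubring E) {a b : E}
    (h : O.valuation a ≤ O.valuation b) : a / b ∈ O := by
  rw [← O.valuation_le_one_iff, map_div₀]
  exact div_le_one_of_le₀ h zero_le

/-- the valuation ring of a disc -/
theorem exists_disc {E : Type u} [Field E] (O : ValuationSubring E)
    (harch : ∀ a b : E, O.valuation a < 1 → b ≠ 0 → ∃ N : ℕ, O.valuation a ^ N < O.valuation b)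
    {M : Type u} [Field M] (i : PowerSeries E →+* M) (hi : Function.Injective i) {s ρ : E}
    (hρ : ρ ≠ 0) (hs : O.valuation s < 1) (hρ' : O.valuation ρ < 1) :
    ∃ V : ValuationSubring M, IsDisc O i s ρ V := by
  classical
  set σ : M := i (PowerSeries.X - PowerSeries.C s) / i (PowerSeries.C ρ) with hσ
  set j₀ : PowerSeries O →+* M := i.comp (PowerSeries.map O.subtype) with hj₀
  set I : (PowerSeries O)[X] →+* M := Polynomial.eval₂RingHom j₀ σ with hI
  set r : O →+* IsLocalRing.ResidueField O := IsLocalRing.residue O with hr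
  set φ₀ : (PowerSeries O)[X] →+* (IsLocalRing.ResidueField O)[X] :=
    Polynomial.mapRingHom (r.comp PowerSeries.constantCoeff) with hφ₀
  set χ : (IsLocalRing.ResidueField O)[X] →+*
      AlgebraicClosure (RatFunc (IsLocalRing.ResidueField O)) :=
    (algebraMap (RatFunc (IsLocalRing.ResidueField O)) _).comp (algebraMap _ _) with hχ
  have hχi : Function.Injective χ :=
    (algebraMap (RatFunc (IsLocalRing.ResidueField O)) _).injective.comp
      (IsFractionRing.injective _ _)
  have hCρ : i (PowerSeries.C ρ) ≠ 0 := by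
    rw [Ne, map_eq_zero_iff _ hi, map_eq_zero_iff _ PowerSeries.C_injective]
    exact hρ
  have hrz : ∀ a : O, O.valuation (a : E) < 1 → r a = 0 := fun a ha =>
    (IsLocalRing.residue_eq_zero_iff _).2 ((O.valuation_lt_one_iff a).2 ha)
  have hsO : s ∈ O := O.valuation_le_one_iff _ |>.1 hs.le
  have hρO : ρ ∈ O := O.valuation_le_one_iff _ |>.1 hρ'.le
  obtain ⟨μ, hμ0, hμ1, hμs, hμρ⟩ : ∃ μ : E, μ ≠ 0 ∧ O.valuation μ < 1 ∧
      O.valuation s ≤ O.valuation μ ∧ O.valuation ρ ≤ O.valuation μ := by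
    rcases le_total (O.valuation s) (O.valuation ρ) with h | h
    · exact ⟨ρ, hρ, hρ', h, le_rfl⟩
    · refine ⟨s, ?_, hs, le_rfl, h⟩
      rintro rfl
      rw [map_zero, le_zero_iff, Valuation.zero_iff] at h
      exact hρ h
  have hμO : μ ∈ O := O.valuation_le_one_iff _ |>.1 hμ1.le
  have hker : ∀ G, I G = 0 → (χ.comp φ₀) G = 0 := by
    intro G hG
    set J := G.natDegree with hJ
    obtain ⟨N, hN⟩ := harch μ (ρ ^ J) hμ1 (pow_ne_zero _ hρ)
    have hN1 : O.valuation (μ ^ (N + 1)) < O.valuation (ρ ^ J) := by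
      rw [map_pow]
      exact lt_of_le_of_lt (pow_le_pow_of_le_one zero_le hμ1.le (Nat.le_succ N)) hN
    have hρJ : ρ ^ J ≠ 0 := pow_ne_zero _ hρ
    have hmO : μ ^ (N + 1) / ρ ^ J ∈ O := BB1_div O hN1.le
    have hm1 : O.valuation (μ ^ (N + 1) / ρ ^ J) < 1 := by
      rw [map_div₀]
      exact (div_lt_one₀ (zero_lt_iff.2 (O.valuation.ne_zero_iff.2 hρJ))).2 hN1
    have h0 : ∑ j ∈ Finset.range (J + 1), G.coeff j *
        (PowerSeries.X - PowerSeries.C (⟨s, hsO⟩ : O)) ^ j *
          PowerSeries.C (⟨ρ, hρO⟩ : O) ^ (J - j) = 0 := by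
      have hj₀i : Function.Injective j₀ :=
        hi.comp (PowerSeries.map_injective _ O.subtype_injective)
      apply hj₀i
      rw [map_zero, map_sum]
      have h1 : I G = ∑ j ∈ Finset.range (J + 1), j₀ (G.coeff j) * σ ^ j := by
        rw [hI, Polynomial.coe_eval₂RingHom, Polynomial.eval₂_eq_sum_range]
      rw [h1] at hG
      have h2 := congrArg (· * i (PowerSeries.C ρ) ^ J) hG
      simp only [zero_mul, Finset.sum_mul] at h2
      rw [← h2]
      refine Finset.sum_congr rfl fun j hj => ?_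
      have hj' : j ≤ J := Nat.lt_succ_iff.1 (Finset.mem_range.1 hj)
      have h3 : i (PowerSeries.C ρ) ^ J = i (PowerSeries.C ρ) ^ j * i (PowerSeries.C ρ) ^ (J - j) := by
        rw [← pow_add, Nat.add_sub_cancel' hj']
      have h4 : j₀ (PowerSeries.X - PowerSeries.C (⟨s, hsO⟩ : O)) = σ * i (PowerSeries.C ρ) := by
        rw [hσ, div_mul_cancel₀ _ hCρ, hj₀]
        simp
      have h5 : j₀ (PowerSeries.C (⟨ρ, hρO⟩ : O)) = i (PowerSeries.C ρ) := by
        rw [hj₀]; simp
      rw [map_mul, map_mul, map_pow, map_pow, h4, h5, h3]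
      ring
    have h6 := BB1_key r (s := ⟨s, hsO⟩) (ρ := ⟨ρ, hρO⟩) (μ := ⟨μ, hμO⟩)
      (s' := ⟨s / μ, BB1_div O hμs⟩) (ρ' := ⟨ρ / μ, BB1_div O hμρ⟩)
      (m := ⟨μ ^ (N + 1) / ρ ^ J, hmO⟩) (J := J) (N := N)
      (fun h => hρ (congrArg Subtype.val h))
      (Subtype.ext (by simp [mul_div_cancel₀ _ hμ0]))
      (Subtype.ext (by simp [mul_div_cancel₀ _ hμ0]))
      (hrz _ hμ1) (hrz _ hm1) (Subtype.ext (by simp [mul_div_cancel₀ _ hρJ])) G.coeff h0
    have h7 : φ₀ G = 0 := by
      rw [← h6]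
      conv_lhs => rw [G.as_sum_range_C_mul_X_pow, map_sum]
      refine Finset.sum_congr rfl fun j _ => ?_
      simp [hφ₀]
    rw [RingHom.comp_apply, h7, map_zero]
  obtain ⟨P, hP⟩ := exists_plc_of_hom I (χ.comp φ₀) hker
  have hC : ∀ f : PowerSeries O, P.To (i (PowerSeries.map O.subtype f))
      (χ (Polynomial.C (r (PowerSeries.constantCoeff f)))) := by
    intro f
    have := hP (Polynomial.C f)
    simpa [hI, hφ₀, hj₀] using this
  have hmem : ∀ f : PowerSeries E, (∀ j, PowerSeries.coeff j f ∈ O) → i f ∈ P.V := by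
    intro f hf
    have := (hC (PowerSeries.mk fun j => ⟨PowerSeries.coeff j f, hf j⟩)).1
    have h2 : PowerSeries.map O.subtype (PowerSeries.mk fun j => ⟨PowerSeries.coeff j f, hf j⟩) = f := by
      ext j; simp
    rwa [h2] at this
  refine ⟨P.V, ?_, hmem, ?_, ?_⟩
  · ext a
    rw [ValuationSubring.mem_comap]
    constructor
    · intro ha
      by_contra hcon
      have ha0 : a ≠ 0 := by
        rintro rfl
        exact hcon O.zero_mem
      have h1 : O.valuation a⁻¹ < 1 := by
        rw [← O.mem_nonunits_iff, O.mem_nonunits_iff_or, inv_inv]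
        exact Or.inr hcon
      have h2 := hC (PowerSeries.C ⟨a⁻¹, O.valuation_le_one_iff _ |>.1 h1.le⟩)
      rw [PowerSeries.constantCoeff_C, hrz _ h1, map_zero, map_zero, Plc.to_zero_iff,
        ← P.V.mem_nonunits_iff, P.V.mem_nonunits_iff_or] at h2
      have h3 : i (PowerSeries.map O.subtype (PowerSeries.C
          ⟨a⁻¹, O.valuation_le_one_iff _ |>.1 h1.le⟩)) = ((i.comp PowerSeries.C) a)⁻¹ := by
        rw [← map_inv₀, PowerSeries.map_C]; rfl
      rw [h3, inv_inv] at h2
      rcases h2 with h2 | h2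
      · rw [inv_eq_zero, map_eq_zero] at h2
        exact ha0 h2
      · exact h2 ha
    · intro ha
      refine hmem _ fun j => ?_
      rw [PowerSeries.coeff_C]
      split_ifs
      · exact ha
      · exact O.zero_mem
  · have := hC PowerSeries.X
    rwa [PowerSeries.constantCoeff_X, map_zero, map_zero, map_zero, Plc.to_zero_iff,
      PowerSeries.map_X] at this
  · rintro Q hQ ⟨j, hj⟩
    obtain ⟨Q₀, hQ₀⟩ : Q ∈ Polynomial.lifts O.subtype := by
      rw [Polynomial.lifts_iff_coeff_lifts]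
      intro n
      exact ⟨⟨Q.coeff n, hQ n⟩, rfl⟩
    have hQ₀' : Q₀.map O.subtype = Q := hQ₀
    have h1 := hP (Q₀.map PowerSeries.C)
    have h2 : I (Q₀.map PowerSeries.C) = Q.eval₂ (i.comp PowerSeries.C) σ := by
      rw [hI, Polynomial.coe_eval₂RingHom, ← hQ₀', Polynomial.eval₂_map, Polynomial.eval₂_map]
      congr 1
      ext a
      simp [hj₀]
    rw [h2] at h1
    rw [h1.val_eq_one_iff, RingHom.comp_apply, Ne, map_eq_zero_iff _ hχi]
    intro h3
    have h4 := congrArg (fun p => Polynomial.coeff p j) h3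
    simp only [hφ₀, Polynomial.coe_mapRingHom, Polynomial.coeff_map, RingHom.comp_apply,
      PowerSeries.constantCoeff_C, Polynomial.coeff_zero] at h4
    rw [hr, IsLocalRing.residue_eq_zero_iff, O.valuation_lt_one_iff] at h4
    have h5 : ((Q₀.coeff j : O) : E) = Q.coeff j := by
      rw [← hQ₀', Polynomial.coeff_map]; rfl
    rw [h5, hj] at h4
    exact lt_irrefl _ h4

/-- Weierstrass preparation -/
theorem weier {f : PowerSeries (PowerSeries Ω)} (hf : f ≠ 0) :
    ∃ (α : ℕ) (g : PowerSeries (PowerSeries Ω)) (P : Polynomial (PowerSeries Ω)), IsUnit g ∧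
      P.Monic ∧ (∀ j < P.natDegree, PowerSeries.constantCoeff (P.coeff j) = 0) ∧
      f = PowerSeries.C (PowerSeries.X ^ α) * g * (P : PowerSeries (PowerSeries Ω)) := by
  classical
  have hex : ∃ a : ℕ, ∃ j, PowerSeries.coeff a (PowerSeries.coeff j f) ≠ 0 := by
    by_contra hcon
    push Not at hcon
    apply hf
    ext j a
    simp [hcon a j]
  obtain ⟨j₀, hj₀⟩ := Nat.find_spec hex
  have hdvd : ∀ j, (PowerSeries.X : PowerSeries Ω) ^ Nat.find hex ∣ PowerSeries.coeff j f := by
    intro j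
    rw [PowerSeries.X_pow_dvd_iff]
    intro a ha
    by_contra hcon
    exact Nat.find_min hex ha ⟨j, hcon⟩
  choose c hc using hdvd
  have hf₁ : f = PowerSeries.C (PowerSeries.X ^ Nat.find hex) * PowerSeries.mk c := by
    ext1 j
    rw [PowerSeries.coeff_C_mul, PowerSeries.coeff_mk, hc]
  have : IsAdicComplete (IsLocalRing.maximalIdeal (PowerSeries Ω)) (PowerSeries Ω) := by
    rw [PowerSeries.maximalIdeal_eq_span_X]
    infer_instance
  have hne : (PowerSeries.mk c).map (IsLocalRing.residue (PowerSeries Ω)) ≠ 0 := by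
    intro h
    have h1 := congrArg (PowerSeries.coeff j₀) h
    rw [PowerSeries.coeff_map, PowerSeries.coeff_mk, map_zero, IsLocalRing.residue_eq_zero_iff,
      PowerSeries.maximalIdeal_eq_span_X, Ideal.mem_span_singleton, PowerSeries.X_dvd_iff] at h1
    apply hj₀
    rw [hc j₀]
    have := PowerSeries.coeff_X_pow_mul (c j₀) (Nat.find hex) 0
    rw [zero_add] at this
    rw [this, PowerSeries.coeff_zero_eq_constantCoeff, h1]
  obtain ⟨P, g, H⟩ := (PowerSeries.mk c).exists_isWeierstrassFactorization hne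
  refine ⟨Nat.find hex, g, P, H.isUnit, H.isDistinguishedAt.monic, fun j hj => ?_, ?_⟩
  · have := H.isDistinguishedAt.mem hj
    rwa [PowerSeries.maximalIdeal_eq_span_X, Ideal.mem_span_singleton,
      PowerSeries.X_dvd_iff] at this
  · rw [mul_assoc, mul_comm g, ← H.eq_mul]
    exact hf₁

end Pool.Agent.Lib.MP_7fcda1_ag
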