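import Pool.Agent.Lib.MP_7fcda1_ag.BB1

open scoped IntermediateField Polynomial WithZero
open Module

noncomputable section

universe u

namespace Pool.Agent.Lib.MP_7fcda1_ag


variable {Ω : Type u} [Field Ω]

theorem BB2_denom {f : PowerSeries (FractionRing (PowerSeries Ω))} (hf : FinCoeff Ω f) :
    ∃ (d : PowerSeries Ω) (F : PowerSeries (PowerSeries Ω)), d ≠ 0 ∧
      PowerSeries.C (algebraMap _ (FractionRing (PowerSeries Ω)) d) * f =
        PowerSeries.map (algebraMap _ _) F := by
  obtain ⟨s, hs⟩ := hf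
  obtain ⟨d, hd⟩ := IsLocalization.exist_integer_multiples_of_finset
    (nonZeroDivisors (PowerSeries Ω)) s
  have key : ∀ x ∈ Submodule.span Ω (s : Set (FractionRing (PowerSeries Ω))),
      ∃ a, algebraMap (PowerSeries Ω) (FractionRing (PowerSeries Ω)) a =
        algebraMap (PowerSeries Ω) _ d * x := by
    intro x hx
    induction hx using Submodule.span_induction with
    | mem x hx =>
      obtain ⟨a, ha⟩ := hd x hx
      exact ⟨a, by rw [ha, Algebra.smul_def]⟩
    | zero => exact ⟨0, by simp⟩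
    | add x y _ _ hx hy =>
      obtain ⟨a, ha⟩ := hx
      obtain ⟨b, hb⟩ := hy
      exact ⟨a + b, by rw [map_add, ha, hb, mul_add]⟩
    | smul c x _ hx =>
      obtain ⟨a, ha⟩ := hx
      refine ⟨algebraMap Ω _ c * a, ?_⟩
      rw [map_mul, ha, ← IsScalarTower.algebraMap_apply, Algebra.smul_def]
      ring
  choose a ha using fun j => key _ (hs j)
  refine ⟨d, PowerSeries.mk a, nonZeroDivisors.coe_ne_zero d, ?_⟩
  ext1 j
  rw [PowerSeries.coeff_C_mul, PowerSeries.coeff_map, PowerSeries.coeff_mk, ha]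

/-- Weierstrass form of a quotient of series with bounded denominators -/
theorem weier_div {h f g : PowerSeries (FractionRing (PowerSeries Ω))} (hf : FinCoeff Ω f)
    (hg : FinCoeff Ω g) (hu : IsUnit g) (hh : h * g = f) :
    ∃ (c : FractionRing (PowerSeries Ω)) (w : PowerSeries (PowerSeries Ω))
      (P Q : Polynomial (PowerSeries Ω)),
      PowerSeries.constantCoeff (PowerSeries.constantCoeff w) = 1 ∧ P.Monic ∧ Q.Monic ∧
      (∀ j < Q.natDegree, PowerSeries.constantCoeff (Q.coeff j) = 0) ∧ Q.coeff 0 ≠ 0 ∧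
      h * PowerSeries.map (algebraMap _ _) (Q : PowerSeries (PowerSeries Ω)) =
        PowerSeries.C c * PowerSeries.map (algebraMap _ _)
          (w * (P : PowerSeries (PowerSeries Ω))) := by
  set ι := algebraMap (PowerSeries Ω) (FractionRing (PowerSeries Ω)) with hι
  have hinj : Function.Injective ι := IsFractionRing.injective _ _
  by_cases hf0 : f = 0
  · have h0 : h = 0 := by
      rw [hf0] at hh
      exact (mul_eq_zero.1 hh).resolve_right hu.ne_zero
    exact ⟨0, 1, 1, 1, by simp, Polynomial.monic_one, Polynomial.monic_one, by simp, by simp,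
      by simp [h0]⟩
  obtain ⟨d, F, hd, eF⟩ := BB2_denom hf
  obtain ⟨e, G, he, eG⟩ := BB2_denom hg
  have hd' : ι d ≠ 0 := (map_ne_zero_iff _ hinj).2 hd
  have he' : ι e ≠ 0 := (map_ne_zero_iff _ hinj).2 he
  have hF : F ≠ 0 := by
    rintro rfl
    rw [map_zero] at eF
    rcases mul_eq_zero.1 eF with h1 | h1
    · exact hd' ((map_eq_zero_iff _ PowerSeries.C_injective).1 h1)
    · exact hf0 h1
  have hG0 : PowerSeries.constantCoeff G ≠ 0 := by
    intro h0
    have h1 := congrArg (PowerSeries.coeff 0) eG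
    rw [PowerSeries.coeff_C_mul, PowerSeries.coeff_map, PowerSeries.coeff_zero_eq_constantCoeff_apply,
      PowerSeries.coeff_zero_eq_constantCoeff_apply, h0, map_zero] at h1
    rcases mul_eq_zero.1 h1 with h2 | h2
    · exact he' h2
    · exact (PowerSeries.isUnit_constantCoeff g hu).ne_zero h2
  have hG : G ≠ 0 := by
    rintro rfl
    exact hG0 (map_zero _)
  obtain ⟨α, v, P, hv, hP, -, rfl⟩ := weier hF
  obtain ⟨β, u, Q, hu', hQ, hQ', rfl⟩ := weier hG
  obtain ⟨u', hu''⟩ := hu'.exists_right_inv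
  have hw : IsUnit (v * u') := hv.mul (IsUnit.of_mul_eq_one_right u hu'')
  set a := PowerSeries.constantCoeff (PowerSeries.constantCoeff (v * u')) with ha
  have ha0 : a ≠ 0 :=
    (PowerSeries.isUnit_constantCoeff _ (PowerSeries.isUnit_constantCoeff _ hw)).ne_zero
  have hX : ι (PowerSeries.X ^ β) ≠ 0 :=
    (map_ne_zero_iff _ hinj).2 (pow_ne_zero _ PowerSeries.X_ne_zero)
  refine ⟨ι e * ι (PowerSeries.X ^ α) * ι (PowerSeries.C a) / (ι d * ι (PowerSeries.X ^ β)),
    PowerSeries.C (PowerSeries.C a⁻¹) * (v * u'), P, Q, ?_, hP, hQ, hQ', ?_, ?_⟩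
  · rw [map_mul, map_mul, PowerSeries.constantCoeff_C, PowerSeries.constantCoeff_C, ← ha,
      inv_mul_cancel₀ ha0]
  · intro h0
    apply hG0
    rw [map_mul, Polynomial.constantCoeff_coe, h0, mul_zero]
  · have hne : (PowerSeries.C (ι d * ι (PowerSeries.X ^ β)) :
        PowerSeries (FractionRing (PowerSeries Ω))) ≠ 0 :=
      (map_ne_zero_iff _ PowerSeries.C_injective).2 (mul_ne_zero hd' hX)
    apply mul_left_cancel₀ hne
    rw [← mul_assoc (PowerSeries.C _) (PowerSeries.C _), ← map_mul PowerSeries.C,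
      mul_div_cancel₀ _ (mul_ne_zero hd' hX)]
    have e1 : (PowerSeries.C (ι (PowerSeries.C a)) : PowerSeries (FractionRing (PowerSeries Ω))) *
        PowerSeries.C (ι (PowerSeries.C a⁻¹)) = 1 := by
      rw [← map_mul, ← map_mul, ← map_mul, mul_inv_cancel₀ ha0, map_one, map_one, map_one]
    have e2 : PowerSeries.map ι u * PowerSeries.map ι u' = 1 := by
      rw [← map_mul, hu'', map_one]
    rw [← hι] at eF eG
    simp only [map_mul, PowerSeries.map_C] at eF eG ⊢
    rw [← hh] at eF
    linear_combination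
      (-(PowerSeries.C (ι d) * PowerSeries.C (ι (PowerSeries.X ^ β)) * h *
        PowerSeries.map ι (Q : PowerSeries (PowerSeries Ω)))) * e2 +
      (PowerSeries.C (ι e) * PowerSeries.map ι u') * eF -
      (PowerSeries.C (ι d) * h * PowerSeries.map ι u') * eG -
      (PowerSeries.C (ι e) * PowerSeries.C (ι (PowerSeries.X ^ α)) * PowerSeries.map ι v *
        PowerSeries.map ι u' * PowerSeries.map ι (P : PowerSeries (PowerSeries Ω))) * e1

section disc
variable {E M : Type u} [Field E] [Field M] {O : ValuationSubring E} {i : PowerSeries E →+* M}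
  {s ρ : E} {V : ValuationSubring M}

theorem BB2_equiv (hV : IsDisc O i s ρ V) :
    (V.valuation.comap (i.comp PowerSeries.C)).IsEquiv O.valuation := by
  rw [Valuation.isEquiv_iff_val_le_one]
  intro x
  rw [Valuation.comap_apply, V.valuation_le_one_iff, O.valuation_le_one_iff, ← hV.comap,
    ValuationSubring.mem_comap]

theorem BB2_lt (hV : IsDisc O i s ρ V) {x y : E} (h : O.valuation x < O.valuation y) :
    V.valuation (i (PowerSeries.C x)) < V.valuation (i (PowerSeries.C y)) :=
  ((BB2_equiv hV).lt_iff_lt (x := x) (y := y)).2 h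

theorem BB2_le (hV : IsDisc O i s ρ V) {x y : E} (h : O.valuation x ≤ O.valuation y) :
    V.valuation (i (PowerSeries.C x)) ≤ V.valuation (i (PowerSeries.C y)) :=
  ((BB2_equiv hV) x y).2 h

theorem BB2_max (O : ValuationSubring E) {R : E[X]} (hR : R ≠ 0) :
    ∃ k, R.coeff k ≠ 0 ∧ ∀ j, O.valuation (R.coeff j) ≤ O.valuation (R.coeff k) := by
  obtain ⟨k, hk, hmax⟩ := Finset.exists_max_image R.support (fun j => O.valuation (R.coeff j))
    (Polynomial.support_nonempty.2 hR)
  refine ⟨k, Polynomial.mem_support_iff.1 hk, fun j => ?_⟩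
  by_cases hj : j ∈ R.support
  · exact hmax j hj
  · rw [Polynomial.notMem_support_iff.1 hj, map_zero]
    exact zero_le

theorem BB2_div (O : ValuationSubring E) {a b : E} (h : O.valuation a ≤ O.valuation b) :
    b⁻¹ * a ∈ O := by
  rw [← O.valuation_le_one_iff, map_mul, map_inv₀, ← div_eq_inv_mul]
  exact div_le_one_of_le₀ h zero_le

/-- polynomials are uniformly bounded on all discs -/
theorem BB2_bound (O : ValuationSubring E) (i : PowerSeries E →+* M) (R : E[X]) :
    ∃ B : E, B ≠ 0 ∧ ∀ (s ρ : E) (V : ValuationSubring M), IsDisc O i s ρ V →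
      V.valuation (i (R : PowerSeries E)) ≤ V.valuation (i (PowerSeries.C B)) := by
  by_cases hR : R = 0
  · exact ⟨1, one_ne_zero, fun s ρ V _ => by simp [hR]⟩
  obtain ⟨k, hk, hmax⟩ := BB2_max O hR
  refine ⟨R.coeff k, hk, fun s ρ V hV => ?_⟩
  have h1 := hV.mem (PowerSeries.C (R.coeff k)⁻¹ * (R : PowerSeries E)) fun j => by
    rw [PowerSeries.coeff_C_mul, Polynomial.coeff_coe]
    exact BB2_div O (hmax j)
  have h2 : (R : PowerSeries E) =
      PowerSeries.C (R.coeff k) * (PowerSeries.C (R.coeff k)⁻¹ * (R : PowerSeries E)) := by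
    rw [← mul_assoc, ← map_mul, mul_inv_cancel₀ hk, map_one, one_mul]
  rw [h2, map_mul, map_mul]
  exact mul_le_of_le_one_right' ((V.valuation_le_one_iff _).2 h1)

theorem BB2_C_ne (hi : Function.Injective i) {x : E} (hx : x ≠ 0) : i (PowerSeries.C x) ≠ 0 := by
  rw [Ne, map_eq_zero_iff _ hi, map_eq_zero_iff _ PowerSeries.C_injective]
  exact hx

theorem BB2_coord (hi : Function.Injective i) (hV : IsDisc O i s ρ V) (hρ : ρ ≠ 0) :
    V.valuation (i (PowerSeries.X - PowerSeries.C s)) = V.valuation (i (PowerSeries.C ρ)) := by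
  have h1 := hV.gauss Polynomial.X (fun j => by
    rw [Polynomial.coeff_X]; split_ifs; exacts [O.one_mem, O.zero_mem]) ⟨1, by simp⟩
  rw [Polynomial.eval₂_X, map_div₀] at h1
  exact (div_eq_one_iff_eq (V.valuation.ne_zero_iff.2 (BB2_C_ne hi hρ))).1 h1

theorem BB2_eval (i : PowerSeries E →+* M) (R : E[X]) :
    i (R : PowerSeries E) = R.eval₂ (i.comp PowerSeries.C) (i PowerSeries.X) := by
  induction R using Polynomial.induction_on' with
  | add p q hp hq => rw [Polynomial.coe_add, map_add, hp, hq, Polynomial.eval₂_add]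
  | monomial n a =>
    rw [Polynomial.eval₂_monomial, ← Polynomial.C_mul_X_pow_eq_monomial, Polynomial.coe_mul,
      Polynomial.coe_pow, Polynomial.coe_C, Polynomial.coe_X, map_mul, map_pow]
    rfl

/-- lower bound for a monic polynomial on a disc centred at the origin -/
theorem BB2_lower (hi : Function.Injective i) (hV : IsDisc O i 0 ρ V) (hρ : ρ ≠ 0) {R : E[X]}
    (hR : R.Monic) :
    V.valuation (i (PowerSeries.C (ρ ^ R.natDegree))) ≤ V.valuation (i (R : PowerSeries E)) := by
  set R' := R.comp (Polynomial.C ρ * Polynomial.X) with hR'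
  have hc : R'.coeff R.natDegree = ρ ^ R.natDegree := by
    rw [hR', Polynomial.comp_C_mul_X_coeff, hR.coeff_natDegree, one_mul]
  have hne : R' ≠ 0 := by
    intro h0
    rw [h0, Polynomial.coeff_zero] at hc
    exact pow_ne_zero _ hρ hc.symm
  obtain ⟨k, hk, hmax⟩ := BB2_max O hne
  have h1 := hV.gauss (Polynomial.C (R'.coeff k)⁻¹ * R') (fun j => by
    rw [Polynomial.coeff_C_mul]
    exact BB2_div O (hmax j)) ⟨k, by rw [Polynomial.coeff_C_mul, inv_mul_cancel₀ hk, map_one]⟩
  rw [Polynomial.eval₂_mul, Polynomial.eval₂_C, hR', Polynomial.eval₂_comp, Polynomial.eval₂_mul,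
    Polynomial.eval₂_C, Polynomial.eval₂_X, map_zero, sub_zero, RingHom.comp_apply,
    RingHom.comp_apply, mul_div_cancel₀ _ (BB2_C_ne hi hρ), ← BB2_eval, ← hR', map_mul] at h1
  have h2 : V.valuation (i (PowerSeries.C (R'.coeff k))) *
      V.valuation (i (PowerSeries.C (R'.coeff k)⁻¹)) = 1 := by
    rw [← map_mul, ← map_mul, ← map_mul, mul_inv_cancel₀ hk, map_one, map_one, map_one]
  have h3 : V.valuation (i (R : PowerSeries E)) = V.valuation (i (PowerSeries.C (R'.coeff k))) := by
    calc _ = V.valuation (i (PowerSeries.C (R'.coeff k))) *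
          V.valuation (i (PowerSeries.C (R'.coeff k)⁻¹)) * V.valuation (i (R : PowerSeries E)) := by
          rw [h2, one_mul]
      _ = _ := by rw [mul_assoc, h1, mul_one]
  rw [h3, ← hc]
  exact BB2_le hV (hmax _)

theorem BB2_root (O : ValuationSubring E) {R : E[X]} (hR : R.Monic)
    (h : ∀ j < R.natDegree, O.valuation (R.coeff j) < 1) {x : E} (hx : R.IsRoot x) :
    O.valuation x < 1 := by
  by_contra hc
  rw [not_lt] at hc
  have h0 : 0 < O.valuation x := lt_of_lt_of_le zero_lt_one hc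
  have h1 := hx.eq_zero
  rw [Polynomial.eval_eq_sum_range, Finset.sum_range_succ, hR.coeff_natDegree, one_mul] at h1
  have h2 : O.valuation (∑ j ∈ Finset.range R.natDegree, R.coeff j * x ^ j) <
      O.valuation x ^ R.natDegree := by
    refine O.valuation.map_sum_lt (pow_pos h0 _).ne' fun j hj => ?_
    have hj' := Finset.mem_range.1 hj
    rw [map_mul, map_pow]
    calc O.valuation (R.coeff j) * O.valuation x ^ j < 1 * O.valuation x ^ j :=
          mul_lt_mul_of_pos_right (h j hj') (pow_pos h0 _)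
      _ ≤ O.valuation x ^ R.natDegree := by
          rw [one_mul]; exact pow_le_pow_right₀ hc hj'.le
  rw [eq_neg_of_add_eq_zero_left h1, Valuation.map_neg, map_pow] at h2
  exact lt_irrefl _ h2

/-- a quotient of polynomials bounded on all small discs around `s` has no pole at `s` -/
theorem BB2_mult
    (harch : ∀ a b : E, O.valuation a < 1 → b ≠ 0 → ∃ N : ℕ, O.valuation a ^ N < O.valuation b)
    (hi : Function.Injective i) {t : E} (ht0 : t ≠ 0) (ht : O.valuation t < 1) {c : E} (hc : c ≠ 0)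
    {P Q : E[X]} (hP : P ≠ 0) (hs : O.valuation s < 1)
    (H : ∀ ρ V, ρ ≠ 0 → O.valuation ρ < 1 → IsDisc O i s ρ V →
      V.valuation (i (PowerSeries.C c)) * V.valuation (i (P : PowerSeries E)) ≤
        V.valuation (i (Q : PowerSeries E))) :
    Q.rootMultiplicity s ≤ P.rootMultiplicity s := by
  by_contra hlt
  rw [not_le] at hlt
  obtain ⟨P₁, eP, hP₁⟩ := Polynomial.exists_eq_pow_rootMultiplicity_mul_and_not_dvd P hP s
  obtain ⟨Q₁, eQ⟩ := (pow_dvd_pow (Polynomial.X - Polynomial.C s) (Nat.succ_le_of_lt hlt)).trans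
    (Polynomial.pow_rootMultiplicity_dvd Q s)
  generalize P.rootMultiplicity s = a at eP eQ
  have hp : P₁.eval s ≠ 0 := fun h0 => hP₁ (Polynomial.dvd_iff_isRoot.2 h0)
  obtain ⟨P₂, eP₂⟩ := Polynomial.X_sub_C_dvd_sub_C_eval (p := P₁) (a := s)
  obtain ⟨B₁, hB₁, b₁⟩ := BB2_bound O i Q₁
  obtain ⟨B₂, hB₂, b₂⟩ := BB2_bound O i P₂
  obtain ⟨N₁, hN₁⟩ := harch t (c * P₁.eval s / B₁) ht (div_ne_zero (mul_ne_zero hc hp) hB₁)
  obtain ⟨N₂, hN₂⟩ := harch t (P₁.eval s / B₂) ht (div_ne_zero hp hB₂)
  set ρ := t ^ (N₁ + N₂ + 1) with hρ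
  have hρ0 : ρ ≠ 0 := pow_ne_zero _ ht0
  have hρ1 : O.valuation ρ < 1 := by
    rw [hρ, map_pow]; exact pow_lt_one₀ zero_le ht (by omega)
  have small : ∀ (N : ℕ) (x B : E), N ≤ N₁ + N₂ + 1 → B ≠ 0 →
      O.valuation t ^ N < O.valuation (x / B) → O.valuation (ρ * B) < O.valuation x := by
    intro N x B hN hB h1
    have hB' : 0 < O.valuation B := zero_lt_iff.2 (O.valuation.ne_zero_iff.2 hB)
    rw [map_div₀, lt_div_iff₀ hB'] at h1
    refine lt_of_le_of_lt ?_ h1
    rw [map_mul, hρ, map_pow]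
    exact mul_le_mul_left (pow_le_pow_of_le_one zero_le ht.le hN) _
  have s1 := small N₁ _ _ (by omega) hB₁ hN₁
  have s2 := small N₂ _ _ (by omega) hB₂ hN₂
  obtain ⟨V, hV⟩ := exists_disc O harch i hi hρ0 hs hρ1
  have hx := BB2_coord hi hV hρ0
  have hXs : ((Polynomial.X - Polynomial.C s : E[X]) : PowerSeries E) =
      PowerSeries.X - PowerSeries.C s := by
    rw [Polynomial.coe_sub, Polynomial.coe_X, Polynomial.coe_C]
  have hv1 : V.valuation (i (P₁ : PowerSeries E)) = V.valuation (i (PowerSeries.C (P₁.eval s))) := by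
    have e : (P₁ : PowerSeries E) = PowerSeries.C (P₁.eval s) +
        (PowerSeries.X - PowerSeries.C s) * (P₂ : PowerSeries E) := by
      rw [← hXs, ← Polynomial.coe_mul, ← eP₂, Polynomial.coe_sub, Polynomial.coe_C]; ring
    rw [e, map_add]
    refine V.valuation.map_add_eq_of_lt_left ?_
    refine lt_of_le_of_lt ?_ (BB2_lt hV s2)
    rw [map_mul, map_mul, hx, map_mul, map_mul, map_mul]
    exact mul_le_mul_right (b₂ s ρ V hV) _
  have h1 := H ρ V hρ0 hρ1 hV
  rw [eP, eQ, Polynomial.coe_mul, Polynomial.coe_mul, Polynomial.coe_pow, Polynomial.coe_pow, hXs,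
    map_mul, map_mul, map_mul, map_mul, map_pow, map_pow, map_pow, map_pow, hx, hv1] at h1
  have hr : 0 < V.valuation (i (PowerSeries.C ρ)) :=
    zero_lt_iff.2 (V.valuation.ne_zero_iff.2 (BB2_C_ne hi hρ0))
  have h2 := BB2_lt hV s1
  rw [map_mul, map_mul, map_mul, map_mul, map_mul, map_mul] at h2
  have h3 : V.valuation (i (PowerSeries.C ρ)) ^ a *
      (V.valuation (i (PowerSeries.C c)) * V.valuation (i (PowerSeries.C (P₁.eval s)))) ≤
      V.valuation (i (PowerSeries.C ρ)) ^ a *
      (V.valuation (i (PowerSeries.C ρ)) * V.valuation (i (PowerSeries.C B₁))) := by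
    calc _ = V.valuation (i (PowerSeries.C c)) * (V.valuation (i (PowerSeries.C ρ)) ^ a *
          V.valuation (i (PowerSeries.C (P₁.eval s)))) := mul_left_comm _ _ _
      _ ≤ _ := h1
      _ ≤ V.valuation (i (PowerSeries.C ρ)) ^ a.succ * V.valuation (i (PowerSeries.C B₁)) :=
          mul_le_mul_right (b₁ s ρ V hV) _
      _ = _ := by rw [pow_succ, mul_assoc]
  exact absurd (le_of_mul_le_mul_left h3 (pow_pos hr a)) (not_le.2 h2)

end disc

/-- a quotient that is bounded on all discs has integral coefficients -/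
theorem int_of_discs {E M : Type u} [Field E] [IsAlgClosed E] [Field M] (O : ValuationSubring E)
    (φ : FractionRing (PowerSeries Ω) →+* E) (hO : ∀ a, φ (algebraMap (PowerSeries Ω) _ a) ∈ O)
    (ht : O.valuation (φ (algebraMap (PowerSeries Ω) _ PowerSeries.X)) < 1)
    (harch : ∀ a b : E, O.valuation a < 1 → b ≠ 0 → ∃ N : ℕ, O.valuation a ^ N < O.valuation b)
    (i : PowerSeries E →+* M) (hi : Function.Injective i)
    {h f g : PowerSeries (FractionRing (PowerSeries Ω))} (hf : FinCoeff Ω f)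
    (hg : FinCoeff Ω g) (hu : IsUnit g) (hh : h * g = f)
    (H : ∀ s ρ V, ρ ≠ 0 → O.valuation s < 1 → O.valuation ρ < 1 → IsDisc O i s ρ V →
      i (PowerSeries.map φ h) ∈ V) (j : ℕ) : PowerSeries.coeff j h ∈
      (algebraMap (PowerSeries Ω) (FractionRing (PowerSeries Ω))).range := by
  classical
  obtain ⟨c, w, P, Q, hw, hP, hQ, hQ', -, e⟩ := weier_div hf hg hu hh
  set ι := algebraMap (PowerSeries Ω) (FractionRing (PowerSeries Ω)) with hι
  have hinj : Function.Injective ι := IsFractionRing.injective _ _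
  set ψ : PowerSeries Ω →+* E := φ.comp ι with hψ
  have hψi : Function.Injective ψ := φ.injective.comp hinj
  have hψO : ∀ a, ψ a ∈ O := hO
  set t := ψ PowerSeries.X with htd
  have ht' : O.valuation t < 1 := ht
  have ht0 : t ≠ 0 := (map_ne_zero_iff _ hψi).2 PowerSeries.X_ne_zero
  have hsm : ∀ a : PowerSeries Ω, PowerSeries.constantCoeff a = 0 →
      O.valuation (ψ a) ≤ O.valuation t := by
    intro a ha
    obtain ⟨b, rfl⟩ := PowerSeries.X_dvd_iff.2 ha
    rw [map_mul, map_mul]
    exact mul_le_of_le_one_right' ((O.valuation_le_one_iff _).2 (hψO b))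
  have hQne : PowerSeries.map ι (Q : PowerSeries (PowerSeries Ω)) ≠ 0 := by
    rw [Ne, map_eq_zero_iff _ (PowerSeries.map_injective _ hinj), Polynomial.coe_eq_zero_iff]
    exact hQ.ne_zero
  by_cases hc : c = 0
  · rw [hc, map_zero, zero_mul] at e
    rw [(mul_eq_zero.1 e).resolve_right hQne, map_zero]
    exact zero_mem _
  have hc' : φ c ≠ 0 := (map_ne_zero φ).2 hc
  have hcoe : ∀ R : (PowerSeries Ω)[X], PowerSeries.map φ (PowerSeries.map ι
      (R : PowerSeries (PowerSeries Ω))) = ((R.map ψ : E[X]) : PowerSeries E) := by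
    intro R
    ext1 n
    simp [hψ]
  have hwu : IsUnit w := by
    rw [PowerSeries.isUnit_iff_constantCoeff, PowerSeries.isUnit_iff_constantCoeff, hw]
    exact isUnit_one
  have hw1 : ∀ s ρ V, IsDisc O i s ρ V →
      V.valuation (i (PowerSeries.map φ (PowerSeries.map ι w))) = 1 := by
    intro s ρ V hV
    obtain ⟨w', hw'⟩ := hwu.exists_right_inv
    have m : ∀ x : PowerSeries (PowerSeries Ω),
        V.valuation (i (PowerSeries.map φ (PowerSeries.map ι x))) ≤ 1 := fun x =>
      (V.valuation_le_one_iff _).2 (hV.mem _ fun n => by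
        rw [PowerSeries.coeff_map, PowerSeries.coeff_map]; exact hO _)
    have e1 : V.valuation (i (PowerSeries.map φ (PowerSeries.map ι w))) *
        V.valuation (i (PowerSeries.map φ (PowerSeries.map ι w'))) = 1 := by
      rw [← map_mul, ← map_mul, ← map_mul, ← map_mul, hw', map_one, map_one, map_one, map_one]
    refine le_antisymm (m w) ?_
    rw [← e1]
    exact mul_le_of_le_one_right' (m w')
  have hdvd : Q ∣ P := by
    rw [← Polynomial.map_dvd_map ψ hψi hQ,
      IsAlgClosed.dvd_iff_roots_le_roots (hQ.map ψ).ne_zero (hP.map ψ).ne_zero, Multiset.le_iff_count]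
    intro s
    rw [Polynomial.count_roots, Polynomial.count_roots]
    by_cases hs : (Q.map ψ).IsRoot s
    · have hs1 : O.valuation s < 1 := BB2_root O (hQ.map ψ) (fun n hn => by
        rw [hQ.natDegree_map] at hn
        rw [Polynomial.coeff_map]
        exact lt_of_le_of_lt (hsm _ (hQ' n hn)) ht') hs
      refine BB2_mult harch hi ht0 ht' hc' (hP.map ψ).ne_zero hs1
        fun ρ V h0 h1 hV => ?_
      have e1 := congrArg (fun x => V.valuation (i (PowerSeries.map φ x))) e
      simp only [map_mul, hcoe, PowerSeries.map_C, hw1 s ρ V hV, one_mul] at e1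
      rw [← e1]
      exact mul_le_of_le_one_left' ((V.valuation_le_one_iff _).2 (H s ρ V h0 hs1 h1 hV))
    · rw [Polynomial.rootMultiplicity_eq_zero hs]
      exact Nat.zero_le _
  obtain ⟨R, rfl⟩ := hdvd
  have hR : R.Monic := hQ.of_mul_monic_left hP
  have eh : h = PowerSeries.C c * PowerSeries.map ι (w * (R : PowerSeries (PowerSeries Ω))) := by
    apply mul_right_cancel₀ hQne
    rw [e, Polynomial.coe_mul]
    simp only [map_mul]
    ring
  by_cases hcr : c ∈ ι.range
  · rw [eh, PowerSeries.coeff_C_mul, PowerSeries.coeff_map]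
    exact mul_mem hcr ⟨_, rfl⟩
  exfalso
  obtain ⟨a, ha⟩ : ∃ a, ι a = c⁻¹ :=
    (ValuationRing.isInteger_or_isInteger (PowerSeries Ω) c).resolve_left hcr
  have ha0 : PowerSeries.constantCoeff a = 0 := by
    by_contra hne
    obtain ⟨b, hb⟩ := (PowerSeries.isUnit_iff_constantCoeff.2 (IsUnit.mk0 _ hne)).exists_right_inv
    refine hcr ⟨b, ?_⟩
    have := congrArg ι hb
    rw [map_mul, ha, map_one] at this
    exact (inv_mul_eq_one₀ hc).1 this |>.symm
  obtain ⟨ρ, hρ⟩ := IsAlgClosed.exists_pow_nat_eq t (n := R.natDegree + 1) (by omega)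
  have hρ0 : ρ ≠ 0 := by
    rintro rfl
    rw [zero_pow (by omega)] at hρ
    exact ht0 hρ.symm
  have hρ1 : O.valuation ρ < 1 := by
    by_contra hh1
    have := one_le_pow₀ (not_lt.1 hh1) (n := R.natDegree + 1)
    rw [← map_pow, hρ] at this
    exact absurd ht' (not_lt.2 this)
  obtain ⟨V, hV⟩ := exists_disc O harch i hi (s := 0) hρ0 (by simp) hρ1
  have h1 := (V.valuation_le_one_iff _).2 (H 0 ρ V hρ0 (by simp) hρ1 hV)
  have h2 := BB2_lower hi hV hρ0 (hR.map ψ)
  rw [hR.natDegree_map] at h2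
  rw [eh] at h1
  simp only [map_mul, hcoe, PowerSeries.map_C, hw1 0 ρ V hV, one_mul] at h1
  have h3 : O.valuation (1 : E) < O.valuation (φ c * ρ ^ R.natDegree) := by
    have h4 := hsm a ha0
    have h5 : φ c * ψ a = 1 := by
      rw [hψ, RingHom.comp_apply, ha, ← map_mul, mul_inv_cancel₀ hc, map_one]
    have hcp : 0 < O.valuation (φ c) := zero_lt_iff.2 (O.valuation.ne_zero_iff.2 hc')
    have hρp : 0 < O.valuation ρ := zero_lt_iff.2 (O.valuation.ne_zero_iff.2 hρ0)
    rw [← h5, map_mul, map_mul]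
    refine mul_lt_mul_of_pos_left (lt_of_le_of_lt h4 ?_) hcp
    rw [← hρ, map_pow, map_pow]
    exact pow_lt_pow_right_of_lt_one₀ hρp hρ1 (Nat.lt_succ_self _)
  have h6 := BB2_lt hV h3
  rw [map_one, map_one, map_one, map_mul, map_mul, map_mul] at h6
  exact absurd ((mul_le_mul_right h2 _).trans h1) (not_le.2 h6)

end Pool.Agent.Lib.MP_7fcda1_ag
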