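import Pool.Agent.Lib.MP_7fcda1_ag.BB2

open scoped IntermediateField Polynomial WithZero
open Module

noncomputable section

universe u

namespace Pool.Agent.Lib.MP_7fcda1_ag

section aux
variable {E k₀ D : Type*} [Field E] [Field k₀] [Field D]

/-- the three Newton polygon steps -/
theorem BB3.three [IsAlgClosed E] {σ : Type} [Finite σ] (P : Plc E k₀) (W : σ → E[X])
    (R : (σ → k₀) → (σ → k₀) → Prop) (htr : ∀ z z' z'', R z z' → R z' z'' → R z z'')
    (hsy : ∀ z z', R z z' → R z' z)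
    (hsc : ∀ z z' (c : k₀), c ≠ 0 → R z z' → R z (c • z'))
    (H : ∀ s ρ, ρ ≠ 0 → P.V.valuation s < 1 → P.V.valuation ρ < 1 → ∀ π z z',
      P.In (fun i => (W i).comp (Polynomial.X + Polynomial.C s)) ρ π → Low π z → Top π z' →
        R z z')
    {z₀ : σ → k₀} (h₀ : P.Sp (fun i => (W i).coeff 0) z₀) {s ρ : E} (hρ : ρ ≠ 0)
    (hs : P.V.valuation s < 1) (hρ' : P.V.valuation ρ < 1) {π : σ → k₀[X]} {z' : σ → k₀}
    (hπ : P.In (fun i => (W i).comp (Polynomial.X + Polynomial.C s)) ρ π) (hz' : Top π z') :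
    R z₀ z' := by
  have hW0 : (fun i => (W i).coeff 0) ≠ 0 := by
    intro h
    obtain ⟨hz, l, hl⟩ := h₀
    apply hz
    funext i
    have h1 := hl i
    have h2 : (W i).coeff 0 = 0 := congrFun h i
    simp only [h2, mul_zero] at h1
    exact h1.unique Plc.to_zero
  have hW : W ≠ 0 := by
    intro h
    apply hW0
    funext i
    simp [h]
  obtain ⟨ρ', h1, h2, h3, h4⟩ : ∃ ρ' : E, ρ' ≠ 0 ∧ P.V.valuation ρ' < 1 ∧
      P.V.valuation s ≤ P.V.valuation ρ' ∧ P.V.valuation ρ ≤ P.V.valuation ρ' := by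
    rcases le_total (P.V.valuation s) (P.V.valuation ρ) with h | h
    · exact ⟨ρ, hρ, hρ', h, le_rfl⟩
    · refine ⟨s, ?_, hs, le_rfl, h⟩
      rintro rfl
      rw [map_zero, le_zero_iff, map_eq_zero] at h
      exact hρ h
  have hne : ∀ {a b : E}, a ≠ 0 → P.V.valuation a ≤ P.V.valuation b → b ≠ 0 := by
    intro a b ha h hb
    rw [hb, map_zero, le_zero_iff, map_eq_zero] at h
    exact ha h
  obtain ⟨ρ₁, hρ₁, hle, hsm⟩ := exists_small P hW0 h1
  obtain ⟨π₁, hπ₁⟩ := P.exists_in hW hρ₁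
  obtain ⟨π₂, hπ₂⟩ := P.exists_in hW h1
  obtain ⟨z₂, hz₂⟩ := exists_top hπ₂.1
  have hs₁ := hsm π₁ hπ₁
  have hlow : Low π₁ fun i => (π₁ i).coeff 0 :=
    ⟨hs₁.1, 0, fun _ => rfl, fun _ _ h => absurd h (Nat.not_lt_zero _)⟩
  have A1 : R (fun i => (π₁ i).coeff 0) z₂ := by
    refine np P W R htr hsc hρ₁ hle (fun ρ ha hb π z z' hπ hz hz' => ?_) hπ₁ hπ₂ hlow hz₂
    refine H 0 ρ (hne hρ₁ ha) (by simp) (hb.trans_lt h2) π z z' ?_ hz hz'
    simpa using hπ
  obtain ⟨π₃, hπ₃, hz₃⟩ := in_recentre P h1 h3 hπ₂ hz₂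
  obtain ⟨z, hz⟩ := exists_low hπ.1
  have A2 : R z z₂ :=
    np P _ R htr hsc hρ h4
      (fun ρ ha hb π z z' hπ hz hz' => H s ρ (hne hρ ha) hs (hb.trans_lt h2) π z z' hπ hz hz')
      hπ hπ₃ hz hz₃
  have A3 : R z z' := H s ρ hρ hs hρ' π z z' hπ hz hz'
  have A4 := htr _ _ _ (htr _ _ _ A1 (hsy _ _ A2)) A3
  obtain ⟨c, hc, hcz⟩ := hs₁.unique h₀
  rw [hcz]
  exact hsy _ _ (hsc _ _ c hc (hsy _ _ A4))

/-- two places with the same ring -/
theorem BB3.exists_j (P : Plc E k₀) (hs : Function.Surjective P.ρ) (P' : Plc E D)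
    (h : P'.V = P.V) : ∃ j : k₀ →+* D, ∀ a b, P.To a b → P'.To a (j b) := by
  obtain ⟨V, ρ, hk⟩ := P
  obtain ⟨V', ρ', hk'⟩ := P'
  dsimp only at h hs
  subst h
  have hle : RingHom.ker ρ ≤ RingHom.ker ρ' := fun a ha => by
    rw [RingHom.mem_ker] at ha ⊢
    exact (hk' a).2 ((hk a).1 ha)
  refine ⟨RingHom.liftOfSurjective ρ hs ⟨ρ', hle⟩, ?_⟩
  rintro a b ⟨ha, rfl⟩
  exact ⟨ha, (RingHom.liftOfRightInverse_comp_apply ρ _ _ ⟨ρ', hle⟩ _).symm⟩

theorem BB3.lift (P : Plc E k₀) (hs : Function.Surjective P.ρ) (q : k₀[X]) :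
    ∃ Q : E[X], ∀ n, P.To (Q.coeff n) (q.coeff n) := by
  obtain ⟨Q, rfl⟩ := Polynomial.map_surjective P.ρ hs q
  refine ⟨Q.map P.V.subtype, fun n => ?_⟩
  rw [Polynomial.coeff_map, Polynomial.coeff_map]
  exact ⟨(Q.coeff n).2, rfl⟩

theorem BB3.to_eval₂ {M : Type*} [Field M] {P : Plc E k₀} {P' : Plc M D} {g : E →+* M}
    {j : k₀ →+* D} (hj : ∀ a b, P.To a b → P'.To (g a) (j b)) {Q : E[X]} {q : k₀[X]}
    (h : ∀ n, P.To (Q.coeff n) (q.coeff n)) {s : M} {t : D} (hs : P'.To s t) :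
    P'.To (Q.eval₂ g s) (q.eval₂ j t) := by
  rw [Polynomial.eval₂_eq_sum_range' g (n := max Q.natDegree q.natDegree + 1) (by omega),
    Polynomial.eval₂_eq_sum_range' j (n := max Q.natDegree q.natDegree + 1) (by omega)]
  exact Plc.To.sum fun n _ => (hj _ _ (h n)).mul (hs.pow n)

theorem BB3.algClosed [IsAlgClosed E] (P : Plc E k₀) (hs : Function.Surjective P.ρ) :
    IsAlgClosed k₀ := by
  refine IsAlgClosed.of_exists_root _ fun q hq hi => ?_
  obtain ⟨Q, rfl, hd, hQ⟩ := Polynomial.lifts_and_degree_eq_and_monic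
    (f := P.ρ) (p := q) ((Polynomial.lifts_iff_coeff_lifts _).2 fun n => hs _) hq
  have hd' : (Q.map P.V.subtype).degree ≠ 0 := by
    rw [hQ.degree_map, hd]
    exact (Polynomial.degree_pos_of_irreducible hi).ne'
  obtain ⟨a, ha⟩ := IsAlgClosed.exists_root _ hd'
  have haV : a ∈ P.V := mem_of_monic _ (hQ.map _)
    (fun n => by rw [Polynomial.coeff_map]; exact (Q.coeff n).2) ha
  refine ⟨P.ρ ⟨a, haV⟩, ?_⟩
  rw [Polynomial.eval_map, Polynomial.eval₂_at_apply, ← map_zero P.ρ]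
  congr 1
  apply Subtype.ext
  have := Polynomial.eval₂_at_apply (p := Q) P.V.subtype ⟨a, haV⟩
  rw [← Polynomial.eval_map] at this
  exact this.symm.trans ha

/-- Polynomial model of a finite family of power series. -/
def BB3.Mod {σ : Type} (P : Plc E k₀) (f : σ → PowerSeries E) (W : σ → E[X]) : Prop :=
  ∃ (Q : E[X]) (w : σ → PowerSeries E), Q.coeff 0 ≠ 0 ∧
    (∀ l n, PowerSeries.coeff n (w l) ∈ P.V) ∧
    (∀ l, P.To (PowerSeries.constantCoeff (w l)) 1) ∧
    ∀ l, f l * (Q : PowerSeries E) = (W l : PowerSeries E) * w l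

theorem BB3.Mod.sp {σ : Type} {P : Plc E k₀} {f : σ → PowerSeries E} {W : σ → E[X]}
    (h : BB3.Mod P f W) {z : σ → k₀} (hz : z ≠ 0)
    (h0 : ∀ l, P.To (PowerSeries.constantCoeff (f l)) (z l)) :
    P.Sp (fun l => (W l).coeff 0) z := by
  obtain ⟨Q, w, hQ, -, hw, he⟩ := h
  refine ⟨hz, (Q.coeff 0)⁻¹, fun l => ?_⟩
  have h1 := congrArg PowerSeries.constantCoeff (he l)
  rw [map_mul, map_mul, Polynomial.constantCoeff_coe, Polynomial.constantCoeff_coe] at h1
  have hw0 : PowerSeries.constantCoeff (w l) ≠ 0 := by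
    intro h
    have := hw l
    rw [h] at this
    exact one_ne_zero (this.unique Plc.to_zero)
  have h2 : (Q.coeff 0)⁻¹ * (W l).coeff 0 =
      PowerSeries.constantCoeff (f l) * (PowerSeries.constantCoeff (w l))⁻¹ := by
    field_simp
    linear_combination -h1
  have h3 := (h0 l).mul ((hw l).inv one_ne_zero)
  rw [inv_one, mul_one] at h3
  simpa only [h2] using h3

end aux

section disc
variable {K E k₀ M : Type u} [Field K] [Field E] [Field k₀] [Field M]

/-- the place attached to a disc -/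
theorem BB3.disc (P : Plc E k₀) (hs : Function.Surjective P.ρ) {i : PowerSeries E →+* M}
    {s ρ : E} {V : ValuationSubring M} (hV : IsDisc P.V i s ρ V) (hρ : ρ ≠ 0)
    (T : K →+* PowerSeries E) :
    ∃ (D : Type u) (_ : Field D) (_ : IsAlgClosed D) (PK : Plc K D) (j : k₀ →+* D) (τ : D),
      PK.V = V.comap (i.comp T) ∧
      (∀ a e b, T a = PowerSeries.C e → P.To e b → PK.To a (j b)) ∧
      (∀ q : k₀[X], q.eval₂ j τ = 0 → q = 0) ∧
      ∀ (σ : Type) [Finite σ] (a : σ → K) (W : σ → E[X]) (π : σ → k₀[X]), a ≠ 0 →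
        BB3.Mod P (fun l => T (a l)) W →
        P.In (fun l => (W l).comp (Polynomial.X + Polynomial.C s)) ρ π →
        ∃ c : D, c ≠ 0 ∧ PK.Sp a (c • fun l => (π l).eval₂ j τ) := by
  obtain ⟨PD, hPD, -⟩ := exists_plc_residue V
    (algebraMap (IsLocalRing.ResidueField V) (AlgebraicClosure (IsLocalRing.ResidueField V)))
  obtain ⟨P', hP', hP''⟩ := PD.exists_comap (i.comp PowerSeries.C)
  obtain ⟨j, hj⟩ := BB3.exists_j P hs P' (by rw [hP', hPD, hV.comap])
  have hj' : ∀ a b, P.To a b → PD.To ((i.comp PowerSeries.C) a) (j b) :=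
    fun a b h => (hP'' _ _).1 (hj a b h)
  obtain ⟨PK, hPK, hPK'⟩ := PD.exists_comap (i.comp T)
  have hex : ∀ a : M, a ∈ V → ∃ b, PD.To a b := fun a ha => by
    rw [← hPD] at ha
    exact ⟨PD.ρ ⟨a, ha⟩, ha, rfl⟩
  set S : M := i (PowerSeries.X - PowerSeries.C s) / i (PowerSeries.C ρ) with hS
  have hSV : S ∈ V := by
    have := hV.gauss Polynomial.X
      (fun n => by
        rw [Polynomial.coeff_X]
        split_ifs
        · exact P.V.one_mem
        · exact P.V.zero_mem) ⟨1, by simp⟩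
    rw [Polynomial.eval₂_X] at this
    exact (V.valuation_le_one_iff _).1 this.le
  obtain ⟨τ, hτ⟩ := hex S hSV
  have htr : ∀ q : k₀[X], q.eval₂ j τ = 0 → q = 0 := by
    intro q hq
    by_contra hq0
    obtain ⟨Q, hQ⟩ := BB3.lift P hs q
    obtain ⟨n, hn⟩ : ∃ n, q.coeff n ≠ 0 := ⟨_, Polynomial.leadingCoeff_ne_zero.2 hq0⟩
    have h1 := hV.gauss Q (fun n => (hQ n).1) ⟨n, (hQ n).val_eq_one_iff.2 hn⟩
    have h2 := BB3.to_eval₂ hj' hQ hτ
    rw [← hPD] at h1
    exact h2.val_eq_one_iff.1 h1 hq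
  refine ⟨_, inferInstance, inferInstance, PK, j, τ, by rw [hPK, hPD], ?_, htr, ?_⟩
  · intro a e b ha h
    rw [hPK', RingHom.comp_apply, ha]
    exact hj' e b h
  intro σ _ a W π ha ⟨Q, w, hQ, hw, hw', he⟩ ⟨hπ, l, hl⟩
  have hρ' : i (PowerSeries.C ρ) ≠ 0 := by
    have : (i.comp PowerSeries.C) ρ ≠ 0 := (map_ne_zero _).2 hρ
    exact this
  have hX : PD.To (i PowerSeries.X) 0 := by
    have := hV.lt
    rw [← hPD] at this
    exact Plc.to_zero_iff.2 this
  have hw1 : ∀ m, PD.To (i (w m)) 1 := by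
    intro m
    obtain ⟨b, hb⟩ := hex _ (hV.mem (PowerSeries.mk fun p => PowerSeries.coeff (p + 1) (w m))
      fun p => by rw [PowerSeries.coeff_mk]; exact hw m _)
    have h1 := (hX.mul hb).add (hj' _ _ (hw' m))
    rw [zero_mul, zero_add, map_one, RingHom.comp_apply, ← map_mul, ← map_add,
      ← PowerSeries.eq_X_mul_shift_add_const] at h1
    exact h1
  have hsp : PD.Sp (fun m => (i.comp T) (a m)) fun m => (π m).eval₂ j τ := by
    refine ⟨fun h => hπ (funext fun m => htr _ (congrFun h m)),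
      i (PowerSeries.C l) * i (Q : PowerSeries E), fun m => ?_⟩
    have h1 : ∀ n, P.To ((Polynomial.C l * ((W m).comp (Polynomial.X + Polynomial.C s)).comp
        (Polynomial.C ρ * Polynomial.X)).coeff n) ((π m).coeff n) := by
      intro n
      rw [Polynomial.coeff_C_mul, Polynomial.comp_C_mul_X_coeff, ← mul_assoc]
      exact hl m n
    have h2 := (BB3.to_eval₂ hj' h1 hτ).mul (hw1 m)
    have h3 : (i.comp PowerSeries.C) ρ * S + (i.comp PowerSeries.C) s = i PowerSeries.X := by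
      rw [hS, RingHom.comp_apply, RingHom.comp_apply, mul_div_cancel₀ _ hρ', map_sub,
        sub_add_cancel]
    rw [Polynomial.eval₂_mul, Polynomial.eval₂_C, Polynomial.eval₂_comp, Polynomial.eval₂_comp,
      Polynomial.eval₂_mul, Polynomial.eval₂_C, Polynomial.eval₂_X, Polynomial.eval₂_add,
      Polynomial.eval₂_C, Polynomial.eval₂_X, h3, ← Polynomial.hom_eval₂,
      Polynomial.eval₂_C_X_eq_coe, mul_one, mul_assoc, ← map_mul, ← he m] at h2
    convert h2 using 1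
    simp only [RingHom.comp_apply, map_mul]
    ring
  obtain ⟨z, hz, l', hl'⟩ := PK.exists_sp ha
  have hsp' : PD.Sp (fun m => (i.comp T) (a m)) z :=
    ⟨hz, (i.comp T) l', fun m => by rw [← map_mul]; exact (hPK' _ _).1 (hl' m)⟩
  obtain ⟨c, hc, hcz⟩ := hsp.unique hsp'
  exact ⟨c, hc, hcz ▸ ⟨hz, l', hl'⟩⟩

end disc

section core
variable {k K E k₀ M : Type u} [Field k] [Field K] [Algebra k K] [Field E] [IsAlgClosed E]
  [Field k₀] [Field M] [Algebra K k₀] [Algebra k k₀] [IsScalarTower k K k₀]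
  {ι J : Type} [Finite ι] [Finite J]

omit [IsAlgClosed E] [Algebra K k₀] [IsScalarTower k K k₀] [Finite ι] in
theorem BB3.on_of_eval {D : Type u} [Field D] [Algebra k D] {ξ : ι → K} (j : k₀ →ₐ[k] D) {τ : D}
    (h : ∀ q : k₀[X], q.eval₂ (j : k₀ →+* D) τ = 0 → q = 0) {π : ι → k₀[X]}
    (hπ : On k ξ fun l => (π l).eval₂ (j : k₀ →+* D) τ) : On k ξ π := by
  intro d G hG hξ
  apply h
  have := hπ d G hG hξ
  let ev : k₀[X] →ₐ[k] D := Polynomial.eval₂AlgHom j τ fun _ => Commute.all _ _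
  have h2 : ev (MvPolynomial.aeval π G) = MvPolynomial.aeval (fun l => ev (π l)) G := by
    rw [← AlgHom.comp_apply, MvPolynomial.comp_aeval]
  exact h2.trans this

theorem BB3.core (P : Plc E k₀) (hs : Function.Surjective P.ρ) {i : PowerSeries E →+* M}
    (hd : ∀ s ρ, ρ ≠ 0 → P.V.valuation s < 1 → P.V.valuation ρ < 1 → ∃ V, IsDisc P.V i s ρ V)
    (T : K →+* PowerSeries E)
    (hc : ∀ c : k, ∃ e, T (algebraMap k K c) = PowerSeries.C e ∧ P.To e (algebraMap k k₀ c))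
    (h0 : ∀ a, P.To (PowerSeries.constantCoeff (T a)) (algebraMap K k₀ a))
    {ξ : ι → K} (hξ : ξ ≠ 0) {Δ : J → K} (hR : Rigid k ξ Δ) {W : ι → E[X]} {W' : J → E[X]}
    (hW : BB3.Mod P (fun l => T (ξ l)) W) (hW' : BB3.Mod P (fun l => T (Δ l)) W') (I : J)
    {I₀ : J} (h₀ : Δ I₀ ≠ 0) {s ρ : E} {V : ValuationSubring M} (hρ : ρ ≠ 0)
    (hs1 : P.V.valuation s < 1) (hρ1 : P.V.valuation ρ < 1) (hV : IsDisc P.V i s ρ V) :
    i (T (Δ I / Δ I₀)) ∈ V := by
  have := BB3.algClosed P hs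
  have hΔ : Δ ≠ 0 := fun h => h₀ (congrFun h I₀)
  have hz₀ : (fun l => algebraMap K k₀ (ξ l)) ≠ 0 := fun h =>
    hξ (funext fun l => (map_eq_zero _).1 (congrFun h l))
  have hδ₀ : (fun l => algebraMap K k₀ (Δ l)) ≠ 0 := fun h =>
    hΔ (funext fun l => (map_eq_zero _).1 (congrFun h l))
  have hsp := hW.sp hz₀ fun l => h0 (ξ l)
  have hsp' := hW'.sp hδ₀ fun l => h0 (Δ l)
  have hne : ∀ {σ : Type} {W : σ → E[X]} {z : σ → k₀}, P.Sp (fun l => (W l).coeff 0) z →
      ∀ s, (fun l => (W l).comp (Polynomial.X + Polynomial.C s)) ≠ 0 := by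
    intro σ W z ⟨hz, l, hl⟩ s h
    apply hz
    funext m
    have h1 := hl m
    have h2 : W m = 0 := Polynomial.comp_X_add_C_eq_zero_iff.1 (congrFun h m)
    simp only [h2, Polynomial.coeff_zero, mul_zero] at h1
    exact h1.unique Plc.to_zero
  -- initial forms lie on the variety
  have hon : ∀ s ρ, ρ ≠ 0 → P.V.valuation s < 1 → P.V.valuation ρ < 1 → ∀ π,
      P.In (fun l => (W l).comp (Polynomial.X + Polynomial.C s)) ρ π → On k ξ π := by
    intro s ρ hρ hs1 hρ1 π hπ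
    obtain ⟨V, hV⟩ := hd s ρ hρ hs1 hρ1
    obtain ⟨D, _, _, PK, j, τ, -, h2, h3, h4⟩ := BB3.disc P hs hV hρ T
    let : Algebra k D := (j.comp (algebraMap k k₀)).toAlgebra
    have hO : PK.Over k := fun c => by
      obtain ⟨e, he, he'⟩ := hc c
      exact h2 _ e _ he he'
    obtain ⟨c, hc0, hsp⟩ := h4 ι ξ W π hξ hW hπ
    exact BB3.on_of_eval (k := k) { j with commutes' := fun _ => rfl } h3
      ((hsp.on hO on_self).of_smul hc0)
  -- chains
  have hch : ∀ s ρ, ρ ≠ 0 → P.V.valuation s < 1 → P.V.valuation ρ < 1 → ∀ π z',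
      P.In (fun l => (W l).comp (Polynomial.X + Polynomial.C s)) ρ π → Top π z' →
        Chain k ξ (fun l => algebraMap K k₀ (ξ l)) z' := by
    intro s ρ hρ hs1 hρ1 π z' hπ hz'
    refine (BB3.three P W (fun z z' => On k ξ z ∧ z ≠ 0 ∧ Chain k ξ z z') ?_ ?_ ?_ ?_ hsp hρ hs1
      hρ1 hπ hz').2.2
    · rintro z z' z'' ⟨h1, h2, h3⟩ ⟨-, -, h4⟩
      exact ⟨h1, h2, h3.trans h4⟩
    · rintro z z' ⟨h1, h2, h3⟩
      exact ⟨h3.on h1, h3.ne_zero h2, h3.symm⟩
    · rintro z z' c hc ⟨h1, h2, h3⟩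
      exact ⟨h1, h2, h3.tail (link_smul (h3.on h1) (h3.ne_zero h2) hc)⟩
    · intro s ρ hρ hs1 hρ1 π z z' hπ hz hz'
      have := link_of_low_top (hon s ρ hρ hs1 hρ1 π hπ) hz hz'
      exact ⟨this.on.1, hz.1, Relation.ReflTransGen.single this⟩
  -- rigidity
  have hrig : ∀ s ρ, ρ ≠ 0 → P.V.valuation s < 1 → P.V.valuation ρ < 1 → ∀ π',
      P.In (fun l => (W' l).comp (Polynomial.X + Polynomial.C s)) ρ π' →
        ∃ (r : J → k₀) (q : k₀[X]), ∀ l, π' l = Polynomial.C (r l) * q := by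
    intro s ρ hρ hs1 hρ1 π' hπ'
    obtain ⟨V, hV⟩ := hd s ρ hρ hs1 hρ1
    obtain ⟨D, _, _, PK, j, τ, -, h2, h3, h4⟩ := BB3.disc P hs hV hρ T
    let : Algebra k₀ D := j.toAlgebra
    let : Algebra k D := (j.comp (algebraMap k k₀)).toAlgebra
    let : Algebra K D := (j.comp (algebraMap K k₀)).toAlgebra
    have : IsScalarTower k K D := IsScalarTower.of_algebraMap_eq fun c =>
      congrArg j (IsScalarTower.algebraMap_apply k K k₀ c)
    have : IsScalarTower K k₀ D := IsScalarTower.of_algebraMap_eq fun _ => rfl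
    let jk : k₀ →ₐ[k] D := { j with commutes' := fun _ => rfl }
    have hO : PK.Over k := fun c => by
      obtain ⟨e, he, he'⟩ := hc c
      exact h2 _ e _ he he'
    obtain ⟨π, hπ⟩ := P.exists_in (hne hsp s) hρ
    obtain ⟨z', hz'⟩ := exists_top hπ.1
    obtain ⟨c, hc0, hspc⟩ := h4 ι ξ W π hξ hW hπ
    obtain ⟨c', hc0', hspc'⟩ := h4 J Δ W' π' hΔ hW' hπ'
    have c1 : Chain k ξ (fun l => algebraMap K D (ξ l)) fun l => j (z' l) :=
      (hch s ρ hρ hs1 hρ1 π z' hπ hz').map jk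
    have hev : (fun l => (π l).eval₂ j τ) ≠ 0 := fun h =>
      hπ.1 (funext fun l => h3 _ (congrFun h l))
    have c2 : Link k ξ (fun l => (π l).eval₂ j τ) fun l => j (z' l) := by
      have ho : On k ξ fun l => (π l).map j :=
        (hon s ρ hρ hs1 hρ1 π hπ).map (Polynomial.mapAlgHom jk)
      have ht : Top (fun l => (π l).map j) fun l => j (z' l) := by
        obtain ⟨h1, n, h2, h3⟩ := hz'
        refine ⟨fun h => h1 (funext fun l => (map_eq_zero j).1 (congrFun h l)), n,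
          fun l => ?_, fun l n' hn => ?_⟩
        · rw [Polynomial.coeff_map, h2]
        · rw [Polynomial.coeff_map, h3 l n' hn, map_zero]
      have := link_of_eval_top ho τ (by simpa only [Polynomial.eval_map] using hev) ht
      simpa only [Polynomial.eval_map] using this
    have c3 : Chain k ξ (fun l => algebraMap K D (ξ l)) (c • fun l => (π l).eval₂ j τ) :=
      (c1.tail c2.symm).tail (link_smul c2.on.1 hev hc0)
    have hal := hR D PK hO _ hspc c3 _ hspc'
    obtain ⟨I₁, hI₁⟩ := Function.ne_iff.1 hπ'.1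
    have hI₁' : (π' I₁).eval₂ j τ ≠ 0 := fun h => hI₁ (h3 _ h)
    have hr : ∀ l, ∃ r : k₀, π' l = Polynomial.C r * π' I₁ := by
      intro l
      have h5 : IsIntegral k₀ ((π' l).eval₂ j τ / (π' I₁).eval₂ j τ) := by
        have := (hal l I₁).tower_top k₀
        simp only [Pi.smul_apply, smul_eq_mul, mul_div_mul_left _ _ hc0'] at this
        exact this.isIntegral
      obtain ⟨r, hr⟩ := minpoly.mem_range_of_degree_eq_one k₀ _
        (IsAlgClosed.degree_eq_one_of_irreducible k₀ (minpoly.irreducible h5))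
      refine ⟨r, sub_eq_zero.1 (h3 _ ?_)⟩
      have hr' : j r = (π' l).eval₂ j τ / (π' I₁).eval₂ j τ := hr
      rw [Polynomial.eval₂_sub, Polynomial.eval₂_mul, Polynomial.eval₂_C, hr',
        div_mul_cancel₀ _ hI₁', sub_self]
    choose r hr using hr
    exact ⟨r, π' I₁, hr⟩
  obtain ⟨π', hπ'⟩ := P.exists_in (hne hsp' s) hρ
  obtain ⟨z', hz'⟩ := exists_top hπ'.1
  obtain ⟨c, hc0, hcz⟩ : ∃ c : k₀, c ≠ 0 ∧ z' = c • fun l => algebraMap K k₀ (Δ l) := by
    refine BB3.three P W' (fun z z' => ∃ c : k₀, c ≠ 0 ∧ z' = c • z) ?_ ?_ ?_ ?_ hsp' hρ hs1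
      hρ1 hπ' hz'
    · rintro z z' z'' ⟨c, hc, rfl⟩ ⟨c', hc', rfl⟩
      exact ⟨c' * c, mul_ne_zero hc' hc, smul_smul _ _ _⟩
    · rintro z z' ⟨c, hc, rfl⟩
      exact ⟨c⁻¹, inv_ne_zero hc, (inv_smul_smul₀ hc _).symm⟩
    · rintro z z' c' hc' ⟨c, hc, rfl⟩
      exact ⟨c' * c, mul_ne_zero hc' hc, smul_smul _ _ _⟩
    · intro s ρ hρ hs1 hρ1 π z z' hπ ⟨hz, n, hn, _⟩ ⟨hz', n', hn', _⟩
      obtain ⟨r, q, hr⟩ := hrig s ρ hρ hs1 hρ1 π hπ
      have e1 : z = q.coeff n • r := funext fun l => by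
        rw [← hn l, hr l, Polynomial.coeff_C_mul, Pi.smul_apply, smul_eq_mul, mul_comm]
      have e2 : z' = q.coeff n' • r := funext fun l => by
        rw [← hn' l, hr l, Polynomial.coeff_C_mul, Pi.smul_apply, smul_eq_mul, mul_comm]
      have n1 : q.coeff n ≠ 0 := fun h => hz (by rw [e1, h, zero_smul])
      have n2 : q.coeff n' ≠ 0 := fun h => hz' (by rw [e2, h, zero_smul])
      refine ⟨q.coeff n' / q.coeff n, div_ne_zero n2 n1, ?_⟩
      rw [e1, e2, smul_smul, div_mul_cancel₀ _ n1]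
  have hπ0 : π' I₀ ≠ 0 := by
    intro h
    obtain ⟨-, n, hn, -⟩ := hz'
    have := hn I₀
    rw [h, Polynomial.coeff_zero, hcz, Pi.smul_apply, smul_eq_mul] at this
    exact mul_ne_zero hc0 ((map_ne_zero _).2 h₀) this.symm
  obtain ⟨D, _, _, PK, j, τ, h1, -, h3, h4⟩ := BB3.disc P hs hV hρ T
  obtain ⟨c', hc0', -, l, hl⟩ := h4 J Δ W' π' hΔ hW' hπ'
  have hb : (c' • fun l => (π' l).eval₂ j τ) I₀ ≠ 0 :=
    mul_ne_zero hc0' fun h => hπ0 (h3 _ h)
  have hl0 : l ≠ 0 := by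
    rintro rfl
    have := hl I₀
    rw [zero_mul] at this
    exact hb (this.unique Plc.to_zero)
  have hm := ((hl I).mul ((hl I₀).inv hb)).1
  rw [← div_eq_mul_inv, mul_div_mul_left _ _ hl0, h1] at hm
  exact hm

end core

variable {k K Ω : Type u} [Field k] [Field K] [Algebra k K] [Field Ω] {ι J : Type} [Finite ι]
  [Finite J]

theorem BB3.exists_mod {E k₀ : Type*} [Field E] [Field k₀] (P : Plc E k₀)
    (φ : FractionRing (PowerSeries Ω) →+* E) (hφ : ∀ a, φ (algebraMap (PowerSeries Ω) _ a) ∈ P.V)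
    (ht : P.V.valuation (φ (algebraMap (PowerSeries Ω) _ PowerSeries.X)) < 1) {x : K →+* Ω}
    {S : K →+* PowerSeries (FractionRing (PowerSeries Ω))} (hS : Germs k x S) (a : ι → K) :
    ∃ W, BB3.Mod P (fun l => PowerSeries.map φ (S (a l))) W := by
  classical
  have := Fintype.ofFinite ι
  choose f g hf hg hu hh using fun l => hS.bd (a l)
  choose c w p q hw hp hq hq' hq0 he using fun l => weier_div (hf l) (hg l) (hu l) (hh l)
  set ψ : PowerSeries Ω →+* E := φ.comp (algebraMap (PowerSeries Ω) _) with hψ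
  have hψi : Function.Injective ψ := φ.injective.comp (IsFractionRing.injective _ _)
  refine ⟨fun l => Polynomial.C (φ (c l)) * (p l).map ψ * ∏ m ∈ Finset.univ.erase l, (q m).map ψ,
    ∏ m, (q m).map ψ, fun l => PowerSeries.map ψ (w l), ?_, fun l n => ?_, fun l => ?_,
    fun l => ?_⟩
  · rw [Polynomial.coeff_zero_prod, Finset.prod_ne_zero_iff]
    intro m _
    rw [Polynomial.coeff_map]
    exact (map_ne_zero_iff ψ hψi).2 (hq0 m)
  · rw [PowerSeries.coeff_map]
    exact hφ _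
  · have h1 : PowerSeries.constantCoeff (PowerSeries.map ψ (w l)) =
        ψ (PowerSeries.constantCoeff (w l)) := by
      rw [← PowerSeries.coeff_zero_eq_constantCoeff_apply, PowerSeries.coeff_map,
        PowerSeries.coeff_zero_eq_constantCoeff_apply]
    rw [h1, PowerSeries.eq_X_mul_shift_add_const (PowerSeries.constantCoeff (w l)), hw l,
      map_one, map_add, map_one, map_mul]
    have h2 : P.To (ψ PowerSeries.X) 0 := Plc.to_zero_iff.2 ht
    have h3 := (h2.mul ⟨hφ (PowerSeries.mk fun n =>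
      PowerSeries.coeff (n + 1) (PowerSeries.constantCoeff (w l))), rfl⟩).add Plc.to_one
    rw [zero_mul, zero_add] at h3
    exact h3
  · have h1 := congrArg (PowerSeries.map φ) (he l)
    have h2 : ∀ f : PowerSeries (PowerSeries Ω), PowerSeries.map φ (PowerSeries.map
        (algebraMap (PowerSeries Ω) (FractionRing (PowerSeries Ω))) f) = PowerSeries.map ψ f :=
      fun f => by rw [hψ, PowerSeries.map_comp, RingHom.comp_apply]
    rw [map_mul, map_mul, h2, h2, map_mul, PowerSeries.map_C, ← Polynomial.polynomial_map_coe,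
      ← Polynomial.polynomial_map_coe] at h1
    rw [← Finset.mul_prod_erase _ _ (Finset.mem_univ l), Polynomial.coe_mul, Polynomial.coe_mul,
      Polynomial.coe_mul, Polynomial.coe_C, ← mul_assoc, h1]
    ring

theorem BB3.exists_surj {E : Type u} [Field E] (O : ValuationSubring E) :
    ∃ (k₀ : Type u) (_ : Field k₀) (P : Plc E k₀), P.V = O ∧ Function.Surjective P.ρ := by
  obtain ⟨P, h, hP⟩ := exists_plc_residue O (RingHom.id _)
  refine ⟨_, inferInstance, P, h, fun b => ?_⟩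
  obtain ⟨a, rfl⟩ := IsLocalRing.residue_surjective b
  exact ⟨_, (hP a).2⟩

/-- bend and break -/
theorem bb {ξ : ι → K} (hξ : ξ ≠ 0) {Δ : J → K} (hR : Rigid k ξ Δ) {x : K →+* Ω}
    {S : K →+* PowerSeries (FractionRing (PowerSeries Ω))} (hS : Germs k x S) (I : J) {I₀ : J}
    (h₀ : Δ I₀ ≠ 0) (i : ℕ) : PowerSeries.coeff i (S (Δ I / Δ I₀)) ∈
      (algebraMap (PowerSeries Ω) (FractionRing (PowerSeries Ω))).range := by
  set E := AlgebraicClosure (FractionRing (PowerSeries Ω))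
  let φ : FractionRing (PowerSeries Ω) →+* E := algebraMap _ _
  have hφ : ∀ a, φ (algebraMap (PowerSeries Ω) _ a) = algebraMap (PowerSeries Ω) E a :=
    fun a => (IsScalarTower.algebraMap_apply _ _ _ a).symm
  have : FaithfulSMul (PowerSeries Ω) E := (faithfulSMul_iff_algebraMap_injective _ _).2 <| by
    rw [IsScalarTower.algebraMap_eq (PowerSeries Ω) (FractionRing (PowerSeries Ω)) E]
    exact φ.injective.comp (IsFractionRing.injective _ _)
  have : Algebra.IsAlgebraic (PowerSeries Ω) E :=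
    (IsFractionRing.comap_isAlgebraic_iff (K := FractionRing (PowerSeries Ω))).2 inferInstance
  obtain ⟨O, hO, ht, harch⟩ := exists_valued (Ω := Ω) (E := E)
  obtain ⟨k₀, _, P, rfl, hs⟩ := BB3.exists_surj O
  have hO' : ∀ a, φ (algebraMap (PowerSeries Ω) _ a) ∈ P.V := fun a => by rw [hφ]; exact hO a
  have ht' : P.V.valuation (φ (algebraMap (PowerSeries Ω) _ PowerSeries.X)) < 1 := by
    rw [hφ]; exact ht
  let e : K →+* E := φ.comp ((algebraMap Ω _).comp x)
  have he : ∀ a, e a ∈ P.V := fun a => by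
    have := hO' (algebraMap Ω _ (x a))
    rw [← IsScalarTower.algebraMap_apply] at this
    exact this
  let : Algebra K k₀ :=
    (P.ρ.comp (e.codRestrict P.V he)).toAlgebra
  let : Algebra k k₀ :=
    ((algebraMap K _).comp (algebraMap k K)).toAlgebra
  have : IsScalarTower k K k₀ :=
    IsScalarTower.of_algebraMap_eq fun _ => rfl
  have hto : ∀ a, P.To (e a) (algebraMap K _ a) := fun a => ⟨he a, rfl⟩
  let T : K →+* PowerSeries E := (PowerSeries.map φ).comp S
  let j : PowerSeries E →+* FractionRing (PowerSeries E) := algebraMap _ _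
  have hj : Function.Injective j := IsFractionRing.injective _ _
  obtain ⟨W, hW⟩ := BB3.exists_mod P φ hO' ht' hS ξ
  obtain ⟨W', hW'⟩ := BB3.exists_mod P φ hO' ht' hS Δ
  obtain ⟨f, g, hf, hg, hu, hh⟩ := hS.bd (Δ I / Δ I₀)
  refine int_of_discs P.V φ hO' ht' harch j hj hf hg hu hh (fun s ρ V hρ hs1 hρ1 hV => ?_) i
  refine BB3.core P hs (fun s ρ hρ hs1 hρ1 => exists_disc P.V harch j hj hρ hs1 hρ1) T
    (fun c => ⟨e (algebraMap k K c), ?_, hto _⟩) (fun a => ?_) hξ hR hW hW' I h₀ hρ hs1 hρ1 hV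
  · show PowerSeries.map φ (S _) = _
    rw [hS.const, PowerSeries.map_C]
    rfl
  · have : PowerSeries.constantCoeff (T a) = e a := by
      show PowerSeries.constantCoeff (PowerSeries.map φ (S a)) = _
      rw [← PowerSeries.coeff_zero_eq_constantCoeff_apply, PowerSeries.coeff_map,
        PowerSeries.coeff_zero_eq_constantCoeff_apply, hS.zero]
      rfl
    rw [this]
    exact hto a

end Pool.Agent.Lib.MP_7fcda1_ag
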