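import Pool.Agent.Lib.MP_7fcda1_ag.Iface2
import Pool.Agent.Lib.MP_7fcda1_ag.Plc1

open AlgebraicGeometry CategoryTheory MvPolynomial IsLocalRing

noncomputable section

universe u

namespace Pool.Agent.Lib.MP_7fcda1_ag.Br1

section alg

variable {k K Ω : Type u} [Field k] [Field K] [Field Ω] [Algebra k K] [Algebra k Ω] {ι : Type}

variable (k) in
/-- The graph of the specialisation `ξ ↦ w` on the degree zero fractions. -/
def graph (ξ : ι → K) (w : ι → Ω) : Subalgebra k (K × Ω) where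
  carrier := {g | ∃ (d : ℕ) (F M : MvPolynomial ι k), F.IsHomogeneous d ∧ M.IsHomogeneous d ∧
    aeval w M ≠ 0 ∧ g.1 * aeval ξ M = aeval ξ F ∧ g.2 * aeval w M = aeval w F}
  mul_mem' := by
    rintro a b ⟨d, F, M, h1, h2, h3, h4, h5⟩ ⟨d', F', M', h1', h2', h3', h4', h5'⟩
    refine ⟨d + d', F * F', M * M', h1.mul h1', h2.mul h2', ?_, ?_, ?_⟩
    · rw [map_mul]; exact mul_ne_zero h3 h3'
    · rw [map_mul, map_mul, ← h4, ← h4', Prod.fst_mul]; ring
    · rw [map_mul, map_mul, ← h5, ← h5', Prod.snd_mul]; ring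
  add_mem' := by
    rintro a b ⟨d, F, M, h1, h2, h3, h4, h5⟩ ⟨d', F', M', h1', h2', h3', h4', h5'⟩
    refine ⟨d + d', F * M' + M * F', M * M', (h1.mul h2').add (h2.mul h1'), h2.mul h2', ?_, ?_, ?_⟩
    · rw [map_mul]; exact mul_ne_zero h3 h3'
    · rw [map_add, map_mul, map_mul, map_mul, ← h4, ← h4', Prod.fst_add]; ring
    · rw [map_add, map_mul, map_mul, map_mul, ← h5, ← h5', Prod.snd_add]; ring
  algebraMap_mem' c := ⟨0, C c, 1, isHomogeneous_C _ c, isHomogeneous_one _ _, by simp, by simp,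
    by simp⟩

lemma graph_inj {ξ : ι → K} {w : ι → Ω} (h : On k ξ w) {g : K × Ω} (hg : g ∈ graph k ξ w)
    (h0 : g.1 = 0) : g = 0 := by
  obtain ⟨d, F, M, h1, -, h3, h4, h5⟩ := hg
  rw [h0, zero_mul] at h4
  rw [h d F h1 h4.symm, mul_eq_zero] at h5
  exact Prod.ext h0 (h5.resolve_right h3)

lemma ne_of_on {ξ : ι → K} {w : ι → Ω} (h : On k ξ w) {j : ι} (hj : w j ≠ 0) : ξ j ≠ 0 :=
  fun h0 => hj (by simpa using h 1 (X j) (isHomogeneous_X k j) (by simpa using h0))

lemma mem_graph {ξ : ι → K} {w : ι → Ω} (h : On k ξ w) {j : ι} (hj : w j ≠ 0) (i : ι) :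
    (ξ i / ξ j, w i / w j) ∈ graph k ξ w :=
  ⟨1, X i, X j, isHomogeneous_X k i, isHomogeneous_X k j, by simpa using hj,
    by simp [ne_of_on h hj], by simp [hj]⟩

lemma on_of_inj {ξ : ι → K} {w : ι → Ω} {R : Type u} [CommRing R] [Algebra k R] {v : ι → R}
    (θ : R →ₐ[k] Ω) (hθ : Function.Injective θ) (hv : ∀ i, θ (v i) = w i) (h : On k ξ w) :
    On k ξ v := fun d G hG h0 => hθ (by
  rw [map_zero, ← h d G hG h0, ← AlgHom.comp_apply, comp_aeval]
  simp only [hv])

lemma On.trans {ξ : ι → K} {w : ι → Ω} {R : Type u} [CommRing R] [Algebra k R] {v : ι → R}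
    (h : On k ξ w) (h' : On k w v) : On k ξ v := fun d G hG h0 => h' d G hG (h d G hG h0)

/-- A link is constant or is carried by a rational curve. -/
lemma link_cases {ξ : ι → K} {z z' : ι → k} (h : Link k ξ z z') :
    (On k z z' ∧ On k z' z) ∨ ∃ (w : ι → RatFunc k) (j : ι), On k ξ w ∧ w j = 1 ∧
      IntermediateField.adjoin k (Set.range w) = ⊤ ∧ On k w z ∧ On k w z' := by
  obtain ⟨hz, hz', d, P, h1, h2, h3, h4⟩ := h
  obtain ⟨j, hj⟩ := Function.ne_iff.1 hz
  have hP : P j ≠ 0 := fun h0 => hj (by rw [← h3 j, h0]; simp)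
  let θ : Polynomial k →ₐ[k] RatFunc k := IsScalarTower.toAlgHom k _ _
  have hθ : Function.Injective θ := RatFunc.algebraMap_injective k
  have hθj : θ (P j) ≠ 0 := (map_ne_zero_iff θ hθ).2 hP
  let v : ι → RatFunc k := fun i => θ (P i) / θ (P j)
  have hv : v = (θ (P j))⁻¹ • fun i => θ (P i) := by
    funext i; simp [v, div_eq_inv_mul]
  have hv' : (fun i => θ (P i)) = θ (P j) • v := by
    funext i; simp only [v, Pi.smul_apply, smul_eq_mul]; field_simp
  have hξv : On k ξ v := hv ▸ (h1.map θ).smul _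
  have hvP : On k v P := on_of_inj θ hθ (fun _ => rfl) (hv' ▸ on_self.smul _)
  obtain ⟨hvz, hvz'⟩ := Link.on (show Link k v z z' from ⟨hz, hz', d, P, hvP, h2, h3, h4⟩)
  let E := IntermediateField.adjoin k (Set.range v)
  have hE : ∀ i, v i ∈ E := fun i => IntermediateField.subset_adjoin _ _ ⟨i, rfl⟩
  by_cases hb : E = ⊥
  · left
    choose c hc using fun i => IntermediateField.mem_bot.1 (hb ▸ hE i)
    have hPc : ∀ i, P i = Polynomial.C (c i) * P j := fun i => hθ (by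
      rw [map_mul, ← Polynomial.algebraMap_eq, θ.commutes, hc]
      simp only [v]; field_simp)
    have e1 : ∀ i, z i = c i * z j := fun i => by
      rw [← h3 i, hPc i, Polynomial.coeff_C_mul, h3]
    have e2 : ∀ i, z' i = c i * z' j := fun i => by
      rw [← h4 i, hPc i, Polynomial.coeff_C_mul, h4]
    have hj' : z' j ≠ 0 := fun h0 => hz' (funext fun i => by rw [e2, h0, mul_zero]; rfl)
    have hj0 : z j ≠ 0 := hj
    have e3 : (z' j / z j) • z = z' := by
      funext i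
      rw [Pi.smul_apply, smul_eq_mul, e1 i, e2 i]
      field_simp
    have e4 : (z j / z' j) • z' = z := by
      funext i
      rw [Pi.smul_apply, smul_eq_mul, e1 i, e2 i]
      field_simp
    have o1 := (on_self (k := k) (ξ := z)).smul (z' j / z j)
    have o2 := (on_self (k := k) (ξ := z')).smul (z j / z' j)
    rw [e3] at o1
    rw [e4] at o2
    exact ⟨o1, o2⟩
  · right
    let e := RatFunc.Luroth.algEquiv hb
    let τ : RatFunc k →ₐ[k] RatFunc k := E.val.comp e.toAlgHom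
    let w : ι → RatFunc k := fun i => e.symm ⟨v i, hE i⟩
    have hw : ∀ i, τ (w i) = v i := fun i => by simp [τ, w]
    have hwv : On k w v := by
      have := (on_self (k := k) (ξ := w)).map τ
      simpa only [hw] using this
    have hτ : Function.Injective τ := τ.injective
    refine ⟨w, j, on_of_inj τ hτ hw hξv, hτ ?_, ?_, On.trans hwv hvz,
      On.trans hwv hvz'⟩
    · rw [hw, map_one]; exact div_self hθj
    · apply IntermediateField.map_injective τ
      rw [IntermediateField.adjoin_map, ← Set.range_comp,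
        show τ ∘ w = v from funext hw, ← AlgHom.fieldRange_eq_map]
      ext a
      constructor
      · intro ha
        exact ⟨e.symm ⟨a, ha⟩, by simp [τ]⟩
      · rintro ⟨b, rfl⟩
        exact (e b).2

end alg

variable {k : Type u} [Field k] {X : Scheme.{u}} [IsIntegral X] [Algebra k X.functionField] {N : ℕ}
  {ξ : Fin (N + 1) → X.functionField} {U : Fin (N + 1) → X.Opens}
  {Ω Ω' : Type u} [Field Ω] [Algebra k Ω] [Field Ω'] [Algebra k Ω']

lemma exists_pi (hc : Coord (k := k) ξ U) {j : Fin (N + 1)} (hj : ξ j ≠ 0) :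
    ∃ π : MvPolynomial (Fin (N + 1)) k →+* Γ(X, U j), Function.Surjective π ∧
      ∀ h f, X.presheaf.germ (U j) (genericPoint X) h (π f) = aeval (fun i => ξ i / ξ j) f := by
  obtain ⟨h, hr⟩ := hc.ring j hj
  let g := (X.presheaf.germ (U j) (genericPoint X) h).hom
  have hg : Function.Injective g := germ_injective_of_isIntegral X (genericPoint X) h
  let e : Γ(X, U j) ≃+* g.range := RingEquiv.ofBijective g.rangeRestrict
    ⟨fun _ _ h => hg (congrArg Subtype.val h), g.rangeRestrict_surjective⟩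
  have hm : ∀ f : MvPolynomial (Fin (N + 1)) k, aeval (fun i => ξ i / ξ j) f ∈ g.range :=
    fun f => by
      change _ ∈ Set.range (X.presheaf.germ (U j) (genericPoint X) h)
      rw [hr, SetLike.mem_coe, Algebra.adjoin_range_eq_range_aeval]
      exact ⟨f, rfl⟩
  let π := e.symm.toRingHom.comp
    ((aeval (R := k) fun i => ξ i / ξ j).toRingHom.codRestrict g.range hm)
  have hπ : ∀ f, g (π f) = aeval (fun i => ξ i / ξ j) f := fun f =>
    congrArg Subtype.val (e.apply_symm_apply ⟨_, hm f⟩)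
  refine ⟨π, fun a => ?_, fun _ => hπ⟩
  have : g a ∈ Algebra.adjoin k (Set.range fun i => ξ i / ξ j) := by
    rw [← SetLike.mem_coe, ← hr]; exact ⟨a, rfl⟩
  rw [Algebra.adjoin_range_eq_range_aeval] at this
  obtain ⟨f, hf⟩ := this
  exact ⟨f, hg ((hπ f).trans hf)⟩

/-- The presentation of a chart ring. -/
def piC (hc : Coord (k := k) ξ U) {j : Fin (N + 1)} (hj : ξ j ≠ 0) :
    MvPolynomial (Fin (N + 1)) k →+* Γ(X, U j) := (exists_pi hc hj).choose

lemma piC_surj (hc : Coord (k := k) ξ U) {j : Fin (N + 1)} (hj : ξ j ≠ 0) :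
    Function.Surjective (piC hc hj) := (exists_pi hc hj).choose_spec.1

lemma germ_piC (hc : Coord (k := k) ξ U) {j : Fin (N + 1)} (hj : ξ j ≠ 0) (h) (f) :
    X.presheaf.germ (U j) (genericPoint X) h (piC hc hj f) = aeval (fun i => ξ i / ξ j) f :=
  (exists_pi hc hj).choose_spec.2 h f

lemma piC_eq_zero (hc : Coord (k := k) ξ U) {j : Fin (N + 1)} (hj : ξ j ≠ 0) {f} :
    piC hc hj f = 0 ↔ aeval (fun i => ξ i / ξ j) f = 0 := by
  obtain ⟨h, -⟩ := hc.ring j hj
  rw [← germ_piC hc hj h]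
  exact (map_eq_zero_iff _ (germ_injective_of_isIntegral X (genericPoint X) h)).symm

/-- `γ` is the point with homogeneous coordinates `w`. -/
def Pt (hc : Coord (k := k) ξ U) (γ : Spec (.of Ω) ⟶ X) (w : Fin (N + 1) → Ω) : Prop :=
  ∀ j, w j ≠ 0 → ∃ (hj : ξ j ≠ 0) (φ : Γ(X, U j) ⟶ .of Ω),
    Spec.map φ ≫ (hc.aff j).fromSpec = γ ∧ ∀ f, φ (piC hc hj f) = aeval (fun i => w i / w j) f

lemma exists_pt (hc : Coord (k := k) ξ U) {w : Fin (N + 1) → Ω} (h : On k ξ w) (hw : w ≠ 0) :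
    ∃ γ, Pt hc γ w := by
  let G := graph k ξ w
  let p₁ : G →ₐ[k] X.functionField := (AlgHom.fst k _ _).comp G.val
  let p₂ : G →ₐ[k] Ω := (AlgHom.snd k _ _).comp G.val
  have hp : Function.Injective p₁ := (injective_iff_map_eq_zero p₁).2 fun g hg =>
    Subtype.ext (graph_inj h g.2 hg)
  have : IsDomain G := hp.isDomain p₁.toRingHom
  have H : ∀ j (hj : w j ≠ 0), ∃ ψ : Γ(X, U j) ⟶ .of G,
      Spec.map (CommRingCat.ofHom p₁.toRingHom) ≫ Spec.map ψ ≫ (hc.aff j).fromSpec =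
        X.fromSpecStalk (genericPoint X) ∧
      ∀ f, p₂ (ψ (piC hc (ne_of_on h hj) f)) = aeval (fun i => w i / w j) f := fun j hj => by
    let v : Fin (N + 1) → G := fun i => ⟨_, mem_graph h hj i⟩
    have h1 : ∀ f : MvPolynomial (Fin (N + 1)) k,
        p₁ (aeval v f) = aeval (fun i => ξ i / ξ j) f := fun f => by
      rw [← AlgHom.comp_apply, comp_aeval]; rfl
    have h2 : ∀ f : MvPolynomial (Fin (N + 1)) k,
        p₂ (aeval v f) = aeval (fun i => w i / w j) f := fun f => by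
      rw [← AlgHom.comp_apply, comp_aeval]; rfl
    let ψ := (piC hc (ne_of_on h hj)).liftOfSurjective (piC_surj hc _)
      ⟨(aeval (R := k) v).toRingHom, fun f hf => hp (by
        change p₁ (aeval v f) = _
        rw [h1, map_zero]; exact (piC_eq_zero hc _).1 hf)⟩
    have h3 : ∀ f, ψ (piC hc (ne_of_on h hj) f) = aeval v f := fun f =>
      RingHom.liftOfRightInverse_comp_apply _ _ _ _ _
    obtain ⟨hU, -⟩ := hc.ring j (ne_of_on h hj)
    refine ⟨CommRingCat.ofHom ψ, ?_, fun f => (congrArg p₂ (h3 f)).trans (h2 f)⟩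
    rw [← (hc.aff j).fromSpecStalk_eq_fromSpecStalk hU, ← Spec.map_comp_assoc]
    have h4 : CommRingCat.ofHom ψ ≫ CommRingCat.ofHom p₁.toRingHom =
        X.presheaf.germ (U j) (genericPoint X) hU := by
      ext a
      obtain ⟨f, rfl⟩ := piC_surj hc (ne_of_on h hj) a
      exact ((congrArg p₁ (h3 f)).trans (h1 f)).trans (germ_piC hc _ hU f).symm
    rw [h4]
    rfl
  choose ψ hψ hψ' using H
  obtain ⟨j₀, hj₀⟩ := Function.ne_iff.1 hw
  have := hc.sep
  have : IsDominant (Spec.map (CommRingCat.ofHom p₁.toRingHom)) :=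
    ⟨(PrimeSpectrum.denseRange_comap_iff_ker_le_nilRadical _).2 fun a ha => by
      rw [show a = 0 from hp (ha.trans (map_zero _).symm)]; exact zero_mem _⟩
  refine ⟨Spec.map (CommRingCat.ofHom p₂.toRingHom) ≫ Spec.map (ψ j₀ hj₀) ≫ (hc.aff j₀).fromSpec,
    fun j hj => ⟨ne_of_on h hj, ψ j hj ≫ CommRingCat.ofHom p₂.toRingHom, ?_, hψ' j hj⟩⟩
  rw [Spec.map_comp, Category.assoc, ext_of_isDominant (Spec.map (CommRingCat.ofHom p₁.toRingHom))
    ((hψ j hj).trans (hψ j₀ hj₀).symm)]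

lemma Pt.specializes {hc : Coord (k := k) ξ U} {γ : Spec (.of Ω) ⟶ X} {γ' : Spec (.of Ω') ⟶ X}
    {w : Fin (N + 1) → Ω} {w' : Fin (N + 1) → Ω'} (h : Pt hc γ w) (h' : Pt hc γ' w')
    (hw : On k w w') (h0 : w' ≠ 0) : γ (closedPoint Ω) ⤳ γ' (closedPoint Ω') := by
  obtain ⟨j, hj⟩ := Function.ne_iff.1 h0
  obtain ⟨hj', hch⟩ := hw.chart hj
  obtain ⟨h1, φ, rfl, h2⟩ := h j hj'
  obtain ⟨h1', φ', rfl, h2'⟩ := h' j hj
  rw [Scheme.Hom.comp_apply, Scheme.Hom.comp_apply]
  refine Specializes.map ?_ (hc.aff j).fromSpec.continuous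
  refine (PrimeSpectrum.le_iff_specializes _ _).1 fun a ha => ?_
  obtain ⟨f, rfl⟩ := piC_surj hc h1 a
  have h3 : φ (piC hc h1 f) ∈ maximalIdeal Ω := ha
  change φ' (piC hc h1 f) ∈ maximalIdeal Ω'
  rw [h2, maximalIdeal_eq_bot, Ideal.mem_bot] at h3
  rw [h2', hch f h3]
  exact zero_mem _

lemma Pt.over {s : X ⟶ Spec (.of k)} (hs : X.fromSpecStalk (genericPoint X) ≫ s =
      Spec.map (CommRingCat.ofHom (algebraMap k X.functionField))) {hc : Coord (k := k) ξ U}
    {γ : Spec (.of Ω) ⟶ X} {w : Fin (N + 1) → Ω} (h : Pt hc γ w) (h0 : w ≠ 0) :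
    γ ≫ s = Spec.map (CommRingCat.ofHom (algebraMap k Ω)) := by
  obtain ⟨j, hj⟩ := Function.ne_iff.1 h0
  obtain ⟨h1, φ, rfl, h2⟩ := h j hj
  obtain ⟨hU, -⟩ := hc.ring j h1
  obtain ⟨χ, hχ⟩ := Spec.map_surjective ((hc.aff j).fromSpec ≫ s)
  have h3 : χ ≫ X.presheaf.germ (U j) (genericPoint X) hU =
      CommRingCat.ofHom (algebraMap k X.functionField) := by
    apply Spec.map_injective
    rw [← hs, ← (hc.aff j).fromSpecStalk_eq_fromSpecStalk hU, Spec.map_comp, hχ]
    exact (Category.assoc _ _ _).symm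
  rw [Category.assoc, ← hχ, ← Spec.map_comp]
  congr 1
  ext c
  have h4 : χ c = piC hc h1 (C c) := germ_injective_of_isIntegral X (genericPoint X) hU (by
    rw [germ_piC, aeval_C]; exact congr($h3 c))
  exact (congrArg φ h4).trans ((h2 _).trans (aeval_C _ _))

lemma Pt.rational {s : X ⟶ Spec (.of k)} (hs : X.fromSpecStalk (genericPoint X) ≫ s =
      Spec.map (CommRingCat.ofHom (algebraMap k X.functionField))) {hc : Coord (k := k) ξ U}
    {γ : Spec (.of (RatFunc k)) ⟶ X} {w : Fin (N + 1) → RatFunc k} (h : Pt hc γ w)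
    {j : Fin (N + 1)} (hj : w j = 1) (hw : IntermediateField.adjoin k (Set.range w) = ⊤) :
    IsRationalCurve s (γ (closedPoint (RatFunc k))) := by
  have hj0 : w j ≠ 0 := hj ▸ one_ne_zero
  have hs' := h.over hs (Function.ne_iff.2 ⟨j, hj0⟩)
  obtain ⟨h1, φ, hφ, h2⟩ := h j hj0
  have hθ := Scheme.descResidueField_stalkClosedPointTo_fromSpecResidueField _ X γ
  have hx : γ (closedPoint (RatFunc k)) ∈ U j := by
    rw [← hφ, Scheme.Hom.comp_apply]
    exact (hc.aff j).range_fromSpec.le ⟨_, rfl⟩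
  obtain ⟨x, hx, θ, hθ, hxe⟩ : ∃ (x : X) (_ : x ∈ U j) (θ : X.residueField x ⟶ .of (RatFunc k)),
      Spec.map θ ≫ X.fromSpecResidueField x = γ ∧ γ (closedPoint (RatFunc k)) = x :=
    ⟨_, hx, _, hθ, rfl⟩
  rw [hxe]
  have h3 : X.evaluation (U j) _ hx ≫ θ = φ := by
    apply Spec.map_injective
    rw [← cancel_mono (hc.aff j).fromSpec, hφ, ← hθ, Scheme.fromSpecResidueField,
      ← (hc.aff j).fromSpecStalk_eq_fromSpecStalk hx, ← Scheme.germ_residue, Spec.map_comp,
      Spec.map_comp, Category.assoc, Category.assoc]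
    rfl
  have h4 : ∀ f : MvPolynomial (Fin (N + 1)) k, aeval w f ∈ θ.hom.fieldRange := fun f =>
    ⟨X.evaluation (U j) _ hx (piC hc h1 f), (congr($h3 _)).trans ((h2 f).trans (by simp [hj]))⟩
  have h5 : Function.Surjective θ := fun a => by
    have ha : a ∈ IntermediateField.adjoin k (Set.range w) := hw ▸ trivial
    obtain ⟨f, g, rfl⟩ := (IntermediateField.mem_adjoin_range_iff _ _ _).1 ha
    exact div_mem (h4 f) (h4 g)
  have : IsIso θ := (ConcreteCategory.isIso_iff_bijective θ).2 ⟨θ.hom.injective, h5⟩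
  exact ⟨asIso θ, by rw [asIso_hom, ← Category.assoc, hθ, hs']⟩

lemma exists_pt_closed [IsAlgClosed k] (hc : Coord (k := k) ξ U) {x : X} (hx : IsClosed {x}) :
    ∃ (z : Fin (N + 1) → k) (γ : Spec (.of k) ⟶ X), z ≠ 0 ∧ On k ξ z ∧ Pt hc γ z ∧
      γ (closedPoint k) = x := by
  obtain ⟨j, hj⟩ := hc.cover x
  have h1 : ξ j ≠ 0 := hc.ne j
    (((genericPoint_spec X).mem_open_set_iff (U j).isOpen).mpr ⟨x, trivial, hj⟩)
  have hm := (hc.aff j).primeIdealOf_isMaximal_of_isClosed ⟨x, hj⟩ hx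
  obtain ⟨z, hz⟩ := isMaximal_iff_eq_vanishingIdeal_singleton.1
    (Ideal.comap_isMaximal_of_surjective (piC hc h1) (piC_surj hc h1) (H := hm))
  have h2 : ∀ f, piC hc h1 f ∈ ((hc.aff j).primeIdealOf ⟨x, hj⟩).asIdeal ↔ aeval z f = 0 :=
    fun f => by rw [← mem_vanishingIdeal_singleton_iff, ← hz]; rfl
  have h3 : ∀ f : MvPolynomial (Fin (N + 1)) k, aeval (fun i => ξ i / ξ j) f = 0 →
      aeval z f = 0 := fun f hf => (h2 f).1 (by rw [(piC_eq_zero hc h1).2 hf]; exact zero_mem _)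
  have h4 : z j = 1 := by
    have := h3 (MvPolynomial.X j - 1) (by simp [h1])
    simpa [sub_eq_zero] using this
  have h5 : On k ξ z := fun d G hG h0 => h3 G (by
    have := (on_self (k := k) (ξ := ξ)).smul (ξ j)⁻¹ d G hG h0
    rw [← this]
    congr 2
    funext i
    simp [div_eq_inv_mul])
  have h6 : z ≠ 0 := Function.ne_iff.2 ⟨j, by simp [h4]⟩
  obtain ⟨γ, hγ⟩ := exists_pt hc h5 h6
  refine ⟨z, γ, h6, h5, hγ, ?_⟩
  obtain ⟨h1', φ, rfl, h7⟩ := hγ j (by simp [h4])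
  rw [Scheme.Hom.comp_apply]
  refine Eq.trans (congrArg _ ?_) ((hc.aff j).fromSpec_primeIdealOf ⟨x, hj⟩)
  refine PrimeSpectrum.ext (Ideal.ext fun a => ?_)
  obtain ⟨f, rfl⟩ := piC_surj hc h1 a
  rw [h2]
  change φ (piC hc h1 f) ∈ maximalIdeal k ↔ _
  rw [h7, maximalIdeal_eq_bot, Ideal.mem_bot]
  simp [h4]

/-- Two points are equal or lie on a connected finite union of rational curves. -/
def Conn (s : X ⟶ Spec (.of k)) (x y : X) : Prop :=
  x = y ∨ ∃ S : Set X, S.Finite ∧ (∀ c ∈ S, IsRationalCurve s c) ∧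
    _root_.IsConnected (closure S) ∧ x ∈ closure S ∧ y ∈ closure S

omit [IsIntegral X] [Algebra k X.functionField] in
lemma Conn.trans {s : X ⟶ Spec (.of k)} {x y z : X} (h : Conn s x y) (h' : Conn s y z) :
    Conn s x z := by
  rcases h with rfl | ⟨S, h1, h2, h3, h4, h5⟩
  · exact h'
  rcases h' with rfl | ⟨T, h1', h2', h3', h4', h5'⟩
  · exact Or.inr ⟨S, h1, h2, h3, h4, h5⟩
  refine Or.inr ⟨S ∪ T, h1.union h1', fun c hc => hc.elim (h2 c) (h2' c), ?_, ?_, ?_⟩ <;>
    rw [closure_union]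
  · exact h3.union ⟨y, h5, h4'⟩ h3'
  · exact Or.inl h4
  · exact Or.inr h5'

lemma conn_of_link {s : X ⟶ Spec (.of k)} (hs : X.fromSpecStalk (genericPoint X) ≫ s =
      Spec.map (CommRingCat.ofHom (algebraMap k X.functionField))) {hc : Coord (k := k) ξ U}
    {z z' : Fin (N + 1) → k} (h : Link k ξ z z') {γ γ' : Spec (.of k) ⟶ X} (hγ : Pt hc γ z)
    (hγ' : Pt hc γ' z') : Conn s (γ (closedPoint k)) (γ' (closedPoint k)) := by
  rcases link_cases h with ⟨h1, h2⟩ | ⟨w, j, h1, h2, h3, h4, h5⟩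
  · exact Or.inl ((hγ.specializes hγ' h1 h.2.1).antisymm (hγ'.specializes hγ h2 h.1)).eq
  · obtain ⟨δ, hδ⟩ := exists_pt hc h1 (Function.ne_iff.2 ⟨j, by simp [h2]⟩)
    refine Or.inr ⟨{δ (closedPoint _)}, Set.finite_singleton _, ?_, isConnected_singleton.closure,
      (hδ.specializes hγ h4 h.1).mem_closure, (hδ.specializes hγ' h5 h.2.1).mem_closure⟩
    rintro _ rfl
    exact hδ.rational hs h2 h3

theorem rcc [IsAlgClosed k] {s : X ⟶ Spec (.of k)} (hs : X.fromSpecStalk (genericPoint X) ≫ s =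
      Spec.map (CommRingCat.ofHom (algebraMap k X.functionField))) (hc : Coord (k := k) ξ U)
    (h : MRCC k ξ) : IsRCC s := by
  intro x y hx hy hxy
  obtain ⟨z, γ, h1, h2, h3, rfl⟩ := exists_pt_closed hc hx
  obtain ⟨z', γ', h1', h2', h3', rfl⟩ := exists_pt_closed hc hy
  have H : ∀ z', Chain k ξ z z' → ∀ γ' : Spec (.of k) ⟶ X, Pt hc γ' z' →
      Conn s (γ (closedPoint k)) (γ' (closedPoint k)) := fun z' hz' => by
    induction hz' with
    | refl =>
      exact fun γ' hγ' => Or.inl ((h3.specializes hγ' on_self h1).antisymm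
        (hγ'.specializes h3 on_self h1)).eq
    | tail _ hl ih =>
      intro γ' hγ'
      obtain ⟨δ, hδ⟩ := exists_pt hc hl.on.1 hl.1
      exact (ih δ hδ).trans (conn_of_link hs hl hδ hγ')
  exact (H z' (h z z' h1 h2 h1' h2') γ' h3').resolve_left hxy

end Pool.Agent.Lib.MP_7fcda1_ag.Br1
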