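import Pool.Agent.Lib.MP_7fcda1_ag.Br1a
import Pool.Agent.Lib.MP_7fcda1_ag.Br1b

open scoped IntermediateField Polynomial WithZero
open Module

noncomputable section

universe u

namespace Pool.Agent.Lib.MP_7fcda1_ag


open AlgebraicGeometry CategoryTheory

variable {k : Type u} [Field k] {X : Scheme.{u}} [IsIntegral X]

theorem exists_coord {s : X ⟶ Spec (.of k)} (hp : IsProjective s) : letI := algK s
    ∃ (N : ℕ) (ξ : Fin (N + 1) → X.functionField) (U : Fin (N + 1) → X.Opens) (i₀ : Fin (N + 1)),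
      Coord (k := k) ξ U ∧ ξ i₀ = 1 ∧ IntermediateField.adjoin k (Set.range ξ) = ⊤ := by
  letI := algK s
  obtain ⟨N, ξ, U, i₀, h, h₀⟩ := Br1.coord hp (Br1.algK_spec s)
  exact ⟨N, ξ, U, i₀, h, h₀, Br1.adjoin_eq_top h h₀⟩

theorem bridge_rcc [IsAlgClosed k] (s : X ⟶ Spec (.of k)) {N : ℕ}
    {ξ : Fin (N + 1) → X.functionField} {U : Fin (N + 1) → X.Opens} : letI := algK s
    Coord (k := k) ξ U → MRCC k ξ → IsRCC s :=
  letI := algK s
  Br1.rcc (Br1.algK_spec s)

end Pool.Agent.Lib.MP_7fcda1_ag
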