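import Pool.Agent.Lib.MP_7fcda1_ag.Iface2

open AlgebraicGeometry CategoryTheory MvPolynomial HomogeneousLocalization

noncomputable section

universe u

namespace Pool.Agent.Lib.MP_7fcda1_ag.Br1

attribute [local instance] MvPolynomial.gradedAlgebra

section evalAt

variable {K : Type u} [Field K] {X : Scheme.{u}}

/-- Evaluation of sections at a `K`-point. -/
def evalAt (γ : Spec (.of K) ⟶ X) (U : X.Opens) (h : ⊤ ≤ γ ⁻¹ᵁ U) :
    Γ(X, U) ⟶ .of K :=
  γ.appLE U ⊤ h ≫ (Scheme.ΓSpecIso (.of K)).hom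

lemma SpecMap_evalAt (γ : Spec (.of K) ⟶ X) {U : X.Opens} (hU : IsAffineOpen U)
    (h : ⊤ ≤ γ ⁻¹ᵁ U) : Spec.map (evalAt γ U h) ≫ hU.fromSpec = γ := by
  rw [evalAt, Spec.map_comp, Category.assoc,
    IsAffineOpen.SpecMap_appLE_fromSpec γ hU (isAffineOpen_top _) h, IsAffineOpen.fromSpec_top,
    Scheme.isoSpec_Spec_inv, ← Spec.map_comp_assoc]
  simp

lemma evalAt_eq_of_eq (γ : Spec (.of K) ⟶ X) {U : X.Opens} (hU : IsAffineOpen U)
    (h : ⊤ ≤ γ ⁻¹ᵁ U) (φ : Γ(X, U) ⟶ .of K) (hφ : Spec.map φ ≫ hU.fromSpec = γ) :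
    evalAt γ U h = φ := by
  have := (SpecMap_evalAt γ hU h).trans hφ.symm
  rw [cancel_mono] at this
  exact Spec.map_injective this

lemma top_le_preimage_of_eq (γ : Spec (.of K) ⟶ X) {U : X.Opens} (hU : IsAffineOpen U)
    (φ : Γ(X, U) ⟶ .of K) (hφ : Spec.map φ ≫ hU.fromSpec = γ) : ⊤ ≤ γ ⁻¹ᵁ U := by
  rw [← hφ, Scheme.Hom.comp_preimage, hU.fromSpec_preimage_self]
  simp

lemma appLE_evalAt {Y : Scheme.{u}} (γ : Spec (.of K) ⟶ X) (f : X ⟶ Y) (U : Y.Opens)
    (V : X.Opens) (e : V ≤ f ⁻¹ᵁ U) (h : ⊤ ≤ γ ⁻¹ᵁ V) (h' : ⊤ ≤ (γ ≫ f) ⁻¹ᵁ U) :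
    f.appLE U V e ≫ evalAt γ V h = evalAt (γ ≫ f) U h' := by
  rw [evalAt, Scheme.Hom.appLE_comp_appLE_assoc, evalAt]

lemma app_evalAt {Y : Scheme.{u}} (γ : Spec (.of K) ⟶ X) (f : X ⟶ Y) (U : Y.Opens)
    (h : ⊤ ≤ γ ⁻¹ᵁ (f ⁻¹ᵁ U)) :
    f.app U ≫ evalAt γ (f ⁻¹ᵁ U) h = evalAt (γ ≫ f) U h := by
  rw [Scheme.Hom.app_eq_appLE]
  exact appLE_evalAt γ f U _ _ h h

end evalAt

section proj

variable {k K : Type u} [Field k] [Field K] [Algebra k K] {n : ℕ}

/-- evaluation of degree zero fractions -/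
def awayEval (y : Fin n → K) (f : MvPolynomial (Fin n) k) (hf : aeval y f ≠ 0) :
    Away (homogeneousSubmodule (Fin n) k) f →+* K :=
  (Localization.awayLift (aeval y : MvPolynomial (Fin n) k →ₐ[k] K).toRingHom f
    (isUnit_iff_ne_zero.mpr hf)).comp (algebraMap _ (Localization.Away f))

lemma awayEval_mk (y : Fin n → K) (f : MvPolynomial (Fin n) k) (hf : aeval y f ≠ 0) {d : ℕ}
    (hd : f ∈ homogeneousSubmodule (Fin n) k d) (m : ℕ) (a : MvPolynomial (Fin n) k)
    (ha : a ∈ homogeneousSubmodule (Fin n) k (m • d)) :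
    awayEval y f hf (Away.mk _ hd m a ha) = aeval y a / (aeval y f) ^ m := by
  simp only [awayEval, RingHom.coe_comp, Function.comp_apply,
    HomogeneousLocalization.algebraMap_apply, Away.val_mk]
  rw [Localization.awayLift_mk (v := (aeval y f)⁻¹) (hv := by simp [mul_inv_cancel₀ hf])]
  simp [div_eq_mul_inv]

lemma awayEval_awayMap (y : Fin n → K) (f g x : MvPolynomial (Fin n) k) (hx : x = f * g)
    (hf : aeval y f ≠ 0) (hx0 : aeval y x ≠ 0) {d e : ℕ}
    (hd : f ∈ homogeneousSubmodule (Fin n) k d) (he : g ∈ homogeneousSubmodule (Fin n) k e) :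
    (awayEval y x hx0).comp (awayMap _ he hx) = awayEval y f hf := by
  ext a
  obtain ⟨m, a, ha, rfl⟩ := Away.mk_surjective _ hd a
  have hg : aeval y g ≠ 0 := by
    intro h; apply hx0; rw [hx, map_mul, h, mul_zero]
  simp only [RingHom.coe_comp, Function.comp_apply, awayMap_mk, awayEval_mk]
  rw [hx]
  simp only [map_mul, map_pow, mul_pow]
  field_simp

lemma awayEval_fromZero (y : Fin n → K) (f : MvPolynomial (Fin n) k) (hf : aeval y f ≠ 0) :
    ((awayEval y f hf).comp (fromZeroRingHom _ _)).comp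
      (algebraMap k (homogeneousSubmodule (Fin n) k 0)) = algebraMap k K := by
  ext c
  simp only [awayEval, RingHom.coe_comp, Function.comp_apply,
    HomogeneousLocalization.algebraMap_apply]
  have : ((fromZeroRingHom (homogeneousSubmodule (Fin n) k) (Submonoid.powers f))
      ((algebraMap k (homogeneousSubmodule (Fin n) k 0)) c)).val
      = algebraMap _ (Localization.Away f) (C c : MvPolynomial (Fin n) k) := rfl
  rw [this]
  rw [Localization.awayLift, IsLocalization.Away.lift_eq]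
  simp

lemma range_awayEval (y : Fin n → K) (i : Fin n) (hi : aeval y (X i : MvPolynomial (Fin n) k) ≠ 0) :
    Set.range (awayEval y (X i) hi) = Algebra.adjoin k (Set.range fun j => y j / y i) := by
  have hX : (X i : MvPolynomial (Fin n) k) ∈ homogeneousSubmodule (Fin n) k 1 :=
    isHomogeneous_X k i
  have hyi : y i ≠ 0 := by simpa using hi
  apply Set.Subset.antisymm
  · rintro _ ⟨a, rfl⟩
    obtain ⟨m, a, ha, rfl⟩ := Away.mk_surjective _ hX a
    rw [awayEval_mk]
    have ha' : a.IsHomogeneous m := by simpa using ha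
    have : aeval y a / (aeval y (X i : MvPolynomial (Fin n) k)) ^ m
        = aeval (fun j => y j / y i) a := by
      have h1 : y = fun j => y i * (y j / y i) := by
        funext j; field_simp
      have h2 : aeval (fun j => y i * (y j / y i)) a
          = y i ^ m * aeval (fun j => y j / y i) a := by
        rw [aeval_def, aeval_def, eval₂_eq', eval₂_eq', Finset.mul_sum]
        refine Finset.sum_congr rfl fun d hd => ?_
        have hdeg : m = ∑ j, d j := by
          have := ha' (mem_support_iff.mp hd)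
          rw [← this, Finsupp.weight_apply, Finsupp.sum_fintype] <;> simp
        simp only [mul_pow, Finset.prod_mul_distrib, Finset.prod_pow_eq_pow_sum, hdeg]
        ring
      rw [aeval_X, div_eq_iff (pow_ne_zero _ hyi), mul_comm, ← h2, ← h1]
    rw [this, SetLike.mem_coe, Algebra.adjoin_range_eq_range_aeval]
    exact ⟨a, rfl⟩
  · intro z hz
    have hz' : z ∈ Algebra.adjoin k (Set.range fun j => y j / y i) := hz
    clear hz
    induction hz' using Algebra.adjoin_induction with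
    | mem x hx =>
      obtain ⟨j, rfl⟩ := hx
      refine ⟨Away.mk _ hX 1 (X j) (by simpa using isHomogeneous_X k j), ?_⟩
      rw [awayEval_mk]; simp
    | algebraMap c =>
      exact ⟨_, congr($(awayEval_fromZero y (X i) hi) c)⟩
    | add a b _ _ ha hb =>
      obtain ⟨a, rfl⟩ := ha
      obtain ⟨b, rfl⟩ := hb
      exact ⟨a + b, map_add _ _ _⟩
    | mul a b _ _ ha hb =>
      obtain ⟨a, rfl⟩ := ha
      obtain ⟨b, rfl⟩ := hb
      exact ⟨a * b, map_mul _ _ _⟩

/-- The `K`-point of projective space with homogeneous coordinates `y`. -/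
def projPoint (y : Fin n → K) (f : MvPolynomial (Fin n) k) (hf : aeval y f ≠ 0)
    {d : ℕ} (hd : f ∈ homogeneousSubmodule (Fin n) k d) (hd0 : 0 < d) :
    Spec (.of K) ⟶ Proj (homogeneousSubmodule (Fin n) k) :=
  Spec.map (CommRingCat.ofHom (awayEval y f hf)) ≫ Proj.awayι _ f hd hd0

lemma projPoint_mul (y : Fin n → K) (f g x : MvPolynomial (Fin n) k) (hx : x = f * g)
    (hf : aeval y f ≠ 0) (hx0 : aeval y x ≠ 0) {d e : ℕ}
    (hd : f ∈ homogeneousSubmodule (Fin n) k d) (he : g ∈ homogeneousSubmodule (Fin n) k e)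
    (hd0 : 0 < d) :
    projPoint y x hx0 (hx ▸ SetLike.mul_mem_graded hd he) (by omega) = projPoint y f hf hd hd0 := by
  rw [projPoint, projPoint, ← Proj.SpecMap_awayMap_awayι _ hd hd0 he hx, ← Spec.map_comp_assoc,
    ← CommRingCat.ofHom_comp, awayEval_awayMap y f g x hx hf hx0 hd he]

lemma projPoint_eq (y : Fin n → K) (f g : MvPolynomial (Fin n) k)
    (hf : aeval y f ≠ 0) (hg : aeval y g ≠ 0) {d e : ℕ}
    (hd : f ∈ homogeneousSubmodule (Fin n) k d) (he : g ∈ homogeneousSubmodule (Fin n) k e)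
    (hd0 : 0 < d) (he0 : 0 < e) : projPoint y f hf hd hd0 = projPoint y g hg he he0 := by
  have hx0 : aeval y (f * g) ≠ 0 := by rw [map_mul]; exact mul_ne_zero hf hg
  rw [← projPoint_mul y f g (f * g) rfl hf hx0 hd he hd0,
    ← projPoint_mul y g f (f * g) (mul_comm _ _) hg hx0 he hd he0]
  congr 1
  exact add_comm _ _

lemma awayι_eq (f : MvPolynomial (Fin n) k) {d : ℕ}
    (hd : f ∈ homogeneousSubmodule (Fin n) k d) (hd0 : 0 < d) :
    Proj.awayι _ f hd hd0 = Spec.map (Proj.basicOpenIsoAway _ f hd hd0).inv ≫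
      (Proj.isAffineOpen_basicOpen _ f hd hd0).fromSpec := by
  rw [Proj.awayι, Iso.inv_comp_eq, Proj.basicOpenIsoSpec_hom, Proj.basicOpenToSpec,
    Category.assoc, ← Spec.map_comp_assoc, ← Proj.basicOpenIsoAway_hom _ f hd hd0, Iso.inv_hom_id]
  simp [← IsAffineOpen.isoSpec_inv_ι]

lemma projPoint_mem_basicOpen (y : Fin n → K) (f : MvPolynomial (Fin n) k) (hf : aeval y f ≠ 0)
    {d : ℕ} (hd : f ∈ homogeneousSubmodule (Fin n) k d) (hd0 : 0 < d)
    (g : MvPolynomial (Fin n) k) {e : ℕ} (he : g ∈ homogeneousSubmodule (Fin n) k e) (he0 : 0 < e)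
    (t : Spec (.of K)) (ht : projPoint y f hf hd hd0 t ∈ Proj.basicOpen _ g) : aeval y g ≠ 0 := by
  intro hg
  have h1 : t ∈ projPoint y f hf hd hd0 ⁻¹ᵁ Proj.basicOpen _ g := ht
  rw [projPoint, Scheme.Hom.comp_preimage, Proj.awayι_preimage_basicOpen _ hd hd0 he he0] at h1
  have h2 : awayEval y f hf (Away.isLocalizationElem hd he) ∉ t.asIdeal := h1
  apply h2
  rw [awayEval_mk, map_pow, hg, zero_pow hd0.ne', zero_div]
  exact zero_mem _

lemma eval₂_scale {R S σ : Type*} [CommRing R] [CommRing S] [Fintype σ] (f : R →+* S) (t : S)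
    (u : σ → S) {a : MvPolynomial σ R} {m : ℕ} (ha : a.IsHomogeneous m) :
    eval₂ f (fun j => u j * t) a = eval₂ f u a * t ^ m := by
  rw [eval₂_eq', eval₂_eq', Finset.sum_mul]
  refine Finset.sum_congr rfl fun d hd => ?_
  have hdeg : m = ∑ j, d j := by
    rw [← ha (mem_support_iff.mp hd), Finsupp.weight_apply, Finsupp.sum_fintype] <;> simp
  simp only [mul_pow, Finset.prod_mul_distrib, Finset.prod_pow_eq_pow_sum, hdeg]
  ring

lemma away_ext (i : Fin n) (φ : Away (homogeneousSubmodule (Fin n) k) (X i) →+* K)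
    (h : (φ.comp (fromZeroRingHom _ _)).comp (algebraMap k (homogeneousSubmodule (Fin n) k 0)) =
      algebraMap k K) : ∃ (y : Fin n → K) (hy : aeval y (X i : MvPolynomial (Fin n) k) ≠ 0),
        y i = 1 ∧ φ = awayEval y (X i) hy := by
  have hX : (X i : MvPolynomial (Fin n) k) ∈ homogeneousSubmodule (Fin n) k 1 :=
    isHomogeneous_X k i
  let u : Fin n → Away (homogeneousSubmodule (Fin n) k) (X i) := fun j =>
    Away.mk _ hX 1 (X j) (by simpa using isHomogeneous_X k j)
  have h1 : u i = 1 := by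
    ext
    simp [u]
  have h2 : aeval (fun j => φ (u j)) (X i : MvPolynomial (Fin n) k) = 1 := by simp [h1]
  refine ⟨fun j => φ (u j), h2 ▸ one_ne_zero, by simp [h1], RingHom.ext fun a => ?_⟩
  obtain ⟨m, a, ha, rfl⟩ := Away.mk_surjective _ hX a
  have h3 : Away.mk _ hX m a ha = eval₂ ((fromZeroRingHom _ _).comp
      (algebraMap k (homogeneousSubmodule (Fin n) k 0))) u a := by
    ext
    let v := algebraMap (Away (homogeneousSubmodule (Fin n) k) (X i))
      (Localization.Away (X i : MvPolynomial (Fin n) k))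
    let w := algebraMap (MvPolynomial (Fin n) k) (Localization.Away (X i : MvPolynomial (Fin n) k))
    have h4 : ∀ m a ha, v (Away.mk _ hX m a ha) * w (X i) ^ m = w a := fun m a ha => by
      rw [← map_pow, HomogeneousLocalization.algebraMap_apply, Away.val_mk,
        Localization.mk_eq_mk'_apply]
      exact IsLocalization.mk'_spec _ _ _
    have h3 : ∀ j, v (u j) * w (X i) = w (X j) := fun j => by simpa using h4 1 _ _
    rw [← HomogeneousLocalization.algebraMap_apply, ← HomogeneousLocalization.algebraMap_apply]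
    refine ((IsLocalization.Away.algebraMap_isUnit (S := Localization.Away (X i))
      (X i : MvPolynomial (Fin n) k)).pow m).mul_left_injective ?_
    change v _ * w _ ^ m = v _ * w _ ^ m
    rw [h4, eval₂_comp_left, ← eval₂_scale _ _ _ (by simpa using ha)]
    simp only [Function.comp_apply, h3]
    conv_lhs => rw [← eval₂_eta a, eval₂_comp_left]
    rfl
  rw [awayEval_mk, h2, one_pow, div_one, h3, eval₂_comp_left, ← RingHom.comp_assoc, h]
  rfl

end proj

variable {k : Type u} [Field k] {X : Scheme.{u}} [IsIntegral X]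

lemma algK_spec (s : X ⟶ Spec (.of k)) : X.fromSpecStalk (genericPoint X) ≫ s =
    Spec.map (CommRingCat.ofHom (@algebraMap k X.functionField _ _ (algK s))) := by
  conv_lhs => rw [← Category.comp_id s, ← toSpecΓ_SpecMap_ΓSpecIso_inv,
    Scheme.toSpecΓ_naturality_assoc, Scheme.fromSpecStalk_toSpecΓ_assoc, ← Spec.map_comp,
    ← Spec.map_comp]
  rfl

lemma isSeparated {s : X ⟶ Spec (.of k)} (hp : IsProjective s) : X.IsSeparated := by
  obtain ⟨n, ι, hι, rfl⟩ := hp
  constructor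
  rw [← Limits.terminal.comp_from (ι ≫ Proj.toSpecZero _ ≫
    Spec.map (CommRingCat.ofHom (algebraMap k _)))]
  infer_instance

variable [Algebra k X.functionField] {s : X ⟶ Spec (.of k)}

theorem coord (hp : IsProjective s) (hs : X.fromSpecStalk (genericPoint X) ≫ s =
    Spec.map (CommRingCat.ofHom (algebraMap k X.functionField))) :
    ∃ (N : ℕ) (ξ : Fin (N + 1) → X.functionField) (U : Fin (N + 1) → X.Opens) (i₀ : Fin (N + 1)),
      Coord (k := k) ξ U ∧ ξ i₀ = 1 := by
  have hsep := isSeparated hp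
  obtain ⟨n, ι, hι, rfl⟩ := hp
  have hX (i : Fin (n + 1)) : (MvPolynomial.X i : MvPolynomial (Fin (n + 1)) k) ∈
      homogeneousSubmodule (Fin (n + 1)) k 1 := isHomogeneous_X k i
  have hV := fun i => Proj.isAffineOpen_basicOpen _ _ (hX i) one_pos
  have hcov : ∀ x : X, ∃ i, x ∈ ι ⁻¹ᵁ Proj.basicOpen _ (MvPolynomial.X i) := fun x => by
    have h1 : ⨆ i, Proj.basicOpen (homogeneousSubmodule (Fin (n + 1)) k)
        (MvPolynomial.X i) = ⊤ := by
      apply Proj.iSup_basicOpen_eq_top'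
      · exact fun i => ⟨1, hX i⟩
      · rw [eq_top_iff]
        intro f _
        induction f using MvPolynomial.induction_on with
        | C a => exact Subalgebra.algebraMap_mem _ (algebraMap k (homogeneousSubmodule _ k 0) a)
        | add p q hp hq => exact add_mem (hp trivial) (hq trivial)
        | mul_X p i hp => exact mul_mem (hp trivial) (Algebra.subset_adjoin ⟨i, rfl⟩)
    obtain ⟨i, hi⟩ := TopologicalSpace.Opens.mem_iSup.mp (h1.ge (Set.mem_univ (ι x)))
    exact ⟨i, hi⟩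
  let γ : Spec (.of X.functionField) ⟶ X := X.fromSpecStalk (genericPoint X)
  have hγ : γ (IsLocalRing.closedPoint _) = genericPoint X := Scheme.fromSpecStalk_closedPoint
  have htop : ∀ U : X.Opens, genericPoint X ∈ U → ⊤ ≤ γ ⁻¹ᵁ U := fun U hU =>
    (Scheme.preimage_eq_top_of_closedPoint_mem γ (by rw [hγ]; exact hU)).ge
  obtain ⟨o, ho⟩ := hcov (genericPoint X)
  let φ := (Proj.basicOpenIsoAway _ _ (hX o) one_pos).hom ≫ evalAt (γ ≫ ι) _ (htop _ ho)
  have h1 : Spec.map φ ≫ Proj.awayι _ _ (hX o) one_pos = γ ≫ ι := by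
    rw [awayι_eq, ← Spec.map_comp_assoc, Iso.inv_hom_id_assoc, SpecMap_evalAt]
  obtain ⟨y, hy, hy1, h2⟩ := away_ext o φ.hom (by
    have h2 := (Category.assoc γ ι _).trans hs
    rw [← h1, Category.assoc, Proj.awayι_toSpecZero_assoc, ← Spec.map_comp, ← Spec.map_comp] at h2
    exact congrArg CommRingCat.Hom.hom (Spec.map_injective h2))
  have h3 : projPoint y _ hy (hX o) one_pos = γ ≫ ι := by
    rw [projPoint, ← h2]; exact h1
  refine ⟨n, y, fun i => ι ⁻¹ᵁ Proj.basicOpen _ (MvPolynomial.X i), o, ⟨hsep,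
    fun i => (hV i).preimage _, hcov, fun i hi => ?_, fun i hi => ?_⟩, hy1⟩
  · simpa using projPoint_mem_basicOpen y _ hy (hX o) one_pos _ (hX i) one_pos
      (IsLocalRing.closedPoint _) (by rw [h3, Scheme.Hom.comp_apply, hγ]; exact hi)
  have hi' : aeval y (MvPolynomial.X i : MvPolynomial (Fin (n + 1)) k) ≠ 0 := by simpa using hi
  have h4 : Spec.map ((Proj.basicOpenIsoAway _ _ (hX i) one_pos).inv ≫
      CommRingCat.ofHom (awayEval y _ hi')) ≫ (hV i).fromSpec = γ ≫ ι := by
    rw [Spec.map_comp, Category.assoc, ← awayι_eq, ← h3]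
    exact projPoint_eq y _ _ _ _ _ _ _ _
  have h5 : ⊤ ≤ γ ⁻¹ᵁ ι ⁻¹ᵁ Proj.basicOpen _ (MvPolynomial.X i) := by
    rw [← Scheme.Hom.comp_preimage]
    exact top_le_preimage_of_eq _ (hV i) _ h4
  have h6 : genericPoint X ∈ ι ⁻¹ᵁ Proj.basicOpen _ (MvPolynomial.X i) := by
    rw [← hγ]
    exact h5 (Set.mem_univ (IsLocalRing.closedPoint _))
  have h7 := (app_evalAt γ ι _ h5).trans (evalAt_eq_of_eq _ (hV i) _ _ h4)
  rw [evalAt_eq_of_eq γ ((hV i).preimage ι) h5 (X.presheaf.germ _ _ h6)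
    (((hV i).preimage ι).fromSpecStalk_eq_fromSpecStalk h6)] at h7
  refine ⟨h6, Eq.trans ?_ (range_awayEval y i hi')⟩
  ext z
  constructor
  · rintro ⟨a, rfl⟩
    obtain ⟨a, rfl⟩ := ι.app_surjective _ (hV i) a
    exact ⟨_, (congr($h7 a)).symm⟩
  · rintro ⟨a, rfl⟩
    refine ⟨ι.app _ ((Proj.basicOpenIsoAway _ _ (hX i) one_pos).hom a), (congr($h7 _)).trans ?_⟩
    simp

theorem adjoin_eq_top {N : ℕ} {ξ : Fin (N + 1) → X.functionField} {U : Fin (N + 1) → X.Opens}
    (hc : Coord (k := k) ξ U) {i₀ : Fin (N + 1)} (h₀ : ξ i₀ = 1) :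
    IntermediateField.adjoin k (Set.range ξ) = ⊤ := by
  obtain ⟨h, hr⟩ := hc.ring i₀ (by simp [h₀])
  have : Nonempty (U i₀) := ⟨⟨_, h⟩⟩
  have := functionField_isFractionRing_of_isAffineOpen X (U i₀) (hc.aff i₀)
  have hmem : ∀ a : Γ(X, U i₀), algebraMap _ X.functionField a ∈
      IntermediateField.adjoin k (Set.range ξ) := fun a => by
    have h1 : X.presheaf.germ (U i₀) (genericPoint X) h a ∈
        Algebra.adjoin k (Set.range fun j => ξ j / ξ i₀) := by
      rw [← SetLike.mem_coe, ← hr]; exact ⟨a, rfl⟩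
    simp only [h₀, div_one] at h1
    exact IntermediateField.algebra_adjoin_le_adjoin _ _ h1
  rw [eq_top_iff]
  intro z _
  obtain ⟨a, b, -, rfl⟩ := IsFractionRing.div_surjective (A := Γ(X, U i₀)) z
  exact div_mem (hmem a) (hmem b)

end Pool.Agent.Lib.MP_7fcda1_ag.Br1
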