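import Pool.Agent.Lib.MP_7fcda1_ag.Pdv1

open scoped IntermediateField Polynomial WithZero
open Module

noncomputable section

universe u

namespace Pool.Agent.Lib.MP_7fcda1_ag


variable {k F : Type u} [Field k] [Field F] [Algebra k F] {n : ℕ} {x : Fin (n + 2) → F}
  {V : ValuationSubring F} {f g : F} {m : ℕ} {a : Fin (n + 2)}

namespace Pdv2

variable {V' : ValuationSubring F} {π π' A B : MvPolynomial (Fin (n + 1)) k}

/-- evaluation at the affine coordinates -/
abbrev ev (x : Fin (n + 2) → F) : MvPolynomial (Fin (n + 1)) k →ₐ[k] F :=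
  MvPolynomial.aeval fun i : Fin (n + 1) => x i.succ

/-- the coordinates of a chart -/
abbrev ch (x : Fin (n + 2) → F) (a : Fin (n + 2)) : Fin (n + 2) → F :=
  fun b => x (Equiv.swap 0 a b) / x a

/-- `V` lies over the prime `π` -/
def PrimeAt (x : Fin (n + 2) → F) (π : MvPolynomial (Fin (n + 1)) k) (V : ValuationSubring F) :
    Prop :=
  ∀ a : MvPolynomial (Fin (n + 1)) k, ev x a ∈ V ∧ (V.valuation (ev x a) < 1 ↔ π ∣ a)

variable (k) in
/-- `V` lies over the hyperplane at infinity -/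
def InfAt (x : Fin (n + 2) → F) (V : ValuationSubring F) : Prop :=
  V.valuation (x 1)⁻¹ < 1 ∧ ∀ a : MvPolynomial (Fin (n + 1)) k, a ≠ 0 →
    V.valuation (ev x a / x 1 ^ a.totalDegree) = 1

theorem ev_ne (hx : Model k x) (h : A ≠ 0) : ev x A ≠ 0 := fun e =>
  h (hx.indep (e.trans (map_zero _).symm))

theorem range_ch (a : Fin (n + 2)) : (Set.range fun b => x b / x a) = Set.range (ch x a) :=
  ((Equiv.swap 0 a).surjective.range_comp fun b => x b / x a).symm

theorem forall_ch (a : Fin (n + 2)) : (∀ b, ch x a b ∈ V) ↔ ∀ b, x b / x a ∈ V :=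
  ((Equiv.swap 0 a).surjective.forall (p := fun b => x b / x a ∈ V)).symm

theorem mem_adjoin (hx : Model k x) :
    f ∈ Algebra.adjoin k (Set.range x) ↔ ∃ A : MvPolynomial (Fin (n + 1)) k, f = ev x A := by
  constructor
  · intro h
    have : Algebra.adjoin k (Set.range x) ≤ (ev (k := k) x).range := by
      refine Algebra.adjoin_le ?_
      rintro _ ⟨b, rfl⟩
      refine Fin.cases ?_ (fun i => ⟨MvPolynomial.X i, by simp⟩) b
      rw [hx.zero]
      exact one_mem _
    obtain ⟨A, hA⟩ := this h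
    exact ⟨A, hA.symm⟩
  · rintro ⟨A, rfl⟩
    refine Algebra.adjoin_mono (s := Set.range fun i : Fin (n + 1) => x i.succ) ?_ ?_
    · rintro _ ⟨i, rfl⟩
      exact ⟨_, rfl⟩
    · rw [Algebra.adjoin_range_eq_range_aeval]
      exact ⟨A, rfl⟩

theorem mem_chart (hx : Model k x) : f ∈ Algebra.adjoin k (Set.range fun b => x b / x a) ↔
    ∃ A : MvPolynomial (Fin (n + 1)) k, f = ev (ch x a) A := by
  rw [range_ch, mem_adjoin (hx.chart a)]

theorem adjoin_le (hk : ∀ c, algebraMap k F c ∈ V) (ha : ∀ b, x b / x a ∈ V)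
    (h : f ∈ Algebra.adjoin k (Set.range fun b => x b / x a)) : f ∈ V := by
  rw [Algebra.adjoin_range_eq_range_aeval] at h
  obtain ⟨A, rfl⟩ := h
  exact aeval_mem hk ha A

theorem reduced (hx : Model k x) (hf : f ∈ K0 k x) : ∃ A B : MvPolynomial (Fin (n + 1)) k,
    B ≠ 0 ∧ IsRelPrime A B ∧ f = ev x A / ev x B := by
  obtain ⟨A, B, hB, rfl⟩ := hx.mem_K0.1 hf
  obtain ⟨A', B', c, h, rfl, rfl⟩ := UniqueFactorizationMonoid.exists_reduced_factors' A B hB
  refine ⟨A', B', right_ne_zero_of_mul hB, h, ?_⟩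
  rw [map_mul, map_mul, mul_div_mul_left _ _ (ev_ne hx (left_ne_zero_of_mul hB))]

theorem PrimeAt.val_eq (h : PrimeAt x π V) (hB : ¬π ∣ B) : V.valuation (ev x B) = 1 :=
  le_antisymm ((V.valuation_le_one_iff _).2 (h B).1) (not_lt.1 fun e => hB ((h B).2.1 e))

theorem PrimeAt.div_mem_iff (hx : Model k x) (h : PrimeAt x π V) (hπ : ¬IsUnit π) (hB : B ≠ 0)
    (hAB : IsRelPrime A B) : ev x A / ev x B ∈ V ↔ ¬π ∣ B := by
  constructor
  · intro hm hd
    refine hπ (hAB ((h A).2.1 ?_) hd)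
    rw [← div_mul_cancel₀ (ev x A) (ev_ne hx hB), map_mul]
    exact mul_lt_one_of_nonneg_of_lt_one_right ((V.valuation_le_one_iff _).2 hm) zero_le
      ((h B).2.2 hd)
  · intro hd
    rw [← V.valuation_le_one_iff, map_div₀, h.val_eq hd, div_one, V.valuation_le_one_iff]
    exact (h A).1

theorem PrimeAt.congr (h : PrimeAt x π V) (e : Associated π π') : PrimeAt x π' V := fun a =>
  ⟨(h a).1, (h a).2.trans e.dvd_iff_dvd_left⟩

theorem PrimeAt.sameBase (hx : Model k x) (hπ : ¬IsUnit π) (h : PrimeAt x π V)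
    (h' : PrimeAt x π V') : SameBase k x V V' := fun c hc => by
  obtain ⟨A, B, hB, hAB, rfl⟩ := reduced hx hc
  rw [h.div_mem_iff hx hπ hB hAB, h'.div_mem_iff hx hπ hB hAB]

theorem InfAt.one_lt (hx : Model k x) (h : InfAt k x V) : 1 < V.valuation (x 1) := by
  have := h.1
  rwa [map_inv₀, inv_lt_one₀ (zero_lt_iff.2 ((map_ne_zero _).2 (hx.ne_zero 1)))] at this

theorem InfAt.val_eq (hx : Model k x) (h : InfAt k x V) (hA : A ≠ 0) :
    V.valuation (ev x A) = V.valuation (x 1) ^ A.totalDegree := by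
  have := h.2 A hA
  rwa [map_div₀, map_pow, div_eq_one_iff_eq
    (pow_ne_zero _ ((map_ne_zero _).2 (hx.ne_zero 1)))] at this

theorem InfAt.div_mem_iff (hx : Model k x) (h : InfAt k x V) (hA : A ≠ 0) (hB : B ≠ 0) :
    ev x A / ev x B ∈ V ↔ A.totalDegree ≤ B.totalDegree := by
  rw [← V.valuation_le_one_iff, map_div₀, h.val_eq hx hA, h.val_eq hx hB,
    div_le_one₀ (pow_pos (zero_lt_one.trans (h.one_lt hx)) _), pow_le_pow_iff_right₀ (h.one_lt hx)]

theorem InfAt.sameBase (hx : Model k x) (h : InfAt k x V) (h' : InfAt k x V') :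
    SameBase k x V V' := fun c hc => by
  obtain ⟨A, B, hB, -, rfl⟩ := reduced hx hc
  by_cases hA : A = 0
  · simp [hA]
  · rw [h.div_mem_iff hx hA hB, h'.div_mem_iff hx hA hB]

theorem InfAt.not_mem (hx : Model k x) (h : InfAt k x V) : x 1 ∉ V := fun e =>
  ((V.valuation_le_one_iff _).2 e).not_gt (h.one_lt hx)

theorem InfAt.chart (hx : Model k x) (h : InfAt k x V) (b : Fin (n + 2)) : x b / x 1 ∈ V := by
  refine Fin.cases ?_ (fun i => ?_) b
  · rw [hx.zero, one_div, ← V.valuation_le_one_iff]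
    exact h.1.le
  · have := h.2 (MvPolynomial.X i) (MvPolynomial.X_ne_zero i)
    rw [MvPolynomial.totalDegree_X, pow_one, MvPolynomial.aeval_X] at this
    rw [← V.valuation_le_one_iff, this]

theorem PrimeAt.mem (hx : Model k x) (h : PrimeAt x π V) (b : Fin (n + 2)) : x b ∈ V := by
  refine Fin.cases ?_ (fun i => ?_) b
  · rw [hx.zero]
    exact one_mem _
  · simpa using (h (MvPolynomial.X i)).1

theorem cases (hx : Model k x) (hV : IsPD k x V) :
    (∃ π : MvPolynomial (Fin (n + 1)) k, Prime π ∧ PrimeAt x π V) ∨ InfAt k x V :=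
  hV.cases hx

theorem chart_prime (hx : Model k x) (hV : IsPD k x V) (ha : ∀ b, x b / x a ∈ V) :
    ∃ π : MvPolynomial (Fin (n + 1)) k, Prime π ∧ PrimeAt (ch x a) π V :=
  (cases (hx.chart a) ((isPD_chart hx a).2 hV)).resolve_right fun h =>
    h.not_mem (hx.chart a) ((forall_ch a).2 ha 1)

theorem finite_prime (hx : Model k x) (hπ : Prime π) :
    {V | IsPD k x V ∧ PrimeAt x π V}.Finite := by
  obtain ⟨V₀, h₀, h₁⟩ := exists_pd_prime hx hπ
  exact (h₀.finite_sameBase hx).subset fun V hV =>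
    ⟨hV.1, PrimeAt.sameBase hx hπ.not_isUnit h₁ hV.2⟩

theorem finite_inf (hx : Model k x) : {V | IsPD k x V ∧ InfAt k x V}.Finite := by
  rcases Set.eq_empty_or_nonempty {V | IsPD k x V ∧ InfAt k x V} with h | ⟨V₀, h₀, h₁⟩
  · rw [h]
    exact Set.finite_empty
  · exact (h₀.finite_sameBase hx).subset fun V hV => ⟨hV.1, h₁.sameBase hx hV.2⟩

theorem finite_K0 (hx : Model k x) (hf : f ∈ K0 k x) : {V | IsPD k x V ∧ f ∉ V}.Finite := by
  obtain ⟨A, B, hB, hAB, rfl⟩ := reduced hx hf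
  refine ((finite_inf hx).union ((UniqueFactorizationMonoid.factors B).finite_toSet.biUnion
    fun q hq => finite_prime hx (UniqueFactorizationMonoid.prime_of_factor q hq))).subset ?_
  rintro V ⟨hV, hm⟩
  rcases cases hx hV with ⟨π, hπ, h⟩ | h
  · rw [h.div_mem_iff hx hπ.not_isUnit hB hAB, not_not] at hm
    obtain ⟨q, hq, e⟩ := UniqueFactorizationMonoid.exists_mem_factors_of_dvd hB hπ.irreducible hm
    exact Or.inr (Set.mem_biUnion hq ⟨hV, h.congr e⟩)
  · exact Or.inl ⟨hV, h⟩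

theorem div_mem_K0 (a b : Fin (n + 2)) : x b / x a ∈ K0 k x :=
  div_mem (IntermediateField.subset_adjoin _ _ ⟨b, rfl⟩) (IntermediateField.subset_adjoin _ _ ⟨a, rfl⟩)

theorem monic (hx : Model k x) (f : F) :
    ((minpoly (K0 k x) f).map (algebraMap (K0 k x) F)).Monic :=
  have := hx.fin
  (minpoly.monic (Algebra.IsIntegral.isIntegral f)).map _

theorem eval_minpoly (f : F) : ((minpoly (K0 k x) f).map (algebraMap (K0 k x) F)).eval f = 0 := by
  rw [Polynomial.eval_map_algebraMap, minpoly.aeval]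

theorem mem_of_coeff (hx : Model k x) (h : ∀ i, ((minpoly (K0 k x) f).coeff i : F) ∈ V) : f ∈ V :=
  mem_of_monic _ (monic hx f) (fun i => by rw [Polynomial.coeff_map]; exact h i) (eval_minpoly f)

theorem isIntegral_of_coeff (hx : Model k x) {R : Type*} [CommRing R] [Algebra R F]
    (h : ∀ i, ((minpoly (K0 k x) f).coeff i : F) ∈ Set.range (algebraMap R F)) :
    IsIntegral R f := by
  obtain ⟨q, hq, -, hm⟩ := Polynomial.lifts_and_degree_eq_and_monic
    ((Polynomial.lifts_iff_coeff_lifts _).2 fun i => by rw [Polynomial.coeff_map]; exact h i)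
    (monic hx f)
  exact ⟨q, hm, by rw [Polynomial.eval₂_eq_eval_map, hq, eval_minpoly]⟩

theorem poles_finite (hx : Model k x) (f : F) : {V | IsPD k x V ∧ f ∉ V}.Finite := by
  refine ((Finset.range ((minpoly (K0 k x) f).natDegree + 1)).finite_toSet.biUnion
    fun i _ => finite_K0 hx ((minpoly (K0 k x) f).coeff i).2).subset ?_
  rintro V ⟨hV, hf⟩
  by_contra h
  refine hf (mem_of_coeff hx fun i => ?_)
  by_cases hi : i ≤ (minpoly (K0 k x) f).natDegree
  · by_contra h'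
    exact h (Set.mem_biUnion (Finset.mem_coe.2 (Finset.mem_range_succ_iff.2 hi)) ⟨hV, h'⟩)
  · rw [Polynomial.coeff_eq_zero_of_natDegree_lt (not_le.1 hi)]
    exact zero_mem _

theorem eventually_mem (hV : Disc V) {t : F} (ht : V.valuation t < 1) (f : F) :
    ∀ᶠ d : ℕ in Filter.atTop, t ^ d * f ∈ V := by
  filter_upwards [Filter.eventually_ge_atTop (-ord V f).toNat] with d hd
  rw [mem_iff_ge (Or.inl hV)]
  exact ((((val_lt_one_iff (Or.inl hV)).1 ht).pow d).mul ge_ord).mono (by omega)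

theorem exists_common {S : Set (ValuationSubring F)} (hS : S.Finite) (M : Submonoid F)
    (hM : ∀ t ∈ M, ∀ V ∈ S, t ∈ V) (ht : ∀ V ∈ S, ∃ t ∈ M, V.valuation t < 1) :
    ∃ t ∈ M, ∀ V ∈ S, V.valuation t < 1 := by
  induction S, hS using Set.Finite.induction_on with
  | empty => exact ⟨1, one_mem _, by simp⟩
  | @insert W S _ _ ih =>
    obtain ⟨t, h1, h2⟩ := ih (fun t h V hV => hM t h V (Or.inr hV)) fun V hV => ht V (Or.inr hV)
    obtain ⟨t', h3, h4⟩ := ht W (Or.inl rfl)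
    refine ⟨t * t', mul_mem h1 h3, ?_⟩
    rintro V (rfl | hV) <;> rw [map_mul]
    · exact mul_lt_one_of_nonneg_of_lt_one_right
        ((V.valuation_le_one_iff _).2 (hM t h1 V (Or.inl rfl))) zero_le h4
    · exact mul_lt_one_of_nonneg_of_lt_one_left zero_le (h2 V hV)
        ((V.valuation_le_one_iff _).2 (hM t' h3 V (Or.inr hV)))

/-- killing the poles in a chart -/
theorem kill (hx : Model k x) (M : Submonoid F)
    (hM : ∀ t ∈ M, t ∈ Algebra.adjoin k (Set.range fun b => x b / x a))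
    (ht : ∀ V, IsPD k x V → (∀ b, x b / x a ∈ V) → f ∉ V → ∃ t ∈ M, V.valuation t < 1) :
    ∃ t ∈ M, ChartInt k x a (t * f) := by
  have hS : {V | IsPD k x V ∧ (∀ b, x b / x a ∈ V) ∧ f ∉ V}.Finite :=
    (poles_finite hx f).subset fun V hV => ⟨hV.1, hV.2.2⟩
  obtain ⟨t, h1, h2⟩ := exists_common hS M
    (fun t h V hV => adjoin_le hV.1.2.1 hV.2.1 (hM t h)) fun V hV => ht V hV.1 hV.2.1 hV.2.2
  obtain ⟨d, hd⟩ := ((Filter.eventually_all_finite hS).2 fun V hV =>
    eventually_mem (hV.1.disc hx) (h2 V hV) f).exists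
  refine ⟨t ^ d, pow_mem h1 d, fun V hV ha => ?_⟩
  by_cases hf : f ∈ V
  · exact mul_mem (pow_mem (adjoin_le hV.2.1 ha (hM t h1)) d) hf
  · exact hd V ⟨hV, ha, hf⟩

theorem ChartInt_mul (h : ChartInt k x a f)
    (hg : g ∈ Algebra.adjoin k (Set.range fun b => x b / x a)) : ChartInt k x a (g * f) :=
  fun V hV ha => mul_mem (adjoin_le hV.2.1 ha hg) (h V hV ha)

theorem root (p : ℕ) [hp : Fact p.Prime] (V : ValuationSubring F) (N : ℕ) :
    ∀ f : F, ord V f ≠ 0 → (ord V f).natAbs ≤ N →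
      ∃ (e : ℕ) (g : F), f = g ^ p ^ e ∧ ∀ c, g ≠ c ^ p := by
  induction N with
  | zero => intro f h1 h2; omega
  | succ N ih =>
    intro f h1 h2
    by_cases h : ∀ c, f ≠ c ^ p
    · exact ⟨0, f, by simp, h⟩
    push Not at h
    obtain ⟨c, rfl⟩ := h
    rw [ord_pow] at h1 h2
    have h3 : ord V c ≠ 0 := right_ne_zero_of_mul h1
    have h4 := hp.out.two_le
    rw [Int.natAbs_mul, Int.natAbs_natCast] at h2
    have h5 := Int.natAbs_pos.2 h3
    obtain ⟨e, g, rfl, hg⟩ := ih c h3 (by nlinarith)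
    exact ⟨e + 1, g, by rw [← pow_mul, pow_succ], hg⟩

end Pdv2

open Pdv2

theorem ChartInt.of_K0 (hx : Model k x) (h : ChartInt k x a f) (hf : f ∈ K0 k x) :
    f ∈ Algebra.adjoin k (Set.range fun b => x b / x a) := by
  have hx' := hx.chart a
  rw [← K0_chart hx a] at hf
  obtain ⟨A, B, hB, hAB, rfl⟩ := reduced hx' hf
  rw [mem_chart hx]
  by_cases hu : IsUnit B
  · obtain ⟨C, hC⟩ := hu.exists_right_inv
    refine ⟨A * C, ?_⟩
    rw [div_eq_iff (ev_ne hx' hB), ← map_mul, mul_assoc, mul_comm C, hC, mul_one]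
  · obtain ⟨π, hπ, hd⟩ := WfDvdMonoid.exists_irreducible_factor hu hB
    obtain ⟨V, hV, hp⟩ := exists_pd_prime hx' hπ.prime
    exact absurd hd ((PrimeAt.div_mem_iff hx' hp hπ.not_isUnit hB hAB).1
      (h V ((isPD_chart hx a).1 hV) ((forall_ch a).1 (PrimeAt.mem hx' hp))))

theorem ChartInt.coeff_mem (hx : Model k x) (h : ChartInt k x a f) (i : ℕ) :
    ((minpoly (K0 k x) f).coeff i : F) ∈ Algebra.adjoin k (Set.range fun b => x b / x a) :=
  ChartInt.of_K0 hx (fun _ hV ha => hV.minpoly_mem hx (fun V' hV' hs =>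
    h V' hV' fun b => (hs _ (div_mem_K0 a b)).1 (ha b)) i) ((minpoly (K0 k x) f).coeff i).2

theorem ChartInt.isIntegral (hx : Model k x) (h : ChartInt k x a f) :
    IsIntegral (Algebra.adjoin k (Set.range fun b => x b / x a)) f :=
  isIntegral_of_coeff hx fun i => ⟨⟨_, h.coeff_mem hx i⟩, rfl⟩

theorem ChartInt.mem (hx : Model k x) (h : ChartInt k x a f) (hk : ∀ c, algebraMap k F c ∈ V)
    (ha : ∀ b, x b / x a ∈ V) : f ∈ V :=
  mem_of_coeff hx fun i => adjoin_le hk ha (h.coeff_mem hx i)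

theorem Sec.chartInt (hx : Model k x) (h : Sec k x m f) (a : Fin (n + 2)) :
    ChartInt k x a (f / x a ^ m) := fun V hV ha => (h V hV).div_mem hx ha

theorem Sec.bd (hx : Model k x) (h : Sec k x m f) (hk : ∀ c, algebraMap k F c ∈ V) :
    Bd x V m f := by
  obtain ⟨j, -, hj⟩ := exists_min_coord V (w := x) fun e => hx.ne_zero 0 (congrFun e 0)
  exact ⟨j, (h.chartInt hx j).mem hx hk hj⟩

theorem Sec.poly (hx : Model k x) (h : Sec k x m f) (hf : f ∈ K0 k x) :
    ∃ a : MvPolynomial (Fin (n + 1)) k, a.totalDegree ≤ m ∧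
      f = MvPolynomial.aeval (fun i : Fin (n + 1) => x i.succ) a := by
  have h0 := h.chartInt hx 0
  rw [hx.zero, one_pow, div_one] at h0
  have h1 := h0.of_K0 hx hf
  simp only [hx.zero, div_one] at h1
  obtain ⟨A, rfl⟩ := (mem_adjoin hx).1 h1
  refine ⟨A, ?_, rfl⟩
  by_cases hA : A = 0
  · simp [hA]
  obtain ⟨V, hV, hn⟩ := exists_pd_inf hx
  have hi : InfAt k x V := (cases hx hV).resolve_left fun ⟨_, _, hp⟩ => hn (hp.mem hx 1)
  have h2 := (h V hV).div_mem hx (hi.chart hx)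
  rwa [← V.valuation_le_one_iff, map_div₀, map_pow, hi.val_eq hx hA,
    div_le_one₀ (pow_pos (zero_lt_one.trans (hi.one_lt hx)) _),
    pow_le_pow_iff_right₀ (hi.one_lt hx)] at h2

theorem Sec.const [IsAlgClosed k] (hx : Model k x) (h : Sec k x 0 f) :
    f ∈ (algebraMap k F).range := by
  have hf : IsIntegral k f := isIntegral_of_coeff hx fun i => by
    obtain ⟨A, hA, e⟩ := Sec.poly (m := 0) hx (fun V hV => bd_zero_iff.2
      (hV.minpoly_mem hx (fun V' hV' _ => bd_zero_iff.1 (h V' hV')) i))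
      ((minpoly (K0 k x) f).coeff i).2
    rw [e, MvPolynomial.totalDegree_eq_zero_iff_eq_C.1 (Nat.le_zero.1 hA), MvPolynomial.aeval_C]
    exact ⟨_, rfl⟩
  exact minpoly.mem_range_of_degree_eq_one k f
    (IsAlgClosed.degree_eq_one_of_irreducible k (minpoly.irreducible hf))

theorem finite_poles (hx : Model k x) (f : F) : {V | IsPD k x V ∧ f ∉ V}.Finite :=
  poles_finite hx f

theorem ChartInt.sec (hx : Model k x) (h : ChartInt k x a f) :
    ∃ d₀, ∀ d ≥ d₀, Sec k x d (f * x a ^ d) := by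
  have key : ∀ V, IsPD k x V → ∃ j, x a / x j ∈ V ∧ (f ∉ V → V.valuation (x a / x j) < 1) := by
    intro V hV
    obtain ⟨j, hj0, hj⟩ := exists_min_coord V (w := x) fun e => hx.ne_zero 0 (congrFun e 0)
    refine ⟨j, hj a, fun hf => lt_of_le_of_ne ((V.valuation_le_one_iff _).2 (hj a)) fun e => ?_⟩
    refine hf (h V hV fun b => ?_)
    rw [← V.valuation_le_one_iff, ← div_div_div_cancel_right₀ hj0, map_div₀, e, div_one,
      V.valuation_le_one_iff]
    exact hj b
  choose! j hj hj' using key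
  obtain ⟨d₀, hd⟩ := Filter.eventually_atTop.1 ((Filter.eventually_all_finite
    (finite_poles hx f)).2 fun V hV => eventually_mem (hV.1.disc hx) (hj' V hV.1 hV.2) f)
  refine ⟨d₀, fun d hd' V hV => ⟨j V, ?_⟩⟩
  rw [mul_div_assoc, ← div_pow, mul_comm]
  by_cases hf : f ∈ V
  · exact mul_mem (pow_mem (hj V hV) d) hf
  · exact hd d hd' V ⟨hV, hf⟩

theorem exists_clear_chart (hx : Model k x) (a : Fin (n + 2)) (f : F) :
    ∃ c ∈ Algebra.adjoin k (Set.range fun b => x b / x a), c ≠ 0 ∧ ChartInt k x a (c * f) := by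
  obtain ⟨t, ht, h⟩ := kill (f := f) (a := a) hx
    ((Algebra.adjoin k (Set.range fun b => x b / x a)).toSubmonoid ⊓ nonZeroDivisors F)
    (fun t ht => ht.1) fun V hV ha _ => by
      obtain ⟨π, hπ, hp⟩ := chart_prime hx hV ha
      exact ⟨ev (ch x a) π, ⟨(mem_chart hx).2 ⟨π, rfl⟩,
        mem_nonZeroDivisors_of_ne_zero (ev_ne (hx.chart a) hπ.ne_zero)⟩, (hp π).2.2 dvd_rfl⟩
  exact ⟨t, ht.1, nonZeroDivisors.ne_zero ht.2, h⟩

theorem exists_clear (hx : Model k x) {σ : Type*} [Finite σ] (f : σ → F) :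
    ∃ (c : MvPolynomial (Fin (n + 1)) k) (m : ℕ), c ≠ 0 ∧
      ∀ i, Sec k x m (MvPolynomial.aeval (fun i : Fin (n + 1) => x i.succ) c * f i) := by
  classical
  have := Fintype.ofFinite σ
  choose c hc hc0 h using fun i => exists_clear_chart hx 0 (f i)
  have h1 : ∀ i, ChartInt k x 0 ((∏ j, c j) * f i) := fun i => by
    rw [← Finset.prod_erase_mul _ _ (Finset.mem_univ i), mul_assoc]
    exact ChartInt_mul (h i) (prod_mem fun j _ => hc j)
  have h2 : ∏ j, c j ∈ Algebra.adjoin k (Set.range fun b => x b / x 0) := prod_mem fun j _ => hc j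
  simp only [hx.zero, div_one] at h2
  obtain ⟨A, hA⟩ := (mem_adjoin hx).1 h2
  choose d hd using fun i => (h1 i).sec hx
  refine ⟨A, Finset.univ.sup d, fun e => ?_, fun i => ?_⟩
  · rw [e, map_zero] at hA
    exact Finset.prod_ne_zero_iff.2 (fun j _ => hc0 j) hA
  · have := hd i _ (Finset.le_sup (f := d) (Finset.mem_univ i))
    rwa [hx.zero, one_pow, mul_one, hA] at this

theorem exists_basis_sec (hx : Model k x) :
    ∃ (b : Basis (Fin (finrank (K0 k x) F)) (K0 k x) F) (m : ℕ), ∀ i, Sec k x m (b i) := by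
  have := hx.fin
  obtain ⟨c, m, hc, h⟩ := exists_clear hx (Module.finBasis (K0 k x) F)
  have hm : ev x c ∈ K0 k x := hx.mem_K0.2 ⟨c, 1, one_ne_zero, by simp⟩
  have hne : (⟨ev x c, hm⟩ : K0 k x) ≠ 0 := fun e => ev_ne hx hc (congrArg Subtype.val e)
  refine ⟨(Module.finBasis (K0 k x) F).unitsSMul fun _ => Units.mk0 _ hne, m, fun i => ?_⟩
  rw [Basis.unitsSMul_apply]
  exact h i

theorem IsPD.loc (hx : Model k x) (hV : IsPD k x V) (ha : ∀ b, x b / x a ∈ V) (hf : f ∈ V) :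
    ∃ c, V.valuation c = 1 ∧ ChartInt k x a c ∧ ChartInt k x a (c * f) := by
  obtain ⟨c, hc, h⟩ := hV.apx hx f
  have hcV : c ∈ V := (V.valuation_le_one_iff _).1 hc.le
  obtain ⟨π, hπ, hp⟩ := chart_prime hx hV ha
  let M : Submonoid F := (Algebra.adjoin k (Set.range fun b => x b / x a)).toSubmonoid ⊓
    (⊥ : Submonoid V.ValueGroup).comap V.valuation.toMonoidWithZeroHom
  have hM : ∀ t ∈ M, V.valuation t = 1 := fun t ht => ht.2
  have key : ∀ W, IsPD k x W → (∀ b, x b / x a ∈ W) → c ∉ W ∨ c * f ∉ W →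
      ∃ t ∈ M, W.valuation t < 1 := by
    intro W hW hWa hn
    obtain ⟨π', hπ', hp'⟩ := chart_prime hx hW hWa
    refine ⟨ev (ch x a) π', ⟨(mem_chart hx).2 ⟨π', rfl⟩, hp.val_eq fun hd => ?_⟩,
      (hp' π').2.2 dvd_rfl⟩
    have hs := PrimeAt.sameBase (hx.chart a) hπ'.not_isUnit
      (hp.congr (hπ.associated_of_dvd hπ' hd)) hp'
    have hs' : SameBase k x V W := fun z hz => hs z ((K0_chart hx a).symm ▸ hz)
    by_cases e : W = V
    · subst e
      exact hn.elim (fun h => h hcV) fun h => h (mul_mem hcV hf)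
    · obtain ⟨h1, h2⟩ := h W hW hs' e
      exact hn.elim (fun h => h ((W.valuation_le_one_iff _).1 h1.le)) fun h => h h2
  obtain ⟨t, ht, h1⟩ := kill (f := c) hx M (fun t ht => ht.1)
    fun W hW hWa hn => key W hW hWa (Or.inl hn)
  obtain ⟨t', ht', h2⟩ := kill (f := c * f) hx M (fun t ht => ht.1)
    fun W hW hWa hn => key W hW hWa (Or.inr hn)
  refine ⟨t' * (t * c), by rw [map_mul, map_mul, hM t ht, hM t' ht', hc, mul_one, mul_one],
    ChartInt_mul h1 ht'.1, ?_⟩
  rw [show t' * (t * c) * f = t * (t' * (c * f)) by ring]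
  exact ChartInt_mul h2 ht.1

theorem exists_root [IsAlgClosed k] (p : ℕ) [Fact p.Prime] (hx : Model k x)
    (hf : f ∉ (algebraMap k F).range) : ∃ (e : ℕ) (g : F), f = g ^ p ^ e ∧ ∀ c, g ≠ c ^ p := by
  have h : ¬Sec k x 0 f := fun h => hf (h.const hx)
  simp only [Sec, bd_zero_iff, not_forall] at h
  obtain ⟨V, hV, h⟩ := h
  refine root p V _ f (fun e => h ?_) le_rfl
  rw [mem_iff_ge (Or.inl (hV.disc hx))]
  exact e ▸ ge_ord

end Pool.Agent.Lib.MP_7fcda1_ag
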