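import Pool.Agent.Lib.MP_7fcda1_ag.Iface2
import Pool.Agent.Lib.MP_7fcda1_ag.Pdv2

open scoped IntermediateField Polynomial WithZero
open Module

set_option linter.style.haveILetI false

noncomputable section

universe u

namespace Pool.Agent.Lib.MP_7fcda1_ag


open AlgebraicGeometry CategoryTheory Order Topology

namespace Br2

variable {X : Scheme.{u}} [IsIntegral X] {E E' : X} {f : X.functionField}

/-- The local ring inside the function field. -/
def OX (E : X) : Subring X.functionField := (algebraMap (X.presheaf.stalk E) X.functionField).range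

/-- The stalk is the local ring. -/
def eqO (E : X) : X.presheaf.stalk E ≃+* OX E :=
  .ofBijective (algebraMap (X.presheaf.stalk E) X.functionField).rangeRestrict
    ⟨fun _ _ h => IsFractionRing.injective _ _ (congrArg Subtype.val h),
      RingHom.rangeRestrict_surjective _⟩

lemma un_iff {a : X.presheaf.stalk E} : algebraMap _ X.functionField a ≠ 0 ∧
    (algebraMap _ X.functionField a)⁻¹ ∈ OX E ↔ IsUnit a :=
  ⟨fun ⟨h, b, hb⟩ => .of_mul_eq_one b (IsFractionRing.injective _ X.functionField (by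
    rw [map_mul, hb, mul_inv_cancel₀ h, map_one])), by
      rintro ⟨a, rfl⟩
      exact ⟨(a.isUnit.map _).ne_zero, _, map_units_inv _ a⟩⟩

lemma reg_mem {U : X.Opens} [Nonempty U] (hE : E ∈ U) (h : f ∈ Reg U) : f ∈ OX E := by
  obtain ⟨a, rfl⟩ := h
  exact ⟨_, Scheme.algebraMap_germ_eq_germToFunctionField X hE a⟩

lemma reg_mono {U V : X.Opens} [Nonempty U] [Nonempty V] (h : V ≤ U) (hf : f ∈ Reg U) :
    f ∈ Reg V := by
  obtain ⟨a, rfl⟩ := hf
  exact ⟨X.presheaf.map (homOfLE h).op a, X.presheaf.germ_res_apply (homOfLE h) _ _ a⟩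

lemma exists_reg (h : f ∈ OX E) : ∃ (U : X.Opens) (_ : Nonempty U), E ∈ U ∧ f ∈ Reg U := by
  obtain ⟨a, rfl⟩ := h
  obtain ⟨U, hU, a, rfl⟩ := X.presheaf.exists_germ_eq a
  haveI : Nonempty U := ⟨⟨E, hU⟩⟩
  exact ⟨U, this, hU, a, (Scheme.algebraMap_germ_eq_germToFunctionField X hU a).symm⟩

lemma exists_reg' (f : X.functionField) : ∃ (U : X.Opens) (_ : Nonempty U), f ∈ Reg U := by
  obtain ⟨U, hU, a, rfl⟩ := X.presheaf.exists_germ_eq f
  exact ⟨U, ⟨⟨_, hU⟩⟩, a, rfl⟩

instance (U V : X.Opens) [h : Nonempty U] [h' : Nonempty V] : Nonempty (U ⊓ V : X.Opens) :=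
  ⟨⟨genericPoint X, ((genericPoint_spec X).mem_open_set_iff U.isOpen).2 (by simpa using h),
    ((genericPoint_spec X).mem_open_set_iff V.isOpen).2 (by simpa using h')⟩⟩

lemma nml [IsIntegrallyClosed (X.presheaf.stalk E)]
    (h : ∀ V : ValuationSubring X.functionField, (∀ z ∈ OX E, z ∈ V) → f ∈ V) : f ∈ OX E := by
  have h1 : f ∈ (integralClosure (Subring.closure (OX E : Set X.functionField)) _).toSubring :=
    (iInf_valuationSubring_superset (K := X.functionField)).le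
      (Subring.mem_iInf.2 fun V => h V.1 V.2)
  rw [Subring.closure_eq] at h1
  letI := (eqO E).symm.toRingHom.toAlgebra
  haveI : IsScalarTower (OX E) (X.presheaf.stalk E) X.functionField :=
    IsScalarTower.of_algebraMap_eq fun a =>
      (congrArg Subtype.val ((eqO E).apply_symm_apply a)).symm
  exact IsIntegrallyClosed.isIntegral_iff.1 (IsIntegral.tower_top (A := X.presheaf.stalk E) h1)

section
variable {U : X.Opens} [Nonempty U] (hU : IsAffineOpen U)
include hU

lemma un_germ (hE : E ∈ U) (a : Γ(X, U)) : X.germToFunctionField U a ≠ 0 ∧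
    (X.germToFunctionField U a)⁻¹ ∈ OX E ↔ a ∉ (hU.primeIdealOf ⟨E, hE⟩).asIdeal := by
  letI := X.presheaf.algebra_section_stalk ⟨E, hE⟩
  haveI := hU.isLocalization_stalk ⟨E, hE⟩
  rw [← Scheme.algebraMap_germ_eq_germToFunctionField X hE, un_iff]
  exact IsLocalization.AtPrime.isUnit_to_map_iff (X.presheaf.stalk E) _ a

lemma exists_frac (hE : E ∈ U) (h : f ∈ OX E) :
    ∃ b ∈ Reg U, (b ≠ 0 ∧ b⁻¹ ∈ OX E) ∧ b * f ∈ Reg U := by
  letI := X.presheaf.algebra_section_stalk ⟨E, hE⟩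
  haveI := hU.isLocalization_stalk ⟨E, hE⟩
  obtain ⟨z, rfl⟩ := h
  obtain ⟨⟨a, b⟩, hab⟩ := IsLocalization.surj (hU.primeIdealOf ⟨E, hE⟩).asIdeal.primeCompl z
  refine ⟨_, ⟨b, rfl⟩, (un_germ hU hE b).2 b.2, a, ?_⟩
  rw [← Scheme.algebraMap_germ_eq_germToFunctionField X hE,
    ← Scheme.algebraMap_germ_eq_germToFunctionField X hE, ← map_mul, mul_comm]
  exact congrArg _ hab.symm

lemma inj (hE : E ∈ U) (hE' : E' ∈ U) (h : OX E = OX E') : E = E' :=
  congrArg Subtype.val (hU.isoSpec.hom.homeomorph.injective (a₁ := ⟨E, hE⟩) (a₂ := ⟨E', hE'⟩)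
    (PrimeSpectrum.ext (Ideal.ext fun a => not_iff_not.1
      ((un_germ hU hE a).symm.trans (h ▸ un_germ hU hE' a)))))

omit hU in
lemma mem_of_unit {F : Type*} [Field F] {V : ValuationSubring F} {c g : F}
    (hc : V.valuation c = 1) (h : c * g ∈ V) : g ∈ V := by
  rwa [← V.valuation_le_one_iff, map_mul, hc, one_mul, V.valuation_le_one_iff] at h

lemma exists_centre (V : ValuationSubring X.functionField) (h : ∀ a ∈ Reg U, a ∈ V) :
    ∃ E ∈ U, (∀ f ∈ OX E, f ∈ V) ∧ ∀ f ∈ OX E, V.valuation f = 1 → f⁻¹ ∈ OX E := by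
  let ψ : Γ(X, U) →+* V := (X.germToFunctionField U).hom.codRestrict V fun a => h _ ⟨a, rfl⟩
  obtain ⟨⟨E, hE⟩, hp⟩ := hU.isoSpec.hom.homeomorph.surjective
    (⟨(IsLocalRing.maximalIdeal V).comap ψ, inferInstance⟩ : PrimeSpectrum Γ(X, U))
  have h1 : ∀ b ∈ Reg U, b ≠ 0 ∧ b⁻¹ ∈ OX E ↔ V.valuation b = 1 := by
    rintro _ ⟨a, rfl⟩
    rw [un_germ hU hE, show hU.primeIdealOf ⟨E, hE⟩ = _ from hp]
    exact IsLocalRing.notMem_maximalIdeal.trans (V.valuation_eq_one_iff (ψ a))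
  refine ⟨E, hE, fun f hf => ?_, fun f hf h2 => ?_⟩ <;>
    obtain ⟨b, h3, h4, h5⟩ := exists_frac hU hE hf
  · exact mem_of_unit ((h1 b h3).1 h4) (h _ h5)
  · simpa [h4.1] using mul_mem ((h1 _ h5).2 (by simp [h2, (h1 b h3).1 h4])).2 (reg_mem hE h3)

end

variable [IsLocallyNoetherian X]

lemma coheight_eq {V : ValuationSubring X.functionField} (hV : V ≠ ⊤)
    (h : OX E = V.toSubring) : coheight E = 1 := by
  let e : X.presheaf.stalk E ≃+* V := (eqO E).trans (RingEquiv.subringCongr h)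
  haveI := isNoetherianRing_of_ringEquiv _ e
  haveI : IsDiscreteValuationRing V := ((IsDiscreteValuationRing.TFAE V fun hF => hV
    (eq_top_iff.2 fun z _ => (V.mem_or_inv_mem z).elim id fun hz => by
      by_cases h0 : z = 0
      · simp [h0]
      obtain ⟨b, hb⟩ := hF.mul_inv_cancel (a := ⟨_, hz⟩)
        fun h => inv_ne_zero h0 (congrArg Subtype.val h)
      exact (inv_mul_eq_one₀ h0).1 (congrArg Subtype.val hb) ▸ b.2)).out 1 0).1
        (inferInstance : ValuationRing V)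
  haveI := IsDiscreteValuationRing.RingEquivClass.isDiscreteValuationRing e.symm
  have h1 := ringKrullDim_stalk_eq_coheight E
  rw [IsDiscreteValuationRing.ringKrullDim_eq_one] at h1
  exact_mod_cast h1.symm

lemma exists_val [IsIntegrallyClosed (X.presheaf.stalk E)] (h : coheight E = 1) :
    ∃ V : ValuationSubring X.functionField, Disc V ∧ OX E = V.toSubring ∧
      ∀ f, f ≠ 0 → (0 ≤ X.ord f E ↔ f ∈ V) := by
  haveI : Ring.KrullDimLE 1 (X.presheaf.stalk E) := krullDimLE_of_coheight_le h.le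
  have h1 : ¬IsField (X.presheaf.stalk E) := fun hF => by
    have h1 := ringKrullDim_stalk_eq_coheight E
    rw [ringKrullDim_eq_zero_of_isField hF, h] at h1
    exact absurd h1 (by decide)
  haveI : IsDedekindDomain (X.presheaf.stalk E) := (isDedekindDomain_iff _ X.functionField).2
    ⟨inferInstance, inferInstance, ⟨fun h1 h2 => h2.isMaximal_of_ne_bot h1⟩,
      IsIntegrallyClosed.isIntegral_iff.1⟩
  haveI : IsDiscreteValuationRing (X.presheaf.stalk E) :=
    ((IsDiscreteValuationRing.TFAE (X.presheaf.stalk E) h1).out 2 0).1 this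
  let v := (IsDiscreteValuationRing.maximalIdeal (X.presheaf.stalk E)).valuation X.functionField
  refine ⟨v.valuationSubring, ⟨v, IsDedekindDomain.HeightOneSpectrum.valuation_surjective _ _,
    fun _ => Iff.rfl⟩, Subring.ext fun z => ⟨?_, IsDiscreteValuationRing.exists_lift_of_le_one⟩,
    fun f hf => (Scheme.le_ord_iff h hf).trans ?_⟩
  · rintro ⟨a, rfl⟩
    exact IsDedekindDomain.HeightOneSpectrum.valuation_le_one _ a
  · rw [Scheme.ordHom, Ring.ordFrac_eq_valuation_inv]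
    exact one_le_inv₀ (zero_lt_iff.2 ((map_ne_zero v).2 hf))

end Br2

open Br2

section
variable {k F : Type u} [Field k] [Field F] [Algebra k F] {n : ℕ} {x : Fin (n + 2) → F}
  {V : ValuationSubring F}

lemma Br2.isPD (hx : Model k x) (hV : Disc V) (hk : ∀ c, algebraMap k F c ∈ V) {a}
    (ha : ∀ b, x b / x a ∈ V) (h : ∀ f ∈ V, ∃ c, V.valuation c = 1 ∧ ChartInt k x a c ∧
      ChartInt k x a (c * f)) : IsPD k x V := by
  classical
  obtain ⟨g, hg⟩ : ∃ g, g ∉ V := not_forall.1 fun h => hV.ne_top (eq_top_iff.2 fun z _ => h z)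
  by_contra hc
  have h1 : ∀ W : ValuationSubring F, ∃ c, V.valuation c = 1 ∧ ChartInt k x a c ∧
      (IsPD k x W → (∀ b, x b / x a ∈ W) → c * g ∈ W) := fun W => by
    by_cases hW : IsPD k x W ∧ ∀ b, x b / x a ∈ W
    · obtain ⟨f, h1, h2⟩ := SetLike.not_le_iff_exists.1 fun h : V ≤ W =>
        (hV.eq_or_top h).elim (fun h => hc (h ▸ hW.1)) hW.1.1
      obtain ⟨c, h3, h4, h5⟩ := h f h1
      have h6 := Or.inl (b := W = ⊤) (hW.1.disc hx)
      refine ⟨c ^ (ord W g).natAbs, by simp [h3], fun V h h' => pow_mem (h4 V h h') _, fun _ _ =>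
        (mem_iff_ge h6).2 (((Ge.pow ((val_lt_one_iff h6).1 ?_) _).mul ge_ord).mono (by omega))⟩
      exact ((W.valuation_le_one_iff c).2 (h4 W hW.1 hW.2)).lt_of_ne fun h => h2
        (mem_of_unit h (h5 W hW.1 hW.2))
    · exact ⟨1, map_one _, fun V _ _ => one_mem V, fun h h' => (hW ⟨h, h'⟩).elim⟩
  choose c h1 h2 h3 using h1
  have h4 : ChartInt k x a ((∏ W ∈ (finite_poles hx g).toFinset, c W) * g) := fun W h h' => by
    by_cases h4 : g ∈ W
    · exact mul_mem (prod_mem fun W' _ => h2 W' W h h') h4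
    · rw [← Finset.prod_erase_mul _ _ ((finite_poles hx g).mem_toFinset.2 ⟨h, h4⟩), mul_assoc]
      exact mul_mem (prod_mem fun W' _ => h2 W' W h h') (h3 W h h')
  exact hg (mem_of_unit (by simp [h1]) (h4.mem hx hk ha))

end

theorem bridge_gfr {k : Type u} [Field k] {X : Scheme.{u}} [IsIntegral X] [IsLocallyNoetherian X]
    [Algebra k X.functionField] {p : ℕ} [Fact p.Prime] [CharP X.functionField p] {N : ℕ}
    {ξ : Fin (N + 1) → X.functionField} {U : Fin (N + 1) → X.Opens} (hc : Coord (k := k) ξ U)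
    (hn : ∀ x : X, IsIntegrallyClosed (X.presheaf.stalk x)) (hG : IsGFR X p) {n : ℕ}
    {x : Fin (n + 2) → X.functionField} {l : X.functionField} (hl : l ≠ 0) (hx : Model k x)
    (h₁ : ∀ a, l * x a ∈ Submodule.span k (Set.range ξ))
    (h₂ : ∀ V : ValuationSubring X.functionField, (∀ c, algebraMap k _ c ∈ V) →
      ∀ a, (∀ b, x b / x a ∈ V) → ∀ i, ξ i / (l * x a) ∈ V) : MGFR k p x := by
  classical
  intro u b hu hs
  have hl' : ∀ a, l * x a ≠ 0 := fun a => mul_ne_zero hl (hx.ne_zero a)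
  have hA : ∀ i a, l * x a / ξ i ∈ Algebra.adjoin k (Set.range fun j => ξ j / ξ i) := fun i a => by
    obtain ⟨c, hc⟩ := (Submodule.mem_span_range_iff_exists_fun k).1 (h₁ a)
    rw [← hc, Finset.sum_div]
    exact sum_mem fun j _ => smul_div_assoc (c j) (ξ j) (ξ i) ▸
      Subalgebra.smul_mem _ (Algebra.subset_adjoin (Set.mem_range_self j)) _
  have hU : ∀ i, ξ i ≠ 0 → ∃ _ : Nonempty (U i), Reg (U i) =
      (Algebra.adjoin k (Set.range fun j => ξ j / ξ i) : Set X.functionField) := fun i hi =>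
    (hc.ring i hi).elim fun h h' => ⟨⟨⟨_, h⟩⟩, h'⟩
  have hne : ∀ (E : X) i, E ∈ U i → ξ i ≠ 0 := fun E i h => hc.ne i
    (((genericPoint_spec X).mem_open_set_iff (U i).isOpen).2 ⟨E, trivial, h⟩)
  have h1 : ∀ E : PrimeDiv X, ∃ (V : ValuationSubring X.functionField) (a : Fin (n + 2)),
      IsPD k x V ∧ (∀ b, x b / x a ∈ V) ∧ OX E.1 = V.toSubring ∧
        ∀ f, f ≠ 0 → (0 ≤ X.ord f E ↔ f ∈ V) := fun E => by
    obtain ⟨V, h1, h2, h3⟩ := exists_val E.2
    obtain ⟨i, hi⟩ := hc.cover E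
    obtain ⟨_, h4⟩ := hU i (hne _ i hi)
    have h5 : ∀ f ∈ Algebra.adjoin k (Set.range fun j => ξ j / ξ i), f ∈ V := fun f hf =>
      h2.le (reg_mem hi (h4.ge hf))
    have hk : ∀ c, algebraMap k _ c ∈ V := fun c => h5 _ (algebraMap_mem _ c)
    obtain ⟨a, -, ha⟩ := exists_min_coord V (w := x) fun h => hx.ne_zero 0 (congrFun h 0)
    refine ⟨V, a, Br2.isPD hx h1 hk ha fun f hf => ?_, ha, h2, h3⟩
    have h6 : V.valuation (ξ i / (l * x a)) = 1 := le_antisymm
      ((V.valuation_le_one_iff _).2 (h₂ V hk a ha i)) (by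
        rw [← inv_div, map_inv₀]
        exact (one_le_inv₀ (zero_lt_iff.2 (by simpa using ⟨⟨hl, hx.ne_zero a⟩, hne _ i hi⟩))).2
          ((V.valuation_le_one_iff _).2 (h5 _ (hA i a))))
    have h7 : ∀ g ∈ Algebra.adjoin k (Set.range fun j => ξ j / ξ i), ∃ M : ℕ,
        ChartInt k x a ((ξ i / (l * x a)) ^ M * g) := fun g hg => by
      induction hg using Algebra.adjoin_induction with
      | mem g hg =>
        obtain ⟨j, rfl⟩ := hg
        refine ⟨1, fun W h h' => ?_⟩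
        rw [pow_one, mul_comm, div_mul_div_cancel₀ (hne _ i hi)]
        exact h₂ W h.2.1 a h' j
      | algebraMap c => exact ⟨0, fun W h _ => by simpa using h.2.1 c⟩
      | add g g' _ _ h h' =>
        obtain ⟨M, h⟩ := h
        obtain ⟨M', h'⟩ := h'
        refine ⟨M + M', fun W h8 h9 => ?_⟩
        convert add_mem (mul_mem (pow_mem (h₂ W h8.2.1 a h9 i) M') (h W h8 h9))
          (mul_mem (pow_mem (h₂ W h8.2.1 a h9 i) M) (h' W h8 h9)) using 1
        ring
      | mul g g' _ _ h h' =>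
        obtain ⟨M, h⟩ := h
        obtain ⟨M', h'⟩ := h'
        refine ⟨M + M', fun W h8 h9 => ?_⟩
        convert mul_mem (h W h8 h9) (h' W h8 h9) using 1
        ring
    obtain ⟨c, h8, h9, h10⟩ := exists_frac (hc.aff i) hi (h2.ge hf)
    obtain ⟨M, hM⟩ := h7 _ (h4.le h8)
    obtain ⟨M', hM'⟩ := h7 _ (h4.le h10)
    have h11 : V.valuation c = 1 := le_antisymm ((V.valuation_le_one_iff _).2 (h5 _ (h4.le h8)))
      ((inv_le_one₀ (zero_lt_iff.2 (by simpa using h9.1))).1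
        (by simpa using (V.valuation_le_one_iff _).2 (h2.le h9.2)))
    refine ⟨(ξ i / (l * x a)) ^ (M + M') * c, by rw [map_mul, map_pow, h6, h11, one_pow, one_mul],
      fun W h h' => ?_, fun W h h' => ?_⟩
    · convert mul_mem (pow_mem (h₂ W h.2.1 a h' i) M') (hM W h h') using 1
      ring
    · convert mul_mem (pow_mem (h₂ W h.2.1 a h' i) M) (hM' W h h') using 1
      ring
  choose V a h1 h2 h3 h4 using h1
  have h5 : ∀ W, IsPD k x W → ∃ E, V E = W := fun W hW => by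
    obtain ⟨a, ha, -⟩ := hW.2.2
    obtain ⟨i, hi, h5⟩ := exists_min_coord W (w := ξ) fun h => hl' 0 (by simpa [h] using h₁ 0)
    obtain ⟨_, h6⟩ := hU i hi
    obtain ⟨E, h7, h8, h9⟩ := exists_centre (hc.aff i) W fun f hf => by
      obtain ⟨g, rfl⟩ := (Algebra.adjoin_range_eq_range_aeval k _).le (h6.le hf)
      exact aeval_mem hW.2.1 h5 g
    have h10 : ∀ f ∈ Algebra.adjoin k (Set.range fun j => ξ j / ξ i), f ∈ OX E := fun f hf =>
      reg_mem h7 (h6.ge hf)
    have h11 := h9 _ (h10 _ (hA i a)) (le_antisymm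
      ((W.valuation_le_one_iff _).2 (h8 _ (h10 _ (hA i a)))) (by
        rw [← inv_div, map_inv₀]
        exact (one_le_inv₀ (zero_lt_iff.2 (by simpa using ⟨hi, hl, hx.ne_zero a⟩))).2
          ((W.valuation_le_one_iff _).2 (h₂ W hW.2.1 a ha i))))
    have h12 : ∀ f, ChartInt k x a f → f ∈ OX E := fun f hf => nml fun W' h =>
      hf.mem hx (fun c => h _ (h10 _ (algebraMap_mem _ c))) fun b => h _ (by
        convert mul_mem (h10 _ (hA i b)) h11 using 1
        field_simp [hx.ne_zero a])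
    have h13 : OX E = W.toSubring := le_antisymm h8 fun f hf => by
      obtain ⟨c, h13, h14, h15⟩ := hW.loc hx ha hf
      simpa [show c ≠ 0 from fun h => by simp [h] at h13] using
        mul_mem (h9 c (h12 c h14) h13) (h12 _ h15)
    exact ⟨⟨E, coheight_eq hW.1 h13⟩, ValuationSubring.toSubring_injective
      ((h3 _).symm.trans h13)⟩
  have h6 : ∀ a, u / x a ^ b ≠ 0 := fun a => div_ne_zero hu (pow_ne_zero _ (hx.ne_zero a))
  have h7 : ∀ E : PrimeDiv X, 0 ≤ X.ord (u / x (a E) ^ b) E := fun E =>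
    (h4 E _ (h6 _)).2 ((hs _ (h1 E)).div_mem hx (h2 E))
  have h8 : (Function.support fun E : PrimeDiv X => X.ord (u / x (a E) ^ b) E).Finite := by
    refine (Set.finite_iUnion fun c : Fin (N + 1) × Fin (n + 2) => Set.Finite.of_finite_image
      (s := {E : PrimeDiv X | E.1 ∈ U c.1 ∧ (u / x c.2 ^ b)⁻¹ ∉ V E}) (f := V)
      ((finite_poles hx (u / x c.2 ^ b)⁻¹).subset ?_) fun E hE E' hE' h => ?_).subset
        fun E hE => ?_
    · rintro _ ⟨E, hE, rfl⟩
      exact ⟨h1 E, hE.2⟩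
    · haveI : Nonempty (U c.1) := ⟨⟨_, hE.1⟩⟩
      exact Subtype.ext (inj (hc.aff _) hE.1 hE'.1 (by rw [h3, h3, h]))
    · obtain ⟨i, hi⟩ := hc.cover E
      refine Set.mem_iUnion.2 ⟨(i, a E), hi, fun h => hE ?_⟩
      have h8 := Scheme.ord_mul (x := E.1) (h6 (a E)) (inv_ne_zero (h6 (a E)))
      have h9 := Scheme.ord_mul (X := X) (x := E.1) one_ne_zero one_ne_zero
      rw [mul_inv_cancel₀ (h6 _)] at h8
      rw [mul_one] at h9
      have := (h4 E _ (inv_ne_zero (h6 (a E)))).2 h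
      exact (h7 E).antisymm' (by omega)
  let D := Finsupp.ofSupportFinite _ h8
  obtain ⟨e, he, φ, hφ⟩ := hG D h7
  have h9 : ∀ (W : X.Opens) s, (∀ E : PrimeDiv X, E.1 ∈ W → Bd x (V E) b (u * s)) → s ∈ Sect D W :=
    fun W s h => or_iff_not_imp_left.2 fun h0 E hE => by
      have := (h4 E _ (div_ne_zero (mul_ne_zero hu h0) (pow_ne_zero _ (hx.ne_zero _)))).2
        ((h E hE).div_mem hx (h2 E))
      rwa [mul_comm u, mul_div_assoc, Scheme.ord_mul h0 (h6 _)] at this
  have h10 : ∀ (W : X.Opens) [Nonempty W], ∀ s ∈ Reg W, s ∈ Sect D W := fun W _ s h =>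
    h9 W s fun E hE => (hs _ (h1 E)).mul hx (bd_zero_iff.2 ((h3 E).le (reg_mem hE h)))
  choose W hW h11 using exists_reg' (X := X)
  have h12 : ∀ (W' : X.Opens) [Nonempty W'], ∀ s ∈ Sect D W', φ (W s) s = φ W' s :=
    fun W' _ s h => ((((hφ _).1 s (h10 _ s (h11 s))).2.2.2 (W s ⊓ W') inf_le_left).symm.trans
      (((hφ _).1 s h).2.2.2 _ inf_le_right))
  have h13 : ∀ s t, ∃ (W' : X.Opens) (_ : Nonempty W'), s ∈ Reg W' ∧ t ∈ Reg W' ∧
      ∀ r ∈ Subring.closure {s, t}, r ∈ Reg W' := fun s t => by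
    have h13 := reg_mono (inf_le_left : W s ⊓ W t ≤ _) (h11 s)
    have h14 := reg_mono (inf_le_right : W s ⊓ W t ≤ _) (h11 t)
    exact ⟨_, _, h13, h14, (Subring.closure_le (t := (X.germToFunctionField _).hom.range)).2
      (Set.pair_subset h13 h14)⟩
  refine ⟨e, he, AddMonoidHom.mk' (fun s => φ (W s) s) fun s t => ?_, fun s t => ?_, ?_,
    fun V' hV s h => ?_⟩
  · obtain ⟨W', _, h14, h15, h16⟩ := h13 s t
    rw [h12 W' s (h10 _ _ h14), h12 W' t (h10 _ _ h15), h12 W' _ (h10 _ _ (h16 _ (add_mem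
      (Subring.subset_closure (by simp)) (Subring.subset_closure (by simp)))))]
    exact ((hφ _).1 s (h10 _ _ h14)).2.1 t (h10 _ _ h15)
  · obtain ⟨W', _, h14, h15, h16⟩ := h13 s t
    refine (h12 W' _ (h10 _ _ (h16 _ (mul_mem (pow_mem (Subring.subset_closure (by simp)) _)
      (Subring.subset_closure (by simp)))))).trans ?_
    rw [((hφ _).1 t (h10 _ _ h15)).2.2.1 s h14, ← h12 W' t (h10 _ _ h15)]
    rfl
  · simpa using (hφ _).2 1 (h11 1)
  · obtain ⟨E, rfl⟩ := h5 V' hV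
    obtain ⟨c, h⟩ := h
    obtain ⟨W', _, h14, h15⟩ := exists_reg ((h3 E).ge h)
    have h16 := h9 W' s fun E hE => ⟨c, (h3 E).le (reg_mem hE h15)⟩
    exact (h3 E).le (reg_mem h14 (Set.mem_of_eq_of_mem (h12 W' s h16) ((hφ _).1 s h16).1))

end Pool.Agent.Lib.MP_7fcda1_ag
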