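import Pool.Agent.Lib.MP_7fcda1_ag.Bun1

open scoped IntermediateField Polynomial WithZero
open Module

noncomputable section

universe u

namespace Pool.Agent.Lib.MP_7fcda1_ag


variable {κ L : Type*} [Field κ] [Field L] [Algebra κ L] [IsFF κ L] {ι : Type*} [Fintype ι] {c : ℕ}

theorem Bun2.loc (v : Place κ L) (W : Submodule L (ι → L)) {M : Type*} [AddCommGroup M]
    [Module κ M] (U : Submodule κ M) [FiniteDimensional κ U] (φ : M →ₗ[κ] ι → L) (n : ℤ) (j : ℕ)
    (hW : ∀ u ∈ U, φ u ∈ W) (h : ∀ u ∈ U, VGe v.O n (φ u)) :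
    ∃ U' ≤ U, (∀ u ∈ U', VGe v.O (n + j) (φ u)) ∧
      finrank κ U ≤ finrank κ U' + finrank L W * (j * v.deg) := by
  classical
  obtain ⟨e, f, hsp, hef, hV⟩ := echelon v.O W
  have key : ∀ T : Finset (Fin (finrank L W)), ∃ U' ≤ U,
      (∀ u ∈ U', ∀ i ∈ T, Ge v.O (n + j) (φ u (f i))) ∧
        finrank κ U ≤ finrank κ U' + T.card * (j * v.deg) := by
    intro T
    induction T using Finset.induction_on with
    | empty => exact ⟨U, le_rfl, by simp, by simp⟩
    | insert i T hi ih =>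
      obtain ⟨U₁, h₁, h₂, h₃⟩ := ih
      have : FiniteDimensional κ U₁ := Submodule.finiteDimensional_of_le h₁
      obtain ⟨U₂, g₁, g₂, g₃⟩ := cond v U₁ ((LinearMap.proj (f i)).comp φ) n j
        (fun w hw => h w (h₁ hw) (f i))
      refine ⟨U₂, g₁.trans h₁, ?_, ?_⟩
      · intro u hu k hk
        rcases Finset.mem_insert.1 hk with rfl | hk
        · exact (g₂ u (g₁ hu)).1 hu
        · exact h₂ u (g₁ hu) k hk
      · rw [Finset.card_insert_of_notMem hi]
        nlinarith
  obtain ⟨U', h₁, h₂, h₃⟩ := key Finset.univ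
  refine ⟨U', h₁, fun u hu => ?_, by simpa using h₃⟩
  have hmem : φ u ∈ Submodule.span L (Set.range e) := hsp.symm ▸ hW u (h₁ hu)
  rw [eq_sum_echelon hef hmem]
  refine VGe.sum fun i _ => ?_
  have he : VGe v.O 0 (e i) := fun k => (mem_iff_ge (Or.inl v.disc)).1 (hV i k)
  simpa using VGe.smul (h₂ u hu i (Finset.mem_univ i)) he

theorem Bun2.glob (S : Finset (Place κ L)) (W : Submodule L (ι → L)) {M : Type*} [AddCommGroup M]
    [Module κ M] (U : Submodule κ M) [FiniteDimensional κ U] (φ : Place κ L → M →ₗ[κ] ι → L)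
    (n : Place κ L → ℤ) (j : Place κ L → ℕ)
    (hW : ∀ v, ∀ u ∈ U, φ v u ∈ W) (h : ∀ v, ∀ u ∈ U, VGe v.O (n v) (φ v u)) :
    ∃ U' ≤ U, (∀ u ∈ U', ∀ v ∈ S, VGe v.O (n v + j v) (φ v u)) ∧
      finrank κ U ≤ finrank κ U' + finrank L W * ∑ v ∈ S, j v * v.deg := by
  classical
  induction S using Finset.induction_on with
  | empty => exact ⟨U, le_rfl, by simp, by simp⟩
  | insert v S hv ih =>
    obtain ⟨U₁, h₁, h₂, h₃⟩ := ih
    have : FiniteDimensional κ U₁ := Submodule.finiteDimensional_of_le h₁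
    obtain ⟨U₂, g₁, g₂, g₃⟩ := Bun2.loc v W U₁ (φ v) (n v) (j v)
      (fun u hu => hW v u (h₁ hu)) (fun u hu => h v u (h₁ hu))
    refine ⟨U₂, g₁.trans h₁, ?_, ?_⟩
    · intro u hu k hk
      rcases Finset.mem_insert.1 hk with rfl | hk
      · exact g₂ u hu
      · exact h₂ u (g₁ hu) k hk
    · rw [Finset.sum_insert hv, mul_add]
      omega

omit [IsFF κ L] in
theorem Bun2.degD_eq_sum (D : Div κ L) : degD D = ∑ v ∈ D.support, D v * v.deg := by
  simp [degD, Finsupp.linearCombination_apply, Finsupp.sum]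

theorem Bun2.step (hc : RR κ L c) (W : Submodule L (ι → L)) {a : ι → L} (ha : a ∉ W)
    (ih : ∀ D : Div κ L, sdeg κ W + finrank L W * (degD D - c) ≤ finrank κ (Gam W D))
    (D : Div κ L) :
    sdeg κ (W ⊔ Submodule.span L {a}) + finrank L ↥(W ⊔ Submodule.span L {a}) * (degD D - c) ≤
      finrank κ (Gam (W ⊔ Submodule.span L {a}) D) := by
  classical
  obtain ⟨N, hN, hdeg⟩ := sdeg_line (κ := κ) ha
  have ha0 : a ≠ 0 := fun h => ha (h ▸ W.zero_mem)
  have hva : ∀ v : Place κ L, VGe v.O (vord v.O a) a := fun v => (vge_iff ha0).2 le_rfl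
  have hle : ∀ v : Place κ L, vord v.O a ≤ N v := fun v => (hN v _).1 ((hva v).qge W)
  choose w hwW hw using fun v : Place κ L => (hN v (N v)).2 le_rfl
  have hwv : ∀ v : Place κ L, VGe v.O (vord v.O a) (w v) := by
    intro v i
    have := ((hw v).mono (hle v) i).sub (hva v i)
    simpa using this
  set Δ : Div κ L := N - vdiv κ a with hΔ
  have hΔv : ∀ v, Δ v = N v - vord v.O a := fun v => by simp [hΔ, vdiv_apply]
  let M := ↥(Ls (N + D)) × ↥(Gam W (D + Δ))
  let p₁ : M →ₗ[κ] L := (Ls (N + D)).subtype.comp (LinearMap.fst κ _ _)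
  let p₂ : M →ₗ[κ] ι → L := (Gam W (D + Δ)).subtype.comp (LinearMap.snd κ _ _)
  let sm : (ι → L) → M →ₗ[κ] ι → L := fun x =>
    ((LinearMap.toSpanSingleton L (ι → L) x).restrictScalars κ).comp p₁
  have hsm : ∀ x u, sm x u = p₁ u • x := fun x u => rfl
  have hp₁ : ∀ (u : M) (v : Place κ L), Ge v.O (-(N v + D v)) (p₁ u) := fun u v =>
    mem_Ls.1 u.1.2 v
  have hp₂W : ∀ u : M, p₂ u ∈ W := fun u => (mem_Gam.1 u.2.2).1
  have hp₂ : ∀ (u : M) (v : Place κ L), VGe v.O (-(D v + Δ v)) (p₂ u) := fun u v =>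
    (mem_Gam.1 u.2.2).2 v
  obtain ⟨U', -, h₂, h₃⟩ := Bun2.glob Δ.support W (⊤ : Submodule κ M)
    (fun v => p₂ - sm (w v)) (fun v => -(D v + Δ v)) (fun v => (Δ v).toNat)
    (fun v u _ => W.sub_mem (hp₂W u) (W.smul_mem _ (hwW v)))
    (fun v u _ i => by
      have h1 := VGe.smul (hp₁ u v) (hwv v) i
      refine (hp₂ u v i).sub (h1.mono ?_)
      rw [hΔv]; omega)
  have hΔ0 : ∀ v, 0 ≤ Δ v := fun v => by rw [hΔv]; have := hle v; omega
  let Ψ : M →ₗ[κ] ι → L := sm a + p₂
  have hΨ : ∀ u ∈ U', Ψ u ∈ Gam (W ⊔ Submodule.span L {a}) D := by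
    intro u hu
    refine mem_Gam.2 ⟨?_, fun v => ?_⟩
    · exact Submodule.add_mem _
        (Submodule.mem_sup_right (Submodule.smul_mem _ _ (Submodule.mem_span_singleton_self a)))
        (Submodule.mem_sup_left (hp₂W u))
    · by_cases hv : v ∈ Δ.support
      · have e1 : Ψ u = p₁ u • (a + w v) + (p₂ - sm (w v)) u := by
          simp only [Ψ, LinearMap.add_apply, LinearMap.sub_apply, hsm, smul_add]; abel
        rw [e1]
        refine VGe.add ((VGe.smul (hp₁ u v) (hw v)).mono (by omega)) ((h₂ u hu v hv).mono ?_)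
        have := hΔ0 v
        omega
      · have h0 : Δ v = 0 := by simpa using hv
        have h1 := hΔv v
        exact VGe.add ((VGe.smul (hp₁ u v) (hva v)).mono (by omega)) ((hp₂ u v).mono (by omega))
  have hinj : Function.Injective Ψ := by
    rw [← LinearMap.ker_eq_bot, LinearMap.ker_eq_bot']
    intro u hu
    have hu' : p₁ u • a + p₂ u = 0 := hu
    have h1 : p₁ u = 0 := by
      by_contra h1
      apply ha
      have : a = -((p₁ u)⁻¹ • p₂ u) := by
        rw [eq_neg_of_add_eq_zero_right hu', smul_neg, neg_neg, inv_smul_smul₀ h1]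
      rw [this]
      exact W.neg_mem (W.smul_mem _ (hp₂W u))
    have h2 : p₂ u = 0 := by simpa [h1] using hu'
    exact Prod.ext (Subtype.ext h1) (Subtype.ext h2)
  have hU' : finrank κ U' ≤ finrank κ (Gam (W ⊔ Submodule.span L {a}) D) :=
    LinearMap.finrank_le_finrank_of_injective
      (f := (Ψ.comp U'.subtype).codRestrict _ fun u => hΨ u u.2)
      (fun x y hxy => Subtype.ext (hinj (congrArg Subtype.val hxy)))
  have hM : finrank κ (⊤ : Submodule κ M) = finrank κ (Ls (N + D)) + finrank κ (Gam W (D + Δ)) := by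
    rw [finrank_top]; exact Module.finrank_prod
  have hS : ((∑ v ∈ Δ.support, (Δ v).toNat * v.deg : ℕ) : ℤ) = degD Δ := by
    rw [Bun2.degD_eq_sum]
    push_cast
    exact Finset.sum_congr rfl fun v _ => by rw [Int.toNat_of_nonneg (hΔ0 v)]
  have i1 := ih (D + Δ)
  have i2 := (hc (N + D)).1
  rw [map_add] at i1 i2
  have i3 : (finrank κ (Ls (N + D)) : ℤ) + finrank κ (Gam W (D + Δ)) ≤
      finrank κ U' + finrank L W * degD Δ := by
    rw [← hS]; exact_mod_cast hM ▸ h₃
  have i4 : (finrank κ U' : ℤ) ≤ finrank κ (Gam (W ⊔ Submodule.span L {a}) D) := by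
    exact_mod_cast hU'
  rw [hdeg, Submodule.finrank_sup_span_singleton ha]
  push_cast
  linarith

theorem riemann_lower (hc : RR κ L c) (W : Submodule L (ι → L)) (D : Div κ L) :
    sdeg κ W + finrank L W * (degD D - c) ≤ finrank κ (Gam W D) := by
  classical
  obtain ⟨s, rfl⟩ := IsNoetherian.noetherian W
  induction s using Finset.induction_on generalizing D with
  | empty =>
    rw [Finset.coe_empty, Submodule.span_empty, sdeg_bot, finrank_bot]
    simp
  | insert a s _ ih =>
    by_cases ha : a ∈ Submodule.span L (s : Set (ι → L))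
    · rw [Finset.coe_insert, Submodule.span_insert_eq_span ha]; exact ih D
    · rw [Finset.coe_insert, Submodule.span_insert, sup_comm]
      exact Bun2.step hc _ ha ih D
omit [IsFF κ L] [Fintype ι] in
theorem gen_le (W : Submodule L (ι → L)) (D : Div κ L) : gen W D ≤ W :=
  Submodule.span_le.2 fun _ hw => (mem_Gam.1 hw).1
omit [IsFF κ L] [Fintype ι] in
theorem gen_mono (W : Submodule L (ι → L)) {D D' : Div κ L} (h : D ≤ D') :
    gen W D ≤ gen W D' :=
  Submodule.span_mono fun _ hw =>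
    mem_Gam.2 ⟨(mem_Gam.1 hw).1, fun v => ((mem_Gam.1 hw).2 v).mono (neg_le_neg (h v))⟩
omit [IsFF κ L] [Fintype ι] in
theorem Gam_eq_of_le {W W' : Submodule L (ι → L)} {D : Div κ L} (h : gen W D ≤ W') (h' : W' ≤ W) :
    Gam W' D = Gam W D := by
  ext w
  exact ⟨fun hw => mem_Gam.2 ⟨h' (mem_Gam.1 hw).1, (mem_Gam.1 hw).2⟩,
    fun hw => mem_Gam.2 ⟨h (Submodule.subset_span hw), (mem_Gam.1 hw).2⟩⟩
omit [IsFF κ L] [Fintype ι] in
theorem gen_gen (W : Submodule L (ι → L)) (D : Div κ L) : gen (gen W D) D = gen W D := by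
  rw [gen, Gam_eq_of_le le_rfl (gen_le W D)]; rfl

theorem Bun2.rank_le (W : Submodule L (ι → L)) : (finrank L W : ℤ) ≤ Fintype.card ι := by
  have := W.finrank_le
  rw [Module.finrank_fintype_fun_eq_card] at this
  exact_mod_cast this

theorem Bun2.quot_gam (W E : Submodule L (ι → L)) (D : Div κ L) (h : W ≤ gen E D) :
    sdeg κ W - ((finrank L (gen E D) : ℤ) - finrank L W) * degD D ≤ sdeg κ (gen E D) := by
  have := sdeg_quot_ge W (Gam E D : Set (ι → L)) D fun a ha v => ((mem_Gam.1 ha).2 v).qge W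
  rwa [show W ⊔ Submodule.span L (Gam E D : Set (ι → L)) = gen E D from sup_eq_right.2 h] at this

theorem qbound (hc : RR κ L c) {E W : Submodule L (ι → L)} {D : Div κ L} (h : gen E D ≤ W)
    (h' : W ≤ E) :
    sdeg κ W - sdeg κ (gen E D) ≤
      -((finrank L W : ℤ) - finrank L (gen E D)) * degD D + 2 * Fintype.card ι * c := by
  have h1 := riemann_lower hc W D
  have h2 := riemann_upper hc (gen_gen E D)
  rw [Gam_eq_of_le h h'] at h1
  rw [Gam_eq_of_le le_rfl (gen_le E D)] at h2
  have h3 := mul_le_mul_of_nonneg_right (Bun2.rank_le W) (Int.natCast_nonneg c)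
  have h4 := mul_le_mul_of_nonneg_right (Bun2.rank_le (gen E D)) (Int.natCast_nonneg c)
  linarith
theorem cut_unique (hc : RR κ L c) {E G : Submodule L (ι → L)} {D D' : Div κ L}
    (h : gen E D = gen E D') (hG : G ≤ E) (hr : finrank L G = finrank L (gen E D)) {l : ℤ}
    (hl : 0 ≤ l) (hd : sdeg κ (gen E D) - l ≤ sdeg κ G)
    (hlt : l + 2 * Fintype.card ι * c < degD D' - degD D) : G = gen E D := by
  have h1 := sdeg_super (κ := κ) G (gen E D)
  have h2 := qbound hc (E := E) (W := G ⊔ gen E D) (D := D') (h ▸ le_sup_right)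
    (sup_le hG (gen_le E D))
  rw [← h] at h2
  have h3 := Bun2.quot_gam (G ⊓ gen E D) E D inf_le_right
  have h4 := Submodule.finrank_sup_add_finrank_inf_eq G (gen E D)
  have h5 : finrank L (gen E D) ≤ finrank L ↥(G ⊔ gen E D) := Submodule.finrank_mono le_sup_right
  have h6 : (0 : ℤ) ≤ 2 * Fintype.card ι * c := by positivity
  have h7 : finrank L ↥(G ⊔ gen E D) = finrank L (gen E D) := by
    by_contra hne
    obtain ⟨ρ, hρ⟩ : ∃ ρ : ℤ, ρ = (finrank L ↥(G ⊔ gen E D) : ℤ) - finrank L (gen E D) := ⟨_, rfl⟩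
    have hρ1 : 1 ≤ ρ := by omega
    have hρ2 : (finrank L (gen E D) : ℤ) - finrank L ↥(G ⊓ gen E D) = ρ := by omega
    rw [← hρ] at h2
    rw [hρ2] at h3
    nlinarith
  have e1 : G = G ⊔ gen E D := Submodule.eq_of_le_of_finrank_eq le_sup_left (by omega)
  have e2 : gen E D = G ⊔ gen E D := Submodule.eq_of_le_of_finrank_eq le_sup_right h7.symm
  exact e1.trans e2.symm
theorem Gam_le_min (hc : RR κ L c) (W : Submodule L (ι → L)) {D : Div κ L} (hD : 0 ≤ D) :
    (finrank κ (Gam W D) : ℤ) ≤ finrank L W * (degD D + c) - min (degD D) (-sdeg κ W) := by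
  by_cases h : gen W D = W
  · have := riemann_upper hc h
    have := min_le_right (degD D) (-sdeg κ W)
    linarith
  · have h2 := riemann_upper hc (gen_gen W D)
    rw [Gam_eq_of_le le_rfl (gen_le W D)] at h2
    have h3 : (finrank L (gen W D) : ℤ) + 1 ≤ finrank L W := by
      exact_mod_cast Submodule.finrank_lt_finrank_of_lt (lt_of_le_of_ne (gen_le W D) h)
    have h4 := sdeg_nonpos (κ := κ) (gen W D)
    have h5 : 0 ≤ degD D := by simpa using degD_mono hD
    have h6 := min_le_left (degD D) (-sdeg κ W)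
    have h7 := Int.natCast_nonneg c
    nlinarith
theorem sum_rank_le (hc : RR κ L c) (E : Submodule L (ι → L)) {H : Div κ L} (hH : 0 ≤ H) (y : ℕ) :
    ∑ j ∈ Finset.range (y + 1), (finrank L (gen E (j • H)) : ℤ) * degD H ≤
      finrank κ (Gam E (y • H)) + Fintype.card ι * (degD H + c) := by
  have key : ∀ y : ℕ, ∑ j ∈ Finset.range y, (finrank L (gen E (j • H)) : ℤ) * degD H ≤
      sdeg κ (gen E (y • H)) + finrank L (gen E (y • H)) * (y * degD H) := by
    intro y
    induction y with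
    | zero => simpa [sdeg_bot] using Bun2.quot_gam (κ := κ) ⊥ E 0 bot_le
    | succ y ih =>
      have := Bun2.quot_gam (gen E (y • H)) E ((y + 1) • H)
        (gen_mono E (nsmul_le_nsmul_left hH (Nat.le_succ y)))
      rw [map_nsmul, nsmul_eq_mul] at this
      rw [Finset.sum_range_succ]
      push_cast at this ⊢
      linarith
  have h1 := riemann_lower hc (gen E (y • H)) (y • H)
  rw [Gam_eq_of_le le_rfl (gen_le E _), map_nsmul, nsmul_eq_mul] at h1
  have h5 : 0 ≤ degD H := by simpa using degD_mono hH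
  have h3 := mul_le_mul_of_nonneg_right (Bun2.rank_le (gen E (y • H)))
    (add_nonneg h5 (Int.natCast_nonneg c))
  rw [Finset.sum_range_succ]
  have := key y
  linarith
/-- an increasing filtration is constant on a long interval -/
theorem exists_const (E : Submodule L (ι → L)) {H : Div κ L} (hH : 0 ≤ H) (y l : ℕ) :
    ∃ y', y ≤ y' ∧ y' + l ≤ y + (Fintype.card ι + 1) * l ∧
      gen E (y' • H) = gen E ((y' + l) • H) := by
  by_contra hne
  push Not at hne
  have key : ∀ i ≤ Fintype.card ι + 1, i ≤ finrank L (gen E ((y + i * l) • H)) := by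
    intro i
    induction i with
    | zero => simp
    | succ i ih =>
      intro hi
      have h1 := ih (by omega)
      have h2 := hne (y + i * l) (by omega) (by nlinarith)
      have h3 := Submodule.finrank_lt_finrank_of_lt (lt_of_le_of_ne
        (gen_mono E (nsmul_le_nsmul_left hH (Nat.le_add_right (y + i * l) l))) h2)
      rw [show y + (i + 1) * l = y + i * l + l by ring]
      omega
  have h1 := key _ le_rfl
  have h2 := Bun2.rank_le (gen E ((y + (Fintype.card ι + 1) * l) • H))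
  omega

end Pool.Agent.Lib.MP_7fcda1_ag
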