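import Pool.Agent.Lib.MP_7fcda1_ag.Car1a

open scoped IntermediateField Polynomial WithZero
open Module MvPolynomial

noncomputable section

namespace Pool.Agent.Lib.MP_7fcda1_ag

variable {k F : Type*} [Field k] [Field F] [Algebra k F] {r : ℕ}

/-- the differential operator with a given symbol -/
def Car1_op (D : Fin r → Derivation k F F) : MvPolynomial (Fin r) F →ₗ[F] Module.End k F :=
  (basisMonomials (Fin r) F).constr F fun α => Car1_mono D α (List.finRange r)

theorem Car1_op_monomial (D : Fin r → Derivation k F F) (α : Fin r →₀ ℕ) (c : F) :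
    Car1_op D (monomial α c) = c • Car1_mono D α (List.finRange r) := by
  have : monomial α c = c • basisMonomials (Fin r) F α := by
    simp [smul_monomial]
  rw [this, map_smul, Car1_op, Basis.constr_basis]

theorem Car1_op_X_pow_mul {D : Fin r → Derivation k F F}
    (h : ∀ i j, Commute (D i : Module.End k F) (D j : F →ₗ[k] F)) (i : Fin r) (n : ℕ)
    (P : MvPolynomial (Fin r) F) :
    Car1_op D (X i ^ n * P) = (Car1_op D P) * (D i : F →ₗ[k] F) ^ n := by
  induction P using MvPolynomial.induction_on' with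
  | monomial α c =>
    rw [X_pow_eq_monomial, monomial_mul, Car1_op_monomial, Car1_op_monomial, one_mul, add_comm,
      Finsupp.coe_add, Car1_mono_add h, Finsupp.single_eq_pi_single, Car1_mono_single]
    rfl
  | add P Q hP hQ => rw [mul_add, map_add, map_add, hP, hQ, add_mul]

theorem Car1_op_one (D : Fin r → Derivation k F F) : Car1_op D 1 = 1 := by
  have : (1 : MvPolynomial (Fin r) F) = monomial 0 1 := rfl
  rw [this, Car1_op_monomial, one_smul, Car1_mono]
  simp

theorem Car1_op_X_pow {D : Fin r → Derivation k F F}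
    (h : ∀ i j, Commute (D i : Module.End k F) (D j : F →ₗ[k] F)) (i : Fin r) (n : ℕ) :
    Car1_op D (X i ^ n) = (D i : F →ₗ[k] F) ^ n := by
  rw [← mul_one (X i ^ n), Car1_op_X_pow_mul h, Car1_op_one, one_mul]

theorem Car1_op_lin {D : Fin r → Derivation k F F}
    (h : ∀ i j, Commute (D i : Module.End k F) (D j : F →ₗ[k] F)) (f : Fin r → F) (n : ℕ) (a : F) :
    Car1_op D (∑ l, f l • X l ^ n) a = ∑ l, f l * (D l)^[n] a := by
  simp only [map_sum, map_smul, Car1_op_X_pow h, LinearMap.sum_apply, LinearMap.smul_apply,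
    Car1_pow_apply, smul_eq_mul]

theorem Car1_step {D : Fin r → Derivation k F F}
    (h : ∀ i j, Commute (D i : Module.End k F) (D j : F →ₗ[k] F)) (f : Fin r → F)
    {T : Derivation k F F} (hT : ∀ a, T a = ∑ l, f l * D l a) (P : MvPolynomial (Fin r) F) :
    ∃ Q : MvPolynomial (Fin r) F, Q.totalDegree ≤ P.totalDegree ∧ ∀ a,
      T (Car1_op D P a) = Car1_op D ((∑ l, f l • X l) * P + Q) a := by
  refine ⟨∑ α ∈ P.support, monomial α (T (coeff α P)), ?_, fun a => ?_⟩
  · refine (totalDegree_finsetSum _ _).trans (Finset.sup_le fun α hα => ?_)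
    exact (totalDegree_monomial_le _ _).trans (le_totalDegree hα)
  · have key : ∀ (α : Fin r →₀ ℕ) (c : F), T (Car1_op D (monomial α c) a) =
        Car1_op D ((∑ l, f l • X l) * monomial α c) a + Car1_op D (monomial α (T c)) a := by
      intro α c
      have h1 : ∀ l, Car1_op D (X l * monomial α c) a =
          c * D l (Car1_mono D α (List.finRange r) a) := by
        intro l
        have := Car1_op_X_pow_mul h l 1 (monomial α c)
        rw [pow_one, pow_one, Car1_op_monomial] at this
        rw [this]
        have h2 := congrArg (fun S : Module.End k F => S a)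
          (Car1_commute_mono (h l) α (List.finRange r)).eq
        simp only [Module.End.mul_apply] at h2 ⊢
        rw [LinearMap.smul_apply, ← h2]
        rfl
      simp only [Finset.sum_mul, smul_mul_assoc, map_sum, map_smul, LinearMap.sum_apply,
        LinearMap.smul_apply, h1, Car1_op_monomial, smul_eq_mul, Derivation.leibniz]
      rw [hT (Car1_mono D α (List.finRange r) a), Finset.mul_sum, mul_comm (T c)]
      congr 1
      exact Finset.sum_congr rfl fun l _ => by ring
    have e1 : (∑ l, f l • X l) * P =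
        ∑ α ∈ P.support, (∑ l, f l • X l) * monomial α (coeff α P) := by
      rw [← Finset.mul_sum, ← P.as_sum]
    rw [e1]
    conv_lhs => rw [P.as_sum]
    rw [map_add, LinearMap.add_apply, map_sum, map_sum, map_sum, LinearMap.sum_apply,
      LinearMap.sum_apply, LinearMap.sum_apply, map_sum, ← Finset.sum_add_distrib]
    exact Finset.sum_congr rfl fun α _ => key α _

theorem Car1_deg_lin (f : Fin r → F) :
    (∑ l, f l • X l : MvPolynomial (Fin r) F).totalDegree ≤ 1 := by
  refine (totalDegree_finsetSum _ _).trans (Finset.sup_le fun l _ => ?_)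
  exact (totalDegree_smul_le _ _).trans (totalDegree_X l).le

theorem Car1_iter_op {D : Fin r → Derivation k F F}
    (h : ∀ i j, Commute (D i : Module.End k F) (D j : F →ₗ[k] F)) (f : Fin r → F)
    {T : Derivation k F F} (hT : ∀ a, T a = ∑ l, f l * D l a) (n : ℕ) :
    ∃ R : MvPolynomial (Fin r) F, R.totalDegree ≤ n ∧ ∀ a,
      T^[n + 1] a = Car1_op D ((∑ l, f l • X l) ^ (n + 1) + R) a := by
  induction n with
  | zero =>
    refine ⟨0, by simp, fun a => ?_⟩
    have := Car1_op_lin h f 1 a
    simp only [pow_one, Function.iterate_one] at this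
    rw [zero_add, pow_one, add_zero, this, Function.iterate_one, hT]
  | succ n ih =>
    obtain ⟨R, hR, hRa⟩ := ih
    obtain ⟨Q, hQ, hQa⟩ := Car1_step h f hT ((∑ l, f l • X l) ^ (n + 1) + R)
    have hl := Car1_deg_lin f
    refine ⟨(∑ l, f l • X l) * R + Q, ?_, fun a => ?_⟩
    · refine (totalDegree_add _ _).trans (max_le ((totalDegree_mul _ _).trans (by omega)) ?_)
      refine hQ.trans ((totalDegree_add _ _).trans (max_le ?_ (by omega)))
      refine (totalDegree_pow _ _).trans ?_
      nlinarith
    · rw [Function.iterate_succ_apply', hRa, hQa]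
      congr 2
      ring

theorem Car1_op_inj (p : ℕ) [hp : Fact p.Prime] [CharP F p] (Φ : Frame k F r)
    {P : MvPolynomial (Fin r) F} (hP : P.totalDegree < p)
    (h : ∀ m : Fin r → ℕ, Car1_op Φ.D P (∏ j, Φ.y j ^ m j) = 0) : P = 0 := by
  ext α
  rw [coeff_zero]
  induction α using WellFoundedLT.induction with
  | ind α ih =>
    by_contra hα
    have hα' : α ∈ P.support := mem_support_iff.2 hα
    have h1 := h α
    conv_lhs at h1 => rw [P.as_sum]
    simp only [map_sum, LinearMap.sum_apply, Car1_op_monomial, LinearMap.smul_apply,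
      Car1_mono_mon', smul_eq_mul] at h1
    rw [Finset.sum_eq_single_of_mem α hα'] at h1
    · simp only [Nat.sub_self, pow_zero, Finset.prod_const_one, mul_one, Nat.descFactorial_self,
        Nat.cast_prod, mul_eq_zero, hα, false_or, Finset.prod_eq_zero_iff] at h1
      obtain ⟨j, -, hj⟩ := h1
      rw [CharP.cast_eq_zero_iff F p, hp.out.dvd_factorial] at hj
      have h2 : α j ≤ P.totalDegree := by
        refine le_trans ?_ (le_totalDegree hα')
        by_cases h3 : α j = 0
        · omega
        · exact Finset.single_le_sum (f := fun i => α i) (fun _ _ => Nat.zero_le _)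
            (Finsupp.mem_support_iff.2 h3)
      omega
    · intro γ _ hγ
      by_cases hle : γ ≤ α
      · rw [ih γ (lt_of_le_of_ne hle hγ), zero_mul]
      · obtain ⟨j, hj⟩ := not_forall.1 (fun h => hle (Finsupp.le_def.2 h))
        rw [Finset.prod_eq_zero (Finset.mem_univ j) (Nat.descFactorial_of_lt (not_le.1 hj))]
        simp

theorem Car1_der_prod {T T' : Derivation k F F} {y : Fin r → F} (h : ∀ i, T (y i) = T' (y i))
    (m : Fin r → ℕ) : T (∏ j, y j ^ m j) = T' (∏ j, y j ^ m j) := by
  refine Finset.prod_induction _ (fun x => T x = T' x) ?_ (by simp) ?_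
  · intro a b ha hb
    simp [ha, hb]
  · intro j _
    simp [h j]

theorem Car1_core (p : ℕ) [hp : Fact p.Prime] [CharP F p] (Φ : Frame k F r)
    (h : ∀ i j, Commute (Φ.D i : Module.End k F) (Φ.D j : F →ₗ[k] F)) (f : Fin r → F)
    {T δ δ' : Derivation k F F} (hT : ∀ a, T a = ∑ l, f l * Φ.D l a)
    (hδ : ∀ a, δ a = T^[p] a - ∑ l, f l ^ p * (Φ.D l)^[p] a)
    (hδ' : ∀ a, δ' a = ∑ l, δ (Φ.y l) * Φ.D l a) : δ = δ' := by
  have h2 := hp.out.two_le
  obtain ⟨R, hR, hRa⟩ := Car1_iter_op h f hT (p - 1)
  rw [show p - 1 + 1 = p by omega] at hRa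
  have h3 : (∑ l, f l • X l : MvPolynomial (Fin r) F) ^ p = ∑ l, f l ^ p • X l ^ p := by
    rw [sum_pow_char]
    simp only [smul_pow]
  have h4 : ∀ a, Car1_op Φ.D (R - ∑ l, δ (Φ.y l) • X l) a = δ a - δ' a := by
    intro a
    have h5 := Car1_op_lin h (fun l => δ (Φ.y l)) 1 a
    simp only [pow_one, Function.iterate_one] at h5
    rw [map_sub, LinearMap.sub_apply, h5, hδ', hδ a, hRa, h3, map_add, LinearMap.add_apply,
      Car1_op_lin h]
    ring
  have h6 : ∀ i, δ (Φ.y i) = δ' (Φ.y i) := by
    intro i
    rw [hδ']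
    simp [Φ.dual]
  have h7 : R - ∑ l, δ (Φ.y l) • X l = 0 := by
    refine Car1_op_inj p Φ ?_ fun m => ?_
    · have := Car1_deg_lin fun l => δ (Φ.y l)
      exact lt_of_le_of_lt (totalDegree_sub _ _) (max_lt (by omega) (by omega))
    · rw [h4, Car1_der_prod h6, sub_self]
  ext a
  have := h4 a
  rw [h7, map_zero, LinearMap.zero_apply] at this
  exact sub_eq_zero.1 this.symm

end Pool.Agent.Lib.MP_7fcda1_ag
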