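import Pool.Agent.Lib.MP_7fcda1_ag.Lin
import Pool.Agent.Lib.MP_7fcda1_ag.Car1b

open scoped IntermediateField Polynomial WithZero
open Module

noncomputable section

universe u

set_option linter.unusedSectionVars false

namespace Pool.Agent.Lib.MP_7fcda1_ag


variable {k F : Type*} [Field k] [Field F] [Algebra k F] {p : ℕ} [Fact p.Prime] [CharP F p]
  {r : ℕ} {E : Submodule F (Derivation k F F)} {Φ : Frame k F r}

variable (p) in
theorem exists_isPow (D : Derivation k F F) : ∃ D', IsPow p D D' := by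
  refine ⟨Derivation.mk' ((D : F →ₗ[k] F) ^ p) fun a b => ?_, fun a => ?_⟩
  · simp only [Car1_pow_apply, Car1_leibniz_char p, smul_eq_mul]
  · exact Car1_pow_apply D p a
theorem isFol_top : IsFol p (⊤ : Submodule F (Derivation k F F)) :=
  ⟨fun _ _ _ _ => Submodule.mem_top, fun _ _ _ _ => Submodule.mem_top⟩
theorem der_pow (D : Derivation k F F) (a : F) : D (a ^ p) = 0 := by
  rw [Derivation.leibniz_pow, nsmul_eq_mul, CharP.cast_eq_zero, zero_mul]
theorem comb_apply (D : Fin r → Derivation k F F) (c : Fin r → F) (a : F) :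
    comb D c a = ∑ i, c i * D i a := by
  rw [comb, Fintype.linearCombination_apply]
  have := congrFun (map_sum (Derivation.coeFnAddMonoidHom (R := k) (A := F) (M := F))
    (fun i => c i • D i) Finset.univ) a
  rw [Finset.sum_apply] at this
  exact this
theorem Car1_comb_y (Φ : Frame k F r) (c : Fin r → F) (j : Fin r) :
    comb Φ.D c (Φ.y j) = c j := by
  rw [comb_apply]
  simp [Φ.dual]
theorem Frame.linearIndependent (Φ : Frame k F r) : LinearIndependent F Φ.D := by
  rw [Fintype.linearIndependent_iff]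
  intro c hc j
  have h : comb Φ.D c = 0 := by rw [comb, Fintype.linearCombination_apply, hc]
  rw [← Car1_comb_y Φ c j, h, Derivation.zero_apply]
theorem Car1_mem_iff (h : Φ.Spans E) {D : Derivation k F F} : D ∈ E ↔ ∃ c, comb Φ.D c = D := by
  rw [← h, ← Fintype.range_linearCombination]
  rfl
theorem Frame.Spans.eq_comb (h : Φ.Spans E) {D : Derivation k F F} (hD : D ∈ E) :
    D = comb Φ.D fun i => D (Φ.y i) := by
  obtain ⟨c, rfl⟩ := (Car1_mem_iff h).1 hD
  congr 1
  funext i
  rw [Car1_comb_y]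
theorem Car1_D_mem (h : Φ.Spans E) (i : Fin r) : Φ.D i ∈ E :=
  h ▸ Submodule.subset_span ⟨i, rfl⟩
theorem Car1_eq_zero (h : Φ.Spans E) {D : Derivation k F F} (hD : D ∈ E)
    (h0 : ∀ i, D (Φ.y i) = 0) (a : F) : D a = 0 := by
  rw [h.eq_comb hD, comb_apply]
  simp [h0]
theorem Car1_D_D_y (Φ : Frame k F r) (D : Derivation k F F) (j l : Fin r) :
    D (Φ.D j (Φ.y l)) = 0 := by
  rw [Φ.dual]
  split_ifs <;> simp
theorem Frame.Spans.comm (h : Φ.Spans E) (hE : IsInv E) (i j : Fin r) (a : F) :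
    Φ.D i (Φ.D j a) = Φ.D j (Φ.D i a) := by
  have := Car1_eq_zero h (hE _ (Car1_D_mem h i) _ (Car1_D_mem h j))
    (fun l => by rw [Derivation.commutator_apply, Car1_D_D_y, Car1_D_D_y, sub_self]) a
  rwa [Derivation.commutator_apply, sub_eq_zero] at this
theorem Car1_commute (h : Φ.Spans E) (hE : IsInv E) (i j : Fin r) :
    Commute (Φ.D i : Module.End k F) (Φ.D j : F →ₗ[k] F) :=
  LinearMap.ext fun a => h.comm hE i j a
theorem Frame.Spans.iterate (h : Φ.Spans E) (hE : IsFol p E) (i : Fin r) (a : F) :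
    (Φ.D i)^[p] a = 0 := by
  obtain ⟨D', hD'⟩ := exists_isPow p (Φ.D i)
  rw [← hD']
  refine Car1_eq_zero h (hE.2 _ (Car1_D_mem h i) _ hD') (fun l => ?_) a
  obtain ⟨n, hn⟩ : ∃ n, p = n + 2 := ⟨p - 2, by have := (Fact.out : p.Prime).two_le; omega⟩
  rw [hD', hn, Function.iterate_succ_apply, Function.iterate_succ_apply, Car1_D_D_y]
  exact Function.iterate_fixed (map_zero _) n
theorem theta_const (h : Φ.Spans E) (hE : IsFol p E) (a : F) :
    ∀ D ∈ E, D (theta p Φ.D a) = 0 := by
  intro D hD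
  have key : ∀ i, Φ.D i (theta p Φ.D a) = 0 := by
    intro i
    have h0 : (Φ.D i : Module.End k F) ^ (p - 1 + 1) = 0 := by
      rw [Nat.sub_add_cancel (Fact.out : p.Prime).one_le]
      exact LinearMap.ext fun b => (Car1_pow_apply _ _ _).trans (h.iterate hE i b)
    have := Car1_mul_mono_zero (Car1_commute h hE.1) h0 (List.mem_finRange i)
    rw [Car1_theta_eq]
    exact congrArg (fun S : Module.End k F => S a) this
  rw [h.eq_comb hD, comb_apply]
  simp [key]
theorem theta_mul {D : Fin r → Derivation k F F} {c : F} (hc : ∀ i, D i c = 0) (a : F) :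
    theta p D (c * a) = c * theta p D a := by
  rw [Car1_theta_eq, Car1_mono_mul hc]
theorem theta_mem {V : ValuationSubring F} (h : Φ.Int V) {a : F} (ha : a ∈ V) :
    theta p Φ.D a ∈ V := by
  rw [Car1_theta_eq]
  exact Car1_mono_mem h.2 _ _ ha
theorem theta_monomial (Φ : Frame k F r) (α β : Fin r → Fin p) :
    theta p Φ.D ((∏ i, Φ.y i ^ (α i : ℕ)) * ∏ i, Φ.y i ^ (p - 1 - β i)) =
      if α = β then (-1) ^ r else 0 := by
  rw [← Finset.prod_mul_distrib]
  simp only [← pow_add]
  rw [Car1_theta_eq, Car1_mono_mon', Nat.cast_prod]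
  simp only [Car1_desc p (α _).2 (β _).2]
  split_ifs with hαβ
  · subst hαβ
    have : ∀ j, (α j : ℕ) + (p - 1 - α j) - (p - 1) = 0 := fun j => by
      have := (α j).2
      omega
    simp [this]
  · obtain ⟨j, hj⟩ := Function.ne_iff.1 hαβ
    rw [Finset.prod_eq_zero (Finset.mem_univ j) (if_neg fun h => hj (Fin.ext h)), zero_mul]

/-- the Taylor expansion operator -/
def Car1_tay (p : ℕ) (Φ : Frame k F r) (a : F) : F :=
  ∑ α : Fin r → Fin p, (-1) ^ r * theta p Φ.D (a * ∏ i, Φ.y i ^ (p - 1 - α i)) *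
    ∏ i, Φ.y i ^ (α i : ℕ)

theorem Car1_tay_add (a b : F) : Car1_tay p Φ (a + b) = Car1_tay p Φ a + Car1_tay p Φ b := by
  simp only [Car1_tay, add_mul, map_add, mul_add, Finset.sum_add_distrib]

theorem Car1_tay_mon {c : F} (hc : ∀ i, Φ.D i c = 0) (β : Fin r → Fin p) :
    Car1_tay p Φ (c * ∏ i, Φ.y i ^ (β i : ℕ)) = c * ∏ i, Φ.y i ^ (β i : ℕ) := by
  simp only [Car1_tay, mul_assoc, theta_mul hc, theta_monomial]
  rw [Finset.sum_eq_single β]
  · rw [if_pos rfl, mul_left_comm, ← mul_assoc ((-1 : F) ^ r), ← mul_pow]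
    simp
  · intro α _ hα
    simp [hα.symm]
  · simp

theorem Car1_tay_ind (h : Φ.Spans E) (hE : IsFol p E) (S : Finset (Fin r)) :
    ∀ c : F, (∀ i, i ∉ S → Φ.D i c = 0) → ∀ β : Fin r → Fin p, (∀ i ∈ S, (β i : ℕ) = 0) →
      Car1_tay p Φ (c * ∏ i, Φ.y i ^ (β i : ℕ)) = c * ∏ i, Φ.y i ^ (β i : ℕ) := by
  induction S using Finset.induction_on with
  | empty => exact fun c hc β _ => Car1_tay_mon (fun i => hc i (by simp)) β
  | insert i S hi ih =>
    intro c hc β hβ
    have key : ∀ n, n ≤ p → ∀ c : F, (∀ j, j ∉ insert i S → Φ.D j c = 0) → (Φ.D i)^[n] c = 0 →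
        Car1_tay p Φ (c * ∏ i, Φ.y i ^ (β i : ℕ)) = c * ∏ i, Φ.y i ^ (β i : ℕ) := by
      intro n
      induction n with
      | zero =>
        intro _ c _ h0
        have : c = 0 := h0
        simp [this, Car1_tay]
      | succ n ihn =>
        intro hn c hc h0
        have hf : (n.factorial : F) ≠ 0 := by
          rw [Ne, CharP.cast_eq_zero_iff F p, (Fact.out : p.Prime).dvd_factorial]
          omega
        have hcomm : ∀ j (m : ℕ), Φ.D j c = 0 → Φ.D j ((Φ.D i)^[m] c) = 0 := by
          intro j m hj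
          induction m with
          | zero => exact hj
          | succ m ihm => rw [Function.iterate_succ_apply', h.comm hE.1, ihm, map_zero]
        set d : F := (Φ.D i)^[n] c / n.factorial with hd
        have hd1 : ∀ j, Φ.D j ((Φ.D i)^[n] c) = 0 → Φ.D j d = 0 := by
          intro j hj
          rw [hd, Derivation.leibniz_div_const _ _ _ (Derivation.map_natCast _ _), hj, smul_zero]
        have hdi : Φ.D i d = 0 := hd1 i (by rwa [Function.iterate_succ_apply'] at h0)
        have hd2 : ∀ j, j ∉ S → Φ.D j d = 0 := by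
          intro j hj
          by_cases hji : j = i
          · rw [hji, hdi]
          · exact hd1 j (hcomm j n (hc j (by simp [hji, hj])))
        have hyn : Φ.y i ^ n = ∏ j, Φ.y j ^ (Pi.single i n : Fin r → ℕ) j := by
          rw [Finset.prod_eq_single i]
          · simp
          · intro j _ hj
            simp [hj]
          · simp
        have h1 := ihn (by omega) (c - d * Φ.y i ^ n) (fun j hj => ?_) ?_
        · have h2 := ih d hd2 (Function.update β i ⟨n, hn⟩) fun j hj => by
            rw [Function.update_of_ne (fun h : j = i => hi (h ▸ hj))]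
            exact hβ j (Finset.mem_insert_of_mem hj)
          have h3 : ∏ j, Φ.y j ^ (Function.update β i ⟨n, hn⟩ j : ℕ) =
              Φ.y i ^ n * ∏ j, Φ.y j ^ (β j : ℕ) := by
            rw [← Finset.mul_prod_erase _ _ (Finset.mem_univ i),
              ← Finset.mul_prod_erase _ _ (Finset.mem_univ i), hβ i (Finset.mem_insert_self _ _),
              Function.update_self, pow_zero, one_mul]
            congr 1
            exact Finset.prod_congr rfl fun j hj => by
              rw [Function.update_of_ne (Finset.ne_of_mem_erase hj)]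
          rw [h3] at h2
          have h4 : c * ∏ j, Φ.y j ^ (β j : ℕ) = (c - d * Φ.y i ^ n) * ∏ j, Φ.y j ^ (β j : ℕ) +
              d * (Φ.y i ^ n * ∏ j, Φ.y j ^ (β j : ℕ)) := by ring
          rw [h4, Car1_tay_add, h1, h2]
        · have hji : j ≠ i := fun h => hj (h ▸ Finset.mem_insert_self _ _)
          have hjS : j ∉ S := fun h => hj (Finset.mem_insert_of_mem h)
          simp [hc j hj, hd2 j hjS, Φ.dual, hji]
        · rw [← Car1_pow_apply, map_sub, Car1_pow_apply, Car1_pow_apply, Car1_iter_const hdi, hyn,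
            Car1_iter_mon]
          have h5 : ∀ j, Function.update (Pi.single i n : Fin r → ℕ) i 0 j = 0 := fun j => by
            by_cases hj : j = i <;> simp [hj]
          simp [hd, Nat.descFactorial_self, hf, h5]
    exact key p le_rfl c hc (h.iterate hE i c)

theorem taylor (h : Φ.Spans E) (hE : IsFol p E) (a : F) :
    a = ∑ α : Fin r → Fin p, (-1) ^ r * theta p Φ.D (a * ∏ i, Φ.y i ^ (p - 1 - α i)) *
      ∏ i, Φ.y i ^ (α i : ℕ) := by
  have := Car1_tay_ind h hE Finset.univ a (by simp) (fun _ => ⟨0, (Fact.out : p.Prime).pos⟩)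
    fun _ _ => rfl
  simp only [pow_zero, Finset.prod_const_one, mul_one] at this
  exact this.symm
theorem Car1_prod_mem {V : ValuationSubring F} (hV : Φ.Int V) (m : Fin r → ℕ) :
    ∏ i, Φ.y i ^ m i ∈ V :=
  prod_mem fun i _ => pow_mem (hV.1 i) _
theorem mem_of_theta (h : Φ.Spans E) (hE : IsFol p E) {V : ValuationSubring F} (hV : Φ.Int V)
    {a : F} (ha : ∀ b ∈ V, theta p Φ.D (a * b) ∈ V) : a ∈ V := by
  rw [taylor h hE a]
  exact sum_mem fun α _ => mul_mem (mul_mem (pow_mem (neg_mem (one_mem V)) _)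
    (ha _ (Car1_prod_mem hV _))) (Car1_prod_mem hV _)
theorem expand_pow (h : Φ.Spans ⊤) {V : ValuationSubring F} (hV : Φ.Int V)
    (hc : ∀ a : F, (∀ D : Derivation k F F, D a = 0) → ∃ b, a = b ^ p) {a : F} (ha : a ∈ V) :
    ∃ c : (Fin r → Fin p) → F, (∀ α, c α ∈ V) ∧ a = ∑ α, c α ^ p * ∏ i, Φ.y i ^ (α i : ℕ) := by
  have key : ∀ α : Fin r → Fin p, ∃ b, b ∈ V ∧
      (-1) ^ r * theta p Φ.D (a * ∏ i, Φ.y i ^ (p - 1 - α i)) = b ^ p := by
    intro α
    obtain ⟨b, hb⟩ := hc ((-1) ^ r * theta p Φ.D (a * ∏ i, Φ.y i ^ (p - 1 - α i))) fun D => by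
      rw [Derivation.leibniz, theta_const h isFol_top _ D Submodule.mem_top]
      simp
    refine ⟨b, ?_, hb⟩
    have hb' : b ^ p ∈ V := hb ▸ mul_mem (pow_mem (neg_mem (one_mem V)) _)
      (theta_mem hV (mul_mem ha (Car1_prod_mem hV _)))
    rw [← V.valuation_le_one_iff] at hb' ⊢
    rwa [map_pow, pow_le_one_iff (Fact.out : p.Prime).ne_zero] at hb'
  choose c hcV hcp using key
  refine ⟨c, hcV, ?_⟩
  conv_lhs => rw [taylor h (isFol_top (p := p)) a]
  simp only [hcp]
theorem exists_subframe (h : Φ.Spans ⊤) {V : ValuationSubring F} (hV : Φ.Int V)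
    (E : Submodule F (Derivation k F F)) :
    ∃ Ψ : Frame k F (finrank F E), Ψ.Spans E ∧ Ψ.Int V := by
  have hinj : Function.Injective (comb Φ.D) := fun c c' hc => funext fun j => by
    rw [← Car1_comb_y Φ c, hc, Car1_comb_y]
  have hsurj : Function.Surjective (comb Φ.D) := fun D =>
    (Car1_mem_iff h).1 Submodule.mem_top
  have hmap : (E.comap (comb Φ.D)).map (comb Φ.D) = E := Submodule.map_comap_eq_of_surjective hsurj E
  have hrk : finrank F (E.comap (comb Φ.D)) = finrank F E := by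
    rw [(Submodule.equivMapOfInjective _ hinj (E.comap (comb Φ.D))).finrank_eq, hmap]
  obtain ⟨e, f, he, hef, heV⟩ := echelon V (E.comap (comb Φ.D))
  rw [← hrk]
  refine ⟨⟨fun j => Φ.y (f j), fun i => comb Φ.D (e i), fun i j => ?_⟩, ?_, fun j => hV.1 _,
    fun j a ha => ?_⟩
  · rw [Car1_comb_y, hef]
  · change Submodule.span F (Set.range (comb Φ.D ∘ e)) = E
    rw [Set.range_comp, ← Submodule.map_span, he, hmap]
  · change comb Φ.D (e j) a ∈ V
    rw [comb_apply]
    exact sum_mem fun i _ => mul_mem (heV j i) (hV.2 i a ha)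
theorem jac_eq_mul {D : Fin r → Derivation k F F} (h : Φ.Spans E) (hD : ∀ i, D i ∈ E)
    (a : Fin r → F) : jac D a = jac D Φ.y * jac Φ.D a := by
  rw [jac, jac, jac, ← Matrix.det_mul]
  congr 1
  ext i j
  rw [Matrix.mul_apply, Matrix.of_apply]
  conv_lhs => rw [h.eq_comb (hD i), comb_apply]
  rfl
theorem isJac_frame (h : Φ.Spans E) {V : ValuationSubring F} (hV : Φ.Int V)
    {D : Fin r → Derivation k F F} (hD : LinearIndependent F D) (hE : ∀ i, D i ∈ E) :
    IsJac V D (jac D Φ.y) := by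
  have h0 : jac D Φ.y ≠ 0 := by
    intro h0
    obtain ⟨v, hv, hv0⟩ := Matrix.exists_vecMul_eq_zero_iff.2 h0
    refine hv (funext (Fintype.linearIndependent_iff.1 hD v ?_))
    have hm : comb D v ∈ E := by
      rw [comb, Fintype.linearCombination_apply]
      exact sum_mem fun i _ => E.smul_mem _ (hE i)
    rw [← Fintype.linearCombination_apply]
    ext a
    refine Car1_eq_zero h hm (fun j => ?_) a
    rw [comb_apply]
    exact congrFun hv0 j
  refine ⟨h0, ⟨Φ.y, hV.1, rfl⟩, fun a ha => ?_⟩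
  rw [jac_eq_mul h hE a, mul_div_cancel_left₀ _ h0, jac, Matrix.det_apply']
  exact sum_mem fun σ _ => mul_mem (intCast_mem V _) (prod_mem fun i _ => hV.2 _ _ (ha _))
theorem IsJac.unique {V : ValuationSubring F} {D : Fin r → Derivation k F F} {J J' : F}
    (h : IsJac V D J) (h' : IsJac V D J') : V.valuation (J / J') = 1 := by
  obtain ⟨h0, ⟨a, ha, rfl⟩, h1⟩ := h
  obtain ⟨h0', ⟨a', ha', rfl⟩, h1'⟩ := h'
  have e1 := (V.valuation_le_one_iff _).2 (h1' a ha)
  have e2 := (V.valuation_le_one_iff _).2 (h1 a' ha')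
  refine le_antisymm e1 ?_
  rw [← inv_div, map_inv₀] at e2
  have e3 : V.valuation (jac D a / jac D a') ≠ 0 := by
    rw [Ne, map_eq_zero]
    exact div_ne_zero h0 h0'
  exact (inv_le_one₀ (zero_lt_iff.2 e3)).1 e2
theorem Car1_plin_one (h : Φ.Spans E) (hE : IsInv E) {P : Fin r → Derivation k F F}
    (hP : ∀ l, IsPow p (Φ.D l) (P l)) {T T' : Derivation k F F} (hT : T ∈ E) (hT' : IsPow p T T') :
    T' - comb P (fun l => T (Φ.y l) ^ p) ∈ E := by
  refine (Car1_mem_iff h).2 ⟨fun l => (T' - comb P (fun l => T (Φ.y l) ^ p)) (Φ.y l), ?_⟩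
  refine (Car1_core p Φ (Car1_commute h hE) (fun l => T (Φ.y l)) (T := T) (fun a => ?_)
    (fun a => ?_) (fun a => comb_apply _ _ a)).symm
  · conv_lhs => rw [h.eq_comb hT, comb_apply]
  · rw [Derivation.sub_apply, hT', comb_apply]
    simp only [hP _ a]
/-- `p`-linearity of the `p`-curvature of an involutive distribution -/
theorem plin (h : Φ.Spans E) (hE : IsInv E) {s : ℕ} {D D' : Fin s → Derivation k F F}
    (hD : ∀ i, D i ∈ E) (hD' : ∀ i, IsPow p (D i) (D' i)) (c : Fin s → F) {D₁ : Derivation k F F}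
    (h₁ : IsPow p (comb D c) D₁) : D₁ - comb D' (fun i => c i ^ p) ∈ E := by
  choose P hP using fun l => exists_isPow p (Φ.D l)
  have hm : comb D c ∈ E := by
    rw [comb, Fintype.linearCombination_apply]
    exact sum_mem fun i _ => E.smul_mem _ (hD i)
  have e1 := Car1_plin_one h hE hP hm h₁
  have e2 : ∑ i, c i ^ p • (D' i - comb P (fun l => D i (Φ.y l) ^ p)) ∈ E :=
    sum_mem fun i _ => E.smul_mem _ (Car1_plin_one h hE hP (hD i) (hD' i))
  have e3 : (fun l => comb D c (Φ.y l) ^ p) = ∑ i, c i ^ p • fun l => D i (Φ.y l) ^ p := by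
    funext l
    rw [comb_apply, sum_pow_char]
    simp [mul_pow]
  convert sub_mem e1 e2 using 1
  rw [e3, map_sum]
  simp only [map_smul, smul_sub, Finset.sum_sub_distrib]
  rw [comb, Fintype.linearCombination_apply]
  abel

end Pool.Agent.Lib.MP_7fcda1_ag
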