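import Pool.Agent.Lib.MP_7fcda1_ag.Iface

open scoped IntermediateField Polynomial WithZero
open Module

noncomputable section

namespace Pool.Agent.Lib.MP_7fcda1_ag

variable {k F : Type*} [Field k] [Field F] [Algebra k F] {r : ℕ}

theorem Car1_leibniz_iter (D : Derivation k F F) (n : ℕ) (a b : F) :
    D^[n] (a * b) = ∑ ij ∈ Finset.HasAntidiagonal.antidiagonal n, n.choose ij.1 • (D^[ij.1] a * D^[ij.2] b) := by
  induction n with
  | zero => simp
  | succ n ih =>
    rw [Finset.sum_antidiagonal_choose_succ_nsmul (M := F) (fun i j => D^[i] a * D^[j] b) n]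
    simp only [Function.iterate_succ_apply', ih, map_sum, map_nsmul, Derivation.leibniz,
      smul_eq_mul, smul_add, Finset.sum_add_distrib, add_right_inj]
    refine Finset.sum_congr rfl fun ⟨i, j⟩ hij => ?_
    rw [n.choose_symm_of_eq_add (Finset.HasAntidiagonal.mem_antidiagonal.1 hij).symm, mul_comm]

theorem Car1_pow_apply (D : Derivation k F F) (n : ℕ) (a : F) :
    ((D : F →ₗ[k] F) ^ n) a = D^[n] a := by
  rw [Module.End.pow_apply]; rfl

theorem Car1_leibniz_char (p : ℕ) [hp : Fact p.Prime] [CharP F p] (D : Derivation k F F)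
    (a b : F) : D^[p] (a * b) = a * D^[p] b + b * D^[p] a := by
  rw [Car1_leibniz_iter]
  have h0 : p ≠ 0 := hp.out.ne_zero
  rw [Finset.sum_eq_add_of_mem (0, p) (p, 0) (by simp) (by simp) (by simp [h0.symm])]
  · simp [mul_comm]
  · rintro ⟨i, j⟩ hij ⟨h1, h2⟩
    have hij' : i + j = p := Finset.HasAntidiagonal.mem_antidiagonal.1 hij
    have hi0 : i ≠ 0 := by
      rintro rfl
      exact h1 (by simp [← hij'])
    have hip : i < p := by
      rcases Nat.eq_zero_or_pos j with rfl | hj
      · exact absurd (by simp [← hij']) h2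
      · omega
    rw [nsmul_eq_mul, (CharP.cast_eq_zero_iff F p _).2 (hp.out.dvd_choose_self hi0 hip), zero_mul]

/-- the operator `∏ D i ^ α i` along a list of indices -/
def Car1_mono (D : Fin r → Derivation k F F) (α : Fin r → ℕ) (l : List (Fin r)) :
    Module.End k F :=
  (l.map fun i => (D i : F →ₗ[k] F) ^ α i).prod

theorem Car1_theta_eq (p : ℕ) (D : Fin r → Derivation k F F) :
    theta p D = Car1_mono D (fun _ => p - 1) (List.finRange r) := by
  rw [theta, Car1_mono, List.ofFn_eq_map]

theorem Car1_mono_nil (D : Fin r → Derivation k F F) (α : Fin r → ℕ) : Car1_mono D α [] = 1 := rfl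

theorem Car1_mono_cons (D : Fin r → Derivation k F F) (α : Fin r → ℕ) (i : Fin r)
    (l : List (Fin r)) : Car1_mono D α (i :: l) = (D i : F →ₗ[k] F) ^ α i * Car1_mono D α l := by
  simp [Car1_mono]

theorem Car1_iter_const {D : Derivation k F F} {c : F} (hc : D c = 0) (n : ℕ) (a : F) :
    D^[n] (c * a) = c * D^[n] a := by
  induction n with
  | zero => rfl
  | succ n ih => simp [Function.iterate_succ_apply', ih, hc]

theorem Car1_mono_mul {D : Fin r → Derivation k F F} {c : F} (hc : ∀ i, D i c = 0)
    (α : Fin r → ℕ) (l : List (Fin r)) (a : F) :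
    Car1_mono D α l (c * a) = c * Car1_mono D α l a := by
  induction l with
  | nil => rfl
  | cons i l ih =>
    rw [Car1_mono_cons, Module.End.mul_apply, Module.End.mul_apply, ih, Car1_pow_apply,
      Car1_pow_apply, Car1_iter_const (hc i)]

theorem Car1_mono_mem {D : Fin r → Derivation k F F} {V : ValuationSubring F}
    (h : ∀ j, ∀ a ∈ V, D j a ∈ V) (α : Fin r → ℕ) (l : List (Fin r)) {a : F} (ha : a ∈ V) :
    Car1_mono D α l a ∈ V := by
  induction l with
  | nil => exact ha
  | cons i l ih =>
    rw [Car1_mono_cons, Module.End.mul_apply, Car1_pow_apply]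
    induction α i with
    | zero => exact ih
    | succ n ihn => rw [Function.iterate_succ_apply']; exact h _ _ ihn

theorem Car1_D_mon (Φ : Frame k F r) (i : Fin r) (m : Fin r → ℕ) :
    Φ.D i (∏ j, Φ.y j ^ m j) = (m i : F) * ∏ j, Φ.y j ^ Function.update m i (m i - 1) j := by
  have h1 : Φ.D i (∏ j ∈ Finset.univ.erase i, Φ.y j ^ m j) = 0 := by
    refine Finset.prod_induction _ (fun x => Φ.D i x = 0) ?_ (by simp) ?_
    · intro a b ha hb
      simp [ha, hb]
    · intro j hj
      simp [Φ.dual, (Finset.ne_of_mem_erase hj).symm]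
  have h2 : ∏ j ∈ Finset.univ.erase i, Φ.y j ^ Function.update m i (m i - 1) j =
      ∏ j ∈ Finset.univ.erase i, Φ.y j ^ m j :=
    Finset.prod_congr rfl fun j hj => by rw [Function.update_of_ne (Finset.ne_of_mem_erase hj)]
  rw [← Finset.mul_prod_erase _ _ (Finset.mem_univ i),
    ← Finset.mul_prod_erase _ _ (Finset.mem_univ i), h2, Derivation.leibniz, h1]
  simp [Φ.dual]
  ring

theorem Car1_iter_mon (Φ : Frame k F r) (i : Fin r) (n : ℕ) (m : Fin r → ℕ) :
    (Φ.D i)^[n] (∏ j, Φ.y j ^ m j) =
      ((m i).descFactorial n : F) * ∏ j, Φ.y j ^ Function.update m i (m i - n) j := by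
  induction n with
  | zero => simp
  | succ n ih =>
    rw [Function.iterate_succ_apply', ih, Derivation.leibniz, Derivation.map_natCast, Car1_D_mon]
    simp only [Function.update_self, Function.update_idem, smul_eq_mul, mul_zero, add_zero,
      Nat.descFactorial_succ, Nat.cast_mul, Nat.sub_sub]
    ring

theorem Car1_mono_mon (Φ : Frame k F r) (α m : Fin r → ℕ) {l : List (Fin r)} (hl : l.Nodup) :
    Car1_mono Φ.D α l (∏ j, Φ.y j ^ m j) =
      ((∏ j, if j ∈ l then (m j).descFactorial (α j) else 1 : ℕ) : F) *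
        ∏ j, Φ.y j ^ (if j ∈ l then m j - α j else m j) := by
  induction l with
  | nil => simp [Car1_mono_nil]
  | cons i l ih =>
    obtain ⟨hi, hl'⟩ := List.nodup_cons.1 hl
    rw [Car1_mono_cons, Module.End.mul_apply, ih hl', Car1_pow_apply,
      Car1_iter_const (Derivation.map_natCast _ _), Car1_iter_mon, ← mul_assoc, ← Nat.cast_mul]
    congr 2
    · rw [← Finset.mul_prod_erase _ _ (Finset.mem_univ i),
        ← Finset.mul_prod_erase _ _ (Finset.mem_univ i)]
      simp only [hi, if_false, List.mem_cons, true_or, if_true, one_mul]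
      rw [mul_comm]
      congr 1
      refine Finset.prod_congr rfl fun j hj => ?_
      simp [Finset.ne_of_mem_erase hj]
    · funext j
      by_cases hj : j = i
      · subst hj
        simp [hi]
      · simp [hj]

theorem Car1_mono_mon' (Φ : Frame k F r) (α m : Fin r → ℕ) :
    Car1_mono Φ.D α (List.finRange r) (∏ j, Φ.y j ^ m j) =
      ((∏ j, (m j).descFactorial (α j) : ℕ) : F) * ∏ j, Φ.y j ^ (m j - α j) := by
  rw [Car1_mono_mon Φ α m (List.nodup_finRange r)]
  simp

theorem Car1_commute_mono {D : Fin r → Derivation k F F} {T : Module.End k F}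
    (h : ∀ i, Commute T (D i : F →ₗ[k] F)) (α : Fin r → ℕ) (l : List (Fin r)) :
    Commute T (Car1_mono D α l) := by
  induction l with
  | nil => exact Commute.one_right _
  | cons i l ih => rw [Car1_mono_cons]; exact ((h i).pow_right _).mul_right ih

theorem Car1_mono_add {D : Fin r → Derivation k F F}
    (h : ∀ i j, Commute (D i : Module.End k F) (D j : F →ₗ[k] F)) (α γ : Fin r → ℕ)
    (l : List (Fin r)) :
    Car1_mono D (α + γ) l = Car1_mono D α l * Car1_mono D γ l := by
  induction l with
  | nil => simp [Car1_mono_nil]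
  | cons i l ih =>
    rw [Car1_mono_cons, Car1_mono_cons, Car1_mono_cons, ih, Pi.add_apply, pow_add]
    have := (Car1_commute_mono (T := (D i : F →ₗ[k] F) ^ γ i) (fun j => (h i j).pow_left _) α l).eq
    simp only [mul_assoc]
    rw [← mul_assoc ((D i : F →ₗ[k] F) ^ γ i), this, mul_assoc]

theorem Car1_mono_single (D : Fin r → Derivation k F F) (i : Fin r) (n : ℕ) :
    Car1_mono D (Pi.single i n) (List.finRange r) = (D i : F →ₗ[k] F) ^ n := by
  rw [Car1_mono, List.prod_map_eq_pow_single i]
  · simp
  · intro j hj _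
    simp [hj]

theorem Car1_mul_mono_zero {D : Fin r → Derivation k F F}
    (h : ∀ i j, Commute (D i : Module.End k F) (D j : F →ₗ[k] F)) {n : ℕ} {i : Fin r}
    (h0 : (D i : Module.End k F) ^ (n + 1) = 0) {l : List (Fin r)} (hi : i ∈ l) :
    (D i : Module.End k F) * Car1_mono D (fun _ => n) l = 0 := by
  induction l with
  | nil => simp at hi
  | cons j l ih =>
    rw [Car1_mono_cons]
    rcases List.mem_cons.1 hi with rfl | hi
    · rw [← mul_assoc, ← pow_succ', h0, zero_mul]
    · rw [← mul_assoc, ((h i j).pow_right n).eq, mul_assoc, ih hi, mul_zero]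

theorem Car1_desc (p : ℕ) [hp : Fact p.Prime] [CharP F p] {a b : ℕ} (ha : a < p) (hb : b < p) :
    (((a + (p - 1 - b)).descFactorial (p - 1) : ℕ) : F) = if a = b then -1 else 0 := by
  have h2 := hp.out.two_le
  split_ifs with hab
  · subst hab
    rw [show a + (p - 1 - a) = p - 1 by omega, Nat.descFactorial_self]
    have := congrArg (ZMod.castHom (dvd_refl p) F) (ZMod.wilsons_lemma p)
    rwa [map_natCast, map_neg, map_one] at this
  · rcases lt_or_gt_of_ne hab with h | h
    · rw [Nat.descFactorial_of_lt (by omega), Nat.cast_zero]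
    · rw [CharP.cast_eq_zero_iff F p, Nat.descFactorial_eq_prod_range]
      have := Finset.dvd_prod_of_mem (fun i => a + (p - 1 - b) - i)
        (s := Finset.range (p - 1)) (a := a - b - 1) (Finset.mem_range.2 (by omega))
      rwa [show a + (p - 1 - b) - (a - b - 1) = p by omega] at this

end Pool.Agent.Lib.MP_7fcda1_ag
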