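import Pool.Agent.Lib.MP_7fcda1_ag.Car1

open scoped IntermediateField Polynomial WithZero
open Module

noncomputable section

universe u

namespace Pool.Agent.Lib.MP_7fcda1_ag


variable {k F : Type*} [Field k] [Field F] [Algebra k F] {p : ℕ} [Fact p.Prime] [CharP F p]
  {r : ℕ} {E : Submodule F (Derivation k F F)}

theorem car2_iter (D : Derivation k F F) (n : ℕ) (a : F) :
    D^[n] a = ((D : F →ₗ[k] F) ^ n) a := by
  rw [Module.End.pow_apply]; rfl

theorem car2_add (D : Derivation k F F) (n : ℕ) (a b : F) :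
    D^[n] (a + b) = D^[n] a + D^[n] b := by
  simp only [car2_iter, map_add]

theorem car2_sub (D : Derivation k F F) (n : ℕ) (a b : F) :
    D^[n] (a - b) = D^[n] a - D^[n] b := by
  simp only [car2_iter, map_sub]

theorem car2_mul {D : Derivation k F F} {c : F} (hc : D c = 0) (n : ℕ) (a : F) :
    D^[n] (c * a) = c * D^[n] a := by
  induction n generalizing a with
  | zero => rfl
  | succ n ih =>
    rw [Function.iterate_succ_apply, Function.iterate_succ_apply, ← ih, D.leibniz, hc]
    simp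

theorem car2_cast {j : ℕ} (h0 : 0 < j) (hj : j < p) : (j : F) ≠ 0 := by
  rw [Ne, CharP.cast_eq_zero_iff F p]
  exact fun h => absurd (Nat.le_of_dvd h0 h) (by omega)

theorem car2_exact {D : Derivation k F F} (hD : ∀ a, D^[p] a = 0) {j : ℕ} (hj : j + 1 < p)
    (w : F) : D^[p - 1] (w ^ j * D w) = 0 := by
  have h1 := hD (w ^ (j + 1))
  have hp : p = (p - 1) + 1 := by omega
  rw [hp, Function.iterate_succ_apply, D.leibniz_pow] at h1
  simp only [Nat.add_sub_cancel, smul_eq_mul, nsmul_eq_mul] at h1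
  rw [car2_mul (D.map_natCast _)] at h1
  exact (mul_eq_zero.1 h1).resolve_left (car2_cast (by omega) hj)

theorem car2_fact {D : Derivation k F F} {y : F} (hy : D y = 1) (m : ℕ) :
    D^[m] (y ^ m) = (m.factorial : F) := by
  induction m with
  | zero => simp
  | succ m ih =>
    rw [Function.iterate_succ_apply, D.leibniz_pow, hy]
    simp only [Nat.add_sub_cancel, smul_eq_mul, nsmul_eq_mul, mul_one]
    rw [car2_mul (D.map_natCast _), ih, Nat.factorial_succ, Nat.cast_mul]

theorem car2_wilson : (((p - 1).factorial : ℕ) : F) = -1 := by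
  have h := congrArg (ZMod.castHom (dvd_refl p) F) (ZMod.wilsons_lemma p)
  rwa [map_natCast, map_neg, map_one] at h

variable (p) in
/-- The defect in the one variable formula. -/
def car2M (D : Derivation k F F) (w : F) : F := D^[p - 1] (w ^ (p - 1) * D w) + D w ^ p

theorem car2_pow (a : F) : a ^ p = a * a ^ (p - 1) := by
  have := (Fact.out : p.Prime).pos
  rw [← pow_succ']; congr 1; omega

theorem car2M_mul (D : Derivation k F F) (a b : F) :
    car2M p D (a * b) = b ^ p * car2M p D a + a ^ p * car2M p D b := by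
  have e : (a * b) ^ (p - 1) * D (a * b) =
      b ^ p * (a ^ (p - 1) * D a) + a ^ p * (b ^ (p - 1) * D b) := by
    rw [D.leibniz, car2_pow a, car2_pow b, mul_pow, smul_eq_mul, smul_eq_mul]; ring
  unfold car2M
  rw [e, car2_add, car2_mul (der_pow D b), car2_mul (der_pow D a), D.leibniz, add_pow_char,
    smul_eq_mul, smul_eq_mul, mul_pow, mul_pow]
  ring

theorem car2M_const {D : Derivation k F F} {c : F} (hc : D c = 0) : car2M p D c = 0 := by
  unfold car2M
  rw [hc, mul_zero, car2_iter, map_zero, zero_pow (Fact.out : p.Prime).ne_zero, add_zero]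

theorem car2M_one_add {D : Derivation k F F} (hD : ∀ a, D^[p] a = 0) (t : F) :
    car2M p D (t + 1) = car2M p D t := by
  unfold car2M
  have e : D (t + 1) = D t := by simp
  rw [e, add_pow, Finset.sum_range_succ, add_mul, car2_add, Finset.sum_mul, car2_iter, map_sum,
    Finset.sum_eq_zero]
  · simp
  · intro j hj
    rw [Finset.mem_range] at hj
    rw [← car2_iter, one_pow, mul_one, mul_right_comm, mul_comm, car2_mul (D.map_natCast _),
      car2_exact hD (by omega), mul_zero]

theorem car2M_add {D : Derivation k F F} (hD : ∀ a, D^[p] a = 0) (a b : F) :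
    car2M p D (a + b) = car2M p D a + car2M p D b := by
  rcases eq_or_ne a 0 with rfl | ha
  · rw [zero_add, car2M_const (map_zero D), zero_add]
  obtain ⟨t, rfl⟩ : ∃ t, b = a * t := ⟨b / a, by field_simp⟩
  have e : a + a * t = a * (t + 1) := by ring
  rw [e, car2M_mul, car2M_mul, car2M_one_add hD, add_pow_char, one_pow]
  ring

theorem cartier_one {D : Derivation k F F} (hD : ∀ a, D^[p] a = 0) {y : F} (hy : D y = 1) (w : F) :
    D^[p - 1] (w ^ (p - 1) * D w) = -D w ^ p := by
  have h1 : car2M p D y = 0 := by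
    unfold car2M
    rw [hy, mul_one, car2_fact hy, car2_wilson, one_pow, neg_add_cancel]
  have h2 : ∀ m : ℕ, car2M p D (y ^ m) = 0 := by
    intro m
    induction m with
    | zero => rw [pow_zero]; exact car2M_const D.map_one_eq_zero
    | succ m ih => rw [pow_succ, car2M_mul, ih, h1]; ring
  have h3 : ∀ m ≤ p, ∀ a, D^[m] a = 0 → car2M p D a = 0 := by
    intro m
    induction m with
    | zero =>
      intro _ a ha
      rw [Function.iterate_zero_apply] at ha
      rw [ha]; exact car2M_const (map_zero D)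
    | succ m ih =>
      intro hm a ha
      have hf : (m.factorial : F) ≠ 0 := by
        rw [Ne, CharP.cast_eq_zero_iff F p, (Fact.out : p.Prime).dvd_factorial]
        omega
      have hc : D (D^[m] a / m.factorial) = 0 := by
        rw [Function.iterate_succ_apply'] at ha
        rw [D.leibniz_div, ha, D.map_natCast]; simp
      have h4 := ih (by omega) (a - D^[m] a / m.factorial * y ^ m) (by
        rw [car2_sub, car2_mul hc, car2_fact hy, div_mul_cancel₀ _ hf, sub_self])
      have e : a = (a - D^[m] a / m.factorial * y ^ m) + D^[m] a / m.factorial * y ^ m := by ring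
      rw [e, car2M_add hD, h4, car2M_mul, car2M_const hc, h2]; ring
  exact eq_neg_of_add_eq_zero_left (h3 p le_rfl w (hD w))

theorem car2_one {D : Derivation k F F} (hD : ∀ a, D^[p] a = 0) {y : F} (hy : D y = 1) (w : F)
    {j : ℕ} (hj : j < p) : D^[p - 1] (w ^ j * D w) = D w ^ p * D^[p - 1] (y ^ j) := by
  have e : y ^ j = y ^ j * D y := by rw [hy, mul_one]
  rw [e]
  rcases (show j + 1 < p ∨ j = p - 1 by omega) with h | rfl
  · rw [car2_exact hD h, car2_exact hD h, mul_zero]
  · rw [cartier_one hD hy, cartier_one hD hy, hy]; ring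

theorem car2_list {M : Type*} [Monoid M] {x : M} {l : List M} (hx : x ∈ l)
    (h : ∀ z ∈ l, Commute x z) : ∃ T, l.prod = T * x := by
  induction l with
  | nil => simp at hx
  | cons z l ih =>
    rcases List.mem_cons.1 hx with rfl | hx
    · exact ⟨l.prod, by
        rw [List.prod_cons]
        exact Commute.list_prod_right _ _ fun z hz => h z (List.mem_cons_of_mem _ hz)⟩
    · obtain ⟨T, hT⟩ := ih hx fun z hz => h z (List.mem_cons_of_mem _ hz)
      exact ⟨z * T, by rw [List.prod_cons, hT, mul_assoc]⟩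

theorem car2_theta_congr {Φ : Frame k F r} (h : Φ.Spans E) (hE : IsInv E) (i : Fin r) {a b : F}
    (hab : (Φ.D i)^[p - 1] a = (Φ.D i)^[p - 1] b) : theta p Φ.D a = theta p Φ.D b := by
  obtain ⟨T, hT⟩ := car2_list (x := (Φ.D i : F →ₗ[k] F) ^ (p - 1))
    (l := List.ofFn fun i => (Φ.D i : F →ₗ[k] F) ^ (p - 1)) (List.mem_ofFn.2 ⟨i, rfl⟩) (by
      intro z hz
      obtain ⟨j, rfl⟩ := List.mem_ofFn.1 hz
      exact Commute.pow_pow (LinearMap.ext fun a => h.comm hE i j a) _ _)
  rw [car2_iter, car2_iter] at hab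
  unfold theta
  rw [hT, Module.End.mul_apply, Module.End.mul_apply, hab]

theorem car2_mem {Φ : Frame k F r} (h : Φ.Spans E) (i : Fin r) : Φ.D i ∈ E :=
  h ▸ Submodule.subset_span ⟨i, rfl⟩

theorem car2_mono (Φ Φ' : Frame k F r) (α : Fin r → Fin p) :
    theta p Φ.D (∏ i, Φ.y i ^ (α i : ℕ)) = theta p Φ'.D (∏ i, Φ'.y i ^ (α i : ℕ)) := by
  have hp := (Fact.out : p.Prime).pos
  have h1 := theta_monomial Φ α fun _ => ⟨p - 1, by omega⟩
  have h2 := theta_monomial Φ' α fun _ => ⟨p - 1, by omega⟩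
  simp only [Nat.sub_self, pow_zero, Finset.prod_const_one, mul_one] at h1 h2
  rw [h1, h2]

theorem car2_jac (Φ : Frame k F r) {y : Fin r → F} (i₀ : Fin r)
    (hy : ∀ i, i ≠ i₀ → y i = Φ.y i) : jac Φ.D y = Φ.D i₀ (y i₀) := by
  have e : (Matrix.of fun i j => Φ.D i (y j)) =
      (1 : Matrix (Fin r) (Fin r) F).updateCol i₀ fun i => Φ.D i (y i₀) := by
    ext i j
    rw [Matrix.updateCol_apply, Matrix.of_apply]
    split_ifs with hj
    · rw [hj]
    · rw [hy j hj, Φ.dual, Matrix.one_apply]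
  unfold jac
  rw [e, ← Matrix.cramer_apply, Matrix.cramer_one]
  rfl

/-- exchange of one coordinate -/
theorem car2_exchange {Φ Φ' : Frame k F r} (h : Φ.Spans E) (h' : Φ'.Spans E) (hE : IsFol p E)
    (i₀ : Fin r) (hy : ∀ i, i ≠ i₀ → Φ'.y i = Φ.y i) (hu : Φ.D i₀ (Φ'.y i₀) ≠ 0) (a : F) :
    theta p Φ.D a = theta p Φ'.D (jac Φ.D Φ'.y ^ (p - 1) * a) := by
  rw [car2_jac Φ i₀ hy]
  set u := Φ.D i₀ (Φ'.y i₀) with hud
  have key : ∀ α : Fin r → Fin p, theta p Φ.D (u * ∏ i, Φ'.y i ^ (α i : ℕ)) =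
      theta p Φ'.D (u ^ (p - 1) * (u * ∏ i, Φ'.y i ^ (α i : ℕ))) := by
    intro α
    rw [← mul_assoc, mul_comm _ u, ← car2_pow, theta_mul fun i => der_pow _ u, ← car2_mono Φ Φ',
      ← theta_mul fun i => der_pow _ u]
    refine car2_theta_congr h hE.1 i₀ ?_
    have hm : Φ.D i₀ (∏ i ∈ Finset.univ.erase i₀, Φ.y i ^ (α i : ℕ)) = 0 := by
      refine Finset.prod_induction _ (fun c => Φ.D i₀ c = 0) (fun a b ha hb => ?_)
        (Φ.D i₀).map_one_eq_zero fun i hi => ?_
      · rw [(Φ.D i₀).leibniz, ha, hb]; simp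
      · rw [(Φ.D i₀).leibniz_pow, Φ.dual, if_neg (Finset.ne_of_mem_erase hi).symm]; simp
    have e : ∏ i ∈ Finset.univ.erase i₀, Φ'.y i ^ (α i : ℕ) =
        ∏ i ∈ Finset.univ.erase i₀, Φ.y i ^ (α i : ℕ) :=
      Finset.prod_congr rfl fun i hi => by rw [hy i (Finset.ne_of_mem_erase hi)]
    rw [← Finset.prod_erase_mul _ _ (Finset.mem_univ i₀), ← Finset.prod_erase_mul _ _
      (Finset.mem_univ i₀), e, mul_left_comm, car2_mul hm, mul_left_comm, car2_mul hm,
      car2_mul (der_pow _ u), mul_comm u, hud,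
      car2_one (h.iterate hE i₀) (by rw [Φ.dual, if_pos rfl]) _ (α i₀).2]
  obtain ⟨b, rfl⟩ : ∃ b, a = u * b := ⟨a / u, by field_simp⟩
  rw [taylor h' hE b]
  simp only [Finset.mul_sum, map_sum]
  refine Finset.sum_congr rfl fun α _ => ?_
  have hc : ∀ D ∈ E, D ((-1) ^ r * theta p Φ'.D (b * ∏ i, Φ'.y i ^ (p - 1 - α i))) = 0 := by
    intro D hD
    rw [D.leibniz, theta_const h' hE _ D hD, D.leibniz_pow, map_neg, D.map_one_eq_zero]; simp
  rw [mul_left_comm, theta_mul fun i => hc _ (car2_mem h i), key,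
    mul_left_comm (u ^ (p - 1)) ((-1) ^ r * _), theta_mul fun i => hc _ (car2_mem h' i)]

/-- The frame obtained by replacing one coordinate. -/
def car2Frame (Φ : Frame k F r) (i₀ : Fin r) (w : F) (hw : Φ.D i₀ w ≠ 0) : Frame k F r where
  y := Function.update Φ.y i₀ w
  D i := if i = i₀ then (Φ.D i₀ w)⁻¹ • Φ.D i₀ else Φ.D i - (Φ.D i w / Φ.D i₀ w) • Φ.D i₀
  dual i j := by
    by_cases hi : i = i₀ <;> by_cases hj : j = i₀
    · subst hi hj; simp [hw]
    · subst hi; simp [hj, Φ.dual, Ne.symm hj]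
    · subst hj; simp [hi, hw]
    · simp [hi, hj, Φ.dual, Ne.symm hj]

theorem car2Frame_spans {Φ : Frame k F r} (h : Φ.Spans E) (i₀ : Fin r) {w : F}
    (hw : Φ.D i₀ w ≠ 0) : (car2Frame Φ i₀ w hw).Spans E := by
  refine le_antisymm (Submodule.span_le.2 ?_) (h.symm.le.trans (Submodule.span_le.2 ?_))
  · rintro _ ⟨i, rfl⟩
    simp only [car2Frame]
    split_ifs
    · exact E.smul_mem _ (car2_mem h _)
    · exact E.sub_mem (car2_mem h _) (E.smul_mem _ (car2_mem h _))
  · have h0 : Φ.D i₀ ∈ Submodule.span F (Set.range (car2Frame Φ i₀ w hw).D) := by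
      have := Submodule.smul_mem _ (Φ.D i₀ w)
        (Submodule.subset_span (R := F) (s := Set.range (car2Frame Φ i₀ w hw).D) ⟨i₀, rfl⟩)
      simpa [car2Frame, smul_smul, hw] using this
    rintro _ ⟨i, rfl⟩
    by_cases hi : i = i₀
    · rw [hi]; exact h0
    · have := Submodule.add_mem _
        (Submodule.subset_span (R := F) (s := Set.range (car2Frame Φ i₀ w hw).D) ⟨i, rfl⟩)
        (Submodule.smul_mem _ (Φ.D i w / Φ.D i₀ w) h0)
      simpa [car2Frame, hi] using this

theorem car2_step {Φ Φ' : Frame k F r} (h : Φ.Spans E) (hE : IsFol p E) (i₀ : Fin r) {w : F}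
    (hw : Φ.D i₀ w ≠ 0) (ih : ∀ a, theta p (car2Frame Φ i₀ w hw).D a =
      theta p Φ'.D (jac (car2Frame Φ i₀ w hw).D Φ'.y ^ (p - 1) * a)) (a : F) :
    theta p Φ.D a = theta p Φ'.D (jac Φ.D Φ'.y ^ (p - 1) * a) := by
  rw [car2_exchange h (car2Frame_spans h i₀ hw) hE i₀ (fun i hi => by simp [car2Frame, hi])
    (by simpa [car2Frame] using hw), ih, jac_eq_mul (car2Frame_spans h i₀ hw) (car2_mem h) Φ'.y,
    mul_pow, ← mul_assoc, mul_comm (_ ^ _)]

/-- transformation law of the relative Cartier operator -/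
theorem cartier {Φ Φ' : Frame k F r} (h : Φ.Spans E) (h' : Φ'.Spans E) (hE : IsFol p E) (a : F) :
    theta p Φ.D a = theta p Φ'.D (jac Φ.D Φ'.y ^ (p - 1) * a) := by
  suffices H : ∀ S : Finset (Fin r), ∀ Φ : Frame k F r, Φ.Spans E →
      (∀ i, i ∉ S → Φ'.y i = Φ.y i) → ∀ a,
        theta p Φ.D a = theta p Φ'.D (jac Φ.D Φ'.y ^ (p - 1) * a) from
    H Finset.univ Φ h (fun i hi => absurd (Finset.mem_univ i) hi) a
  intro S
  induction S using Finset.induction_on with
  | empty =>
    intro Φ h hy a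
    have e : Φ'.y = Φ.y := funext fun i => hy i (by simp)
    have e1 : jac Φ.D Φ'.y = 1 := by
      have : (Matrix.of fun i j => Φ.D i (Φ'.y j)) = 1 := by
        ext i j; rw [e, Matrix.of_apply, Φ.dual, Matrix.one_apply]
      unfold jac
      rw [this, Matrix.det_one]
    have e2 : Φ'.D = Φ.D := by
      funext i
      rw [h.eq_comb (car2_mem h' i), h.eq_comb (car2_mem h i)]
      simp only [Φ.dual]
      simp only [← e, Φ'.dual]
    rw [e1, e2, one_pow, one_mul]
  | insert j S hj ih =>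
    have H : ∀ Φ : Frame k F r, Φ.Spans E → (∀ i, i ∉ insert j S → Φ'.y i = Φ.y i) →
        Φ.D j (Φ'.y j) ≠ 0 → ∀ a,
          theta p Φ.D a = theta p Φ'.D (jac Φ.D Φ'.y ^ (p - 1) * a) := by
      intro Φ h hy hu
      refine car2_step h hE j hu (ih _ (car2Frame_spans h j hu) fun i hi => ?_)
      by_cases hij : i = j
      · simp [car2Frame, hij]
      · simp [car2Frame, hij, hy i (by simp [hi, hij])]
    intro Φ h hy
    by_cases hu : Φ.D j (Φ'.y j) = 0
    swap
    · exact H Φ h hy hu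
    have h1 : ∑ i, Φ'.D j (Φ.y i) * Φ.D i (Φ'.y j) = 1 := by
      rw [← comb_apply, ← h.eq_comb (car2_mem h' j), Φ'.dual, if_pos rfl]
    obtain ⟨i, -, hi⟩ := Finset.exists_ne_zero_of_sum_ne_zero (h1 ▸ one_ne_zero)
    have hij : i ≠ j := by rintro rfl; simp [hu] at hi
    have hiS : i ∈ insert j S := by
      by_contra hn
      rw [← hy i hn, Φ'.dual, if_neg hij.symm, zero_mul] at hi
      exact hi rfl
    have hw : Φ.D i (Φ.y i - Φ.y j) ≠ 0 := by simp [Φ.dual, hij]
    refine car2_step h hE i hw (H _ (car2Frame_spans h i hw) (fun l hl => ?_) ?_)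
    · have : l ≠ i := by rintro rfl; exact hl hiS
      simp [car2Frame, this, hy l hl]
    · simp [car2Frame, hij.symm, hij, Φ.dual, hu, right_ne_zero_of_mul hi]

end Pool.Agent.Lib.MP_7fcda1_ag
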