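import Pool.Agent.Lib.MP_7fcda1_ag.Bun1

open scoped IntermediateField Polynomial WithZero
open Module

noncomputable section

universe u

namespace Pool.Agent.Lib.MP_7fcda1_ag

/-- a finite extension of the rational function field is a function field -/
theorem Comp_fin {Ω M : Type*} [Field Ω] [Field M] [Algebra Ω M] [Algebra (RatFunc Ω) M]
    [IsScalarTower Ω (RatFunc Ω) M] [FiniteDimensional (RatFunc Ω) M] :
    Transcendental Ω (algebraMap (RatFunc Ω) M RatFunc.X) ∧
      FiniteDimensional Ω⟮algebraMap (RatFunc Ω) M RatFunc.X⟯ M := by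
  refine ⟨(transcendental_algebraMap_iff (algebraMap (RatFunc Ω) M).injective).2
    RatFunc.transcendental_X, ?_⟩
  have hm : ∀ c : RatFunc Ω,
      algebraMap (RatFunc Ω) M c ∈ Ω⟮algebraMap (RatFunc Ω) M RatFunc.X⟯ := by
    intro c
    have h1 : c ∈ Ω⟮(RatFunc.X : RatFunc Ω)⟯ := by rw [RatFunc.adjoin_X]; trivial
    have h2 := IntermediateField.adjoin_map Ω {(RatFunc.X : RatFunc Ω)}
      (IsScalarTower.toAlgHom Ω (RatFunc Ω) M)
    rw [Set.image_singleton] at h2
    change _ ∈ IntermediateField.adjoin Ω {IsScalarTower.toAlgHom Ω (RatFunc Ω) M RatFunc.X}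
    rw [← h2]
    exact ⟨c, h1, rfl⟩
  let : Algebra (RatFunc Ω) Ω⟮algebraMap (RatFunc Ω) M RatFunc.X⟯ :=
    ((algebraMap (RatFunc Ω) M).codRestrict _ hm).toAlgebra
  have : IsScalarTower (RatFunc Ω) Ω⟮algebraMap (RatFunc Ω) M RatFunc.X⟯ M :=
    IsScalarTower.of_algebraMap_eq fun _ => rfl
  exact Module.Finite.of_restrictScalars_finite (RatFunc Ω) _ _

/-- extension of the field of constants -/
theorem Comp_ext {κ L : Type u} [Field κ] [Field L] [Algebra κ L] (Ω : Type u) [Field Ω]
    [Algebra κ Ω] {t : L} (ht : Transcendental κ t) [FiniteDimensional κ⟮t⟯ L] :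
    ∃ (M : Type u) (_ : Field M) (_ : Algebra Ω M) (_ : IsFF Ω M) (i : L →+* M),
      (∀ c, i (algebraMap κ L c) = algebraMap Ω M (algebraMap κ Ω c)) ∧
        Transcendental Ω (i t) := by
  have hX : Transcendental κ (RatFunc.X : RatFunc Ω) :=
    Transcendental.of_tower_top κ (L := Ω) RatFunc.transcendental_X
  let φ : κ⟮t⟯ →ₐ[κ] RatFunc Ω :=
    ((IntermediateField.val _).comp (RatFunc.algEquivOfTranscendental _ hX).toAlgHom).comp
      (RatFunc.algEquivOfTranscendental t ht).symm.toAlgHom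
  have hφ : φ (IntermediateField.AdjoinSimple.gen κ t) = RatFunc.X := by
    simp [φ]
  let A := AlgebraicClosure (RatFunc Ω)
  let : Algebra κ⟮t⟯ A := ((algebraMap (RatFunc Ω) A).comp φ.toRingHom).toAlgebra
  let i0 : L →ₐ[κ⟮t⟯] A := IsAlgClosed.lift
  let b := Module.finBasis κ⟮t⟯ L
  let M : IntermediateField (RatFunc Ω) A :=
    IntermediateField.adjoin (RatFunc Ω) (Set.range fun s => i0 (b s))
  have : FiniteDimensional (RatFunc Ω) M :=
    IntermediateField.finiteDimensional_adjoin fun a _ => Algebra.IsIntegral.isIntegral a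
  have hi : ∀ a, i0 a ∈ M := by
    intro a
    rw [← b.sum_repr a, map_sum]
    refine sum_mem fun s _ => ?_
    rw [map_smul, Algebra.smul_def]
    exact mul_mem (M.algebraMap_mem (φ (b.repr a s)))
      (IntermediateField.subset_adjoin _ _ ⟨s, rfl⟩)
  let i : L →+* M := (i0 : L →+* A).codRestrict M hi
  have hit : i t = algebraMap (RatFunc Ω) M RatFunc.X := by
    apply Subtype.ext
    have := i0.commutes (IntermediateField.AdjoinSimple.gen κ t)
    rw [IntermediateField.AdjoinSimple.algebraMap_gen] at this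
    change i0 t = algebraMap (RatFunc Ω) A RatFunc.X
    rw [this, ← hφ]
    rfl
  obtain ⟨h1, h2⟩ := Comp_fin (Ω := Ω) (M := M)
  refine ⟨M, inferInstance, inferInstance, ⟨⟨_, h1, h2⟩⟩, i, fun c => ?_, hit ▸ h1⟩
  apply Subtype.ext
  have := i0.commutes (algebraMap κ κ⟮t⟯ c)
  rw [← IsScalarTower.algebraMap_apply] at this
  change i0 (algebraMap κ L c) = algebraMap Ω A (algebraMap κ Ω c)
  rw [this]
  change algebraMap (RatFunc Ω) A (φ (algebraMap κ κ⟮t⟯ c)) = _
  rw [φ.commutes, IsScalarTower.algebraMap_apply Ω (RatFunc Ω) A,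
    IsScalarTower.algebraMap_apply κ Ω (RatFunc Ω)]

/-- a valuation ring containing the rational functions in a transcendental element is trivial -/
theorem Comp_top {κ L : Type*} [Field κ] [Field L] [Algebra κ L] [IsFF κ L] {f : L}
    (hf : Transcendental κ f) {V : ValuationSubring L} (h : ∀ c ∈ κ⟮f⟯, c ∈ V) : V = ⊤ := by
  have := IsFF.finite hf
  exact eq_top_of_algebraic (F := κ⟮f⟯) fun c => h c.1 c.2

section
variable {κ L Ω M : Type*} [Field κ] [Field L] [Algebra κ L] [IsFF κ L] [Field Ω] [Field M]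
  [Algebra Ω M] [IsFF Ω M] [Algebra κ Ω] {i : L →+* M}

omit [IsFF κ L] [IsFF Ω M] in
theorem Comp_aeval (hi : ∀ c, i (algebraMap κ L c) = algebraMap Ω M (algebraMap κ Ω c)) (f : L)
    (Q : κ[X]) : i (Polynomial.aeval f Q) =
      Polynomial.aeval (i f) (Q.map (algebraMap κ Ω)) := by
  rw [Polynomial.aeval_def, Polynomial.hom_eval₂, Polynomial.aeval_def, Polynomial.eval₂_map]
  congr 1
  ext c
  exact hi c

/-- transcendental elements stay transcendental -/
theorem Comp_trans (hi : ∀ c, i (algebraMap κ L c) = algebraMap Ω M (algebraMap κ Ω c)) {t : L}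
    (ht : Transcendental Ω (i t)) {f : L} (hf : Transcendental κ f) : Transcendental Ω (i f) := by
  intro ha
  obtain ⟨w, hw⟩ := exists_pole ht
  have : w.O.comap i = ⊤ := by
    refine Comp_top hf fun c hc => ?_
    obtain ⟨r, s, rfl⟩ := (IntermediateField.mem_adjoin_simple_iff κ c).1 hc
    have hal : ∀ Q : Polynomial Ω, IsAlgebraic Ω (Polynomial.aeval (i f) Q) := fun Q =>
      (IsIntegral.of_mem_of_fg _ ha.isIntegral.fg_adjoin_singleton _
        (Polynomial.aeval_mem_adjoin_singleton Ω (i f))).isAlgebraic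
    rw [ValuationSubring.mem_comap, map_div₀, Comp_aeval hi, Comp_aeval hi,
      mem_iff_ge (Or.inl w.disc)]
    exact Or.inr (w.ord_algebraic (div_eq_mul_inv (G := M) _ _ ▸ (hal _).mul (hal _).inv)).ge
  rw [ord_of_comap_top this] at hw
  exact lt_irrefl _ hw

/-- a place which is trivial on the old function field -/
theorem Comp_generic (hi : ∀ c, i (algebraMap κ L c) = algebraMap Ω M (algebraMap κ Ω c)) {t : L}
    (ht0 : Transcendental κ t) (ht : Transcendental Ω (i t)) {τ : Ω}
    (hτ : Transcendental κ τ) : ∃ b : Place Ω M, b.O.comap i = ⊤ := by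
  have h1 : Transcendental Ω (i t - algebraMap Ω M τ)⁻¹ := by
    intro h
    have h2 : IsAlgebraic Ω (i t - algebraMap Ω M τ) := by simpa using h.inv
    exact ht (by simpa using h2.add (isAlgebraic_algebraMap τ))
  obtain ⟨b, hb⟩ := exists_pole h1
  rw [ord_inv] at hb
  have hd := Or.inl (b := b.O = ⊤) b.disc
  have hg : Ge b.O 1 (i t - algebraMap Ω M τ) := Or.inr (by omega)
  have hU : i t ∈ b.O := by
    have := add_mem ((mem_iff_ge hd).2 (hg.mono zero_le_one)) (b.const τ)
    simpa using this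
  have hP : ∀ Q : Polynomial Ω, Polynomial.aeval (i t) Q ∈ b.O := by
    intro Q
    rw [Polynomial.aeval_eq_sum_range]
    refine sum_mem fun s _ => ?_
    rw [Algebra.smul_def]
    exact mul_mem (b.const _) (pow_mem hU _)
  have hQ : ∀ Q : κ[X], Q ≠ 0 → ord b.O (i (Polynomial.aeval t Q)) = 0 := by
    intro Q hQ
    rw [Comp_aeval hi]
    obtain ⟨R, hR⟩ := Polynomial.X_sub_C_dvd_sub_C_eval (a := τ) (p := Q.map (algebraMap κ Ω))
    have hc : (Q.map (algebraMap κ Ω)).eval τ ≠ 0 := by
      rw [Polynomial.eval_map_algebraMap]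
      exact fun h => hτ ⟨Q, hQ, h⟩
    have he : Polynomial.aeval (i t) (Q.map (algebraMap κ Ω)) =
        algebraMap Ω M ((Q.map (algebraMap κ Ω)).eval τ) +
          (i t - algebraMap Ω M τ) * Polynomial.aeval (i t) R := by
      have := congrArg (Polynomial.aeval (i t)) hR
      simp only [map_sub, map_mul, Polynomial.aeval_X, Polynomial.aeval_C] at this
      rw [← this]
      ring
    rw [he, (ord_add_of_ge ((_root_.map_ne_zero _).2 hc) _).2, b.ord_const]
    rw [b.ord_const]
    simpa using hg.mul ((mem_iff_ge hd).1 (hP R))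
  refine ⟨b, Comp_top ht0 fun c hc => ?_⟩
  obtain ⟨r, s, rfl⟩ := (IntermediateField.mem_adjoin_simple_iff κ c).1 hc
  rw [ValuationSubring.mem_comap, map_div₀, mem_iff_ge hd]
  by_cases hr : r = 0
  · simp [hr]
  by_cases hs : s = 0
  · simp [hs]
  have hne : ∀ Q : κ[X], Q ≠ 0 → i (Polynomial.aeval t Q) ≠ 0 := fun Q hQ =>
    (_root_.map_ne_zero _).2 fun h => ht0 ⟨Q, hQ, h⟩
  exact Or.inr (by rw [ord_div (hne r hr) (hne s hs), hQ r hr, hQ s hs]; simp)

omit [IsFF κ L] in
/-- restriction of places -/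
theorem Comp_res (hi : ∀ c, i (algebraMap κ L c) = algebraMap Ω M (algebraMap κ Ω c))
    (w : Place Ω M) : w.O.comap i = ⊤ ∨ ∃ (v : Place κ L) (e : ℕ), v.O = w.O.comap i ∧ 0 < e ∧
      ∀ a, ord w.O (i a) = e * ord v.O a := by
  rcases w.disc.comap i with h | ⟨h, e, he, h'⟩
  · exact Or.inl h
  · refine Or.inr ⟨⟨w.O.comap i, h.ne_top, fun c => ?_⟩, e, rfl, he, h'⟩
    rw [ValuationSubring.mem_comap, hi]
    exact w.const _

end

variable {k F : Type u} [Field k] [Field F] [Algebra k F] {p : ℕ} [ExpChar F p] {n : ℕ}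
  {x : Fin (n + 2) → F} {κ L : Type u} [Field κ] [Field L] [Algebra κ L] [IsFF κ L]
  {j : F →+* L} {H : Div κ L}

/-- passage to algebraically closed constants -/
theorem comp (hx : Model k x) (h : OnCurve k x j H) {r : ℕ} {D : Fin r → Derivation k F F}
    (hp : Pos p j D H) :
    ∃ (Ω M : Type u) (_ : Field Ω) (_ : IsAlgClosed Ω) (_ : Field M) (_ : Algebra Ω M)
      (_ : IsFF Ω M) (j' : F →+* M) (H' : Div Ω M) (b : Place Ω M),
      OnCurve k x j' H' ∧ Pos p j' D H' ∧ b.O.comap j' = ⊤ := by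
  obtain ⟨t, ht, hfin⟩ := IsFF.ex (κ := κ) (L := L)
  let Ω := AlgebraicClosure (RatFunc κ)
  obtain ⟨M, _, _, _, i, hi, hit⟩ := Comp_ext Ω ht
  have hτ : Transcendental κ (algebraMap (RatFunc κ) Ω RatFunc.X) :=
    (transcendental_algebraMap_iff (algebraMap (RatFunc κ) Ω).injective).2
      RatFunc.transcendental_X
  obtain ⟨b, hb⟩ := Comp_generic hi ht hit hτ
  have hne : (fun a => i.comp j (x a)) ≠ 0 := fun h0 => by
    have := congrFun h0 0
    simp [hx.zero] at this
  have hH : ∀ w : Place Ω M, -(-vdiv Ω fun a => i.comp j (x a)) w =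
      vord w.O fun a => i.comp j (x a) := fun w => by
    rw [Finsupp.neg_apply, neg_neg, vdiv_apply]
  have hge : ∀ (w : Place Ω M) a,
      Ge w.O (-(-vdiv Ω fun a => i.comp j (x a)) w) (i.comp j (x a)) := fun w => by
    rw [hH]
    exact (vge_iff hne).2 le_rfl
  have hex : ∀ w : Place Ω M, ∃ a, x a ≠ 0 ∧
      ord w.O (i.comp j (x a)) = -(-vdiv Ω fun a => i.comp j (x a)) w := fun w => by
    obtain ⟨a, ha, ha'⟩ := exists_vord (V := w.O) hne
    exact ⟨a, (_root_.map_ne_zero _).1 ha, by rw [hH, ha']⟩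
  refine ⟨Ω, M, inferInstance, inferInstance, inferInstance, inferInstance, inferInstance,
    i.comp j, -vdiv Ω fun a => i.comp j (x a), b, ⟨fun c => ?_, fun w => ?_, hge,
      fun w => (hex w).imp fun _ ha => ha.2, ?_⟩, fun B => ?_, ?_⟩
  · obtain ⟨c', hc⟩ := h.const c
    exact ⟨algebraMap κ Ω c', by rw [RingHom.comp_apply, ← hc, hi]⟩
  · rw [← ValuationSubring.comap_comap]
    rcases Comp_res hi w with hw | ⟨v, e, hv, -⟩
    · left
      rw [hw]
      rfl
    · rw [← hv]
      exact h.cls v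
  · have hv : ∃ v, 0 < H v := by
      by_contra hc
      push Not at hc
      have := degD_mono (D := H) (D' := 0) fun v => hc v
      rw [map_zero] at this
      exact absurd h.pos (not_lt.2 this)
    obtain ⟨v, hv⟩ := hv
    obtain ⟨a, ha⟩ := h.hex v
    have h1 : Transcendental κ (j (x a)) := fun hal => by
      rw [v.ord_algebraic hal] at ha
      omega
    obtain ⟨w, hw⟩ := exists_pole (Comp_trans hi hit h1)
    have h2 : Finsupp.single w 1 ≤ -vdiv Ω fun a => i.comp j (x a) := by
      intro w'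
      by_cases hw' : w' = w
      · subst hw'
        rcases hge w' a with h0 | h0
        · rw [RingHom.comp_apply] at h0
          rw [h0, ord_zero] at hw
          exact absurd hw (lt_irrefl _)
        · rw [RingHom.comp_apply] at h0
          rw [Finsupp.single_eq_same]
          omega
      · rw [Finsupp.single_eq_of_ne hw']
        rcases hge w' 0 with h0 | h0
        · simp [hx.zero] at h0
        · rw [hx.zero, map_one, ord_one] at h0
          omega
    have h3 := degD_mono h2
    rw [degD_single] at h3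
    have h4 := w.deg_pos
    omega
  · obtain ⟨e, he⟩ := hp B
    refine ⟨e, top_le_iff.1 ?_⟩
    rw [← bc_top i, ← he, bc_span]
    refine Submodule.span_mono ?_
    rintro _ ⟨a, ha, rfl⟩ w c hc
    have hd : dψ ((i.comp j).comp (iterateFrobenius F p e)) D c (fun s => i (a s)) =
        i (dψ (j.comp (iterateFrobenius F p e)) D c a) := by
      simp [dψ, Fintype.linearCombination_apply]
    rw [hd]
    obtain ⟨s, hs0, hs⟩ := hex w
    rw [RingHom.comp_apply] at hs
    rcases Comp_res hi w with hw | ⟨v, f, hv, hf, hf'⟩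
    · rw [ord_of_comap_top hw] at hs
      refine Or.inr ?_
      rw [ord_of_comap_top hw, neg_eq_zero.1 hs.symm, mul_zero]
    · have h1 := ha v c (by rw [hv]; exact hc)
      rcases h1 with h1 | h1
      · rw [h1, map_zero]
        exact ge_zero
      · refine Or.inr ?_
        have h2 := (ge_iff ((_root_.map_ne_zero j).2 hs0)).1 (h.hge v s)
        rw [hf'] at hs ⊢
        have h3 : (-vdiv Ω fun a => i.comp j (x a)) w ≤ f * H v := by nlinarith
        calc (B : ℤ) * (-vdiv Ω fun a => i.comp j (x a)) w ≤ B * (f * H v) := by gcongr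
          _ = f * (B * H v) := by ring
          _ ≤ _ := by gcongr
  · rw [← ValuationSubring.comap_comap, hb]
    rfl

end Pool.Agent.Lib.MP_7fcda1_ag
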