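import Pool.Agent.Lib.MP_7fcda1_ag.Fol
import Pool.Agent.Lib.MP_7fcda1_ag.Bun2
import Pool.Agent.Lib.MP_7fcda1_ag.Pdv2

open scoped IntermediateField Polynomial WithZero
open Module

noncomputable section

universe u

namespace Pool.Agent.Lib.MP_7fcda1_ag


variable {k F : Type u} [Field k] [IsAlgClosed k] [Field F] [Algebra k F] {p : ℕ} [Fact p.Prime]
  [CharP k p] [CharP F p] {n : ℕ} {x : Fin (n + 2) → F} {N d : ℕ} {y : Fin (N + 1) → F}
  {Φ : Frame k F (n + 1)} {κ L : Type u} [Field κ] [Field L] [Algebra κ L] [IsFF κ L]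
  {j : F →+* L} {H : Div κ L}

namespace Key1

section
variable {k F L : Type*} [Field k] [Field F] [Algebra k F] [Field L] {r : ℕ} (ψ : F →+* L)
  (D : Fin r → Derivation k F F)

theorem dψ_apply (b : F) (a : Fin r → L) : dψ ψ D b a = ∑ i, a i * ψ (D i b) := by
  simp [dψ, Fintype.linearCombination_apply]

theorem dψ_add (b c : F) (a : Fin r → L) : dψ ψ D (b + c) a = dψ ψ D b a + dψ ψ D c a := by
  simp [dψ_apply, mul_add, Finset.sum_add_distrib]

theorem dψ_mul (b c : F) (a : Fin r → L) :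
    dψ ψ D (b * c) a = ψ b * dψ ψ D c a + ψ c * dψ ψ D b a := by
  simp only [dψ_apply, Derivation.leibniz, smul_eq_mul, map_add, map_mul, Finset.mul_sum,
    ← Finset.sum_add_distrib]
  exact Finset.sum_congr rfl fun i _ => by ring

theorem dψ_const (c : k) (a : Fin r → L) : dψ ψ D (algebraMap k F c) a = 0 := by
  simp [dψ_apply]

theorem iota_apply {ι : Type*} (y : ι → F) (a : Fin r → L) (i : ι × ι) :
    iota ψ D y a i = ψ (y i.1) * dψ ψ D (y i.2) a - ψ (y i.2) * dψ ψ D (y i.1) a := rfl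

theorem iota_comp {ι F' : Type*} [Field F'] (φ : F →+* F') (χ : F' →+* L) (y : ι → F)
    (a : Fin r → F') :
    iota (χ.comp φ) D y (fun i => χ (a i)) = fun i => χ (iota φ D y a i) := by
  ext i
  simp [iota_apply, dψ_apply]

theorem dψ_frame (Φ : Frame k F r) (a : Fin r → L) (i : Fin r) : dψ ψ Φ.D (Φ.y i) a = a i := by
  simp [dψ_apply, Φ.dual, apply_ite ψ]

theorem vord_pl_one {V : ValuationSubring L} (hV : Disc V) :
    vord V (pl fun i : Fin r => (Pi.single i 1 : Fin r → L)) = 0 := by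
  have h1 : pl (fun i : Fin r => (Pi.single i 1 : Fin r → L)) id = 1 := by
    rw [← Matrix.det_one (n := Fin r), pl]
    congr 1
    ext i j
    simp [Matrix.one_apply, Pi.single_apply, eq_comm]
  have h0 : pl (fun i : Fin r => (Pi.single i 1 : Fin r → L)) ≠ 0 := fun h => by
    rw [h] at h1; exact zero_ne_one h1
  refine le_antisymm ?_ ((vge_iff h0).1 fun f => (mem_iff_ge (Or.inl hV)).1 ?_)
  · have h2 := (vge_iff (V := V) h0).2 le_rfl id
    rw [h1, ge_iff one_ne_zero, ord_one] at h2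
    exact h2
  · have h2 := congrFun (pl_map (Int.castRingHom L)
      fun i : Fin r => (Pi.single i 1 : Fin r → ℤ)) f
    have h3 : (fun s i : Fin r => Int.castRingHom L ((Pi.single s 1 : Fin r → ℤ) i)) =
        fun i : Fin r => (Pi.single i 1 : Fin r → L) := by
      ext s i; simp [Pi.single_apply]
    rw [h3] at h2
    rw [h2]
    exact intCast_mem V _

end

theorem sdeg_bc {F κ L : Type*} [Field F] [Field κ] [Field L] [Algebra κ L] [IsFF κ L] {ι : Type*}
    [Fintype ι] {r : ℕ} (ψ : F →+* L) {w : Fin r → ι → F} (hw : LinearIndependent F w) :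
    sdeg κ (bc ψ (Submodule.span F (Set.range w))) = degD (vdiv κ fun f => ψ (pl w f)) := by
  rw [bc_span, ← Set.range_comp, ← pl_map]
  exact sdeg_eq (linearIndependent_map ψ hw)

end Key1

open Key1

omit [IsAlgClosed k] in
theorem dψ_comb {r : ℕ} (ψ : F →+* L) (D : Fin r → Derivation k F F) (b : F) (a : Fin r → F) :
    dψ ψ D b (fun i => ψ (a i)) = ψ (comb D a b) := by
  simp [dψ_apply, comb_apply]
omit [IsAlgClosed k] in
theorem iota_map {r : ℕ} {ι : Type*} (ψ : F →+* L) (D : Fin r → Derivation k F F) (y : ι → F)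
    (a : Fin r → F) :
    iota ψ D y (fun i => ψ (a i)) = fun i => ψ (iota (RingHom.id F) D y a i) :=
  iota_comp D (RingHom.id F) ψ y a
omit [IsAlgClosed k] in
theorem bc_iota {r : ℕ} {ι : Type*} [Finite ι] {F' : Type u} [Field F'] (φ : F →+* F')
    (χ : F' →+* L) (D : Fin r → Derivation k F F) (y : ι → F) (W : Submodule F' (Fin r → F')) :
    bc χ (W.map (iota φ D y)) = (bc χ W).map (iota (χ.comp φ) D y) := by
  unfold bc
  rw [Submodule.map_span, Submodule.map_coe, Set.image_image, Set.image_image]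
  simp only [iota_comp]
omit [IsAlgClosed k] in
theorem OnCurve.nonneg (hx : Model k x) (h : OnCurve k x j H) : 0 ≤ H := by
  intro v
  have h1 := h.hge v 0
  rw [hx.zero, map_one, ge_iff one_ne_zero, ord_one] at h1
  simpa using h1
omit [IsAlgClosed k] [CharP k p] [IsFF κ L] in
theorem comap_frob (V : ValuationSubring L) (e : ℕ) :
    V.comap (j.comp (iterateFrobenius F p e)) = V.comap j := by
  ext a
  rw [ValuationSubring.mem_comap, ValuationSubring.mem_comap, RingHom.comp_apply,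
    iterateFrobenius_def, map_pow, ← V.valuation_le_one_iff, ← V.valuation_le_one_iff, map_pow]
  exact pow_le_one_iff (pow_ne_zero _ (Fact.out : p.Prime).ne_zero)
omit [IsAlgClosed k] in
/-- the tangent norm can be read off from a local frame -/
theorem tge_frame (hΦ : Φ.Spans ⊤) {V : ValuationSubring L} (hV : Disc V) {ψ : F →+* L}
    {Ψ : Frame k F (n + 1)} (hΨ : Ψ.Spans ⊤) (hI : Ψ.Int (V.comap ψ)) (M : ℤ)
    (a : Fin (n + 1) → L) : TGe V ψ Φ.D M a ↔ ∀ i, Ge V M (dψ ψ Φ.D (Ψ.y i) a) := by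
  refine ⟨fun h i => h _ (hI.1 i), fun h b hb => ?_⟩
  have e : dψ ψ Φ.D b a = ∑ l, ψ (Ψ.D l b) * dψ ψ Φ.D (Ψ.y l) a := by
    simp only [dψ_apply, Finset.mul_sum]
    rw [Finset.sum_comm]
    refine Finset.sum_congr rfl fun i _ => ?_
    conv_lhs => rw [hΨ.eq_comb (D := Φ.D i) trivial, comb_apply, map_sum, Finset.mul_sum]
    exact Finset.sum_congr rfl fun l _ => by rw [map_mul]; ring
  rw [e]
  refine Ge.sum fun l _ => ?_
  simpa using ((mem_iff_ge (Or.inl hV)).1 (hI.2 l b hb)).mul (h l)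
omit [IsAlgClosed k] in
theorem tge_loc {V : ValuationSubring L} (hV : Disc V ∨ V = ⊤) {ψ : F →+* L} {i₀ : Fin (N + 1)}
    (hl : Loc k y i₀ (V.comap ψ)) (hk : ∀ c, ψ (algebraMap k F c) ∈ V) (M : ℤ)
    (a : Fin (n + 1) → L) :
    TGe V ψ Φ.D M a ↔ VGe V (M + 2 * ord V (ψ (y i₀))) (iota ψ Φ.D y a) := by
  obtain ⟨h0, h1, h2⟩ := hl
  have h0' : ψ (y i₀) ≠ 0 := (map_ne_zero ψ).2 h0
  have hg : ∀ {b : F}, b ∈ V.comap ψ → Ge V 0 (ψ b) := fun hb => (mem_iff_ge hV).1 hb
  have e : ∀ i : Fin (N + 1) × Fin (N + 1), iota ψ Φ.D y a i = ψ (y i₀) ^ 2 *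
      (ψ (y i.1 / y i₀) * dψ ψ Φ.D (y i.2 / y i₀) a -
        ψ (y i.2 / y i₀) * dψ ψ Φ.D (y i.1 / y i₀) a) := by
    intro i
    have e1 : ∀ y₀ u w : F, ψ (y₀ * u) * dψ ψ Φ.D (y₀ * w) a - ψ (y₀ * w) * dψ ψ Φ.D (y₀ * u) a =
        ψ y₀ ^ 2 * (ψ u * dψ ψ Φ.D w a - ψ w * dψ ψ Φ.D u a) := fun y₀ u w => by
      simp only [dψ_mul, map_mul]; ring
    rw [← e1, mul_div_cancel₀ _ h0, mul_div_cancel₀ _ h0, iota_apply]
  have e2 : ∀ b, Ge V (M + 2 * ord V (ψ (y i₀))) (ψ (y i₀) ^ 2 * b) ↔ Ge V M b := fun b => by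
    rw [ge_mul_iff (pow_ne_zero 2 h0'), ord_pow]; simp
  constructor
  · intro h i
    rw [e, e2]
    simpa using ((hg (h1 i.1)).mul (h _ (h1 i.2))).sub ((hg (h1 i.2)).mul (h _ (h1 i.1)))
  · intro h b hb
    have h3 : ∀ l, Ge V M (dψ ψ Φ.D (y l / y i₀) a) := fun l => by
      have h4 := h (i₀, l)
      have h5 := dψ_const ψ Φ.D 1 a
      rw [map_one] at h5
      rw [e, e2, div_self h0, h5] at h4
      simpa using h4
    have h4 : ∀ A : MvPolynomial (Fin (N + 1)) k,
        Ge V M (dψ ψ Φ.D (MvPolynomial.aeval (fun i => y i / y i₀) A) a) := by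
      intro A
      induction A using MvPolynomial.induction_on with
      | C c => rw [MvPolynomial.aeval_C, dψ_const]; exact ge_zero
      | add A B hA hB => rw [map_add, dψ_add]; exact hA.add hB
      | mul_X A l hA =>
        rw [map_mul, MvPolynomial.aeval_X, dψ_mul]
        simpa using ((hg (aeval_mem (V := V.comap ψ) hk h1 A)).mul (h3 l)).add ((hg (h1 l)).mul hA)
    obtain ⟨A, B, hB, hAB⟩ := h2 b hb
    obtain ⟨hB0, hB1⟩ := (val_eq_one_iff hV).1 ((val_comap_eq_one ψ _).1 hB)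
    have h5 := h4 A
    rw [← hAB, dψ_mul] at h5
    have h6 := h5.sub (show Ge V M _ by simpa using (hg hb).mul (h4 B))
    rwa [add_sub_cancel_left, ge_mul_iff hB0, hB1, sub_zero] at h6
omit [IsAlgClosed k] in
theorem tge_iff (hx : Model k x) (hy : Emb k x d y) (h : OnCurve k x j H) (e : ℕ) (v : Place κ L)
    (M : ℤ) (a : Fin (n + 1) → L) : TGe v.O (j.comp (iterateFrobenius F p e)) Φ.D M a ↔
      VGe v.O (M - 2 * d * p ^ e * H v) (iota (j.comp (iterateFrobenius F p e)) Φ.D y a) := by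
  have hk : ∀ c, algebraMap k F c ∈ v.O.comap j := fun c => by
    obtain ⟨c', hc⟩ := h.const c
    rw [ValuationSubring.mem_comap, ← hc]
    exact v.const c'
  obtain ⟨i₀, hl⟩ : ∃ i₀, Loc k y i₀ (v.O.comap j) := by
    rcases h.cls v with h1 | h1
    · exact ⟨0, h1 ▸ hy.top⟩
    · exact hy.loc _ h1
  have h0 : j (y i₀) ≠ 0 := (map_ne_zero j).2 hl.1
  have h1 : ord v.O (j (y i₀)) = -(d * H v) := by
    refine le_antisymm ?_ ((ge_iff h0).1 (((hy.sec i₀).bd hx hk).ge hx v.disc (h.hge v)))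
    obtain ⟨b, hb⟩ := h.hex v
    obtain ⟨i, hi⟩ := hy.pow b
    have h2 : j (y i) ≠ 0 := (map_ne_zero j).2 (hi ▸ pow_ne_zero _ (hx.ne_zero b))
    have h3 := (mem_iff_ge (Or.inl v.disc)).1 (show j (y i / y i₀) ∈ v.O from hl.2.1 i)
    rw [map_div₀, ge_iff (div_ne_zero h2 h0), ord_div h2 h0, hi, map_pow, ord_pow, hb] at h3
    linarith
  rw [← comap_frob (p := p) v.O e] at hl hk
  rw [tge_loc (Or.inl v.disc) hl hk, RingHom.comp_apply, iterateFrobenius_def, map_pow, ord_pow, h1]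
  congr! 1
  push_cast
  ring
omit [IsAlgClosed k] in
theorem iota_injective (hy : Emb k x d y) (ψ : F →+* L) :
    Function.Injective (iota ψ Φ.D y) := by
  refine (injective_iff_map_eq_zero _).2 fun a ha => funext fun i => ?_
  have h1 := (tge_loc (Φ := Φ) (V := ⊤) (ψ := ψ) (Or.inr rfl) hy.top (fun _ => trivial) 1 a).2
    (fun i => by rw [ha]; exact ge_zero) (Φ.y i) trivial
  rw [dψ_frame] at h1
  exact h1.resolve_right (by simp)
omit [IsAlgClosed k] [CharP k p] in
theorem sdeg_frob {ι : Type} [Fintype ι] (W : Submodule F (ι → F)) (e : ℕ) :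
    sdeg κ (bc (j.comp (iterateFrobenius F p e)) W) = p ^ e * sdeg κ (bc j W) := by
  have hw := (finBasis F W).linearIndependent.map' W.subtype W.ker_subtype
  have hs : Submodule.span F (Set.range (W.subtype ∘ finBasis F W)) = W := by
    rw [Set.range_comp, ← Submodule.map_span, Basis.span_eq, Submodule.map_subtype_top]
  rw [← hs, sdeg_bc _ hw, sdeg_bc _ hw, ← smul_eq_mul, ← map_smul]
  congr 1
  ext v
  simp only [vdiv_apply, RingHom.comp_apply, iterateFrobenius_def, map_pow, Finsupp.smul_apply]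
  rw [vord_pow _ (pow_ne_zero _ (Fact.out : p.Prime).ne_zero)]
  simp

namespace Key1

omit [IsAlgClosed k] [CharP k p] [CharP F p] in
theorem coords (hΦ : Φ.Spans ⊤) {r : ℕ} {D : Fin r → Derivation k F F}
    (hD : LinearIndependent F D) {U : Submodule F (Fin (n + 1) → F)}
    (hU : Submodule.span F (Set.range D) = U.map (comb Φ.D)) :
    LinearIndependent F (fun i l => D i (Φ.y l)) ∧
      Submodule.span F (Set.range fun i l => D i (Φ.y l)) = U := by
  have e : comb Φ.D ∘ (fun i l => D i (Φ.y l)) = D :=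
    funext fun i => (hΦ.eq_comb (D := D i) trivial).symm
  refine ⟨LinearIndependent.of_comp (comb Φ.D) (e.symm ▸ hD), ?_⟩
  refine Submodule.map_injective_of_injective (f := comb Φ.D)
    Φ.linearIndependent.fintypeLinearCombination_injective ?_
  rw [Submodule.map_span, ← Set.range_comp, e, hU]

omit [IsAlgClosed k] in
include p in
theorem loc_vord (hx : Model k x) (hΦ : Φ.Spans ⊤) (hy : Emb k x d y) (h : OnCurve k x j H)
    (v : Place κ L) {r : ℕ} {E : Submodule F (Derivation k F F)} {Ψ : Frame k F r}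
    (hΨ : Ψ.Spans E) (hI : Ψ.Int (v.O.comap j)) {D : Fin r → Derivation k F F}
    (hD : LinearIndependent F D) (hE : ∀ i, D i ∈ E) :
    vord v.O (fun f => j (pl (fun i => iota (RingHom.id F) Φ.D y fun l => D i (Φ.y l)) f)) =
      ord v.O (j (jac D Ψ.y)) - r * (2 * d * H v) := by
  have hc : ∀ (i : Fin r) (b : F), dψ j Φ.D b (fun l => j (Ψ.D i (Φ.y l))) = j (Ψ.D i b) :=
    fun i b => by rw [dψ_comb, ← hΦ.eq_comb (D := Ψ.D i) trivial]
  have hw : LinearIndependent L fun i => iota j Φ.D y fun l => j (Ψ.D i (Φ.y l)) :=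
    (linearIndependent_map j (LinearIndependent.of_comp (comb Φ.D) (by
      convert Ψ.linearIndependent
      exact funext fun i => (hΦ.eq_comb (D := Ψ.D i) trivial).symm))).map' _
      (LinearMap.ker_eq_bot.2 (iota_injective hy j))
  have he : LinearIndependent L fun i : Fin r => (Pi.single i 1 : Fin r → L) :=
    Pi.linearIndependent_single_one _ _
  have key : ∀ (c : Fin r → L) (M : ℤ), VGe v.O M (∑ i, c i • (Pi.single i 1 : Fin r → L)) ↔
      VGe v.O (M - 2 * d * H v) (∑ i, c i • iota j Φ.D y fun l => j (Ψ.D i (Φ.y l))) := by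
    intro c M
    have h1 := tge_iff (p := p) (Φ := Φ) hx hy h 0 v M (∑ i, c i • fun l => j (Ψ.D i (Φ.y l)))
    rw [iterateFrobenius_zero, RingHom.comp_id, pow_zero, mul_one] at h1
    simp only [map_sum, map_smul] at h1
    rw [← h1, ← pi_eq_sum_univ' c]
    have h2 : ∀ b, dψ j Φ.D b (∑ i, c i • fun l => j (Ψ.D i (Φ.y l))) = dψ j Ψ.D b c := fun b => by
      rw [dψ_apply j Ψ.D]
      simp only [map_sum, map_smul, hc, smul_eq_mul]
    refine ⟨fun h3 b hb => ?_, fun h3 i => ?_⟩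
    · rw [h2, dψ_apply]
      exact Ge.sum fun i _ => by
        simpa using (h3 i).mul ((mem_iff_ge (Or.inl v.disc)).1 (hI.2 i b hb))
    · have h4 := h3 _ (hI.1 i)
      rwa [h2, dψ_frame] at h4
  have h1 := local7 v.disc he hw (-(2 * d * H v)) fun c M h1 => (key c M).1 h1
  have h2 := local7 v.disc hw he (2 * d * H v) fun c M h1 => (key c _).2 (by simpa using h1)
  rw [vord_pl_one v.disc] at h1 h2
  have h3 : (fun i => iota (RingHom.id F) Φ.D y fun l => D i (Φ.y l)) = fun i =>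
      ∑ t, Matrix.of (fun i t => D i (Ψ.y t)) i t •
        iota (RingHom.id F) Φ.D y fun l => Ψ.D t (Φ.y l) := by
    ext1 i
    simp only [← map_smul, ← map_sum]
    congr 1
    ext l
    conv_lhs => rw [hΨ.eq_comb (hE i), comb_apply]
    simp
  have h4 : (fun f => j (pl (fun i => iota (RingHom.id F) Φ.D y fun l => D i (Φ.y l)) f)) =
      j (jac D Ψ.y) • pl fun i => iota j Φ.D y fun l => j (Ψ.D i (Φ.y l)) := by
    simp only [iota_map]
    rw [h3, pl_mul, pl_map]
    ext f
    simp [jac]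
  rw [h4, vord_smul ((map_ne_zero j).2 (isJac_frame hΨ hI hD hE).1) (pl_ne_zero_iff.2 hw)]
  linarith

end Key1

/-- the foliation inequality on the curve -/
theorem fol_deg (hx : Model k x) (hs : Split k p x) (hm : Maximal k x) (hΦ : Φ.Spans ⊤)
    (hy : Emb k x d y) (h : OnCurve k x j H) {d₀ : ℕ}
    (h₀ : ∀ V, IsPD k x V → ∃ v : Place κ L, v.O.comap j = V ∧ degD H ≤ d₀ * v.deg)
    {U : Submodule F (Fin (n + 1) → F)} (hU : IsFol p (U.map (comb Φ.D))) (hU' : U ≠ ⊤) :
    degD H ≤ d₀ * (p - 1) * (sdeg κ (bc j (LinearMap.range (iota (RingHom.id F) Φ.D y))) -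
      sdeg κ (bc j (U.map (iota (RingHom.id F) Φ.D y))) +
        (n + 1 - finrank F U) * (2 * d * degD H)) := by
  have hinj : Function.Injective (comb Φ.D) :=
    Φ.linearIndependent.fintypeLinearCombination_injective
  have hr : finrank F (U.map (comb Φ.D)) = finrank F U :=
    (Submodule.equivMapOfInjective _ hinj U).finrank_eq.symm
  have hlt : finrank F U < n + 1 := by simpa using Submodule.finrank_lt hU'
  have hfin : Module.Finite F (U.map (comb Φ.D)) := inferInstance
  rw [← hr] at hlt ⊢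
  generalize hE : U.map (comb Φ.D) = E at *
  have hD := (finBasis F E).linearIndependent.map' E.subtype E.ker_subtype
  have hsp : Submodule.span F (Set.range (E.subtype ∘ finBasis F E)) = E := by
    rw [Set.range_comp, ← Submodule.map_span, Basis.span_eq, Submodule.map_subtype_top]
  generalize E.subtype ∘ finBasis F E = D at hD hsp
  have hDE : ∀ i, D i ∈ E := fun i => hsp ▸ Submodule.subset_span ⟨i, rfl⟩
  obtain ⟨c, hc0, hc1, hc2⟩ := fol hx hs hm hΦ hD (hsp.symm ▸ hU)
  obtain ⟨V₀, hV₀, hc3⟩ := hc2 hlt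
  obtain ⟨v₀, rfl, hv₀⟩ := h₀ V₀ hV₀
  have hI := LinearMap.ker_eq_bot.2 (iota_injective (Φ := Φ) hy (RingHom.id F))
  obtain ⟨a1, a2⟩ := coords hΦ hD (hsp.trans hE.symm)
  obtain ⟨b1, b2⟩ := coords hΦ Φ.linearIndependent (U := ⊤) (by
    rw [Submodule.map_top]; exact (Fintype.range_linearCombination _ _).symm)
  have a3 := a1.map' _ hI
  have b3 := b1.map' _ hI
  rw [← Submodule.map_top, ← b2, ← a2, Submodule.map_span, Submodule.map_span, ← Set.range_comp,
    ← Set.range_comp, sdeg_bc j a3, sdeg_bc j b3]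
  have hp : (1 : ℤ) ≤ p := by exact_mod_cast (Fact.out : p.Prime).one_le
  have key : Finsupp.single v₀ 1 ≤ ((p : ℤ) - 1) •
      ((vdiv κ fun f => j (pl (iota (RingHom.id F) Φ.D y ∘ fun i l => Φ.D i (Φ.y l)) f)) -
        (vdiv κ fun f => j (pl (iota (RingHom.id F) Φ.D y ∘ fun i l => D i (Φ.y l)) f)) +
        (((n : ℤ) + 1 - finrank F E) * (2 * d)) • H) + div κ (j c) := by
    intro v
    simp only [Finsupp.add_apply, Finsupp.sub_apply, Finsupp.smul_apply, vdiv_apply, div_apply,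
      smul_eq_mul]
    rcases h.cls v with h1 | h1
    · have h2 : v₀ ≠ v := by rintro rfl; exact hV₀.1 h1
      have h3 : ∀ {σ : Type} [Finite σ] {w : σ → F}, w ≠ 0 → vord v.O (fun f => j (w f)) = 0 := by
        intro σ _ w hw
        obtain ⟨i, -, hi⟩ := exists_vord (V := v.O) (w := fun f => j (w f)) fun h0 =>
          hw (funext fun f => (map_eq_zero j).1 (congrFun h0 f))
        rw [← hi, ord_of_comap_top h1]
      obtain ⟨b, hb⟩ := h.hex v
      rw [ord_of_comap_top h1, eq_comm, neg_eq_zero] at hb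
      rw [h3 (pl_ne_zero_iff.2 a3), h3 (pl_ne_zero_iff.2 b3), ord_of_comap_top h1, hb,
        Finsupp.single_eq_of_ne' h2]
      simp
    · obtain ⟨Ψ, hΨ, hΨI⟩ := exists_frame p hx (Or.inl h1)
      obtain ⟨Ψ', hΨ', hΨI'⟩ := exists_subframe hΨ hΨI E
      have j1 := isJac_frame hΨ' hΨI' hD hDE
      have j2 := isJac_frame hΨ hΨI Φ.linearIndependent fun _ => trivial
      have e1 := loc_vord (p := p) hx hΦ hy h v hΨ' hΨI' hD hDE
      have e2 := loc_vord (p := p) hx hΦ hy h v hΨ hΨI Φ.linearIndependent fun _ => trivial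
      have n1 := (map_ne_zero j).2 j1.1
      have n2 := (map_ne_zero j).2 j2.1
      have n3 := (map_ne_zero j).2 hc0
      have n4 : j (c * (jac Φ.D Ψ.y / jac D Ψ'.y) ^ (p - 1)) ≠ 0 := by
        rw [map_mul, map_pow, map_div₀]
        exact mul_ne_zero n3 (pow_ne_zero _ (div_ne_zero n2 n1))
      have e3 : ord v.O (j (c * (jac Φ.D Ψ.y / jac D Ψ'.y) ^ (p - 1))) = ord v.O (j c) +
          (p - 1) * (ord v.O (j (jac Φ.D Ψ.y)) - ord v.O (j (jac D Ψ'.y))) := by
        rw [map_mul, map_pow, map_div₀, ord_mul n3 (pow_ne_zero _ (div_ne_zero n2 n1)), ord_pow,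
          ord_div n2 n1, Nat.cast_pred (Fact.out : p.Prime).pos]
      have e4 : (Finsupp.single v₀ 1 : Div κ L) v ≤
          ord v.O (j (c * (jac Φ.D Ψ.y / jac D Ψ'.y) ^ (p - 1))) := by
        by_cases h2 : v₀ = v
        · subst h2
          rw [Finsupp.single_eq_same, ← ge_iff n4, ← val_lt_one_iff (Or.inl v₀.disc),
            ← val_comap_lt_one]
          exact hc3 _ _ j1 j2
        · rw [Finsupp.single_eq_of_ne' h2, ← ge_iff n4, ← mem_iff_ge (Or.inl v.disc)]
          exact hc1 _ h1 _ _ j1 j2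
      simp only [Function.comp_def]
      rw [e1, e2]
      push_cast
      linarith
  have h1 := degD_mono key
  simp only [map_add, map_sub, map_smul, degD_div, degD_single, smul_eq_mul] at h1
  have h2 : (0 : ℤ) ≤ d₀ := by positivity
  have h3 := mul_le_mul_of_nonneg_left h1 h2
  linarith

end Pool.Agent.Lib.MP_7fcda1_ag
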