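import Pool.Agent.Lib.MP_7fcda1_ag.Pdv2

open scoped IntermediateField Polynomial WithZero
open Module

noncomputable section

universe u

namespace Pool.Agent.Lib.MP_7fcda1_ag

section aux

theorem s1a_nondeg {K F : Type*} [Field K] [Field F] [Algebra K F] {T : F →ₗ[K] K} (hT : T ≠ 0) :
    LinearMap.BilinForm.Nondegenerate ((LinearMap.mul K F).compr₂ T) := by
  have h : ∀ a : F, (∀ b, T (a * b) = 0) → a = 0 := fun a ha => by
    by_contra h0
    apply hT
    ext b
    simpa [mul_inv_cancel_left₀ h0] using ha (a⁻¹ * b)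
  exact ⟨fun a ha => h a fun b => by simpa using ha b,
    fun a ha => h a fun b => by simpa [mul_comm] using ha b⟩

theorem s1a_dual {K F ι : Type*} [Field K] [Field F] [Algebra K F] [FiniteDimensional K F]
    [Fintype ι] {T : F →ₗ[K] K} (hT : T ≠ 0) (b : Basis ι K F) :
    ∃ b' : ι → F, ∀ f, f = ∑ i, T (f * b i) • b' i := by
  classical
  refine ⟨LinearMap.BilinForm.dualBasis _ (s1a_nondeg hT) b, fun f => ?_⟩
  conv_lhs => rw [← (LinearMap.BilinForm.dualBasis _ (s1a_nondeg hT) b).sum_repr f]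
  simp [LinearMap.BilinForm.dualBasis_repr_apply]

open MvPolynomial in
theorem s1a_poly {k σ : Type*} [Field k] (p : ℕ) [Fact p.Prime] [CharP k p] [PerfectRing k p]
    (e : ℕ) {f₀ : MvPolynomial σ k} (hf : f₀ ≠ 0) :
    ∃ Φ : MvPolynomial σ k →+ MvPolynomial σ k, (∀ a f, Φ (a ^ p ^ e * f) = a * Φ f) ∧
      Φ f₀ ≠ 0 ∧ ∀ f, p ^ e * (Φ f).totalDegree ≤ f.totalDegree := by
  classical
  obtain ⟨q, hq⟩ : ∃ q, q = p ^ e := ⟨_, rfl⟩
  have hq0 : 0 < q := hq ▸ pow_pos (Fact.out : p.Prime).pos e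
  obtain ⟨μ, hμ⟩ := ne_zero_iff.1 hf
  obtain ⟨β, hβ⟩ : ∃ β : σ →₀ ℕ, β = μ.mapRange (· % q) (by simp) := ⟨_, rfl⟩
  have hβq : ∀ i, β i < q := fun i => by rw [hβ]; exact Nat.mod_lt _ hq0
  have inj : Function.Injective fun α : σ →₀ ℕ => q • α + β := fun α α' h => by
    ext i
    have := DFunLike.congr_fun h i
    simp only [Finsupp.add_apply, Finsupp.smul_apply, smul_eq_mul, add_left_inj] at this
    exact Nat.eq_of_mul_eq_mul_left hq0 this
  obtain ⟨r, hr⟩ : ∃ r : k ≃+* k, r = (iterateFrobeniusEquiv k p e).symm := ⟨_, rfl⟩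
  have hrq : ∀ c : k, r (c ^ q) = c := fun c => by
    rw [hr, hq, ← iterateFrobeniusEquiv_def k p e c, RingEquiv.symm_apply_apply]
  have hex : ∀ f : MvPolynomial σ k, ∃ g : MvPolynomial σ k,
      ∀ α, coeff α g = r (coeff (q • α + β) f) := fun f => by
    refine ⟨∑ α ∈ f.support.preimage _ inj.injOn, monomial α (r (coeff (q • α + β) f)),
      fun α => ?_⟩
    rw [coeff_sum, Finset.sum_eq_single α]
    · simp
    · intro b _ hb; simp [coeff_monomial, hb]
    · intro h
      rw [Finset.mem_preimage, MvPolynomial.notMem_support_iff] at h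
      simp [h]
  choose g hg using hex
  let Φ : MvPolynomial σ k →+ MvPolynomial σ k := AddMonoidHom.mk' g fun f f' => by
    ext α; simp [hg]
  have hΦ : ∀ f α, coeff α (Φ f) = r (coeff (q • α + β) f) := hg
  refine ⟨Φ, fun a f => ?_, fun h => ?_, fun f => ?_⟩
  · induction a using MvPolynomial.induction_on' with
    | monomial γ c =>
      ext α
      rw [hΦ, ← hq, monomial_pow, coeff_monomial_mul', coeff_monomial_mul', hΦ]
      have hiff : q • γ ≤ q • α + β ↔ γ ≤ α := by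
        refine forall_congr' fun i => ?_
        simp only [Finsupp.add_apply, Finsupp.smul_apply, smul_eq_mul]
        have := hβq i
        constructor
        · intro h
          by_contra h'
          have h2 : q * (α i + 1) ≤ q * γ i := Nat.mul_le_mul_left q (by omega)
          rw [mul_add] at h2
          omega
        · intro h
          exact (Nat.mul_le_mul_left q h).trans (Nat.le_add_right _ _)
      by_cases h : γ ≤ α
      · have e1 : q • α + β - q • γ = q • (α - γ) + β := by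
          ext i
          have := Nat.mul_le_mul_left q (h i)
          simp only [Finsupp.add_apply, Finsupp.smul_apply, smul_eq_mul, Finsupp.tsub_apply,
            Nat.mul_sub]
          omega
        rw [if_pos (hiff.2 h), if_pos h, map_mul, hrq, e1]
      · rw [if_neg (fun h' => h (hiff.1 h')), if_neg h, map_zero]
    | add a b ha hb => rw [add_pow_char_pow, add_mul, map_add, ha, hb, add_mul]
  · have := hΦ f₀ (μ.mapRange (· / q) (by simp))
    rw [h, coeff_zero, eq_comm, map_eq_zero] at this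
    apply hμ
    rw [← this]
    congr 1
    ext i
    simp [hβ, Nat.div_add_mod]
  · rw [← hq, totalDegree, Finset.mul_sup₀]
    refine Finset.sup_le fun α hα => ?_
    have h1 : q • α + β ∈ f.support := by
      rw [MvPolynomial.mem_support_iff, hΦ] at hα
      exact MvPolynomial.mem_support_iff.2 fun h => hα (by rw [h, map_zero])
    refine le_trans ?_ (le_totalDegree h1)
    change q * α.degree ≤ (q • α + β).degree
    rw [map_add, map_nsmul, smul_eq_mul]
    exact Nat.le_add_right _ _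

theorem s1a_frac {R K : Type*} [CommRing R] [IsDomain R] [Field K] (ev : R →+* K)
    (hinj : Function.Injective ev) (hs : ∀ s, ∃ A B, B ≠ 0 ∧ s = ev A / ev B) {q : ℕ} (hq : 0 < q)
    (Φ : R →+ R) (hΦ : ∀ a f, Φ (a ^ q * f) = a * Φ f) :
    ∃ φ : K →+ K, (∀ a s, φ (a ^ q * s) = a * φ s) ∧
      ∀ A B, B ≠ 0 → φ (ev A / ev B) = ev (Φ (A * B ^ (q - 1))) / ev B := by
  obtain ⟨j, rfl⟩ : ∃ j, q = j + 1 := ⟨q - 1, by omega⟩
  simp only [Nat.add_sub_cancel]
  have hne : ∀ {B}, B ≠ 0 → ev B ≠ 0 := fun hB h => hB (hinj (by rw [h, map_zero]))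
  choose nu de hde hs using hs
  have key : ∀ A B, B ≠ 0 → ∀ s, s = ev A / ev B →
      ev (Φ (nu s * de s ^ j)) / ev (de s) = ev (Φ (A * B ^ j)) / ev B := fun A B hB s h => by
    have h1 : nu s * B = A * de s := by
      apply hinj
      rw [map_mul, map_mul, ← div_eq_div_iff (hne (hde s)) (hne hB), ← hs, h]
    rw [div_eq_div_iff (hne (hde s)) (hne hB), ← map_mul, ← map_mul, mul_comm _ B,
      mul_comm _ (de s), ← hΦ, ← hΦ]
    congr 2
    linear_combination B ^ j * de s ^ j * h1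
  let φ : K →+ K := AddMonoidHom.mk' (fun s => ev (Φ (nu s * de s ^ j)) / ev (de s)) fun s t => by
    have hB := mul_ne_zero (hde s) (hde t)
    have h1 := hne (hde s)
    have h2 := hne (hde t)
    rw [key (nu s * de t + de s * nu t) _ hB (s + t) (by
      conv_lhs => rw [hs s, hs t]
      rw [div_add_div _ _ h1 h2]; simp)]
    have : (nu s * de t + de s * nu t) * (de s * de t) ^ j
        = de t ^ (j + 1) * (nu s * de s ^ j) + de s ^ (j + 1) * (nu t * de t ^ j) := by ring
    rw [this, map_add, hΦ, hΦ]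
    simp only [map_add, map_mul]
    field_simp
  have hφ : ∀ A B, B ≠ 0 → φ (ev A / ev B) = ev (Φ (A * B ^ j)) / ev B := fun A B hB =>
    key A B hB _ rfl
  refine ⟨φ, fun a s => ?_, hφ⟩
  have h1 := hne (hde s)
  have h2 := hne (hde a)
  have e1 : a ^ (j + 1) * s = ev (nu a ^ (j + 1) * nu s) / ev (de a ^ (j + 1) * de s) := by
    conv_lhs => rw [hs a, hs s]
    simp only [map_mul, map_pow, div_pow, div_mul_div_comm]
  have e2 : nu a ^ (j + 1) * nu s * (de a ^ (j + 1) * de s) ^ j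
      = (nu a * de a ^ j) ^ (j + 1) * (nu s * de s ^ j) := by ring
  rw [e1, hφ _ _ (mul_ne_zero (pow_ne_zero _ (hde a)) (hde s)), e2, hΦ]
  conv_rhs => rw [hs a, hs s, hφ _ _ (hde s)]
  simp only [map_mul, map_pow]
  field_simp
  ring

end aux

variable {k F : Type u} [Field k] [IsAlgClosed k] [Field F] [Algebra k F] (p : ℕ) [Fact p.Prime]
  [CharP k p] [CharP F p] {n : ℕ} {x : Fin (n + 2) → F}

/-- transposition of a `q⁻¹`-linear map along a nonzero linear form -/
theorem transpose {K F : Type*} [Field K] [Field F] [Algebra K F] [FiniteDimensional K F]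
    [CharP F p] (e : ℕ) {T : F →ₗ[K] K} (hT : T ≠ 0) (φ : F →+ K)
    (hφ : ∀ (c : K) s, φ (algebraMap K F c ^ p ^ e * s) = c * φ s) :
    ∃ ψ : F →+ F, (∀ c s, ψ (c ^ p ^ e * s) = c * ψ s) ∧
      ∀ s s', T (ψ s * s') = φ (s * s' ^ p ^ e) := by
  have hB := s1a_nondeg hT
  have hex : ∀ s : F, ∃ a : F, ∀ s', T (a * s') = φ (s * s' ^ p ^ e) := fun s => by
    let l : F →ₗ[K] K :=
      { toFun := fun s' => φ (s * s' ^ p ^ e)
        map_add' := fun a b => by rw [add_pow_char_pow, mul_add, map_add]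
        map_smul' := fun c a => by
          rw [Algebra.smul_def, mul_pow, mul_left_comm, hφ]; rfl }
    exact ⟨(LinearMap.BilinForm.toDual _ hB).symm l, fun s' =>
      LinearMap.BilinForm.apply_toDual_symm_apply (hB := hB) l s'⟩
  choose g hg using hex
  have uniq : ∀ a b : F, (∀ s', T (a * s') = T (b * s')) → a = b := fun a b h =>
    sub_eq_zero.1 (hB.1 _ fun s' => by simp [h])
  refine ⟨AddMonoidHom.mk' g fun s t => uniq _ _ fun s' => ?_, fun c s => uniq _ _ fun s' => ?_, hg⟩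
  · rw [hg, add_mul, add_mul, map_add, map_add, hg, hg]
  · rw [AddMonoidHom.mk'_apply, hg, mul_comm c, mul_assoc (g s), hg]
    congr 1; ring

/-- the Cartier type operators on the rational function field -/
theorem exists_phi (hx : Model k x) (e : ℕ) {c : K0 k x} (hc : c ≠ 0) :
    ∃ φ : K0 k x →+ K0 k x, (∀ a s, φ (a ^ p ^ e * s) = a * φ s) ∧ φ c ≠ 0 ∧
      ∀ V, IsPD k x V → ∀ s : K0 k x, (s : F) ∈ V → (φ s : F) ∈ V := by
  let ev : MvPolynomial (Fin (n + 1)) k →ₐ[k] K0 k x := MvPolynomial.aeval fun i =>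
    ⟨x i.succ, IntermediateField.subset_adjoin _ _ ⟨_, rfl⟩⟩
  have hev : ∀ a, (ev a : F) = MvPolynomial.aeval (fun i : Fin (n + 1) => x i.succ) a := fun a => by
    have : (K0 k x).val.comp ev = MvPolynomial.aeval (fun i : Fin (n + 1) => x i.succ) := by
      ext i; simp [ev]
    exact DFunLike.congr_fun this a
  have hinj : Function.Injective ev := fun a b h => hx.indep (by rw [← hev, ← hev, h])
  have hs : ∀ s : K0 k x, ∃ A B, B ≠ 0 ∧ s = ev A / ev B := fun s => by
    obtain ⟨A, B, hB, h⟩ := hx.mem_K0.1 s.2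
    exact ⟨A, B, hB, Subtype.ext (by rw [h]; push_cast; rw [hev, hev])⟩
  have hne : ∀ {B}, B ≠ 0 → ev B ≠ 0 := fun hB h => hB (hinj (by rw [h, map_zero]))
  have hq : 0 < p ^ e := pow_pos (Fact.out : p.Prime).pos e
  obtain ⟨A₀, B₀, hB₀, hc₀⟩ := hs c
  have hA₀ : A₀ ≠ 0 := by rintro rfl; simp [hc₀] at hc
  obtain ⟨Φ, h1, h2, h3⟩ := s1a_poly p e (mul_ne_zero hA₀ (pow_ne_zero (p ^ e - 1) hB₀))
  obtain ⟨φ, g1, g2⟩ := s1a_frac ev.toRingHom hinj hs hq Φ h1
  replace g2 : ∀ A B, B ≠ 0 → φ (ev A / ev B) = ev (Φ (A * B ^ (p ^ e - 1))) / ev B := g2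
  refine ⟨φ, g1, ?_, fun V hV s hsV => ?_⟩
  · rw [hc₀, g2 _ _ hB₀]
    exact div_ne_zero (hne h2) (hne hB₀)
  obtain ⟨A', B', hB', hs'⟩ := hs s
  obtain ⟨A, B, C, hrel, rfl, rfl⟩ := UniqueFactorizationMonoid.exists_reduced_factors' A' B' hB'
  have hB := right_ne_zero_of_mul hB'
  rw [map_mul, map_mul, mul_div_mul_left _ _ (hne (left_ne_zero_of_mul hB'))] at hs'
  have hBF : (ev B : F) ≠ 0 := by exact_mod_cast hne hB
  rw [hs'] at hsV ⊢
  rw [g2 _ _ hB]
  push_cast at hsV ⊢
  rw [← V.valuation_le_one_iff, map_div₀, div_le_one₀ (by simpa [zero_lt_iff] using hBF)] at hsV ⊢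
  simp only [hev] at hsV hBF ⊢
  rcases hV.cases hx with ⟨π, hπ, h⟩ | ⟨h0, h⟩
  · have hvB : V.valuation (MvPolynomial.aeval (fun i : Fin (n + 1) => x i.succ) B) = 1 := by
      refine le_antisymm ((V.valuation_le_one_iff _).2 (h B).1) (not_lt.1 fun hlt => ?_)
      exact hπ.not_isUnit (hrel ((h A).2.1 (hsV.trans_lt hlt)) ((h B).2.1 hlt))
    rw [hvB]
    exact (V.valuation_le_one_iff _).2 (h _).1
  · have hx1 : V.valuation (x 1) ≠ 0 := by simpa using hx.ne_zero 1
    have hw : 1 < V.valuation (x 1) := by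
      rwa [map_inv₀, inv_lt_one₀ (zero_lt_iff.2 hx1)] at h0
    have hval : ∀ a : MvPolynomial (Fin (n + 1)) k, a ≠ 0 →
        V.valuation (MvPolynomial.aeval (fun i : Fin (n + 1) => x i.succ) a)
          = V.valuation (x 1) ^ a.totalDegree := fun a ha => by
      have := h a ha
      rwa [map_div₀, map_pow, div_eq_one_iff_eq (pow_ne_zero _ hx1)] at this
    by_cases hz : Φ (A * B ^ (p ^ e - 1)) = 0
    · simp [hz]
    have hA : A ≠ 0 := by rintro rfl; simp at hz
    rw [hval _ hA, hval _ hB, pow_le_pow_iff_right₀ hw] at hsV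
    rw [hval _ hz, hval _ hB, pow_le_pow_iff_right₀ hw]
    have d1 := (h3 (A * B ^ (p ^ e - 1))).trans ((MvPolynomial.totalDegree_mul _ _).trans
      (add_le_add hsV (MvPolynomial.totalDegree_pow _ _)))
    refine Nat.le_of_mul_le_mul_left (d1.trans (le_of_eq ?_)) hq
    obtain ⟨j, hj⟩ : ∃ j, p ^ e = j + 1 := ⟨p ^ e - 1, by omega⟩
    rw [hj, Nat.add_sub_cancel]; ring

include p in
theorem exists_theta (hx : Model k x) : ∃ θ : F →ₗ[K0 k x] K0 k x, θ ≠ 0 ∧ ∀ V, IsPD k x V →
    ∀ s, (∀ V', IsPD k x V' → SameBase k x V V' → s ∈ V') → (θ s : F) ∈ V := by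
  have := hx.fin
  have : CharP (K0 k x) p := (algebraMap (K0 k x) F).charP (algebraMap (K0 k x) F).injective p
  obtain ⟨S, hS⟩ : ∃ S, S = separableClosure (K0 k x) F := ⟨_, rfl⟩
  have : CharP S p := (algebraMap S F).charP (algebraMap S F).injective p
  have : IsPurelyInseparable S F := hS ▸ separableClosure.isPurelyInseparable _ _
  have : Algebra.IsSeparable (K0 k x) S := hS ▸ separableClosure.isSeparable _ _
  have : FiniteDimensional S F := Module.Finite.of_restrictScalars_finite (K0 k x) S F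
  obtain ⟨e, he⟩ : ∃ e, e = IsPurelyInseparable.exponent S F := ⟨_, rfl⟩
  obtain ⟨fr, hfr⟩ : ∃ fr : F →+* S, ∀ a, algebraMap S F (fr a) = a ^ p ^ e :=
    ⟨IsPurelyInseparable.iterateFrobenius S F p he.ge,
      IsPurelyInseparable.algebraMap_iterateFrobenius _ _ _⟩
  have hfr' : ∀ t : S, fr (algebraMap S F t) = t ^ p ^ e := fun t =>
    (algebraMap S F).injective (by rw [hfr, map_pow])
  obtain ⟨t, ht⟩ : ∃ t : S, Algebra.trace (K0 k x) S (t ^ p ^ e) ≠ 0 := by
    by_contra h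
    push Not at h
    apply Algebra.trace_ne_zero (K0 k x) S
    refine LinearMap.ext_on_range (Field.span_map_pow_expChar_pow_eq_top_of_isSeparable p e
      (v := fun t : S => t) (by simp)) fun t => by simp [h t]
  obtain ⟨φ, h1, h2, h3⟩ := exists_phi p hx e ht
  let θ : F →ₗ[K0 k x] K0 k x :=
    { toFun := fun s => φ (Algebra.trace (K0 k x) S (fr s))
      map_add' := fun a b => by simp only [map_add]
      map_smul' := fun c a => by
        rw [Algebra.smul_def, map_mul, IsScalarTower.algebraMap_apply (K0 k x) S F, hfr',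
          ← map_pow, ← Algebra.smul_def, map_smul, smul_eq_mul, h1]
        rfl }
  refine ⟨θ, fun h => h2 ?_, fun V hV s hs => h3 V hV _ ?_⟩
  · have := DFunLike.congr_fun h (algebraMap S F t)
    rw [← hfr']; exact this
  · rw [trace_eq_finrank_mul_minpoly_nextCoeff, IntermediateField.minpoly_eq]
    have hm := hV.minpoly_mem hx (f := s ^ p ^ e) fun V' h h' => pow_mem (hs V' h h') _
    rw [show ((fr s : S) : F) = s ^ p ^ e from hfr s]
    push_cast
    refine mul_mem (natCast_mem _ _) (neg_mem ?_)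
    unfold Polynomial.nextCoeff
    split_ifs
    · exact zero_mem _
    · exact hm _

omit [IsAlgClosed k] in
theorem s1a_x_mem (a : Fin (n + 2)) : x a ∈ K0 k x := IntermediateField.subset_adjoin _ _ ⟨_, rfl⟩

omit [IsAlgClosed k] in
theorem s1a_theta_chart {θ : F →ₗ[K0 k x] K0 k x} (hθ : ∀ V, IsPD k x V →
    ∀ s, (∀ V', IsPD k x V' → SameBase k x V V' → s ∈ V') → (θ s : F) ∈ V) {a : Fin (n + 2)}
    {f : F} (hf : ChartInt k x a f) : ChartInt k x a (θ f) := fun V hV ha =>
  hθ V hV f fun V' hV' hs => hf V' hV' fun b =>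
    (hs _ (div_mem (s1a_x_mem b) (s1a_x_mem a))).1 (ha b)

include p in
theorem finite_sec (hx : Model k x) (m : ℕ) :
    FiniteDimensional k (Submodule.span k {f | Sec k x m f}) := by
  have := hx.fin
  obtain ⟨θ, hθ0, hθ⟩ := exists_theta p hx
  obtain ⟨b, m₀, hb⟩ := exists_basis_sec hx
  obtain ⟨b', hb'⟩ := s1a_dual hθ0 b
  let l : Fin (finrank (K0 k x) F) → MvPolynomial (Fin (n + 1)) k →ₗ[k] F := fun i =>
    (LinearMap.mulRight k (b' i)).comp
      (MvPolynomial.aeval (fun i : Fin (n + 1) => x i.succ)).toLinearMap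
  refine Submodule.finiteDimensional_of_le (S₂ := ⨆ i,
    (MvPolynomial.restrictTotalDegree (Fin (n + 1)) k (m + m₀)).map (l i)) ?_
  refine Submodule.span_le.2 fun f hf => ?_
  rw [SetLike.mem_coe, hb' f]
  refine Submodule.sum_mem _ fun i _ => Submodule.mem_iSup_of_mem i ?_
  have hs : Sec k x (m + m₀) (θ (f * b i)) := fun V hV => by
    obtain ⟨a, ha, -⟩ := hV.2.2
    have h1 : Sec k x (m + m₀) (f * b i) := fun W hW => (hf W hW).mul hx (hb i W hW)
    refine ⟨a, ?_⟩
    have h2 := s1a_theta_chart hθ (h1.chartInt hx a) V hV ha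
    have e : f * b i / x a ^ (m + m₀)
        = ((⟨x a, s1a_x_mem a⟩ : K0 k x) ^ (m + m₀))⁻¹ • (f * b i) := by
      rw [div_eq_inv_mul]; rfl
    rw [e, map_smul, smul_eq_mul] at h2
    rw [div_eq_inv_mul]
    exact h2
  obtain ⟨A, hA, hA'⟩ := hs.poly hx (θ (f * b i)).2
  refine ⟨A, (MvPolynomial.mem_restrictTotalDegree _ _ _).2 hA, ?_⟩
  change MvPolynomial.aeval _ A * b' i = _
  rw [← hA']; rfl

include p in
theorem finite_chart (hx : Model k x) (a : Fin (n + 2)) : ∃ s : Finset F,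
    (∀ g ∈ s, ChartInt k x a g) ∧ ∀ f, ChartInt k x a f → f ∈ Submodule.span
      (Algebra.adjoin k (Set.range fun b => x b / x a)) (s : Set F) := by
  have := hx.fin
  obtain ⟨θ, hθ0, hθ⟩ := exists_theta p hx
  obtain ⟨b, m₀, hb⟩ := exists_basis_sec hx
  obtain ⟨b', hb'⟩ := s1a_dual hθ0 b
  have : IsNoetherianRing (Algebra.adjoin k (Set.range fun b => x b / x a)) :=
    isNoetherianRing_of_fg (Subalgebra.fg_def.2 ⟨_, Set.finite_range _, rfl⟩)
  let M : Submodule (Algebra.adjoin k (Set.range fun b => x b / x a)) F :=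
    { carrier := {f | ChartInt k x a f}
      add_mem' := fun hf hg V hV ha => add_mem (hf V hV ha) (hg V hV ha)
      zero_mem' := fun V _ _ => zero_mem _
      smul_mem' := fun c f hf V hV ha => by
        refine mul_mem ?_ (hf V hV ha)
        obtain ⟨c, hc⟩ := c
        rw [Algebra.adjoin_range_eq_range_aeval] at hc
        obtain ⟨g, rfl⟩ := hc
        exact aeval_mem hV.2.1 ha g }
  have hle : M ≤ Submodule.span _ (Set.range fun i => x a ^ m₀ * b' i) := fun f hf => by
    have h0 := pow_ne_zero m₀ (hx.ne_zero a)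
    have e : f = ∑ i, (θ (f * (b i / x a ^ m₀)) : F) * (x a ^ m₀ * b' i) := by
      have := hb' (f / x a ^ m₀)
      rw [div_eq_iff h0, Finset.sum_mul] at this
      refine this.trans (Finset.sum_congr rfl fun i _ => ?_)
      rw [div_mul_eq_mul_div, mul_div_assoc, mul_comm (x a ^ m₀), ← mul_assoc]; rfl
    rw [e]
    refine Submodule.sum_mem _ fun i _ => ?_
    have h1 : ChartInt k x a (f * (b i / x a ^ m₀)) := fun V hV ha =>
      mul_mem (hf V hV ha) ((hb i).chartInt hx a V hV ha)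
    exact Submodule.smul_mem _ (⟨_, (s1a_theta_chart hθ h1).of_K0 hx (θ _).2⟩ :
      Algebra.adjoin k (Set.range fun b => x b / x a)) (Submodule.subset_span ⟨i, rfl⟩)
  obtain ⟨s, hs⟩ := (Submodule.fg_span (Set.finite_range _)).of_le hle
  exact ⟨s, fun g hg => (hs ▸ Submodule.subset_span hg : g ∈ M), fun f hf => hs ▸ hf⟩

include p in
theorem exists_emb (hx : Model k x) :
    ∃ (N d : ℕ) (y : Fin (N + 1) → F), Emb k x d y := by
  classical
  choose s hs hs' using finite_chart p hx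
  have hd : ∀ a, ∀ g ∈ s a, ∃ d₀, ∀ d ≥ d₀, Sec k x d (g * x a ^ d) := fun a g hg =>
    (hs a g hg).sec hx
  choose! d₀ hd₀ using hd
  obtain ⟨d, hd⟩ : ∃ d, ∀ a, ∀ g ∈ s a, d₀ a g ≤ d :=
    ⟨Finset.univ.sup fun a => (s a).sup (d₀ a), fun a g hg =>
      (Finset.le_sup (f := d₀ a) hg).trans
        (Finset.le_sup (f := fun a => (s a).sup (d₀ a)) (Finset.mem_univ a))⟩
  obtain ⟨Y, hY⟩ : ∃ Y : Finset F, Y = Finset.univ.biUnion fun a =>
    (Finset.univ.image fun b => x b * x a ^ d) ∪ (s a).image fun g => g * x a ^ (d + 1) := ⟨_, rfl⟩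
  obtain ⟨y, hy⟩ : ∃ y : Fin (Y.card + 1) → F,
    y = Fin.cons 1 fun i => (Y.equivFin.symm i : F) := ⟨_, rfl⟩
  have y0 : y 0 = 1 := by rw [hy]; rfl
  have hY1 : ∀ a b, x b * x a ^ d ∈ Y := fun a b => by
    rw [hY]
    exact Finset.mem_biUnion.2 ⟨a, Finset.mem_univ _, Finset.mem_union_left _
      (Finset.mem_image_of_mem _ (Finset.mem_univ b))⟩
  have hY2 : ∀ a, ∀ g ∈ s a, g * x a ^ (d + 1) ∈ Y := fun a g hg => by
    rw [hY]
    exact Finset.mem_biUnion.2 ⟨a, Finset.mem_univ _, Finset.mem_union_right _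
      (Finset.mem_image_of_mem _ hg)⟩
  have hr : ∀ f ∈ Y, ∃ j, y j = f := fun f hf => ⟨(Y.equivFin ⟨f, hf⟩).succ, by simp [hy]⟩
  have hsY : ∀ f ∈ Y, Sec k x (d + 1) f := fun f hf => by
    rw [hY] at hf
    obtain ⟨a, -, hf⟩ := Finset.mem_biUnion.1 hf
    rcases Finset.mem_union.1 hf with hf | hf
    · obtain ⟨b, -, rfl⟩ := Finset.mem_image.1 hf
      intro V hV
      obtain ⟨c, hc, -⟩ := hV.2.2
      refine ⟨c, ?_⟩
      rw [pow_succ', mul_div_mul_comm, ← div_pow]
      exact mul_mem (hc b) (pow_mem (hc a) _)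
    · obtain ⟨g, hg, rfl⟩ := Finset.mem_image.1 hf
      exact hd₀ a g hg _ ((hd a g hg).trans (Nat.le_succ d))
  have hsec : ∀ j, Sec k x (d + 1) (y j) := fun j => by
    refine Fin.cases ?_ (fun i => ?_) j
    · have := hsY _ (hY1 0 0)
      rwa [hx.zero, one_pow, one_mul, ← y0] at this
    · rw [hy]; exact hsY _ (Y.equivFin.symm i).2
  have hadj : ∀ a j, y j = x a ^ (d + 1) → Algebra.adjoin k (Set.range fun b => x b / x a)
      ≤ Algebra.adjoin k (Set.range fun i => y i / y j) := fun a j hj => by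
    refine Algebra.adjoin_mono ?_
    rintro _ ⟨b, rfl⟩
    obtain ⟨i, hi⟩ := hr _ (hY1 a b)
    refine ⟨i, ?_⟩
    have := hx.ne_zero a
    simp only [hi, hj]
    field_simp
    ring
  have hkey : ∀ a j, y j = x a ^ (d + 1) → ∀ f, ChartInt k x a f →
      ∃ A : MvPolynomial (Fin (Y.card + 1)) k, MvPolynomial.aeval (fun i => y i / y j) A = f := by
    intro a j hj f hf
    have : f ∈ Algebra.adjoin k (Set.range fun i => y i / y j) := by
      refine Submodule.span_induction (fun g hg => ?_) (zero_mem _) (fun _ _ _ _ => add_mem)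
        (fun c g _ hg => mul_mem (hadj a j hj c.2) hg) (hs' a f hf)
      obtain ⟨i, hi⟩ := hr _ (hY2 a g hg)
      refine Algebra.subset_adjoin ⟨i, ?_⟩
      simp only [hi, hj]
      exact mul_div_cancel_right₀ _ (pow_ne_zero _ (hx.ne_zero a))
    rwa [Algebra.adjoin_range_eq_range_aeval] at this
  have hpow : ∀ a, ∃ j, y j = x a ^ (d + 1) := fun a => by
    rw [pow_succ']; exact hr _ (hY1 a a)
  refine ⟨Y.card, d + 1, y, Nat.le_add_left _ _, y0, hsec, hpow, ⟨by simp [y0],
    fun i => trivial, fun c _ => ?_⟩, fun V hV => ?_⟩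
  · have h0 : y 0 = x 0 ^ (d + 1) := by rw [y0, hx.zero, one_pow]
    obtain ⟨c', h1, h2, h3⟩ := exists_clear_chart hx 0 c
    obtain ⟨A, hA⟩ := hkey 0 0 h0 _ h3
    have := hadj 0 0 h0 h1
    rw [Algebra.adjoin_range_eq_range_aeval] at this
    obtain ⟨B, hB⟩ := this
    replace hB : MvPolynomial.aeval (fun i => y i / y 0) B = c' := hB
    exact ⟨A, B, by rw [hB]; exact (val_eq_one_iff (Or.inr rfl)).2 ⟨h2, ord_top⟩,
      by rw [hA, hB, mul_comm]⟩
  · obtain ⟨a, ha, -⟩ := hV.2.2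
    obtain ⟨j, hj⟩ := hpow a
    refine ⟨j, hj ▸ pow_ne_zero _ (hx.ne_zero a), fun i => hj ▸ (hsec i V hV).div_mem hx ha,
      fun c hc => ?_⟩
    obtain ⟨c', h1, h2, h3⟩ := hV.loc hx ha hc
    obtain ⟨A, hA⟩ := hkey a j hj _ h3
    obtain ⟨B, hB⟩ := hkey a j hj _ h2
    exact ⟨A, B, by rw [hB, h1], by rw [hA, hB, mul_comm]⟩

end Pool.Agent.Lib.MP_7fcda1_ag
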