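import Pool.Agent.Lib.MP_7fcda1_ag.Def1
import Pool.Agent.Lib.MP_7fcda1_ag.Bun2
import Pool.Agent.Lib.MP_7fcda1_ag.Key1
import Pool.Agent.Lib.MP_7fcda1_ag.S1a

open scoped IntermediateField Polynomial WithZero
open Module

noncomputable section

universe u

namespace Pool.Agent.Lib.MP_7fcda1_ag

section aux
variable {k F L : Type*} [Field k] [Field F] [Algebra k F] [Field L]

theorem def2_chain {σ : Type*} [Fintype σ] (D : Derivation k F F) (y : σ → F)
    (f : MvPolynomial σ k) :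
    D (MvPolynomial.aeval y f) = ∑ i, MvPolynomial.aeval y (MvPolynomial.pderiv i f) * D (y i) := by
  classical
  induction f using MvPolynomial.induction_on with
  | C a => simp
  | add f g hf hg => simp [hf, hg, add_mul, Finset.sum_add_distrib]
  | mul_X f i hf =>
    rw [map_mul, MvPolynomial.aeval_X, Derivation.leibniz, hf]
    simp only [Derivation.leibniz, MvPolynomial.pderiv_X, smul_eq_mul, map_add, map_mul,
      MvPolynomial.aeval_X, add_mul, Finset.sum_add_distrib, Finset.mul_sum]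
    congr 1
    · rw [Finset.sum_eq_single i]
      · simp
      · intro b _ hb
        simp [Pi.single_eq_of_ne' hb]
      · simp
    · exact Finset.sum_congr rfl fun b _ => by ring

theorem def2_ge_hom {σ : Type*} [Fintype σ] {V : ValuationSubring L} (hV : Disc V ∨ V = ⊤)
    {ψ : F →+* L} (hk : ∀ c, ψ (algebraMap k F c) ∈ V) {y : σ → F} {t : ℤ}
    (hy : ∀ i, Ge V t (ψ (y i))) {f : MvPolynomial σ k} {m : ℕ} (hf : f.IsHomogeneous m) :
    Ge V (m * t) (ψ (MvPolynomial.aeval y f)) := by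
  classical
  rw [f.as_sum, map_sum, map_sum]
  refine Ge.sum fun s hs => ?_
  rw [MvPolynomial.aeval_monomial, map_mul, Finsupp.prod_fintype _ _ (by simp), map_prod]
  have h1 : Ge V 0 (ψ (algebraMap k F (MvPolynomial.coeff s f))) := (mem_iff_ge hV).1 (hk _)
  have h2 : Ge V (∑ i, (s i : ℤ) * t) (∏ i, ψ (y i ^ s i)) :=
    Ge.prod fun i _ => by rw [map_pow]; exact (hy i).pow _
  have h3 : ∑ i, (s i : ℤ) = m := by
    have := hf (MvPolynomial.mem_support_iff.1 hs)
    rw [← this, Finsupp.weight_apply, Finsupp.sum_fintype _ _ (by simp)]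
    simp
  have := h1.mul h2
  rwa [zero_add, ← Finset.sum_mul, h3] at this

theorem def2_dψ_mul {r : ℕ} (ψ : F →+* L) (D : Fin r → Derivation k F F) (b c : F)
    (a : Fin r → L) : dψ ψ D (b * c) a = ψ b * dψ ψ D c a + ψ c * dψ ψ D b a := by
  simp only [dψ, Fintype.linearCombination_apply, Derivation.leibniz, smul_eq_mul, map_add,
    map_mul, Finset.mul_sum, ← Finset.sum_add_distrib]
  exact Finset.sum_congr rfl fun i _ => by ring

end aux

variable {k F Ω L : Type u} [Field k] [IsAlgClosed k] [Field F] [Algebra k F] {p : ℕ}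
  [Fact p.Prime] [CharP k p] [CharP F p] {n : ℕ} {x : Fin (n + 2) → F} {Φ : Frame k F (n + 1)}
  [Field Ω] [Field L] [Algebra Ω L] [IsFF Ω L] {j : F →+* L} {H : Div Ω L} {N d δ : ℕ}
  {y : Fin (N + 1) → F} {Λ : Type} [Fintype Λ] {G : Λ → MvPolynomial (Fin (N + 1)) k}

omit [IsAlgClosed k] [CharP k p] [IsFF Ω L] in
theorem def2_const (h : OnCurve k x j H) (v : Place Ω L) (c : k) : j (algebraMap k F c) ∈ v.O := by
  obtain ⟨c', hc'⟩ := h.const c
  rw [← hc']
  exact v.const c'

omit [IsAlgClosed k] [CharP k p] [IsFF Ω L] in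
theorem def2_const' (h : OnCurve k x j H) (e : ℕ) (v : Place Ω L) (c : k) :
    (j.comp (iterateFrobenius F p e)) (algebraMap k F c) ∈ v.O := by
  rw [RingHom.comp_apply, iterateFrobenius_def, map_pow]
  exact pow_mem (def2_const h v c) _

omit [IsAlgClosed k] [CharP k p] in
theorem def2_ge (hx : Model k x) (hy : Emb k x d y) (h : OnCurve k x j H) (e : ℕ) (v : Place Ω L)
    (i : Fin (N + 1)) :
    Ge v.O (-((d * p ^ e : ℕ) * H v)) ((j.comp (iterateFrobenius F p e)) (y i)) := by
  have h1 : Bd x (v.O.comap j) d (y i) := (hy.sec i).bd hx fun c => def2_const h v c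
  have h2 := (h1.ge hx v.disc (h.hge v)).pow (p ^ e)
  rw [RingHom.comp_apply, iterateFrobenius_def, map_pow]
  convert h2 using 1
  push_cast
  ring

omit [IsAlgClosed k] [CharP k p] in
theorem def2_loc (hx : Model k x) (hy : Emb k x d y) (h : OnCurve k x j H) (e : ℕ)
    (v : Place Ω L) : ∃ i₀, Loc k y i₀ (v.O.comap (j.comp (iterateFrobenius F p e))) ∧
      ord v.O ((j.comp (iterateFrobenius F p e)) (y i₀)) = -((d * p ^ e : ℕ) * H v) := by
  have h0 : ∃ i₀, Loc k y i₀ (v.O.comap (j.comp (iterateFrobenius F p e))) := by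
    rw [comap_frob]
    rcases h.cls v with h1 | h1
    · exact ⟨0, h1 ▸ hy.top⟩
    · exact hy.loc _ h1
  obtain ⟨i₀, hl⟩ := h0
  refine ⟨i₀, hl, le_antisymm ?_ ?_⟩
  · obtain ⟨a, ha⟩ := h.hex v
    obtain ⟨i, hi⟩ := hy.pow a
    have h1 : (j.comp (iterateFrobenius F p e)) (y i / y i₀) ∈ v.O := hl.2.1 i
    have hi0 : (j.comp (iterateFrobenius F p e)) (y i) ≠ 0 := by
      rw [hi]; exact (map_ne_zero _).2 (pow_ne_zero _ (hx.ne_zero a))
    have hi1 : (j.comp (iterateFrobenius F p e)) (y i₀) ≠ 0 := (map_ne_zero _).2 hl.1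
    rw [mem_iff_ge (Or.inl v.disc), map_div₀, ge_iff (div_ne_zero hi0 hi1), ord_div hi0 hi1] at h1
    have h2 : ord v.O ((j.comp (iterateFrobenius F p e)) (y i)) = -((d * p ^ e : ℕ) * H v) := by
      rw [hi, RingHom.comp_apply, iterateFrobenius_def, map_pow, map_pow, ord_pow, ord_pow, ha]
      push_cast
      ring
    omega
  · exact (ge_iff ((map_ne_zero _).2 hl.1)).1 (def2_ge hx hy h e v i₀)

include p in
omit [Fintype Λ] in
theorem def2_ker (hx : Model k x) (hΦ : Φ.Spans ⊤) (hy : Emb k x d y) (hG : Eqs y δ G)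
    (ψ : F →+* L) :
    LinearMap.ker (jacM ψ y G).mulVecLin = tcone ψ Φ.D y := by
  refine le_antisymm (fun ζ hζ => ?_) (tcone_le_ker hG ψ Φ.D)
  have hc : (⊤ : ValuationSubring L).comap ψ = ⊤ := by
    ext a; simp
  have h0 : (jacM ψ y G).mulVec ζ = 0 := hζ
  have h1 := locsurj p hG hΦ hΦ (fun a ha => pow_of_const p hx ha) (V := ⊤) (Or.inr rfl) (ψ := ψ)
    (fun c => trivial) ⟨fun _ => trivial, fun _ _ _ => trivial⟩ (j := 0) (hc ▸ hy.top) (M := 1)
    (ζ := ζ) (by rw [h0]; intro i; exact ge_zero)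
  obtain ⟨w, hw, h2⟩ := h1
  have h3 : ζ + w = 0 := by
    funext i
    rcases h2 i with h4 | h4
    · exact h4
    · simp at h4
  rw [eq_neg_of_add_eq_zero_left h3]
  exact neg_mem hw

/-- the image of the Jacobian -/
theorem def2_image (hx : Model k x) (hΦ : Φ.Spans ⊤) (hy : Emb k x d y) (hG : Eqs y δ G)
    (h : OnCurve k x j H) {c : ℕ} (hc : RR Ω L c) (e : ℕ) :
    (finrank Ω (Gam (LinearMap.range
        (jacM (j.comp (iterateFrobenius F p e)) y G).mulVecLin) ((δ * (d * p ^ e)) • H)) : ℤ) ≤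
      -sdeg Ω (tcone (j.comp (iterateFrobenius F p e)) Φ.D y) +
        finrank L (LinearMap.range (jacM (j.comp (iterateFrobenius F p e)) y G).mulVecLin) *
          ((d * p ^ e : ℕ) * degD H + c) := by
  classical
  set ψ := j.comp (iterateFrobenius F p e) with hψ
  set I := LinearMap.range (jacM ψ y G).mulVecLin with hI
  have hH := h.nonneg hx
  have hδ : ((δ - 1 : ℕ) : ℤ) = δ - 1 := by have := hG.pos; omega
  have hgen : gen I ((δ * (d * p ^ e)) • H) = I := by
    refine le_antisymm (gen_le _ _) ?_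
    rw [hI, Matrix.range_mulVecLin, Submodule.span_le]
    rintro _ ⟨i, rfl⟩
    refine Submodule.subset_span (mem_Gam.2 ⟨Submodule.subset_span ⟨i, rfl⟩, fun v l => ?_⟩)
    have h1 := def2_ge_hom (Or.inl v.disc) (def2_const' h e v) (def2_ge hx hy h e v)
      ((hG.hom l).pderiv (i := i))
    refine h1.mono ?_
    have h2 : 0 ≤ H v := hH v
    have h3 : (0 : ℤ) ≤ (d * p ^ e : ℕ) * H v := by positivity
    rw [hδ, Finsupp.smul_apply, nsmul_eq_mul]
    push_cast at h3 ⊢
    nlinarith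
  have h1 := riemann_upper hc hgen
  have h2 := sdeg_map_le (κ := Ω) (jacM ψ y G).mulVecLin LinearMap.id ⊥ (tcone ψ Φ.D y)
    (fun a => by rw [← def2_ker (p := p) hx hΦ hy hG ψ]; rfl)
    (-(((δ - 1 : ℤ) * (d * p ^ e : ℕ)) • H)) (fun v m a ha => by
      obtain ⟨i₀, hl, ho⟩ := def2_loc hx hy h e v
      have hcl : IsPD k x (v.O.comap ψ) ∨ v.O.comap ψ = ⊤ := by
        rw [hψ, comap_frob]; exact (h.cls v).symm
      obtain ⟨Ψ, hΨ, hΨ'⟩ := exists_frame p hx hcl
      have h3 := locsurj p hG hΦ hΨ (fun a ha => pow_of_const p hx ha) (Or.inl v.disc)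
        (def2_const' h e v) hΨ' hl (qge_bot.1 ha)
      rw [ho] at h3
      refine h3.mono (le_of_eq ?_) le_rfl
      simp only [Finsupp.coe_neg, Finsupp.coe_smul, Pi.neg_apply, Pi.smul_apply, smul_eq_mul]
      ring)
  rw [bot_sup_eq, LinearMap.range_id, sup_top_eq, sdeg_bot, sdeg_top, finrank_bot, map_neg,
    map_smul, ← hI, smul_eq_mul] at h2
  rw [map_nsmul, nsmul_eq_mul] at h1
  push_cast at h1 h2 ⊢
  nlinarith

/-- the dimension count on the curve -/
theorem count (hx : Model k x) (hΦ : Φ.Spans ⊤) (hy : Emb k x d y) (hG : Eqs y δ G)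
    (h : OnCurve k x j H) (hp : Pos p j Φ.D H) (b : Place Ω L)
    {A B : MvPolynomial (Fin (N + 1)) k} {a : ℕ} (hA : A.IsHomogeneous a) (hB : B.IsHomogeneous a)
    {D : Derivation k F F} (hD : MvPolynomial.aeval y B * D (MvPolynomial.aeval y A) ≠
      MvPolynomial.aeval y A * D (MvPolynomial.aeval y B)) :
    ∃ e : ℕ, finrank Ω (Gam (LinearMap.range
        (jacM (j.comp (iterateFrobenius F p e)) y G).mulVecLin) ((δ * (d * p ^ e)) • H)) +
      finrank Ω (Gam (LinearMap.ker (jacM (j.comp (iterateFrobenius F p e)) y G).mulVecLin ⊓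
        LinearMap.ker (Fintype.linearCombination L fun i => (j.comp (iterateFrobenius F p e))
          (MvPolynomial.aeval y (B * MvPolynomial.pderiv i A - A * MvPolynomial.pderiv i B))))
        ((d * p ^ e) • H)) <
      (N + 1) * finrank Ω (Ls ((d * p ^ e) • H - Finsupp.single b 1)) := by
  classical
  obtain ⟨c, hc⟩ := exists_RR Ω L
  obtain ⟨e, he⟩ := hp ((N + 1) * (2 * c + b.deg) + 1)
  refine ⟨e, ?_⟩
  have hIm := def2_image hx hΦ hy hG h hc e
  set B₀ : ℕ := (N + 1) * (2 * c + b.deg) + 1 with hB₀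
  have hrk := LinearMap.finrank_range_add_finrank_ker
    (jacM (j.comp (iterateFrobenius F p e)) y G).mulVecLin
  rw [def2_ker (p := p) hx hΦ hy hG] at hrk ⊢
  have hge := def2_ge (p := p) hx hy h e
  have hloc := def2_loc (p := p) hx hy h e
  set ψ := j.comp (iterateFrobenius F p e) with hψ
  set K := tcone ψ Φ.D y with hK
  set lam := Fintype.linearCombination L fun i => ψ
    (MvPolynomial.aeval y (B * MvPolynomial.pderiv i A - A * MvPolynomial.pderiv i B)) with hlam
  set S := K ⊓ LinearMap.ker lam with hS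
  set D₀ := (d * p ^ e) • H with hD₀
  set S' := gen S D₀ with hS'
  set dY : (Fin (n + 1) → L) →ₗ[L] (Fin (N + 1) → L) :=
    LinearMap.pi fun i => dψ ψ Φ.D (y i) with hdY
  have hD₀v : ∀ v, D₀ v = (d * p ^ e : ℕ) * H v := fun v => by
    rw [hD₀, Finsupp.smul_apply, nsmul_eq_mul]
  have hYK : (fun i => ψ (y i)) ∈ K := Submodule.mem_sup_left (Submodule.subset_span rfl)
  have hdK : ∀ t, dY t ∈ K := fun t => Submodule.mem_sup_right ⟨t, rfl⟩
  have hY : (fun i => ψ (y i)) ∈ S' := by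
    refine Submodule.subset_span (mem_Gam.2 ⟨⟨hYK, ?_⟩, fun v i => ?_⟩)
    · have e1 := congrArg (fun f => MvPolynomial.aeval y f) hA.sum_X_mul_pderiv
      have e2 := congrArg (fun f => MvPolynomial.aeval y f) hB.sum_X_mul_pderiv
      simp only [map_sum, map_mul, MvPolynomial.aeval_X, map_nsmul] at e1 e2
      have e3 : ∑ i, y i * MvPolynomial.aeval y
          (B * MvPolynomial.pderiv i A - A * MvPolynomial.pderiv i B) = 0 := by
        have : ∑ i, y i * MvPolynomial.aeval y
            (B * MvPolynomial.pderiv i A - A * MvPolynomial.pderiv i B) =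
            MvPolynomial.aeval y B * ∑ i, y i * MvPolynomial.aeval y (MvPolynomial.pderiv i A) -
            MvPolynomial.aeval y A * ∑ i, y i * MvPolynomial.aeval y (MvPolynomial.pderiv i B) := by
          simp only [map_sub, map_mul, Finset.mul_sum, ← Finset.sum_sub_distrib]
          exact Finset.sum_congr rfl fun i _ => by ring
        rw [this, e1, e2, nsmul_eq_mul, nsmul_eq_mul]
        ring
      have e4 := congrArg ψ e3
      simp only [map_sum, map_mul ψ, map_zero] at e4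
      exact e4
    · rw [hD₀v]; exact hge v i
  have hS'S : S' ≤ S := gen_le _ _
  have hlt : S' < K := by
    refine lt_of_le_of_ne (hS'S.trans inf_le_left) fun hEq => hD ?_
    have h1 : dY (fun i => ψ (D (Φ.y i))) ∈ LinearMap.ker lam :=
      (hS'S (hEq ▸ hdK _)).2
    have h2 : ∀ i, dY (fun i => ψ (D (Φ.y i))) i = ψ (D (y i)) := fun i => by
      rw [hdY, LinearMap.pi_apply, dψ_comb, ← hΦ.eq_comb Submodule.mem_top]
    rw [LinearMap.mem_ker, hlam, Fintype.linearCombination_apply] at h1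
    simp only [h2, smul_eq_mul, ← map_mul ψ, ← map_sum ψ, map_eq_zero] at h1
    rw [def2_chain D y A, def2_chain D y B, ← sub_eq_zero, ← h1]
    simp only [map_sub, map_mul, Finset.mul_sum, ← Finset.sum_sub_distrib]
    exact Finset.sum_congr rfl fun i _ => by ring
  have hr : finrank L S' < finrank L K := Submodule.finrank_lt_finrank_of_lt hlt
  set T : Set (Fin (n + 1) → L) := {a | ∀ v : Place Ω L, TGe v.O ψ Φ.D (B₀ * H v) a} with hT
  have hsup : S' ⊔ Submodule.span L (dY '' T) = K := by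
    rw [← Submodule.map_span, he, Submodule.map_top]
    refine le_antisymm (sup_le hlt.le le_sup_right) (sup_le ?_ le_sup_right)
    exact le_sup_of_le_left ((Submodule.span_singleton_le_iff_mem _ _).2 hY)
  have hq := sdeg_quot_ge (κ := Ω) S' (dY '' T) (D₀ - B₀ • H) (by
    rintro _ ⟨t, ht, rfl⟩ v
    obtain ⟨i₀, hl, ho⟩ := hloc v
    have hi1 : ψ (y i₀) ≠ 0 := (map_ne_zero _).2 hl.1
    refine ⟨-((dψ ψ Φ.D (y i₀) t / ψ (y i₀)) • fun i => ψ (y i)),
      neg_mem (Submodule.smul_mem _ _ hY), fun i => ?_⟩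
    have h1 : Ge v.O (B₀ * H v) (dψ ψ Φ.D (y i / y i₀) t) := ht v _ (hl.2.1 i)
    have h2 := (ge_ord (V := v.O) (a := ψ (y i₀))).mul h1
    have h3 := def2_dψ_mul ψ Φ.D (y i₀) (y i / y i₀) t
    rw [mul_div_cancel₀ _ hl.1, map_div₀] at h3
    convert h2 using 1
    · rw [ho, Finsupp.sub_apply, hD₀v, Finsupp.smul_apply, nsmul_eq_mul]; ring
    · simp only [hdY, Pi.add_apply, LinearMap.pi_apply, Pi.neg_apply, Pi.smul_apply, smul_eq_mul]
      rw [h3]; field_simp; ring)
  rw [hsup, map_sub, map_nsmul degD B₀, nsmul_eq_mul] at hq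
  have hu := riemann_upper hc (gen_gen S D₀)
  rw [← hS', Gam_eq_of_le le_rfl hS'S] at hu
  have hl := (hc (D₀ - Finsupp.single b 1)).1
  rw [map_sub, degD_single] at hl
  have hdeg : degD D₀ = (d * p ^ e : ℕ) * degD H := by rw [hD₀, map_nsmul, nsmul_eq_mul]
  rw [← hdeg] at hIm
  rw [finrank_fintype_fun_eq_card, Fintype.card_fin] at hrk
  have hpos := h.pos
  have hrk' : (finrank L (LinearMap.range (jacM ψ y G).mulVecLin) : ℤ) + finrank L K = N + 1 := by
    exact_mod_cast hrk
  have hr' : (finrank L S' : ℤ) + 1 ≤ finrank L K := by exact_mod_cast hr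
  have hB : (B₀ : ℤ) = (N + 1) * (2 * c + b.deg) + 1 := by rw [hB₀]; push_cast; ring
  have hB0 : (0 : ℤ) ≤ B₀ := Nat.cast_nonneg _
  have hc0 : (0 : ℤ) ≤ c := Nat.cast_nonneg _
  have h5 : (B₀ : ℤ) ≤ ((finrank L K : ℤ) - finrank L S') * (B₀ * degD H) := by
    have : (B₀ : ℤ) * 1 ≤ B₀ * degD H := mul_le_mul_of_nonneg_left (by omega) hB0
    nlinarith
  have h6 : (finrank L S' : ℤ) * c ≤ finrank L K * c := mul_le_mul_of_nonneg_right (by omega) hc0
  have h7 : ((N : ℤ) + 1) * (degD D₀ - 1 * b.deg - c) ≤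
      (N + 1) * finrank Ω (Ls (D₀ - Finsupp.single b 1)) :=
    mul_le_mul_of_nonneg_left hl (by positivity)
  zify
  have h8 : (finrank L (LinearMap.range (jacM ψ y G).mulVecLin) : ℤ) = N + 1 - finrank L K := by
    omega
  rw [h8] at hIm
  nlinarith

end Pool.Agent.Lib.MP_7fcda1_ag
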