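import Pool.Agent.Lib.MP_7fcda1_ag.Def3a
import Pool.Agent.Lib.MP_7fcda1_ag.Def1

open scoped IntermediateField Polynomial WithZero
open Module MvPolynomial

noncomputable section

universe u

namespace Pool.Agent.Lib.MP_7fcda1_ag

theorem def3_prime {Ω O L σ Λ : Type*} [Field Ω] [CommRing O] [Algebra Ω O] [Field L]
    [Algebra Ω L] [Fintype σ] (ex : O →ₐ[Ω] PowerSeries Ω) (hex : Function.Injective ex)
    (ι : O →ₐ[Ω] L) (hι : Function.Injective ι) (Gt : Λ → MvPolynomial σ O) (W : MvPolynomial σ O)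
    (hG0 : ∀ l, constantCoeff (Gt l) = 0) (hW0 : constantCoeff W = 0)
    (M : Submodule Ω (Λ → L)) [FiniteDimensional Ω M]
    (hM : ∀ l : MvPolynomial σ Ω →ₗ[Ω] Ω, (∀ P, ∀ Q ∈ Ideal.span (Set.range Gt),
      def3L O l (P * Q) = constantCoeff P * def3L O l Q) → (fun a => ι (def3L O l (Gt a))) ∈ M)
    (T : Submodule Ω (σ → Ω))
    (hT : ∀ ζ, (∀ a, def3L O (def3lin ζ) (Gt a) = 0) → def3L O (def3lin ζ) W = 0 → ζ ∈ T)
    (h : finrank Ω T + finrank Ω M < Fintype.card σ) :
    ∃ 𝔭 : Ideal (MvPolynomial σ Ω), 𝔭.IsPrime ∧ 𝔭 ≤ RingHom.ker constantCoeff ∧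
      (∀ a n, PowerSeries.coeff n (def3E ex (Gt a)) ∈ 𝔭) ∧
      ∃ n, PowerSeries.coeff n (def3E ex W) ∉ 𝔭 := by
  set I : Ideal (MvPolynomial σ Ω) :=
    Ideal.span (Set.range fun a : Λ × ℕ => PowerSeries.coeff a.2 (def3E ex (Gt a.1))) with hI
  set J : Ideal (MvPolynomial σ Ω) :=
    I ⊔ Ideal.span (Set.range fun n => PowerSeries.coeff n (def3E ex W)) with hJ
  have hgI : ∀ a n, PowerSeries.coeff n (def3E ex (Gt a)) ∈ I := fun a n =>
    Ideal.subset_span ⟨(a, n), rfl⟩
  have hIm : I ≤ RingHom.ker constantCoeff := by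
    rw [hI, Ideal.span_le]
    rintro _ ⟨a, rfl⟩
    simp [def3_cc', hG0]
  have hJm : J ≤ RingHom.ker constantCoeff := by
    refine sup_le hIm ?_
    rw [Ideal.span_le]
    rintro _ ⟨a, rfl⟩
    simp [def3_cc', hW0]
  have hsp : ∀ Q ∈ Ideal.span (Set.range Gt), ∀ n, PowerSeries.coeff n (def3E ex Q) ∈ I := by
    intro Q hQ
    rw [← def3_map_eq_zero]
    have : Ideal.span (Set.range Gt) ≤
        RingHom.ker ((PowerSeries.map (Ideal.Quotient.mk I)).comp (def3E ex)) := by
      rw [Ideal.span_le]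
      rintro _ ⟨a, rfl⟩
      exact def3_map_eq_zero.2 (hgI a)
    exact this hQ
  obtain ⟨𝔭, h1, h2, h3, h4⟩ := krull I J le_sup_left hJm (finrank Ω M) (fun l hl => by
    have hw : ∀ i, (fun a => ι (def3L O (l i) (Gt a))) ∈ M := fun i =>
      hM _ fun P Q hQ => def3L_mul ex hex (hl i) P (hsp Q hQ)
    have hnl : ¬LinearIndependent Ω fun i => (⟨_, hw i⟩ : M) := fun hli => by
      have := hli.fintype_card_le_finrank
      simp at this
    obtain ⟨c, hc, i₀, hi₀⟩ := Fintype.not_linearIndependent_iff.1 hnl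
    refine ⟨c, fun h0 => hi₀ (by simp [h0]), ?_⟩
    have hc' : ∀ a, ∑ i, c i • def3L O (l i) (Gt a) = 0 := fun a => by
      apply hι
      have := congrFun (congrArg Subtype.val hc) a
      simpa using this
    have hgen : ∀ a n, ∑ i, c i * l i (PowerSeries.coeff n (def3E ex (Gt a))) = 0 := fun a n => by
      have := congrArg (fun z => PowerSeries.coeff n (ex z)) (hc' a)
      simpa [def3_coeff] using this
    intro f hf
    induction hf using Submodule.span_induction with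
    | mem f hf => obtain ⟨a, rfl⟩ := hf; exact hgen _ _
    | zero => simp
    | add f g _ _ hf hg => simp [mul_add, Finset.sum_add_distrib, hf, hg]
    | smul r f hfI hf =>
      have e1 : ∀ i, l i (r • f) = constantCoeff r * l i f := fun i => by
        have e2 : r • f = (r - C (constantCoeff r)) * f + constantCoeff r • f := by
          rw [smul_eq_C_mul, smul_eq_mul]; ring
        rw [e2, map_add, hl i _ (Ideal.mul_mem_mul (by simp) hfI), zero_add, map_smul, smul_eq_mul]
      simp only [e1, mul_left_comm _ (constantCoeff r), ← Finset.mul_sum, hf, mul_zero]) T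
    (fun ζ hζ => hT ζ (fun a => hex (by
        ext n
        rw [def3_coeff, def3lin_apply, hζ _ (le_sup_left (a := I) (hgI a n)), map_zero, map_zero]))
      (hex (by
        ext n
        rw [def3_coeff, def3lin_apply, hζ _ (Ideal.mem_sup_right (Ideal.subset_span ⟨n, rfl⟩)),
          map_zero, map_zero]))) h
  refine ⟨𝔭, h1, h3, fun a n => h2 (hgI a n), ?_⟩
  by_contra hn
  push Not at hn
  refine h4 (sup_le h2 ?_)
  rw [Ideal.span_le]
  rintro _ ⟨n, rfl⟩
  exact hn n

theorem def3_hom_scale {k B τ : Type*} [CommRing k] [CommRing B] [Fintype τ] (c : k →+* B)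
    (η : τ → B) (u : B) {f : MvPolynomial τ k} {m : ℕ} (hf : f.IsHomogeneous m) :
    eval₂Hom c (fun i => η i * u) f = eval₂Hom c η f * u ^ m := by
  classical
  rw [f.as_sum, map_sum, map_sum, Finset.sum_mul]
  refine Finset.sum_congr rfl fun s hs => ?_
  have h3 : ∑ i, s i = m := by
    have := hf (MvPolynomial.mem_support_iff.1 hs)
    rw [← this, Finsupp.weight_apply, Finsupp.sum_fintype _ _ (by simp)]
    simp
  rw [eval₂Hom_monomial, eval₂Hom_monomial, Finsupp.prod_fintype _ _ (by simp),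
    Finsupp.prod_fintype _ _ (by simp), ← h3, ← Finset.prod_pow_eq_pow_sum, mul_assoc,
    ← Finset.prod_mul_distrib]
  simp only [mul_pow]

theorem def3_lift {k F B R : Type u} [Field k] [Field F] [Algebra k F] [CommRing B] [CommRing R]
    {N δ : ℕ} {y : Fin (N + 1) → F} {Λ : Type} {G : Λ → MvPolynomial (Fin (N + 1)) k}
    (hG : Eqs y δ G) (h₀ : y 0 = 1) (hl : Loc k y 0 ⊤) (θ : MvPolynomial (Fin (N + 1)) k →+* B)
    (hθ : ∀ l, θ (G l) = 0) (π : B →+* R) (hπ : ∀ b, IsUnit (π b) → IsUnit b) (ρ : F →+* R)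
    (hρ : ∀ f, π (θ f) = ρ (aeval y f)) :
    ∃ S : F →+* B, (∀ c, S (algebraMap k F c) = θ (C c)) ∧ (∀ a, π (S a) = ρ a) ∧
      ∀ (m : ℕ) (f : MvPolynomial (Fin (N + 1)) k), f.IsHomogeneous m →
        S (aeval y f) * θ (X 0) ^ m = θ f := by
  obtain ⟨u, hu⟩ : IsUnit (θ (X 0)) := hπ _ (by rw [hρ, aeval_X, h₀, map_one]; exact isUnit_one)
  have hπu : π (u⁻¹ : Bˣ) = 1 := by
    have h1 : π u = 1 := by rw [hu, hρ, aeval_X, h₀, map_one]
    have h2 := congrArg π u.mul_inv
    rwa [map_mul, h1, one_mul, map_one] at h2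
  set θ' : MvPolynomial (Fin (N + 1)) k →+* B :=
    eval₂Hom (θ.comp C) fun i => θ (X i) * (u⁻¹ : Bˣ) with hθ'
  have hθe : eval₂Hom (θ.comp C) (fun i => θ (X i)) = θ :=
    MvPolynomial.ringHom_ext (fun c => by simp) fun i => by simp
  have hsc : ∀ (m : ℕ) (f : MvPolynomial (Fin (N + 1)) k), f.IsHomogeneous m →
      θ' f = θ f * (u⁻¹ : Bˣ) ^ m := fun m f hf => by
    rw [hθ', def3_hom_scale _ _ _ hf, hθe]
  have hπθ : ∀ f, π (θ' f) = ρ (aeval y f) := fun f => by
    have : π.comp θ' = π.comp θ := MvPolynomial.ringHom_ext (fun c => by simp [hθ'])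
      fun i => by simp [hθ', hπu]
    rw [← hρ]
    exact congrArg (fun φ => φ f) this
  have hy : (fun i => y i / y 0) = y := by funext i; rw [h₀, div_one]
  let φ : MvPolynomial (Fin (N + 1)) k →ₐ[k] F := aeval y
  have hker : RingHom.ker (φ.rangeRestrict : _ →+* φ.range) ≤ RingHom.ker θ' := by
    intro f hf
    have h1 : aeval (fun i => y i / y 0) f = 0 := by
      rw [hy]; exact congrArg Subtype.val hf
    have h2 := hG.chart (j := 0) (by rw [h₀]; exact one_ne_zero) h1
    refine (sup_le ?_ ?_ : _ ≤ RingHom.ker θ') h2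
    · rw [Ideal.span_le]
      rintro _ ⟨l, rfl⟩
      simp [hsc δ _ (hG.hom l), hθ]
    · rw [Ideal.span_le]
      rintro _ rfl
      simp [hθ', ← hu]
  let S₁ : φ.range →+* B := RingHom.liftOfSurjective (φ.rangeRestrict : _ →+* φ.range)
    φ.rangeRestrict_surjective ⟨θ', hker⟩
  have hS₁ : ∀ f, S₁ (φ.rangeRestrict f) = θ' f := fun f =>
    RingHom.liftOfRightInverse_comp_apply _ _ _ _ _
  have hfr : ∀ z : F, ∃ a b, aeval y b ≠ 0 ∧ z * aeval y b = aeval y a := fun z => by
    obtain ⟨a, b, h1, h2⟩ := hl.2.2 z trivial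
    rw [hy] at h1 h2
    exact ⟨a, b, fun h => by simp [h] at h1, h2⟩
  have : IsFractionRing φ.range F := IsFractionRing.of_field _ _ fun z => by
    obtain ⟨a, b, h1, h2⟩ := hfr z
    exact ⟨φ.rangeRestrict a, φ.rangeRestrict b, (eq_div_iff h1).2 h2⟩
  have hun : ∀ z : nonZeroDivisors φ.range, IsUnit (S₁ z) := by
    rintro ⟨z, hz⟩
    obtain ⟨f, rfl⟩ := φ.rangeRestrict_surjective z
    refine hπ _ ?_
    rw [hS₁, hπθ]
    refine (IsUnit.mk0 _ fun h => nonZeroDivisors.ne_zero hz ?_).map ρ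
    exact Subtype.ext h
  have hS : ∀ f, IsLocalization.lift (S := F) hun (aeval y f) = θ' f := fun f => by
    rw [← hS₁]
    exact IsLocalization.lift_eq hun (φ.rangeRestrict f)
  refine ⟨IsLocalization.lift (S := F) hun, fun c => ?_, fun z => ?_, fun m f hf => ?_⟩
  · have := hS (C c)
    rw [aeval_C] at this
    rw [this, hθ']
    simp
  · obtain ⟨a, b, h1, h2⟩ := hfr z
    have h3 := congrArg (fun w => π (IsLocalization.lift (S := F) hun w)) h2
    simp only [map_mul, hS, hπθ] at h3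
    rw [← h2, map_mul] at h3
    exact ((IsUnit.mk0 _ h1).map ρ).mul_right_cancel h3
  · rw [hS, hsc m f hf, ← hu, mul_assoc, ← mul_pow, Units.inv_mul, one_pow, mul_one]

end Pool.Agent.Lib.MP_7fcda1_ag
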