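import Pool.Agent.Lib.MP_7fcda1_ag.Def2
import Pool.Agent.Lib.MP_7fcda1_ag.Def3b
import Pool.Agent.Lib.MP_7fcda1_ag.Arc

open scoped IntermediateField Polynomial WithZero
open Module

noncomputable section

universe u

namespace Pool.Agent.Lib.MP_7fcda1_ag

open MvPolynomial

/-- the deformed coordinates -/
def def3Y {O : Type*} [CommRing O] {ι τ : Type*} [Fintype τ] (y : ι → O) (s : τ → O) (i : ι) :
    MvPolynomial (ι × τ) O := C (y i) + ∑ α, C (s α) * X (i, α)

/-- substitution of the deformed coordinates -/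
def def3ev {k F O : Type*} [Field k] [Field F] [Algebra k F] [CommRing O] {ι τ : Type*}
    [Fintype τ] (ψ : F →+* O) (y : ι → F) (s : τ → O) :
    MvPolynomial ι k →+* MvPolynomial (ι × τ) O :=
  eval₂Hom (C.comp (ψ.comp (algebraMap k F))) (def3Y (fun i => ψ (y i)) s)

theorem def3ev_cc {k F O : Type*} [Field k] [Field F] [Algebra k F] [CommRing O] {ι τ : Type*}
    [Fintype τ] (ψ : F →+* O) (y : ι → F) (s : τ → O) (f : MvPolynomial ι k) :
    constantCoeff (def3ev ψ y s f) = ψ (aeval y f) := by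
  have : constantCoeff.comp (def3ev (k := k) ψ y s) =
      ψ.comp (aeval y : MvPolynomial ι k →ₐ[k] F) :=
    MvPolynomial.ringHom_ext (fun c => by simp [def3ev]) fun i => by simp [def3ev, def3Y]
  exact congrArg (fun φ => φ f) this

theorem def3ev_lin {k F O Ω : Type*} [Field k] [Field F] [Algebra k F] [CommRing O] [Field Ω]
    [Algebra Ω O] {ι τ : Type*} [Fintype ι] [Fintype τ] (ψ : F →+* O) (y : ι → F) (s : τ → O)
    (ζ : ι × τ → Ω) (f : MvPolynomial ι k) :
    def3L O (def3lin ζ) (def3ev ψ y s f) =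
      ∑ i, ψ (aeval y (pderiv i f)) * ∑ α, ζ (i, α) • s α := by
  rw [def3_chain ζ _ (fun c => by simp [def3ev, def3L_lin_C])]
  refine Finset.sum_congr rfl fun i _ => ?_
  rw [def3ev_cc]
  congr 1
  simp only [def3ev, def3Y, eval₂Hom_X', map_add, map_sum, def3L_lin_C, zero_add, def3L_lin_mul,
    def3L_lin_X, constantCoeff_C, mul_zero, add_zero, Algebra.smul_def]
  exact Finset.sum_congr rfl fun _ _ => mul_comm _ _

variable {k F Ω L : Type u} [Field k] [IsAlgClosed k] [Field F] [Algebra k F] {p : ℕ}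
  [Fact p.Prime] [CharP k p] [CharP F p] {n : ℕ} {x : Fin (n + 2) → F} {Φ : Frame k F (n + 1)}
  [Field Ω] [IsAlgClosed Ω] [Field L] [Algebra Ω L] [IsFF Ω L] {j : F →+* L} {H : Div Ω L}

omit [IsAlgClosed Ω] in
theorem def3_family {N d δ : ℕ} {y : Fin (N + 1) → F} {Λ : Type} [Fintype Λ]
    {G : Λ → MvPolynomial (Fin (N + 1)) k} (hx : Model k x) (hΦ : Φ.Spans ⊤) (hy : Emb k x d y)
    (hG : Eqs y δ G) (h : OnCurve k x j H) (hp : Pos p j Φ.D H) (b : Place Ω L)
    (hb : b.O.comap j = ⊤) (ex : b.O →ₐ[Ω] PowerSeries Ω) (hex : Function.Injective ex)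
    {A B : MvPolynomial (Fin (N + 1)) k} {a : ℕ} (hA : A.IsHomogeneous a) (hB : B.IsHomogeneous a)
    {D : Derivation k F F} (hD : aeval y B * D (aeval y A) ≠ aeval y A * D (aeval y B)) :
    ∃ (ψ : F →+* b.O) (m : ℕ) (s : Fin m → b.O) (𝔭 : Ideal (MvPolynomial (Fin (N + 1) × Fin m) Ω)),
      (∀ c, ψ (algebraMap k F c) ∈ (algebraMap Ω b.O).range) ∧ (∀ α, Ge b.O 1 (s α : L)) ∧
      𝔭.IsPrime ∧ 𝔭 ≤ RingHom.ker constantCoeff ∧
      (∀ l i, PowerSeries.coeff i (def3E ex (def3ev ψ y s (G l))) ∈ 𝔭) ∧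
      ∃ i, PowerSeries.coeff i (def3E ex (def3ev ψ y s A * C (ψ (aeval y B)) -
        def3ev ψ y s B * C (ψ (aeval y A)))) ∉ 𝔭 := by
  classical
  obtain ⟨e, hcount⟩ := count hx hΦ hy hG h hp b hA hB hD
  have hge := def2_ge (p := p) hx hy h e
  have hconst := def2_const' (p := p) h e
  have hmem : ∀ a, (j.comp (iterateFrobenius F p e)) a ∈ b.O := fun a => by
    have : a ∈ b.O.comap (j.comp (iterateFrobenius F p e)) := by
      rw [comap_frob, hb]; trivial
    exact this
  have hcr : ∀ c, (j.comp (iterateFrobenius F p e)) (algebraMap k F c) ∈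
      (algebraMap Ω L).range := fun c => by
    rw [RingHom.comp_apply, iterateFrobenius_def, map_pow]
    exact pow_mem (h.const c) _
  set ψ := j.comp (iterateFrobenius F p e) with hψ
  set D₀ := (d * p ^ e) • H with hD₀
  have hD₀v : ∀ v, D₀ v = (d * p ^ e : ℕ) * H v := fun v => by
    rw [hD₀, Finsupp.smul_apply, nsmul_eq_mul]
  have hHb : H b = 0 := by
    obtain ⟨a, ha⟩ := h.hex b
    rw [ord_of_comap_top hb] at ha
    omega
  let ψO : F →+* b.O := ψ.codRestrict b.O hmem
  let ι : b.O →ₐ[Ω] L := { b.O.subtype with commutes' := fun _ => rfl }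
  have hι : ∀ z, ι z = (z : L) := fun _ => rfl
  have hιψ : ∀ z, ι (ψO z) = ψ z := fun _ => rfl
  set m := finrank Ω (Ls (D₀ - Finsupp.single b 1)) with hm
  let bs := Module.finBasis Ω (Ls (D₀ - Finsupp.single b 1))
  have hs : ∀ α (v : Place Ω L), Ge v.O (-(D₀ - Finsupp.single b 1 : Div Ω L) v) (bs α : L) :=
    fun α => mem_Ls.1 (bs α).2
  have hs1 : ∀ α, Ge b.O 1 (bs α : L) := fun α => by
    have := hs α b
    rwa [Finsupp.sub_apply, hD₀v, hHb, Finsupp.single_eq_same, mul_zero, zero_sub, neg_neg] at this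
  have hs2 : ∀ α (v : Place Ω L), Ge v.O (-((d * p ^ e : ℕ) * H v)) (bs α : L) := fun α v => by
    refine (hs α v).mono ?_
    rw [Finsupp.sub_apply, hD₀v, Finsupp.single_apply]
    split_ifs <;> omega
  let s : Fin m → b.O := fun α =>
    ⟨bs α, (mem_iff_ge (Or.inl b.disc)).2 ((hs1 α).mono zero_le_one)⟩
  let Z : (Fin (N + 1) × Fin m → Ω) →ₗ[Ω] (Fin (N + 1) → L) :=
    LinearMap.pi fun i => ∑ α, (LinearMap.proj (i, α)).smulRight (bs α : L)
  have hZ : ∀ ζ i, Z ζ i = ∑ α, ζ (i, α) • (bs α : L) := fun ζ i => by simp [Z]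
  have hZi : Function.Injective Z := by
    rw [injective_iff_map_eq_zero]
    intro ζ hζ
    funext ⟨i, α⟩
    have h1 : ∑ α, ζ (i, α) • bs α = 0 := by
      apply Subtype.ext
      have := congrFun hζ i
      rw [hZ] at this
      simpa using this
    exact Fintype.linearIndependent_iff.1 bs.linearIndependent _ h1 α
  have hlin : ∀ ζ (f : MvPolynomial (Fin (N + 1)) k), ι (def3L b.O (def3lin ζ) (def3ev ψO y s f)) =
      ∑ i, ψ (aeval y (pderiv i f)) * Z ζ i := fun ζ f => by
    rw [def3ev_lin, map_sum]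
    refine Finset.sum_congr rfl fun i _ => ?_
    rw [map_mul, map_sum, hZ]
    simp only [map_smul]
    rfl
  obtain ⟨𝔭, h1, h2, h3, h4⟩ := def3_prime ex hex ι Subtype.val_injective
    (fun l => def3ev ψO y s (G l))
    (def3ev ψO y s A * C (ψO (aeval y B)) - def3ev ψO y s B * C (ψO (aeval y A)))
    (fun l => by rw [def3ev_cc, hG.zero, map_zero])
    (by simp [def3ev_cc, mul_comm])
    (Gam (LinearMap.range (jacM ψ y G).mulVecLin) ((δ * (d * p ^ e)) • H))
    (fun l hl => mem_Gam.2 ⟨by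
      obtain ⟨ζ, hζ⟩ := conormal hG hy.zero hy.top ψ
        ((ι : b.O →+* L).toAddMonoidHom.comp ((def3L b.O l).toAddMonoidHom.comp
          (def3ev ψO y s).toAddMonoidHom)) (fun a g hg => by
            have hg' : def3ev ψO y s g ∈ Ideal.span (Set.range fun l => def3ev ψO y s (G l)) := by
              have := Ideal.mem_map_of_mem (def3ev ψO y s) hg
              rwa [Ideal.map_span, ← Set.range_comp] at this
            change ι (def3L b.O l (def3ev ψO y s (a * g))) =
              ψ (aeval y a) * ι (def3L b.O l (def3ev ψO y s g))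
            rw [map_mul, hl _ _ hg', map_mul, def3ev_cc, hιψ])
      exact ⟨ζ, funext fun a => (hζ a).symm⟩, fun v a => by
        have h5 : PGe v.O (ι : b.O →+* L) (δ * -((d * p ^ e : ℕ) * H v)) (def3ev ψO y s (G a)) :=
          pge_hom _ (fun c => by
            rw [def3ev, eval₂Hom_C]
            exact pge_monomial (ι := (ι : b.O →+* L)) (c := ψO (algebraMap k F c))
              ((mem_iff_ge (Or.inl v.disc)).1 (hconst v c)) 0) (fun i => by
            rw [def3ev, eval₂Hom_X', def3Y]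
            refine PGe.add (pge_monomial (ι := (ι : b.O →+* L)) (c := ψO (y i)) (hge v i) 0)
              (PGe.sum fun α _ => ?_)
            rw [C_mul_X_eq_monomial]
            exact pge_monomial (hs2 α v) _) (hG.hom a)
        beta_reduce
        rw [def3L_eq, map_sum]
        refine Ge.sum fun α _ => ?_
        rw [map_smul]
        refine v.ge_smul ((h5 α).mono (le_of_eq ?_)) _
        rw [Finsupp.smul_apply, nsmul_eq_mul]
        push_cast
        ring⟩)
    ((Gam (LinearMap.ker (jacM ψ y G).mulVecLin ⊓ LinearMap.ker (Fintype.linearCombination L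
      fun i => ψ (aeval y (B * pderiv i A - A * pderiv i B)))) D₀).comap Z)
    (fun ζ hζ hW => mem_Gam.2 ⟨⟨by
      change (jacM ψ y G).mulVec (Z ζ) = 0
      funext l
      have := hlin ζ (G l)
      rw [hζ, map_zero] at this
      exact this.symm, by
      change Fintype.linearCombination L _ (Z ζ) = 0
      have h5 := congrArg ι hW
      rw [map_sub, def3L_lin_mul, def3L_lin_mul, def3L_lin_C, def3L_lin_C] at h5
      simp only [constantCoeff_C, mul_zero, zero_add, map_sub, map_mul, hlin, hιψ, map_zero] at h5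
      rw [Fintype.linearCombination_apply, ← h5]
      simp only [map_sub, map_mul, smul_eq_mul, Finset.mul_sum, ← Finset.sum_sub_distrib]
      exact Finset.sum_congr rfl fun i _ => by ring⟩, fun v i => by
      rw [hZ, hD₀v]
      exact Ge.sum fun α _ => v.ge_smul (hs2 α v) _⟩)
    (by
      have h5 := Submodule.finrank_mono (Submodule.map_comap_le Z
        (Gam (LinearMap.ker (jacM ψ y G).mulVecLin ⊓ LinearMap.ker (Fintype.linearCombination L
          fun i => ψ (aeval y (B * pderiv i A - A * pderiv i B)))) D₀))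
      rw [← (Submodule.equivMapOfInjective Z hZi _).finrank_eq] at h5
      rw [Fintype.card_prod, Fintype.card_fin, Fintype.card_fin]
      omega)
  refine ⟨ψO, m, s, 𝔭, fun c => ?_, hs1, h1, h2, h3, h4⟩
  obtain ⟨c', hc'⟩ := hcr c
  exact ⟨c', Subtype.ext hc'⟩

theorem def3_trans {Ω R : Type*} [Field Ω] [IsAlgClosed Ω] [CommRing R] [IsDomain R] [Algebra Ω R]
    (ε : R →ₐ[Ω] Ω) {r : R} (h : r ≠ algebraMap Ω R (ε r)) : Transcendental Ω r := fun ha => by
  have hi := ha.isIntegral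
  obtain ⟨c, hc⟩ := minpoly.mem_range_of_degree_eq_one Ω r
    (IsAlgClosed.degree_eq_one_of_irreducible Ω (minpoly.irreducible hi))
  apply h
  rw [← hc, AlgHom.commutes]
  rfl

theorem def3_finCoeff {Ω O k F ι τ R : Type*} [Field Ω] [CommRing O] [Algebra Ω O] [Field k]
    [Field F] [Algebra k F] [Fintype ι] [Fintype τ] [CommRing R] [Algebra Ω R]
    (ex : O →ₐ[Ω] PowerSeries Ω) (ψ : F →+* O) (y : ι → F) (s : τ → O)
    (π : MvPolynomial (ι × τ) Ω →ₐ[Ω] R) (i : ι) :
    FinCoeff Ω (PowerSeries.map (π : MvPolynomial (ι × τ) Ω →+* R)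
      (def3E ex (def3ev (k := k) ψ y s (X i)))) := by
  classical
  refine ⟨insert 1 (Finset.univ.image fun α => π (X (i, α))), fun m => ?_⟩
  simp only [def3ev, def3Y, eval₂Hom_X', map_add, map_sum, map_mul, def3E_C, def3E_X,
    PowerSeries.coeff_map, PowerSeries.map_C, PowerSeries.coeff_mul_C, RingHom.coe_coe,
    algHom_C]
  refine add_mem ?_ (sum_mem fun α _ => ?_)
  · rw [Algebra.algebraMap_eq_smul_one]
    exact Submodule.smul_mem _ _ (Submodule.subset_span (by simp))
  · rw [← Algebra.smul_def]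
    exact Submodule.smul_mem _ _ (Submodule.subset_span (by simp))

/-- a deformation fixing a generic point and moving a given function -/
theorem deform (hx : Model k x) (hΦ : Φ.Spans ⊤) (h : OnCurve k x j H) (hp : Pos p j Φ.D H)
    {b : Place Ω L} (hb : b.O.comap j = ⊤) {g : F} {D : Derivation k F F} (hD : D g ≠ 0) (e : ℕ) :
    ∃ (R : Type u) (_ : CommRing R) (_ : IsDomain R) (_ : Algebra Ω R) (_ : Algebra.FiniteType Ω R)
      (x₀ : F →+* Ω) (S : F →+* PowerSeries R), Germs k x₀ S ∧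
        ∃ i, Transcendental Ω (PowerSeries.coeff i (S (g ^ p ^ e))) := by
  classical
  obtain ⟨N, d, y, hy⟩ := exists_emb p hx
  obtain ⟨δ, Λ, _, G, hG⟩ := exists_eqs (k := k) y
  have hy0 : (fun i => y i / y 0) = y := by funext i; rw [hy.zero, div_one]
  have hfr : ∀ z : F, ∃ a b : MvPolynomial (Fin (N + 1)) k,
      aeval y b ≠ 0 ∧ z * aeval y b = aeval y a := fun z => by
    obtain ⟨a, b, h1, h2⟩ := hy.top.2.2 z trivial
    rw [hy0] at h1 h2
    exact ⟨a, b, fun h => by simp [h] at h1, h2⟩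
  have hhom : ∀ (f : MvPolynomial (Fin (N + 1)) k) (a : ℕ), f.totalDegree ≤ a →
      ∃ f' : MvPolynomial (Fin (N + 1)) k, f'.IsHomogeneous a ∧ aeval y f' = aeval y f := by
    intro f a ha
    obtain ⟨f', h1, h2⟩ := exists_homog 0 f ha
    obtain ⟨c, hc⟩ := Ideal.mem_span_singleton'.1 h2
    refine ⟨f', h1, ?_⟩
    rw [← sub_eq_zero, ← map_sub, ← hc]
    simp [hy.zero]
  obtain ⟨A₀, B₀, hB₀, hg⟩ := hfr g
  obtain ⟨A, hA, hA'⟩ := hhom A₀ _ (le_max_left _ B₀.totalDegree)
  obtain ⟨B, hB, hB'⟩ := hhom B₀ _ (le_max_right A₀.totalDegree _)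
  rw [← hB'] at hB₀ hg
  rw [← hA'] at hg
  have hD' : aeval y B * D (aeval y A) ≠ aeval y A * D (aeval y B) := fun h0 => by
    rw [← hg, Derivation.leibniz, smul_eq_mul, smul_eq_mul] at h0
    have : aeval y B * aeval y B * D g = 0 := by linear_combination h0
    simp [hB₀, hD] at this
  obtain ⟨ex, hex, hex0⟩ := expand b b.disc fun a ha => b.exists_res ha
  obtain ⟨ψ, m, s, 𝔭, hψc, hs, h𝔭, h𝔭m, hG𝔭, i₀, hW⟩ :=
    def3_family hx hΦ hy hG h hp b hb ex hex hA hB hD'
  let R := MvPolynomial (Fin (N + 1) × Fin m) Ω ⧸ 𝔭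
  let π : MvPolynomial (Fin (N + 1) × Fin m) Ω →ₐ[Ω] R := Ideal.Quotient.mkₐ Ω 𝔭
  let ε : R →ₐ[Ω] Ω := Ideal.Quotient.liftₐ 𝔭 (aeval fun _ => 0) fun a ha => by
    rw [aeval_zero']; exact h𝔭m ha
  have hεπ : (ε : R →+* Ω).comp (π : MvPolynomial (Fin (N + 1) × Fin m) Ω →+* R) =
      constantCoeff := by
    refine MvPolynomial.ringHom_ext (fun c => ?_) fun i => ?_
    · simp
    · rw [constantCoeff_X]
      exact aeval_X (R := Ω) (fun _ => (0 : Ω)) i
  let x₀ : F →+* Ω := PowerSeries.constantCoeff.comp ((ex : b.O →+* PowerSeries Ω).comp ψ)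
  let E : MvPolynomial (Fin (N + 1) × Fin m) b.O →+* PowerSeries R :=
    (PowerSeries.map (π : _ →+* R)).comp (def3E ex)
  have hEC : ∀ c, E (C c) = PowerSeries.map (algebraMap Ω R) (ex c) := fun c => by
    ext i
    simp [E]
  have hεE : ∀ Q, PowerSeries.map (ε : R →+* Ω) (E Q) = ex (constantCoeff Q) := fun Q => by
    rw [← def3_cc, ← hεπ, PowerSeries.map_comp]
    rfl
  let θ : MvPolynomial (Fin (N + 1)) k →+* PowerSeries R := E.comp (def3ev ψ y s)
  have hθC : ∀ c, θ (C c) = PowerSeries.C (algebraMap Ω R (x₀ (algebraMap k F c))) := fun c => by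
    obtain ⟨c', hc'⟩ := hψc c
    have h1 : def3ev ψ y s (C c) = C (algebraMap Ω b.O c') := by simp [def3ev, hc']
    have h2 : ex (algebraMap Ω b.O c') = PowerSeries.C c' := ex.commutes c'
    simp only [θ, x₀, RingHom.comp_apply, h1, hEC, ← hc', RingHom.coe_coe, h2, PowerSeries.map_C,
      PowerSeries.constantCoeff_C]
  have hρ : ∀ f, PowerSeries.constantCoeff (θ f) = ((algebraMap Ω R).comp x₀) (aeval y f) := by
    have : PowerSeries.constantCoeff.comp θ =
        ((algebraMap Ω R).comp x₀).comp (aeval y : MvPolynomial _ k →ₐ[k] F) := by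
      refine MvPolynomial.ringHom_ext (fun c => by simp [hθC]) fun i => ?_
      have h1 : ∀ α, PowerSeries.constantCoeff (ex (s α)) = 0 := fun α => (hex0 _).2 (hs α)
      have h2 : ∀ z : PowerSeries Ω, PowerSeries.constantCoeff
          (PowerSeries.map (algebraMap Ω R) z) = algebraMap Ω R (PowerSeries.constantCoeff z) :=
        fun _ => rfl
      simp [θ, def3ev, def3Y, hEC, h1, h2, x₀]
    exact fun f => congrArg (fun φ => φ f) this
  obtain ⟨S, hS1, hS2, hS3⟩ := def3_lift hG hy.zero hy.top θ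
    (fun l => def3_map_eq_zero.2 (hG𝔭 l)) PowerSeries.constantCoeff
    (fun _ hb => PowerSeries.isUnit_iff_constantCoeff.2 hb) _ hρ
  have hu : IsUnit (θ (X 0)) := PowerSeries.isUnit_iff_constantCoeff.2 (by
    rw [hρ, aeval_X, hy.zero, map_one]; exact isUnit_one)
  refine ⟨R, inferInstance, inferInstance, inferInstance, inferInstance, x₀, S,
    germs_of_gen (T := Set.range y) hS2 (fun c => by rw [hS1, hθC]) ?_ ?_, ?_⟩
  · rw [eq_top_iff]
    intro z _
    obtain ⟨a, b, h1, h2⟩ := hfr z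
    rw [(eq_div_iff h1).2 h2]
    exact (IntermediateField.mem_adjoin_range_iff k y _).2 ⟨a, b, rfl⟩
  · rintro _ ⟨i, rfl⟩
    refine ⟨θ (X i), θ (X 0), def3_finCoeff ex ψ y s π i, def3_finCoeff ex ψ y s π 0, hu, ?_⟩
    have := hS3 1 _ (isHomogeneous_X k i)
    rwa [aeval_X, pow_one] at this
  · have hεθ : ∀ f, PowerSeries.map (ε : R →+* Ω) (θ f) = ex (ψ (aeval y f)) := fun f => by
      rw [← def3ev_cc ψ y s, ← hεE]; rfl
    have hSg : S g * θ B = θ A := by
      rw [← hS3 _ _ hA, ← hS3 _ _ hB, ← hg, map_mul, mul_assoc]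
    have hβ : ex (ψ (aeval y B)) ≠ 0 := by
      rw [map_ne_zero_iff _ hex]; exact (map_ne_zero _).2 hB₀
    have hεg : PowerSeries.map (ε : R →+* Ω) (S g) = ex (ψ g) := by
      have h1 := congrArg (PowerSeries.map (ε : R →+* Ω)) hSg
      rw [map_mul, hεθ, hεθ, ← hg, map_mul, map_mul] at h1
      exact mul_right_cancel₀ hβ h1
    have hne : S g ≠ PowerSeries.map (algebraMap Ω R) (ex (ψ g)) := fun h0 => by
      refine hW (def3_map_eq_zero.1 ?_ i₀)
      change E _ = 0
      rw [map_sub, map_mul, map_mul, hEC, hEC, ← hg, map_mul, map_mul, map_mul, ← h0]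
      change θ A * _ - θ B * _ = 0
      rw [← hSg]
      ring
    have : CharP (PowerSeries R) p := charP_of_injective_ringHom S.injective p
    have hne' : S (g ^ p ^ e) ≠ PowerSeries.map (algebraMap Ω R)
        (PowerSeries.map (ε : R →+* Ω) (S (g ^ p ^ e))) := fun h0 => by
      rw [map_pow, map_pow, map_pow, hεg, ← sub_eq_zero, ← sub_pow_char_pow] at h0
      exact hne (sub_eq_zero.1 (pow_eq_zero_iff (pow_ne_zero _ (Fact.out : p.Prime).ne_zero) |>.1 h0))
    rw [Ne, PowerSeries.ext_iff] at hne'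
    push Not at hne'
    obtain ⟨i, hi⟩ := hne'
    rw [PowerSeries.coeff_map, PowerSeries.coeff_map] at hi
    exact ⟨i, def3_trans ε hi⟩

end Pool.Agent.Lib.MP_7fcda1_ag
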