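import Mathlib

open AlgebraicGeometry CategoryTheory Order

noncomputable section

universe u

namespace Pool.Agent.Lib.MP_7fcda1_ag

attribute [local instance] MvPolynomial.gradedAlgebra

variable {k : Type u} [Field k]

/-- `X` is a closed subscheme of a projective space over `k`. -/
def IsProjective {X : Scheme.{u}} (s : X ⟶ Spec (.of k)) : Prop :=
  ∃ (n : ℕ) (ι : X ⟶ Proj (MvPolynomial.homogeneousSubmodule (Fin (n + 1)) k)),
    IsClosedImmersion ι ∧
      ι ≫ Proj.toSpecZero _ ≫ Spec.map (CommRingCat.ofHom (algebraMap k _)) = s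

/-- The closure of the point `c` is a rational curve: its function field, the residue field at
`c`, is isomorphic over `k` to the field of rational functions in one variable. -/
def IsRationalCurve {X : Scheme.{u}} (s : X ⟶ Spec (.of k)) (c : X) : Prop :=
  ∃ e : X.residueField c ≅ CommRingCat.of (RatFunc k),
    Spec.map e.hom ≫ X.fromSpecResidueField c ≫ s =
      Spec.map (CommRingCat.ofHom (algebraMap k (RatFunc k)))

/-- Two distinct closed points lie on a connected finite union of rational curves. -/
def IsRCC {X : Scheme.{u}} (s : X ⟶ Spec (.of k)) : Prop :=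
  ∀ x y : X, IsClosed {x} → IsClosed {y} → x ≠ y → ∃ S : Set X, S.Finite ∧
    (∀ c ∈ S, IsRationalCurve s c) ∧ _root_.IsConnected (closure S) ∧ x ∈ closure S ∧ y ∈ closure S

variable (X : Scheme.{u}) [IsIntegral X] [IsLocallyNoetherian X]

/-- Prime divisors: points of codimension one. -/
abbrev PrimeDiv : Type u := {E : X // coheight E = 1}

variable {X}

/-- Sections of the structure sheaf over a nonempty open set, as rational functions. -/
def Reg (U : X.Opens) [Nonempty U] : Set X.functionField := Set.range (X.germToFunctionField U)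

/-- Sections of `O_X(D)` over a nonempty open set. -/
def Sect (D : PrimeDiv X →₀ ℤ) (U : X.Opens) : Set X.functionField :=
  {f | f = 0 ∨ ∀ E : PrimeDiv X, E.1 ∈ U → 0 ≤ X.ord f E.1 + D E}

variable (X) in
/-- Global F-regularity: for every effective Weil divisor `D` there are `e ≥ 1` and a morphism of
`O_X`-modules `φ : F^e_* O_X(D) → O_X` whose composite with `O_X → F^e_* O_X(D)`,
`a ↦ a ^ p ^ e`, is the identity. -/
def IsGFR (p : ℕ) : Prop :=
  ∀ D : PrimeDiv X →₀ ℤ, 0 ≤ D → ∃ e : ℕ, 1 ≤ e ∧
    ∃ φ : X.Opens → X.functionField → X.functionField, ∀ (U : X.Opens) [Nonempty U],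
      (∀ f ∈ Sect D U, φ U f ∈ Reg U ∧ (∀ g ∈ Sect D U, φ U (f + g) = φ U f + φ U g) ∧
        (∀ a ∈ Reg U, φ U (a ^ p ^ e * f) = a * φ U f) ∧
        ∀ (V : X.Opens) [Nonempty V], V ≤ U → φ V f = φ U f) ∧
      ∀ a ∈ Reg U, φ U (a ^ p ^ e) = a

end Pool.Agent.Lib.MP_7fcda1_ag
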