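import Pool.Agent.Lib.MP_7fcda1_ag.Iface

/-! Monomial bases over the subfield of `q`-th powers. -/

open scoped IntermediateField Polynomial
open Module

noncomputable section

namespace Pool.Agent.Lib.MP_7fcda1_ag

namespace PB

/-- The monomials with exponents below `q`. -/
def mon {R : Type*} [CommMonoid R] {r : ℕ} (q : ℕ) (y : Fin r → R) (α : Fin r → Fin q) : R :=
  ∏ i, y i ^ (α i : ℕ)

theorem map_mon {R S G : Type*} [CommMonoid R] [CommMonoid S] [FunLike G R S]
    [MonoidHomClass G R S] (f : G) {r q : ℕ} (y : Fin r → R) (α : Fin r → Fin q) :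
    f (mon q y α) = mon q (fun i => f (y i)) α := by
  simp only [mon, map_prod, map_pow]

theorem mon_cons {R : Type*} [CommMonoid R] {r q : ℕ} (a : R) (y : Fin r → R) (i : Fin q)
    (α : Fin r → Fin q) :
    mon q (Fin.cons a y : Fin (r + 1) → R) (Fin.cons i α) = a ^ (i : ℕ) * mon q y α := by
  simp only [mon, Fin.prod_univ_succ, Fin.cons_zero, Fin.cons_succ]

theorem prod_pow_eq {R : Type*} [CommMonoid R] {r q : ℕ} (hq : 0 < q) (y : Fin r → R)
    (m : Fin r → ℕ) : ∏ i, y i ^ m i =
      (∏ i, y i ^ (m i / q)) ^ q * mon q y fun i => ⟨m i % q, Nat.mod_lt _ hq⟩ := by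
  rw [mon, ← Finset.prod_pow, ← Finset.prod_mul_distrib]
  refine Finset.prod_congr rfl fun i _ => ?_
  rw [← pow_mul, ← pow_add, Nat.div_add_mod']

section field

variable {F : Type*} [Field F] {C : Subfield F} {q r : ℕ}

theorem prod_pow_mem (hq : 0 < q) (hC : ∀ b : F, b ^ q ∈ C) (y : Fin r → F) (m : Fin r → ℕ) :
    ∏ i, y i ^ m i ∈ Submodule.span C (Set.range (mon q y)) := by
  rw [prod_pow_eq hq]
  exact Submodule.smul_mem _ (⟨_, hC _⟩ : C) (Submodule.subset_span ⟨_, rfl⟩)

theorem aeval_mem_span {k : Type*} [Field k] [Algebra k F] (hq : 0 < q) (hC : ∀ b : F, b ^ q ∈ C)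
    (hk : ∀ c : k, algebraMap k F c ∈ C) (y : Fin r → F) (f : MvPolynomial (Fin r) k) :
    MvPolynomial.aeval y f ∈ Submodule.span C (Set.range (mon q y)) := by
  rw [MvPolynomial.aeval_def, MvPolynomial.eval₂_eq']
  exact Submodule.sum_mem _ fun m _ =>
    Submodule.smul_mem _ (⟨_, hk _⟩ : C) (prod_pow_mem hq hC y m)

end field

theorem poly_indep {k : Type*} [Field k] (p : ℕ) [Fact p.Prime] [CharP k p] (e : ℕ) {r : ℕ}
    (a : (Fin r → Fin (p ^ e)) → MvPolynomial (Fin r) k)
    (h : ∑ α, a α ^ p ^ e * mon (p ^ e) MvPolynomial.X α = 0) (α : Fin r → Fin (p ^ e)) :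
    a α = 0 := by
  classical
  have hq : 0 < p ^ e := pow_pos (Fact.out : p.Prime).pos e
  let s : (Fin r → Fin (p ^ e)) → (Fin r →₀ ℕ) := fun γ =>
    Finsupp.equivFunOnFinite.symm fun i => (γ i : ℕ)
  have hs : ∀ γ i, s γ i = γ i := fun γ i => rfl
  have hm : ∀ γ, mon (p ^ e) (MvPolynomial.X : Fin r → MvPolynomial (Fin r) k) γ =
      MvPolynomial.monomial (s γ) 1 := fun γ => by
    rw [MvPolynomial.monomial_eq, map_one, one_mul, Finsupp.prod_fintype _ _ (by simp)]
    rfl
  ext β
  have h1 := congrArg (MvPolynomial.coeff (p ^ e • β + s α)) h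
  rw [MvPolynomial.coeff_sum, Finset.sum_eq_single α, hm, MvPolynomial.coeff_mul_monomial, mul_one,
    ← MvPolynomial.map_iterateFrobenius_expand, MvPolynomial.coeff_map,
    MvPolynomial.coeff_expand_smul _ hq.ne', MvPolynomial.coeff_zero, map_eq_zero] at h1
  · exact h1
  · intro γ _ hγ
    rw [hm, MvPolynomial.coeff_mul_monomial']
    split_ifs with h2
    · obtain ⟨i, hi⟩ := Function.ne_iff.1 hγ
      rw [← MvPolynomial.map_iterateFrobenius_expand, MvPolynomial.coeff_map,
        MvPolynomial.coeff_expand_of_not_dvd (i := i), map_zero, zero_mul]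
      rintro ⟨c, hc⟩
      have h3 := h2 i
      simp only [Finsupp.coe_tsub, Pi.sub_apply, Finsupp.coe_add, Pi.add_apply, Finsupp.coe_smul,
        Pi.smul_apply, smul_eq_mul, hs] at hc h3
      have h4 : p ^ e * β i + α i = p ^ e * c + γ i := by omega
      have h5 := congrArg (· % p ^ e) h4
      simp only [Nat.mul_add_mod, Nat.mod_eq_of_lt (α i).2, Nat.mod_eq_of_lt (γ i).2] at h5
      exact hi (Fin.ext h5.symm)
    · rfl
  · simp

section pdeg

variable {k F : Type*} [Field k] [Field F] [Algebra k F] (p : ℕ) [Fact p.Prime]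
  [CharP k p] [CharP F p]

theorem const_mem [PerfectRing k p] (e : ℕ) (c : k) :
    algebraMap k F c ∈ (iterateFrobenius F p e).fieldRange := by
  obtain ⟨d, rfl⟩ := (bijective_iterateFrobenius k p e).2 c
  exact ⟨algebraMap k F d, by simp only [iterateFrobenius_def, map_pow]⟩

theorem pdeg0 [PerfectRing k p] {j : ℕ} {z : Fin j → F} (hz : AlgebraicIndependent k z)
    (hgen : ∀ a : F, ∃ f g : MvPolynomial (Fin j) k,
      a = MvPolynomial.aeval z f / MvPolynomial.aeval z g) (e : ℕ) :
    finrank (iterateFrobenius F p e).fieldRange F = p ^ (e * j) := by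
  classical
  have hq : 0 < p ^ e := pow_pos (Fact.out : p.Prime).pos e
  have hC : ∀ b : F, b ^ p ^ e ∈ (iterateFrobenius F p e).fieldRange := fun b => ⟨b, rfl⟩
  have hg : ∀ a : F, ∃ f g : MvPolynomial (Fin j) k, MvPolynomial.aeval z g ≠ 0 ∧
      a = MvPolynomial.aeval z f / MvPolynomial.aeval z g := fun a => by
    obtain ⟨f, g, h⟩ := hgen a
    by_cases h0 : MvPolynomial.aeval z g = 0
    · exact ⟨0, 1, by simp, by rw [h, h0]; simp⟩
    · exact ⟨f, g, h0, h⟩
  have h1 : LinearIndependent (iterateFrobenius F p e).fieldRange (mon (p ^ e) z) := by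
    refine Fintype.linearIndependent_iff.2 fun c hc α => ?_
    choose d hd using fun α => (c α).2
    choose f g hg0 hfg using fun α => hg (d α)
    have hG : MvPolynomial.aeval z (∏ β, g β) ≠ 0 := by
      rw [map_prod]
      exact Finset.prod_ne_zero_iff.2 fun β _ => hg0 β
    have h2 : ∀ β, MvPolynomial.aeval z (f β * ∏ γ ∈ Finset.univ.erase β, g γ) =
        d β * MvPolynomial.aeval z (∏ β, g β) := fun β => by
      rw [← Finset.mul_prod_erase _ _ (Finset.mem_univ β), map_mul, map_mul, hfg β, ← mul_assoc,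
        div_mul_cancel₀ _ (hg0 β)]
    have h3 := poly_indep p e (fun β => f β * ∏ γ ∈ Finset.univ.erase β, g γ) (hz (by
      rw [map_zero, map_sum, ← mul_zero (MvPolynomial.aeval z (∏ β, g β) ^ p ^ e), ← hc,
        Finset.mul_sum]
      refine Finset.sum_congr rfl fun β _ => ?_
      rw [map_mul, map_pow, h2, map_mon, Subfield.smul_def, ← hd, iterateFrobenius_def, mul_pow,
        smul_eq_mul]
      simp only [MvPolynomial.aeval_X]
      ring)) α
    have h4 := h2 α
    rw [h3, map_zero] at h4
    refine Subtype.ext ?_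
    rw [← hd, (mul_eq_zero.1 h4.symm).resolve_right hG, map_zero]
    rfl
  have h2 : ⊤ ≤ Submodule.span (iterateFrobenius F p e).fieldRange (Set.range (mon (p ^ e) z)) := by
    intro a _
    obtain ⟨f, g, h0, rfl⟩ := hg a
    have h3 := Submodule.smul_mem _
      (⟨_, hC (MvPolynomial.aeval z g)⁻¹⟩ : (iterateFrobenius F p e).fieldRange)
      (aeval_mem_span hq hC (const_mem p e) z (f * g ^ (p ^ e - 1)))
    convert h3 using 1
    rw [Subfield.smul_def, smul_eq_mul, map_mul, map_pow]
    obtain ⟨t, ht⟩ : ∃ t, p ^ e = t + 1 := ⟨p ^ e - 1, by omega⟩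
    simp only [ht, Nat.add_sub_cancel, inv_pow]
    field_simp
    ring
  rw [finrank_eq_card_basis (Basis.mk h1 h2), Fintype.card_fun, Fintype.card_fin, Fintype.card_fin,
    pow_mul]

theorem pdeg1 [PerfectRing k p] {j : ℕ} {z : Fin j → F} (hz : AlgebraicIndependent k z)
    [FiniteDimensional (IntermediateField.adjoin k (Set.range z)) F] (e : ℕ) :
    finrank (iterateFrobenius F p e).fieldRange F = p ^ (e * j) := by
  set K := IntermediateField.adjoin k (Set.range z) with hK
  let z' : Fin j → K := fun i => ⟨z i, IntermediateField.subset_adjoin _ _ ⟨i, rfl⟩⟩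
  have hv : ∀ f : MvPolynomial (Fin j) k, K.val (MvPolynomial.aeval z' f) = MvPolynomial.aeval z f :=
    fun f => MvPolynomial.comp_aeval_apply z' K.val f
  have h0 := pdeg0 p (z := z') (AlgebraicIndependent.of_comp K.val hz) (fun a => by
    obtain ⟨f, g, h⟩ := (IntermediateField.mem_adjoin_range_iff k z a).1 a.2
    refine ⟨f, g, K.val.injective ?_⟩
    change K.val a = K.val _
    rw [map_div₀, hv, hv]
    exact h) e
  let φ := iterateFrobenius F p e
  have e1 : (K.toSubfield.map φ).comap K.toSubfield.subtype = (iterateFrobenius K p e).fieldRange := by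
    ext a
    constructor
    · rintro ⟨b, hb, h⟩
      exact ⟨⟨b, hb⟩, Subtype.ext h⟩
    · rintro ⟨b, rfl⟩
      exact ⟨b, b.2, rfl⟩
  have h1 : Subfield.relfinrank (K.toSubfield.map φ) K.toSubfield = p ^ (e * j) := by
    have h := Subfield.finrank_comap (K.toSubfield.map φ) K.toSubfield.subtype
    rw [Subfield.fieldRange_subtype] at h
    rw [← h, e1]
    exact h0
  have h2 := Subfield.relfinrank_mul_finrank_top
    (show K.toSubfield.map φ ≤ K.toSubfield by
      rintro _ ⟨b, hb, rfl⟩
      exact pow_mem hb _)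
  have h3 := Subfield.relfinrank_mul_finrank_top
    (show K.toSubfield.map φ ≤ (⊤ : Subfield F).map φ by
      rintro _ ⟨b, -, rfl⟩
      exact ⟨b, trivial, rfl⟩)
  rw [Subfield.relfinrank_map_map, Subfield.relfinrank_top_right, ← RingHom.fieldRange_eq_map, ← h2,
    h1, mul_comm] at h3
  exact Nat.eq_of_mul_eq_mul_right (finrank_pos (R := K) (M := F)) h3

end pdeg

section pbasis

variable {F : Type*} [Field F] {p : ℕ} [Fact p.Prime] [CharP F p] {C : Subfield F}

theorem exists_indep_mon (hC : ∀ b : F, b ^ p ∈ C) {n : ℕ} (hn : finrank C F = p ^ n) :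
    ∀ i ≤ n, ∃ w : Fin i → F, LinearIndependent C (mon p w) := by
  have hp : p.Prime := Fact.out
  intro i
  induction i with
  | zero =>
    intro _
    refine ⟨Fin.elim0, linearIndependent_unique_iff.2 ?_⟩
    simp [mon]
  | succ i ih =>
    intro hi
    obtain ⟨w, hw⟩ := ih (by omega)
    have h1 : Submodule.span C (Set.range (mon p w)) ≠ ⊤ := fun h => by
      have h2 := finrank_span_eq_card hw
      rw [h, finrank_top, hn, Fintype.card_fun, Fintype.card_fin, Fintype.card_fin] at h2
      exact absurd (Nat.pow_right_injective hp.two_le h2) (by omega)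
    obtain ⟨a, ha⟩ : ∃ a, a ∉ Submodule.span C (Set.range (mon p w)) := by
      by_contra h
      exact h1 (Submodule.eq_top_iff'.2 (by simpa using h))
    let K := IntermediateField.adjoin C (Set.range w)
    have hint : ∀ b : F, IsIntegral C b := fun b =>
      IsIntegral.of_pow hp.pos (isIntegral_algebraMap (x := (⟨b ^ p, hC b⟩ : C)))
    have haK : a ∉ K := fun h => by
      have h2 : a ∈ K.toSubalgebra := h
      rw [IntermediateField.adjoin_toSubalgebra_of_isAlgebraic fun b _ => (hint b).isAlgebraic,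
        Algebra.adjoin_range_eq_range_aeval] at h2
      obtain ⟨f, rfl⟩ := h2
      exact ha (aeval_mem_span hp.pos hC (fun c => c.2) w f)
    let t : K := algebraMap C K ⟨a ^ p, hC a⟩
    have hirr : Irreducible (Polynomial.X ^ p - Polynomial.C t : K[X]) :=
      X_pow_sub_C_irreducible_of_prime hp fun b hb => haK (by
        have h2 : (b : F) ^ p = a ^ p := congrArg Subtype.val hb
        rw [← frobenius_inj F p h2]
        exact b.2)
    have hmin : minpoly K a = Polynomial.X ^ p - Polynomial.C t :=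
      (minpoly.eq_of_irreducible_of_monic hirr (by
        rw [map_sub, map_pow, Polynomial.aeval_X, Polynomial.aeval_C]
        exact sub_self _) (Polynomial.monic_X_pow_sub_C t hp.ne_zero)).symm
    have h2 : LinearIndependent K fun l : Fin p => a ^ (l : ℕ) := by
      have h := linearIndependent_pow (K := K) a
      rwa [hmin, Polynomial.natDegree_X_pow_sub_C] at h
    let w' : Fin i → K := fun l => ⟨w l, IntermediateField.subset_adjoin _ _ ⟨l, rfl⟩⟩
    have h3 : LinearIndependent C (mon p w') := by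
      refine LinearIndependent.of_comp K.val.toLinearMap ?_
      have e : ⇑K.val.toLinearMap ∘ mon p w' = mon p w := funext fun α => map_mon K.val w' α
      rw [e]
      exact hw
    have h4 := (linearIndependent_smul h3 h2).comp
      (fun α : Fin (i + 1) → Fin p => (Fin.tail α, α 0)) fun α β h => by
        rw [← Fin.cons_self_tail α, ← Fin.cons_self_tail β,
          show Fin.tail α = Fin.tail β from (Prod.ext_iff.1 h).1,
          show α 0 = β 0 from (Prod.ext_iff.1 h).2]
    refine ⟨Fin.cons a w, ?_⟩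
    convert h4 using 1
    funext α
    conv_lhs => rw [← Fin.cons_self_tail α, mon_cons, mul_comm]
    exact congrArg (· * a ^ (α 0 : ℕ)) (map_mon K.val w' (Fin.tail α)).symm

variable {k : Type*} [Field k] [Algebra k F] {r : ℕ} {y : Fin r → F}

omit [Fact p.Prime] in
theorem der_smul (hC : ∀ c : C, ∃ b : F, b ^ p = c) (D : Derivation k F F) (c : C) (a : F) :
    D (c • a) = c • D a := by
  obtain ⟨b, hb⟩ := hC c
  rw [Subfield.smul_def, Subfield.smul_def, smul_eq_mul, ← hb, D.leibniz, D.leibniz_pow,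
    ← Nat.cast_smul_eq_nsmul F, CharP.cast_eq_zero, zero_smul, smul_zero, add_zero]

omit [Fact p.Prime] in
theorem der_sum (hC : ∀ c : C, ∃ b : F, b ^ p = c) (b : Basis (Fin r → Fin p) C F)
    (D : Derivation k F F) (a : F) : D a = ∑ α, b.repr a α • D (b α) := by
  conv_lhs => rw [← b.sum_repr a, map_sum]
  exact Finset.sum_congr rfl fun α _ => der_smul hC D _ _

omit [Fact p.Prime] in
theorem der_eq_zero (hC : ∀ c : C, ∃ b : F, b ^ p = c) (b : Basis (Fin r → Fin p) C F)
    (hb : ∀ α, b α = mon p y α) (D : Derivation k F F) (h : ∀ j, D (y j) = 0) : D = 0 := by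
  ext a
  rw [der_sum hC b, Derivation.zero_apply]
  refine Finset.sum_eq_zero fun α _ => ?_
  rw [hb, mon, Finset.prod_induction _ (fun a => D a = 0), smul_zero]
  · intro s t hs ht
    rw [D.leibniz, hs, ht, smul_zero, smul_zero, add_zero]
  · exact D.map_one_eq_zero
  · intro j _
    rw [D.leibniz_pow, h, smul_zero, smul_zero]

omit [CharP F p] in
theorem mon_single (j : Fin r) :
    mon p y (Pi.single j (⟨1, (Fact.out : p.Prime).one_lt⟩ : Fin p)) = y j := by
  classical
  rw [mon, Finset.prod_eq_single j]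
  · simp
  · intro i _ hi
    simp [Pi.single_eq_of_ne hi]
  · simp

theorem exists_der (hC : ∀ b : F, b ^ p ∈ C) (hk : ∀ c : k, algebraMap k F c ∈ C)
    (b : Basis (Fin r → Fin p) C F) (hb : ∀ α, b α = mon p y α) (j : Fin r) :
    ∃ D : Derivation k F F, ∀ α, D (b α) = (α j : ℕ) * b α / y j := by
  have hp : p.Prime := Fact.out
  let D : F →ₗ[C] F := b.constr C fun α => (α j : ℕ) * b α / y j
  have h1 : ∀ α, D (b α) = (α j : ℕ) * b α / y j := fun α => b.constr_basis C _ α
  have h2 : ∀ m : Fin r → ℕ, D (∏ i, y i ^ m i) = m j * (∏ i, y i ^ m i) / y j := fun m => by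
    rw [prod_pow_eq hp.pos, ← hb]
    have h := D.map_smul (⟨_, hC (∏ i, y i ^ (m i / p))⟩ : C)
      (b fun i => ⟨m i % p, Nat.mod_lt _ hp.pos⟩)
    rw [Subfield.smul_def, Subfield.smul_def, smul_eq_mul, smul_eq_mul, h1] at h
    rw [h]
    simp only [← CharP.cast_eq_mod F p]
    ring
  have h3 : ∀ α β, D (b α * b β) = b α * D (b β) + b β * D (b α) := fun α β => by
    have e : b α * b β = ∏ i, y i ^ ((α i : ℕ) + β i) := by
      rw [hb, hb, mon, mon, ← Finset.prod_mul_distrib]
      simp only [pow_add]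
    rw [e, h2, ← e, h1, h1]
    push_cast
    ring
  have h4 : ∀ s t, D (s * t) = s * D t + t * D s := fun s t => by
    have h5 : (LinearMap.mul C F).compr₂ D =
        (LinearMap.mul C F).compl₂ D + ((LinearMap.mul C F).compl₂ D).flip :=
      LinearMap.ext_basis b b h3
    exact LinearMap.congr_fun₂ h5 s t
  let D' : F →ₗ[k] F :=
    { toFun := D
      map_add' := D.map_add
      map_smul' := fun c a => by
        rw [RingHom.id_apply, Algebra.smul_def, Algebra.smul_def]
        exact D.map_smul (⟨_, hk c⟩ : C) a }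
  exact ⟨Derivation.mk' D' h4, h1⟩

end pbasis

end PB

end Pool.Agent.Lib.MP_7fcda1_ag
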