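import Pool.Agent.Lib.MP_7fcda1_ag.Pdv1
import Pool.Agent.Lib.MP_7fcda1_ag.PBa

open scoped IntermediateField Polynomial WithZero
open Module

noncomputable section

universe u

namespace Pool.Agent.Lib.MP_7fcda1_ag


variable {k F : Type u} [Field k] [IsAlgClosed k] [Field F] [Algebra k F] (p : ℕ) [Fact p.Prime]
  [CharP k p] [CharP F p]

theorem pdeg {j : ℕ} {z : Fin j → F} (hz : AlgebraicIndependent k z)
    [FiniteDimensional (IntermediateField.adjoin k (Set.range z)) F] (e : ℕ) :
    finrank (iterateFrobenius F p e).fieldRange F = p ^ (e * j) :=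
  PB.pdeg1 p hz e

variable {n : ℕ} {x : Fin (n + 2) → F}

theorem Model.pdeg (hx : Model k x) (e : ℕ) :
    finrank (iterateFrobenius F p e).fieldRange F = p ^ (e * (n + 1)) := by
  have h : IntermediateField.adjoin k (Set.range fun i : Fin (n + 1) => x i.succ) = K0 k x := by
    refine le_antisymm (IntermediateField.adjoin.mono _ _ _ ?_) (IntermediateField.adjoin_le_iff.2 ?_)
    · rintro _ ⟨i, rfl⟩
      exact ⟨_, rfl⟩
    · rintro _ ⟨i, rfl⟩
      refine Fin.cases ?_ (fun i => ?_) i
      · rw [hx.zero]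
        exact one_mem _
      · exact IntermediateField.subset_adjoin _ _ ⟨i, rfl⟩
  have : FiniteDimensional
      (IntermediateField.adjoin k (Set.range fun i : Fin (n + 1) => x i.succ)) F := h ▸ hx.fin
  exact Pool.Agent.Lib.MP_7fcda1_ag.pdeg p hx.indep e

namespace PB

omit [Fact p.Prime] in
theorem mem_frob {L : Type*} [Field L] [ExpChar L p] {a : L} :
    a ∈ (iterateFrobenius L p 1).fieldRange ↔ ∃ b, b ^ p = a := by
  simp only [RingHom.mem_fieldRange, iterateFrobenius_def, pow_one]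

omit [IsAlgClosed k] [CharP k p] [CharP F p] in
theorem ge_one_of_sum {V : ValuationSubring F} (hV : Disc V) {w : Fin n → V}
    [CharP (IsLocalRing.ResidueField V) p]
    (hw : LinearIndependent (iterateFrobenius (IsLocalRing.ResidueField V) p 1).fieldRange
      (mon p fun i => IsLocalRing.residue V (w i)))
    {π : F} (hπ0 : π ≠ 0) (hπ : ord V π = 1) (d : (Fin (n + 1) → Fin p) → V)
    (h : Ge V p (∑ α, (d α : F) ^ p * mon p (Fin.cons π fun i => (w i : F) : Fin (n + 1) → F) α))
    (α : Fin (n + 1) → Fin p) : Ge V 1 (d α : F) := by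
  have hp : p.Prime := Fact.out
  let s : Fin p → V := fun i => ∑ β : Fin n → Fin p, d (Fin.cons i β) ^ p * mon p w β
  have hs : ∀ i, (s i : F) =
      ∑ β : Fin n → Fin p, (d (Fin.cons i β) : F) ^ p * mon p (fun i => (w i : F)) β := fun i => by
    change V.subtype (s i) = _
    simp only [s, map_sum, map_mul, map_pow, map_mon]
    rfl
  have h1 : ∑ α, (d α : F) ^ p * mon p (Fin.cons π fun i => (w i : F) : Fin (n + 1) → F) α =
      ∑ i : Fin p, π ^ (i : ℕ) * s i := by
    rw [← (Fin.consEquiv fun _ => Fin p).sum_comp, Fintype.sum_prod_type]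
    refine Finset.sum_congr rfl fun i _ => ?_
    rw [hs, Finset.mul_sum]
    refine Finset.sum_congr rfl fun β _ => ?_
    change (d (Fin.cons i β) : F) ^ p * mon p _ (Fin.cons i β) = _
    rw [mon_cons]
    ring
  have h2 : ∀ i, Ge V 1 (s i : F) → ∀ β, Ge V 1 (d (Fin.cons i β) : F) := fun i hi β => by
    have h3 : IsLocalRing.residue V (s i) = 0 :=
      (IsLocalRing.residue_eq_zero_iff _).2
        ((V.valuation_lt_one_iff _).2 ((val_lt_one_iff (Or.inl hV)).2 hi))
    simp only [s, map_sum, map_mul, map_pow, map_mon] at h3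
    have h4 := Fintype.linearIndependent_iff.1 hw
      (fun β => ⟨IsLocalRing.residue V (d (Fin.cons i β)) ^ p, (mem_frob p).2 ⟨_, rfl⟩⟩) h3 β
    have h5 : IsLocalRing.residue V (d (Fin.cons i β)) ^ p = 0 := congrArg Subtype.val h4
    exact (val_lt_one_iff (Or.inl hV)).1 ((V.valuation_lt_one_iff _).1
      ((IsLocalRing.residue_eq_zero_iff _).1 (pow_eq_zero_iff hp.ne_zero |>.1 h5)))
  have h0 : ∀ a : V, Ge V 0 (a : F) := fun a => (mem_iff_ge (Or.inl hV)).1 a.2
  have hπi : ∀ i : ℕ, Ge V i (π ^ i) := fun i => Or.inr (by simp [hπ])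
  have h3 : ∀ i, (∀ β, Ge V 1 (d (Fin.cons i β) : F)) → Ge V p (s i : F) := fun i hi => by
    rw [hs]
    refine Ge.sum fun β _ => ?_
    have h4 := ((hi β).pow p).mul (h0 (mon p w β))
    rw [mul_one, add_zero] at h4
    have e : ((mon p w β : V) : F) = mon p (fun i => (w i : F)) β := map_mon V.subtype w β
    rwa [e] at h4
  have h4 : ∀ (l : ℕ) (i : Fin p), (i : ℕ) = l → ∀ β, Ge V 1 (d (Fin.cons i β) : F) := by
    intro l
    induction l using Nat.strong_induction_on with
    | _ l ih =>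
      intro i hi
      refine h2 i ?_
      have h5 : Ge V (i + 1 : ℕ) (∑ i' ∈ Finset.univ.erase i, π ^ (i' : ℕ) * (s i' : F)) := by
        refine Ge.sum fun i' hi' => ?_
        rcases lt_or_gt_of_ne (Finset.ne_of_mem_erase hi') with h6 | h6
        · refine ((hπi i').mul (h3 i' (ih i' (hi ▸ h6) i' rfl))).mono ?_
          have := i.2
          omega
        · refine ((hπi i').mul (h0 (s i'))).mono ?_
          have : (i : ℕ) < i' := h6
          omega
      have h6 : Ge V (i + 1 : ℕ) (π ^ (i : ℕ) * (s i : F)) := by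
        rw [h1, ← Finset.add_sum_erase _ _ (Finset.mem_univ i)] at h
        have h7 := (h.mono (show ((i + 1 : ℕ) : ℤ) ≤ p by exact_mod_cast i.2)).sub h5
        rwa [add_sub_cancel_right] at h7
      rw [ge_mul_iff (pow_ne_zero _ hπ0), ord_pow, hπ] at h6
      refine h6.mono ?_
      push_cast
      omega
  rw [← Fin.cons_self_tail α]
  exact h4 _ _ rfl _

/-- a `p`-basis adapted to a prime divisor -/
theorem exists_basis (hx : Model k x) {V : ValuationSubring F} (hV : IsPD k x V) :
    ∃ y : Fin (n + 1) → F, (∀ j, y j ∈ V) ∧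
      ∃ b : Basis (Fin (n + 1) → Fin p) (iterateFrobenius F p 1).fieldRange F,
        (∀ α, b α = mon p y α) ∧ ∀ a ∈ V, ∀ α, (b.repr a α : F) ∈ V := by
  have hp : p.Prime := Fact.out
  have hD := hV.disc hx
  obtain ⟨v, rfl⟩ : ∃ v : Place k F, v.O = V := ⟨⟨V, hV.1, hV.2.1⟩, rfl⟩
  set V := v.O with hv
  obtain ⟨z, hz, hfin⟩ := IsPD.residue hx v hV
  have : CharP (IsLocalRing.ResidueField v.O) p :=
    charP_of_injective_algebraMap (algebraMap k _).injective p
  have h1 := pdeg p hz 1
  rw [one_mul] at h1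
  obtain ⟨w0, hw0⟩ := exists_indep_mon (fun b => (mem_frob p).2 ⟨b, rfl⟩) h1 n le_rfl
  choose w hw using fun i => IsLocalRing.residue_surjective (w0 i)
  obtain rfl : w0 = fun i => IsLocalRing.residue v.O (w i) := funext fun i => (hw i).symm
  obtain ⟨π, hπ0, hπ⟩ := hD.exists_ord 1
  let y : Fin (n + 1) → F := Fin.cons π fun i => (w i : F)
  have key : ∀ c : (Fin (n + 1) → Fin p) → F, c ≠ 0 → ∃ t, t ≠ 0 ∧ (∀ α, c α / t ∈ V) ∧
      ¬Ge V p ((∑ α, c α ^ p * mon p y α) / t ^ p) := fun c hc => by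
    obtain ⟨α, h0, hα⟩ := exists_min_coord V hc
    refine ⟨c α, h0, hα, fun h => ?_⟩
    have h2 := ge_one_of_sum p (V := V) hD hw0 hπ0 hπ (fun β => ⟨c β / c α, hα β⟩) (by
      convert h using 1
      rw [Finset.sum_div]
      refine Finset.sum_congr rfl fun β _ => ?_
      rw [div_pow]
      ring) α
    simp only [div_self h0] at h2
    rw [ge_iff one_ne_zero, ord_one] at h2
    omega
  have hsum : ∀ g : (Fin (n + 1) → Fin p) → (iterateFrobenius F p 1).fieldRange,
      ∃ c : (Fin (n + 1) → Fin p) → F, (∀ α, c α ^ p = g α) ∧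
        ∑ α, g α • mon p y α = ∑ α, c α ^ p * mon p y α := fun g => by
    choose c hc using fun α => (mem_frob p).1 (g α).2
    exact ⟨c, hc, Finset.sum_congr rfl fun α _ => by rw [hc]; rfl⟩
  have hind : LinearIndependent (iterateFrobenius F p 1).fieldRange (mon p y) := by
    refine Fintype.linearIndependent_iff.2 fun g hg α => ?_
    obtain ⟨c, hc, e⟩ := hsum g
    by_cases h0 : c = 0
    · refine Subtype.ext ?_
      rw [← hc, h0, Pi.zero_apply, zero_pow hp.ne_zero]
      rfl
    · obtain ⟨t, -, -, ht⟩ := key c h0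
      rw [← e, hg, zero_div] at ht
      exact absurd ge_zero ht
  have hcard : Fintype.card (Fin (n + 1) → Fin p) =
      finrank (iterateFrobenius F p 1).fieldRange F := by
    rw [hx.pdeg p 1, one_mul, Fintype.card_fun, Fintype.card_fin, Fintype.card_fin]
  have : Nonempty (Fin (n + 1) → Fin p) := ⟨fun _ => ⟨0, hp.pos⟩⟩
  have hb : ∀ α, basisOfLinearIndependentOfCardEqFinrank hind hcard α = mon p y α := fun α => by
    rw [coe_basisOfLinearIndependentOfCardEqFinrank]
  refine ⟨y, fun j => ?_, _, hb, fun a ha α => ?_⟩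
  · refine Fin.cases ?_ (fun i => (w i).2) j
    exact (mem_iff_ge (Or.inl hD)).2 (Or.inr (show 0 ≤ ord V π by omega))
  · obtain ⟨c, hc, e⟩ := hsum ((basisOfLinearIndependentOfCardEqFinrank hind hcard).repr a)
    have e2 := (basisOfLinearIndependentOfCardEqFinrank hind hcard).sum_repr a
    simp only [hb] at e2
    rw [← hc]
    refine pow_mem ?_ _
    by_cases h0 : c = 0
    · rw [h0]
      exact zero_mem _
    obtain ⟨t, ht0, ht, h⟩ := key c h0
    rw [← e, e2] at h
    have h2 : t ∈ V := by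
      by_contra h3
      rw [mem_iff_ge (Or.inl hD), ge_iff ht0] at h3
      refine h ?_
      have h4 : Ge V 1 t⁻¹ := Or.inr (by rw [ord_inv]; omega)
      have h5 := ((mem_iff_ge (Or.inl hD)).1 ha).mul (h4.pow p)
      rwa [zero_add, mul_one, inv_pow, ← div_eq_mul_inv] at h5
    rw [← div_mul_cancel₀ (c α) ht0]
    exact mul_mem (ht α) h2

/-- the frame of a `p`-basis -/
theorem exists_frame_pd (hx : Model k x) {V : ValuationSubring F} (hV : IsPD k x V) :
    ∃ Φ : Frame k F (n + 1), Φ.Spans ⊤ ∧ Φ.Int V ∧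
      ∀ a, (∀ j, Φ.D j a = 0) → ∃ b, a = b ^ p := by
  classical
  have hp : p.Prime := Fact.out
  obtain ⟨y, hy, b, hb, hint⟩ := exists_basis p hx hV
  have hC : ∀ c : (iterateFrobenius F p 1).fieldRange, ∃ b : F, b ^ p = c :=
    fun c => (mem_frob p).1 c.2
  choose D hD using exists_der (k := k) (fun b => (mem_frob p).2 ⟨b, rfl⟩) (const_mem p 1) b hb
  have hy' : ∀ j, y j = b (Pi.single j ⟨1, hp.one_lt⟩) := fun j => by rw [hb, mon_single]
  have hy0 : ∀ j, y j ≠ 0 := fun j => hy' j ▸ b.ne_zero _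
  have hdual : ∀ i j, D i (y j) = if i = j then 1 else 0 := fun i j => by
    rw [hy' j, hD, ← hy' j]
    split_ifs with h
    · subst h
      simp [hy0 i]
    · simp [Pi.single_eq_of_ne h]
  refine ⟨⟨y, D, hdual⟩, ?_, ⟨hy, fun j a ha => ?_⟩, fun a ha => ?_⟩
  · refine Submodule.eq_top_iff'.2 fun E => ?_
    have h := der_eq_zero hC b hb (E - ∑ j, E (y j) • D j) fun i => by
      have e : (∑ j, E (y j) • D j) (y i) = ∑ j, E (y j) • D j (y i) :=
        (congrFun (map_sum (Derivation.coeFnAddMonoidHom (R := k) (A := F) (M := F))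
          (fun j => E (y j) • D j) Finset.univ) (y i)).trans (Finset.sum_apply _ _ _)
      rw [Derivation.sub_apply, e]
      simp [hdual]
    rw [sub_eq_zero.1 h]
    exact Submodule.sum_mem _ fun j _ => Submodule.smul_mem _ _ (Submodule.subset_span ⟨j, rfl⟩)
  · change D j a ∈ V
    rw [der_sum hC b]
    refine sum_mem fun α _ => mul_mem (hint a ha α) ?_
    rw [hD, hb, mon, ← Finset.mul_prod_erase _ _ (Finset.mem_univ j)]
    rcases Nat.eq_zero_or_pos (α j) with h | h
    · rw [h, Nat.cast_zero, zero_mul, zero_div]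
      exact zero_mem _
    · obtain ⟨l, hl⟩ : ∃ l, (α j : ℕ) = l + 1 := ⟨α j - 1, by omega⟩
      rw [hl, pow_succ', mul_assoc, mul_left_comm, mul_div_cancel_left₀ _ (hy0 j)]
      exact mul_mem (natCast_mem _ _) (mul_mem (pow_mem (hy j) _)
        (prod_mem fun i _ => pow_mem (hy i) _))
  · have h0 : ∀ α, α ≠ (fun _ => ⟨0, hp.pos⟩) → b.repr a α = 0 := fun α hα => by
      obtain ⟨j, hj⟩ := Function.ne_iff.1 hα
      have h1 : D j a = 0 := ha j
      rw [der_sum hC b] at h1
      have h2 := Fintype.linearIndependent_iff.1 b.linearIndependent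
        (fun β => b.repr a β * (β j : ℕ)) (by
          rw [← zero_mul (y j), ← h1, Finset.sum_mul]
          refine Finset.sum_congr rfl fun β _ => ?_
          rw [hD, Subfield.smul_def, Subfield.smul_def, smul_eq_mul, smul_eq_mul, mul_assoc,
            div_mul_cancel₀ _ (hy0 j)]
          push_cast
          ring) α
      refine (mul_eq_zero.1 h2).resolve_right fun h3 => hj (Fin.ext ?_)
      have h4 : ((α j : ℕ) : F) = 0 := by simpa using congrArg Subtype.val h3
      exact Nat.eq_zero_of_dvd_of_lt ((CharP.cast_eq_zero_iff F p _).1 h4) (α j).2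
    obtain ⟨c, hc⟩ := hC (b.repr a fun _ => ⟨0, hp.pos⟩)
    refine ⟨c, ?_⟩
    rw [hc]
    conv_lhs => rw [← b.sum_repr a]
    rw [Finset.sum_eq_single (fun _ => ⟨0, hp.pos⟩) (fun α _ hα => by rw [h0 α hα, zero_smul])
      (by simp), hb, Subfield.smul_def]
    simp [mon]

end PB

include p in
theorem exists_frame (hx : Model k x) {V : ValuationSubring F} (hV : IsPD k x V ∨ V = ⊤) :
    ∃ Φ : Frame k F (n + 1), Φ.Spans ⊤ ∧ Φ.Int V := by
  rcases hV with hV | rfl
  · obtain ⟨Φ, h1, h2, -⟩ := PB.exists_frame_pd p hx hV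
    exact ⟨Φ, h1, h2⟩
  · obtain ⟨W, hW, -⟩ := exists_pd_inf hx
    obtain ⟨Φ, h1, -, -⟩ := PB.exists_frame_pd p hx hW
    exact ⟨Φ, h1, fun _ => ValuationSubring.mem_top _, fun _ _ _ => ValuationSubring.mem_top _⟩

theorem pow_of_const (hx : Model k x) {a : F} (h : ∀ D : Derivation k F F, D a = 0) :
    ∃ b, a = b ^ p := by
  obtain ⟨W, hW, -⟩ := exists_pd_inf hx
  obtain ⟨Φ, -, -, h1⟩ := PB.exists_frame_pd p hx hW
  exact h1 a fun j => h _

end Pool.Agent.Lib.MP_7fcda1_ag
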