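import Pool.Agent.Lib.MP_7fcda1_ag.Car2
import Pool.Agent.Lib.MP_7fcda1_ag.PB

open scoped IntermediateField Polynomial WithZero
open Module

noncomputable section

universe u

namespace Pool.Agent.Lib.MP_7fcda1_ag


variable {k F : Type u} [Field k] [IsAlgClosed k] [Field F] [Algebra k F] {p : ℕ} [Fact p.Prime]
  [CharP k p] [CharP F p] {n : ℕ} {x : Fin (n + 2) → F}

omit [IsAlgClosed k] in
theorem fol_subframe {m r : ℕ} {Φ : Frame k F m} (h : Φ.Spans ⊤) {V : ValuationSubring F}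
    (hV : Φ.Int V) {E : Submodule F (Derivation k F F)} (hr : finrank F E = r) :
    ∃ Ψ : Frame k F r, Ψ.Spans E ∧ Ψ.Int V := by
  subst hr
  exact exists_subframe h hV E

omit [IsAlgClosed k] in
theorem fol_int_top {m : ℕ} (Φ : Frame k F m) : Φ.Int ⊤ :=
  ⟨fun _ => ValuationSubring.mem_top _, fun _ _ _ => ValuationSubring.mem_top _⟩

omit [IsAlgClosed k] in
theorem fol_mem {m : ℕ} {Φ : Frame k F m} {E : Submodule F (Derivation k F F)} (h : Φ.Spans E)
    (i : Fin m) : Φ.D i ∈ E := by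
  rw [← h]
  exact Submodule.subset_span ⟨i, rfl⟩

omit [IsAlgClosed k] in
theorem fol_der_sign (D : Derivation k F F) (m : ℕ) : D ((-1) ^ m) = 0 := by
  rcases neg_one_pow_eq_or F m with h | h <;> rw [h] <;> simp

omit [IsAlgClosed k] in
theorem fol_der_mul {D : Derivation k F F} {a b : F} (ha : D a = 0) (hb : D b = 0) :
    D (a * b) = 0 := by
  rw [Derivation.leibniz, ha, hb]
  simp

/-- every `p⁻¹`-linear map is a multiple of the Cartier operator -/
theorem fol_kappa (hx : Model k x) {Φ : Frame k F (n + 1)} (hΦ : Φ.Spans ⊤) {Λ : F →+ F}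
    (hΛ : PLin p Λ) : ∃ κ : F, ∀ s, Λ s ^ p = theta p Φ.D (κ * s) := by
  refine ⟨∑ α : Fin (n + 1) → Fin p, (-1) ^ (n + 1) * Λ (∏ i, Φ.y i ^ (α i : ℕ)) ^ p *
    ∏ i, Φ.y i ^ (p - 1 - α i), fun s => ?_⟩
  have hb : ∀ α : Fin (n + 1) → Fin p, ∃ b : F,
      (-1) ^ (n + 1) * theta p Φ.D (s * ∏ i, Φ.y i ^ (p - 1 - α i)) = b ^ p := fun α =>
    pow_of_const p hx fun D => fol_der_mul (fol_der_sign D _)
      (theta_const hΦ isFol_top _ D Submodule.mem_top)
  choose b hb using hb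
  have h1 : Λ s = ∑ α, b α * Λ (∏ i, Φ.y i ^ (α i : ℕ)) := by
    conv_lhs => rw [taylor hΦ (isFol_top (p := p)) s, map_sum]
    exact Finset.sum_congr rfl fun α _ => by rw [hb, hΛ]
  rw [h1, sum_pow_char, Finset.sum_mul, map_sum]
  refine Finset.sum_congr rfl fun α _ => ?_
  rw [mul_pow, ← hb, mul_assoc _ _ s, theta_mul fun i => fol_der_mul (fol_der_sign _ _)
    (der_pow _ _), mul_comm _ s]
  ring

/-- The constants of a family of derivations. -/
def folCst (E : Submodule F (Derivation k F F)) : Subfield F where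
  carrier := {a | ∀ D ∈ E, D a = 0}
  mul_mem' ha hb D hD := fol_der_mul (ha D hD) (hb D hD)
  one_mem' D _ := by simp
  add_mem' ha hb D hD := by rw [map_add, ha D hD, hb D hD, add_zero]
  zero_mem' D _ := by simp
  neg_mem' ha D hD := by rw [map_neg, ha D hD, neg_zero]
  inv_mem' a ha D hD := by rw [Derivation.leibniz_inv, ha D hD, smul_zero]

omit [IsAlgClosed k] in
theorem fol_pow_mem {L : Type*} [Field L] (W : ValuationSubring L) (a : L) :
    a ^ p ∈ W ↔ a ∈ W := by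
  rw [← W.valuation_le_one_iff, ← W.valuation_le_one_iff, map_pow,
    pow_le_one_iff (Fact.out : p.Prime).ne_zero]

/-- if the splitting generates the dual of the constants, the constants are `p`-th powers -/
theorem fol_cover (hx : Model k x) (hm : Maximal k x) {Φ : Frame k F (n + 1)} (hΦ : Φ.Spans ⊤)
    {σ : F →+ F} (hσ : PLin p σ) (h1 : σ 1 = 1)
    (hV : ∀ V, IsPD k x V → ∀ s ∈ V, σ s ∈ V) (E : Submodule F (Derivation k F F))
    (h : ∀ V, IsPD k x V → ∀ a ∈ folCst E, (∀ b ∈ folCst E, b ∈ V → σ (a * b) ∈ V) → a ∈ V)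
    {a : F} (ha : a ∈ folCst E) : ∃ b, a = b ^ p := by
  let : Algebra F (folCst E) :=
    ((frobenius F p).codRestrict (folCst E) fun a D _ => der_pow D a).toAlgebra
  let : Algebra k (folCst E) := ((algebraMap F (folCst E)).comp (algebraMap k F)).toAlgebra
  have : IsScalarTower k F (folCst E) := IsScalarTower.of_algebraMap_eq fun _ => rfl
  have hal : ∀ c : F, ((algebraMap F (folCst E) c : folCst E) : F) = c ^ p := fun _ => rfl
  have hsm : ∀ (c : F) (s : folCst E), ((c • s : folCst E) : F) = c ^ p * s := fun c s => by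
    rw [Algebra.smul_def, Subfield.coe_mul, hal]
  let T : folCst E →ₗ[F] F :=
    { toFun := fun s => σ s
      map_add' := fun s t => by rw [Subfield.coe_add, map_add]
      map_smul' := fun c s => by rw [hsm, hσ]; rfl }
  let M : folCst E →ₗ[F] (Fin (n + 1) → Fin p) → F :=
    { toFun := fun s α => σ (theta p Φ.D (s * ∏ i, Φ.y i ^ (p - 1 - α i)))
      map_add' := fun s t => by
        funext α
        rw [Subfield.coe_add, add_mul, map_add, map_add]
        rfl
      map_smul' := fun c s => by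
        funext α
        rw [hsm, mul_assoc, theta_mul fun i => der_pow _ _, hσ]
        rfl }
  have hM : Function.Injective M := by
    refine (injective_iff_map_eq_zero M).2 fun s hs => Subtype.ext ?_
    change (s : F) = 0
    rw [taylor hΦ (isFol_top (p := p)) (s : F)]
    refine Finset.sum_eq_zero fun α _ => ?_
    obtain ⟨b, hb⟩ := pow_of_const p hx fun D => theta_const hΦ (isFol_top (p := p))
      ((s : F) * ∏ i, Φ.y i ^ (p - 1 - α i)) D Submodule.mem_top
    have h2 : σ (theta p Φ.D (s * ∏ i, Φ.y i ^ (p - 1 - α i))) = 0 := congrFun hs α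
    rw [hb, ← mul_one (b ^ p), hσ, h1, mul_one] at h2
    rw [hb, h2, zero_pow (Fact.out : p.Prime).ne_zero, mul_zero, zero_mul]
  have : FiniteDimensional F (folCst E) := FiniteDimensional.of_injective M hM
  have hc : IsCover k x T := by
    refine ⟨inferInstance, h1, fun W hW a => ?_⟩
    have hW' := IsPD.comap hx hW
    have hiff : ∀ s : folCst E, (s : F) ∈ W.comap (algebraMap F (folCst E)) ↔ s ∈ W := fun s => by
      rw [ValuationSubring.mem_comap, ← fol_pow_mem (p := p) W s]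
      exact Iff.of_eq (congrArg (· ∈ W) (Subtype.ext (by rw [hal]; rfl)))
    refine ⟨fun ha b hb => ?_, fun hab => ?_⟩
    · exact ValuationSubring.mem_comap.1 (hV _ hW' _ ((hiff _).2 (W.mul_mem _ _ ha hb)))
    · exact (hiff a).1 (h _ hW' a a.2 fun b hb hb' =>
        ValuationSubring.mem_comap.2 (hab ⟨b, hb⟩ ((hiff ⟨b, hb⟩).1 hb')))
  have hf := hm (folCst E) T hc
  obtain ⟨b, hb⟩ := (finrank_eq_one_iff_of_nonzero' (1 : folCst E) one_ne_zero).1 hf ⟨a, ha⟩
  refine ⟨b, ?_⟩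
  have := congrArg (fun s : folCst E => (s : F)) hb
  simpa [hsm] using this.symm

theorem fol_rank (hx : Model k x) {r : ℕ} {Ψ : Frame k F r} {E : Submodule F (Derivation k F F)}
    (hΨ : Ψ.Spans E) (hE : IsFol p E) (h : ∀ a ∈ folCst E, ∃ b, a = b ^ p) : n + 1 ≤ r := by
  have hp := Model.pdeg p hx 1
  let v : (Fin r → Fin p) → F := fun α => ∏ i, Ψ.y i ^ (α i : ℕ)
  have ht : Submodule.span (iterateFrobenius F p 1).fieldRange (Set.range v) = ⊤ := by
    refine eq_top_iff.2 fun a _ => ?_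
    rw [taylor hΨ hE a]
    refine Submodule.sum_mem _ fun α _ => ?_
    obtain ⟨b, hb⟩ := h ((-1) ^ r * theta p Ψ.D (a * ∏ i, Ψ.y i ^ (p - 1 - α i))) fun D hD =>
      fol_der_mul (fol_der_sign D _) (theta_const hΨ hE _ D hD)
    rw [hb]
    exact Submodule.smul_mem _
      (⟨b ^ p, b, by rw [iterateFrobenius_one]; rfl⟩ : (iterateFrobenius F p 1).fieldRange)
      (Submodule.subset_span ⟨α, rfl⟩)
  have hle := finrank_range_le_card (R := (iterateFrobenius F p 1).fieldRange) v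
  rw [Set.finrank, ht, finrank_top, hp, Fintype.card_fun, Fintype.card_fin, Fintype.card_fin,
    one_mul] at hle
  exact (Nat.pow_le_pow_iff_right (Fact.out : p.Prime).one_lt).1 hle

/-- the foliation inequality -/
theorem fol (hx : Model k x) (hs : Split k p x) (hm : Maximal k x) {Φ : Frame k F (n + 1)}
    (hΦ : Φ.Spans ⊤) {r : ℕ} {D : Fin r → Derivation k F F} (hD : LinearIndependent F D)
    (hE : IsFol p (Submodule.span F (Set.range D))) :
    ∃ c : F, c ≠ 0 ∧ (∀ V, IsPD k x V → ∀ J J', IsJac V D J → IsJac V Φ.D J' →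
      c * (J' / J) ^ (p - 1) ∈ V) ∧ (r < n + 1 → ∃ V, IsPD k x V ∧
        ∀ J J', IsJac V D J → IsJac V Φ.D J' → V.valuation (c * (J' / J) ^ (p - 1)) < 1) := by
  obtain ⟨σ, hσ, h1, hV⟩ := hs
  set E := Submodule.span F (Set.range D) with hEdef
  have hr : finrank F E = r := by rw [hEdef, finrank_span_eq_card hD, Fintype.card_fin]
  have hDE : ∀ i, D i ∈ E := fun i => Submodule.subset_span ⟨i, rfl⟩
  obtain ⟨Ψ₀, hΨ₀, hI₀⟩ := fol_subframe hΦ (fol_int_top Φ) hr
  let Λ : F →+ F := σ.comp (theta p Ψ₀.D).toAddMonoidHom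
  have hΛ' : ∀ s, Λ s = σ (theta p Ψ₀.D s) := fun _ => rfl
  have hΛ : PLin p Λ := fun a s => by
    rw [hΛ', hΛ', theta_mul fun i => der_pow _ _, hσ]
  obtain ⟨κ, hκ⟩ := fol_kappa hx hΦ hΛ
  have hκ0 : κ ≠ 0 := by
    rintro rfl
    let α : Fin r → Fin p := fun _ => ⟨0, (Fact.out : p.Prime).pos⟩
    have h2 := hκ ((-1) ^ r * ((∏ i, Ψ₀.y i ^ (α i : ℕ)) * ∏ i, Ψ₀.y i ^ (p - 1 - α i)))
    rw [hΛ', theta_mul fun i => fol_der_sign _ _, theta_monomial, if_pos rfl, ← mul_pow,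
      neg_mul_neg, one_mul, one_pow, h1, one_pow, zero_mul, map_zero] at h2
    exact one_ne_zero h2
  have hJ₀ : jac D Ψ₀.y ≠ 0 := (isJac_frame hΨ₀ hI₀ hD hDE).1
  have key : ∀ V, IsPD k x V → ∃ g ∈ V, (∀ J J', IsJac V D J → IsJac V Φ.D J' →
      V.valuation (κ * jac D Ψ₀.y ^ (p - 1) * (J' / J) ^ (p - 1)) = V.valuation g) ∧
      ∀ a ∈ folCst E, (∀ b ∈ folCst E, b ∈ V → σ (a * b) ∈ V) → g * a ∈ V := by
    intro V hPD
    obtain ⟨Ψ, hΨ, hI⟩ := exists_frame p hx (Or.inl hPD)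
    obtain ⟨Ψ', hΨ', hI'⟩ := fol_subframe hΨ hI hr
    have hJ := isJac_frame hΨ' hI' hD hDE
    have hJ' := isJac_frame hΨ hI Φ.linearIndependent fun _ => Submodule.mem_top
    have hg : ∀ s, σ (theta p Ψ'.D s) ^ p = theta p Ψ.D
        (κ * jac D Ψ₀.y ^ (p - 1) * (jac Φ.D Ψ.y / jac D Ψ'.y) ^ (p - 1) * s) := fun s => by
      rw [cartier hΨ' hΨ₀ hE, ← hΛ', hκ, cartier hΦ hΨ isFol_top, jac_eq_mul hΨ' hDE Ψ₀.y]
      congr 1
      have := pow_ne_zero (p - 1) hJ.1
      rw [mul_pow, div_pow]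
      field_simp
    have hmem : ∀ a ∈ folCst E, (∀ b ∈ folCst E, b ∈ V → σ (a * b) ∈ V) →
        κ * jac D Ψ₀.y ^ (p - 1) * (jac Φ.D Ψ.y / jac D Ψ'.y) ^ (p - 1) * a ∈ V := by
      intro a ha hab
      refine mem_of_theta (p := p) hΨ isFol_top hI fun b hb => ?_
      rw [mul_assoc _ a, ← hg, theta_mul fun i => ha _ (fol_mem hΨ' i)]
      exact V.pow_mem (hab _ (theta_const hΨ' hE b) (theta_mem hI' hb)) p
    refine ⟨_, ?_, fun J J' hJ1 hJ1' => ?_, hmem⟩
    · have := hmem 1 (folCst E).one_mem fun b _ hb => hV V hPD _ (by rwa [one_mul])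
      rwa [mul_one] at this
    · have e1 := hJ1.unique hJ
      have e2 := hJ1'.unique hJ'
      rw [map_div₀, div_eq_one_iff_eq ((map_ne_zero _).2 hJ.1)] at e1
      rw [map_div₀, div_eq_one_iff_eq ((map_ne_zero _).2 hJ'.1)] at e2
      simp only [map_mul, map_pow, map_div₀, e1, e2]
  refine ⟨κ * jac D Ψ₀.y ^ (p - 1), mul_ne_zero hκ0 (pow_ne_zero _ hJ₀),
    fun V hPD J J' hJ hJ' => ?_, fun hlt => ?_⟩
  · obtain ⟨g, hg, h2, -⟩ := key V hPD
    rw [← V.valuation_le_one_iff, h2 J J' hJ hJ', V.valuation_le_one_iff]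
    exact hg
  · by_contra hcon
    refine absurd (fol_rank hx hΨ₀ hE fun a ha => fol_cover hx hm hΦ hσ h1 hV E ?_ ha)
      (not_le.2 hlt)
    intro V hPD a ha hab
    obtain ⟨g, hg, h2, h3⟩ := key V hPD
    have h4 : 1 ≤ V.valuation g := by
      by_contra h5
      exact hcon ⟨V, hPD, fun J J' hJ hJ' => by rw [h2 J J' hJ hJ']; exact not_le.1 h5⟩
    have h6 := h3 a ha hab
    rw [← V.valuation_le_one_iff, map_mul] at h6
    rw [← V.valuation_le_one_iff]
    exact le_trans (le_mul_of_one_le_left' h4) h6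

end Pool.Agent.Lib.MP_7fcda1_ag
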