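import Pool.Agent.Lib.MP_7fcda1_ag.Defs
import Pool.Agent.Lib.MP_7fcda1_ag.Iface

open AlgebraicGeometry CategoryTheory

noncomputable section

universe u

namespace Pool.Agent.Lib.MP_7fcda1_ag

variable {k : Type u} [Field k] {X : Scheme.{u}} [IsIntegral X]

/-- The constants. -/
abbrev algK (s : X ⟶ Spec (.of k)) : Algebra k X.functionField :=
  ((Scheme.ΓSpecIso (.of k)).inv ≫ s.appTop ≫
    X.presheaf.germ ⊤ (genericPoint X) trivial).hom.toAlgebra

/-- Homogeneous coordinates of the generic point and the standard affine charts. -/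
structure Coord [Algebra k X.functionField] {N : ℕ} (ξ : Fin (N + 1) → X.functionField)
    (U : Fin (N + 1) → X.Opens) : Prop where
  sep : X.IsSeparated
  aff : ∀ i, IsAffineOpen (U i)
  cover : ∀ x, ∃ i, x ∈ U i
  ne : ∀ i, genericPoint X ∈ U i → ξ i ≠ 0
  ring : ∀ i, ξ i ≠ 0 → ∃ h : genericPoint X ∈ U i,
    Set.range (X.presheaf.germ (U i) (genericPoint X) h) =
      (Algebra.adjoin k (Set.range fun j => ξ j / ξ i) : Set X.functionField)

end Pool.Agent.Lib.MP_7fcda1_ag
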