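import Pool.Agent.Lib.MP_7fcda1_ag.Key2a

open scoped IntermediateField Polynomial WithZero
open Module

noncomputable section

universe u

namespace Pool.Agent.Lib.MP_7fcda1_ag


variable {k F : Type u} [Field k] [IsAlgClosed k] [Field F] [Algebra k F] {p : ℕ} [Fact p.Prime]
  [CharP k p] [CharP F p] {n : ℕ} {x : Fin (n + 2) → F} {N d : ℕ} {y : Fin (N + 1) → F}
  {Φ : Frame k F (n + 1)} {κ L : Type u} [Field κ] [Field L] [Algebra κ L] [IsFF κ L]
  {j : F →+* L} {H : Div κ L} {c : ℕ}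

theorem k2_filt (hc : RR κ L c) {ι X : Type*} [Fintype ι] [AddCommGroup X] [Module L X]
    [FiniteDimensional L X] (i : X →ₗ[L] ι → L) (hi : Function.Injective i)
    {T S : Submodule L (ι → L)} {D₁ D₂ : Div κ L} (hS : gen T D₂ = S) (𝒮 : Set (X →ₗ[L] ι → L))
    (hT : ∀ f ∈ 𝒮, ∀ a, f a ∈ T)
    (hq : ∀ f ∈ 𝒮, ∀ (v : Place κ L) m a, VGe v.O m (i a) → QGe v.O (m - D₁ v) S (f a)) {η : ℤ}
    (hl : (2 * Fintype.card ι * c : ℤ) ≤ degD D₂ - degD D₁ - η) (A₀ : Submodule L X)
    (hA₀ : ∀ a, a ∈ A₀ ↔ ∀ f ∈ 𝒮, f a ∈ S) (ρ : ℕ) : ∀ A : Submodule L X, finrank L A = ρ →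
      A₀ ≤ A → sdeg κ (A.map i) + finrank L A * η ≤ sdeg κ (A₀.map i) + finrank L A₀ * η := by
  induction ρ using Nat.strong_induction_on with
  | _ ρ ih =>
  intro A hρ hA
  by_cases hAA : A ≤ A₀
  · rw [le_antisymm hAA hA]
  obtain ⟨a₀, ha₀, ha₀'⟩ := SetLike.not_le_iff_exists.1 hAA
  rw [hA₀] at ha₀'
  push Not at ha₀'
  obtain ⟨f, hf, hfa⟩ := ha₀'
  set A' := A ⊓ S.comap f with hA'
  have hlt : finrank L A' < finrank L A :=
    Submodule.finrank_lt_finrank_of_lt (lt_of_le_of_ne inf_le_left fun h => hfa (by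
      have : a₀ ∈ A' := h ▸ ha₀
      exact this.2))
  have h1 := ih _ (hρ ▸ hlt) A' rfl (le_inf hA fun a ha => (hA₀ a).1 ha f hf)
  have hk : ∀ a : A, (i.comp A.subtype) a ∈ A'.map i ↔ (f.comp A.subtype) a ∈ S := by
    intro a
    constructor
    · rintro ⟨b, hb, hb'⟩
      have : b = a := hi hb'
      subst this
      exact hb.2
    · intro h
      exact ⟨a, ⟨a.2, h⟩, rfl⟩
  have h2 := sdeg_map_le (κ := κ) (i.comp A.subtype) (f.comp A.subtype) (A'.map i) S hk D₁ (by
    rintro v m a ⟨_, ⟨b, hb, rfl⟩, hv⟩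
    have h3 := hq f hf v m (a + b) (by simpa using hv)
    refine h3.congr ?_
    simpa using hb.2)
  have h3 : A'.map i ⊔ LinearMap.range (i.comp A.subtype) = A.map i := by
    rw [LinearMap.range_comp, Submodule.range_subtype, sup_eq_right]
    exact Submodule.map_mono inf_le_left
  have h4 := qbound hc (E := T) (W := S ⊔ LinearMap.range (f.comp A.subtype)) (D := D₂)
    (hS ▸ le_sup_left) (sup_le (hS ▸ gen_le _ _) (by rintro _ ⟨a, rfl⟩; exact hT f hf a))
  have h5 := k2_finrank_sup (f.comp A.subtype) S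
  have h6 : finrank L (S.comap (f.comp A.subtype)) = finrank L A' := by
    have : S.comap (f.comp A.subtype) = A'.comap A.subtype := by
      ext a; simp [hA']
    rw [this]
    exact (Submodule.comapSubtypeEquivOfLe inf_le_left).finrank_eq
  have h7 : ∀ B : Submodule L X, finrank L (B.map i) = finrank L B := fun B =>
    (Submodule.equivMapOfInjective i hi B).finrank_eq.symm
  rw [h3, h7, h7] at h2
  rw [hS] at h4
  rw [h6] at h5
  have h8 : (finrank L ↥(S ⊔ LinearMap.range (f.comp A.subtype)) : ℤ) - finrank L S =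
      finrank L A - finrank L A' := by omega
  rw [h8] at h4
  have h9 : (1 : ℤ) ≤ finrank L A - finrank L A' := by omega
  have h10 : (0 : ℤ) ≤ 2 * Fintype.card ι * c := by positivity
  nlinarith

omit [IsAlgClosed k] [CharP k p] in
theorem k2_der_frob {e : ℕ} (he : 1 ≤ e) (D : Derivation k F F) (b : F) :
    D (iterateFrobenius F p e b) = 0 := by
  obtain ⟨e, rfl⟩ := Nat.exists_eq_add_of_le' he
  rw [iterateFrobenius_def, pow_succ, pow_mul]
  exact der_pow D _

omit [IsAlgClosed k] [CharP k p] in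
theorem k2_dV_iota {e : ℕ} (he : 1 ≤ e) {L : Type*} [Field L] (ψ : F →+* L) {r : ℕ}
    (D : Fin r → Derivation k F F) {ι : Type*} (y : ι → F) (u : Fin (n + 1) → F) (a : Fin r → L) :
    k2dV ψ D (iota (iterateFrobenius F p e) Φ.D y u) a =
      iota (ψ.comp (iterateFrobenius F p e)) Φ.D y fun t => dψ ψ D (u t) a := by
  funext i
  rw [k2dV_apply, k2_iota_apply, k2_iota_apply, k2_dψ_sum]
  refine Finset.sum_congr rfl fun t _ => ?_
  rw [k2_dψ_mul, k2_dψ_const ψ D (fun l => k2_der_frob he _ _), mul_zero, zero_add, mul_comm]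
  rfl

omit [IsAlgClosed k] [CharP k p] in
theorem k2_der_iota {e : ℕ} (he : 1 ≤ e) (D : Derivation k F F) {ι : Type*} (y : ι → F)
    (u : Fin (n + 1) → F) : (fun i => D (iota (iterateFrobenius F p e) Φ.D y u i)) =
      iota (iterateFrobenius F p e) Φ.D y fun t => D (u t) := by
  funext i
  rw [k2_iota_apply, k2_iota_apply, map_sum]
  refine Finset.sum_congr rfl fun t _ => ?_
  rw [Derivation.leibniz, k2_der_frob he, smul_zero, zero_add, smul_eq_mul, mul_comm]

/-- The derivations that preserve a subspace. -/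
def k2stab (k : Type u) [Field k] [Algebra k F] {ι : Type*} (W : Submodule F (ι → F)) :
    Submodule F (Derivation k F F) where
  carrier := {D | ∀ w ∈ W, (fun i => D (w i)) ∈ W}
  add_mem' := fun h h' w hw => W.add_mem (h w hw) (h' w hw)
  zero_mem' := fun _ _ => W.zero_mem
  smul_mem' := fun c _ h w hw => W.smul_mem c (h w hw)

omit [IsAlgClosed k] [CharP k p] [CharP F p] [Fact p.Prime] in
theorem k2stab_isFol {ι : Type*} (W : Submodule F (ι → F)) : IsFol p (k2stab k W) := by
  refine ⟨fun D hD D' hD' w hw => ?_, fun D hD D' hD' w hw => ?_⟩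
  · have := W.sub_mem (hD _ (hD' w hw)) (hD' _ (hD w hw))
    exact this
  · have : ∀ m : ℕ, (fun i => D^[m] (w i)) ∈ W := by
      intro m
      induction m with
      | zero => exact hw
      | succ m ih => simpa only [Function.iterate_succ_apply'] using hD _ ih
    simpa only [hD' _] using this p

omit [IsAlgClosed k] in
theorem k2_mem_stab {ι : Type*} {ρ : ℕ} {e : Fin ρ → ι → F} {f : Fin ρ → ι}
    (h : ∀ i j, e i (f j) = if i = j then 1 else 0) {D : Derivation k F F} :
    D ∈ k2stab k (Submodule.span F (Set.range e)) ↔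
      ∀ s, (fun i => D (e s i)) ∈ Submodule.span F (Set.range e) := by
  refine ⟨fun hD s => hD _ (Submodule.subset_span ⟨s, rfl⟩), fun hD w hw => ?_⟩
  have h1 : (fun i => D (w i)) =
      ∑ s, w (f s) • (fun i => D (e s i)) + ∑ s, D (w (f s)) • e s := by
    funext i
    conv_lhs => rw [eq_sum_echelon h hw]
    simp only [Finset.sum_apply, Pi.smul_apply, smul_eq_mul, map_sum, Derivation.leibniz,
      Pi.add_apply, Finset.sum_add_distrib]
    congr 1
    exact Finset.sum_congr rfl fun i _ => by ring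
  rw [h1]
  exact Submodule.add_mem _ (Submodule.sum_mem _ fun s _ => Submodule.smul_mem _ _ (hD s))
    (Submodule.sum_mem _ fun s _ => Submodule.smul_mem _ _ (Submodule.subset_span ⟨s, rfl⟩))

omit [IsAlgClosed k] in
theorem k2_comb_surj (hΦ : Φ.Spans ⊤) : Function.Surjective (comb Φ.D) := fun D =>
  ⟨_, (hΦ.eq_comb (D := D) trivial).symm⟩

/-- one step of Cartier descent: a cut with a gap is stable under all derivations -/
theorem stable (hx : Model k x) (hs : Split k p x) (hm : Maximal k x) (hΦ : Φ.Spans ⊤)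
    (hy : Emb k x d y) (h : OnCurve k x j H) {d₀ : ℕ}
    (h₀ : ∀ V, IsPD k x V → ∃ v : Place κ L, v.O.comap j = V ∧ degD H ≤ d₀ * v.deg)
    (hc : RR κ L c) {e e' y₀ l : ℕ} (he' : 1 ≤ e') {U : Submodule F (Fin (n + 1) → F)}
    (hU : (bc (j.comp (iterateFrobenius F p e)) U).map
        (iota (j.comp (iterateFrobenius F p (e + e'))) Φ.D y) =
      gen (LinearMap.range (iota (j.comp (iterateFrobenius F p (e + e'))) Φ.D y)) (y₀ • H))
    (hg : gen (LinearMap.range (iota (j.comp (iterateFrobenius F p (e + e'))) Φ.D y)) (y₀ • H) =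
      gen (LinearMap.range (iota (j.comp (iterateFrobenius F p (e + e'))) Φ.D y)) ((y₀ + l) • H))
    (hl : (2 * (N + 1) ^ 2 * c : ℤ) < l * degD H) (D : Derivation k F F) :
    ∀ a ∈ U, (fun i => D (a i)) ∈ U := by
  set ψ := j.comp (iterateFrobenius F p e) with hψ
  set φ := iterateFrobenius F p e' with hφ
  have hψ' : j.comp (iterateFrobenius F p (e + e')) = ψ.comp φ := by
    rw [iterateFrobenius_add]; rfl
  rw [hψ'] at hU hg
  set T := LinearMap.range (iota (ψ.comp φ) Φ.D y) with hT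
  obtain ⟨e₀, f₀, h1, h2, -⟩ := echelon ⊤ (U.map (iota φ Φ.D y))
  have hS : bc ψ (Submodule.span F (Set.range e₀)) = gen T (y₀ • H) := by
    rw [h1, bc_iota, hU]
  suffices hE : k2stab k (Submodule.span F (Set.range e₀)) = ⊤ by
    intro a ha
    have h3 : D ∈ k2stab k (Submodule.span F (Set.range e₀)) := by rw [hE]; trivial
    rw [h1] at h3
    obtain ⟨b, hb, hb'⟩ := h3 _ ⟨a, ha, rfl⟩
    rw [k2_der_iota he'] at hb'
    rw [← iota_injective hy φ hb']
    exact hb
  by_contra hE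
  set UE := (k2stab k (Submodule.span F (Set.range e₀))).comap (comb Φ.D) with hUE
  have hUE' : UE.map (comb Φ.D) = k2stab k (Submodule.span F (Set.range e₀)) :=
    Submodule.map_comap_eq_of_surjective (k2_comb_surj hΦ) _
  have hne : UE ≠ ⊤ := by
    intro h3
    apply hE
    rw [← hUE', h3, Submodule.map_top, LinearMap.range_eq_top.2 (k2_comb_surj hΦ)]
  have hfol := fol_deg hx hs hm hΦ hy h h₀ (U := UE) (hUE' ▸ k2stab_isFol _) hne
  -- the kernel of the second fundamental form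
  let M : Fin (finrank F (U.map (iota φ Φ.D y))) → Matrix (Fin (N + 1) × Fin (N + 1))
    (Fin (n + 1)) F := fun s => Matrix.of fun i t => Φ.D t (e₀ s i)
  have hM : UE = ⨅ s, (Submodule.span F (Set.range e₀)).comap (M s).mulVecLin := by
    ext a
    rw [hUE, Submodule.mem_comap, k2_mem_stab h2, Submodule.mem_iInf]
    refine forall_congr' fun s => ?_
    rw [Submodule.mem_comap]
    have : (fun i => comb Φ.D a (e₀ s i)) = (M s).mulVecLin a := by
      funext i
      simp [M, comb_apply, Matrix.mulVec, dotProduct, mul_comm]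
    rw [this]
  have hM' : ∀ s a, ((M s).map ψ).mulVecLin a = k2dV ψ Φ.D (e₀ s) a := by
    intro s a
    funext i
    simp [M, k2dV_apply, k2_dψ_apply, Matrix.mulVec, dotProduct, mul_comm]
  have hA₀ : ∀ a, a ∈ bc ψ UE ↔ ∀ f ∈ k2B ψ Φ.D e₀ f₀ '' (Gam T (y₀ • H) : Set _),
      f a ∈ gen T (y₀ • H) := by
    intro a
    rw [hM, bc_iInf, Submodule.mem_iInf]
    simp only [bc_comap, Submodule.mem_comap, hM', hS]
    constructor
    · rintro h3 _ ⟨w, -, rfl⟩
      rw [k2B_apply]
      exact Submodule.sum_mem _ fun s _ => Submodule.smul_mem _ _ (h3 s)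
    · intro h3 s
      have h4 : ∀ w ∈ gen T (y₀ • H), k2B ψ Φ.D e₀ f₀ w a ∈ gen T (y₀ • H) := by
        intro w hw
        obtain ⟨m, c, g, rfl⟩ := Submodule.mem_span_set'.1 hw
        rw [k2B_sum]
        exact Submodule.sum_mem _ fun t _ => Submodule.smul_mem _ _ (h3 _ ⟨_, (g t).2, rfl⟩)
      have h5 : e₀ s ∈ Submodule.span F (Set.range e₀) := Submodule.subset_span ⟨s, rfl⟩
      have h6 := k2B_sub ψ Φ.D h2 h5 a
      rw [hS] at h6
      have h7 := h4 _ (hS ▸ k2_mem_bc ψ h5)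
      simpa using Submodule.add_mem _ h6 h7
  have hfil := k2_filt hc (iota ψ Φ.D y) (iota_injective hy ψ) (T := T) (S := gen T (y₀ • H))
    (D₁ := y₀ • H - (2 * d * p ^ e) • H) (D₂ := (y₀ + l) • H) hg.symm
    (k2B ψ Φ.D e₀ f₀ '' (Gam T (y₀ • H) : Set _)) (η := 2 * d * p ^ e * degD H) ?_ ?_ ?_
    (bc ψ UE) hA₀ _ ⊤ rfl le_top
  · have h3 : ∀ W : Submodule F (Fin (n + 1) → F), (bc ψ W).map (iota ψ Φ.D y) =
        bc ψ (W.map (iota (RingHom.id F) Φ.D y)) := fun W => by rw [bc_iota]; rfl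
    rw [← bc_top ψ, h3, h3, finrank_bc, finrank_bc, Submodule.map_top, hψ, sdeg_frob,
      sdeg_frob, finrank_top, finrank_fintype_fun_eq_card, Fintype.card_fin] at hfil
    have h4 : (0 : ℤ) < p ^ e := pow_pos (by exact_mod_cast (Fact.out : p.Prime).pos) e
    have h5 : (0 : ℤ) ≤ d₀ * (p - 1) :=
      mul_nonneg (by positivity) (by have := (Fact.out : p.Prime).one_le; omega)
    have h6 := h.pos
    set X := sdeg κ (bc j (LinearMap.range (iota (RingHom.id F) Φ.D y))) -
      sdeg κ (bc j (UE.map (iota (RingHom.id F) Φ.D y))) +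
        (n + 1 - finrank F UE) * (2 * d * degD H) with hX
    have h7 : (p : ℤ) ^ e * X ≤ 0 := by
      rw [hX]; push_cast at hfil; nlinarith
    have h8 : X ≤ 0 := by
      by_contra h9
      exact absurd (mul_pos h4 (not_le.1 h9)) (not_lt.2 h7)
    nlinarith
  · rintro _ ⟨w, -, rfl⟩ a
    rw [k2B_apply]
    refine Submodule.sum_mem _ fun s _ => Submodule.smul_mem _ _ ?_
    have h5 : e₀ s ∈ U.map (iota φ Φ.D y) := h1 ▸ Submodule.subset_span ⟨s, rfl⟩
    obtain ⟨u, -, hu⟩ := h5
    rw [← hu, k2_dV_iota he']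
    exact ⟨_, rfl⟩
  · rintro _ ⟨w, hw, rfl⟩ v m a ha
    have h3 : TGe v.O ψ Φ.D (m + 2 * d * p ^ e * H v) a :=
      (tge_iff hx hy h e v _ a).2 (by simpa using ha)
    have h4 := k2B_qge ψ Φ.D h2 h3 (w := w) (hS ▸ Submodule.subset_span hw) ((mem_Gam.1 hw).2 v)
    rw [hS] at h4
    refine h4.mono (le_of_eq ?_) le_rfl
    simp only [Finsupp.sub_apply, Finsupp.smul_apply, nsmul_eq_mul]
    push_cast
    ring
  · simp only [map_sub, map_nsmul, nsmul_eq_mul, Fintype.card_prod, Fintype.card_fin]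
    push_cast
    nlinarith

theorem descend (hx : Model k x) {ι : Type} [Finite ι] {U : Submodule F (ι → F)}
    (h : ∀ D : Derivation k F F, ∀ a ∈ U, (fun i => D (a i)) ∈ U) :
    ∃ U' : Submodule F (ι → F), bc (frobenius F p) U' = U := by
  obtain ⟨e, f, h1, h2, -⟩ := echelon ⊤ U
  have h3 : ∀ s i, ∃ b, e s i = b ^ p := by
    intro s i
    refine pow_of_const p hx fun D => ?_
    have h4 := h D (e s) (h1 ▸ Submodule.subset_span ⟨s, rfl⟩)
    rw [← h1] at h4
    have h5 := congrFun (eq_sum_echelon h2 h4) i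
    rw [h5, Finset.sum_apply]
    refine Finset.sum_eq_zero fun t _ => ?_
    rw [h2]
    split_ifs <;> simp
  choose b hb using h3
  refine ⟨Submodule.span F (Set.range b), ?_⟩
  rw [k2_bc_range]
  refine Eq.trans ?_ h1
  congr 2
  funext s i
  rw [hb, frobenius_def]

end Pool.Agent.Lib.MP_7fcda1_ag
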