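import Pool.Agent.Lib.MP_7fcda1_ag.Key1

open scoped IntermediateField Polynomial WithZero
open Module

noncomputable section

universe u

namespace Pool.Agent.Lib.MP_7fcda1_ag

section basic
variable {k F L : Type*} [Field k] [Field F] [Algebra k F] [Field L] {r : ℕ} (ψ : F →+* L)
  (D : Fin r → Derivation k F F) {ι : Type*}

theorem k2_dψ_apply (b : F) (a : Fin r → L) : dψ ψ D b a = ∑ i, a i * ψ (D i b) := by
  simp [dψ, Fintype.linearCombination_apply]

theorem k2_dψ_mul (b b' : F) (a : Fin r → L) :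
    dψ ψ D (b * b') a = ψ b * dψ ψ D b' a + ψ b' * dψ ψ D b a := by
  simp only [k2_dψ_apply, Derivation.leibniz, smul_eq_mul, map_add, map_mul, Finset.mul_sum,
    ← Finset.sum_add_distrib]
  exact Finset.sum_congr rfl fun i _ => by ring

theorem k2_dψ_sum {σ : Type*} (s : Finset σ) (b : σ → F) (a : Fin r → L) :
    dψ ψ D (∑ i ∈ s, b i) a = ∑ i ∈ s, dψ ψ D (b i) a := by
  simp only [k2_dψ_apply, map_sum, Finset.mul_sum]
  exact Finset.sum_comm

theorem k2_dψ_sub (b b' : F) (a : Fin r → L) :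
    dψ ψ D (b - b') a = dψ ψ D b a - dψ ψ D b' a := by
  simp only [k2_dψ_apply, map_sub, mul_sub, Finset.sum_sub_distrib]

theorem k2_dψ_const {b : F} (h : ∀ i, D i b = 0) (a : Fin r → L) : dψ ψ D b a = 0 := by
  simp [k2_dψ_apply, h]

theorem k2_iota_apply (y : ι → F) (a : Fin r → L) (i : ι × ι) :
    iota ψ D y a i = ∑ t, a t * ψ (y i.1 * D t (y i.2) - y i.2 * D t (y i.1)) := by
  simp only [iota, LinearMap.pi_apply, LinearMap.sub_apply, LinearMap.smul_apply, k2_dψ_apply,
    smul_eq_mul, Finset.mul_sum, ← Finset.sum_sub_distrib, map_sub, map_mul]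
  exact Finset.sum_congr rfl fun i _ => by ring

/-- The differential of a vector. -/
def k2dV (w : ι → F) : (Fin r → L) →ₗ[L] ι → L := LinearMap.pi fun i => dψ ψ D (w i)

theorem k2dV_apply (w : ι → F) (a : Fin r → L) (i : ι) : k2dV ψ D w a i = dψ ψ D (w i) a := rfl

theorem k2dV_sum {σ : Type*} [Fintype σ] (c : σ → F) (e : σ → ι → F) (a : Fin r → L) :
    k2dV ψ D (∑ s, c s • e s) a =
      ∑ s, ψ (c s) • k2dV ψ D (e s) a + ∑ s, dψ ψ D (c s) a • fun i => ψ (e s i) := by
  funext i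
  simp only [k2dV_apply, Finset.sum_apply, Pi.smul_apply, smul_eq_mul, Pi.add_apply, k2_dψ_sum,
    k2_dψ_mul, Finset.sum_add_distrib]
  congr 1
  exact Finset.sum_congr rfl fun i _ => by ring

/-- The second fundamental form, as a function of the tangent vector. -/
def k2B {ρ : ℕ} (e : Fin ρ → ι → F) (f : Fin ρ → ι) (w : ι → L) : (Fin r → L) →ₗ[L] ι → L :=
  ∑ s, w (f s) • k2dV ψ D (e s)

theorem k2B_apply {ρ : ℕ} (e : Fin ρ → ι → F) (f : Fin ρ → ι) (w : ι → L) (a : Fin r → L) :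
    k2B ψ D e f w a = ∑ s, w (f s) • k2dV ψ D (e s) a := by
  simp [k2B]

theorem k2B_sum {ρ : ℕ} (e : Fin ρ → ι → F) (f : Fin ρ → ι) {σ : Type*} [Fintype σ] (c : σ → L)
    (w : σ → ι → L) (a : Fin r → L) :
    k2B ψ D e f (∑ t, c t • w t) a = ∑ t, c t • k2B ψ D e f (w t) a := by
  simp only [k2B_apply, Finset.sum_apply, Pi.smul_apply, smul_eq_mul, Finset.sum_smul,
    Finset.smul_sum, smul_smul]
  exact Finset.sum_comm

theorem k2_mem_bc {W : Submodule F (ι → F)} {w : ι → F} (hw : w ∈ W) :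
    (fun i => ψ (w i)) ∈ bc ψ W := Submodule.subset_span ⟨w, hw, rfl⟩

theorem k2B_sub {ρ : ℕ} {e : Fin ρ → ι → F} {f : Fin ρ → ι}
    (h : ∀ i j, e i (f j) = if i = j then 1 else 0) {w : ι → F}
    (hw : w ∈ Submodule.span F (Set.range e)) (a : Fin r → L) :
    k2dV ψ D w a - k2B ψ D e f (fun i => ψ (w i)) a ∈ bc ψ (Submodule.span F (Set.range e)) := by
  have h1 := k2dV_sum ψ D (fun s => w (f s)) e a
  rw [← eq_sum_echelon h hw] at h1
  rw [h1, k2B_apply, add_sub_cancel_left]
  exact Submodule.sum_mem _ fun s _ => Submodule.smul_mem _ _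
    (k2_mem_bc ψ (Submodule.subset_span ⟨s, rfl⟩))

theorem k2_bc_range {σ : Type*} (e : σ → ι → F) :
    bc ψ (Submodule.span F (Set.range e)) = Submodule.span L (Set.range fun s i => ψ (e s i)) := by
  rw [bc_span, ← Set.range_comp]; rfl

theorem k2_sum_map {ρ : ℕ} {e : Fin ρ → ι → F} {f : Fin ρ → ι}
    (h : ∀ i j, e i (f j) = if i = j then 1 else 0) {w : ι → L}
    (hw : w ∈ bc ψ (Submodule.span F (Set.range e))) : w = ∑ s, w (f s) • fun i => ψ (e s i) := by
  rw [k2_bc_range] at hw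
  refine eq_sum_echelon (e := fun s i => ψ (e s i)) (fun i j => ?_) hw
  rw [h]; split_ifs <;> simp

/-- integrality of the second fundamental form -/
theorem k2B_qge [Finite ι] {ρ : ℕ} {e : Fin ρ → ι → F} {f : Fin ρ → ι}
    (h : ∀ i j, e i (f j) = if i = j then 1 else 0) {V : ValuationSubring L} {M m : ℤ}
    {a : Fin r → L} (ha : TGe V ψ D M a) {w : ι → L}
    (hw : w ∈ bc ψ (Submodule.span F (Set.range e))) (hm : VGe V m w) :
    QGe V (m + M) (bc ψ (Submodule.span F (Set.range e))) (k2B ψ D e f w a) := by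
  obtain ⟨e', f', h1, h2, h3⟩ := echelon (V.comap ψ) (Submodule.span F (Set.range e))
  have hw' := hw
  rw [← h1] at hw'
  have h4 := k2_sum_map ψ h2 hw'
  have h5 : k2B ψ D e f w a = ∑ s, w (f' s) • k2B ψ D e f (fun i => ψ (e' s i)) a := by
    conv_lhs => rw [h4]
    exact k2B_sum ψ D e f _ _ a
  have h6 : VGe V (m + M) (∑ s, w (f' s) • k2dV ψ D (e' s) a) :=
    VGe.sum fun s _ => VGe.smul (hm _) fun i => ha _ (h3 s i)
  refine (h6.qge _).congr ?_
  rw [h5, ← Finset.sum_sub_distrib]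
  refine Submodule.sum_mem _ fun s _ => ?_
  rw [← smul_sub, ← neg_sub, smul_neg]
  refine Submodule.neg_mem _ (Submodule.smul_mem _ _ (k2B_sub ψ D h ?_ a))
  rw [← h1]; exact Submodule.subset_span ⟨s, rfl⟩

theorem k2_finrank_sup {U X : Type*} [AddCommGroup U] [Module L U] [AddCommGroup X] [Module L X]
    [FiniteDimensional L U] [FiniteDimensional L X] (g : U →ₗ[L] X) (W : Submodule L X) :
    finrank L ↥(W ⊔ LinearMap.range g) + finrank L (W.comap g) = finrank L W + finrank L U := by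
  have h1 := LinearMap.finrank_range_add_finrank_ker (W.mkQ.comp g)
  have h2 := LinearMap.finrank_range_add_finrank_ker
    (W.mkQ.comp (W ⊔ LinearMap.range g).subtype)
  have h3 : LinearMap.ker (W.mkQ.comp g) = W.comap g := by
    rw [LinearMap.ker_comp, Submodule.ker_mkQ]
  have h4 : LinearMap.range (W.mkQ.comp (W ⊔ LinearMap.range g).subtype) =
      LinearMap.range (W.mkQ.comp g) := by
    rw [LinearMap.range_comp, LinearMap.range_comp, Submodule.range_subtype, Submodule.map_sup,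
      Submodule.mkQ_map_self, bot_sup_eq]
  have h5 : finrank L (LinearMap.ker (W.mkQ.comp (W ⊔ LinearMap.range g).subtype)) =
      finrank L W := by
    rw [LinearMap.ker_comp, Submodule.ker_mkQ]
    exact (Submodule.comapSubtypeEquivOfLe le_sup_left).finrank_eq
  rw [h3] at h1
  rw [h4, h5] at h2
  omega

end basic

end Pool.Agent.Lib.MP_7fcda1_ag
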