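import Pool.Agent.Lib.MP_7fcda1_ag.Bun2

open scoped IntermediateField Polynomial WithZero
open Module

noncomputable section

universe u

namespace Pool.Agent.Lib.MP_7fcda1_ag

theorem res_primitive {R I : Type*} [CommRing R] [IsDomain R] [WfDvdMonoid R] (a₀ : I) (r : R) :
    ∀ P : I → R, P a₀ = r → r ≠ 0 →
      ∃ (γ : R) (ω : I → R), (∀ a, P a = γ * ω a) ∧ ∀ π, Prime π → ∃ a, ¬π ∣ ω a := by
  induction r using (wellFounded_dvdNotUnit (α := R)).induction with
  | _ r ih =>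
  intro P hP hr
  by_cases h : ∀ π, Prime π → ∃ a, ¬π ∣ P a
  · exact ⟨1, P, fun a => (one_mul _).symm, h⟩
  push Not at h
  obtain ⟨π, hπ, h⟩ := h
  choose Q hQ using h
  have h0 : Q a₀ ≠ 0 := fun h0 => hr (by rw [← hP, hQ, h0, mul_zero])
  obtain ⟨γ, ω, h1, h2⟩ := ih (Q a₀) ⟨h0, π, hπ.not_isUnit, by rw [← hP, hQ, mul_comm]⟩ Q rfl h0
  exact ⟨π * γ, ω, fun a => by rw [hQ, h1, mul_assoc], h2⟩

variable {F 𝕂 : Type*} [Field F] [Field 𝕂] [Algebra F 𝕂] {σ ι : Type*} [Fintype ι] {s : σ → 𝕂}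

theorem res_plucker [Finite σ] (hs : AlgebraicIndependent F s) {S : Submodule 𝕂 (ι → 𝕂)}
    (h : S ≤ Submodule.span 𝕂 {w | w ∈ S ∧ ∀ a, ∃ g : MvPolynomial σ F,
      w a = MvPolynomial.aeval s g}) :
    ∃ (w : Fin (finrank 𝕂 S) → ι → 𝕂) (γ : 𝕂) (ω : (Fin (finrank 𝕂 S) → ι) → MvPolynomial σ F),
      LinearIndependent 𝕂 w ∧ Submodule.span 𝕂 (Set.range w) = S ∧ γ ≠ 0 ∧
      (pl w = γ • fun a => MvPolynomial.aeval s (ω a)) ∧ ω ≠ 0 ∧
      ∀ π, Prime π → ∃ a, ¬π ∣ ω a := by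
  have h1 : Submodule.span 𝕂 {w | w ∈ S ∧ ∀ a, ∃ g : MvPolynomial σ F,
      w a = MvPolynomial.aeval s g} = S := le_antisymm (Submodule.span_le.2 fun w hw => hw.1) h
  obtain ⟨w, h2, h3, h4⟩ := Submodule.exists_fun_fin_finrank_span_eq 𝕂
    {w | w ∈ S ∧ ∀ a, ∃ g : MvPolynomial σ F, w a = MvPolynomial.aeval s g}
  revert w
  rw [h1]
  intro w h2 h3 h4
  choose g hg using fun i => (h2 i).2
  have h5 : pl w = fun a => MvPolynomial.aeval s (pl g a) := by
    have := pl_map (MvPolynomial.aeval s : MvPolynomial σ F →ₐ[F] 𝕂).toRingHom g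
    refine Eq.trans ?_ this
    congr 1
    funext i a
    exact hg i a
  obtain ⟨a₀, ha₀⟩ := Function.ne_iff.1 (pl_ne_zero_iff.2 h4)
  have h6 : pl g a₀ ≠ 0 := fun h0 => ha₀ (by rw [h5]; simp [h0])
  obtain ⟨γ, ω, h7, h8⟩ := res_primitive a₀ _ (pl g) rfl h6
  refine ⟨w, MvPolynomial.aeval s γ, ω, h4, h3, fun h0 => h6 ?_, ?_, fun h0 => h6 ?_, h8⟩
  · rw [h7, hs (h0.trans (map_zero _).symm), zero_mul]
  · rw [h5]
    funext a
    simp [h7]
  · rw [h7, h0]
    simp

omit [Fintype ι] in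
theorem res_pl_smul {R : Type*} [CommRing R] {r : ℕ} (c : R) (e : Fin r → ι → R)
    (g : Fin r → ι) : pl (fun i a => c * e i a) g = c ^ r * pl e g := by
  have : (Matrix.of fun i j => c * e i (g j)) = c • Matrix.of fun i j => e i (g j) := rfl
  simp only [pl, this, Matrix.det_smul, Fintype.card_fin]

/-- specialisation of a subspace with polynomial Pluecker coordinates -/
theorem res_spec (hs : AlgebraicIndependent F s) {r : ℕ} {w : Fin r → ι → 𝕂} {γ : 𝕂} (hγ : γ ≠ 0)
    {ω : (Fin r → ι) → MvPolynomial σ F} (h : pl w = γ • fun a => MvPolynomial.aeval s (ω a))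
    {f : Fin r → ι} {τ : σ → F} (hf : MvPolynomial.eval τ (ω f) ≠ 0) :
    ∃ e : Fin r → ι → F, LinearIndependent F e ∧
      (pl e = (MvPolynomial.eval τ (ω f))⁻¹ • fun a => MvPolynomial.eval τ (ω a)) ∧
      ∀ φ : ι → F, (∀ i, ∑ a, algebraMap F 𝕂 (φ a) * w i a = 0) → ∀ i, ∑ a, φ a * e i a = 0 := by
  have hinj : Function.Injective (MvPolynomial.aeval s : MvPolynomial σ F →ₐ[F] 𝕂) := hs
  have h0 : MvPolynomial.aeval s (ω f) ≠ 0 := fun h0 => hf (by
    rw [hinj (h0.trans (map_zero _).symm), map_zero])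
  have h1 : ∀ g, pl w g = γ * MvPolynomial.aeval s (ω g) := fun g => by rw [h]; rfl
  obtain ⟨e, h2, h3, h4, h5⟩ := echelon_at (w := w) (f := f) (by rw [h1]; exact mul_ne_zero hγ h0)
  have h6 : ∀ i a, MvPolynomial.aeval s (ω (Function.update f i a)) =
      MvPolynomial.aeval s (ω f) * e i a := by
    intro i a
    rw [h4, h1, h1]
    field_simp
  refine ⟨fun i a => (MvPolynomial.eval τ (ω f))⁻¹ * MvPolynomial.eval τ
    (ω (Function.update f i a)), ?_, ?_, fun φ hφ i => ?_⟩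
  · refine linearIndependent_echelon (f := f) fun i l => ?_
    have : ω (Function.update f i (f l)) = if i = l then ω f else 0 := by
      apply hinj
      rw [h6, h3]
      split_ifs <;> simp
    rw [this]
    split_ifs
    · exact inv_mul_cancel₀ hf
    · simp
  · funext g
    have h7 : pl (fun i a => ω (Function.update f i a)) g * ω f = ω f ^ r * ω g := by
      apply hinj
      have h8 := congrFun (pl_map (MvPolynomial.aeval s : MvPolynomial σ F →ₐ[F] 𝕂).toRingHom
        (fun i a => ω (Function.update f i a))) g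
      simp only [AlgHom.toRingHom_eq_coe, RingHom.coe_coe, h6, res_pl_smul] at h8
      rw [map_mul, map_mul, map_pow, ← h8, h5, h1, h1]
      field_simp
    have h8 := congrFun (pl_map (MvPolynomial.eval τ) (fun i a => ω (Function.update f i a))) g
    have h9 := congrArg (MvPolynomial.eval τ) h7
    rw [map_mul, map_mul, map_pow, ← h8] at h9
    rw [res_pl_smul, Pi.smul_apply, smul_eq_mul, eq_div_of_mul_eq hf h9, inv_pow]
    field_simp
  · have h7 : ∑ a, algebraMap F 𝕂 (φ a) * e i a = 0 := by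
      have h8 : e i ∈ Submodule.span 𝕂 (Set.range w) := h2 ▸ Submodule.subset_span ⟨i, rfl⟩
      obtain ⟨c, hc⟩ := (Submodule.mem_span_range_iff_exists_fun 𝕂).1 h8
      rw [← hc]
      simp only [Finset.sum_apply, Pi.smul_apply, smul_eq_mul, Finset.mul_sum]
      rw [Finset.sum_comm]
      refine Finset.sum_eq_zero fun l _ => ?_
      simp only [mul_left_comm _ (c l), ← Finset.mul_sum, hφ l, mul_zero]
    have h8 : ∑ a, MvPolynomial.C (φ a) * ω (Function.update f i a) = 0 := by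
      apply hinj
      simp only [map_sum, map_mul, MvPolynomial.aeval_C, h6, map_zero,
        mul_left_comm _ (MvPolynomial.aeval s (ω f)), ← Finset.mul_sum, h7, mul_zero]
    have h9 := congrArg (MvPolynomial.eval τ) h8
    simp only [map_sum, map_mul, MvPolynomial.eval_C, map_zero] at h9
    simp only [mul_left_comm _ (MvPolynomial.eval τ (ω f))⁻¹, ← Finset.mul_sum, h9, mul_zero]

theorem res_totalDegree_le {n m : ℕ} {F : Type u} [Field F] (g : MvPolynomial (Fin n × MA n m) F) :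
    g.totalDegree ≤ ∑ i, bdeg i g := by
  refine Finset.sup_le fun t ht => ?_
  refine le_trans (le_of_eq ?_) (Finset.sum_le_sum fun i _ =>
    MvPolynomial.le_weightedTotalDegree (fun β : Fin n × MA n m => if β.1 = i then 1 else 0) ht)
  simp only [Finsupp.weight_apply, Finsupp.sum, smul_eq_mul]
  rw [Finset.sum_comm]
  refine Finset.sum_congr rfl fun β _ => ?_
  simp

theorem res_arith {R D ε q l B m K : ℕ} {d s A T : ℤ} (hK : K = 3 * R * D ^ 2 * ε + 1)
    (hm : K + 1 ≤ m) (hq : ε * B * (2 * D + 2) + 1 ≤ q) (hl : q ≤ ε * l) (hd : 1 ≤ d)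
    (hs : 0 ≤ s) (h1 : l * min (q * (m * d) + (D * q : ℕ) * d) s ≤
      B * (q + (D * q : ℕ) + (D * q : ℕ) + 1) + R * d * (D * q : ℕ) * (2 * (D * q : ℕ) + (D * q : ℕ)))
    (h2 : A * (m * d) - T * d ≤ s) : A * m - T ≤ K * q := by
  have hq' : (ε * B * (2 * D + 2) + 1 : ℤ) ≤ q := by exact_mod_cast hq
  have hl' : (q : ℤ) ≤ ε * l := by exact_mod_cast hl
  have hm' : (K + 1 : ℤ) ≤ m := by exact_mod_cast hm
  have hq1 : (1 : ℤ) ≤ q := by
    have : (0 : ℤ) ≤ ε * B * (2 * D + 2) := by positivity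
    omega
  push_cast at h1
  set M := min ((q : ℤ) * (m * d) + D * q * d) s with hM
  have hM0 : 0 ≤ M := le_min (by positivity) hs
  have h3 : q * M ≤ ε * (l * M) := by
    rw [← mul_assoc]; exact mul_le_mul_of_nonneg_right hl' hM0
  have h4 := mul_le_mul_of_nonneg_left h1 (Nat.cast_nonneg (α := ℤ) ε)
  have h5 : (ε : ℤ) * B * (q + D * q + D * q + 1) ≤ q * (q * d) := by
    have h6 : (q + D * q + D * q + 1 : ℤ) ≤ (2 * D + 2) * q := by linarith
    have h7 := mul_le_mul_of_nonneg_left h6 (by positivity : (0 : ℤ) ≤ ε * B)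
    have h8 : (ε * B * (2 * D + 2) : ℤ) * q ≤ q * q :=
      mul_le_mul_of_nonneg_right (by omega) (by omega)
    have h9 : (q : ℤ) * q * 1 ≤ q * q * d := mul_le_mul_of_nonneg_left hd (by positivity)
    linarith
  have h6 : q * M ≤ q * (K * q * d) := by
    rw [hK]; push_cast; linarith
  have h7 : M ≤ K * q * d := le_of_mul_le_mul_left h6 (by omega)
  have h8 : s ≤ K * q * d := by
    rcases min_le_iff.1 h7 with h9 | h9
    · exfalso
      have h10 : (K + 1 : ℤ) * (q * d) ≤ m * (q * d) :=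
        mul_le_mul_of_nonneg_right hm' (by positivity)
      have h11 : (0 : ℤ) ≤ D * q * d := by positivity
      have h12 : (0 : ℤ) < q * d := by positivity
      linarith
    · exact h9
  exact le_of_mul_le_mul_right (by linarith) (show (0 : ℤ) < d by omega)

theorem res_arith' {ε n q l m K Y : ℕ} {T η : ℤ} (hm : m = n + 2 * n * K * ε + K + 1)
    (hq : ε * (2 * Y + 1) + 1 ≤ q) (hl : q ≤ ε * l) (hη : 1 ≤ η) (hT : 0 ≤ T)
    (h : T * m - n * T ≤ n * (K * q)) : T * η + Y < l * η := by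
  have hq' : (ε * (2 * Y + 1) + 1 : ℤ) ≤ q := by exact_mod_cast hq
  have hl' : (q : ℤ) ≤ ε * l := by exact_mod_cast hl
  have h1 : 2 * Y + 1 < l := by
    by_contra h2
    have := Nat.mul_le_mul_left ε (not_lt.1 h2)
    omega
  have h2 : (2 * Y + 1 : ℤ) < l := by exact_mod_cast h1
  have h3 : 2 * T ≤ l := by
    by_contra h4
    have h5 : (l : ℤ) * (n * K * ε) ≤ 2 * T * (n * K * ε) :=
      mul_le_mul_of_nonneg_right (by omega) (by positivity)
    have h6 : (n * K : ℤ) * q ≤ n * K * (ε * l) := mul_le_mul_of_nonneg_left hl' (by positivity)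
    have h7 : 0 ≤ T * K := by positivity
    rw [hm] at h
    push_cast at h
    have h8 : (0 : ℤ) ≤ Y := by positivity
    linarith
  have h4 := mul_le_mul_of_nonneg_right h3 (show 0 ≤ η by omega)
  have h5 : (l : ℤ) * 1 ≤ l * η := mul_le_mul_of_nonneg_left hη (by positivity)
  linarith

end Pool.Agent.Lib.MP_7fcda1_ag
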