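import Pool.Agent.Lib.MP_7fcda1_ag.TPb

open scoped IntermediateField Polynomial WithZero
open Module

noncomputable section

universe u

namespace Pool.Agent.Lib.MP_7fcda1_ag

theorem TP_finrank_congr {κ κ' L : Type*} [Field κ] [Field κ'] [Field L] [Algebra κ L]
    [Algebra κ' L] (S : IntermediateField κ L) (S' : IntermediateField κ' L)
    (h : ∀ a, a ∈ S ↔ a ∈ S') : finrank S L = finrank S' L := by
  have h1 : S.toSubfield = S'.toSubfield := by
    ext a
    exact h a
  exact Algebra.finrank_eq_of_equiv_equiv (RingEquiv.subfieldCongr h1) (RingEquiv.refl L) rfl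

section
variable {k L : Type*} [Field k] [Field L] [Algebra k L] {κ₀ κt : IntermediateField k L} {t v : L}

theorem TP_mem (ht : κt = IntermediateField.adjoin k (κ₀ ∪ {t})) (a : L) :
    a ∈ κt ↔ a ∈ κ₀⟮t⟯ := by
  rw [ht, ← IntermediateField.restrictScalars_adjoin, IntermediateField.mem_restrictScalars]

theorem TP_mem₂ (ht : κt = IntermediateField.adjoin k (κ₀ ∪ {t})) (a : L) :
    a ∈ κt⟮v⟯ ↔ a ∈ IntermediateField.adjoin κ₀ ({t, v} : Set L) := by
  rw [← IntermediateField.mem_restrictScalars k, IntermediateField.restrictScalars_adjoin,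
    ← IntermediateField.mem_restrictScalars k (E := IntermediateField.adjoin κ₀ ({t, v} : Set L)),
    IntermediateField.restrictScalars_adjoin, ht, ← IntermediateField.restrictScalars_adjoin,
    IntermediateField.adjoin_adjoin_left, Set.union_assoc]
  rfl

theorem TP_gen (ht : κt = IntermediateField.adjoin k (κ₀ ∪ {t})) : TP_Gen κ₀ κt t := by
  intro g
  obtain ⟨P, Q, h⟩ := (IntermediateField.mem_adjoin_simple_iff κ₀ _).1 ((TP_mem ht g).1 g.2)
  by_cases hQ : Polynomial.aeval t Q = 0
  · refine ⟨0, 1, by simp, ?_⟩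
    rw [hQ, div_zero] at h
    change (g : L) * _ = _
    simp [h]
  · refine ⟨P, Q, hQ, ?_⟩
    change (g : L) * _ = _
    rw [h, div_mul_cancel₀ _ hQ]

theorem TP_transc (ht : κt = IntermediateField.adjoin k (κ₀ ∪ {t}))
    (h : Transcendental (Algebra.adjoin κ₀ ({t} : Set L)) v) : Transcendental κt v := by
  intro hal
  rw [← IntermediateField.transcendental_adjoin_iff] at h
  apply h
  exact hal.ringHom_of_comp_eq
    ((algebraMap κt L).codRestrict (κ₀⟮t⟯) fun g => (TP_mem ht g).1 g.2) (RingHom.id L)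
    (RingHom.injective _) rfl

theorem TP_const (ht : κt = IntermediateField.adjoin k (κ₀ ∪ {t})) (c : κ₀) :
    algebraMap κ₀ L c ∈ (algebraMap κt L).range :=
  ⟨⟨c, (TP_mem ht _).2 (IntermediateField.algebraMap_mem _ c)⟩, rfl⟩

theorem TP_self (ht : κt = IntermediateField.adjoin k (κ₀ ∪ {t})) :
    t ∈ (algebraMap κt L).range :=
  ⟨⟨t, (TP_mem ht _).2 (IntermediateField.mem_adjoin_simple_self _ t)⟩, rfl⟩

end

theorem TP_int_mem {K₀ L : Type*} [Field K₀] [Field L] [Algebra K₀ L] {t v a : L}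
    (ha : IsIntegral (Algebra.adjoin K₀ ({t, v} : Set L)) a) {V : ValuationSubring L}
    (h0 : ∀ c, algebraMap K₀ L c ∈ V) (ht : t ∈ V) (hv : v ∈ V) : a ∈ V := by
  have hR : ∀ r ∈ Algebra.adjoin K₀ ({t, v} : Set L), r ∈ V := by
    intro r hr
    induction hr using Algebra.adjoin_induction with
    | mem x hx => rcases hx with rfl | rfl <;> assumption
    | algebraMap c => exact h0 c
    | add _ _ _ _ h1 h2 => exact add_mem h1 h2
    | mul _ _ _ _ h1 h2 => exact mul_mem h1 h2
  obtain ⟨P, hP, h⟩ := ha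
  refine mem_of_monic (P.map (algebraMap _ L)) (hP.map _) (fun i => ?_) ?_
  · rw [Polynomial.coeff_map]
    exact hR _ (P.coeff i).2
  · rwa [Polynomial.eval_map]

theorem TP_mono_indep {K₀ L : Type*} [Field K₀] [Field L] [Algebra K₀ L] {t v : L}
    (hi : AlgebraicIndependent K₀ ![t, v]) :
    LinearIndependent K₀ fun q : ℕ × ℕ => t ^ q.1 * v ^ q.2 := by
  have h1 := ((MvPolynomial.basisMonomials (Fin 2) K₀).linearIndependent.map'
    (MvPolynomial.aeval ![t, v] : MvPolynomial (Fin 2) K₀ →ₐ[K₀] L).toLinearMap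
    (LinearMap.ker_eq_bot.2 hi)).comp
    (fun q : ℕ × ℕ => Finsupp.equivFunOnFinite.symm ![q.1, q.2]) (by
      rintro ⟨i, j⟩ ⟨i', j'⟩ h
      have h2 := Finsupp.equivFunOnFinite.symm.injective h
      have h3 := congrFun h2 0
      have h4 := congrFun h2 1
      simp only [Matrix.cons_val_zero, Matrix.cons_val_one] at h3 h4
      rw [h3, h4])
  have h2 : (fun q : ℕ × ℕ => t ^ q.1 * v ^ q.2) =
      ((MvPolynomial.aeval ![t, v] : MvPolynomial (Fin 2) K₀ →ₐ[K₀] L).toLinearMap ∘
        MvPolynomial.basisMonomials (Fin 2) K₀) ∘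
        fun q : ℕ × ℕ => Finsupp.equivFunOnFinite.symm ![q.1, q.2] := by
    funext q
    simp [MvPolynomial.aeval_monomial, Finsupp.prod_fintype, Fin.prod_univ_two]
  rw [h2]
  exact h1

/-- a basis of functions that are integral over the polynomial ring -/
theorem TP_basis {K₀ L : Type*} [Field K₀] [Field L] [Algebra K₀ L] {t v : L}
    (hi : AlgebraicIndependent K₀ ![t, v]) {e : ℕ} (he : 0 < e)
    (hd : finrank (IntermediateField.adjoin K₀ ({t, v} : Set L)) L = e) :
    ∃ β : Fin e → L, (∀ s, IsIntegral (Algebra.adjoin K₀ ({t, v} : Set L)) (β s)) ∧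
      LinearIndependent K₀ fun q : (ℕ × ℕ) × Fin e => t ^ q.1.1 * v ^ q.1.2 * β q.2 := by
  set K₂ := IntermediateField.adjoin K₀ ({t, v} : Set L) with hK₂
  have hfin : FiniteDimensional K₂ L := Module.finite_of_finrank_pos (by omega)
  let b := Module.finBasisOfFinrankEq K₂ L hd
  have h1 : ∀ s, ∃ y : Algebra.adjoin K₀ ({t, v} : Set L), y ≠ 0 ∧
      IsIntegral (Algebra.adjoin K₀ ({t, v} : Set L)) (y • b s) := fun s =>
    (IntermediateField.isAlgebraic_adjoin_iff.1
      (Algebra.IsAlgebraic.isAlgebraic (R := K₂) (b s))).exists_integral_multiple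
  choose y hy0 hy using h1
  refine ⟨fun s => y s • b s, hy, ?_⟩
  have hyK : ∀ s, (y s : L) ∈ K₂ := fun s => IntermediateField.algebra_adjoin_le_adjoin _ _ (y s).2
  have h2 := b.linearIndependent.units_smul fun s => Units.mk0 (⟨y s, hyK s⟩ : K₂) (fun h =>
    hy0 s (Subtype.ext (congrArg (fun z : K₂ => (z : L)) h)))
  have ht : t ∈ K₂ := IntermediateField.subset_adjoin _ _ (by simp)
  have hv : v ∈ K₂ := IntermediateField.subset_adjoin _ _ (by simp)
  have h3 : LinearIndependent K₀ fun q : ℕ × ℕ => (⟨t, ht⟩ : K₂) ^ q.1 * (⟨v, hv⟩ : K₂) ^ q.2 :=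
    LinearIndependent.of_comp K₂.val.toLinearMap (by
      convert TP_mono_indep hi using 1
      funext q
      simp)
  convert linearIndependent_smul h3 h2 using 1
  funext q
  simp [Algebra.smul_def, Units.smul_def]

/-- two pencil inequality -/
theorem tp {k L : Type u} [Field k] [Field L] [Algebra k L] (κ₀ κt κu : IntermediateField k L)
    {t v : L} (ht : κt = IntermediateField.adjoin k (κ₀ ∪ {t}))
    (hv : κu = IntermediateField.adjoin k (κ₀ ∪ {v})) (hi : AlgebraicIndependent κ₀ ![t, v])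
    [IsFF κt L] [IsFF κu L] {h : Div κu L} (hh : 0 ≤ h) (ι : Type) [Fintype ι] :
    degD (poles κu t) = degD (poles κt v) ∧
    ∃ B : ℕ, ∀ (ι' : Type) [Fintype ι'] (φ : Matrix ι' ι L) (δ y₁ x y l : ℕ), B ≤ x → B ≤ y₁ →
      (∀ a b, ∀ w : Place κt L, Ge w.O (-(δ * poles κt v w)) (φ a b)) →
      (∀ a b, ∀ w : Place κu L, Ge w.O (-(δ * h w)) (φ a b)) → y + l ≤ y₁ →
      gen (LinearMap.ker φ.mulVecLin) (y • poles κt v) =
        gen (LinearMap.ker φ.mulVecLin) ((y + l) • poles κt v) →
      l * min (x * degD (poles κt v) + y₁ * degD h)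
          (-sdeg κu (gen (LinearMap.ker φ.mulVecLin) (y • poles κt v))) ≤
        B * (x + y₁ + δ + 1) + Fintype.card ι * degD h * y₁ * (2 * y₁ + δ) := by
  have htv : Transcendental κt v := by
    refine TP_transc ht ?_
    have := hi.transcendental_adjoin (s := {0}) (i := 1) (by simp)
    rwa [Set.image_singleton] at this
  have hut : Transcendental κu t := by
    refine TP_transc hv ?_
    have := hi.transcendental_adjoin (s := {1}) (i := 0) (by simp)
    rwa [Set.image_singleton] at this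
  have ht0 : t ≠ 0 := by
    rintro rfl
    exact hut isAlgebraic_zero
  have hv0 : v ≠ 0 := by
    rintro rfl
    exact htv isAlgebraic_zero
  have hυ : degD (poles κt v) = finrank (IntermediateField.adjoin κ₀ ({t, v} : Set L)) L := by
    rw [degD_poles htv, TP_finrank_congr _ _ (TP_mem₂ ht)]
  have hτ : degD (poles κu t) = finrank (IntermediateField.adjoin κ₀ ({t, v} : Set L)) L := by
    rw [degD_poles hut, TP_finrank_congr _ _ (TP_mem₂ hv), Set.pair_comm]
  have he : 0 < finrank (IntermediateField.adjoin κ₀ ({t, v} : Set L)) L := by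
    rw [← TP_finrank_congr _ _ (TP_mem₂ (v := v) ht)]
    have := IsFF.finite htv
    exact Module.finrank_pos
  refine ⟨hτ.trans hυ.symm, ?_⟩
  obtain ⟨β, hβ, hβi⟩ := TP_basis hi he rfl
  have hpc : ∀ {κ : IntermediateField k L} (p : Place κ L) {a : L},
      a ∈ (algebraMap κ L).range → a ∈ p.O := by
    rintro κ p _ ⟨c, rfl⟩
    exact p.const c
  choose Bt hBt using fun s => TP_bound (K' := κt) v (β s) fun p hp =>
    TP_int_mem (hβ s) (fun c => hpc p (TP_const ht c)) (hpc p (TP_self ht)) hp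
  choose Bu hBu using fun s => TP_bound (K' := κu) t (β s) fun p hp =>
    TP_int_mem (hβ s) (fun c => hpc p (TP_const hv c)) hp (hpc p (TP_self hv))
  obtain ⟨B₀, hB₀⟩ := Finite.exists_le fun s => Bt s + Bu s
  obtain ⟨B, hB⟩ := TP_abs (TP_gen ht) (TP_gen hv) ht0 hv0 (TP_const ht) (TP_const hv)
    (TP_self ht) (TP_self hv) he hυ hτ β B₀
    (fun s p => (hBt s p).mono (by
      have h1 := TP_poles_nonneg v p
      have h2 : (Bt s : ℤ) ≤ B₀ := by have := hB₀ s; omega
      nlinarith))
    (fun s p => (hBu s p).mono (by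
      have h1 := TP_poles_nonneg t p
      have h2 : (Bu s : ℤ) ≤ B₀ := by have := hB₀ s; omega
      nlinarith)) hβi hh ι
  exact ⟨B, fun ι' _ φ δ y₁ x y l hx hy₁ _ hφ hy hS => hB ι' φ δ y₁ x y l hx hy₁ hφ hy hS⟩

end Pool.Agent.Lib.MP_7fcda1_ag
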