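import Pool.Agent.Lib.MP_7fcda1_ag.Mas2
import Pool.Agent.Lib.MP_7fcda1_ag.TP
import Pool.Agent.Lib.MP_7fcda1_ag.Resa

open scoped IntermediateField Polynomial WithZero
open Module

noncomputable section

universe u

namespace Pool.Agent.Lib.MP_7fcda1_ag


variable {k F : Type u} [Field k] [IsAlgClosed k] [Field F] [Algebra k F] {n : ℕ}
  {x : Fin (n + 2) → F}

section
variable {𝕂 : Type u} [Field 𝕂] [Algebra k 𝕂] [Algebra F 𝕂] [IsScalarTower k F 𝕂] {m : ℕ}
  {z : MZ n m → 𝕂} {I : Type*} [Fintype I] {ω : I → MvPolynomial (Fin n × MA n m) F}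

omit [IsAlgClosed k] [Algebra k 𝕂] [IsScalarTower k F 𝕂] in
theorem res_sF (h : Master k x z) : AlgebraicIndependent F (sF z) :=
  h.indep.comp Sum.inl Sum.inl_injective

omit [IsAlgClosed k] [Algebra k 𝕂] [IsScalarTower k F 𝕂] [Fintype I] in
theorem res_ne (h : Master k x z) (h₀ : ω ≠ 0) :
    (fun a => MvPolynomial.aeval (sF z) (ω a)) ≠ 0 := fun h1 =>
  h₀ (funext fun a => res_sF h ((congrFun h1 a).trans (map_zero _).symm))

theorem res_vord_nonpos (h : Master k x z) {V : ValuationSubring 𝕂} (hV : Adm k x z V) (hD : Disc V)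
    (hF : V.comap (algebraMap F 𝕂) = ⊤) (ht : ∀ i, tC z i ∈ V) (h₀ : ω ≠ 0)
    (hω : ∀ π, Prime π → ∃ a, ¬π ∣ ω a) :
    vord V (fun a => MvPolynomial.aeval (sF z) (ω a)) ≤ 0 := by
  obtain ⟨a, ha⟩ := h.prim hV hF ht h₀ hω
  rw [val_eq_one_iff (Or.inl hD)] at ha
  have := (vge_iff (res_ne h h₀)).2 (le_refl (vord V _)) a
  rwa [ge_iff ha.1, ha.2] at this

/-- degree of the Pluecker vector on a transversal curve -/
theorem res_upper (h : Master k x z) (i : Fin n) [IsFF (κU k x z i) 𝕂] (h₀ : ω ≠ 0)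
    (hω : ∀ π, Prime π → ∃ a, ¬π ∣ ω a) :
    degD (vdiv (κU k x z i) fun a => MvPolynomial.aeval (sF z) (ω a)) ≤
      (Finset.univ.sup fun a => (ω a).totalDegree : ℕ) * degD (hdiv (𝕂 := 𝕂) (κU k x z i) x) -
      (Finset.univ.sup fun a => bdeg i (ω a) : ℕ) * degD (poles (κU k x z i) (tC z i)) := by
  obtain ⟨a₀, ha₀⟩ := Function.ne_iff.1 h₀
  obtain ⟨σ, hσ, hσ', hσ₀⟩ := exists_spec h.model ha₀
  obtain ⟨a₁, ha₁, ha₁'⟩ : ∃ a, ω a ≠ 0 ∧ bdeg i (ω a) = Finset.univ.sup fun a => bdeg i (ω a) := by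
    obtain ⟨a, -, ha⟩ := Finset.exists_mem_eq_sup Finset.univ ⟨a₀, Finset.mem_univ _⟩
      fun a => bdeg i (ω a)
    by_cases h1 : ω a = 0
    · refine ⟨a₀, ha₀, le_antisymm (Finset.le_sup (f := fun a => bdeg i (ω a))
        (Finset.mem_univ _)) ?_⟩
      rw [ha, h1]
      simp [bdeg, MvPolynomial.weightedTotalDegree]
    · exact ⟨a, h1, ha.symm⟩
  have hT : (ω a₀).totalDegree ≤ Finset.univ.sup fun a => (ω a).totalDegree :=
    Finset.le_sup (f := fun a => (ω a).totalDegree) (Finset.mem_univ _)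
  rw [← ha₁']
  generalize (Finset.univ.sup fun a => (ω a).totalDegree) = T at *
  have key : vdiv (κU k x z i) (fun a => MvPolynomial.aeval (sF z) (ω a)) ≤
      div (κU k x z i) (algebraMap F 𝕂 (MvPolynomial.eval σ (ω a₀))) +
        T • hdiv (𝕂 := 𝕂) (κU k x z i) x - bdeg i (ω a₁) • poles (κU k x z i) (tC z i) := by
    intro v
    have hV : Adm k x z v.O := Or.inr ⟨i, h.resInd_U i v⟩
    have hh : 0 ≤ hdiv (𝕂 := 𝕂) (κU k x z i) x v := hdiv_nonneg h.model v
    have hTh : 0 ≤ T * hdiv (𝕂 := 𝕂) (κU k x z i) x v := by positivity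
    simp only [Finsupp.sub_apply, Finsupp.add_apply, Finsupp.smul_apply, nsmul_eq_mul, vdiv_apply,
      div_apply, poles_apply]
    have hN := (vge_iff (res_ne h h₀)).2 (le_refl (vord v.O _))
    by_cases hF : v.O.comap (algebraMap F 𝕂) = ⊤
    · rw [ord_of_comap_top hF]
      by_cases ht : tC z i ∈ v.O
      · have h1 := res_vord_nonpos h hV v.disc hF (fun l => by
          by_cases hl : l = i
          · exact hl ▸ ht
          · have := v.const ⟨_, IntermediateField.subset_adjoin _ _ ⟨.inr (.inr l), rfl⟩⟩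
            simpa [fU, hl] using this) h₀ hω
        have h2 : max 0 (-ord v.O (tC z i)) = 0 := by
          rcases (mem_iff_ge (Or.inl v.disc)).1 ht with h3 | h3
          · simp [h3]
          · omega
        rw [h2]
        omega
      · have h1 := h.pole (h.resInd_U i v) v.disc ht ha₁
        have h2 : ord v.O (tC z i) < 0 := by
          rw [mem_iff_ge (Or.inl v.disc), Ge, not_or] at ht
          omega
        have h3 := hN a₁
        rw [ge_iff fun h4 => ha₁ (res_sF h (h4.trans (map_zero _).symm)), h1] at h3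
        rw [max_eq_right (by omega)]
        linarith
    · have h1 := (val_eq_one_iff (Or.inl v.disc)).1 (h.t_unit hV hF i)
      have h2 := h.spec_ge hV v.disc hF (hdiv_ge h.model v) hσ hσ' (hN a₀)
      rw [ge_iff ((map_ne_zero _).2 hσ₀)] at h2
      have h3 : ((ω a₀).totalDegree : ℤ) * hdiv (𝕂 := 𝕂) (κU k x z i) x v ≤
          T * hdiv (𝕂 := 𝕂) (κU k x z i) x v :=
        mul_le_mul_of_nonneg_right (by exact_mod_cast hT) hh
      rw [h1.2]
      simp only [neg_zero, max_self, mul_zero]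
      omega
  have := degD_mono key
  simpa only [map_sub, map_add, map_nsmul, nsmul_eq_mul, degD_div, zero_add] using this

/-- loss of degree under specialisation -/
theorem res_lower (h : Master k x z) [IsFF (κC k x z) 𝕂] (h₀ : ω ≠ 0)
    (hω : ∀ π, Prime π → ∃ a, ¬π ∣ ω a) {σ : Fin n × MA n m → F} (hσ : ∀ β, Sec k x 1 (σ β))
    (hσ' : ∀ i, Sec k x 1 (∑ β, σ (i, β) * mu x (some β))) {a₀ : I}
    (hσ₀ : MvPolynomial.eval σ (ω a₀) ≠ 0) :
    degD (vdiv (κC k x z) fun a => MvPolynomial.aeval (sF z) (ω a)) -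
      (Finset.univ.sup fun a => (ω a).totalDegree : ℕ) * degD (hdiv (𝕂 := 𝕂) (κC k x z) x) ≤
    degD (vdiv (κC k x z) fun a => algebraMap F 𝕂 (MvPolynomial.eval σ (ω a))) := by
  have hT : ∀ a, (ω a).totalDegree ≤ Finset.univ.sup fun a => (ω a).totalDegree := fun a =>
    Finset.le_sup (f := fun a => (ω a).totalDegree) (Finset.mem_univ _)
  generalize (Finset.univ.sup fun a => (ω a).totalDegree) = T at *
  have key : vdiv (κC k x z) (fun a => MvPolynomial.aeval (sF z) (ω a)) -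
      T • hdiv (𝕂 := 𝕂) (κC k x z) x ≤
      vdiv (κC k x z) fun a => algebraMap F 𝕂 (MvPolynomial.eval σ (ω a)) := by
    intro v
    have hV : Adm k x z v.O := Or.inl (h.resInd_C v)
    have hh : 0 ≤ hdiv (𝕂 := 𝕂) (κC k x z) x v := hdiv_nonneg h.model v
    have hTh : 0 ≤ T * hdiv (𝕂 := 𝕂) (κC k x z) x v := by positivity
    simp only [Finsupp.sub_apply, Finsupp.smul_apply, nsmul_eq_mul, vdiv_apply]
    rw [← vge_iff fun h1 => (map_ne_zero _).2 hσ₀ (congrFun h1 a₀)]
    intro a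
    by_cases hF : v.O.comap (algebraMap F 𝕂) = ⊤
    · have h1 := res_vord_nonpos h hV v.disc hF (fun l =>
        v.const ⟨_, IntermediateField.subset_adjoin _ _ ⟨.inr (.inr l), rfl⟩⟩) h₀ hω
      right
      rw [ord_of_comap_top hF]
      omega
    · refine (h.spec_ge hV v.disc hF (hdiv_ge h.model v) hσ hσ'
        ((vge_iff (res_ne h h₀)).2 (le_refl (vord v.O _)) a)).mono ?_
      have h3 : ((ω a).totalDegree : ℤ) * hdiv (𝕂 := 𝕂) (κC k x z) x v ≤
          T * hdiv (𝕂 := 𝕂) (κC k x z) x v :=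
        mul_le_mul_of_nonneg_right (by exact_mod_cast hT a) hh
      omega
  have := degD_mono key
  simpa only [map_sub, map_nsmul, nsmul_eq_mul] using this

end

/-- the restriction theorem -/
theorem master (hx : Model k x) (ι : Type) [Fintype ι] (D ε : ℕ) :
    ∃ (κ L : Type u) (_ : Field κ) (_ : Field L) (_ : Algebra κ L) (_ : IsFF κ L) (j : F →+* L)
      (H : Div κ L), OnCurve k x j H ∧
      (∀ V, IsPD k x V → ∃ v : Place κ L, v.O.comap j = V ∧
        degD H ≤ finrank (K0 k x) F * v.deg) ∧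
      ∃ q₀ : ℕ, ∀ q ≥ q₀, ∀ (ι' : Type) [Fintype ι'] (φ : Matrix ι' ι F),
        (∀ a b, Sec k x (D * q) (φ a b)) → ∀ y l : ℕ, y + l ≤ D * q → q ≤ ε * l →
        gen (LinearMap.ker (φ.map j).mulVecLin) (y • H) =
          gen (LinearMap.ker (φ.map j).mulVecLin) ((y + l) • H) →
        ∃ G : Submodule F (ι → F),
          bc j G = gen (LinearMap.ker (φ.map j).mulVecLin) (y • H) := by
  obtain ⟨K, hK⟩ : ∃ K, K = 3 * Fintype.card ι * D ^ 2 * ε + 1 := ⟨_, rfl⟩
  obtain ⟨m, hm⟩ : ∃ m, m = n + 2 * n * K * ε + K + 1 := ⟨_, rfl⟩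
  obtain ⟨𝕂, _, _, _, _, z, h⟩ := exists_master hx (m := m) (by omega)
  have := h.isFF_C
  have := h.isFF_U
  have hC := h.onCurve
  refine ⟨κC k x z, 𝕂, _, _, _, inferInstance, algebraMap F 𝕂, hdiv (κC k x z) x, hC,
    fun V hV => h.deg_le hV, ?_⟩
  obtain ⟨c, hc⟩ := exists_RR (κC k x z) 𝕂
  have htp := fun i => tp (κ0 k x z i) (κC k x z) (κU k x z i) (κC_eq i) (κU_eq i) (h.pair_indep i)
    (hdiv_nonneg (𝕂 := 𝕂) (κ := κU k x z i) hx) ι
  simp only [h.poles_u] at htp
  choose he B hB using htp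
  refine ⟨∑ i, (B i + ε * B i * (2 * D + 2)) + ε * (2 * (2 * Fintype.card ι * c) + 1) + 1,
    fun q hq ι' _ φ hφ y l hyl hql hgen => ?_⟩
  have hD : 1 ≤ D := by
    rcases Nat.eq_zero_or_pos D with rfl | h1
    · have : l = 0 := by omega
      subst this
      omega
    · exact h1
  have hqB : ∀ i, B i + ε * B i * (2 * D + 2) + 1 ≤ q := fun i => by
    have := Finset.single_le_sum (f := fun i => B i + ε * B i * (2 * D + 2))
      (fun _ _ => Nat.zero_le _) (Finset.mem_univ i)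
    omega
  obtain ⟨w, γ, ω, hw, hS, hγ, hpl, h₀, hω⟩ := res_plucker (res_sF h) (master_gen_le h φ y)
  have hsd : ∀ (κ : IntermediateField k 𝕂) [IsFF κ 𝕂], sdeg κ (gen (LinearMap.ker
      (φ.map (algebraMap F 𝕂)).mulVecLin) (y • hdiv (κC k x z) x)) =
      degD (vdiv κ fun a => MvPolynomial.aeval (sF z) (ω a)) := by
    intro κ _
    refine (congrArg (sdeg κ) hS.symm).trans ?_
    rw [sdeg_eq hw, hpl, degD_vdiv_smul hγ]
  have hA : ∀ i, ((Finset.univ.sup fun a => bdeg i (ω a) : ℕ) : ℤ) * m -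
      (Finset.univ.sup fun a => (ω a).totalDegree : ℕ) ≤ K * q := by
    intro i
    have h1 := h.deg_poles_t i
    have h2 := hB i ι' (φ.map (algebraMap F 𝕂)) (D * q) (D * q) q y l (by have := hqB i; omega)
      (by have := hqB i; have : 1 * q ≤ D * q := Nat.mul_le_mul_right _ hD; omega)
      (fun a b v => (hφ a b).ge_hdiv hx v) (fun a b v => (hφ a b).ge_hdiv hx v) hyl hgen
    have h3 := res_upper h i h₀ hω
    have h4 := hC.pos
    rw [← he i, h1] at h2 h4
    rw [h1, ← hsd] at h3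
    refine res_arith hK (by omega) (by have := hqB i; omega) hql ?_
      (neg_nonneg.2 (sdeg_nonpos _)) h2 (by linarith)
    by_contra h5
    have h6 : (m : ℤ) * degD (hdiv (𝕂 := 𝕂) (κU k x z i) x) ≤ 0 :=
      mul_nonpos_of_nonneg_of_nonpos (by positivity) (by omega)
    omega
  have hT : (Finset.univ.sup fun a => (ω a).totalDegree) ≤
      ∑ i, Finset.univ.sup fun a => bdeg i (ω a) :=
    Finset.sup_le fun a _ => (res_totalDegree_le _).trans (Finset.sum_le_sum fun i _ =>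
      Finset.le_sup (f := fun a => bdeg i (ω a)) (Finset.mem_univ a))
  have hsum := Finset.sum_le_sum fun i (_ : i ∈ Finset.univ) => hA i
  simp only [Finset.sum_sub_distrib, Finset.sum_const, Finset.card_univ, Fintype.card_fin,
    nsmul_eq_mul, ← Finset.sum_mul] at hsum
  obtain ⟨f, hf⟩ := Function.ne_iff.1 h₀
  obtain ⟨σ, hσ, hσ', hσ₀⟩ := exists_spec hx hf
  have hlow := res_lower h h₀ hω hσ hσ' hσ₀
  have hT' : ((Finset.univ.sup fun a => (ω a).totalDegree : ℕ) : ℤ) ≤
      ∑ i, ((Finset.univ.sup fun a => bdeg i (ω a) : ℕ) : ℤ) := by exact_mod_cast hT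
  generalize (Finset.univ.sup fun a => (ω a).totalDegree) = T at *
  have hlt := res_arith' (T := T) (Y := 2 * Fintype.card ι * c) hm (by omega) hql hC.pos
    (by positivity) (le_trans (sub_le_sub_right
      (mul_le_mul_of_nonneg_right hT' (by positivity)) _) hsum)
  obtain ⟨e, he1, he2, he3⟩ := res_spec (res_sF h) hγ hpl hσ₀
  refine ⟨Submodule.span F (Set.range e), cut_unique hc hgen ?_ ?_
    (l := T * degD (hdiv (𝕂 := 𝕂) (κC k x z) x)) (mul_nonneg (by positivity) hC.pos.le) ?_ ?_⟩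
  · refine le_trans (bc_mono _ (Submodule.span_le.2 ?_)) (bc_ker _ φ).le
    rintro _ ⟨i, rfl⟩
    funext b
    refine he3 (φ b) (fun s => ?_) i
    have h1 : w s ∈ LinearMap.ker (φ.map (algebraMap F 𝕂)).mulVecLin :=
      gen_le _ (y • hdiv (κC k x z) x) (hS.le (Submodule.subset_span ⟨s, rfl⟩))
    exact congrFun h1 b
  · rw [finrank_bc, finrank_span_eq_card he1, Fintype.card_fin]
  · have h1 : bc (algebraMap F 𝕂) (Submodule.span F (Set.range e)) =
        Submodule.span 𝕂 (Set.range fun s i => algebraMap F 𝕂 (e s i)) := by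
      rw [bc_span, ← Set.range_comp]; rfl
    have h2 : (fun g => algebraMap F 𝕂 (pl e g)) =
        algebraMap F 𝕂 (MvPolynomial.eval σ (ω f))⁻¹ •
          fun a => algebraMap F 𝕂 (MvPolynomial.eval σ (ω a)) := by
      funext g
      rw [he2]
      simp
    rw [hsd, h1, sdeg_eq (linearIndependent_map _ he1), pl_map, h2,
      degD_vdiv_smul ((map_ne_zero _).2 (inv_ne_zero hσ₀))]
    exact hlow
  · simp only [map_nsmul, nsmul_eq_mul]
    push_cast at hlt ⊢
    linarith

end Pool.Agent.Lib.MP_7fcda1_ag
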