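import Pool.Agent.Lib.MP_7fcda1_ag.Key3a
import Pool.Agent.Lib.MP_7fcda1_ag.Res
import Pool.Agent.Lib.MP_7fcda1_ag.S1a

open scoped IntermediateField Polynomial WithZero
open Module

noncomputable section

universe u

namespace Pool.Agent.Lib.MP_7fcda1_ag


variable {k F : Type u} [Field k] [IsAlgClosed k] [Field F] [Algebra k F] {p : ℕ} [Fact p.Prime]
  [CharP k p] [CharP F p] {n : ℕ} {x : Fin (n + 2) → F} {N d : ℕ} {y : Fin (N + 1) → F}
  {Φ : Frame k F (n + 1)} {κ L : Type u} [Field κ] [Field L] [Algebra κ L] [IsFF κ L]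
  {j : F →+* L} {H : Div κ L} {c : ℕ}

omit [IsAlgClosed k] in
theorem k3_mem_spans {r : ℕ} {Ψ : Frame k F r} {E : Submodule F (Derivation k F F)}
    (h : Ψ.Spans E) (l : Fin r) : Ψ.D l ∈ E := by
  rw [← h]; exact Submodule.subset_span ⟨l, rfl⟩

omit [IsAlgClosed k] in
theorem k3_bc_range {F' : Type u} [Field F'] (φ : F →+* F') (χ : F' →+* L) :
    bc χ (LinearMap.range (iota φ Φ.D y)) = LinearMap.range (iota (χ.comp φ) Φ.D y) := by
  rw [← Submodule.map_top, bc_iota, bc_top, Submodule.map_top]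

/-- a positive cut with a gap that descends to level zero is a `p`-closed foliation -/
theorem isFol_cut (hx : Model k x) (hΦ : Φ.Spans ⊤) (hy : Emb k x d y) (h : OnCurve k x j H)
    (hc : RR κ L c) {e y₀ l : ℕ} (hy₀ : y₀ ≤ 2 * d * p ^ e) {U : Submodule F (Fin (n + 1) → F)}
    (hU : (bc (j.comp (iterateFrobenius F p e)) U).map
        (iota (j.comp (iterateFrobenius F p e)) Φ.D y) =
      gen (LinearMap.range (iota (j.comp (iterateFrobenius F p e)) Φ.D y)) (y₀ • H))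
    (hg : gen (LinearMap.range (iota (j.comp (iterateFrobenius F p e)) Φ.D y)) (y₀ • H) =
      gen (LinearMap.range (iota (j.comp (iterateFrobenius F p e)) Φ.D y)) ((y₀ + l) • H))
    (hl : (2 * (N + 1) ^ 2 * c : ℤ) < l * degD H) : IsFol p (U.map (comb Φ.D)) := by
  set ψ := j.comp (iterateFrobenius F p e) with hψ
  set T := LinearMap.range (iota ψ Φ.D y) with hT
  have hinj := iota_injective (Φ := Φ) hy ψ
  have hH := h.nonneg hx
  have hmem : ∀ a, a ∈ bc ψ U ↔ iota ψ Φ.D y a ∈ gen T (y₀ • H) := by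
    intro a
    rw [← hU]
    exact ⟨fun ha => ⟨a, ha, rfl⟩, fun ⟨b, hb, hb'⟩ => hinj hb' ▸ hb⟩
  -- generating sections
  have hsec : ∀ a ∈ bc ψ U, ∃ (m : ℕ) (t : Fin m → L) (g : Fin m → Fin (n + 1) → L),
      a = ∑ s, t s • g s ∧ ∀ s, g s ∈ bc ψ U ∧ ∀ v : Place κ L,
        TGe v.O ψ Φ.D (2 * d * p ^ e * H v - y₀ * H v) (g s) := by
    intro a ha
    obtain ⟨m, t, g, hg⟩ := Submodule.mem_span_set'.1 ((hmem a).1 ha)
    have h1 : ∀ s, ∃ b, iota ψ Φ.D y b = g s := fun s => (mem_Gam.1 (g s).2).1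
    choose b hb using h1
    refine ⟨m, t, b, hinj ?_, fun s => ⟨(hmem _).2 ?_, fun v => ?_⟩⟩
    · simp only [map_sum, map_smul, hb, hg]
    · rw [hb]; exact Submodule.subset_span (g s).2
    · rw [tge_iff hx hy h e, ← hψ, hb]
      refine ((mem_Gam.1 (g s).2).2 v).mono (le_of_eq ?_)
      simp only [Finsupp.smul_apply, nsmul_eq_mul]
      ring
  have hη : ∀ v : Place κ L, 0 ≤ 2 * d * p ^ e * H v - y₀ * H v := by
    intro v
    have h1 : (y₀ : ℤ) ≤ 2 * d * p ^ e := by exact_mod_cast hy₀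
    have h2 : 0 ≤ H v := hH v
    nlinarith
  -- a tangent vector that is congruent to positive local vectors lies in the cut
  have hcut : ∀ b : Fin (n + 1) → L, (∀ v : Place κ L, ∃ b', b' - b ∈ bc ψ U ∧
      TGe v.O ψ Φ.D (2 * d * p ^ e * H v - y₀ * H v) b') → b ∈ bc ψ U := by
    intro b hb
    rw [hmem]
    refine k3_mem hc (D := y₀ • H) hg.symm ?_ ⟨b, rfl⟩ fun v => ?_
    · simp only [map_nsmul, nsmul_eq_mul, Fintype.card_prod, Fintype.card_fin]
      push_cast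
      nlinarith
    · obtain ⟨b', h1, h2⟩ := hb v
      rw [tge_iff hx hy h e, ← hψ] at h2
      refine ((h2.mono (le_of_eq ?_)).qge _).congr ?_
      · simp only [Finsupp.smul_apply, nsmul_eq_mul]
        ring
      · rw [← map_sub, ← hmem, ← neg_sub]
        exact Submodule.neg_mem _ h1
  -- local frames
  have hloc : ∀ v : Place κ L, ∃ Ψ : Frame k F (finrank F (U.map (comb Φ.D))),
      Ψ.Spans (U.map (comb Φ.D)) ∧ Ψ.Int (v.O.comap ψ) := by
    intro v
    obtain ⟨Ψ, h1, h2⟩ := exists_frame p hx (V := v.O.comap ψ)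
      (by rw [hψ, comap_frob]; exact (h.cls v).symm)
    exact exists_subframe h1 h2 _
  obtain ⟨Ψ₀, hΨ₀, -⟩ := exists_subframe hΦ (V := ⊤) ⟨fun _ => trivial, fun _ _ _ => trivial⟩
    (U.map (comb Φ.D))
  have hinv : IsInv (U.map (comb Φ.D)) := by
    have h1 : ∀ a ∈ bc ψ U, ∀ a' ∈ bc ψ U, k3B ψ Φ Ψ₀ a a' ∈ bc ψ U := by
      intro a ha a' ha'
      obtain ⟨m, t, g, rfl, hg⟩ := hsec a ha
      obtain ⟨m', t', g', rfl, hg'⟩ := hsec a' ha'
      rw [k3B_sum]
      refine Submodule.sum_mem _ fun s _ => Submodule.smul_mem _ _ (hcut _ fun v => ?_)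
      obtain ⟨Ψ, h2, h3⟩ := hloc v
      refine ⟨k3B ψ Φ Ψ (g s.1) (g' s.2), ?_, ?_⟩
      · conv => enter [2, 2]; rw [k3_expand hΦ ψ h2 (hg s.1).1, k3_expand hΦ ψ h2 (hg' s.2).1]
        rw [k3B_sum, k3B, ← Finset.sum_sub_distrib]
        refine Submodule.sum_mem _ fun l _ => ?_
        rw [← smul_sub]
        exact Submodule.smul_mem _ _ (k3B_sub hΦ ψ hΨ₀ (k3_mem_spans h2 _)
          (k3_mem_spans h2 _))
      · refine k3_tge_sum hΦ v.disc (fun l => ?_) fun l b hb => ?_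
        · refine (((hg s.1).2 v _ (h3.1 l.1)).mul ((hg' s.2).2 v _ (h3.1 l.2))).mono ?_
          have := hη v
          omega
        · exact (v.O.comap ψ).toSubring.sub_mem (h3.2 _ _ (h3.2 _ _ hb)) (h3.2 _ _ (h3.2 _ _ hb))
    intro D hD D' hD'
    rw [← k3crd_mem_iff hΦ ψ]
    simpa using Submodule.add_mem _ (k3B_sub hΦ ψ hΨ₀ hD hD')
      (h1 _ ((k3crd_mem_iff hΦ ψ).2 hD) _ ((k3crd_mem_iff hΦ ψ).2 hD'))
  refine ⟨hinv, fun D hD D' hD' => ?_⟩
  choose P₀ hP₀ using fun l => exists_isPow p (Ψ₀.D l)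
  have h1 : ∀ a ∈ bc ψ U, k3P p ψ Φ Ψ₀ P₀ a ∈ bc ψ U := by
    intro a ha
    obtain ⟨m, t, g, rfl, hg⟩ := hsec a ha
    rw [k3P_sum]
    refine Submodule.sum_mem _ fun s _ => Submodule.smul_mem _ _ (hcut _ fun v => ?_)
    obtain ⟨Ψ, h2, h3⟩ := hloc v
    choose P hP using fun l => exists_isPow p (Ψ.D l)
    refine ⟨k3P p ψ Φ Ψ P (g s), ?_, ?_⟩
    · conv => enter [2, 2]; rw [k3_expand hΦ ψ h2 (hg s).1]
      rw [k3P_sum, k3P, ← Finset.sum_sub_distrib]
      refine Submodule.sum_mem _ fun l _ => ?_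
      rw [← smul_sub]
      exact Submodule.smul_mem _ _ (k3P_sub hΦ ψ hΨ₀ hinv hP₀
        (k3_mem_spans h2 _) (hP l))
    · refine k3_tge_sum hΦ v.disc (fun l => ?_) fun l b hb => ?_
      · refine (((hg s).2 v _ (h3.1 l)).pow p).mono ?_
        have := hη v
        have h4 : (1 : ℤ) ≤ p := by exact_mod_cast (Fact.out : p.Prime).one_le
        nlinarith
      · have h4 : ∀ m : ℕ, (Ψ.D l)^[m] b ∈ v.O.comap ψ := by
          intro m
          induction m with
          | zero => exact hb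
          | succ m ih => rw [Function.iterate_succ_apply']; exact h3.2 _ _ ih
        rw [hP l b]
        exact h4 p
  rw [← k3crd_mem_iff hΦ ψ]
  simpa using Submodule.add_mem _ (k3P_sub hΦ ψ hΨ₀ hinv hP₀ hD hD')
    (h1 _ ((k3crd_mem_iff hΦ ψ).2 hD))

theorem k3_arith {q n d d₀ p y' C l A : ℕ} {X r η Y : ℤ} (hp : 1 ≤ p)
    (h1 : η ≤ d₀ * (p - 1) * (X + r * (2 * d * η))) (h6 : q * X ≤ -r * (y' * η) + Y)
    (h7' : 2 * d * q ≤ y' + 2 * C * l) (hr0 : 0 ≤ r) (hr1 : r ≤ n + 1) (hη0 : 0 < η) (hY0 : 0 ≤ Y)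
    (hl2 : 2 * A * C * l ≤ q) (hA : A = 2 * (n + 1) * d₀ * p + 1) (hC : 1 ≤ C) (hl5 : Y < l * η) :
    False := by
  have h7 : (2 * d * q : ℤ) ≤ y' + 2 * C * l := by exact_mod_cast h7'
  have h8 : (q : ℤ) * (X + r * (2 * d * η)) ≤ (n + 1) * (2 * C * l * η) + Y := by
    have h9 : r * (2 * d * q * η) ≤ r * ((y' + 2 * C * l) * η) :=
      mul_le_mul_of_nonneg_left (mul_le_mul_of_nonneg_right h7 hη0.le) hr0
    have h10 : r * (2 * C * l * η) ≤ (n + 1) * (2 * C * l * η) :=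
      mul_le_mul_of_nonneg_right hr1 (by positivity)
    linarith
  have h9 : (0 : ℤ) ≤ d₀ * (p - 1) := mul_nonneg (by positivity) (by omega)
  have h10 : (q : ℤ) * η ≤ d₀ * p * ((n + 1) * (2 * C * l * η) + Y) := by
    have h11 : (q : ℤ) * η ≤ q * (d₀ * (p - 1) * (X + r * (2 * d * η))) :=
      mul_le_mul_of_nonneg_left h1 (by positivity)
    have h12 := mul_le_mul_of_nonneg_left h8 h9
    have h13 : (0 : ℤ) ≤ d₀ * ((n + 1) * (2 * C * l * η) + Y) := by positivity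
    linarith
  have h11 : (2 * A * C * l : ℤ) ≤ q := by exact_mod_cast hl2
  have h12 : (A : ℤ) = 2 * (n + 1) * (d₀ * p) + 1 := by rw [hA]; push_cast; ring
  have h13 : (1 : ℤ) ≤ C := by omega
  have h14 : Y < C * (l * η) := by
    have : 0 ≤ (l : ℤ) * η := by positivity
    nlinarith
  have h15 : 2 * A * (C * (l * η)) ≤ q * η := by
    have := mul_le_mul_of_nonneg_right h11 hη0.le
    linarith
  have hP0 : (0 : ℤ) ≤ d₀ * p := by positivity
  have h16 : (q : ℤ) * η ≤ 2 * (n + 1) * (d₀ * p) * (C * (l * η)) + d₀ * p * Y := by linarith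
  rw [h12] at h15
  generalize (C * (l * η) : ℤ) = Z at *
  generalize (d₀ * p : ℤ) = P at *
  have h18 : P * Y ≤ P * Z := mul_le_mul_of_nonneg_left h14.le hP0
  have h19 : 0 ≤ n * (P * Z) := mul_nonneg (by positivity) (mul_nonneg hP0 (by omega))
  have h20 : 0 ≤ P * Z := mul_nonneg hP0 (by omega)
  linarith

/-- positivity of the tangent bundle of the maximal cover -/
theorem key (hx : Model k x) (hs : Split k p x) (hm : Maximal k x) (hΦ : Φ.Spans ⊤) :
    ∃ (κ L : Type u) (_ : Field κ) (_ : Field L) (_ : Algebra κ L) (_ : IsFF κ L) (j : F →+* L)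
      (H : Div κ L), OnCurve k x j H ∧ Pos p j Φ.D H := by
  obtain ⟨N, d, y, hy⟩ := exists_emb p hx
  obtain ⟨φ₀, hφ₀⟩ := exists_ker_eq (LinearMap.range (iota (RingHom.id F) Φ.D y))
  obtain ⟨c₀, D₁, hc₀, hD₁⟩ := exists_clear hx
    (fun i : (Fin (N + 1) × Fin (N + 1)) × Fin (N + 1) × Fin (N + 1) => φ₀ i.1 i.2)
  set c₁ := MvPolynomial.aeval (fun i : Fin (n + 1) => x i.succ) c₀ with hc₁
  have hc₁' : c₁ ≠ 0 := fun h0 => hc₀ (hx.indep (by rw [map_zero]; exact h0))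
  have hφ₁ : LinearMap.ker (c₁ • φ₀).mulVecLin = LinearMap.range (iota (RingHom.id F) Φ.D y) := by
    rw [← hφ₀]
    ext a
    simp [hc₁']
  obtain ⟨A, hA⟩ : ∃ A, A = 2 * (n + 1) * finrank (K0 k x) F * p + 1 := ⟨_, rfl⟩
  obtain ⟨C, hC⟩ : ∃ C, C = Fintype.card (Fin (N + 1) × Fin (N + 1)) + 1 := ⟨_, rfl⟩
  obtain ⟨κ, L, _, _, _, _, j, H, h, h₀, q₀, hq₀⟩ :=
    master hx (Fin (N + 1) × Fin (N + 1)) (D₁ + 2 * d) (4 * A * C)
  obtain ⟨c, hc⟩ := exists_RR κ L
  refine ⟨κ, L, _, _, _, inferInstance, j, H, h, fun B => ?_⟩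
  have hH := h.nonneg hx
  have hp := (Fact.out : p.Prime)
  obtain ⟨l₀, hl₀⟩ : ∃ l₀, l₀ = B + 2 * (N + 1) ^ 2 * c + 1 := ⟨_, rfl⟩
  obtain ⟨e, he⟩ : ∃ e, e = q₀ + 2 * A * C * l₀ := ⟨_, rfl⟩
  have heq : e ≤ p ^ e := (Nat.lt_pow_self hp.one_lt).le
  refine ⟨e, ?_⟩
  obtain ⟨q, hq⟩ : ∃ q, q = p ^ e := ⟨_, rfl⟩
  obtain ⟨l, hl⟩ : ∃ l, l = q / (2 * A * C) := ⟨_, rfl⟩
  have hAC : 0 < 2 * A * C := by rw [hA, hC]; positivity
  have hl1 : l₀ ≤ l := hl ▸ (Nat.le_div_iff_mul_le hAC).2 (by rw [mul_comm]; omega)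
  have hl2 : 2 * A * C * l ≤ q := hl ▸ Nat.mul_div_le _ _
  have hl3 : q ≤ 4 * A * C * l := by
    have h1 : q < 2 * A * C * (l + 1) := hl ▸ Nat.lt_mul_div_succ _ hAC
    have h2 : 1 ≤ l := by omega
    nlinarith
  have hl4 : 2 * C * l ≤ 2 * d * q := by
    have := hy.pos
    have h1 : 1 * (2 * C * l) ≤ A * (2 * C * l) := Nat.mul_le_mul_right _ (by omega)
    have h2 : 1 * q ≤ 2 * d * q := Nat.mul_le_mul_right _ (by omega)
    linarith
  have hl5 : (2 * (N + 1) ^ 2 * c : ℤ) < l * degD H := by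
    have h1 : 2 * (N + 1) ^ 2 * c < l := by omega
    have h2 : (2 * (N + 1) ^ 2 * c : ℤ) < l := by exact_mod_cast h1
    have := h.pos
    nlinarith
  set ψ := j.comp (iterateFrobenius F p e) with hψ
  set T := LinearMap.range (iota ψ Φ.D y) with hT
  obtain ⟨y', hy1, hy2, hy3⟩ := exists_const T hH (2 * d * q - 2 * C * l) l
  rw [← hC] at hy2
  have hker : LinearMap.ker (((c₁ • φ₀).map (iterateFrobenius F p e)).map j).mulVecLin = T := by
    rw [Matrix.map_map, ← RingHom.coe_comp, ← bc_ker, hφ₁, k3_bc_range]; rfl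
  obtain ⟨G, hG⟩ := hq₀ q (by omega) _ ((c₁ • φ₀).map (iterateFrobenius F p e))
    (fun a b V hV => by
      have h1 := ((hD₁ (a, b) V hV).pow q).mono hx (m' := (D₁ + 2 * d) * q) (by nlinarith)
      rw [hq] at h1 ⊢
      exact h1) y' l (by
        have : 2 * d * q ≤ (D₁ + 2 * d) * q := Nat.mul_le_mul_right _ (by omega)
        have : 2 * C * l = C * l + C * l := by ring
        omega) hl3 (by rw [hker]; exact hy3)
  rw [hker] at hG
  have hind : ∀ i ≤ e, ∃ U : Submodule F (Fin (n + 1) → F),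
      (bc (j.comp (iterateFrobenius F p i)) U).map (iota ψ Φ.D y) = gen T (y' • H) := by
    intro i
    induction i with
    | zero =>
      intro _
      refine ⟨G.comap (iota (iterateFrobenius F p e) Φ.D y), ?_⟩
      rw [iterateFrobenius_zero, RingHom.comp_id, hψ, ← bc_iota, Submodule.map_comap_eq_of_le, hG]
      intro g hg
      rw [← mem_bc_iff j, k3_bc_range]
      exact gen_le T (y' • H) (hG ▸ k2_mem_bc j hg)
    | succ i ih =>
      intro hi
      obtain ⟨U, hU⟩ := ih (by omega)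
      obtain ⟨e', he'⟩ := Nat.exists_eq_add_of_le (show i ≤ e by omega)
      have hψ' : j.comp (iterateFrobenius F p (i + e')) = ψ := by rw [← he']
      obtain ⟨U', hU'⟩ := descend (p := p) hx (stable hx hs hm hΦ hy h h₀ hc (e := i) (e' := e')
        (y₀ := y') (l := l) (U := U) (by omega) (by rw [hψ']; exact hU) (by rw [hψ']; exact hy3)
        hl5)
      refine ⟨U', ?_⟩
      rw [← hU, ← hU', bc_comp, iterateFrobenius_add, iterateFrobenius_one]
      rfl
  obtain ⟨U, hU⟩ := hind e le_rfl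
  have hy4 : y' + B ≤ 2 * d * q := by
    have : 2 * C * l = C * l + C * l := by ring
    have : l ≤ C * l := Nat.le_mul_of_pos_left _ (by omega)
    omega
  have hfol := isFol_cut hx hΦ hy h hc (e := e) (y₀ := y') (l := l) (by rw [← hq]; omega) hU hy3 hl5
  have hinj := iota_injective (Φ := Φ) hy ψ
  by_cases hU' : U = ⊤
  · rw [hU', bc_top, Submodule.map_top] at hU
    rw [eq_top_iff]
    rintro a -
    have h1 : iota ψ Φ.D y a ∈ gen T (y' • H) := hU ▸ ⟨a, rfl⟩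
    obtain ⟨m, t, g, hg⟩ := Submodule.mem_span_set'.1 h1
    have h2 : ∀ s, ∃ b, iota ψ Φ.D y b = g s := fun s => (mem_Gam.1 (g s).2).1
    choose b hb using h2
    have h3 : a = ∑ s, t s • b s := hinj (by simp only [map_sum, map_smul, hb, hg])
    rw [h3]
    refine Submodule.sum_mem _ fun s _ => Submodule.smul_mem _ _ (Submodule.subset_span ?_)
    intro v
    rw [tge_iff hx hy h e, ← hψ, hb]
    refine ((mem_Gam.1 (g s).2).2 v).mono ?_
    have h4 : (y' : ℤ) + B ≤ 2 * d * p ^ e := by exact_mod_cast hq ▸ hy4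
    have h5 : 0 ≤ H v := hH v
    simp only [Finsupp.smul_apply, nsmul_eq_mul]
    nlinarith
  exfalso
  have h1 := fol_deg hx hs hm hΦ hy h h₀ hfol hU'
  have h2 := qbound hc (E := T) (W := T) (D := y' • H) (gen_le _ _) le_rfl
  have h3 : gen T (y' • H) = bc ψ (U.map (iota (RingHom.id F) Φ.D y)) := by
    rw [bc_iota, ← hU]; rfl
  have h4 : T = bc ψ (LinearMap.range (iota (RingHom.id F) Φ.D y)) := by
    rw [k3_bc_range]; rfl
  have hinj' := iota_injective (Φ := Φ) hy (RingHom.id F)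
  rw [h3] at h2
  rw [h4, finrank_bc, finrank_bc, hψ, sdeg_frob, sdeg_frob, LinearMap.finrank_range_of_inj hinj',
    ← (Submodule.equivMapOfInjective _ hinj' U).finrank_eq, finrank_fintype_fun_eq_card,
    Fintype.card_fin, Fintype.card_prod, Fintype.card_fin, map_nsmul, nsmul_eq_mul] at h2
  have h5 : finrank F U ≤ n + 1 := by simpa using U.finrank_le
  refine k3_arith (q := p ^ e) (Y := 2 * (N + 1) ^ 2 * c) (y' := y') hp.one_le h1 ?_ ?_ (by omega)
    (by omega) h.pos (by positivity) (hq ▸ hl2) hA (by omega) hl5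
  · push_cast at h2 ⊢
    linarith
  · rw [← hq]; omega

end Pool.Agent.Lib.MP_7fcda1_ag
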