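import Pool.Agent.Lib.MP_7fcda1_ag.Key2

open scoped IntermediateField Polynomial WithZero
open Module

noncomputable section

universe u

namespace Pool.Agent.Lib.MP_7fcda1_ag

variable {k F : Type u} [Field k] [Field F] [Algebra k F] {p : ℕ} [Fact p.Prime]
  [CharP F p] {n : ℕ} {Φ : Frame k F (n + 1)} {κ L : Type u} [Field κ] [Field L] [Algebra κ L]
  {c : ℕ}

theorem k3_mem [IsFF κ L] (hc : RR κ L c) {ι : Type*} [Fintype ι] {T S : Submodule L (ι → L)}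
    {D D' : Div κ L} (hS : gen T D' = S) (hl : (2 * Fintype.card ι * c : ℤ) < degD D' - degD D)
    {b : ι → L} (hb : b ∈ T) (hq : ∀ v : Place κ L, QGe v.O (-D v) S b) : b ∈ S := by
  have h1 := sdeg_quot_ge (κ := κ) S {b} D (by rintro _ rfl; exact hq)
  have h2 := qbound hc (E := T) (W := S ⊔ Submodule.span L {b}) (D := D') (hS ▸ le_sup_left)
    (sup_le (hS ▸ gen_le _ _) (by simpa using hb))
  rw [hS] at h2
  have h3 : finrank L S ≤ finrank L ↥(S ⊔ Submodule.span L {b}) :=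
    Submodule.finrank_mono le_sup_left
  have h4 : (0 : ℤ) ≤ 2 * Fintype.card ι * c := by positivity
  have h5 : finrank L ↥(S ⊔ Submodule.span L {b}) ≤ finrank L S := by
    by_contra h6
    have h7 : (1 : ℤ) ≤ finrank L ↥(S ⊔ Submodule.span L {b}) - finrank L S := by omega
    nlinarith
  have h6 := Submodule.eq_of_le_of_finrank_le (le_sup_left : S ≤ S ⊔ Submodule.span L {b}) h5
  rw [h6]
  exact Submodule.mem_sup_right (Submodule.mem_span_singleton_self b)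

/-- Coordinates of a derivation, pulled back. -/
def k3crd (ψ : F →+* L) (Φ : Frame k F (n + 1)) (D : Derivation k F F) : Fin (n + 1) → L :=
  fun i => ψ (D (Φ.y i))

theorem k3_comb_y {r : ℕ} (Ψ : Frame k F r) (a : Fin r → F) (i : Fin r) :
    comb Ψ.D a (Ψ.y i) = a i := by
  simp [comb_apply, Ψ.dual]

theorem k3_dψ_crd (hΦ : Φ.Spans ⊤) (ψ : F →+* L) (D : Derivation k F F) (b : F) :
    dψ ψ Φ.D b (k3crd ψ Φ D) = ψ (D b) := by
  rw [k2_dψ_apply]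
  conv_rhs => rw [hΦ.eq_comb (D := D) trivial, comb_apply, map_sum]
  simp [k3crd]

theorem k3crd_comb (ψ : F →+* L) {r : ℕ} (D : Fin r → Derivation k F F) (a : Fin r → F) :
    k3crd ψ Φ (comb D a) = ∑ l, ψ (a l) • k3crd ψ Φ (D l) := by
  funext i
  simp [k3crd, comb_apply]

theorem k3crd_sub (ψ : F →+* L) (D D' : Derivation k F F) :
    k3crd ψ Φ (D - D') = k3crd ψ Φ D - k3crd ψ Φ D' := by
  funext i
  simp [k3crd]

theorem k3crd_mem_iff (hΦ : Φ.Spans ⊤) (ψ : F →+* L) {U : Submodule F (Fin (n + 1) → F)}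
    {D : Derivation k F F} : k3crd ψ Φ D ∈ bc ψ U ↔ D ∈ U.map (comb Φ.D) := by
  refine (mem_bc_iff ψ (w := fun i => D (Φ.y i))).trans ⟨fun h => ?_, ?_⟩
  · exact ⟨_, h, (hΦ.eq_comb (D := D) trivial).symm⟩
  · rintro ⟨a, ha, rfl⟩
    simp only [k3_comb_y]
    exact ha

theorem k3_expand (hΦ : Φ.Spans ⊤) (ψ : F →+* L) {U : Submodule F (Fin (n + 1) → F)} {r : ℕ}
    {Ψ : Frame k F r} (hΨ : Ψ.Spans (U.map (comb Φ.D))) {a : Fin (n + 1) → L} (ha : a ∈ bc ψ U) :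
    a = ∑ l, dψ ψ Φ.D (Ψ.y l) a • k3crd ψ Φ (Ψ.D l) := by
  induction ha using Submodule.span_induction with
  | mem a ha =>
    obtain ⟨u, hu, rfl⟩ := ha
    have h1 : (fun i => ψ (u i)) = k3crd ψ Φ (comb Φ.D u) := by
      funext i; rw [k3crd, k3_comb_y]
    simp only [h1, k3_dψ_crd hΦ]
    conv_lhs => rw [hΨ.eq_comb ⟨u, hu, rfl⟩, k3crd_comb]
  | zero => simp
  | add a b _ _ ha hb =>
    simp only [map_add, add_smul, Finset.sum_add_distrib]
    rw [← ha, ← hb]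
  | smul t a _ ha =>
    simp only [map_smul, smul_eq_mul, mul_smul, ← Finset.smul_sum]
    rw [← ha]

theorem k3_tge_sum (hΦ : Φ.Spans ⊤) {ψ : F →+* L} {V : ValuationSubring L} (hV : Disc V)
    {σ : Type*} [Fintype σ] {t : σ → L} {D : σ → Derivation k F F} {m : ℤ}
    (ht : ∀ s, Ge V m (t s)) (hD : ∀ s b, ψ b ∈ V → ψ (D s b) ∈ V) :
    TGe V ψ Φ.D m (∑ s, t s • k3crd ψ Φ (D s)) := by
  intro b hb
  rw [map_sum]
  refine Ge.sum fun s _ => ?_
  rw [map_smul, k3_dψ_crd hΦ, smul_eq_mul]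
  simpa using (ht s).mul ((mem_iff_ge (Or.inl hV)).1 (hD s b hb))

theorem k3_lie_comb {r : ℕ} (D : Fin r → Derivation k F F) (f g : Fin r → F) :
    ⁅comb D f, comb D g⁆ - ∑ s : Fin r × Fin r, (f s.1 * g s.2) • ⁅D s.1, D s.2⁆ =
      comb D (fun l => comb D f (g l) - comb D g (f l)) := by
  ext b
  have h0 : ∀ (X : Fin r × Fin r → Derivation k F F), (∑ s, X s) b = ∑ s, X s b := fun X =>
    map_sum (AddMonoidHom.mk' (fun D : Derivation k F F => D b) fun _ _ => rfl) X _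
  rw [Derivation.sub_apply, h0, Derivation.commutator_apply]
  simp only [comb_apply, map_sum, Derivation.leibniz, smul_eq_mul, Derivation.smul_apply,
    Derivation.commutator_apply, Fintype.sum_prod_type, Finset.mul_sum, sub_mul,
    Finset.sum_mul, Finset.sum_add_distrib, Finset.sum_sub_distrib, mul_sub]
  have h1 : ∑ i, ∑ l, g i * (f l * D l (D i b)) = ∑ i, ∑ l, f i * g l * D i (D l b) := by
    rw [Finset.sum_comm]
    exact Finset.sum_congr rfl fun _ _ => Finset.sum_congr rfl fun _ _ => by ring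
  have h2 : ∑ i, ∑ l, f i * (g l * D l (D i b)) = ∑ i, ∑ l, f i * g l * D l (D i b) :=
    Finset.sum_congr rfl fun _ _ => Finset.sum_congr rfl fun _ _ => by ring
  have h3 : ∑ i, ∑ l, D i b * (f l * D l (g i)) = ∑ i, ∑ l, f l * D l (g i) * D i b :=
    Finset.sum_congr rfl fun _ _ => Finset.sum_congr rfl fun _ _ => by ring
  have h4 : ∑ i, ∑ l, D i b * (g l * D l (f i)) = ∑ i, ∑ l, g l * D l (f i) * D i b :=
    Finset.sum_congr rfl fun _ _ => Finset.sum_congr rfl fun _ _ => by ring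
  rw [h1, h2, h3, h4]
  ring

/-- A lift of the bracket form. -/
def k3B (ψ : F →+* L) (Φ : Frame k F (n + 1)) {r : ℕ} (Ψ : Frame k F r)
    (a a' : Fin (n + 1) → L) : Fin (n + 1) → L :=
  ∑ s : Fin r × Fin r, (dψ ψ Φ.D (Ψ.y s.1) a * dψ ψ Φ.D (Ψ.y s.2) a') • k3crd ψ Φ ⁅Ψ.D s.1, Ψ.D s.2⁆

theorem k3B_sum (ψ : F →+* L) {r : ℕ} (Ψ : Frame k F r) {σ τ : Type*} [Fintype σ] [Fintype τ]
    (t : σ → L) (t' : τ → L) (a : σ → Fin (n + 1) → L) (a' : τ → Fin (n + 1) → L) :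
    k3B ψ Φ Ψ (∑ s, t s • a s) (∑ s, t' s • a' s) =
      ∑ s : σ × τ, (t s.1 * t' s.2) • k3B ψ Φ Ψ (a s.1) (a' s.2) := by
  simp only [k3B, map_sum, map_smul, smul_eq_mul, Finset.smul_sum, smul_smul]
  rw [Finset.sum_comm]
  refine Finset.sum_congr rfl fun l _ => ?_
  rw [← Finset.sum_smul, Finset.sum_mul_sum, Fintype.sum_prod_type]
  congr 1
  exact Finset.sum_congr rfl fun _ _ => Finset.sum_congr rfl fun _ _ => by ring

theorem k3B_sub (hΦ : Φ.Spans ⊤) (ψ : F →+* L) {U : Submodule F (Fin (n + 1) → F)} {r : ℕ}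
    {Ψ : Frame k F r} (hΨ : Ψ.Spans (U.map (comb Φ.D))) {D D' : Derivation k F F}
    (hD : D ∈ U.map (comb Φ.D)) (hD' : D' ∈ U.map (comb Φ.D)) :
    k3crd ψ Φ ⁅D, D'⁆ - k3B ψ Φ Ψ (k3crd ψ Φ D) (k3crd ψ Φ D') ∈ bc ψ U := by
  have h1 := k3_lie_comb Ψ.D (fun l => D (Ψ.y l)) fun l => D' (Ψ.y l)
  rw [← hΨ.eq_comb hD, ← hΨ.eq_comb hD'] at h1
  have h2 : k3B ψ Φ Ψ (k3crd ψ Φ D) (k3crd ψ Φ D') = k3crd ψ Φ
      (∑ s : Fin r × Fin r, (D (Ψ.y s.1) * D' (Ψ.y s.2)) • ⁅Ψ.D s.1, Ψ.D s.2⁆) := by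
    have h0 : ∀ (X : Fin r × Fin r → Derivation k F F) b, (∑ s, X s) b = ∑ s, X s b := fun X b =>
      map_sum (AddMonoidHom.mk' (fun D : Derivation k F F => D b) fun _ _ => rfl) X _
    funext i
    simp only [k3B, k3_dψ_crd hΦ, Finset.sum_apply, Pi.smul_apply, smul_eq_mul]
    simp only [k3crd, h0, map_sum, Derivation.smul_apply, smul_eq_mul, map_mul]
  rw [h2, ← k3crd_sub, h1, k3crd_mem_iff hΦ, ← hΨ, comb, Fintype.linearCombination_apply]
  exact Submodule.sum_mem _ fun l _ => Submodule.smul_mem _ _ (Submodule.subset_span ⟨l, rfl⟩)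

/-- A lift of the `p`-curvature. -/
def k3P (p : ℕ) (ψ : F →+* L) (Φ : Frame k F (n + 1)) {r : ℕ} (Ψ : Frame k F r)
    (P : Fin r → Derivation k F F) (a : Fin (n + 1) → L) : Fin (n + 1) → L :=
  ∑ l, dψ ψ Φ.D (Ψ.y l) a ^ p • k3crd ψ Φ (P l)

theorem k3P_sum (ψ : F →+* L) {r : ℕ} (Ψ : Frame k F r) (P : Fin r → Derivation k F F)
    {σ : Type*} [Fintype σ] (t : σ → L) (a : σ → Fin (n + 1) → L) :
    k3P p ψ Φ Ψ P (∑ s, t s • a s) = ∑ s, t s ^ p • k3P p ψ Φ Ψ P (a s) := by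
  have : CharP L p := charP_of_injective_ringHom ψ.injective p
  simp only [k3P, map_sum, map_smul, smul_eq_mul, Finset.smul_sum, smul_smul, sum_pow_char,
    Finset.sum_smul, mul_pow]
  exact Finset.sum_comm

theorem k3P_sub (hΦ : Φ.Spans ⊤) (ψ : F →+* L) {U : Submodule F (Fin (n + 1) → F)} {r : ℕ}
    {Ψ : Frame k F r} (hΨ : Ψ.Spans (U.map (comb Φ.D))) (hE : IsInv (U.map (comb Φ.D)))
    {P : Fin r → Derivation k F F} (hP : ∀ l, IsPow p (Ψ.D l) (P l)) {D D' : Derivation k F F}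
    (hD : D ∈ U.map (comb Φ.D)) (hD' : IsPow p D D') :
    k3crd ψ Φ D' - k3P p ψ Φ Ψ P (k3crd ψ Φ D) ∈ bc ψ U := by
  have h1 := plin hΨ hE (D := Ψ.D) (fun l => hΨ ▸ Submodule.subset_span ⟨l, rfl⟩) hP
    (fun l => D (Ψ.y l)) (D₁ := D') (by rw [← hΨ.eq_comb hD]; exact hD')
  rw [← k3crd_mem_iff hΦ ψ, k3crd_sub, k3crd_comb] at h1
  simpa only [k3P, k3_dψ_crd hΦ, map_pow] using h1

end Pool.Agent.Lib.MP_7fcda1_ag
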