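import Pool.Agent.Lib.MP_7fcda1_ag.Iface

open scoped IntermediateField Polynomial WithZero
open Module

noncomputable section

universe u

namespace Pool.Agent.Lib.MP_7fcda1_ag

/-- a subspace whose image modulo `N` has no `μ + 1` independent functionals is spanned modulo `N`
by at most `μ` of its elements -/
theorem krull_span {Ω V : Type*} [Field Ω] [AddCommGroup V] [Module Ω V] (A N : Submodule Ω V)
    (μ : ℕ)
    (hμ : ∀ l : Fin (μ + 1) → V →ₗ[Ω] Ω, (∀ i, ∀ f ∈ N, l i f = 0) →
      ∃ c : Fin (μ + 1) → Ω, c ≠ 0 ∧ ∀ f ∈ A, ∑ i, c i * l i f = 0) :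
    ∃ s : Finset V, s.card ≤ μ ∧ (s : Set V) ⊆ A ∧ A ≤ Submodule.span Ω (s : Set V) ⊔ N := by
  classical
  obtain ⟨b, hbA, hbs, hb⟩ := exists_linearIndependent Ω (N.mkQ '' (A : Set V))
  have key : ∀ t : Finset (V ⧸ N), (t : Set (V ⧸ N)) ⊆ b → t.card ≤ μ := by
    intro t ht
    by_contra hlt
    have hlt : μ + 1 ≤ t.card := by omega
    obtain ⟨t', ht't, hc⟩ := Finset.exists_subset_card_eq hlt
    let e : Fin (μ + 1) ≃ t' := (t'.equivFinOfCardEq hc).symm
    let w : Fin (μ + 1) → V ⧸ N := fun i => (e i : V ⧸ N)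
    have hwb : ∀ i, w i ∈ b := fun i => ht (ht't (e i).2)
    have hw : LinearIndependent Ω w := by
      refine hb.comp (fun i => (⟨w i, hwb i⟩ : b)) ?_
      intro i j hij
      apply e.injective
      exact Subtype.ext (congrArg (fun z : b => (z : V ⧸ N)) hij)
    have hex : ∀ i, ∃ g : (V ⧸ N) →ₗ[Ω] Ω, ∀ j, g (w j) = if j = i then 1 else 0 := by
      intro i
      obtain ⟨g, hg⟩ := LinearMap.exists_extend
        ((Finsupp.lapply i).comp (hw.repr : Submodule.span Ω (Set.range w) →ₗ[Ω] _))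
      refine ⟨g, fun j => ?_⟩
      have hj : w j ∈ Submodule.span Ω (Set.range w) := Submodule.subset_span ⟨j, rfl⟩
      have h1 := LinearMap.congr_fun hg ⟨w j, hj⟩
      rw [LinearMap.comp_apply, LinearMap.comp_apply, hw.repr_eq_single j ⟨w j, hj⟩ rfl] at h1
      rw [show g (w j) = _ from h1, Finsupp.lapply_apply, Finsupp.single_apply]
    choose g hg using hex
    obtain ⟨c, hc0, hc⟩ := hμ (fun i => (g i).comp N.mkQ) (fun i f hf => by
      rw [LinearMap.comp_apply, Submodule.mkQ_apply, (Submodule.Quotient.mk_eq_zero N).2 hf,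
        map_zero])
    apply hc0
    funext j
    obtain ⟨f, hfA, hf⟩ := hbA (hwb j)
    have h2 := hc f hfA
    simp only [LinearMap.comp_apply, hf, hg, mul_ite, mul_one, mul_zero, Finset.sum_ite_eq,
      Finset.mem_univ, if_true] at h2
    exact h2
  have hfin : b.Finite := by
    by_contra hinf
    obtain ⟨t, ht, hc⟩ := Set.Infinite.exists_subset_card_eq hinf (μ + 1)
    have := key t ht
    omega
  have hl : ∀ z : b, ∃ f ∈ A, N.mkQ f = z := fun z => hbA z.2
  choose r hrA hr using hl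
  have : Fintype b := hfin.fintype
  refine ⟨Finset.univ.image r, ?_, ?_, ?_⟩
  · refine Finset.card_image_le.trans ?_
    have := key hfin.toFinset (by simp)
    rwa [Set.Finite.card_toFinset, ← Finset.card_univ] at this
  · intro f hf
    obtain ⟨z, -, rfl⟩ := Finset.mem_image.1 (Finset.mem_coe.1 hf)
    exact hrA z
  · intro f hf
    have h1 : N.mkQ f ∈ Submodule.span Ω b := by
      rw [hbs]
      exact Submodule.subset_span ⟨f, hf, rfl⟩
    have h2 : Submodule.span Ω b ≤
        (Submodule.span Ω ((Finset.univ.image r : Finset V) : Set V)).map N.mkQ := by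
      rw [Submodule.span_le]
      intro z hz
      refine ⟨r ⟨z, hz⟩, Submodule.subset_span ?_, hr ⟨z, hz⟩⟩
      exact Finset.mem_coe.2 (Finset.mem_image_of_mem _ (Finset.mem_univ _))
    obtain ⟨f', hf', he⟩ := h2 h1
    have h3 : f - f' ∈ N := by
      rw [← Submodule.Quotient.mk_eq_zero, Submodule.Quotient.mk_sub]
      exact sub_eq_zero.2 he.symm
    have h4 : f = f' + (f - f') := by abel
    rw [h4]
    exact Submodule.add_mem_sup hf' h3

theorem krull_ker_eq {Ω σ : Type*} [Field Ω] :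
    RingHom.ker (MvPolynomial.constantCoeff : MvPolynomial σ Ω →+* Ω) =
      MvPolynomial.idealOfVars σ Ω := by
  ext p
  rw [← pow_one (MvPolynomial.idealOfVars σ Ω), MvPolynomial.mem_pow_idealOfVars_iff',
    RingHom.mem_ker, MvPolynomial.constantCoeff_eq]
  constructor
  · intro h x hx
    have hx0 : x = 0 := by
      rw [← Finsupp.degree_eq_zero_iff]
      omega
    rw [hx0]
    exact h
  · intro h
    exact h 0 (by simp)

theorem krull_lin {Ω σ : Type*} [Field Ω] [Fintype σ] {g : MvPolynomial σ Ω}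
    (hg : g ∈ RingHom.ker (MvPolynomial.constantCoeff : MvPolynomial σ Ω →+* Ω)) :
    g - ∑ j, g.coeff (Finsupp.single j 1) • MvPolynomial.X j ∈
      RingHom.ker (MvPolynomial.constantCoeff : MvPolynomial σ Ω →+* Ω) *
        RingHom.ker (MvPolynomial.constantCoeff : MvPolynomial σ Ω →+* Ω) := by
  classical
  rw [krull_ker_eq, ← pow_two, MvPolynomial.mem_pow_idealOfVars_iff']
  intro x hx
  rw [RingHom.mem_ker, MvPolynomial.constantCoeff_eq] at hg
  rw [MvPolynomial.coeff_sub, MvPolynomial.coeff_sum]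
  simp only [MvPolynomial.coeff_smul, MvPolynomial.coeff_X, smul_eq_mul, mul_ite, mul_one,
    mul_zero]
  by_cases h0 : x = 0
  · subst h0
    rw [hg, Finset.sum_eq_zero, sub_zero]
    intro j _
    rw [if_neg]
    simp
  · have h1 : x.degree = 1 := by
      have := (Finsupp.degree_eq_zero_iff x).not.2 h0
      omega
    obtain ⟨i, rfl⟩ : ∃ i, x = Finsupp.single i 1 := by
      obtain ⟨i, hi⟩ := Finsupp.ne_iff.1 h0
      refine ⟨i, ?_⟩
      have hle : Finsupp.single i 1 ≤ x := by
        rw [Finsupp.single_le_iff]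
        simp only [Finsupp.coe_zero, Pi.zero_apply] at hi
        omega
      obtain ⟨c, rfl⟩ := le_iff_exists_add.1 hle
      rw [map_add, Finsupp.degree_single] at h1
      have hc : c = 0 := by
        rw [← Finsupp.degree_eq_zero_iff]
        omega
      rw [hc, add_zero]
    rw [Finset.sum_eq_single i, if_pos rfl, sub_self]
    · intro j _ hj
      rw [if_neg]
      intro h
      exact hj ((Finsupp.single_left_inj one_ne_zero).1 h)
    · simp

theorem krull_height {Ω σ : Type*} [Field Ω] [Fintype σ] :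
    (Fintype.card σ : ℕ∞) ≤
      (RingHom.ker (MvPolynomial.constantCoeff : MvPolynomial σ Ω →+* Ω)).height := by
  classical
  let φ : Finset σ → (MvPolynomial σ Ω →ₐ[Ω] MvPolynomial σ Ω) := fun s =>
    MvPolynomial.aeval fun i => if i ∈ s then 0 else MvPolynomial.X i
  have hp : ∀ s, (RingHom.ker (φ s)).IsPrime := fun s => RingHom.ker_isPrime _
  have key : ∀ s : Finset σ, (s.card : ℕ∞) ≤ (RingHom.ker (φ s)).height := by
    intro s
    induction s using Finset.induction_on with
    | empty => simp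
    | insert a s ha ih =>
      have hlt : RingHom.ker (φ s) < RingHom.ker (φ (insert a s)) := by
        have hc : (φ (insert a s)).comp (φ s) = φ (insert a s) := by
          apply MvPolynomial.algHom_ext
          intro i
          by_cases hi : i ∈ s
          · simp [φ, hi]
          · simp [φ, hi]
        refine lt_of_le_of_ne ?_ ?_
        · intro p hp
          rw [RingHom.mem_ker] at hp ⊢
          rw [← hc, AlgHom.comp_apply, hp, map_zero]
        · intro he
          have h1 : MvPolynomial.X a ∈ RingHom.ker (φ (insert a s)) := by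
            rw [RingHom.mem_ker]
            simp [φ]
          rw [← he, RingHom.mem_ker] at h1
          simp [φ, ha] at h1
      have := hp s
      have := hp (insert a s)
      refine le_trans ?_ (Ideal.height_add_one_le_of_lt_of_isPrime hlt)
      rw [Finset.card_insert_of_notMem ha, Nat.cast_add, Nat.cast_one]
      gcongr
  refine (key Finset.univ).trans (Ideal.height_mono ?_)
  intro p hp
  rw [RingHom.mem_ker] at hp ⊢
  have hc : (MvPolynomial.constantCoeff : MvPolynomial σ Ω →+* Ω).comp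
      (φ Finset.univ : MvPolynomial σ Ω →+* MvPolynomial σ Ω) = MvPolynomial.constantCoeff := by
    apply MvPolynomial.ringHom_ext
    · intro r
      simp [φ]
    · intro i
      simp [φ]
  rw [← hc, RingHom.comp_apply]
  rw [show ((φ Finset.univ : MvPolynomial σ Ω →+* MvPolynomial σ Ω) p) = 0 from hp, map_zero]

/-- Nakayama: an inclusion modulo `𝔪 P` holds for every prime inside `𝔪` -/
theorem krull_nak {R : Type*} [CommRing R] [IsNoetherianRing R] {𝔪 𝔮 P : Ideal R} [𝔮.IsPrime]
    (hm : 𝔪 ≠ ⊤) (hq : 𝔮 ≤ 𝔪) (h : P ≤ 𝔮 ⊔ 𝔪 * P) : P ≤ 𝔮 := by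
  obtain ⟨r, hr, hrP⟩ := Submodule.exists_sub_one_mem_and_smul_le_of_fg_of_le_sup (I := 𝔪)
    (N := 𝔮) (IsNoetherian.noetherian P) le_rfl h
  intro p hp
  have h1 : r * p ∈ 𝔮 := hrP (Submodule.smul_mem_pointwise_smul p r P hp)
  refine (Ideal.IsPrime.mem_or_mem inferInstance h1).resolve_left fun hr' => hm ?_
  rw [Ideal.eq_top_iff_one]
  have := 𝔪.sub_mem (hq hr') hr
  rwa [sub_sub_cancel] at this

theorem krull {Ω σ : Type*} [Field Ω] [Fintype σ] (I J : Ideal (MvPolynomial σ Ω)) (hIJ : I ≤ J)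
    (hJ : J ≤ RingHom.ker MvPolynomial.constantCoeff) (μ : ℕ)
    (hμ : ∀ l : Fin (μ + 1) → MvPolynomial σ Ω →ₗ[Ω] Ω,
      (∀ i, ∀ f ∈ RingHom.ker MvPolynomial.constantCoeff * I, l i f = 0) →
        ∃ c : Fin (μ + 1) → Ω, c ≠ 0 ∧ ∀ f ∈ I, ∑ i, c i * l i f = 0)
    (T : Submodule Ω (σ → Ω))
    (hT : ∀ ζ : σ → Ω, (∀ g ∈ J, ∑ i, g.coeff (Finsupp.single i 1) * ζ i = 0) → ζ ∈ T)
    (h : finrank Ω T + μ < Fintype.card σ) :
    ∃ 𝔭 : Ideal (MvPolynomial σ Ω), 𝔭.IsPrime ∧ I ≤ 𝔭 ∧
      𝔭 ≤ RingHom.ker MvPolynomial.constantCoeff ∧ ¬J ≤ 𝔭 := by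
  classical
  set 𝔪 : Ideal (MvPolynomial σ Ω) := RingHom.ker MvPolynomial.constantCoeff with hm
  have hmp : 𝔪.IsPrime := RingHom.ker_isPrime _
  by_contra hcon
  have hall : ∀ 𝔭 : Ideal (MvPolynomial σ Ω), 𝔭.IsPrime → I ≤ 𝔭 → 𝔭 ≤ 𝔪 → J ≤ 𝔭 := by
    intro 𝔭 h1 h2 h3
    by_contra h4
    exact hcon ⟨𝔭, h1, h2, h3, h4⟩
  obtain ⟨s, hsc, hsI, hs⟩ := krull_span (I.restrictScalars Ω) ((𝔪 * I).restrictScalars Ω) μ hμ
  obtain ⟨t, htc, htm, ht⟩ := krull_span (𝔪.restrictScalars Ω)
    ((J ⊔ 𝔪 * 𝔪).restrictScalars Ω) (finrank Ω T) (by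
      intro l hl
      have hval : ∀ i, ∀ g ∈ 𝔪, l i g =
          ∑ j, g.coeff (Finsupp.single j 1) * l i (MvPolynomial.X j) := by
        intro i g hg
        have h1 := hl i _ (Ideal.mem_sup_right (krull_lin hg))
        rw [map_sub, sub_eq_zero, map_sum] at h1
        simpa only [map_smul, smul_eq_mul] using h1
      have hζ : ∀ i, (fun j => l i (MvPolynomial.X j)) ∈ T := by
        intro i
        refine hT _ fun g hg => ?_
        rw [← hval i g (hJ hg)]
        exact hl i g (Ideal.mem_sup_left hg)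
      have hdep : ¬LinearIndependent Ω
          (fun i => (⟨fun j => l i (MvPolynomial.X j), hζ i⟩ : T)) := by
        intro hli
        have := hli.fintype_card_le_finrank
        rw [Fintype.card_fin] at this
        omega
      obtain ⟨c, hc, i₀, hi₀⟩ := Fintype.not_linearIndependent_iff.1 hdep
      refine ⟨c, fun h0 => hi₀ (congrFun h0 i₀), fun g hg => ?_⟩
      have hc' : ∀ j, ∑ i, c i * l i (MvPolynomial.X j) = 0 := by
        intro j
        have := congrArg (fun z : T => (z : σ → Ω) j) hc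
        simpa using this
      simp only [hval _ g hg, Finset.mul_sum]
      rw [Finset.sum_comm]
      refine Finset.sum_eq_zero fun j _ => ?_
      have := congrArg (fun z => g.coeff (Finsupp.single j 1) * z) (hc' j)
      simp only [Finset.mul_sum, mul_zero] at this
      rw [← this]
      exact Finset.sum_congr rfl fun i _ => by ring)
  have hsp : ∀ (u : Finset (MvPolynomial σ Ω)) (𝔮 : Ideal (MvPolynomial σ Ω)),
      (u : Set (MvPolynomial σ Ω)) ⊆ 𝔮 →
        Submodule.span Ω (u : Set (MvPolynomial σ Ω)) ≤ 𝔮.restrictScalars Ω :=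
    fun u 𝔮 hu => Submodule.span_le.2 hu
  have hmin : 𝔪 ∈ (Ideal.span ((s ∪ t : Finset (MvPolynomial σ Ω)) :
      Set (MvPolynomial σ Ω))).minimalPrimes := by
    refine ⟨⟨hmp, ?_⟩, ?_⟩
    · rw [Ideal.span_le, Finset.coe_union]
      exact Set.union_subset (fun f hf => hJ (hIJ (hsI hf))) htm
    · rintro 𝔮 ⟨hq, hK⟩ hqm
      rw [Ideal.span_le, Finset.coe_union, Set.union_subset_iff] at hK
      have hI : I ≤ 𝔮 := by
        refine krull_nak hmp.ne_top hqm fun f hf => ?_
        obtain ⟨a, ha, b, hb, rfl⟩ := Submodule.mem_sup.1 (hs hf)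
        exact Submodule.add_mem_sup (hsp s 𝔮 hK.1 ha) hb
      have hJq := hall 𝔮 hq hI hqm
      refine krull_nak hmp.ne_top hqm fun f hf => ?_
      obtain ⟨a, ha, b, hb, rfl⟩ := Submodule.mem_sup.1 (ht hf)
      exact Ideal.add_mem _ (Ideal.mem_sup_left (hsp t 𝔮 hK.2 ha))
        (sup_le_sup_right hJq _ hb)
  have h1 := Ideal.height_le_card_of_mem_minimalPrimes_span_finset hmin
  have h2 : (Fintype.card σ : ℕ∞) ≤ ((s ∪ t).card : ℕ∞) := krull_height.trans h1
  have h3 : Fintype.card σ ≤ (s ∪ t).card := by exact_mod_cast h2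
  have h4 := Finset.card_union_le s t
  omega

end Pool.Agent.Lib.MP_7fcda1_ag
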