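import Pool.Agent.Lib.MP_7fcda1_ag.M7aa

open scoped IntermediateField Polynomial WithZero
open Module

noncomputable section

universe u

namespace Pool.Agent.Lib.MP_7fcda1_ag

section aux
variable {F E A : Type*} {ι : Type} [Field F] [Field E] [Algebra F E] [Fintype A] [Fintype ι]

theorem M7a.dep1 {y : ι → E} (hy : y ≠ 0) {d : ℕ} (hd : rk F (ratios y) ≤ d)
    (hA : d + 1 < Fintype.card A) (g : (A × ι) ⊕ A → E) (c : E)
    (hg : ∀ a, g (.inr a) = c * ∑ i, g (.inl (a, i)) * y i) : ¬AlgebraicIndependent F g := by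
  obtain ⟨j, hj⟩ := Function.ne_iff.1 hy
  have hj : y j ≠ 0 := hj
  refine M7a.not_indep g Sum.inr Sum.inr_injective (insert (c * y j) (ratios y)) (d + 1)
    ((M7a.rk_insert_le _ _).trans (by push_cast; gcongr)) hA fun a => ?_
  have : g (.inr a) = (c * y j) * ∑ i, g (.inl (a, i)) * (y i / y j) := by
    rw [hg, mul_assoc, Finset.mul_sum _ _ (y j)]
    congr 1
    refine Finset.sum_congr rfl fun i _ => ?_
    field_simp
  rw [this]
  refine mul_mem (IntermediateField.subset_adjoin _ _ (Or.inr (Or.inl rfl)))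
    (sum_mem fun i _ => mul_mem (IntermediateField.subset_adjoin _ _ (Or.inl ⟨_, by simp, rfl⟩))
      (IntermediateField.subset_adjoin _ _ (Or.inr (Or.inr ⟨i, j, rfl⟩))))

theorem M7a.dep2 {y : ι → E} (hy : y ≠ 0) {d : ℕ} (hd : rk F (ratios y) ≤ d)
    (hA : d < Fintype.card A) (g : (A × ι) ⊕ A → E)
    (hg : ∀ a, ∑ i, g (.inl (a, i)) * y i = 0) : ¬AlgebraicIndependent F g := by
  classical
  obtain ⟨j, hj⟩ := Function.ne_iff.1 hy
  have hj : y j ≠ 0 := hj
  refine M7a.not_indep g (fun a => .inl (a, j)) (fun a b h => by simpa using h) (ratios y) d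
    hd hA fun a => ?_
  have : g (.inl (a, j)) = -∑ i ∈ Finset.univ.erase j, g (.inl (a, i)) * (y i / y j) := by
    have h := hg a
    rw [← Finset.add_sum_erase _ _ (Finset.mem_univ j)] at h
    simp_rw [← mul_div_assoc]
    rw [← Finset.sum_div, eq_neg_of_add_eq_zero_right h]
    field_simp
  rw [this]
  refine neg_mem (sum_mem fun i hi => mul_mem
    (IntermediateField.subset_adjoin _ _ (Or.inl ⟨_, ?_, rfl⟩))
      (IntermediateField.subset_adjoin _ _ (Or.inr ⟨i, j, rfl⟩)))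
  rintro ⟨b, hb⟩
  simp only [Sum.inl.injEq, Prod.mk.injEq] at hb
  exact (Finset.ne_of_mem_erase hi) hb.2.symm

theorem M7a.rank [Infinite F] {η : ι → E} {i₀ : ι} (h₀ : η i₀ = 1) {τ : E}
    (hτ : Transcendental (IntermediateField.adjoin F (Set.range η)) τ) (g : (A × ι) ⊕ A → E)
    (hu : AlgebraicIndependent (IntermediateField.adjoin F (∅ ∪ Set.range fun i => τ * η i))
      fun s => g (.inl s))
    (hg : ∀ a, g (.inr a) = τ * ∑ i, g (.inl (a, i)) * η i) {r : ℕ}
    (hr : (r : ℕ∞) ≤ rk F (Set.range η)) (e : Fin (r + 1) → A) (he : Function.Injective e) :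
    ((Fintype.card (A × ι) + (r + 1) : ℕ) : ℕ∞) ≤ rk F (Set.range g) := by
  have hτ0 : τ ≠ 0 := fun h => hτ (h ▸ isAlgebraic_zero)
  have h1 : rk F (insert τ (Set.range η)) ≤ rk F (∅ ∪ Set.range fun i => τ * η i) := by
    have hm : τ ∈ IntermediateField.adjoin F (∅ ∪ Set.range fun i => τ * η i) :=
      IntermediateField.subset_adjoin _ _ (Or.inr ⟨i₀, by simp [h₀]⟩)
    refine rk_le_of_mem ?_
    rintro _ (rfl | ⟨i, rfl⟩)
    · exact hm
    · have : η i = τ * η i / τ := by field_simp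
      rw [this]
      exact div_mem (IntermediateField.subset_adjoin _ _ (Or.inr ⟨i, rfl⟩)) hm
  rw [rk_insert hτ] at h1
  have := gp (k := F) (A := Fin (r + 1)) ∅ (fun i => τ * η i) (fun s => g (.inl s))
    (Prod.map e id) (he.prodMap Function.injective_id) hu (by simp [M7a.rk_empty]) (by
      rw [M7a.rk_empty, zero_add, Fintype.card_fin]
      push_cast
      exact le_trans (by gcongr) h1)
  rw [M7a.rk_empty, zero_add, Fintype.card_fin] at this
  rw [Nat.cast_add, ← this]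
  refine rk_mono ?_
  rintro _ ((h | ⟨s, rfl⟩) | ⟨a, rfl⟩)
  · exact h.elim
  · exact ⟨_, rfl⟩
  · refine ⟨.inr (e a), ?_⟩
    rw [hg, Finset.mul_sum]
    exact Finset.sum_congr rfl fun i _ => by simp only [Prod.map, id]; ring

end aux

variable {k K : Type u} [Field k] [IsAlgClosed k] [Field K] [Algebra k K] {ι : Type} [Fintype ι]

/-- factors of polynomials over `K` have coefficients with algebraic ratios -/
theorem alg_of_dvd {K Ω σ : Type*} [Field K] [Field Ω] [IsAlgClosed Ω] [Algebra K Ω] [Finite σ]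
    {Θ : MvPolynomial σ K} (hΘ : Θ ≠ 0) {Ψ : MvPolynomial σ Ω}
    (h : Ψ ∣ MvPolynomial.map (algebraMap K Ω) Θ) (m m' : σ →₀ ℕ) :
    IsAlgebraic K (Ψ.coeff m / Ψ.coeff m') := M7a.alg_of_dvd hΘ h m m'

omit [IsAlgClosed k] in
/-- specialisations of the generic point of the Cayley hypersurface are dependent -/
theorem M7a.dep {ξ : ι → K} {d : ℕ}
    (hmax : ∀ (Ω : Type u) [Field Ω] [IsAlgClosed Ω] [Algebra K Ω] [Algebra k Ω]
      [IsScalarTower k K Ω] (y : ι → Ω), Chain k ξ (fun i => algebraMap K Ω (ξ i)) y →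
        rk K (ratios y) ≤ d)
    {E : Type u} [Field E] [IsAlgClosed E] [Algebra K E] [Algebra k E] [IsScalarTower k K E]
    {η : ι → E} (hη : η ≠ 0) (hc : Chain k ξ (fun i => algebraMap K E (ξ i)) η)
    {A : Type} [Fintype A] (hA : d + 1 < Fintype.card A) {τ : E} {g : (A × ι) ⊕ A → E}
    (hg : ∀ a, g (.inr a) = τ * ∑ i, g (.inl (a, i)) * η i)
    {Ω : Type u} [Field Ω] [IsAlgClosed Ω] [Algebra K Ω] [Algebra k Ω] [IsScalarTower k K Ω]
    {P : Plc E Ω} (hP : P.Over k) {z : ι → Ω} (hz : P.Sp (fun i => algebraMap K E (ξ i)) z)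
    (hcz : Chain k ξ (fun i => algebraMap K Ω (ξ i)) z) {g' : (A × ι) ⊕ A → Ω}
    (hg' : ∀ s, P.To (g s) (g' s)) : ¬AlgebraicIndependent K g' := by
  obtain ⟨y, hy⟩ := P.exists_sp hη
  have hon : On k ξ fun i => algebraMap K E (ξ i) := on_self.map (IsScalarTower.toAlgHom k K E)
  have hr := hmax Ω y (hcz.trans (sp hP hon hc hz hy))
  obtain ⟨hy0, l, hl⟩ := hy
  have hl0 : l ≠ 0 := by
    rintro rfl
    exact hy0 (funext fun i => (hl i).unique (by simpa using Plc.to_zero))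
  have hs : ∀ a, P.To (∑ i, g (.inl (a, i)) * (l * η i)) (∑ i, g' (.inl (a, i)) * y i) :=
    fun a => Plc.To.sum fun i _ => (hg' _).mul (hl i)
  have he : ∀ a, g (.inr a) = τ / l * ∑ i, g (.inl (a, i)) * (l * η i) := by
    intro a
    rw [hg, Finset.mul_sum, Finset.mul_sum]
    exact Finset.sum_congr rfl fun i _ => by field_simp
  by_cases hm : τ / l ∈ P.V
  · refine M7a.dep1 hy0 hr hA g' (P.ρ ⟨_, hm⟩) fun a => (hg' _).unique ?_
    rw [he]
    exact Plc.To.mul ⟨hm, rfl⟩ (hs a)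
  · refine M7a.dep2 hy0 hr (by omega) g' fun a => (hs a).unique ?_
    have h0 : τ / l ≠ 0 := fun h => hm (h ▸ P.V.zero_mem)
    have h1 : P.To (τ / l)⁻¹ 0 := by
      rw [Plc.to_zero_iff, map_inv₀]
      exact inv_lt_one_of_one_lt₀ (not_le.1 ((P.V.valuation_le_one_iff _).not.2 hm))
    have := h1.mul (hg' (.inr a))
    rwa [he, inv_mul_cancel_left₀ h0, zero_mul] at this

omit [IsAlgClosed k] in
theorem M7a.rigid {ξ : ι → K} {d : ℕ}
    (hmax : ∀ (Ω : Type u) [Field Ω] [IsAlgClosed Ω] [Algebra K Ω] [Algebra k Ω]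
      [IsScalarTower k K Ω] (y : ι → Ω), Chain k ξ (fun i => algebraMap K Ω (ξ i)) y →
        rk K (ratios y) ≤ d)
    {E : Type u} [Field E] [IsAlgClosed E] [Algebra K E] [Algebra k E] [IsScalarTower k K E]
    {η : ι → E} (hη : η ≠ 0) (hc : Chain k ξ (fun i => algebraMap K E (ξ i)) η)
    {A : Type} [Fintype A] (hA : d + 1 < Fintype.card A) {τ : E} {g : (A × ι) ⊕ A → E}
    (hg : ∀ a, g (.inr a) = τ * ∑ i, g (.inl (a, i)) * η i)
    {Φ : MvPolynomial ((A × ι) ⊕ A) K} (hΦ : ∀ f, MvPolynomial.aeval g f = 0 ↔ Φ ∣ f) :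
    Rigid k ξ fun m : Φ.support => Φ.coeff m := by
  classical
  intro Ω _ _ _ _ _ P hP z hz hcz δ hδ I I'
  obtain ⟨hδ0, l, hl⟩ := hδ
  obtain ⟨Φ₁, hΦ₁⟩ := M7a.lift P.V.subtype (MvPolynomial.C l * Φ) fun m => by
    rw [MvPolynomial.coeff_C_mul]
    by_cases hm : m ∈ Φ.support
    · exact ⟨⟨_, (hl ⟨m, hm⟩).1⟩, rfl⟩
    · exact ⟨0, by simp [MvPolynomial.notMem_support_iff.1 hm]⟩
  have hco : ∀ m : Φ.support, (MvPolynomial.map P.ρ Φ₁).coeff m = δ m := by
    intro m
    rw [MvPolynomial.coeff_map, ← (hl m).2]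
    congr 1
    apply Subtype.val_injective
    have := congrArg (MvPolynomial.coeff m) hΦ₁
    rwa [MvPolynomial.coeff_map, MvPolynomial.coeff_C_mul] at this
  have hne : MvPolynomial.map P.ρ Φ₁ ≠ 0 := fun h =>
    hδ0 (funext fun m => by rw [← hco, h]; simp)
  have hl0 : l ≠ 0 := by
    rintro rfl
    exact hδ0 (funext fun i => (hl i).unique (by simpa using Plc.to_zero))
  obtain ⟨Θ, hΘ, hdv⟩ := M7a.dvd_of_prime (K := K) _ hne fun Ψ hΨ hdv => by
    obtain ⟨Ω', _, _, π, hπ⟩ := M7a.exists_pt hΨ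
    let : Algebra Ω Ω' := (π.comp MvPolynomial.C).toAlgebra
    let : Algebra K Ω' := ((algebraMap Ω Ω').comp (algebraMap K Ω)).toAlgebra
    let : Algebra k Ω' := ((algebraMap Ω Ω').comp (algebraMap k Ω)).toAlgebra
    have : IsScalarTower k Ω Ω' := .of_algebraMap_eq fun _ => rfl
    have : IsScalarTower k K Ω' := .of_algebraMap_eq fun c =>
      congrArg (algebraMap Ω Ω') (IsScalarTower.algebraMap_apply k K Ω c)
    obtain ⟨P', hP'⟩ := exists_plc_of_hom
      ((MvPolynomial.aeval (R := K) g).toRingHom.comp (MvPolynomial.map P.V.subtype))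
      (π.comp (MvPolynomial.map P.ρ)) fun G hG => by
        have h1 : Φ ∣ MvPolynomial.map P.V.subtype G := (hΦ _).1 hG
        have h2 : Φ₁ ∣ G := M7a.gauss P hne (by
          rw [hΦ₁]
          exact (IsUnit.mul_left_dvd ((IsUnit.mk0 l hl0).map MvPolynomial.C)).2 h1)
        exact (hπ _).2 (hdv.trans (map_dvd _ h2))
    have hC : ∀ a b, P.To a b → P'.To (algebraMap K E a) (algebraMap Ω Ω' b) := by
      rintro a _ ⟨h, rfl⟩
      change P'.To _ (π (MvPolynomial.C (P.ρ ⟨a, h⟩)))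
      simpa using hP' (MvPolynomial.C ⟨a, h⟩)
    have hX : ∀ s, P'.To (g s) (π (MvPolynomial.X s)) := fun s => by
      simpa using hP' (MvPolynomial.X s)
    obtain ⟨hz0, lz, hlz⟩ := hz
    have := M7a.dep hmax hη hc hA hg (P := P') (z := fun i => algebraMap Ω Ω' (z i))
      (fun c => by
        rw [IsScalarTower.algebraMap_apply k K E]
        exact hC _ _ (hP c))
      ⟨fun h => hz0 (funext fun i => by simpa using congrFun h i), algebraMap K E lz,
        fun i => by simpa using hC _ _ (hlz i)⟩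
      (hcz.map (IsScalarTower.toAlgHom k Ω Ω')) hX
    rw [algebraicIndependent_iff] at this
    push Not at this
    obtain ⟨Θ, h1, h2⟩ := this
    refine ⟨Θ, h2, (hπ _).1 ?_⟩
    rw [← h1]
    clear h1 h2
    induction Θ using MvPolynomial.induction_on with
    | C a => simp; rfl
    | add p q hp hq => simp [hp, hq]
    | mul_X p i hp => simp [hp]
  rw [← hco, ← hco]
  exact M7a.alg_of_dvd hΘ hdv _ _

theorem M7a.core {ξ : ι → K} {i₀ : ι} {d : ℕ}
    (hmax : ∀ (Ω : Type u) [Field Ω] [IsAlgClosed Ω] [Algebra K Ω] [Algebra k Ω]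
      [IsScalarTower k K Ω] (y : ι → Ω), Chain k ξ (fun i => algebraMap K Ω (ξ i)) y →
        rk K (ratios y) ≤ d)
    {E : Type u} [Field E] [IsAlgClosed E] [Algebra K E] [Algebra k E] [IsScalarTower k K E]
    {η : ι → E} (hη : η i₀ = 1) (hc : Chain k ξ (fun i => algebraMap K E (ξ i)) η)
    (hd : (d : ℕ∞) ≤ rk K (Set.range η)) (hn : (d : ℕ∞) < rk k (Set.range η)) {τ : E}
    (hτ : Transcendental (IntermediateField.adjoin K (Set.range η)) τ) {u : Fin (d + 2) × ι → E}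
    (hu : AlgebraicIndependent (IntermediateField.adjoin K (∅ ∪ Set.range fun i => τ * η i)) u) :
    ∃ (J : Type) (_ : Finite J) (Δ : J → K) (I I₀ : J), Δ I₀ ≠ 0 ∧
      Δ I / Δ I₀ ∉ (algebraMap k K).range ∧ Rigid k ξ Δ := by
  classical
  have : Infinite K := Infinite.of_injective _ (algebraMap k K).injective
  let g : (Fin (d + 2) × ι) ⊕ Fin (d + 2) → E := Sum.elim u fun a => τ * ∑ i, u (a, i) * η i
  have hg : ∀ a, g (.inr a) = τ * ∑ i, g (.inl (a, i)) * η i := fun _ => rfl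
  have hη0 : η ≠ 0 := fun h => by simp [h] at hη
  obtain ⟨Φ, hΦ⟩ := ker_principal (k := K) g (by
    have := M7a.rank hη hτ g hu hg hd Fin.castSucc (Fin.castSucc_injective _)
    rw [Fintype.card_sum, Fintype.card_fin]
    refine le_trans (le_of_eq ?_) (add_le_add_left this 1)
    push_cast
    ring)
  have hΦ0 : Φ ≠ 0 := by
    rintro rfl
    exact M7a.dep1 hη0 (hmax E η hc) (by simp) g τ hg
      (algebraicIndependent_iff.2 fun p hp => zero_dvd_iff.1 ((hΦ p).1 hp))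
  have hle : ∀ (T : Set E) (a : IntermediateField.adjoin k T),
      ∃ b : IntermediateField.adjoin K T, algebraMap _ E b = algebraMap _ E a := fun T =>
    M7a.adjoin_range (fun c => ⟨algebraMap K _ (algebraMap k K c), by
      rw [← IsScalarTower.algebraMap_apply, ← IsScalarTower.algebraMap_apply]⟩)
      fun t ht => ⟨⟨t, IntermediateField.subset_adjoin _ _ ht⟩, rfl⟩
  have hind : AlgebraicIndependent k g := by
    have hτ' : Transcendental (IntermediateField.adjoin k (Set.range η)) τ :=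
      (algebraicIndependent_unique_type_iff (ι := Unit) (x := fun _ => τ)).1
        (M7a.indep_mono (hle _) (algebraicIndependent_unique_type_iff.2 hτ))
    have := M7a.rank hη hτ' g (M7a.indep_mono (hle _) hu) hg (r := d + 1)
      (by exact_mod_cast Order.add_one_le_of_lt hn) id Function.injective_id
    refine indep_of_rk ?_
    rwa [Fintype.card_sum, Fintype.card_fin]
  obtain ⟨m₀, hm₀⟩ := MvPolynomial.ne_zero_iff.1 hΦ0
  by_contra hcon
  push Not at hcon
  have hall : ∀ m, ∃ c : k, algebraMap k K c =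
      (MvPolynomial.C (Φ.coeff m₀)⁻¹ * Φ).coeff m := by
    intro m
    rw [MvPolynomial.coeff_C_mul, ← div_eq_inv_mul]
    by_cases hm : m ∈ Φ.support
    · by_contra h
      exact hcon Φ.support inferInstance (fun m : Φ.support => Φ.coeff m.1) ⟨m, hm⟩
        ⟨m₀, MvPolynomial.mem_support_iff.2 hm₀⟩ hm₀ h
        (M7a.rigid hmax hη0 hc (by simp) hg hΦ)
    · exact ⟨0, by simp [MvPolynomial.notMem_support_iff.1 hm]⟩
  obtain ⟨q, hq⟩ := M7a.lift (algebraMap k K) _ hall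
  have h1 : q = 0 := by
    apply algebraicIndependent_iff.1 hind
    rw [← MvPolynomial.aeval_map_algebraMap K, hq]
    exact (hΦ _).2 (dvd_mul_left _ _)
  rw [h1, map_zero] at hq
  exact mul_ne_zero (MvPolynomial.C_ne_zero.2 (inv_ne_zero hm₀)) hΦ0 hq.symm

theorem cayley {ξ : ι → K} {i₀ : ι} (h₀ : ξ i₀ = 1) {d : ℕ}
    (hmax : ∀ (Ω : Type u) [Field Ω] [IsAlgClosed Ω] [Algebra K Ω] [Algebra k Ω]
      [IsScalarTower k K Ω] (y : ι → Ω), Chain k ξ (fun i => algebraMap K Ω (ξ i)) y →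
        rk K (ratios y) ≤ d)
    {Ω₀ : Type u} [Field Ω₀] [Algebra K Ω₀] [Algebra k Ω₀] [IsScalarTower k K Ω₀]
    (θ : K →ₐ[k] Ω₀) (hc : Chain k ξ (fun i => algebraMap K Ω₀ (ξ i)) fun i => θ (ξ i))
    (hd : (d : ℕ∞) ≤ rk K (Set.range fun i => θ (ξ i))) (hn : (d : ℕ∞) < rk k (Set.range ξ)) :
    ∃ (J : Type) (_ : Finite J) (Δ : J → K) (I I₀ : J), Δ I₀ ≠ 0 ∧
      Δ I / Δ I₀ ∉ (algebraMap k K).range ∧ Rigid k ξ Δ := by
  obtain ⟨Ω₁, _, _, _, τ, hτ⟩ := M7a.exists_ext Ω₀ Unit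
  obtain ⟨E, _, _, _, u, hu⟩ := M7a.exists_ext Ω₁ (Fin (d + 2) × ι)
  let : Algebra Ω₀ E := ((algebraMap Ω₁ E).comp (algebraMap Ω₀ Ω₁)).toAlgebra
  let : Algebra K E := ((algebraMap Ω₀ E).comp (algebraMap K Ω₀)).toAlgebra
  let : Algebra k E := ((algebraMap Ω₀ E).comp (algebraMap k Ω₀)).toAlgebra
  have : IsScalarTower Ω₀ Ω₁ E := .of_algebraMap_eq fun _ => rfl
  have : IsScalarTower K Ω₀ E := .of_algebraMap_eq fun _ => rfl
  have : IsScalarTower k Ω₀ E := .of_algebraMap_eq fun _ => rfl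
  have : IsScalarTower k K E := .of_algebraMap_eq fun c =>
    congrArg (algebraMap Ω₀ E) (IsScalarTower.algebraMap_apply k K Ω₀ c)
  refine M7a.core hmax (E := E) (η := fun i => algebraMap Ω₀ E (θ (ξ i))) (i₀ := i₀)
    (by simp [h₀]) (hc.map (IsScalarTower.toAlgHom k Ω₀ E)) ?_ ?_
    (τ := algebraMap Ω₁ E (τ ())) ?_ (u := u) ?_
  · rw [← rk_image (IsScalarTower.toAlgHom K Ω₀ E), ← Set.range_comp] at hd
    exact hd
  · rw [← rk_image ((IsScalarTower.toAlgHom k Ω₀ E).comp θ), ← Set.range_comp] at hn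
    exact hn
  · refine (algebraicIndependent_unique_type_iff (ι := Unit)
      (x := fun s => algebraMap Ω₁ E (τ s))).1 (M7a.indep_mono (S := Ω₀)
        (M7a.adjoin_range (fun c => ⟨algebraMap K Ω₀ c, rfl⟩) ?_)
        (hτ.map' (f := IsScalarTower.toAlgHom Ω₀ Ω₁ E) (algebraMap Ω₁ E).injective))
    rintro _ ⟨i, rfl⟩
    exact ⟨_, rfl⟩
  · refine M7a.indep_mono (S := Ω₁)
      (M7a.adjoin_range (fun c => ⟨algebraMap Ω₀ Ω₁ (algebraMap K Ω₀ c), rfl⟩) ?_) hu
    rintro _ (h | ⟨i, rfl⟩)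
    · exact h.elim
    · exact ⟨τ () * algebraMap Ω₀ Ω₁ (θ (ξ i)), map_mul _ _ _⟩

end Pool.Agent.Lib.MP_7fcda1_ag
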