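import Pool.Agent.Lib.MP_7fcda1_ag.Plc2a

open scoped IntermediateField Polynomial WithZero
open Module

noncomputable section

universe u

namespace Pool.Agent.Lib.MP_7fcda1_ag


variable {E Ω : Type*} [Field E] [Field Ω] {ι : Type} [Finite ι]

/-- one step along the Newton polygon -/
theorem Plc2_step [IsAlgClosed E] (P : Plc E Ω) (w : ι → Polynomial E) {ρ ρ₂ : E} (hρ : ρ ≠ 0)
    (hle : P.V.valuation ρ ≤ P.V.valuation ρ₂) {i i₂ : ι} {j j₂ : ℕ} (hj : j < j₂)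
    (hm : Plc2Mx (Plc2A P w) (P.V.valuation ρ) i j)
    (ht : ∀ i' j', j < j' → ¬ Plc2Mx (Plc2A P w) (P.V.valuation ρ) i' j')
    (hm₂ : Plc2Mx (Plc2A P w) (P.V.valuation ρ₂) i₂ j₂) :
    ∃ σ : E, P.V.valuation ρ < P.V.valuation σ ∧ P.V.valuation σ ≤ P.V.valuation ρ₂ ∧
      Plc2Mx (Plc2A P w) (P.V.valuation σ) i j ∧
      ∃ i' j', j < j' ∧ Plc2Mx (Plc2A P w) (P.V.valuation σ) i' j' := by
  have hr : P.V.valuation ρ ≠ 0 := by simpa using hρ
  have hr₂ : P.V.valuation ρ₂ ≠ 0 := fun h0 => hr (le_zero_iff.1 (h0 ▸ hle))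
  have hex : ∀ q : ι × ℕ, ∃ σ : E, j < q.2 →
      σ ^ (q.2 - j) = (w i).coeff j / (w q.1).coeff q.2 := by
    intro q
    by_cases hq : j < q.2
    · obtain ⟨σ, hσ⟩ := IsAlgClosed.exists_pow_nat_eq ((w i).coeff j / (w q.1).coeff q.2)
        (Nat.sub_pos_of_lt hq)
      exact ⟨σ, fun _ => hσ⟩
    · exact ⟨0, fun h => (hq h).elim⟩
  choose f hf using hex
  have hA : ∀ i j, Plc2A P w i j ≠ 0 ↔ (w i).coeff j ≠ 0 := by
    intro i j
    simp [Plc2A]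
  -- the defining equation of the roots, on the level of valuations
  have key : ∀ q : ι × ℕ, j < q.2 → (w q.1).coeff q.2 ≠ 0 →
      Plc2A P w q.1 q.2 * P.V.valuation (f q) ^ (q.2 - j) = Plc2A P w i j := by
    intro q hq h0
    rw [← map_pow, hf q hq, Plc2A, Plc2A, ← map_mul, mul_div_cancel₀ _ h0]
  have hfin : {q : ι × ℕ | j < q.2 ∧ (w q.1).coeff q.2 ≠ 0}.Finite :=
    (Plc2_fin w).subset fun q hq => hq.2
  obtain ⟨q, ⟨hq, hq0⟩, hmin⟩ := Set.exists_min_image _ (fun q => P.V.valuation (f q)) hfin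
    ⟨(i₂, j₂), hj, (hA _ _).1 hm₂.1⟩
  obtain ⟨i', j'⟩ := q
  obtain ⟨m, rfl⟩ := Nat.exists_eq_add_of_le (show j ≤ j' from hq.le)
  have hk := key _ hq hq0
  simp only [Nat.add_sub_cancel_left] at hk hq hq0
  have ha' : 0 < Plc2A P w i' (j + m) := zero_lt_iff.2 ((hA _ _).2 hq0)
  have h1 : P.V.valuation ρ < P.V.valuation (f (i', j + m)) := by
    have h2 : ¬ Plc2A P w i j * P.V.valuation ρ ^ j ≤
        Plc2A P w i' (j + m) * P.V.valuation ρ ^ (j + m) := fun h2 =>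
      ht i' (j + m) hq ⟨ha'.ne', fun a b => (hm.2 a b).trans h2⟩
    rw [Plc2_shift hr, not_le, ← hk] at h2
    exact lt_of_pow_lt_pow_left₀ m zero_le (lt_of_mul_lt_mul_left h2 zero_le)
  have hs : P.V.valuation (f (i', j + m)) ≠ 0 := fun h0 => not_lt_zero (h0 ▸ h1)
  have h3 : Plc2Mx (Plc2A P w) (P.V.valuation (f (i', j + m))) i j := by
    refine ⟨hm.1, fun a b => ?_⟩
    rcases le_or_gt b j with hb | hb
    · exact hm.le_of_le hr h1.le a hb
    · by_cases h0 : (w a).coeff b = 0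
      · simp [Plc2A, h0]
      · obtain ⟨n, rfl⟩ := Nat.exists_eq_add_of_le hb.le
        have hk' := key (a, j + n) hb h0
        simp only [Nat.add_sub_cancel_left] at hk'
        rw [Plc2_shift' hs, ← hk']
        exact mul_le_mul_right (pow_le_pow_left₀ zero_le (hmin (a, j + n) ⟨hb, h0⟩) n) _
  refine ⟨f (i', j + m), h1, ?_, h3, i', j + m, hq, ha'.ne', fun a b => (h3.2 a b).trans ?_⟩
  · refine (hmin (i₂, j₂) ⟨hj, (hA _ _).1 hm₂.1⟩).trans ?_
    obtain ⟨n, rfl⟩ := Nat.exists_eq_add_of_le hj.le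
    have hk' := key (i₂, j + n) hj ((hA _ _).1 hm₂.1)
    simp only [Nat.add_sub_cancel_left] at hk'
    have h4 := (Plc2_shift hr₂).1 (hm₂.2 i j)
    rw [← hk'] at h4
    exact le_of_pow_le_pow_left₀ (by omega : n ≠ 0) zero_le
      (le_of_mul_le_mul_left h4 (zero_lt_iff.2 hm₂.1))
  · rw [Plc2_shift hs, hk]

/-- Newton polygon lemma -/
theorem np [IsAlgClosed E] (P : Plc E Ω) (w : ι → Polynomial E) (R : (ι → Ω) → (ι → Ω) → Prop)
    (htr : ∀ z z' z'', R z z' → R z' z'' → R z z'')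
    (hsc : ∀ z z' (c : Ω), c ≠ 0 → R z z' → R z (c • z')) {ρ₁ ρ₂ : E} (h₁ : ρ₁ ≠ 0)
    (hle : P.V.valuation ρ₁ ≤ P.V.valuation ρ₂)
    (H : ∀ ρ, P.V.valuation ρ₁ ≤ P.V.valuation ρ → P.V.valuation ρ ≤ P.V.valuation ρ₂ →
      ∀ π z z', P.In w ρ π → Low π z → Top π z' → R z z')
    {π₁ π₂ : ι → Polynomial Ω} {z z' : ι → Ω} (hπ₁ : P.In w ρ₁ π₁) (hπ₂ : P.In w ρ₂ π₂)
    (hz : Low π₁ z) (hz' : Top π₂ z') : R z z' := by
  have hne : ∀ ρ, P.V.valuation ρ₁ ≤ P.V.valuation ρ → ρ ≠ 0 := by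
    rintro ρ h rfl
    rw [map_zero, le_zero_iff] at h
    exact h₁ (by simpa using h)
  have hw := Plc2_in_ne hπ₁
  obtain ⟨D, hD⟩ : ∃ D : ℕ, ∀ i j, (w i).coeff j ≠ 0 → j ≤ D := by
    obtain ⟨D, hD⟩ := ((Plc2_fin w).image Prod.snd).bddAbove
    exact ⟨D, fun i j h => hD ⟨(i, j), h, rfl⟩⟩
  obtain ⟨hz0, j₂, hj₂, hj₂'⟩ := hz'
  obtain rfl : (fun i => (π₂ i).coeff j₂) = z' := funext hj₂
  obtain ⟨i₂, hi₂⟩ := Function.ne_iff.1 hz0
  have hm₂ := (Plc2_in_iff hπ₂ i₂ j₂ (hne _ hle)).1 hi₂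
  have main : ∀ n : ℕ, ∀ ρ, P.V.valuation ρ₁ ≤ P.V.valuation ρ →
      P.V.valuation ρ ≤ P.V.valuation ρ₂ → ∀ π, P.In w ρ π → ∀ j, D ≤ j + n →
      (fun i => (π i).coeff j) ≠ 0 → (∀ i, ∀ j' > j, (π i).coeff j' = 0) →
      R z (fun i => (π i).coeff j) → R z fun i => (π₂ i).coeff j₂ := by
    intro n
    induction n using Nat.strong_induction_on with
    | _ n ih =>
      intro ρ h1 h2 π hπ j hjn h0 ht hR
      have hρ := hne ρ h1
      have hr : P.V.valuation ρ ≠ 0 := by simpa using hρ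
      obtain ⟨i, hi⟩ := Function.ne_iff.1 h0
      have hm := (Plc2_in_iff hπ i j hρ).1 hi
      rcases lt_trichotomy j j₂ with hlt | rfl | hgt
      · obtain ⟨σ, hσ1, hσ2, hσm, i', j', hj', hm'⟩ := Plc2_step P w hρ h2 hlt hm
          (fun a b hb hc => (Plc2_in_iff hπ a b hρ).2 hc (ht a b hb)) hm₂
        have hσ0 := hne σ (h1.trans hσ1.le)
        obtain ⟨π', hπ'⟩ := P.exists_in hw hσ0
        have hy0 : (fun i => (π' i).coeff j) ≠ 0 :=
          Function.ne_iff.2 ⟨i, (Plc2_in_iff hπ' i j hσ0).2 hσm⟩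
        have hlow : Low π' fun i => (π' i).coeff j := by
          refine ⟨hy0, j, fun _ => rfl, fun a b hb => ?_⟩
          by_contra hc
          exact (hm.lt_of_lt hr hσ1 a hb).not_ge (((Plc2_in_iff hπ' a b hσ0).1 hc).2 i j)
        obtain ⟨y, hy⟩ := exists_top hπ'.1
        have hRy := H σ (h1.trans hσ1.le) hσ2 π' _ y hπ' hlow hy
        obtain ⟨c, hc, hc'⟩ := (Plc2_in_sp hπ h0).unique (Plc2_in_sp hπ' hy0)
        have hR' := hsc _ _ c hc hR
        rw [← hc'] at hR'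
        obtain ⟨hy0', t, ht1, ht2⟩ := hy
        obtain rfl : (fun i => (π' i).coeff t) = y := funext ht1
        have hjt : j' ≤ t := by
          by_contra hc
          exact (Plc2_in_iff hπ' i' j' hσ0).2 hm' (ht2 i' j' (not_le.1 hc))
        have htD : t ≤ D := by
          obtain ⟨a, ha⟩ := Function.ne_iff.1 hy0'
          exact hD a t fun h => ha (Plc2_in_zero hπ' h)
        exact ih (n - 1) (by omega) σ (h1.trans hσ1.le) hσ2 π' hπ' t (by omega) hy0' ht2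
          (htr _ _ _ hR' hRy)
      · obtain ⟨c, hc, hc'⟩ := (Plc2_in_sp hπ h0).unique (Plc2_in_sp hπ₂ hz0)
        rw [hc']
        exact hsc _ _ c hc hR
      · exfalso
        refine (Plc2_in_iff hπ₂ i j (hne _ hle)).2 ⟨hm.1, fun a b => (hm₂.2 a b).trans ?_⟩
          (hj₂' i j hgt)
        exact hm.le_of_le hr h2 i₂ hgt.le
  obtain ⟨y, hy⟩ := exists_top hπ₁.1
  have hRy := H ρ₁ le_rfl hle π₁ z y hπ₁ hz hy
  obtain ⟨hy0, t, ht1, ht2⟩ := hy
  obtain rfl : (fun i => (π₁ i).coeff t) = y := funext ht1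
  exact main D ρ₁ le_rfl hle π₁ hπ₁ t (by omega) hy0 ht2 hRy

theorem Plc2_max (P : Plc E Ω) {c : ι → E} (hc : c ≠ 0) :
    ∃ i, c i ≠ 0 ∧ ∀ i', P.V.valuation (c i') ≤ P.V.valuation (c i) := by
  obtain ⟨i₀, hi₀⟩ := Function.ne_iff.1 hc
  have : Nonempty ι := ⟨i₀⟩
  obtain ⟨i, hi⟩ := Finite.exists_max fun i => P.V.valuation (c i)
  refine ⟨i, fun h0 => hi₀ ?_, hi⟩
  have := hi i₀
  rw [h0, map_zero, le_zero_iff] at this
  simpa using this

/-- on a small disc the lowest term is the constant term -/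
theorem exists_small (P : Plc E Ω) {w : ι → Polynomial E} (hw : (fun i => (w i).coeff 0) ≠ 0)
    {ρ₀ : E} (h₀ : ρ₀ ≠ 0) : ∃ ρ, ρ ≠ 0 ∧ P.V.valuation ρ ≤ P.V.valuation ρ₀ ∧
      ∀ π, P.In w ρ π → P.Sp (fun i => (w i).coeff 0) fun i => (π i).coeff 0 := by
  obtain ⟨i, hi, hmax⟩ := Plc2_max P hw
  have hfin : (insert ρ₀ (insert 1 ((fun q : ι × ℕ => (w i).coeff 0 / (w q.1).coeff q.2) ''
      {q : ι × ℕ | (w q.1).coeff q.2 ≠ 0}))).Finite :=
    (((Plc2_fin w).image _).insert _).insert _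
  obtain ⟨ρ, hρ, hmin⟩ := Set.exists_min_image _ (fun a => P.V.valuation a) hfin
    (Set.insert_nonempty _ _)
  have hρ0 : ρ ≠ 0 := by
    rcases hρ with rfl | rfl | ⟨q, hq, rfl⟩
    · exact h₀
    · exact one_ne_zero
    · exact div_ne_zero hi hq
  refine ⟨ρ, hρ0, hmin ρ₀ (Or.inl rfl), fun π hπ => Plc2_in_sp hπ ?_⟩
  refine Function.ne_iff.2 ⟨i, (Plc2_in_iff hπ i 0 hρ0).2 ⟨by simpa [Plc2A] using hi, ?_⟩⟩
  intro a b
  rcases Nat.eq_zero_or_pos b with rfl | hb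
  · simpa [Plc2A] using hmax a
  by_cases h0 : (w a).coeff b = 0
  · simp [Plc2A, h0]
  have h1 : P.V.valuation ρ ≤ 1 := by simpa using hmin 1 (Or.inr (Or.inl rfl))
  have h2 := hmin _ (Or.inr (Or.inr ⟨(a, b), h0, rfl⟩))
  have h3 : P.V.valuation ρ ^ b ≤ P.V.valuation ρ := pow_le_of_le_one zero_le h1 hb.ne'
  rw [pow_zero, mul_one]
  refine (mul_le_mul_right (h3.trans h2) _).trans_eq ?_
  rw [Plc2A, Plc2A, ← map_mul, mul_div_cancel₀ _ h0]

/-- on a large disc the highest term is the leading term -/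
theorem Plc2_large (P : Plc E Ω) {w : ι → Polynomial E} {d : ℕ}
    (hw : (fun i => (w i).coeff d) ≠ 0) (hd : ∀ i, (w i).natDegree ≤ d) (ρ₀ : E) :
    ∃ ρ, P.V.valuation ρ₀ ≤ P.V.valuation ρ ∧ ρ ≠ 0 ∧
      ∀ π, P.In w ρ π → (fun i => (π i).coeff d) ≠ 0 := by
  obtain ⟨i, hi, hmax⟩ := Plc2_max P hw
  have hfin : (insert ρ₀ (insert 1 ((fun q : ι × ℕ => (w q.1).coeff q.2 / (w i).coeff d) ''
      {q : ι × ℕ | (w q.1).coeff q.2 ≠ 0}))).Finite :=
    (((Plc2_fin w).image _).insert _).insert _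
  obtain ⟨ρ, hρ, hmin⟩ := Set.exists_max_image _ (fun a => P.V.valuation a) hfin
    (Set.insert_nonempty _ _)
  have h1 : 1 ≤ P.V.valuation ρ := by simpa using hmin 1 (Or.inr (Or.inl rfl))
  have hr : P.V.valuation ρ ≠ 0 := fun h0 => not_lt_zero (h0 ▸ zero_lt_one.trans_le h1)
  have hρ0 : ρ ≠ 0 := by simpa using hr
  refine ⟨ρ, hmin ρ₀ (Or.inl rfl), hρ0, fun π hπ => ?_⟩
  refine Function.ne_iff.2 ⟨i, (Plc2_in_iff hπ i d hρ0).2 ⟨by simpa [Plc2A] using hi, ?_⟩⟩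
  intro a b
  by_cases h0 : (w a).coeff b = 0
  · simp [Plc2A, h0]
  have hb : b ≤ d := (Polynomial.le_natDegree_of_ne_zero h0).trans (hd a)
  obtain ⟨m, rfl⟩ := Nat.exists_eq_add_of_le hb
  rw [Plc2_shift hr]
  rcases Nat.eq_zero_or_pos m with rfl | hm
  · simpa [Plc2A] using hmax a
  have h2 := hmin _ (Or.inr (Or.inr ⟨(a, b), h0, rfl⟩))
  have h3 : P.V.valuation ρ ≤ P.V.valuation ρ ^ m := le_self_pow₀ h1 hm.ne'
  refine Eq.trans_le ?_ (mul_le_mul_right (h2.trans h3) _)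
  rw [Plc2A, Plc2A, ← map_mul, mul_div_cancel₀ _ hi]

/-- change of the centre of a disc -/
theorem in_recentre (P : Plc E Ω) {w : ι → Polynomial E} {s ρ : E} (hρ : ρ ≠ 0)
    (hs : P.V.valuation s ≤ P.V.valuation ρ) {π : ι → Polynomial Ω} (hπ : P.In w ρ π) {z : ι → Ω}
    (hz : Top π z) :
    ∃ π', P.In (fun i => (w i).comp (Polynomial.X + Polynomial.C s)) ρ π' ∧ Top π' z := by
  have hmem : s / ρ ∈ P.V := by
    rw [← P.V.valuation_le_one_iff, map_div₀]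
    exact div_le_one_of_le₀ hs zero_le
  obtain ⟨t, ht⟩ : ∃ t, P.To (s / ρ) t := ⟨_, hmem, rfl⟩
  obtain ⟨hz0, j, hj, hj'⟩ := hz
  have htop : Top (fun i => Polynomial.taylor t (π i)) z := by
    have hdeg : ∀ i, (π i).natDegree ≤ j := fun i =>
      Polynomial.natDegree_le_iff_coeff_eq_zero.2 (hj' i)
    refine ⟨hz0, j, fun i => ?_, fun i b hb => ?_⟩
    · rw [← hj i]
      rcases (hdeg i).eq_or_lt with h | h
      · rw [← h, Polynomial.coeff_taylor_natDegree, Polynomial.leadingCoeff]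
      · rw [Polynomial.coeff_eq_zero_of_natDegree_lt h,
          Polynomial.coeff_eq_zero_of_natDegree_lt (by rwa [Polynomial.natDegree_taylor])]
    · exact Polynomial.coeff_eq_zero_of_natDegree_lt
        (by rw [Polynomial.natDegree_taylor]; exact (hdeg i).trans_lt hb)
  refine ⟨_, ⟨?_, ?_⟩, htop⟩
  · intro h0
    obtain ⟨-, b, hb, -⟩ := htop
    refine hz0 (funext fun i => ?_)
    rw [← hb i, h0]
    simp
  · obtain ⟨-, l, hl⟩ := hπ
    refine ⟨l, fun i b => ?_⟩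
    have h1 : Plc2PT P (Polynomial.C l * (w i).comp (Polynomial.C ρ * Polynomial.X)) (π i) := by
      intro c
      rw [Plc2_coeff]
      exact hl i c
    have h2 := h1.comp (Plc2PT.X.add (Plc2PT.C ht)) b
    rw [← Plc2_coeff, Polynomial.taylor_apply]
    convert h2 using 2
    simp only [Polynomial.mul_comp, Polynomial.C_comp, Polynomial.comp_assoc, Polynomial.add_comp,
      Polynomial.X_comp, mul_add, ← Polynomial.C_mul, mul_div_cancel₀ _ hρ]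

theorem Plc2_link {k K : Type*} [Field k] [Field K] [Algebra k K] [Algebra k E] [Algebra k Ω]
    [IsAlgClosed E] {P : Plc E Ω} (hP : P.Over k) {ξ : ι → K} {z y : ι → E} {z' y' : ι → Ω}
    (h : Link k ξ z y) (h₁ : P.Sp z z') (h₂ : P.Sp y y') : Chain k ξ z' y' := by
  have hon := h.on
  obtain ⟨hz, hy, d, Q, hQ, hd, h0, h1⟩ := h
  obtain rfl : (fun i => (Q i).coeff 0) = z := funext h0
  obtain rfl : (fun i => (Q i).coeff d) = y := funext h1
  have hQ0 : Q ≠ 0 := by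
    rintro rfl
    exact hz (funext fun i => by simp)
  obtain ⟨ρ₁, hρ₁, -, hs⟩ := exists_small P hz one_ne_zero
  obtain ⟨ρ₂, hle, hρ₂, hl⟩ := Plc2_large P hy hd ρ₁
  obtain ⟨π₁, hπ₁⟩ := P.exists_in hQ0 hρ₁
  obtain ⟨π₂, hπ₂⟩ := P.exists_in hQ0 hρ₂
  have ha := hs π₁ hπ₁
  have hb := Plc2_in_sp hπ₂ (hl π₂ hπ₂)
  have hR := np P Q (fun a b => On k ξ a ∧ a ≠ 0 ∧ Chain k ξ a b)
    (fun a b c hab hbc => ⟨hab.1, hab.2.1, hab.2.2.trans hbc.2.2⟩)
    (fun a b c hc hab => ⟨hab.1, hab.2.1, hab.2.2.tail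
      (link_smul (hab.2.2.on hab.1) (hab.2.2.ne_zero hab.2.1) hc)⟩) hρ₁ hle
    (fun ρ _ _ π a b hπ hlo hto =>
      have hlk := link_of_low_top (Plc2_in_on hP hQ hπ) hlo hto
      ⟨hlk.on.1, hlk.1, Relation.ReflTransGen.single hlk⟩) hπ₁ hπ₂
    (z := fun i => (π₁ i).coeff 0) (z' := fun i => (π₂ i).coeff d)
    ⟨ha.1, 0, fun _ => rfl, fun _ _ h => (Nat.not_lt_zero _ h).elim⟩
    ⟨hb.1, d, fun _ => rfl, fun i j hj =>
      Plc2_in_zero hπ₂ (Polynomial.coeff_eq_zero_of_natDegree_lt ((hd i).trans_lt hj))⟩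
  obtain ⟨c, hc, hc'⟩ := h₁.unique ha
  obtain ⟨e, he, he'⟩ := hb.unique h₂
  have l1 := link_smul (h₁.on hP hon.1) h₁.1 hc
  have l2 := link_smul (hb.on hP hon.2) hb.1 he
  rw [← hc'] at l1
  rw [← he'] at l2
  exact (Relation.ReflTransGen.head l1 hR.2.2).tail l2

/-- specialisation of chains -/
theorem sp {k K : Type*} [Field k] [Field K] [Algebra k K] [Algebra k E] [Algebra k Ω]
    [IsAlgClosed E] {P : Plc E Ω} (hP : P.Over k) {ξ : ι → K} {z y : ι → E} {z' y' : ι → Ω}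
    (hz : On k ξ z) (h : Chain k ξ z y) (h₁ : P.Sp z z') (h₂ : P.Sp y y') :
    Chain k ξ z' y' := by
  induction h generalizing y' with
  | refl =>
    obtain ⟨c, hc, rfl⟩ := h₁.unique h₂
    exact Relation.ReflTransGen.single (link_smul (h₁.on hP hz) h₁.1 hc)
  | tail _ hl ih =>
    obtain ⟨x, hx⟩ := P.exists_sp hl.1
    exact (ih hx).trans (Plc2_link hP hl hx h₂)

end Pool.Agent.Lib.MP_7fcda1_ag
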