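import Pool.Agent.Lib.MP_7fcda1_ag.Rk
import Pool.Agent.Lib.MP_7fcda1_ag.Plc2

open scoped IntermediateField Polynomial WithZero
open Module

noncomputable section

universe u

namespace Pool.Agent.Lib.MP_7fcda1_ag

/-- a weight separating finitely many exponents -/
theorem M7a.exists_wt {σ : Type*} [Fintype σ] (S : Finset (σ →₀ ℕ)) :
    ∃ w : σ → ℕ, Set.InjOn (fun m : σ →₀ ℕ => ∑ i, m i * w i) S := by
  classical
  obtain ⟨N, hN⟩ : ∃ N : ℕ, ∀ m ∈ S, ∀ i, m i < N := by
    refine ⟨S.sup (fun m => Finset.univ.sup m) + 1, fun m hm i => Nat.lt_succ_of_le ?_⟩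
    exact (Finset.le_sup (f := m) (Finset.mem_univ i)).trans
      (Finset.le_sup (f := fun m : σ →₀ ℕ => Finset.univ.sup m) hm)
  let e := Fintype.equivFin σ
  refine ⟨fun i => N ^ (e i : ℕ), fun m hm m' hm' h => ?_⟩
  let f : Fin (Fintype.card σ) → Fin N := fun j => ⟨m (e.symm j), hN m hm _⟩
  let f' : Fin (Fintype.card σ) → Fin N := fun j => ⟨m' (e.symm j), hN m' hm' _⟩
  have h1 : (finFunctionFinEquiv f : ℕ) = finFunctionFinEquiv f' := by
    rw [finFunctionFinEquiv_apply, finFunctionFinEquiv_apply,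
      ← e.sum_comp, ← e.sum_comp]
    simpa [f, f'] using h
  have h2 : f = f' := finFunctionFinEquiv.injective (Fin.ext h1)
  ext i
  have := congrArg Fin.val (congrFun h2 (e i))
  simpa [f, f'] using this

theorem M7a.coeff_kron {σ R : Type*} [Fintype σ] [CommRing R] (w : σ → ℕ) (S : Finset (σ →₀ ℕ))
    (hw : Set.InjOn (fun m : σ →₀ ℕ => ∑ i, m i * w i) S) (P : MvPolynomial σ R)
    (hP : P.support ⊆ S) {m : σ →₀ ℕ} (hm : m ∈ S) :
    (MvPolynomial.aeval (fun i => (Polynomial.X : Polynomial R) ^ w i) P).coeff (∑ i, m i * w i) =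
      P.coeff m := by
  classical
  rw [MvPolynomial.aeval_def, MvPolynomial.eval₂_eq', Polynomial.finsetSum_coeff]
  have key : ∀ d : σ →₀ ℕ, (algebraMap R (Polynomial R) (P.coeff d) *
      ∏ i, ((Polynomial.X : Polynomial R) ^ w i) ^ d i).coeff (∑ i, m i * w i) =
      if ∑ i, m i * w i = ∑ i, d i * w i then P.coeff d else 0 := by
    intro d
    simp_rw [← pow_mul]
    rw [Finset.prod_pow_eq_pow_sum, Polynomial.algebraMap_apply, Algebra.algebraMap_self_apply,
      Polynomial.coeff_C_mul_X_pow]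
    simp_rw [mul_comm (w _)]
  simp_rw [key]
  rw [Finset.sum_eq_single m]
  · simp
  · intro d hd hdm
    rw [if_neg]
    exact fun h => hdm (hw (hP hd) hm h.symm)
  · intro h
    simp [MvPolynomial.notMem_support_iff.1 h]

theorem M7a.alg_uni {K Ω : Type*} [Field K] [Field Ω] [Algebra K Ω] {θ : Polynomial K} (hθ : θ ≠ 0)
    {ψ : Polynomial Ω} (h : ψ ∣ θ.map (algebraMap K Ω)) (i j : ℕ) :
    IsAlgebraic K (ψ.coeff i / ψ.coeff j) := by
  have hψ : ψ ≠ 0 := ne_zero_of_dvd_ne_zero (Polynomial.map_ne_zero hθ) h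
  have hl : ψ.leadingCoeff ≠ 0 := Polynomial.leadingCoeff_ne_zero.2 hψ
  have key : ∀ i, IsAlgebraic K (ψ.coeff i * ψ.leadingCoeff⁻¹) := by
    intro i
    have := Polynomial.isIntegral_coeff_of_dvd (θ * Polynomial.C θ.leadingCoeff⁻¹)
      (ψ * Polynomial.C ψ.leadingCoeff⁻¹) (Polynomial.monic_mul_leadingCoeff_inv hθ)
      (Polynomial.monic_mul_leadingCoeff_inv hψ) (by
        rw [Polynomial.map_mul]
        refine Dvd.dvd.mul_right ?_ _
        exact (IsUnit.mul_right_dvd (Polynomial.isUnit_C.2 (inv_ne_zero hl).isUnit)).2 h) i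
    rw [Polynomial.coeff_mul_C] at this
    exact this.isAlgebraic
  have : ψ.coeff i / ψ.coeff j =
      (ψ.coeff i * ψ.leadingCoeff⁻¹) * (ψ.coeff j * ψ.leadingCoeff⁻¹)⁻¹ := by
    rw [← div_eq_mul_inv (_ * _), mul_div_mul_right _ _ (inv_ne_zero hl)]
  rw [this]
  exact (key i).mul (key j).inv

theorem M7a.map_kron {σ K Ω : Type*} [CommRing K] [CommRing Ω] (f : K →+* Ω) (w : σ → ℕ)
    (Θ : MvPolynomial σ K) :
    (MvPolynomial.aeval (fun i => (Polynomial.X : Polynomial K) ^ w i) Θ).map f =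
      MvPolynomial.aeval (fun i => (Polynomial.X : Polynomial Ω) ^ w i) (MvPolynomial.map f Θ) := by
  induction Θ using MvPolynomial.induction_on with
  | C a => simp
  | add p q hp hq => simp [hp, hq]
  | mul_X p i hp => simp [hp]

theorem M7a.alg_of_dvd {K Ω σ : Type*} [Field K] [Field Ω] [Algebra K Ω] [Finite σ]
    {Θ : MvPolynomial σ K} (hΘ : Θ ≠ 0) {Ψ : MvPolynomial σ Ω}
    (h : Ψ ∣ MvPolynomial.map (algebraMap K Ω) Θ) (m m' : σ →₀ ℕ) :
    IsAlgebraic K (Ψ.coeff m / Ψ.coeff m') := by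
  classical
  have := Fintype.ofFinite σ
  obtain ⟨w, hw⟩ := M7a.exists_wt (insert m (insert m' (Ψ.support ∪ Θ.support)))
  rw [← M7a.coeff_kron w _ hw Ψ (m := m) (fun _ h => by simp [h]) (by simp),
    ← M7a.coeff_kron w _ hw Ψ (m := m') (fun _ h => by simp [h]) (by simp)]
  refine M7a.alg_uni (θ := MvPolynomial.aeval (fun i => (Polynomial.X : Polynomial K) ^ w i) Θ) ?_ ?_ _ _
  · obtain ⟨d, hd⟩ := MvPolynomial.ne_zero_iff.1 hΘ
    intro h0
    have := M7a.coeff_kron w _ hw Θ (m := d) (fun _ h => by simp [h])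
      (by simp [MvPolynomial.mem_support_iff.2 hd])
    rw [h0] at this
    exact hd (by simpa using this.symm)
  · rw [M7a.map_kron]
    exact map_dvd _ h

theorem M7a.lift {σ S E : Type*} [CommRing S] [CommRing E] (f : S →+* E) (F : MvPolynomial σ E)
    (h : ∀ m, ∃ a, f a = F.coeff m) : ∃ q, MvPolynomial.map f q = F := by
  classical
  choose a ha using h
  refine ⟨∑ m ∈ F.support, MvPolynomial.monomial m (a m), ?_⟩
  rw [map_sum]
  simp_rw [MvPolynomial.map_monomial, ha]
  exact F.as_sum.symm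

theorem M7a.indep_mono {R S E Z : Type*} [Field R] [Field S] [Field E] [Algebra R E] [Algebra S E]
    {z : Z → E} (h : ∀ a : R, ∃ b : S, algebraMap S E b = algebraMap R E a)
    (hz : AlgebraicIndependent S z) : AlgebraicIndependent R z := by
  rw [algebraicIndependent_iff] at hz ⊢
  intro p hp
  obtain ⟨q, hq⟩ := M7a.lift (algebraMap S E) (MvPolynomial.map (algebraMap R E) p)
    fun m => by simpa [MvPolynomial.coeff_map] using h _
  have h0 : q = 0 := by
    apply hz
    rw [MvPolynomial.aeval_def, MvPolynomial.eval₂_eq_eval_map, hq,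
      ← MvPolynomial.eval₂_eq_eval_map, ← MvPolynomial.aeval_def, hp]
  rw [h0, map_zero] at hq
  exact MvPolynomial.map_injective _ (algebraMap R E).injective (by rw [← hq, map_zero])

theorem M7a.adjoin_range {F S E : Type*} [Field F] [Field S] [Field E] [Algebra F E] [Algebra S E]
    (hF : ∀ a : F, ∃ b : S, algebraMap S E b = algebraMap F E a) {T : Set E}
    (hT : ∀ t ∈ T, ∃ b : S, algebraMap S E b = t) (a : IntermediateField.adjoin F T) :
    ∃ b : S, algebraMap S E b = algebraMap (IntermediateField.adjoin F T) E a := by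
  have : (IntermediateField.adjoin F T).toSubfield ≤ (algebraMap S E).fieldRange := by
    rw [IntermediateField.adjoin_toSubfield, Subfield.closure_le]
    rintro x (⟨c, rfl⟩ | hx)
    · exact hF c
    · exact hT x hx
  exact this a.2

theorem M7a.exists_ext (Ω : Type u) [Field Ω] (Z : Type) :
    ∃ (E : Type u) (_ : Field E) (_ : IsAlgClosed E) (_ : Algebra Ω E) (z : Z → E),
      AlgebraicIndependent Ω z := by
  let R := MvPolynomial Z Ω
  refine ⟨AlgebraicClosure (FractionRing R), inferInstance, inferInstance, inferInstance,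
    (IsScalarTower.toAlgHom Ω R (AlgebraicClosure (FractionRing R))) ∘ MvPolynomial.X, ?_⟩
  refine (MvPolynomial.algebraicIndependent_X Z Ω).map' ?_
  intro a b h
  have e := IsScalarTower.algebraMap_apply R (FractionRing R) (AlgebraicClosure (FractionRing R))
  exact IsFractionRing.injective R _ ((algebraMap (FractionRing R) _).injective
    ((e a).symm.trans (h.trans (e b))))

theorem M7a.exists_pt {R : Type u} [CommRing R] {Ψ : R} (h : Prime Ψ) :
    ∃ (E : Type u) (_ : Field E) (_ : IsAlgClosed E) (π : R →+* E), ∀ f, π f = 0 ↔ Ψ ∣ f := by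
  have : (Ideal.span {Ψ}).IsPrime := (Ideal.span_singleton_prime h.ne_zero).2 h
  let Q := R ⧸ Ideal.span {Ψ}
  refine ⟨AlgebraicClosure (FractionRing Q), inferInstance, inferInstance,
    (algebraMap (FractionRing Q) _).comp ((algebraMap Q (FractionRing Q)).comp
      (Ideal.Quotient.mk _)), fun f => ?_⟩
  simp only [RingHom.comp_apply, map_eq_zero, IsFractionRing.to_map_eq_zero_iff]
  exact Ideal.Quotient.eq_zero_iff_mem.trans Ideal.mem_span_singleton

theorem M7a.rk_empty (F E : Type*) [Field F] [Field E] [Algebra F E] : rk F (∅ : Set E) = 0 :=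
  Matroid.eRk_empty _

theorem M7a.rk_insert_le {F E : Type*} [Field F] [Field E] [Algebra F E] (a : E) (T : Set E) :
    rk F (insert a T) ≤ rk F T + 1 :=
  Matroid.eRk_insert_le_add_one _ _ _

theorem M7a.not_indep {F E σ A : Type*} [Field F] [Field E] [Algebra F E] [Fintype σ] [Fintype A]
    (g : σ → E) (e : A → σ) (he : Function.Injective e) (T : Set E) (r : ℕ) (hT : rk F T ≤ r)
    (hr : r < Fintype.card A)
    (h : ∀ a, g (e a) ∈ IntermediateField.adjoin F (g '' (Set.range e)ᶜ ∪ T)) :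
    ¬AlgebraicIndependent F g := by
  classical
  intro hg
  have h1 : rk F (Set.range g) ≤ rk F (g '' (Set.range e)ᶜ ∪ T) := by
    refine rk_le_of_mem ?_
    rintro _ ⟨s, rfl⟩
    by_cases hs : s ∈ Set.range e
    · obtain ⟨a, rfl⟩ := hs
      exact h a
    · exact IntermediateField.subset_adjoin _ _ (Or.inl ⟨s, hs, rfl⟩)
  have h2 : rk F (g '' (Set.range e)ᶜ) ≤ Fintype.card {s // ¬s ∈ Set.range e} := by
    refine le_trans (rk_mono ?_) (rk_range_le fun s : {s // ¬s ∈ Set.range e} => g s)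
    rintro _ ⟨s, hs, rfl⟩
    exact ⟨⟨s, hs⟩, rfl⟩
  have h3 := (rk_range_indep hg).symm.trans_le
    (h1.trans (rk_union_le.trans (add_le_add h2 hT)))
  have h4 : Fintype.card {s // s ∈ Set.range e} = Fintype.card A :=
    Set.card_range_of_injective he
  have h5 : Fintype.card {s // s ∈ Set.range e} ≤ Fintype.card σ := Fintype.card_subtype_le _
  rw [Fintype.card_subtype_compl, h4] at h3
  norm_cast at h3
  omega

/-- Gauss lemma over a valuation ring -/
theorem M7a.gauss {σ K Ω : Type*} [Field K] [Field Ω] (P : Plc K Ω) {Φ G : MvPolynomial σ P.V}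
    (hΦ : MvPolynomial.map P.ρ Φ ≠ 0)
    (h : MvPolynomial.map P.V.subtype Φ ∣ MvPolynomial.map P.V.subtype G) : Φ ∣ G := by
  classical
  have inj := MvPolynomial.map_injective (σ := σ) P.V.subtype Subtype.val_injective
  obtain ⟨H, hH⟩ := h
  by_cases h0 : H = 0
  · rw [h0, mul_zero] at hH
    rw [inj (hH.trans (map_zero _).symm)]
    exact dvd_zero _
  obtain ⟨j, hj, hj'⟩ := exists_min_coord P.V (w := fun m : H.support => H.coeff m) (by
    obtain ⟨m, hm⟩ := MvPolynomial.ne_zero_iff.1 h0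
    exact fun h => hm (congrFun h ⟨m, MvPolynomial.mem_support_iff.2 hm⟩))
  set c := H.coeff j
  obtain ⟨H₁, hH₁⟩ := M7a.lift P.V.subtype (MvPolynomial.C c⁻¹ * H) fun m => by
    rw [MvPolynomial.coeff_C_mul]
    by_cases hm : m ∈ H.support
    · exact ⟨⟨_, hj' ⟨m, hm⟩⟩, by simp [div_eq_inv_mul]⟩
    · exact ⟨0, by simp [MvPolynomial.notMem_support_iff.1 hm]⟩
  have h1 : H₁.coeff j = 1 := by
    apply Subtype.val_injective
    have := congrArg (MvPolynomial.coeff j) hH₁
    rw [MvPolynomial.coeff_map, MvPolynomial.coeff_C_mul, inv_mul_cancel₀ hj] at this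
    exact this
  have h2 : MvPolynomial.map P.ρ H₁ ≠ 0 := fun h => by
    have := congrArg (MvPolynomial.coeff j) h
    rw [MvPolynomial.coeff_map, h1] at this
    simp at this
  by_cases hc : c ∈ P.V
  · refine ⟨MvPolynomial.C ⟨c, hc⟩ * H₁, inj ?_⟩
    rw [map_mul, map_mul, hH₁, MvPolynomial.map_C, hH, ← mul_assoc (MvPolynomial.C _),
      ← MvPolynomial.C_mul]
    simp [mul_inv_cancel₀ hj]
  · exfalso
    have hc' : c⁻¹ ∈ P.V := (P.V.mem_or_inv_mem c).resolve_left hc
    have h3 : MvPolynomial.C ⟨c⁻¹, hc'⟩ * G = Φ * H₁ := by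
      apply inj
      rw [map_mul, map_mul, hH₁, MvPolynomial.map_C, hH]
      simp only [ValuationSubring.coe_subtype]
      ring
    have h4 : P.ρ ⟨c⁻¹, hc'⟩ = 0 := by
      rw [P.ker, map_inv₀]
      have := (P.V.valuation_le_one_iff c).not.2 hc
      exact inv_lt_one_of_one_lt₀ (not_le.1 this)
    have := congrArg (MvPolynomial.map P.ρ) h3
    rw [map_mul, map_mul, MvPolynomial.map_C, h4, map_zero, zero_mul] at this
    exact mul_ne_zero hΦ h2 this.symm

theorem M7a.dvd_of_prime {σ K Ω : Type*} [Field K] [Field Ω] [Algebra K Ω] [Finite σ]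
    (Φ : MvPolynomial σ Ω) (hΦ : Φ ≠ 0)
    (h : ∀ Ψ, Prime Ψ → Ψ ∣ Φ → ∃ Θ : MvPolynomial σ K, Θ ≠ 0 ∧
      Ψ ∣ MvPolynomial.map (algebraMap K Ω) Θ) :
    ∃ Θ : MvPolynomial σ K, Θ ≠ 0 ∧ Φ ∣ MvPolynomial.map (algebraMap K Ω) Θ := by
  induction Φ using UniqueFactorizationMonoid.induction_on_prime with
  | h₁ => exact absurd rfl hΦ
  | h₂ x hx => exact ⟨1, one_ne_zero, hx.dvd⟩
  | h₃ a p ha hp ih =>
    obtain ⟨Θ, h1, h2⟩ := ih ha fun Ψ hΨ hd => h Ψ hΨ (hd.mul_left p)
    obtain ⟨Θ', h1', h2'⟩ := h p hp (dvd_mul_right _ _)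
    exact ⟨Θ' * Θ, mul_ne_zero h1' h1, by rw [map_mul]; exact mul_dvd_mul h2' h2⟩

end Pool.Agent.Lib.MP_7fcda1_ag
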