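import Pool.Agent.Lib.MP_7fcda1_ag.Rk
import Pool.Agent.Lib.MP_7fcda1_ag.Plc1

open scoped IntermediateField Polynomial WithZero TensorProduct
open Module

noncomputable section

universe u

namespace Pool.Agent.Lib.MP_7fcda1_ag

section spec
variable {k E Ω : Type*} [Field k] [Field E] [Field Ω] [Algebra k E] [Algebra k Ω] {σ : Type*}

/-- a place is finite at the roots of a polynomial whose leading coefficient stays nonzero -/
theorem m7_spec {P : Plc E Ω} (hP : P.Over k) {v : σ → E} {c : σ → Ω}
    (h : ∀ s, P.To (v s) (c s)) {b : E} {p : (MvPolynomial σ k)[X]}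
    (hb : p.eval₂ (MvPolynomial.aeval v).toRingHom b = 0)
    (hl : MvPolynomial.aeval c p.leadingCoeff ≠ 0) :
    ∃ β, P.To b β ∧ p.eval₂ (MvPolynomial.aeval c).toRingHom β = 0 := by
  have hs := Plc.To.aeval hP h p.leadingCoeff
  have hs0 : MvPolynomial.aeval v p.leadingCoeff ≠ 0 := by
    intro h0
    rw [h0] at hs
    exact hl (hs.unique Plc.to_zero)
  have hbV : b ∈ P.V := by
    refine mem_of_monic (Polynomial.C (MvPolynomial.aeval v p.leadingCoeff)⁻¹ *
      p.map (MvPolynomial.aeval v).toRingHom) ?_ ?_ ?_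
    · apply Polynomial.monic_C_mul_of_mul_leadingCoeff_eq_one
      rw [Polynomial.leadingCoeff_map_of_leadingCoeff_ne_zero _ hs0]
      exact inv_mul_cancel₀ hs0
    · intro i
      rw [Polynomial.coeff_C_mul, Polynomial.coeff_map]
      exact ((hs.inv hl).mul (Plc.To.aeval hP h (p.coeff i))).1
    · rw [Polynomial.eval_mul, Polynomial.eval_map, hb, mul_zero]
  have hβ : P.To b (P.ρ ⟨b, hbV⟩) := ⟨hbV, rfl⟩
  refine ⟨_, hβ, ?_⟩
  have h1 : P.To (p.eval₂ (MvPolynomial.aeval v).toRingHom b)
      (p.eval₂ (MvPolynomial.aeval c).toRingHom (P.ρ ⟨b, hbV⟩)) := by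
    rw [Polynomial.eval₂_eq_sum_range, Polynomial.eval₂_eq_sum_range]
    exact Plc.To.sum fun i _ => (Plc.To.aeval hP h (p.coeff i)).mul (hβ.pow i)
  rw [hb] at h1
  exact h1.unique Plc.to_zero

/-- an algebraic equation with polynomial coefficients -/
theorem m7_eqn {v : σ → E} {b : E}
    (h : IsAlgebraic (IntermediateField.adjoin k (Set.range v)) b) (hv : AlgebraicIndependent k v) :
    ∃ p : (MvPolynomial σ k)[X], p ≠ 0 ∧ p.eval₂ (MvPolynomial.aeval v).toRingHom b = 0 := by
  rw [IntermediateField.isAlgebraic_adjoin_iff] at h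
  obtain ⟨q, hq, hqb⟩ := h
  refine ⟨q.map hv.aevalEquiv.symm.toRingEquiv.toRingHom, ?_, ?_⟩
  · exact (Polynomial.map_ne_zero_iff hv.aevalEquiv.symm.injective).2 hq
  · rw [Polynomial.eval₂_map, ← hqb, Polynomial.aeval_def]
    congr 1
    ext a
    obtain ⟨g, rfl⟩ := hv.aevalEquiv.surjective a
    simp

end spec

variable {k K : Type u} [Field k] [IsAlgClosed k] [Field K] [Algebra k K]

/-- a place over `x K` taking finitely many prescribed elements of `θ K` to constants -/
theorem m7_place {E : Type*} [Field E] [Algebra k E] (x θ : K →ₐ[k] E)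
    (hK : rk k (Set.univ : Set K) ≠ ⊤)
    (h : rk k (Set.univ : Set K) + rk k (Set.univ : Set K) ≤ rk k (Set.range x ∪ Set.range θ))
    (B : Finset K) :
    ∃ P : Plc E (AlgebraicClosure K), (∀ a, P.To (x a) (algebraMap K _ a)) ∧
      ∀ b ∈ B, ∃ β : k, P.To (θ b) (algebraMap k _ β) := by
  classical
  obtain ⟨n, hn⟩ := ENat.ne_top_iff_exists.1 hK
  obtain ⟨v, -, hv⟩ := exists_indep (k := k) (S := (Set.univ : Set K)) hn.le
  have hvr : rk k (Set.range v) = n := by rw [rk_range_indep hv]; simp
  have halg : ∀ b : K, IsAlgebraic (IntermediateField.adjoin k (Set.range v)) b := fun b =>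
    alg_of_rk (S := Set.univ) (by rw [hvr]; simp) (by rw [hvr, Set.univ_union, ← hn]) b trivial
  choose p hp0 hp using fun b => m7_eqn (halg b) hv
  let : Algebra K E := x.toRingHom.toAlgebra
  have : IsScalarTower k K E := IsScalarTower.of_algebraMap_eq fun c => (x.commutes c).symm
  have hθp : ∀ b, (p b).eval₂ (MvPolynomial.aeval fun s => θ (v s)).toRingHom (θ b) = 0 := by
    intro b
    have h1 := congrArg θ.toRingHom (hp b)
    rw [Polynomial.hom_eval₂, map_zero] at h1
    rw [← h1]
    congr 1
    ext <;> simp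
  have hθv : AlgebraicIndependent k fun s => θ (v s) := hv.map' θ.injective
  have hind : AlgebraicIndependent K fun s => θ (v s) := by
    apply indep_of_rk
    have h1 := rk_tower (k := k) (K := K) (S := Set.range fun s => θ (v s))
    have h2 : rk k (Set.range x ∪ Set.range θ) ≤
        rk k (Set.range (algebraMap K E) ∪ Set.range fun s => θ (v s)) := by
      apply rk_le_of_alg
      rintro _ (⟨a, rfl⟩ | ⟨b, rfl⟩)
      · exact isAlgebraic_algebraMap (⟨x a, IntermediateField.subset_adjoin _ _ (Or.inl ⟨a, rfl⟩)⟩ :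
          IntermediateField.adjoin k (Set.range (algebraMap K E) ∪ Set.range fun s => θ (v s)))
      · let w : Fin n → IntermediateField.adjoin k
            (Set.range (algebraMap K E) ∪ Set.range fun s => θ (v s)) :=
          fun s => ⟨θ (v s), IntermediateField.subset_adjoin _ _ (Or.inr ⟨s, rfl⟩)⟩
        have hw : AlgebraicIndependent k w :=
          AlgebraicIndependent.of_comp (IntermediateField.val _) hθv
        refine ⟨(p b).map (MvPolynomial.aeval w).toRingHom, ?_, ?_⟩
        · exact (Polynomial.map_ne_zero_iff hw).2 (hp0 b)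
        · rw [Polynomial.aeval_def, Polynomial.eval₂_map, ← hθp b]
          congr 1
          ext <;> simp [w]
    have h3 := (h.trans h2).trans h1.le
    rw [← hn] at h3
    simpa using (ENat.add_le_add_iff_left (ENat.natCast_ne_top n)).1 h3
  obtain ⟨c, hc⟩ : ∃ c : Fin n → k, ∀ b ∈ B, MvPolynomial.eval c (p b).leadingCoeff ≠ 0 := by
    by_contra hne
    have h0 : ∏ b ∈ B, (p b).leadingCoeff = 0 := by
      apply MvPolynomial.funext
      intro c
      by_contra h1
      apply hne
      refine ⟨c, fun b hb h2 => h1 ?_⟩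
      rw [map_prod, map_zero]
      exact Finset.prod_eq_zero hb h2
    obtain ⟨b, -, hb⟩ := Finset.prod_eq_zero_iff.1 h0
    exact hp0 b (Polynomial.leadingCoeff_eq_zero.1 hb)
  obtain ⟨P, hP⟩ := exists_plc_of_hom (Ω := AlgebraicClosure K)
    (MvPolynomial.aeval (R := K) fun s => θ (v s)).toRingHom
    (MvPolynomial.aeval (R := K) fun s => algebraMap k (AlgebraicClosure K) (c s)).toRingHom
    (fun r hr => by
      have : r = 0 := hind (hr.trans (map_zero _).symm)
      rw [this, map_zero])
  have hx : ∀ a, P.To (x a) (algebraMap K _ a) := fun a => by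
    have := hP (MvPolynomial.C a)
    simp only [AlgHom.toRingHom_eq_coe, RingHom.coe_coe, MvPolynomial.algHom_C] at this
    exact this
  have hover : P.Over k := fun a => by
    have := hx (algebraMap k K a)
    rwa [x.commutes, ← IsScalarTower.algebraMap_apply] at this
  refine ⟨P, hx, fun b hb => ?_⟩
  have hcs : ∀ g : MvPolynomial (Fin n) k,
      MvPolynomial.aeval (fun s => algebraMap k (AlgebraicClosure K) (c s)) g =
        algebraMap k _ (MvPolynomial.eval c g) := fun g => by
    rw [← MvPolynomial.coe_aeval_eq_eval]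
    exact MvPolynomial.aeval_algebraMap_apply _ c g
  obtain ⟨β, hβ, hβ0⟩ := m7_spec hover (v := fun s => θ (v s))
    (c := fun s => algebraMap k (AlgebraicClosure K) (c s))
    (fun s => by simpa using hP (MvPolynomial.X s)) (hθp b)
    (by rw [hcs]; exact (map_ne_zero _).2 (hc b hb))
  have hal : IsAlgebraic k β := by
    refine ⟨(p b).map (MvPolynomial.eval c), fun h0 => hc b hb ?_, ?_⟩
    · have := congrArg (fun q => q.coeff (p b).natDegree) h0
      simpa using this
    · rw [Polynomial.aeval_def, Polynomial.eval₂_map, ← hβ0]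
      congr 1
      ext <;> simp
  have hmem : β ∈ (⊥ : IntermediateField k (AlgebraicClosure K)) := by
    have := IntermediateField.isAlgebraic_adjoin_simple hal.isIntegral
    rw [← IntermediateField.eq_bot_of_isAlgClosed_of_isAlgebraic k⟮β⟯]
    exact IntermediateField.mem_adjoin_simple_self k β
  obtain ⟨β₀, rfl⟩ := IntermediateField.mem_bot.1 hmem
  exact ⟨β₀, hβ⟩

theorem m7_inj {E : Type*} [Field E] [Algebra k E] (x θ : K →ₐ[k] E)
    (hK : rk k (Set.univ : Set K) ≠ ⊤)
    (h : rk k (Set.univ : Set K) + rk k (Set.univ : Set K) ≤ rk k (Set.range x ∪ Set.range θ)) :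
    Function.Injective (Algebra.TensorProduct.productMap x θ) := by
  classical
  rw [injective_iff_map_eq_zero]
  intro t ht
  obtain ⟨c, rfl⟩ := TensorProduct.eq_repr_basis_left (Basis.ofVectorSpace k K) t
  suffices hc : c = 0 by rw [hc]; simp
  by_contra hc
  obtain ⟨j, hj⟩ := Finsupp.support_nonempty_iff.2 hc
  have hj0 := Finsupp.mem_support_iff.1 hj
  obtain ⟨P, hx, hB⟩ := m7_place x θ hK h (c.support.image fun i => c i / c j)
  have hB' : ∀ i, ∃ β : k, i ∈ c.support → P.To (θ (c i / c j)) (algebraMap k _ β) := fun i => by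
    by_cases hi : i ∈ c.support
    · obtain ⟨β, hβ⟩ := hB _ (Finset.mem_image_of_mem _ hi)
      exact ⟨β, fun _ => hβ⟩
    · exact ⟨0, fun h => absurd h hi⟩
  choose β hβ using hB'
  have h1 : P.To (∑ i ∈ c.support, x (Basis.ofVectorSpace k K i) * θ (c i / c j))
      (∑ i ∈ c.support, algebraMap K _ (Basis.ofVectorSpace k K i) * algebraMap k _ (β i)) :=
    Plc.To.sum fun i hi => (hx _).mul (hβ i hi)
  have h2 : ∑ i ∈ c.support, x (Basis.ofVectorSpace k K i) * θ (c i / c j) = 0 := by
    rw [Finsupp.sum, map_sum] at ht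
    simp only [Algebra.TensorProduct.productMap_apply_tmul] at ht
    simp only [map_div₀, ← mul_div_assoc]
    rw [← Finset.sum_div, ht, zero_div]
  rw [h2] at h1
  have h3 := h1.unique Plc.to_zero
  have h4 : ∑ i ∈ c.support, β i • Basis.ofVectorSpace k K i = 0 := by
    apply (algebraMap K (AlgebraicClosure K)).injective
    rw [map_zero, ← h3, map_sum]
    refine Finset.sum_congr rfl fun i _ => ?_
    rw [Algebra.smul_def, map_mul, ← IsScalarTower.algebraMap_apply, mul_comm]
  have h5 := linearIndependent_iff'.1 (Basis.ofVectorSpace k K).linearIndependent _ _ h4 j hj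
  have h6 := hβ j hj
  rw [div_self hj0, map_one, h5, map_zero] at h6
  exact zero_ne_one (h6.unique Plc.to_one)

end Pool.Agent.Lib.MP_7fcda1_ag
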