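import Pool.Agent.Lib.MP_7fcda1_ag.M7a
import Pool.Agent.Lib.MP_7fcda1_ag.M7ba

open scoped IntermediateField Polynomial WithZero
open Module

noncomputable section

universe u

namespace Pool.Agent.Lib.MP_7fcda1_ag


variable {k K : Type u} [Field k] [IsAlgClosed k] [Field K] [Algebra k K] {ι : Type} [Fintype ι]

/-- free subfields over an algebraically closed field are linearly disjoint -/
theorem linDisj {E : Type*} [Field E] [Algebra k E] (x θ : K →ₐ[k] E)
    (hK : rk k (Set.univ : Set K) ≠ ⊤)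
    (h : rk k (Set.univ : Set K) + rk k (Set.univ : Set K) ≤ rk k (Set.range x ∪ Set.range θ)) :
    x.range.LinearDisjoint θ.range := by
  rw [Subalgebra.linearDisjoint_iff_injective]
  let e := Algebra.TensorProduct.congr (AlgEquiv.ofInjective x x.injective)
    (AlgEquiv.ofInjective θ θ.injective)
  have he : (x.range.mulMap θ.range).comp e.toAlgHom = Algebra.TensorProduct.productMap x θ := by
    ext a <;> simp [e]
  have hi := m7_inj x θ hK h
  rw [← he] at hi
  exact Function.Injective.of_comp_right hi e.surjective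

theorem m7_ext (Ω : Type u) [Field Ω] (j : ℕ) :
    ∃ (M : Type u) (_ : Field M) (_ : IsAlgClosed M) (_ : Algebra Ω M) (t : Fin j → M),
      AlgebraicIndependent Ω t := by
  refine ⟨AlgebraicClosure (FractionRing (MvPolynomial (Fin j) Ω)), inferInstance, inferInstance,
    inferInstance, _, (MvPolynomial.algebraicIndependent_X (Fin j) Ω).map'
      (f := IsScalarTower.toAlgHom Ω _ _) ?_⟩
  exact (algebraMap (FractionRing (MvPolynomial (Fin j) Ω)) _).injective.comp
    (IsFractionRing.injective (MvPolynomial (Fin j) Ω) (FractionRing (MvPolynomial (Fin j) Ω)))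

omit [IsAlgClosed k] [Fintype ι] in
theorem m7_rk_univ {ξ : ι → K} (hgen : IntermediateField.adjoin k (Set.range ξ) = ⊤) :
    rk k (Set.univ : Set K) = rk k (Set.range ξ) :=
  le_antisymm (rk_le_of_mem fun _ _ => hgen ▸ IntermediateField.mem_top)
    (rk_mono (Set.subset_univ _))

omit [IsAlgClosed k] in
theorem m7_rk_ne_top {E : Type*} [Field E] [Algebra k E] {σ : Type*} [Fintype σ] (z : σ → E) :
    rk k (Set.range z) ≠ ⊤ :=
  ne_top_of_le_ne_top (ENat.natCast_ne_top _) (rk_range_le z)

omit [IsAlgClosed k] in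
theorem m7_rk_ratios {ξ : ι → K} {Ω : Type*} [Field Ω] [Algebra k Ω] {y : ι → Ω}
    (hy : On k ξ y) {j : ι} (hj : y j ≠ 0) : rk k (ratios y) ≤ rk k (Set.range ξ) := by
  have h1 : rk k (ratios y) ≤ rk k (Set.range fun i => y i / y j) := by
    apply rk_le_of_mem
    rintro _ ⟨a, b, rfl⟩
    rw [← div_div_div_cancel_right₀ hj]
    exact div_mem (IntermediateField.subset_adjoin _ _ ⟨a, rfl⟩)
      (IntermediateField.subset_adjoin _ _ ⟨b, rfl⟩)
  refine h1.trans ((rk_hom_le (hy.chart hj).2).trans (rk_le_of_mem ?_))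
  rintro _ ⟨a, rfl⟩
  exact div_mem (IntermediateField.subset_adjoin _ _ ⟨a, rfl⟩)
    (IntermediateField.subset_adjoin _ _ ⟨j, rfl⟩)

omit [IsAlgClosed k] in
/-- a point chained to the generic point can be replaced by a second generic point -/
theorem m7_theta {ξ : ι → K} {i₀ : ι} (h₀ : ξ i₀ = 1)
    (hgen : IntermediateField.adjoin k (Set.range ξ) = ⊤) {Ω : Type u} [Field Ω] [IsAlgClosed Ω]
    [Algebra K Ω] [Algebra k Ω] [IsScalarTower k K Ω] {y : ι → Ω}
    (hy : Chain k ξ (fun i => algebraMap K Ω (ξ i)) y) {d : ℕ} (hd : (d : ℕ∞) ≤ rk K (ratios y)) :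
    ∃ (M : Type u) (_ : Field M) (_ : IsAlgClosed M) (_ : Algebra K M) (_ : Algebra k M)
      (_ : IsScalarTower k K M) (θ : K →ₐ[k] M),
      Chain k ξ (fun i => algebraMap K M (ξ i)) (fun i => θ (ξ i)) ∧
        (d : ℕ∞) ≤ rk K (Set.range fun i => θ (ξ i)) := by
  classical
  have hon : On k ξ fun i => algebraMap K Ω (ξ i) := on_self.map (IsScalarTower.toAlgHom k K Ω)
  have hne : (fun i => algebraMap K Ω (ξ i)) ≠ 0 := fun h => by
    have := congrFun h i₀
    simp [h₀] at this
  have hyon := hy.on hon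
  obtain ⟨j₀, hj₀⟩ := Function.ne_iff.1 (hy.ne_zero hne)
  replace hj₀ : y j₀ ≠ 0 := hj₀
  let L := IntermediateField.adjoin k (ratios y)
  obtain ⟨j, hj⟩ := ENat.ne_top_iff_exists.1
    (m7_rk_ne_top (k := L) fun i => algebraMap K Ω (ξ i))
  have hdj : (d : ℕ∞) ≤ j := by
    obtain ⟨n, hn⟩ := ENat.ne_top_iff_exists.1 (m7_rk_ne_top (k := k) ξ)
    have h1 := rk_tower (k := k) (K := K) (S := ratios y)
    have h2 := rk_tower (k := k) (K := L) (S := Set.range fun i => algebraMap K Ω (ξ i))
    have h3 : rk k (Set.univ : Set L) ≤ n := by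
      rw [← rk_image L.val, hn]
      refine (rk_le_of_mem ?_).trans (m7_rk_ratios hyon hj₀)
      rintro _ ⟨a, -, rfl⟩
      exact a.2
    have h4 : rk k (Set.range (algebraMap K Ω) ∪ ratios y) ≤
        rk k (Set.range (algebraMap L Ω) ∪ Set.range fun i => algebraMap K Ω (ξ i)) := by
      apply rk_le_of_mem
      rintro _ (⟨a, rfl⟩ | ha)
      · have : IntermediateField.adjoin k (Set.range ξ) ≤ (IntermediateField.adjoin k
            (Set.range (algebraMap L Ω) ∪ Set.range fun i => algebraMap K Ω (ξ i))).comap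
            (IsScalarTower.toAlgHom k K Ω) := by
          rw [IntermediateField.adjoin_le_iff]
          rintro _ ⟨i, rfl⟩
          exact IntermediateField.subset_adjoin _ _ (Or.inr ⟨i, rfl⟩)
        exact this (hgen ▸ IntermediateField.mem_top)
      · exact IntermediateField.subset_adjoin _ _
          (Or.inl ⟨⟨_, IntermediateField.subset_adjoin _ _ ha⟩, rfl⟩)
    rw [h1, h2, m7_rk_univ hgen, ← hn, ← hj] at h4
    have h5 : (n : ℕ∞) + d ≤ n + j :=
      ((add_le_add_right hd _).trans h4).trans (add_le_add_left h3 _)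
    exact (ENat.add_le_add_iff_left (ENat.natCast_ne_top n)).1 h5
  obtain ⟨w, hwm, hw⟩ := exists_indep (k := L) hj.le
  have hwr : rk L (Set.range w) = j := by rw [rk_range_indep hw]; simp
  have halg := alg_of_rk (k := L) (S := Set.range fun i => algebraMap K Ω (ξ i))
    (T := Set.range w) (by rw [hwr]; simp) (by
      rw [hwr, hj]
      exact rk_mono (Set.union_subset le_rfl (Set.range_subset_iff.2 hwm)))
  obtain ⟨M, _, _, _, t, ht⟩ := m7_ext Ω j
  let : Algebra K M := ((algebraMap Ω M).comp (algebraMap K Ω)).toAlgebra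
  let : Algebra k M := ((algebraMap Ω M).comp (algebraMap k Ω)).toAlgebra
  have : IsScalarTower K Ω M := IsScalarTower.of_algebraMap_eq fun _ => rfl
  have : IsScalarTower k Ω M := IsScalarTower.of_algebraMap_eq fun _ => rfl
  have : IsScalarTower k K M := IsScalarTower.of_algebraMap_eq fun c => by
    rw [IsScalarTower.algebraMap_apply k Ω M, IsScalarTower.algebraMap_apply K Ω M,
      ← IsScalarTower.algebraMap_apply k K Ω]
  have htL : AlgebraicIndependent L t := ht.restrictScalars (algebraMap L Ω).injective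
  have htK : AlgebraicIndependent K t := ht.restrictScalars (algebraMap K Ω).injective
  obtain ⟨P, hP⟩ := exists_plc_of_hom (Ω := M) (MvPolynomial.aeval (R := L) w).toRingHom
    (MvPolynomial.aeval (R := L) t).toRingHom (fun r hr => by
      have : r = 0 := hw (hr.trans (map_zero _).symm)
      rw [this, map_zero])
  have hL : ∀ a : L, P.To (a : Ω) (algebraMap Ω M a) := fun a => by
    have := hP (MvPolynomial.C a)
    simp only [AlgHom.toRingHom_eq_coe, RingHom.coe_coe, MvPolynomial.algHom_C] at this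
    exact this
  have hover : P.Over k := fun c => hL (algebraMap k L c)
  have hres : ResInd L P.V w := fun g hg =>
    (hP g).val_eq_one_iff.2 fun h0 => hg (htL (h0.trans (map_zero _).symm))
  have hV : ∀ a : K, algebraMap K Ω a ∈ P.V := by
    intro a
    let L' := IntermediateField.adjoin L (Set.range w)
    have h1 : IntermediateField.adjoin k (Set.range ξ) ≤
        (((algebraicClosure L' Ω).restrictScalars L).restrictScalars k).comap
          (IsScalarTower.toAlgHom k K Ω) := by
      rw [IntermediateField.adjoin_le_iff]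
      rintro _ ⟨i, rfl⟩
      exact mem_algebraicClosure_iff.2 (halg _ ⟨i, rfl⟩)
    have h2 : IsIntegral L' (algebraMap K Ω a) :=
      mem_algebraicClosure_iff'.1 (h1 (hgen ▸ IntermediateField.mem_top))
    refine mem_of_monic ((minpoly L' (algebraMap K Ω a)).map (algebraMap L' Ω))
      ((minpoly.monic h2).map _) (fun i => ?_) ?_
    · rw [Polynomial.coeff_map]
      exact hres.mem _ (Subtype.prop _)
    · rw [Polynomial.eval_map_algebraMap, minpoly.aeval]
  let θ : K →ₐ[k] M :=
    { P.ρ.comp ((algebraMap K Ω).codRestrict P.V hV) with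
      commutes' := fun c => by
        have h1 : P.To (algebraMap K Ω (algebraMap k K c)) (P.ρ ⟨_, hV _⟩) := ⟨hV _, rfl⟩
        have h2 := hover c
        rw [IsScalarTower.algebraMap_apply k K Ω] at h2
        exact h1.unique h2 }
  have hθ : ∀ a, P.To (algebraMap K Ω a) (θ a) := fun a => ⟨hV a, rfl⟩
  refine ⟨M, inferInstance, inferInstance, inferInstance, inferInstance, inferInstance, θ, ?_, ?_⟩
  · have hc1 := hy.map (IsScalarTower.toAlgHom k Ω M)
    have hj₁ : algebraMap Ω M (y j₀) ≠ 0 := (map_ne_zero _).2 hj₀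
    have hy1 : (fun i => IsScalarTower.toAlgHom k Ω M (y i)) ≠ 0 := fun h => hj₁ (congrFun h j₀)
    have hc2 := link_smul (hyon.map (IsScalarTower.toAlgHom k Ω M)) hy1 (inv_ne_zero hj₁)
    have hc3 : Chain k ξ (fun i => θ (ξ i))
        ((algebraMap Ω M (y j₀))⁻¹ • fun i => IsScalarTower.toAlgHom k Ω M (y i)) := by
      refine sp hover hon hy ⟨fun h => ?_, 1, fun i => ?_⟩ ⟨hc2.2.1, (y j₀)⁻¹, fun i => ?_⟩
      · have := congrFun h i₀
        simp [h₀] at this
      · rw [one_mul]
        exact hθ _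
      · have := hL ⟨y i / y j₀, IntermediateField.subset_adjoin _ _ ⟨i, j₀, rfl⟩⟩
        simpa [div_eq_inv_mul] using this
    exact Relation.ReflTransGen.trans (Relation.ReflTransGen.tail hc1 hc2) hc3.symm
  · refine hdj.trans ?_
    have h1 : rk K (Set.range t) = j := by rw [rk_range_indep htK]; simp
    rw [← h1]
    apply rk_mono
    rintro _ ⟨s, rfl⟩
    obtain ⟨i, hi⟩ := hwm s
    refine ⟨i, (hθ (ξ i)).unique ?_⟩
    have := hP (MvPolynomial.X s)
    simp only [AlgHom.toRingHom_eq_coe, RingHom.coe_coe, MvPolynomial.aeval_X] at this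
    rw [← hi] at this
    exact this

omit [IsAlgClosed k] in
theorem m7_func {ξ : ι → K} {z : ι → k} (hz : On k ξ z) {j : ι} (hj : z j ≠ 0) :
    ∃ f : K →ₗ[k] k, ∀ g : MvPolynomial ι k,
      f (MvPolynomial.aeval (fun i => ξ i / ξ j) g) = MvPolynomial.aeval (fun i => z i / z j) g := by
  let a := (MvPolynomial.aeval (R := k) fun i => ξ i / ξ j).toLinearMap
  let b := (MvPolynomial.aeval (R := k) fun i => z i / z j).toLinearMap
  have hle : LinearMap.ker a ≤ LinearMap.ker b := fun g hg => (hz.chart hj).2 g hg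
  obtain ⟨f, hf⟩ := LinearMap.exists_extend
    (((LinearMap.ker a).liftQ b hle).comp a.quotKerEquivRange.symm.toLinearMap)
  refine ⟨f, fun g => ?_⟩
  have := LinearMap.congr_fun hf ⟨a g, g, rfl⟩
  simp only [LinearMap.comp_apply, Submodule.subtype_apply, LinearEquiv.coe_coe] at this
  rw [LinearMap.quotKerEquivRange_symm_apply_image] at this
  exact this

/-- if two independent generic points are chained then all rational points are chained -/
theorem m7_mrcc {ξ : ι → K} (hgen : IntermediateField.adjoin k (Set.range ξ) = ⊤) {M : Type u}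
    [Field M] [IsAlgClosed M] [Algebra K M] [Algebra k M] [IsScalarTower k K M] (θ : K →ₐ[k] M)
    (hc : Chain k ξ (fun i => algebraMap K M (ξ i)) fun i => θ (ξ i))
    (hd : rk k (Set.range ξ) ≤ rk K (Set.range fun i => θ (ξ i))) : MRCC k ξ := by
  intro z z' hz0 hz hz0' hz'
  obtain ⟨j, hj⟩ := Function.ne_iff.1 hz0
  obtain ⟨j', hj'⟩ := Function.ne_iff.1 hz0'
  replace hj : z j ≠ 0 := hj
  replace hj' : z' j' ≠ 0 := hj'
  let x := IsScalarTower.toAlgHom k K M
  have hinj : Function.Injective (Algebra.TensorProduct.productMap x θ) := by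
    refine m7_inj x θ (by rw [m7_rk_univ hgen]; exact m7_rk_ne_top ξ) ?_
    refine le_trans ?_ (rk_mono (S := Set.range (algebraMap K M) ∪ Set.range fun i => θ (ξ i))
      (Set.union_subset_union le_rfl ?_))
    · rw [rk_tower (k := k) (K := K), m7_rk_univ hgen]
      exact add_le_add_right hd _
    · rintro _ ⟨i, rfl⟩
      exact ⟨_, rfl⟩
  obtain ⟨f, hf⟩ := m7_func hz hj
  obtain ⟨f', hf'⟩ := m7_func hz' hj'
  let a := Algebra.TensorProduct.map (MvPolynomial.aeval (R := k) fun i => ξ i / ξ j)
    (MvPolynomial.aeval (R := k) fun i => ξ i / ξ j')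
  let φ := Algebra.TensorProduct.productMap (MvPolynomial.aeval (R := k) fun i => z i / z j)
    (MvPolynomial.aeval (R := k) fun i => z' i / z' j')
  have hφ : ∀ r, φ r = TensorProduct.lid k k (TensorProduct.map f f' (a r)) := by
    intro r
    induction r using TensorProduct.induction_on with
    | zero => simp
    | tmul g g' => simp [φ, a, hf, hf']
    | add r r' h h' => simp only [map_add, h, h']
  obtain ⟨P, hP⟩ := exists_plc_of_hom (Ω := k)
    ((Algebra.TensorProduct.productMap x θ).comp a).toRingHom φ.toRingHom (fun r hr => by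
      have h1 : a r = 0 := hinj (hr.trans (map_zero _).symm)
      change φ r = 0
      rw [hφ, h1, map_zero, map_zero])
  have hover : P.Over k := fun c => by
    have := hP (algebraMap k _ c)
    simp only [AlgHom.toRingHom_eq_coe, RingHom.coe_coe, AlgHom.commutes] at this
    exact this
  have hl := link_smul hz hz0 (inv_ne_zero hj)
  have hl' := link_smul hz' hz0' (inv_ne_zero hj')
  have hc' : Chain k ξ ((z j)⁻¹ • z) ((z' j')⁻¹ • z') := by
    refine sp hover (on_self.map x) hc ⟨hl.2.1, (algebraMap K M (ξ j))⁻¹, fun i => ?_⟩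
      ⟨hl'.2.1, (θ (ξ j'))⁻¹, fun i => ?_⟩
    · have := hP (MvPolynomial.X i ⊗ₜ 1)
      simpa [a, φ, x, div_eq_inv_mul] using this
    · have := hP (1 ⊗ₜ MvPolynomial.X i)
      simpa [a, φ, x, div_eq_inv_mul] using this
  exact Relation.ReflTransGen.tail (Relation.ReflTransGen.head hl hc') hl'.symm

theorem m7 {ξ : ι → K} {i₀ : ι} (h₀ : ξ i₀ = 1)
    (hgen : IntermediateField.adjoin k (Set.range ξ) = ⊤) :
    MRCC k ξ ∨ ∃ (J : Type) (_ : Finite J) (Δ : J → K) (I I₀ : J), Δ I₀ ≠ 0 ∧
      Δ I / Δ I₀ ∉ (algebraMap k K).range ∧ Rigid k ξ Δ := by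
  classical
  have hex : ∃ d : ℕ, ∀ (Ω : Type u) [Field Ω] [IsAlgClosed Ω] [Algebra K Ω] [Algebra k Ω]
      [IsScalarTower k K Ω] (y : ι → Ω), Chain k ξ (fun i => algebraMap K Ω (ξ i)) y →
        rk K (ratios y) ≤ d := by
    refine ⟨Fintype.card (ι × ι), fun Ω _ _ _ _ _ y _ => ?_⟩
    refine (rk_mono ?_).trans (rk_range_le fun p : ι × ι => y p.1 / y p.2)
    rintro _ ⟨a, b, rfl⟩
    exact ⟨(a, b), rfl⟩
  have hmax := Nat.find_spec hex
  have hth : ∃ (M : Type u) (_ : Field M) (_ : IsAlgClosed M) (_ : Algebra K M) (_ : Algebra k M)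
      (_ : IsScalarTower k K M) (θ : K →ₐ[k] M),
      Chain k ξ (fun i => algebraMap K M (ξ i)) (fun i => θ (ξ i)) ∧
        (Nat.find hex : ℕ∞) ≤ rk K (Set.range fun i => θ (ξ i)) := by
    rcases hd : Nat.find hex with _ | d
    · exact m7_theta h₀ hgen (Ω := AlgebraicClosure K) Relation.ReflTransGen.refl (by simp)
    · have h1 := Nat.find_min hex (m := d) (by omega)
      by_contra hne
      apply h1
      intro Ω _ _ _ _ _ y hy
      by_contra h2
      apply hne
      refine m7_theta h₀ hgen hy ?_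
      push_cast
      exact Order.add_one_le_of_lt (not_le.1 h2)
  obtain ⟨M, _, _, _, _, _, θ, hc, hd⟩ := hth
  rcases lt_or_ge (Nat.find hex : ℕ∞) (rk k (Set.range ξ)) with hn | hn
  · exact Or.inr (cayley h₀ hmax θ hc hd hn)
  · exact Or.inl (m7_mrcc hgen θ hc (hn.trans hd))

end Pool.Agent.Lib.MP_7fcda1_ag
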