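import Pool.Agent.Lib.MP_7fcda1_ag.S1a
import Pool.Agent.Lib.MP_7fcda1_ag.PB

open scoped IntermediateField Polynomial WithZero
open Module

noncomputable section

universe u

namespace Pool.Agent.Lib.MP_7fcda1_ag


variable {k K : Type u} [Field k] [IsAlgClosed k] [Field K] [Algebra k K] {p : ℕ} [Fact p.Prime]
  [CharP k p] [CharP K p] {n : ℕ} {x : Fin (n + 2) → K}

theorem MGFR.split (hx : Model k x) (h : MGFR k p x) : Split k p x := by
  obtain ⟨e, he, φ, h1, h2, h3⟩ := h 1 0 one_ne_zero fun V _ => bd_zero_iff.2 V.one_mem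
  obtain ⟨e, rfl⟩ : ∃ e', e = e' + 1 := ⟨e - 1, by omega⟩
  refine ⟨φ.comp (iterateFrobenius K p e).toAddMonoidHom, fun a s => ?_, by simpa using h2,
    fun V hV s hs => h3 V hV _ (bd_zero_iff.2 ?_)⟩
  · change φ (iterateFrobenius K p e _) = a * φ (iterateFrobenius K p e s)
    rw [map_mul, iterateFrobenius_def, ← pow_mul, ← pow_succ', h1]
  · rw [one_mul]
    exact pow_mem hs _

omit [IsAlgClosed k] in
/-- the space of sections -/
def S1b_sec (hx : Model k x) (m : ℕ) : Submodule k K where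
  carrier := {f | Sec k x m f}
  add_mem' ha hb V hV := (ha V hV).add hx (hb V hV)
  zero_mem' V _ := ⟨0, by rw [zero_div]; exact V.zero_mem⟩
  smul_mem' c f hf V hV := by
    obtain ⟨a, ha⟩ := hf V hV
    exact ⟨a, by rw [Algebra.smul_def, mul_div_assoc]; exact mul_mem (hV.2.1 c) ha⟩

omit [CharP k p] [CharP K p] in
theorem S1b_root (e : ℕ) (c : k) : ∃ c' : k, c' ^ p ^ e = c :=
  IsAlgClosed.exists_pow_nat_eq c (pow_pos (Fact.out : p.Prime).pos e)

/-- uniform splitting of the sections of a fixed degree -/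
theorem S1b_kill (hx : Model k x) (h : MGFR k p x) (b : ℕ) : ∃ e₀ : ℕ, ∀ f : K, f ≠ 0 →
    Sec k x b f → ∃ χ : K →+ K, PLin (p ^ e₀) χ ∧ χ f ≠ 0 ∧
      ∀ V, IsPD k x V → ∀ s, Bd x V b s → χ s ∈ V := by
  obtain ⟨σ, s1, s2, s3⟩ := h.split hx
  have hfin : FiniteDimensional k (S1b_sec hx b) := by
    have := finite_sec p hx b
    rwa [show Submodule.span k {f | Sec k x b f} = S1b_sec hx b from
      Submodule.span_eq (S1b_sec hx b)] at this
  let I : ℕ → Submodule k (S1b_sec hx b) := fun ε =>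
    { carrier := {f | ∀ χ : K →+ K, PLin (p ^ ε) χ →
        (∀ V, IsPD k x V → ∀ s, Bd x V b s → χ s ∈ V) → χ f = 0}
      add_mem' := fun ha hb χ h1 h2 => by
        rw [Submodule.coe_add, map_add, ha χ h1 h2, hb χ h1 h2, add_zero]
      zero_mem' := fun χ _ _ => map_zero χ
      smul_mem' := fun c f hf χ h1 h2 => by
        obtain ⟨c', rfl⟩ := S1b_root (p := p) ε c
        rw [Submodule.coe_smul, Algebra.smul_def, map_pow, h1, hf χ h1 h2, mul_zero] }
  have anti : Antitone I := antitone_nat_of_succ_le fun ε f hf χ h1 h2 => by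
    have h3 := hf (σ.comp χ) (fun a s => by
      rw [AddMonoidHom.comp_apply, AddMonoidHom.comp_apply, pow_succ', pow_mul, h1, s1])
      fun V hV s hs => s3 V hV _ (h2 V hV s hs)
    obtain ⟨c, hc⟩ := Sec.const hx (f := χ f) fun V hV => bd_zero_iff.2 (h2 V hV _ (f.2 V hV))
    obtain ⟨c', rfl⟩ := S1b_root (p := p) 1 c
    rw [AddMonoidHom.comp_apply, ← hc, map_pow, pow_one, ← mul_one (_ ^ p), s1, s2, mul_one] at h3
    rw [← hc, map_pow, h3, zero_pow (pow_ne_zero _ (Fact.out : p.Prime).ne_zero)]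
  obtain ⟨e₀, he₀⟩ := IsArtinian.monotone_stabilizes (R := k)
    ⟨fun ε => OrderDual.toDual (I ε), fun a b hab => anti hab⟩
  refine ⟨e₀, fun f f0 hf => ?_⟩
  by_contra hcon
  push Not at hcon
  have h1 : (⟨f, hf⟩ : S1b_sec hx b) ∈ I e₀ := fun χ h1 h2 => by
    by_contra h3
    obtain ⟨V, hV, s, hs, hs'⟩ := hcon χ h1 h3
    exact hs' (h2 V hV s hs)
  obtain ⟨e, -, φ, p1, p2, p3⟩ := h f b f0 hf
  have h2 : (⟨f, hf⟩ : S1b_sec hx b) ∈ I e := by
    refine anti (le_max_right e₀ e) ?_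
    have : I e₀ = I (max e₀ e) := he₀ _ (le_max_left _ _)
    rwa [← this]
  have h3 := h2 (φ.comp (AddMonoidHom.mulRight f⁻¹)) (fun a s => by
    simp only [AddMonoidHom.comp_apply, AddMonoidHom.coe_mulRight]
    rw [mul_assoc, p1]) fun V hV s hs => p3 V hV _ (by
      rwa [AddMonoidHom.coe_mulRight, mul_left_comm, mul_inv_cancel₀ f0, mul_one])
  simp only [AddMonoidHom.comp_apply, AddMonoidHom.coe_mulRight, mul_inv_cancel₀ f0, p2] at h3
  exact one_ne_zero h3

/-- dual basis for a nonzero linear form -/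
theorem S1b_dual {E F ι : Type*} [Field E] [Field F] [Algebra E F] [Fintype ι] (b : Basis ι E F)
    {θ : F →ₗ[E] E} (hθ : θ ≠ 0) :
    ∃ b' : ι → F, ∀ s, s = ∑ i, algebraMap E F (θ (s * b i)) * b' i := by
  classical
  have := Module.Finite.of_basis b
  let B : LinearMap.BilinForm E F := (LinearMap.mul E F).compr₂ θ
  have hs : ∀ s, (∀ t, B s t = 0) → s = 0 := fun s hs => by
    by_contra h0
    apply hθ
    ext t
    have := hs (s⁻¹ * t)
    simpa [B, h0] using this
  have hB : B.Nondegenerate := ⟨hs, fun s h => hs s fun t => by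
    have := h t
    simpa [B, mul_comm] using this⟩
  refine ⟨B.dualBasis hB b, fun s => ?_⟩
  conv_lhs => rw [← (B.dualBasis hB b).sum_repr s]
  simp [B, Algebra.smul_def]

omit [IsAlgClosed k] in
theorem S1b_chart {V V' : ValuationSubring K} (h : SameBase k x V V') {a : Fin (n + 2)}
    (ha : ∀ b, x b / x a ∈ V) (b : Fin (n + 2)) : x b / x a ∈ V' :=
  (h _ (div_mem (IntermediateField.subset_adjoin _ _ ⟨b, rfl⟩)
    (IntermediateField.subset_adjoin _ _ ⟨a, rfl⟩))).1 (ha b)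

/-- reduction of the degree -/
theorem S1b_red (hx : Model k x) : ∃ b₀ : ℕ, ∀ (e : ℕ) (f : K), f ≠ 0 →
    ∃ ψ : K →+ K, PLin (p ^ e) ψ ∧ ψ f ≠ 0 ∧
      ∀ V, IsPD k x V → ∀ s, Bd x V (2 * p ^ e) s → Bd x V b₀ (ψ s) := by
  have := hx.fin
  obtain ⟨b, m₀, hb⟩ := exists_basis_sec hx
  obtain ⟨θ, θ0, hθ⟩ := exists_theta p hx
  obtain ⟨b', hb'⟩ := S1b_dual b θ0
  obtain ⟨c, m₁, c0, hc⟩ := exists_clear hx b'
  set u₀ := MvPolynomial.aeval (fun i : Fin (n + 1) => x i.succ) c with hu₀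
  have u0 : u₀ ≠ 0 := fun h => c0 (hx.indep (h.trans (map_zero _).symm))
  refine ⟨2 + 2 * m₀ + m₁, fun e f f0 => ?_⟩
  have q0 : 0 < p ^ e := pow_pos (Fact.out : p.Prime).pos e
  obtain ⟨j, hj⟩ : ∃ j, θ (f * b j) ≠ 0 := by
    by_contra hcon
    push Not at hcon
    apply f0
    rw [hb' f]
    simp [hcon]
  obtain ⟨Φ, Φ1, Φ2, Φ3⟩ := exists_phi p hx e hj
  obtain ⟨ψ, ψ1, ψ2⟩ := transpose p e θ0 (Φ.comp θ.toAddMonoidHom) fun c s => by
    simp only [AddMonoidHom.comp_apply, LinearMap.toAddMonoidHom_coe]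
    rw [← map_pow, ← Algebra.smul_def, map_smul, smul_eq_mul, Φ1]
  simp only [AddMonoidHom.comp_apply, LinearMap.toAddMonoidHom_coe] at ψ2
  refine ⟨(AddMonoidHom.mulLeft u₀).comp (ψ.comp (AddMonoidHom.mulRight (b j))), fun a s => ?_,
    ?_, fun V hV s hs => ?_⟩ <;>
    simp only [AddMonoidHom.comp_apply, AddMonoidHom.coe_mulRight, AddMonoidHom.coe_mulLeft]
  · rw [mul_assoc, ψ1, mul_left_comm]
  · refine mul_ne_zero u0 fun h => Φ2 ?_
    have := ψ2 (f * b j) 1
    rwa [h, zero_mul, map_zero, one_pow, mul_one, eq_comm] at this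
  obtain ⟨a, ha, -⟩ := hV.2.2
  have xa := hx.ne_zero a
  have key : ∀ s, (∀ V', IsPD k x V' → SameBase k x V V' → Bd x V' (2 * p ^ e) s) →
      Bd x V (2 + 2 * m₀ + m₁) (u₀ * ψ (s * b j)) := by
    intro s hs
    rw [hb' (ψ _), Finset.mul_sum]
    refine Bd.sum hx fun i _ => ?_
    rw [mul_left_comm]
    refine Bd.mul hx ⟨a, ?_⟩ (hc i V hV)
    let y : K0 k x := ⟨x a, IntermediateField.subset_adjoin _ _ ⟨a, rfl⟩⟩
    have e1 : s * b j * b i ^ p ^ e = (y ^ (2 + 2 * m₀)) ^ p ^ e •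
        (s * b j * b i ^ p ^ e / x a ^ (p ^ e * (2 + 2 * m₀))) := by
      rw [Algebra.smul_def, map_pow, map_pow, ← pow_mul, mul_comm _ (p ^ e)]
      exact (mul_div_cancel₀ _ (pow_ne_zero _ xa)).symm
    rw [ψ2, e1, map_smul, smul_eq_mul, Φ1, map_mul, map_pow]
    change x a ^ _ * _ / _ ∈ V
    rw [mul_div_cancel_left₀ _ (pow_ne_zero _ xa)]
    refine Φ3 V hV _ (hθ V hV _ fun V' hV' hb' => ?_)
    refine ((((hs V' hV' hb').mul hx (hb j V' hV')).mul hx ((hb i V' hV').pow _)).mono hx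
      ?_).div_mem hx (S1b_chart hb' ha)
    nlinarith
  obtain ⟨c', c1, c2⟩ := hV.apx hx (s / x a ^ (2 * p ^ e))
  have c0' : c' ≠ 0 := by rintro rfl; simp at c1
  obtain ⟨a', ha'⟩ := key (c' ^ p ^ e * s) fun V' hV' hb' => ⟨a, by
    by_cases hVV : V' = V
    · rw [hVV, mul_div_assoc]
      exact mul_mem (pow_mem ((V.valuation_le_one_iff _).1 c1.le) _) (hs.div_mem hx ha)
    · obtain ⟨d1, d2⟩ := c2 V' hV' hb' hVV
      obtain ⟨r, hr⟩ : ∃ r, p ^ e = r + 1 := ⟨p ^ e - 1, by omega⟩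
      rw [mul_div_assoc]
      nth_rewrite 1 [hr]
      rw [pow_succ, mul_assoc]
      exact mul_mem (pow_mem ((V'.valuation_le_one_iff _).1 d1.le) _) d2⟩
  refine ⟨a', ?_⟩
  rw [mul_assoc, ψ1] at ha'
  have := mul_mem ((V.valuation_le_one_iff c'⁻¹).1 (by rw [map_inv₀, c1, inv_one])) ha'
  convert this using 1
  field_simp

/-- uniform splitting of sections -/
theorem MGFR.unif (hx : Model k x) (h : MGFR k p x) : ∃ e₀ : ℕ, ∀ (e : ℕ) (f : K), f ≠ 0 →
    Sec k x (2 * p ^ e) f → ∃ φ : K →+ K, PLin (p ^ (e + e₀)) φ ∧ φ f ≠ 0 ∧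
      ∀ V, IsPD k x V → ∀ s, Bd x V (2 * p ^ e) s → φ s ∈ V := by
  obtain ⟨b₀, hb⟩ := S1b_red (p := p) hx
  obtain ⟨e₀, he⟩ := S1b_kill hx h b₀
  refine ⟨e₀, fun e f f0 hf => ?_⟩
  obtain ⟨ψ, ψ1, ψ2, ψ3⟩ := hb e f f0
  obtain ⟨χ, χ1, χ2, χ3⟩ := he _ ψ2 fun V hV => ψ3 V hV _ (hf V hV)
  refine ⟨χ.comp ψ, fun a s => ?_, χ2, fun V hV s hs => χ3 V hV _ (ψ3 V hV s hs)⟩
  rw [AddMonoidHom.comp_apply, AddMonoidHom.comp_apply, add_comm, pow_add, pow_mul, ψ1, χ1]

section cover

variable {F : Type u} [Field F] [Algebra K F] [Algebra k F] [IsScalarTower k K F] {T : F →ₗ[K] K}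

omit [IsAlgClosed k] [Algebra k K] [IsScalarTower k K F] in
theorem S1b_bd (hT : IsCover k x T) {W : ValuationSubring F}
    (hW : IsPD k (fun a => algebraMap K F (x a)) W) {m : ℕ} {s : F}
    (hs : Bd (fun a => algebraMap K F (x a)) W m s) : Bd x (W.comap (algebraMap K F)) m (T s) := by
  obtain ⟨a, ha⟩ := hs
  refine ⟨a, ?_⟩
  have := (hT.2.2 W hW _).1 ha 1 W.one_mem
  rw [mul_one, div_eq_inv_mul, ← map_pow, ← map_inv₀, ← Algebra.smul_def, map_smul, smul_eq_mul,
    ← div_eq_inv_mul] at this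
  exact this

omit [CharP K p] in
/-- lifting of `q⁻¹`-linear maps to a cover -/
theorem S1b_lift (hx : Model k x) (hT : IsCover k x T) {e m m' : ℕ} {φ : K →+ K}
    (h1 : PLin (p ^ e) φ) (h2 : ∀ V, IsPD k x V → ∀ s, Bd x V (m + m') s → φ s ∈ V) {b : F}
    (hb : Sec k (fun a => algebraMap K F (x a)) m' b) :
    ∃ ψ : F →+ F, PLin (p ^ e) ψ ∧ (∀ s, T (ψ s) = φ (T (s * b))) ∧
      ∀ W, IsPD k (fun a => algebraMap K F (x a)) W →
        ∀ s, Bd (fun a => algebraMap K F (x a)) W m s → ψ s ∈ W := by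
  have := hT.1
  have : CharP F p := charP_of_injective_algebraMap (algebraMap k F).injective p
  have T0 : T ≠ 0 := fun h => by simpa [h] using hT.2.1
  obtain ⟨ψ, ψ1, ψ2⟩ := transpose p e T0
    (φ.comp (T.toAddMonoidHom.comp (AddMonoidHom.mulRight b))) fun c s => by
      simp only [AddMonoidHom.comp_apply, LinearMap.toAddMonoidHom_coe, AddMonoidHom.coe_mulRight]
      rw [← map_pow, mul_assoc, ← Algebra.smul_def, map_smul, smul_eq_mul, h1]
  simp only [AddMonoidHom.comp_apply, LinearMap.toAddMonoidHom_coe,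
    AddMonoidHom.coe_mulRight] at ψ2
  refine ⟨ψ, ψ1, fun s => by simpa using ψ2 s 1, fun W hW s hs => (hT.2.2 W hW _).2 fun c hc => ?_⟩
  rw [ψ2]
  refine h2 _ (IsPD.comap hx hW) _ (S1b_bd hT hW ?_)
  have hF := hx.ext (F' := F)
  exact (hs.mul hF (bd_zero_iff.2 (pow_mem hc _))).mul hF (hb W hW)

end cover

theorem MGFR.bound (hx : Model k x) (h : MGFR k p x) : ∃ B : ℕ, ∀ (F : Type u) [Field F]
    [Algebra K F] [Algebra k F] [IsScalarTower k K F] (T : F →ₗ[K] K), IsCover k x T →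
      finrank K F ≤ B := by
  obtain ⟨e₀, he₀⟩ := h.unif hx
  have p1 := (Fact.out : p.Prime).one_lt
  refine ⟨p ^ ((n + 1 + e₀) * (n + 1)), fun F _ _ _ _ T hT => ?_⟩
  have := hT.1
  have : CharP F p := charP_of_injective_algebraMap (algebraMap k F).injective p
  have hF := hx.ext (F' := F)
  set y : Fin (n + 2) → F := fun a => algebraMap K F (x a) with hy
  obtain ⟨b, m, hb⟩ := exists_basis_sec hF
  have hspan : ⊤ ≤ Submodule.span K (Set.range b) := fun s _ => by
    rw [← b.sum_repr s]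
    refine Submodule.sum_mem _ fun i _ => ?_
    obtain ⟨c, hc⟩ : (b.repr s i : F) ∈ (IsScalarTower.toAlgHom k K F).fieldRange :=
      IntermediateField.adjoin_le_iff.2 (by rintro _ ⟨a, rfl⟩; exact ⟨x a, rfl⟩) (b.repr s i).2
    have : b.repr s i • b i = c • b i := by
      rw [Algebra.smul_def, Algebra.smul_def]
      exact congrArg (· * b i) hc.symm
    rw [this]
    exact Submodule.smul_mem _ _ (Submodule.subset_span ⟨i, rfl⟩)
  refine (finrank_le_of_span_eq_top (top_le_iff.1 hspan)).trans ?_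
  have hm : m ≤ p ^ m := (Nat.lt_pow_self p1).le
  have hn : n + 2 ≤ p ^ (n + 1) := Nat.lt_pow_self p1
  have hme : (n + 1) * p ^ m + m ≤ p ^ (m + (n + 1)) := by
    rw [pow_add]; nlinarith
  set e := m + (n + 1) with he
  have hbe : ∀ i, Sec k y (p ^ e) (b i) := fun i W hW => (hb i W hW).mono hF (by omega)
  -- sections are separated by maps with constant values
  have sep : ∀ s : F, s ≠ 0 → Sec k y (p ^ e) s → ∃ ψ : F →+ F, PLin (p ^ (e + e₀)) ψ ∧ ψ s ≠ 0 ∧
      ∀ s', Sec k y (p ^ e) s' → ψ s' ∈ (algebraMap k F).range := by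
    intro s s0 hs
    obtain ⟨i, hi⟩ : ∃ i, T (s * b i) ≠ 0 := by
      by_contra hcon
      push Not at hcon
      have : T ∘ₗ LinearMap.mulLeft K s = 0 :=
        LinearMap.ext_on_range (top_le_iff.1 hspan) fun i => hcon i
      have := LinearMap.congr_fun this s⁻¹
      simp [s0, hT.2.1] at this
    obtain ⟨φ, φ1, φ2, φ3⟩ := he₀ e _ hi fun V hV => by
      obtain ⟨W, hW, rfl⟩ := hV.extend F
      rw [two_mul]
      exact S1b_bd hT hW ((hs W hW).mul hF (hbe i W hW))
    rw [two_mul] at φ3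
    obtain ⟨ψ, ψ1, ψ2, ψ3⟩ := S1b_lift hx hT φ1 φ3 (hbe i)
    refine ⟨ψ, ψ1, fun h0 => φ2 (by rw [← ψ2, h0, map_zero]), fun s' hs' =>
      Sec.const hF fun W hW => bd_zero_iff.2 (ψ3 W hW _ (hs' W hW))⟩
  -- independence over the field of powers
  have ind : ∀ {ι : Type} [Fintype ι] (s : ι → F), LinearIndependent k s →
      (∀ j, Sec k y (p ^ e) (s j)) →
      LinearIndependent (iterateFrobenius F p (e + e₀)).fieldRange s := by
    intro ι _ s h1 h2
    rw [Fintype.linearIndependent_iff]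
    intro g hg j₀
    by_contra hj
    choose c hc using fun j => (g j).2
    have c0 : c j₀ ≠ 0 := fun h0 => hj (Subtype.ext (by rw [← hc, h0, map_zero]; rfl))
    obtain ⟨μ, hμ⟩ : ∃ μ : Module.Dual k F, μ (c j₀) ≠ 0 := by
      by_contra hcon
      push Not at hcon
      exact c0 ((Module.forall_dual_apply_eq_zero_iff k _).1 hcon)
    have q0 : p ^ (e + e₀) ≠ 0 := pow_ne_zero _ (by omega)
    obtain ⟨ψ, ψ1, ψ2, ψ3⟩ := sep (∑ j, μ (c j) ^ p ^ (e + e₀) • s j) (fun h0 => hμ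
      (pow_eq_zero_iff q0 |>.1 (Fintype.linearIndependent_iff.1 h1 _ h0 j₀)))
      ((S1b_sec hF _).sum_mem fun j _ => (S1b_sec hF _).smul_mem _ (h2 j))
    choose l hl using fun j => ψ3 _ (h2 j)
    have e1 : ∑ j, l j • c j = 0 := by
      have := congrArg ψ hg
      rw [map_zero, map_sum] at this
      rw [← this]
      refine Finset.sum_congr rfl fun j _ => ?_
      change _ = ψ ((g j : F) * s j)
      rw [← hc, iterateFrobenius_def, ψ1, ← hl, Algebra.smul_def, mul_comm]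
    apply ψ2
    have e2 := congrArg (fun t => algebraMap k F (μ t)) e1
    simp only [map_sum, map_smul, map_zero, smul_eq_mul, map_mul] at e2
    rw [map_sum, ← e2]
    refine Finset.sum_congr rfl fun j _ => ?_
    rw [Algebra.smul_def, map_pow, ψ1, hl, mul_comm]
  let mon : (Fin (n + 1) → Fin (p ^ m)) → MvPolynomial (Fin (n + 1)) k := fun α =>
    MvPolynomial.monomial (Finsupp.equivFunOnFinite.symm fun i => (α i : ℕ)) 1
  let z : (Fin (n + 1) → Fin (p ^ m)) → K0 k y := fun α =>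
    ⟨MvPolynomial.aeval (fun i : Fin (n + 1) => y i.succ) (mon α),
      hF.mem_K0.2 ⟨mon α, 1, one_ne_zero, by simp⟩⟩
  have zi : LinearIndependent k z := by
    refine LinearIndependent.of_comp (K0 k y).val.toLinearMap ?_
    have h1 : LinearIndependent k mon :=
      (MvPolynomial.basisMonomials (Fin (n + 1)) k).linearIndependent.comp
        (fun α : Fin (n + 1) → Fin (p ^ m) => Finsupp.equivFunOnFinite.symm fun i => (α i : ℕ))
        fun α β hαβ => funext fun i =>
          Fin.ext (congrFun (Finsupp.equivFunOnFinite.symm.injective hαβ) i)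
    exact h1.map' (MvPolynomial.aeval fun i : Fin (n + 1) => y i.succ).toLinearMap
      (LinearMap.ker_eq_bot.2 hF.indep)
  have h1 := (ind _ (linearIndependent_smul zi b.linearIndependent) fun j W hW => by
    refine ((bd_aeval hF hW.2.1 (mon j.1)).mul hF (hb j.2 W hW)).mono hF (le_trans ?_ hme)
    refine Nat.add_le_add_right ((MvPolynomial.totalDegree_monomial_le _ _).trans ?_) _
    rw [Finsupp.sum_fintype _ _ fun _ => rfl]
    refine (Finset.sum_le_card_nsmul _ _ (p ^ m) fun i _ => (j.1 i).2.le).trans ?_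
    simp)
  have h3 := hF.pdeg p (e + e₀)
  have : FiniteDimensional (iterateFrobenius F p (e + e₀)).fieldRange F :=
    Module.finite_of_finrank_pos (by rw [h3]; positivity)
  have h2 := h1.fintype_card_le_finrank
  rw [h3, Fintype.card_prod, Fintype.card_fun, Fintype.card_fin, Fintype.card_fin, ← pow_mul, he,
    add_assoc, add_mul, pow_add] at h2
  exact Nat.le_of_mul_le_mul_left h2 (by positivity)

/-- the maximal split cover -/
theorem s1 (hx : Model k x) (h : MGFR k p x) :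
    ∃ (F : Type u) (_ : Field F) (_ : Algebra K F) (_ : Algebra k F) (_ : IsScalarTower k K F),
      Model k (fun a => algebraMap K F (x a)) ∧ Split k p (fun a => algebraMap K F (x a)) ∧
        Maximal k fun a => algebraMap K F (x a) := by
  obtain ⟨B, hB⟩ := h.bound hx
  obtain ⟨σ, s1, s2, s3⟩ := h.split hx
  obtain ⟨d, ⟨F, _, _, _, _, T, hT, rfl⟩, hmax⟩ := BddAbove.exists_isGreatest_of_nonempty
    (S := {d : ℕ | ∃ (F : Type u) (_ : Field F) (_ : Algebra K F) (_ : Algebra k F)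
      (_ : IsScalarTower k K F) (T : F →ₗ[K] K), IsCover k x T ∧ finrank K F = d})
    ⟨B, by rintro _ ⟨F, _, _, _, _, T, hT, rfl⟩; exact hB F T hT⟩
    ⟨_, K, inferInstance, inferInstance, inferInstance, inferInstance, LinearMap.id,
      ⟨inferInstance, rfl, fun V _ a => ⟨fun ha b hb => mul_mem ha hb,
        fun h => by simpa using h 1 V.one_mem⟩⟩, rfl⟩
  have := hT.1
  have hF := hx.ext (F' := F)
  refine ⟨F, inferInstance, inferInstance, inferInstance, inferInstance, hF, ?_, ?_⟩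
  · obtain ⟨ψ, ψ1, ψ2, ψ3⟩ := S1b_lift (p := p) (e := 1) (m := 0) (m' := 0) (b := 1) hx hT
      (by rwa [pow_one]) (fun V hV s hs => s3 V hV s (bd_zero_iff.1 hs))
      fun W _ => bd_zero_iff.2 W.one_mem
    rw [pow_one] at ψ1
    refine ⟨ψ, ψ1, ?_, fun W hW s hs => ψ3 W hW s (bd_zero_iff.2 hs)⟩
    obtain ⟨c, hc⟩ := Sec.const hF (f := ψ 1) fun W hW =>
      bd_zero_iff.2 (ψ3 W hW 1 (bd_zero_iff.2 W.one_mem))
    have e := ψ2 1
    rw [mul_one, hT.2.1, s2, ← hc, Algebra.algebraMap_eq_smul_one, LinearMap.map_smul_of_tower,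
      hT.2.1, ← Algebra.algebraMap_eq_smul_one] at e
    rw [← hc, IsScalarTower.algebraMap_apply k K F, e, map_one]
  · intro F' _ _ _ _ T' hT'
    let _ : Algebra K F' := ((algebraMap F F').comp (algebraMap K F)).toAlgebra
    have : IsScalarTower K F F' := IsScalarTower.of_algebraMap_eq fun _ => rfl
    have : IsScalarTower k K F' := IsScalarTower.of_algebraMap_eq fun c => by
      rw [IsScalarTower.algebraMap_apply K F F', ← IsScalarTower.algebraMap_apply k K F,
        ← IsScalarTower.algebraMap_apply k F F']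
    have := hT'.1
    have h1 := hmax ⟨F', inferInstance, inferInstance, inferInstance, inferInstance,
      T ∘ₗ T'.restrictScalars K, ⟨Module.Finite.trans F F', by simp [hT.2.1, hT'.2.1],
        fun W hW a => ?_⟩, rfl⟩
    · rw [← finrank_mul_finrank K F F'] at h1
      have p1 := finrank_pos (R := K) (M := F)
      have p2 := finrank_pos (R := F) (M := F')
      nlinarith
    have hW' := IsPD.comap hF hW
    refine ⟨fun ha b hb => ?_, fun hh => (hT'.2.2 W hW a).2 fun b hb =>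
      (hT.2.2 _ hW' (T' (a * b))).2 fun c hc => ?_⟩
    · have := (hT.2.2 _ hW' (T' (a * b))).1 ((hT'.2.2 W hW a).1 ha b hb) 1 (one_mem _)
      rwa [mul_one] at this
    · have := hh (b * algebraMap F F' c) (mul_mem hb hc)
      rwa [← mul_assoc, mul_comm _ (algebraMap F F' c), ← Algebra.smul_def, LinearMap.comp_apply,
        LinearMap.restrictScalars_apply, map_smul, smul_eq_mul, mul_comm] at this

end Pool.Agent.Lib.MP_7fcda1_ag
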