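import Pool.Agent.Lib.MP_7fcda1_ag.M7b
import Pool.Agent.Lib.MP_7fcda1_ag.BB3
import Pool.Agent.Lib.MP_7fcda1_ag.Def3
import Pool.Agent.Lib.MP_7fcda1_ag.Comp
import Pool.Agent.Lib.MP_7fcda1_ag.Key3
import Pool.Agent.Lib.MP_7fcda1_ag.S1b
import Pool.Agent.Lib.MP_7fcda1_ag.Noe
import Pool.Agent.Lib.MP_7fcda1_ag.Br1
import Pool.Agent.Lib.MP_7fcda1_ag.Br2

open scoped IntermediateField Polynomial WithZero
open Module

noncomputable section

universe u

namespace Pool.Agent.Lib.MP_7fcda1_ag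


open AlgebraicGeometry CategoryTheory

theorem main {k : Type u} [Field k] [IsAlgClosed k] (p : ℕ) [Fact p.Prime] [CharP k p]
    {X : Scheme.{u}} [IsIntegral X] [IsLocallyNoetherian X] (s : X ⟶ Spec (.of k))
    (hp : IsProjective s) (hn : ∀ x : X, IsIntegrallyClosed (X.presheaf.stalk x))
    (hG : IsGFR X p) : IsRCC s := by
  letI := algK s
  obtain ⟨N, ξ, U, i₀, hc, h₀, hgen⟩ := exists_coord hp
  refine bridge_rcc s hc ?_
  rcases m7 h₀ hgen with h | ⟨J, _, Δ, I, I₀, hI₀, hnot, hR⟩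
  · exact h
  exfalso
  obtain ⟨n, x, l, hl, hx, h₁, h₂⟩ := noether h₀ hgen hnot
  haveI : CharP X.functionField p :=
    charP_of_injective_algebraMap (algebraMap k X.functionField).injective p
  have hm := bridge_gfr hc hn hG hl hx h₁ h₂
  obtain ⟨F, _, _, _, _, hF, hs, hmax⟩ := s1 hx hm
  haveI : CharP F p := charP_of_injective_algebraMap (algebraMap k F).injective p
  have hnot' : algebraMap X.functionField F (Δ I / Δ I₀) ∉ (algebraMap k F).range := by
    rintro ⟨c, hc⟩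
    refine hnot ⟨c, (algebraMap X.functionField F).injective ?_⟩
    rw [← hc, ← IsScalarTower.algebraMap_apply]
  obtain ⟨e, g, hg, hg'⟩ := exists_root p hF hnot'
  obtain ⟨D, hD⟩ : ∃ D : Derivation k F F, D g ≠ 0 := by
    by_contra hcon
    push Not at hcon
    obtain ⟨b, hb⟩ := pow_of_const p hF hcon
    exact hg' b hb
  obtain ⟨Φ, hΦ, -⟩ := exists_frame p hF (Or.inr rfl)
  obtain ⟨κ, L, _, _, _, _, j, H, hC, hP⟩ := key hF hs hmax hΦ
  obtain ⟨Ω, M, _, _, _, _, _, j', H', b, hC', hP', hb⟩ := comp hF hC hP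
  obtain ⟨R, _, _, _, _, x₀, S, hS, i, hi⟩ := deform hF hΦ hC' hP' hb hD e
  obtain ⟨χ, hχ⟩ := curve hi
  have hξ : ξ ≠ 0 := fun h => by simpa [h] using h₀
  have := bb hξ hR ((hS.map χ).comp (K := X.functionField)) I hI₀ i
  apply hχ
  simpa [← hg] using this

end Pool.Agent.Lib.MP_7fcda1_ag
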