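import Pool.Agent.Lib.MP_7fcda1_ag.Pdv2
import Pool.Agent.Lib.MP_7fcda1_ag.CT2

open scoped IntermediateField Polynomial WithZero
open Module

set_option linter.unusedSectionVars false

noncomputable section

universe u

namespace Pool.Agent.Lib.MP_7fcda1_ag


variable {k F 𝕂 : Type u} [Field k] [IsAlgClosed k] [Field F] [Field 𝕂] [Algebra k F] [Algebra k 𝕂]
  [Algebra F 𝕂] [IsScalarTower k F 𝕂] {n m : ℕ} {x : Fin (n + 2) → F} {z : MZ n m → 𝕂}

omit [IsAlgClosed k] in
theorem exists_master (hx : Model k x) {m : ℕ} (hm : 0 < m) :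
    ∃ (𝕂 : Type u) (_ : Field 𝕂) (_ : Algebra k 𝕂) (_ : Algebra F 𝕂) (_ : IsScalarTower k F 𝕂)
      (z : MZ n m → 𝕂), Master k x z := by
  refine ⟨FractionRing (MvPolynomial (MZ n m) F), inferInstance, inferInstance, inferInstance,
    inferInstance, fun i => algebraMap (MvPolynomial (MZ n m) F) _ (MvPolynomial.X i), hx, hm,
    (MvPolynomial.algebraicIndependent_X _ F).map' (f := IsScalarTower.toAlgHom F _ _)
      (IsFractionRing.injective _ _), eq_top_iff.2 fun a _ => ?_⟩
  obtain ⟨b, c, -, rfl⟩ := IsFractionRing.div_surjective (A := MvPolynomial (MZ n m) F) a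
  have e : ∀ b : MvPolynomial (MZ n m) F, MvPolynomial.aeval (fun i => algebraMap
      (MvPolynomial (MZ n m) F) (FractionRing (MvPolynomial (MZ n m) F)) (MvPolynomial.X i)) b =
      algebraMap _ _ b := fun b =>
    (MvPolynomial.aeval_algebraMap_apply _ _ b).trans (by rw [MvPolynomial.aeval_X_left_apply])
  exact (IntermediateField.mem_adjoin_range_iff _ _ _).2 ⟨b, c, by rw [e, e]⟩

theorem card_MF : n + Fintype.card (MZ n m) = Fintype.card (MF n m) := by
  simp only [Fintype.card_sum, Fintype.card_prod, Fintype.card_option, Fintype.card_fin]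
  ring

theorem sum_sC (i : Fin n) : ∑ α, sC x z i α * algebraMap F 𝕂 (mu x α) = 0 := by
  rw [Fintype.sum_option]
  simp [sC, mu]

namespace Mas1

omit [IsAlgClosed k]

theorem rk_single (a : 𝕂) : rk k ({a} : Set 𝕂) ≤ 1 := by
  simpa using rk_range_le (k := k) fun _ : Unit => a

theorem of_rk {Φ : Type*} [Fintype Φ] {f : Φ → 𝕂} {a : 𝕂}
    (h : (Fintype.card Φ : ℕ∞) + 1 ≤ rk k (Set.range f ∪ {a})) :
    AlgebraicIndependent k f ∧ Transcendental (IntermediateField.adjoin k (Set.range f)) a := by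
  refine ⟨indep_of_rk ?_, fun ha => ?_⟩
  · exact (ENat.add_le_add_iff_right ENat.one_ne_top).1
      (h.trans (rk_union_le.trans (add_le_add le_rfl (rk_single a))))
  · have h1 : rk k (Set.range f ∪ {a}) ≤ rk k (Set.range f) := by
      refine rk_le_of_alg ?_
      rintro s (hs | rfl)
      · exact isAlgebraic_algebraMap
          (⟨s, IntermediateField.subset_adjoin _ _ hs⟩ : IntermediateField.adjoin k (Set.range f))
      · exact ha
    have h2 := (h.trans h1).trans (rk_range_le f)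
    norm_cast at h2
    omega

theorem eq_top (h : Master k x z) {L : IntermediateField k 𝕂} (h1 : ∀ c, algebraMap F 𝕂 c ∈ L)
    (h2 : ∀ i, z i ∈ L) : L = ⊤ := by
  refine eq_top_iff.2 fun s _ => ?_
  have hs : s ∈ IntermediateField.adjoin F (Set.range z) := h.gen ▸ IntermediateField.mem_top
  induction hs using IntermediateField.adjoin_induction with
  | mem a ha => obtain ⟨i, rfl⟩ := ha; exact h2 i
  | algebraMap c => exact h1 c
  | add a b _ _ ha hb => exact add_mem (ha trivial) (hb trivial)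
  | inv a _ ha => exact inv_mem (ha trivial)
  | mul a b _ _ ha hb => exact mul_mem (ha trivial) (hb trivial)

theorem rk_univ (h : Master k x z) :
    rk k (Set.univ : Set 𝕂) ≤ (Fintype.card (MF n m) : ℕ∞) + 1 := by
  have h1 : rk k (Set.univ : Set 𝕂) ≤ rk k (Set.range (algebraMap F 𝕂) ∪ Set.range z) := by
    refine rk_le_of_mem fun s _ => ?_
    rw [eq_top h (fun c => IntermediateField.subset_adjoin _ _ (Or.inl ⟨c, rfl⟩))
      fun i => IntermediateField.subset_adjoin _ _ (Or.inr ⟨i, rfl⟩)]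
    exact IntermediateField.mem_top
  rw [rk_tower, h.model.rk_univ, rk_range_indep h.indep] at h1
  refine h1.trans (le_of_eq ?_)
  rw [← card_MF]
  push_cast
  ring

theorem exists_gen (h : Master k x z) :
    ∃ S : Set 𝕂, S.Finite ∧ IntermediateField.adjoin k S = ⊤ := by
  have := h.model.fin
  let b := Module.finBasis (K0 k x) F
  refine ⟨algebraMap F 𝕂 '' (Set.range x ∪ Set.range b) ∪ Set.range z,
    (((Set.finite_range _).union (Set.finite_range _)).image _).union (Set.finite_range _), ?_⟩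
  refine eq_top h (fun c => ?_) fun i => IntermediateField.subset_adjoin _ _ (Or.inr ⟨i, rfl⟩)
  set L := IntermediateField.adjoin k
    (algebraMap F 𝕂 '' (Set.range x ∪ Set.range b) ∪ Set.range z) with hL
  have h1 : K0 k x ≤ L.comap (IsScalarTower.toAlgHom k F 𝕂) :=
    IntermediateField.adjoin_le_iff.2 fun a ha =>
      IntermediateField.subset_adjoin _ _ (Or.inl ⟨a, Or.inl ha, rfl⟩)
  rw [← b.sum_repr c, map_sum]
  refine sum_mem fun i _ => ?_
  rw [IntermediateField.smul_def, smul_eq_mul, map_mul]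
  exact mul_mem (h1 (b.repr c i).2)
    (IntermediateField.subset_adjoin _ _ (Or.inl ⟨_, Or.inr ⟨i, rfl⟩, rfl⟩))

theorem isFF (h : Master k x z) {f : MF n m → 𝕂} {a : 𝕂}
    (hr : (Fintype.card (MF n m) : ℕ∞) + 1 ≤ rk k (Set.range f ∪ {a})) :
    IsFF (IntermediateField.adjoin k (Set.range f)) 𝕂 := by
  obtain ⟨S, hS, hS'⟩ := exists_gen h
  refine ⟨a, (of_rk hr).2, ?_⟩
  refine finite_of_rk (k := k)
    (K := (IntermediateField.adjoin k (Set.range f))⟮a⟯.restrictScalars k) hS ?_ ?_ ?_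
  · exact eq_top_iff.2 (hS' ▸ IntermediateField.adjoin.mono _ _ _ Set.subset_union_left)
  · refine ne_top_of_le_ne_top ?_ ((rk_mono (Set.subset_univ _)).trans (rk_univ h))
    exact_mod_cast ENat.natCast_ne_top _
  · refine (rk_univ h).trans (hr.trans (rk_mono ?_))
    rw [IntermediateField.adjoin_adjoin_left]
    exact IntermediateField.subset_adjoin _ _

theorem indep_of_le (hz : AlgebraicIndependent F z) {L : IntermediateField k 𝕂}
    (hL : L ≤ (IsScalarTower.toAlgHom k F 𝕂).fieldRange) : AlgebraicIndependent L z := by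
  let e := AlgEquiv.ofInjectiveField (IsScalarTower.toAlgHom k F 𝕂)
  let f : L →+* F := e.symm.toRingEquiv.toRingHom.comp (IntermediateField.inclusion hL).toRingHom
  refine AlgebraicIndependent.of_ringHom_of_comp_eq f (RingHom.id 𝕂) hz f.injective ?_
  ext c
  exact congrArg Subtype.val (e.apply_symm_apply (IntermediateField.inclusion hL c))

theorem fU_self (i : Fin n) : fU x z i (.inr (.inr i)) = algebraMap F 𝕂 (x 1) := by simp [fU]

/-- the generators of the constants of the curve in terms of those of a transversal curve -/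
theorem fC_mem (i : Fin n) {L : IntermediateField k 𝕂}
    (h1 : ∀ φ, φ ≠ .inr (.inr i) → fU x z i φ ∈ L) (h2 : tC z i ∈ L) (φ : MF n m) :
    fC x z φ ∈ L := by
  rcases φ with ⟨l, α⟩ | ⟨l, α⟩ | l
  · have h3 := h1 (.inl (l, α)) (by simp)
    by_cases e : l = i
    · subst e
      have h4 := sub_mem h3 (mul_mem h2 (h1 (.inr (.inl (l, α))) (by simp)))
      simpa [fU, fC] using h4
    · simpa [fU, fC, e] using h3
  · exact h1 (.inr (.inl (l, α))) (by simp)
  · by_cases e : l = i
    · subst e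
      exact h2
    · simpa [fU, fC, e, tC] using h1 (.inr (.inr l)) (by simpa using e)

theorem fU_mem (i : Fin n) {φ : MF n m} (hφ : φ ≠ .inr (.inr i)) : fU x z i φ ∈ κC k x z := by
  have h : ∀ φ, fC x z φ ∈ κC k x z := fun φ => IntermediateField.subset_adjoin _ _ ⟨φ, rfl⟩
  rcases φ with ⟨l, α⟩ | ⟨l, α⟩ | l
  · by_cases e : l = i
    · subst e
      simp only [fU, if_true]
      exact add_mem (h (.inl (l, α))) (mul_mem (h (.inr (.inr l))) (h (.inr (.inl (l, α)))))
    · simp only [fU, e, if_false]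
      exact h (.inl (l, α))
  · exact h (.inr (.inl (l, α)))
  · have e : l ≠ i := by simpa using hφ
    simp only [fU, e, if_false]
    exact h (.inr (.inr l))

end Mas1

open Mas1

theorem Mas1.rk_C (h : Master k x z) : (Fintype.card (MF n m) : ℕ∞) + 1 ≤
    rk k (Set.range (fC x z) ∪ {algebraMap F 𝕂 (x 1)}) := by
  have hi : AlgebraicIndependent k fun i : Fin (n + 1) => algebraMap F 𝕂 (x i.succ) :=
    h.model.indep.map' (f := IsScalarTower.toAlgHom k F 𝕂) (algebraMap F 𝕂).injective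
  have h1 : rk k ({algebraMap F 𝕂 (x 1)} : Set 𝕂) = 1 := by
    simpa [Function.comp_def] using rk_range_indep (hi.comp (fun _ : Unit => 0) fun _ _ _ => rfl)
  have h2 := gp (k := k) (A := Fin n) {algebraMap F 𝕂 (x 1)}
    (fun β : MA n m => algebraMap F 𝕂 (mu x (some β))) z Sum.inl Sum.inl_injective
    (indep_of_le h.indep (IntermediateField.adjoin_le_iff.2 (by
      rintro _ (rfl | ⟨β, rfl⟩) <;> exact ⟨_, rfl⟩))) (by rw [h1]; exact ENat.one_ne_top) (by
      refine le_trans (le_of_eq ?_) (rk_mono (S := Set.range fun i : Fin (n + 1) =>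
        algebraMap F 𝕂 (x i.succ)) ?_)
      · rw [h1, rk_range_indep hi, Fintype.card_fin, Fintype.card_fin]
        push_cast
        ring
      · rintro _ ⟨i, rfl⟩
        exact Or.inr ⟨(i, ⟨0, h.pos⟩), by simp [mu]⟩)
  refine le_trans (le_of_eq ?_) (h2.ge.trans (rk_le_of_mem ?_))
  · rw [h1, ← card_MF, Fintype.card_fin]
    push_cast
    ring
  · have h3 : ∀ φ, fC x z φ ∈ IntermediateField.adjoin k
        (Set.range (fC x z) ∪ {algebraMap F 𝕂 (x 1)}) :=
      fun φ => IntermediateField.subset_adjoin _ _ (Or.inl ⟨φ, rfl⟩)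
    rintro _ ((rfl | ⟨⟨i, β⟩ | φ, rfl⟩) | ⟨i, rfl⟩)
    · exact IntermediateField.subset_adjoin _ _ (Or.inr rfl)
    · exact h3 (.inl (i, some β))
    · exact h3 (.inr φ)
    · simpa [fC, sC] using neg_mem (h3 (.inl (i, none)))

theorem Mas1.rk_le (h : Master k x z) (i : Fin n) {T : Set 𝕂}
    (h1 : ∀ φ, fU x z i φ ∈ T) (h2 : tC z i ∈ T) : (Fintype.card (MF n m) : ℕ∞) + 1 ≤ rk k T := by
  refine (rk_C h).trans (rk_le_of_mem ?_)
  rintro _ (⟨φ, rfl⟩ | rfl)
  · exact fC_mem i (fun φ _ => IntermediateField.subset_adjoin _ _ (h1 φ))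
      (IntermediateField.subset_adjoin _ _ h2) φ
  · exact fU_self (x := x) (z := z) i ▸ IntermediateField.subset_adjoin _ _ (h1 _)

theorem Mas1.rk_U (h : Master k x z) (i : Fin n) : (Fintype.card (MF n m) : ℕ∞) + 1 ≤
    rk k (Set.range (fU x z i) ∪ {tC z i}) :=
  rk_le h i (fun φ => Or.inl ⟨φ, rfl⟩) (Or.inr rfl)

theorem Master.fC_indep (h : Master k x z) : AlgebraicIndependent k (fC x z) := (of_rk (rk_C h)).1
theorem Master.fU_indep (h : Master k x z) (i : Fin n) : AlgebraicIndependent k (fU x z i) :=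
  (of_rk (rk_U h i)).1
theorem Master.transc (h : Master k x z) : Transcendental (κC k x z) (algebraMap F 𝕂 (x 1)) :=
  (of_rk (rk_C h)).2
theorem Master.isFF_C (h : Master k x z) : IsFF (κC k x z) 𝕂 := isFF h (rk_C h)
theorem Master.isFF_U (h : Master k x z) (i : Fin n) : IsFF (κU k x z i) 𝕂 := isFF h (rk_U h i)
omit [IsAlgClosed k] in
theorem κC_eq (i : Fin n) :
    κC k x z = IntermediateField.adjoin k (κ0 k x z i ∪ {tC z i}) := by
  have key : ∀ L : IntermediateField k 𝕂, κ0 k x z i ≤ L → tC z i ∈ L → κC k x z ≤ L := by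
    refine fun L h1 h2 => IntermediateField.adjoin_le_iff.2 ?_
    rintro _ ⟨φ, rfl⟩
    exact fC_mem (L := L) i
      (fun φ hφ => h1 (IntermediateField.subset_adjoin _ _ ⟨φ, hφ, rfl⟩)) h2 φ
  refine le_antisymm (key _ ?_ ?_) (IntermediateField.adjoin_le_iff.2 ?_)
  · exact fun a ha => IntermediateField.subset_adjoin _ _ (Or.inl ha)
  · exact IntermediateField.subset_adjoin _ _ (Or.inr rfl)
  · have h : κ0 k x z i ≤ κC k x z := IntermediateField.adjoin_le_iff.2 (by
      rintro _ ⟨φ, hφ, rfl⟩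
      exact fU_mem i hφ)
    refine Set.union_subset h ?_
    rintro _ rfl
    exact IntermediateField.subset_adjoin _ _ ⟨.inr (.inr i), rfl⟩
omit [IsAlgClosed k] in
theorem κU_eq (i : Fin n) :
    κU k x z i = IntermediateField.adjoin k (κ0 k x z i ∪ {algebraMap F 𝕂 (x 1)}) := by
  refine le_antisymm (IntermediateField.adjoin_le_iff.2 ?_) (IntermediateField.adjoin_le_iff.2 ?_)
  · rintro _ ⟨φ, rfl⟩
    refine IntermediateField.subset_adjoin _ _ ?_
    by_cases hφ : φ = .inr (.inr i)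
    · exact Or.inr (hφ ▸ fU_self i)
    · exact Or.inl (IntermediateField.subset_adjoin _ _ ⟨φ, hφ, rfl⟩)
  · refine Set.union_subset (IntermediateField.adjoin.mono _ _ _ (Set.image_subset_range _ _)) ?_
    rintro _ rfl
    exact IntermediateField.subset_adjoin _ _ ⟨.inr (.inr i), fU_self i⟩
theorem Master.pair_indep (h : Master k x z) (i : Fin n) :
    AlgebraicIndependent (κ0 k x z i) ![tC z i, algebraMap F 𝕂 (x 1)] := by
  have h1 := rk_le h i (T := Set.range (algebraMap (κ0 k x z i) 𝕂) ∪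
    Set.range ![tC z i, algebraMap F 𝕂 (x 1)]) (fun φ => by
      by_cases hφ : φ = .inr (.inr i)
      · exact Or.inr ⟨1, (hφ ▸ fU_self i : _ = _).symm⟩
      · exact Or.inl ⟨⟨_, IntermediateField.subset_adjoin _ _ ⟨φ, hφ, rfl⟩⟩, rfl⟩)
    (Or.inr ⟨0, rfl⟩)
  have h2 : rk k (Set.univ : Set (κ0 k x z i)) ≤
      Fintype.card {φ : MF n m // φ ≠ .inr (.inr i)} := by
    rw [← rk_image (κ0 k x z i).val]
    refine le_trans (rk_le_of_mem ?_) (rk_range_le fun φ : {φ : MF n m // φ ≠ .inr (.inr i)} =>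
      fU x z i φ)
    rintro _ ⟨c, -, rfl⟩
    refine IntermediateField.adjoin.mono _ _ _ ?_ c.2
    rintro _ ⟨φ, hφ, rfl⟩
    exact ⟨⟨φ, hφ⟩, rfl⟩
  have h3 : Fintype.card {φ : MF n m // φ ≠ .inr (.inr i)} < Fintype.card (MF n m) :=
    Fintype.card_subtype_lt (x := .inr (.inr i)) (by simp)
  rw [rk_tower] at h1
  refine indep_of_rk ((ENat.add_le_add_iff_left (ENat.natCast_ne_top _)).1
    (le_trans ?_ (h1.trans (add_le_add h2 le_rfl))))
  rw [Fintype.card_fin]
  exact_mod_cast (by omega)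
theorem Master.resInd_C (h : Master k x z) (v : Place (κC k x z) 𝕂) : ResInd k v.O (fC x z) :=
  resInd_of_mem h.fC_indep fun c hc => v.const ⟨c, hc⟩
theorem Master.resInd_U (h : Master k x z) (i : Fin n) (v : Place (κU k x z i) 𝕂) :
    ResInd k v.O (fU x z i) :=
  resInd_of_mem (h.fU_indep i) fun c hc => v.const ⟨c, hc⟩

section hdiv
variable {κ : IntermediateField k 𝕂} [IsFF κ 𝕂]
omit [IsAlgClosed k] in
theorem Mas1.vec_ne (hx : Model k x) : (fun a => algebraMap F 𝕂 (x a)) ≠ 0 := fun e => by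
  simpa [hx.zero] using congrFun e 0
omit [IsAlgClosed k] [Algebra k F] [IsScalarTower k F 𝕂] in
theorem Mas1.neg_hdiv (v : Place κ 𝕂) :
    -hdiv κ x v = vord v.O fun a => algebraMap F 𝕂 (x a) := by
  rw [hdiv, Finsupp.neg_apply, neg_neg, vdiv_apply]
omit [IsAlgClosed k] in
theorem hdiv_ge (hx : Model k x) (v : Place κ 𝕂) (a : Fin (n + 2)) :
    Ge v.O (-hdiv κ x v) (algebraMap F 𝕂 (x a)) :=
  (vge_iff (vec_ne hx)).2 (neg_hdiv v).le a
omit [IsAlgClosed k] in
theorem hdiv_ex (hx : Model k x) (v : Place κ 𝕂) :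
    ∃ a, ord v.O (algebraMap F 𝕂 (x a)) = -hdiv κ x v :=
  (exists_vord (vec_ne hx)).imp fun _ h => h.2.trans (neg_hdiv v).symm
omit [IsAlgClosed k] in
theorem hdiv_nonneg (hx : Model k x) : 0 ≤ hdiv (𝕂 := 𝕂) κ x := fun v => by
  have h := hdiv_ge hx v 0
  rw [hx.zero, map_one, ge_iff one_ne_zero, ord_one] at h
  exact neg_nonpos.1 h
omit [IsAlgClosed k] in
theorem Sec.ge_hdiv (hx : Model k x) {j : ℕ} {f : F} (hf : Sec k x j f) (v : Place κ 𝕂) :
    Ge v.O (-(j * hdiv κ x v)) (algebraMap F 𝕂 f) := by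
  refine Bd.ge hx v.disc (hdiv_ge hx v) (hf.bd hx fun c => ?_)
  rw [ValuationSubring.mem_comap, ← IsScalarTower.algebraMap_apply,
    IsScalarTower.algebraMap_apply k κ 𝕂]
  exact v.const _
end hdiv

end Pool.Agent.Lib.MP_7fcda1_ag
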