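import Pool.Agent.Lib.MP_7fcda1_ag.Mas2a

open scoped IntermediateField Polynomial WithZero
open Module

noncomputable section

universe u

namespace Pool.Agent.Lib.MP_7fcda1_ag


variable {k F 𝕂 : Type u} [Field k] [IsAlgClosed k] [Field F] [Field 𝕂] [Algebra k F] [Algebra k 𝕂]
  [Algebra F 𝕂] [IsScalarTower k F 𝕂] {n m : ℕ} {x : Fin (n + 2) → F} {z : MZ n m → 𝕂}

theorem Master.poles_u (h : Master k x z) [IsFF (κC k x z) 𝕂] :
    poles (κC k x z) (algebraMap F 𝕂 (x 1)) = hdiv (κC k x z) x := by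
  have hx := h.model
  ext v
  have hD : Disc v.O ∨ v.O = ⊤ := Or.inl v.disc
  have h0 : ∀ a, algebraMap F 𝕂 (x a) ≠ 0 := fun a => by simpa using hx.ne_zero a
  obtain ⟨a, ha⟩ := hdiv_ex hx v
  have h1 := (ge_iff (h0 1)).1 (hdiv_ge hx v 1)
  have h2 : 0 ≤ hdiv (𝕂 := 𝕂) (κC k x z) x v := hdiv_nonneg hx v
  rw [poles_apply]
  by_cases hv : v.O.comap (algebraMap F 𝕂) = ⊤
  · rw [ord_of_comap_top hv] at ha ⊢
    omega
  cases a using Fin.cases with
  | zero => rw [hx.zero, map_one, ord_one] at ha; omega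
  | succ a =>
    rcases (mas2_cls h v hv).cases hx with ⟨π, -, H⟩ | ⟨-, H⟩
    · have h3 := (H (MvPolynomial.X a)).1
      rw [MvPolynomial.aeval_X, ValuationSubring.mem_comap, mem_iff_ge hD, ge_iff (h0 _)] at h3
      omega
    · have h3 := H (MvPolynomial.X a) (MvPolynomial.X_ne_zero a)
      rw [MvPolynomial.aeval_X, MvPolynomial.totalDegree_X, pow_one, val_comap_eq_one,
        val_eq_one_iff hD, map_div₀, ord_div (h0 _) (h0 _)] at h3
      omega

theorem Master.onCurve (h : Master k x z) [IsFF (κC k x z) 𝕂] :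
    OnCurve k x (algebraMap F 𝕂) (hdiv (κC k x z) x) := by
  refine ⟨fun c => ⟨algebraMap k _ c, ?_⟩, fun v => (em _).imp_right (mas2_cls h v),
    hdiv_ge h.model, hdiv_ex h.model, ?_⟩
  · rw [← IsScalarTower.algebraMap_apply, ← IsScalarTower.algebraMap_apply]
  · have := IsFF.finite h.transc
    rw [← h.poles_u, degD_poles h.transc]
    exact_mod_cast finrank_pos

theorem mas2_ord (h : Master k x z) [IsFF (κC k x z) 𝕂] {V : ValuationSubring F} {f : F}
    (hf0 : f ≠ 0) (hf : V.valuation f < 1) (hV : IsPD k x V) {a : Fin (n + 2)}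
    (ha : ∀ b, x b / x a ∈ V)
    (H : ∀ c ∈ K0 k x, c ≠ 0 → ∃ i : ℤ, ∀ V', IsPD k x V' → V'.valuation f < 1 →
      V'.valuation (c / f ^ i) = 1) {c : 𝕂}
    (hc : c ∈ IntermediateField.adjoin (K0 k x) (Set.range (mas2_zc x z (mas2_al h.pos a))))
    (hc0 : c ≠ 0) : ∃ i : ℤ, ∀ v : Place (κC k x z) 𝕂, 0 < ord v.O (algebraMap F 𝕂 f) →
      ord v.O c = i * ord v.O (algebraMap F 𝕂 f) := by
  classical
  have hx := h.model
  have hf1 : algebraMap F 𝕂 f ≠ 0 := by simpa using hf0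
  choose! e he using H
  have mem : ∀ c ∈ K0 k x, c ≠ 0 → ∀ V', IsPD k x V' → V'.valuation f < 1 → ∀ i : ℤ,
      (c / f ^ i ∈ V' ↔ i ≤ e c) := fun c hc hc0 V' h1 h2 i => by
    have : c / f ^ i = c / f ^ e c * f ^ (e c - i) := by
      rw [zpow_sub₀ hf0]; field_simp
    rw [← V'.valuation_le_one_iff, this, map_mul, he c hc hc0 V' h1 h2, one_mul, map_zpow₀,
      zpow_le_one_iff_right_of_lt_one₀ (zero_lt_iff.2 (by simpa using hf0)) h2, sub_nonneg]
  have key : ∀ G : MvPolynomial (mas2_Z (mas2_al h.pos a)) (K0 k x), G ≠ 0 → ∃ i : ℤ,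
      ∀ v : Place (κC k x z) 𝕂, 0 < ord v.O (algebraMap F 𝕂 f) →
        ord v.O (MvPolynomial.aeval (mas2_zc x z (mas2_al h.pos a)) G) =
          i * ord v.O (algebraMap F 𝕂 f) := by
    intro G hG
    obtain ⟨j, hj, hmin⟩ := G.support.exists_min_image (fun j => e (G.coeff j).1)
      (MvPolynomial.support_nonempty.2 hG)
    have nz : ∀ j ∈ G.support, (G.coeff j).1 ≠ 0 := fun j hj e =>
      MvPolynomial.mem_support_iff.1 hj (Subtype.ext e)
    refine ⟨e (G.coeff j).1, fun v hv => ?_⟩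
    have hD : Disc v.O ∨ v.O = ⊤ := Or.inl v.disc
    have h1 : v.O.comap (algebraMap F 𝕂) ≠ ⊤ := fun e => by
      rw [ord_of_comap_top e] at hv; exact lt_irrefl _ hv
    have h2 := mas2_cls h v h1
    have h3 : (v.O.comap (algebraMap F 𝕂)).valuation f < 1 := by
      rw [val_comap_lt_one, val_lt_one_iff hD, ge_iff hf1]; exact hv
    have hc : ∀ l, (MvPolynomial.C (f ^ e (G.coeff j).1)⁻¹ * G.map (algebraMap (K0 k x) F)).coeff l
        = (G.coeff l).1 / f ^ e (G.coeff j).1 := fun l => by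
      rw [MvPolynomial.coeff_C_mul, MvPolynomial.coeff_map, mul_comm, div_eq_mul_inv]; rfl
    have h4 := h.gauss_chart (Or.inl (h.resInd_C v)) h1 (α₀ := mas2_al h.pos a)
      (fun α => mas2_adjoin_le h2.2.1 (by
        rintro _ ⟨b, rfl⟩
        have b1 : x b / x a ∈ K0 k x := div_mem (IntermediateField.subset_adjoin _ _ ⟨b, rfl⟩)
          (IntermediateField.subset_adjoin _ _ ⟨a, rfl⟩)
        have b2 := div_ne_zero (hx.ne_zero b) (hx.ne_zero a)
        simpa using (mem _ b1 b2 _ h2 h3 0).2 ((mem _ b1 b2 _ hV hf 0).1 (by simpa using ha b)))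
        (mas2_nu hx h.pos a α))
      (MvPolynomial.C (f ^ e (G.coeff j).1)⁻¹ * G.map (algebraMap (K0 k x) F)) (fun l => by
        rw [hc]
        by_cases hl : l ∈ G.support
        · exact (mem _ (G.coeff l).2 (nz l hl) _ h2 h3 _).2 (hmin l hl)
        · rw [MvPolynomial.notMem_support_iff.1 hl]; simp)
      ⟨j, by rw [hc, ← val_comap_eq_one]; exact he _ (G.coeff j).2 (nz j hj) _ h2 h3⟩
    rw [map_mul, MvPolynomial.aeval_C, MvPolynomial.aeval_map_algebraMap, val_eq_one_iff hD] at h4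
    have h5 := h4.2
    rw [ord_mul (left_ne_zero_of_mul h4.1) (right_ne_zero_of_mul h4.1), map_inv₀, map_zpow₀,
      ord_inv, ord_zpow] at h5
    linarith
  obtain ⟨A, B, rfl⟩ := (IntermediateField.mem_adjoin_range_iff _ _ _).1 hc
  obtain ⟨hA, hB⟩ := div_ne_zero_iff.1 hc0
  obtain ⟨i, hi⟩ := key A (by rintro rfl; exact hA (map_zero _))
  obtain ⟨j, hj⟩ := key B (by rintro rfl; exact hB (map_zero _))
  exact ⟨i - j, fun v hv => by rw [ord_div hA hB, hi v hv, hj v hv, sub_mul]⟩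

omit [IsAlgClosed k] [Algebra k 𝕂] [IsScalarTower k F 𝕂] in
theorem mas2_finrank (hx : Model k x) {S : Set 𝕂} (hS : IntermediateField.adjoin F S = ⊤) :
    FiniteDimensional (IntermediateField.adjoin (K0 k x) S) 𝕂 ∧
      finrank (IntermediateField.adjoin (K0 k x) S) 𝕂 ≤ finrank (K0 k x) F := by
  have := hx.fin
  set T := IntermediateField.adjoin (K0 k x) S with hT
  set L := (IsScalarTower.toAlgHom (K0 k x) F 𝕂).fieldRange with hL
  have e := (IsScalarTower.toAlgHom (K0 k x) F 𝕂).equivFieldRange.toLinearEquiv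
  have : FiniteDimensional (K0 k x) L := e.finiteDimensional
  have h1 := IntermediateField.adjoin_rank_le_of_isAlgebraic_right T L
  have h2 : IntermediateField.adjoin T (L : Set 𝕂) = ⊤ := by
    rw [eq_top_iff]
    intro c _
    have : IntermediateField.adjoin F S ≤
        (IntermediateField.adjoin T (L : Set 𝕂)).toSubfield.toIntermediateField
          fun c => IntermediateField.subset_adjoin T _ ⟨c, rfl⟩ :=
      IntermediateField.adjoin_le_iff.2 fun s hs =>
        (IntermediateField.adjoin T (L : Set 𝕂)).algebraMap_mem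
          ⟨s, IntermediateField.subset_adjoin _ _ hs⟩
    exact this (hS ▸ trivial)
  rw [h2, IntermediateField.rank_top', ← e.rank_eq, ← finrank_eq_rank (K0 k x) F] at h1
  exact ⟨Module.rank_lt_aleph0_iff.1 (h1.trans_lt (Cardinal.natCast_lt_aleph0)),
    finrank_le_of_rank_le h1⟩

theorem Master.deg_le (h : Master k x z) [IsFF (κC k x z) 𝕂] {V : ValuationSubring F}
    (hV : IsPD k x V) : ∃ v : Place (κC k x z) 𝕂, v.O.comap (algebraMap F 𝕂) = V ∧
      degD (hdiv (𝕂 := 𝕂) (κC k x z) x) ≤ finrank (K0 k x) F * v.deg := by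
  have hx := h.model
  obtain ⟨v, hv⟩ := mas2_place h hV
  obtain ⟨f, hfK, hf0, hf, H, f', hf', H'⟩ := mas2_unif hx hV
  obtain ⟨a, ha, -⟩ := hV.2.2
  refine ⟨v, hv, ?_⟩
  have hf1 : algebraMap F 𝕂 f ≠ 0 := by simpa using hf0
  have h1 : 0 < ord v.O (algebraMap F 𝕂 f) := by
    rw [← hv, val_comap_lt_one, val_lt_one_iff (Or.inl v.disc), ge_iff hf1] at hf; exact hf
  have ht : Transcendental (κC k x z) (algebraMap F 𝕂 f) := fun e => by
    rw [v.ord_algebraic e] at h1; exact lt_irrefl _ h1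
  set T := IntermediateField.adjoin (K0 k x) (Set.range (mas2_zc x z (mas2_al h.pos a))) with hT
  have hK : ∀ c ∈ K0 k x, algebraMap F 𝕂 c ∈ T := fun c hc => T.algebraMap_mem ⟨c, hc⟩
  have hk : ∀ c, algebraMap k 𝕂 c ∈ T.toSubfield := fun c =>
    IsScalarTower.algebraMap_apply k F 𝕂 c ▸ hK _ (IntermediateField.algebraMap_mem _ c)
  have hκ : κC k x z ≤ T.toSubfield.toIntermediateField hk := by
    rw [IntermediateField.adjoin_le_iff]
    rintro _ ⟨φ, rfl⟩
    refine Algebra.adjoin_le (S := (T.toSubfield.toIntermediateField hk).toSubalgebra) ?_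
      (mas2_fC hx h.pos a φ)
    rintro _ (⟨_, ⟨b, rfl⟩, rfl⟩ | hc)
    · exact hK _ (div_mem (IntermediateField.subset_adjoin _ _ ⟨b, rfl⟩)
        (IntermediateField.subset_adjoin _ _ ⟨a, rfl⟩))
    · exact IntermediateField.subset_adjoin (K0 k x) _ hc
  obtain ⟨h2, h3⟩ := mas2_finrank hx (mas2_top h a)
  have hO := fun c (hc : c ∈ T) hc0 => mas2_ord h hf0 hf hV ha H hc hc0
  have h4 := @fund (κC k x z) 𝕂 _ _ _ _ (T.toSubfield.toIntermediateField fun c => hκ c.2) h2 _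
    (hK f hfK) ht v h1 (fun c hc h5 => by
      obtain ⟨i, hi⟩ := hO c hc (by rintro rfl; simp at h5)
      rw [hi v h1] at h5 ⊢
      exact le_mul_of_one_le_left h1.le (pos_of_mul_pos_left h5 h1.le))
    (fun v' h5 c hc => by
      by_cases hc0 : c = 0
      · simp [hc0]
      obtain ⟨i, hi⟩ := hO c hc hc0
      rw [mem_iff_ge (Or.inl v.disc), mem_iff_ge (Or.inl v'.disc), ge_iff hc0, ge_iff hc0,
        hi v h1, hi v' h5, mul_nonneg_iff_of_pos_right h1, mul_nonneg_iff_of_pos_right h5])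
  have h5 : finrank (κC k x z)⟮algebraMap F 𝕂 f⟯ 𝕂 ≤ finrank (K0 k x) F * v.deg :=
    h4.trans (Nat.mul_le_mul_right _ h3)
  have h6 : f' ≠ 0 ∧ Transcendental (κC k x z) (algebraMap F 𝕂 f') ∧
      (κC k x z)⟮algebraMap F 𝕂 f'⟯ = (κC k x z)⟮algebraMap F 𝕂 f⟯ := by
    rcases hf' with rfl | rfl
    · exact ⟨hf0, ht, rfl⟩
    · rw [map_inv₀]
      refine ⟨inv_ne_zero hf0, fun e => ht (IsAlgebraic.inv_iff.1 e), le_antisymm ?_ ?_⟩ <;>
        rw [IntermediateField.adjoin_simple_le_iff]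
      · exact inv_mem (IntermediateField.mem_adjoin_simple_self _ _)
      · exact inv_mem_iff.1 (IntermediateField.mem_adjoin_simple_self _ _)
  refine le_trans ?_ (Int.ofNat_le.2 h5)
  rw [← h6.2.2, ← degD_poles h6.2.1, ← h.poles_u]
  refine degD_mono fun w => ?_
  rw [poles_apply, poles_apply]
  have h7 : algebraMap F 𝕂 (x 1) ≠ 0 := by simpa using hx.ne_zero 1
  by_cases h8 : x 1 ∈ w.O.comap (algebraMap F 𝕂)
  · rw [ValuationSubring.mem_comap, mem_iff_ge (Or.inl w.disc), ge_iff h7] at h8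
    omega
  · have h9 := H' _ (mas2_cls h w fun e => h8 (e ▸ trivial)) h8
    have h10 : algebraMap F 𝕂 f' ≠ 0 := by simpa using h6.1
    rw [ValuationSubring.mem_comap, mem_iff_ge (Or.inl w.disc), map_div₀,
      ge_iff (div_ne_zero h7 h10), ord_div h7 h10] at h9
    omega

end Pool.Agent.Lib.MP_7fcda1_ag
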