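import Pool.Agent.Lib.MP_7fcda1_ag.Mas3

open scoped IntermediateField Polynomial WithZero
open Module

noncomputable section

universe u

namespace Pool.Agent.Lib.MP_7fcda1_ag

variable {k F 𝕂 : Type u} [Field k] [Field F] [Field 𝕂] [Algebra k F] [Algebra k 𝕂]
  [Algebra F 𝕂] [IsScalarTower k F 𝕂] {n m : ℕ} {x : Fin (n + 2) → F} {z : MZ n m → 𝕂}

/-- the index of the monomial `x b ^ m` -/
def mas2_al (hm : 0 < m) : Fin (n + 2) → Option (MA n m) :=
  Fin.cases none fun b => some (b, ⟨m - 1, by omega⟩)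

theorem mas2_mu_al (hx : x 0 = 1) (hm : 0 < m) (b : Fin (n + 2)) :
    mu x (mas2_al hm b) = x b ^ m := by
  cases b using Fin.cases with
  | zero => simp [mas2_al, mu, hx]
  | succ b => simp [mas2_al, mu, Nat.sub_add_cancel hm]

theorem mas2_nu (hx : Model k x) (hm : 0 < m) (a : Fin (n + 2)) (α : Option (MA n m)) :
    mu x α / mu x (mas2_al hm a) ∈ Algebra.adjoin k (Set.range fun b => x b / x a) := by
  have h : ∀ b, x b / x a ∈ Algebra.adjoin k (Set.range fun b => x b / x a) := fun b =>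
    Algebra.subset_adjoin ⟨b, rfl⟩
  have ha := hx.ne_zero a
  rw [mas2_mu_al hx.zero]
  rcases α with _ | ⟨b, j⟩
  · have := pow_mem (h 0) m
    rwa [hx.zero, div_pow, one_pow] at this
  · obtain ⟨d, hd⟩ := Nat.exists_eq_add_of_le (show j.1 + 1 ≤ m from j.2)
    have e : mu x (some (b, j)) / x a ^ m = (x b.succ / x a) ^ (j.1 + 1) * (x 0 / x a) ^ d := by
      have : x a ^ m = x a ^ (j.1 + 1) * x a ^ d := by rw [← pow_add, ← hd]
      rw [this, hx.zero, mu, div_pow, div_pow, one_pow, div_mul_div_comm, mul_one]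
    rw [e]
    exact mul_mem (pow_mem (h _) _) (pow_mem (h 0) _)

abbrev mas2_Z (α₀ : Option (MA n m)) : Type :=
  (Fin n × {α // α ≠ α₀}) ⊕ (Fin n × Option (MA n m)) ⊕ Fin n

/-- chart coordinates -/
abbrev mas2_zc (x : Fin (n + 2) → F) (z : MZ n m → 𝕂) (α₀ : Option (MA n m)) : mas2_Z α₀ → 𝕂 :=
  Sum.elim (fun β => sC x z β.1 β.2.1) fun φ => z (.inr φ)

theorem mas2_card (α₀ : Option (MA n m)) : Fintype.card (mas2_Z α₀) = Fintype.card (MZ n m) := by
  simp [Fintype.card_subtype_compl]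

theorem mas2_zc_sub (α₀ : Option (MA n m)) (i : mas2_Z α₀) :
    mas2_zc x z α₀ i ∈ Set.range (fC x z) := by
  rcases i with β | φ
  exacts [⟨.inl (β.1, β.2.1), rfl⟩, ⟨.inr φ, rfl⟩]

theorem mas2_z_sub (i : MZ n m) : z i ∈ Set.range (fC x z) := by
  rcases i with β | φ
  exacts [⟨.inl (β.1, some β.2), rfl⟩, ⟨.inr φ, rfl⟩]

theorem mas2_sC {α₀ : Option (MA n m)} (h₀ : mu x α₀ ≠ 0) (i : Fin n) : sC x z i α₀ =
    -∑ α : {α // α ≠ α₀}, sC x z i α.1 * algebraMap F 𝕂 (mu x α.1 / mu x α₀) := by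
  have h := sum_sC (x := x) (z := z) i
  rw [Fintype.sum_eq_add_sum_subtype_ne _ α₀] at h
  have h1 : algebraMap F 𝕂 (mu x α₀) ≠ 0 := by simpa using h₀
  simp only [map_div₀, ← mul_div_assoc, ← Finset.sum_div]
  rw [← neg_div, eq_div_iff h1]
  linear_combination h

theorem mas2_fC (hx : Model k x) (hm : 0 < m) (a : Fin (n + 2)) (φ : MF n m) :
    fC x z φ ∈ Algebra.adjoin k (algebraMap F 𝕂 '' (Set.range fun b => x b / x a) ∪
      Set.range (mas2_zc x z (mas2_al hm a))) := by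
  rcases φ with ⟨i, α⟩ | φ
  · by_cases h : α = mas2_al hm a
    · subst h
      rw [fC, mas2_sC (by rw [mas2_mu_al hx.zero]; exact pow_ne_zero _ (hx.ne_zero a))]
      refine neg_mem (sum_mem fun α _ => mul_mem
        (Algebra.subset_adjoin (Or.inr ⟨.inl (i, α), rfl⟩)) ?_)
      refine Algebra.adjoin_mono Set.subset_union_left ?_
      have := Algebra.adjoin_image k (IsScalarTower.toAlgHom k F 𝕂) (Set.range fun b => x b / x a)
      rw [IsScalarTower.coe_toAlgHom'] at this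
      rw [this]
      exact ⟨_, mas2_nu hx hm a α.1, rfl⟩
    · exact Algebra.subset_adjoin (Or.inr ⟨.inl (i, ⟨α, h⟩), rfl⟩)
  · exact Algebra.subset_adjoin (Or.inr ⟨.inr φ, rfl⟩)

theorem mas2_adjoin_le {V : ValuationSubring F} (hk : ∀ c, algebraMap k F c ∈ V) {S : Set F}
    (hS : ∀ c ∈ S, c ∈ V) {c : F} (hc : c ∈ Algebra.adjoin k S) : c ∈ V :=
  Algebra.adjoin_le (S := { V.toSubring.toSubsemiring with algebraMap_mem' := hk }) hS hc

theorem mas2_resInd_comap {V : ValuationSubring 𝕂} {Φ : Type*} {w : Φ → F} :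
    ResInd k (V.comap (algebraMap F 𝕂)) w ↔ ResInd k V fun i => algebraMap F 𝕂 (w i) := by
  refine forall₂_congr fun g _ => ?_
  rw [val_comap_eq_one, ← MvPolynomial.aeval_algebraMap_apply]
  rfl

theorem mas2_unif (hx : Model k x) {V : ValuationSubring F} (hV : IsPD k x V) :
    ∃ f ∈ K0 k x, f ≠ 0 ∧ V.valuation f < 1 ∧
      (∀ c ∈ K0 k x, c ≠ 0 → ∃ i : ℤ, ∀ V', IsPD k x V' → V'.valuation f < 1 →
        V'.valuation (c / f ^ i) = 1) ∧
      ∃ f', (f' = f ∨ f' = f⁻¹) ∧ ∀ V', IsPD k x V' → x 1 ∉ V' → x 1 / f' ∈ V' := by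
  set ev := MvPolynomial.aeval (R := k) (fun i : Fin (n + 1) => x i.succ) with hev
  have e1 : ev (MvPolynomial.X 0) = x 1 := by simp [hev]
  have h1 := hx.ne_zero 1
  have key : ∀ f : F, f ≠ 0 → (∀ A, A ≠ 0 → ∃ i : ℤ, ∀ V', IsPD k x V' → V'.valuation f < 1 →
      V'.valuation (ev A / f ^ i) = 1) → ∀ c ∈ K0 k x, c ≠ 0 → ∃ i : ℤ, ∀ V', IsPD k x V' →
        V'.valuation f < 1 → V'.valuation (c / f ^ i) = 1 := by
    intro f hf H c hc hc0
    obtain ⟨A, B, hB, rfl⟩ := hx.mem_K0.1 hc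
    obtain ⟨i, hi⟩ := H A (by rintro rfl; simp at hc0)
    obtain ⟨j, hj⟩ := H B hB
    refine ⟨i - j, fun V' h h' => ?_⟩
    have : ev A / ev B / f ^ (i - j) = (ev A / f ^ i) / (ev B / f ^ j) := by
      rw [zpow_sub₀ hf, div_div_div_comm]
    rw [this, map_div₀, hi V' h h', hj V' h h', div_one]
  rcases hV.cases hx with ⟨π, hπ, H⟩ | ⟨H, -⟩
  · have h0 : ev π ≠ 0 := fun e => hπ.ne_zero (hx.indep.eq_zero_of_aeval_eq_zero _ e)
    refine ⟨ev π, hx.mem_K0.2 ⟨π, 1, one_ne_zero, by simp [hev]⟩, h0, (H π).2.2 dvd_rfl,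
      key _ h0 fun A hA => ?_, ev π, Or.inl rfl, fun V' h h' => ?_⟩
    · obtain ⟨i, A', hA', rfl⟩ := WfDvdMonoid.max_power_factor hA hπ.irreducible
      refine ⟨i, fun V' h h' => ?_⟩
      rw [map_mul, map_pow, zpow_natCast, mul_div_cancel_left₀ _ (pow_ne_zero _ h0)]
      rcases h.cases hx with ⟨π', hπ', H'⟩ | ⟨H1, H'⟩
      · refine le_antisymm ((V'.valuation_le_one_iff _).2 (H' A').1) (not_lt.1 fun h2 => hA' ?_)
        exact (hπ'.associated_of_dvd hπ ((H' π).2.1 h')).symm.dvd.trans ((H' A').2.1 h2)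
      · have h2 := H' π hπ.ne_zero
        rw [map_div₀, div_eq_one_iff_eq (by simpa using fun e => (h1 e).elim), map_pow] at h2
        rw [map_inv₀, inv_lt_one₀ (zero_lt_iff.2 (by simpa using h1))] at H1
        exact absurd (h2 ▸ h') (not_lt.2 (one_le_pow₀ H1.le))
    · rcases h.cases hx with ⟨π', hπ', H'⟩ | ⟨H1, H'⟩
      · exact (h' (e1 ▸ (H' _).1)).elim
      · obtain ⟨d, hd⟩ : ∃ d, π.totalDegree = d + 1 := by
          refine Nat.exists_eq_succ_of_ne_zero fun e => hπ.not_isUnit ?_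
          have e2 := MvPolynomial.totalDegree_eq_zero_iff_eq_C.1 e
          rw [e2]
          refine (IsUnit.mk0 _ fun e3 => hπ.ne_zero ?_).map MvPolynomial.C
          rw [e2, e3, map_zero]
        have h2 := H' π hπ.ne_zero
        have : x 1 / ev π = (x 1)⁻¹ ^ d / (ev π / x 1 ^ π.totalDegree) := by
          rw [hd, inv_pow, pow_succ]; field_simp
        rw [← V'.valuation_le_one_iff, this, map_div₀, h2, div_one, map_pow]
        exact pow_le_one₀ zero_le H1.le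
  · refine ⟨(x 1)⁻¹, inv_mem (IntermediateField.subset_adjoin _ _ ⟨1, rfl⟩), inv_ne_zero h1, H,
      key _ (inv_ne_zero h1) fun A hA => ⟨-A.totalDegree, fun V' h h' => ?_⟩, _, Or.inr rfl,
      fun V' _ _ => by rw [inv_inv, div_self h1]; exact V'.one_mem⟩
    rcases h.cases hx with ⟨π', hπ', H'⟩ | ⟨-, H'⟩
    · rw [map_inv₀, inv_lt_one₀ (zero_lt_iff.2 (by simpa using h1))] at h'
      exact absurd h' (not_lt.2 ((V'.valuation_le_one_iff _).2 (e1 ▸ (H' _).1)))
    · rw [inv_zpow', neg_neg, zpow_natCast]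
      exact H' A hA

section plc
variable {E Ω : Type*} [Field E] [Field Ω] [Algebra k E] [Algebra k Ω] {P : Plc E Ω}

theorem mas2_resInd_iff (hP : P.Over k) {Φ : Type*} {f : Φ → E} {f' : Φ → Ω}
    (h : ∀ i, P.To (f i) (f' i)) : ResInd k P.V f ↔ AlgebraicIndependent k f' := by
  rw [algebraicIndependent_iff]
  refine forall_congr' fun g => ?_
  rw [(Plc.To.aeval hP h g).val_eq_one_iff]
  exact not_imp_not

theorem mas2_lift [Algebra F E] [IsScalarTower k F E] (hP : P.Over k) {S : Set Ω}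
    (hS : ∀ r ∈ S, ∃ c : F, P.To (algebraMap F E c) r) {r : Ω}
    (hr : r ∈ IntermediateField.adjoin k S) : ∃ c : F, P.To (algebraMap F E c) r := by
  induction hr using IntermediateField.adjoin_induction with
  | mem r hr => exact hS r hr
  | algebraMap c => exact ⟨algebraMap k F c, IsScalarTower.algebraMap_apply k F E c ▸ hP c⟩
  | add a b _ _ ha hb =>
    obtain ⟨c, hc⟩ := ha
    obtain ⟨d, hd⟩ := hb
    exact ⟨c + d, map_add (algebraMap F E) c d ▸ hc.add hd⟩
  | inv a _ ha =>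
    obtain ⟨c, hc⟩ := ha
    by_cases h : a = 0
    · exact ⟨0, by rw [h, inv_zero, map_zero]; exact Plc.to_zero⟩
    · exact ⟨c⁻¹, map_inv₀ (algebraMap F E) c ▸ hc.inv h⟩
  | mul a b _ _ ha hb =>
    obtain ⟨c, hc⟩ := ha
    obtain ⟨d, hd⟩ := hb
    exact ⟨c * d, map_mul (algebraMap F E) c d ▸ hc.mul hd⟩

theorem mas2_gauss_indep [Algebra F E] [IsScalarTower k F E] (hP : P.Over k)
    {K : IntermediateField k Ω} (hK : ∀ r ∈ K, ∃ c : F, P.To (algebraMap F E c) r) {Z : Type*}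
    {w : Z → E} {w' : Z → Ω} (h : ∀ i, P.To (w i) (w' i))
    (hG : ∀ G : MvPolynomial Z F, (∀ m, algebraMap F E (G.coeff m) ∈ P.V) →
      (∃ m, P.V.valuation (algebraMap F E (G.coeff m)) = 1) →
        P.V.valuation (MvPolynomial.aeval w G) = 1) : AlgebraicIndependent K w' := by
  classical
  choose l hl using hK
  rw [algebraicIndependent_iff]
  intro G hG0
  by_contra hne
  set G' : MvPolynomial Z F :=
    ∑ j ∈ G.support, MvPolynomial.monomial j (l _ (G.coeff j).2) with hG'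
  have hc : ∀ j, G'.coeff j = if j ∈ G.support then l _ (G.coeff j).2 else 0 := fun j => by
    simp only [hG', MvPolynomial.coeff_sum, MvPolynomial.coeff_monomial, Finset.sum_ite_eq']
  have hT : P.To (MvPolynomial.aeval w G') (MvPolynomial.aeval w' G) := by
    conv_rhs => rw [G.as_sum]
    rw [hG', map_sum, map_sum]
    refine Plc.To.sum fun j _ => ?_
    have := Plc.To.aeval hP h (MvPolynomial.monomial j 1)
    simp only [MvPolynomial.aeval_monomial, map_one, one_mul] at this ⊢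
    exact (hl _ _).mul this
  obtain ⟨j, hj⟩ := MvPolynomial.support_nonempty.2 hne
  refine hT.val_eq_one_iff.1 (hG G' (fun j => ?_) ⟨j, ?_⟩) hG0
  · rw [hc]
    split_ifs
    · exact (hl _ _).1
    · rw [map_zero]; exact zero_mem _
  · rw [hc, if_pos hj]
    exact (hl _ _).val_eq_one_iff.2 fun e => MvPolynomial.mem_support_iff.1 hj (Subtype.ext e)

end plc

theorem mas2_exists_plc (W : ValuationSubring 𝕂) (hk : ∀ c, algebraMap k 𝕂 c ∈ W) :
    ∃ (Ω : Type u) (_ : Field Ω) (_ : Algebra k Ω) (P : Plc 𝕂 Ω), P.V = W ∧ P.Over k := by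
  obtain ⟨P, h, hP⟩ := exists_plc_residue W (RingHom.id _)
  exact ⟨_, _, ((IsLocalRing.residue W).comp ((algebraMap k 𝕂).codRestrict W hk)).toAlgebra, P, h,
    fun c => hP ⟨_, hk c⟩⟩

theorem mas2_top (h : Master k x z) (a : Fin (n + 2)) :
    IntermediateField.adjoin F (Set.range (mas2_zc x z (mas2_al h.pos a))) = ⊤ := by
  rw [eq_top_iff, ← h.gen, IntermediateField.adjoin_le_iff]
  rintro _ ⟨i, rfl⟩
  obtain ⟨φ, hφ⟩ := mas2_z_sub (x := x) (z := z) i
  rw [← hφ]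
  refine Algebra.adjoin_le (S := (IntermediateField.adjoin F
    (Set.range (mas2_zc x z (mas2_al h.pos a)))).toSubalgebra.restrictScalars k) ?_
    (mas2_fC h.model h.pos a φ)
  rintro _ (⟨c, -, rfl⟩ | hc)
  · exact (IntermediateField.adjoin F _).algebraMap_mem c
  · exact IntermediateField.subset_adjoin F _ hc

variable [IsAlgClosed k]

theorem mas2_place (h : Master k x z) {V : ValuationSubring F} (hV : IsPD k x V) :
    ∃ v : Place (κC k x z) 𝕂, v.O.comap (algebraMap F 𝕂) = V := by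
  classical
  have hx := h.model
  obtain ⟨hV0, hk, a, ha, g, hg⟩ := hV
  set α₀ : Option (MA n m) := mas2_al h.pos a with hα₀
  have hi : AlgebraicIndependent F (mas2_zc x z α₀) := indep_of_rk (by
    rw [mas2_card, ← rk_range_indep h.indep]
    exact rk_le_of_mem fun s _ => by rw [hα₀, mas2_top h a]; trivial)
  obtain ⟨W, hW, hz, hG⟩ := exists_gauss V hi
  subst hW
  have hk' : ∀ c, algebraMap k 𝕂 c ∈ W := fun c => IsScalarTower.algebraMap_apply k F 𝕂 c ▸ hk c
  suffices hR : ResInd k W (fC x z) from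
    ⟨⟨W, fun e => hV0 (by rw [e]; exact top_unique fun _ _ => trivial), fun c => hR.mem c c.2⟩, rfl⟩
  obtain ⟨Ω, _, _, P, rfl, hO⟩ := mas2_exists_plc W hk'
  obtain ⟨r, hr⟩ : ∃ r : 𝕂 → Ω, ∀ c ∈ P.V, P.To c (r c) :=
    ⟨fun c => if hc : c ∈ P.V then P.ρ ⟨c, hc⟩ else 0, fun c hc => ⟨hc, by simp only [dif_pos hc]⟩⟩
  have hν : ∀ α, algebraMap F 𝕂 (mu x α / mu x α₀) ∈ P.V := fun α =>
    mas2_adjoin_le hk (by rintro _ ⟨b, rfl⟩; exact ha b) (mas2_nu hx h.pos a α)
  have h₀ : mu x α₀ ≠ 0 := by rw [hα₀, mas2_mu_al hx.zero]; exact pow_ne_zero _ (hx.ne_zero a)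
  set w : {α // α ≠ α₀} → Ω := fun α => r (algebraMap F 𝕂 (mu x α.1 / mu x α₀)) with hw
  have hs : ∀ i, P.To (sC x z i α₀) (-∑ α : {α // α ≠ α₀}, r (sC x z i α.1) * w α) := fun i => by
    rw [mas2_sC h₀]
    exact (Plc.To.sum fun α _ => (hr _ (hz (.inl (i, α)))).mul (hr _ (hν α.1))).neg
  have hf : ∀ φ, fC x z φ ∈ P.V := by
    rintro (⟨i, α⟩ | φ)
    · by_cases e : α = α₀
      · rw [e]; exact (hs i).1
      · exact hz (.inl (i, ⟨α, e⟩))
    · exact hz (.inr φ)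
  have e0 : rk k (∅ : Set Ω) = 0 := by simp [rk]
  have h1 := gp (k := k) (A := Fin n) ∅ w (fun i => r (mas2_zc x z α₀ i)) .inl Sum.inl_injective
    (mas2_gauss_indep (F := F) hO (fun _ => mas2_lift hO (by
      rintro _ (⟨⟨⟩⟩ | ⟨α, rfl⟩); exact ⟨_, hr _ (hν α.1)⟩)) (fun i => hr _ (hz i))
      fun G h1 ⟨j, h2⟩ => hG G h1 ⟨j, (val_comap_eq_one _ _).2 h2⟩) (by simp [e0]) (by
      have h2 := rk_range_indep ((mas2_resInd_iff hO fun i => hr _ (ha (g i))).1
        (mas2_resInd_comap.1 hg))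
      rw [← h2, Set.empty_union, e0, zero_add]
      refine rk_le_of_alg ?_
      rintro _ ⟨i, rfl⟩
      refine IsAlgebraic.of_pow h.pos ?_
      have h3 := (hr _ (ha (g i))).pow m
      rw [← map_pow, div_pow, ← mas2_mu_al hx.zero h.pos, ← mas2_mu_al hx.zero h.pos] at h3
      by_cases e : mas2_al h.pos (g i) = α₀
      · rw [e, div_self h₀, map_one] at h3
        rw [h3.unique Plc.to_one]
        exact isAlgebraic_one
      · rw [h3.unique (hr _ (hν _))]
        exact isAlgebraic_algebraMap (⟨_, IntermediateField.subset_adjoin _ _ ⟨⟨_, e⟩, rfl⟩⟩ :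
          IntermediateField.adjoin k (Set.range w)))
  refine (mas2_resInd_iff hO fun φ => hr _ (hf φ)).2 (indep_of_rk ?_)
  rw [e0, zero_add, Fintype.card_fin] at h1
  rw [← card_MF, ← mas2_card α₀, add_comm, Nat.cast_add, ← h1]
  refine rk_le_of_mem ?_
  rintro _ ((⟨⟨⟩⟩ | ⟨i, rfl⟩) | ⟨i, rfl⟩)
  · obtain ⟨φ, hφ⟩ := mas2_zc_sub (x := x) (z := z) α₀ i
    exact IntermediateField.subset_adjoin _ _ ⟨φ, congrArg r hφ⟩
  · refine neg_mem_iff.1 (IntermediateField.subset_adjoin _ _ ⟨.inl (i, α₀), ?_⟩)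
    exact (hr _ (hf _)).unique (hs i)

theorem mas2_cls (h : Master k x z) (v : Place (κC k x z) 𝕂)
    (hv : v.O.comap (algebraMap F 𝕂) ≠ ⊤) : IsPD k x (v.O.comap (algebraMap F 𝕂)) := by
  have hx := h.model
  have hR := h.resInd_C v
  obtain ⟨a, -, ha⟩ := exists_min_coord (v.O.comap (algebraMap F 𝕂)) (w := x) fun e =>
    hx.ne_zero 0 (congrFun e 0)
  obtain ⟨-, w, hw, hw'⟩ := gauss (ν := n) (by rw [hx.rk_univ]; simp) hv
    (z := mas2_zc x z (mas2_al h.pos a))
    (fun i => hR.mem _ (IntermediateField.subset_adjoin _ _ (mas2_zc_sub _ i))) hR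
    (by rw [mas2_card, card_MF]) (C := Set.range fun b => x b / x a)
    (by rintro _ ⟨b, rfl⟩; exact ha b) (mas2_fC hx h.pos a)
  choose g hg using hw
  refine ⟨hv, fun c => ?_, a, ha, g, mas2_resInd_comap.2 (by simpa only [hg] using hw')⟩
  rw [ValuationSubring.mem_comap, ← IsScalarTower.algebraMap_apply]
  exact hR.const c

end Pool.Agent.Lib.MP_7fcda1_ag
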