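import Pool.Agent.Lib.MP_7fcda1_ag.Mas3c
import Pool.Agent.Lib.MP_7fcda1_ag.Bun2

open scoped IntermediateField Polynomial WithZero
open Module MvPolynomial

noncomputable section

universe u

namespace Pool.Agent.Lib.MP_7fcda1_ag


variable {k F 𝕂 : Type u} [Field k] [IsAlgClosed k] [Field F] [Field 𝕂] [Algebra k F] [Algebra k 𝕂]
  [Algebra F 𝕂] [IsScalarTower k F 𝕂] {n m : ℕ} {x : Fin (n + 2) → F} {z : MZ n m → 𝕂}
  {V : ValuationSubring 𝕂}

omit [IsAlgClosed k] [IsScalarTower k F 𝕂] in
theorem mas3_indep (h : Master k x z) :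
    AlgebraicIndependent (IntermediateField.adjoin F (Set.range (sF z))) fun φ => z (.inr φ) := by
  rw [IntermediateField.algebraicIndependent_adjoin_iff]
  refine (AlgebraicIndependent.sumElim_iff.1 ?_).2
  convert h.indep.comp _ (Equiv.sumComm _ _).injective
  ext (_ | _) <;> rfl

omit [IsAlgClosed k] [IsScalarTower k F 𝕂] in
theorem mas3_top (h : Master k x z) :
    IntermediateField.adjoin (IntermediateField.adjoin F (Set.range (sF z)))
      (Set.range fun φ => z (.inr φ)) = ⊤ := by
  apply IntermediateField.restrictScalars_injective F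
  rw [IntermediateField.adjoin_adjoin_left, IntermediateField.restrictScalars_top, ← h.gen]
  congr 1
  ext y
  constructor
  · rintro (⟨β, rfl⟩ | ⟨φ, rfl⟩)
    exacts [⟨_, rfl⟩, ⟨_, rfl⟩]
  · rintro ⟨β | φ, rfl⟩
    exacts [Or.inl ⟨β, rfl⟩, Or.inr ⟨φ, rfl⟩]

theorem mas3_sC_mem (l : Fin n) (α : Option (MA n m)) :
    sC x z l α ∈ IntermediateField.adjoin F (Set.range (sF z)) := by
  have : ∀ β, sC x z l (some β) ∈ IntermediateField.adjoin F (Set.range (sF z)) := fun β =>
    IntermediateField.subset_adjoin _ _ ⟨(l, β), rfl⟩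
  cases α
  exacts [mas3_sC_none l (S := (IntermediateField.adjoin F (Set.range (sF z))).toSubalgebra) this,
    this _]

omit [IsAlgClosed k] in
theorem mas3_rk' (h : Master k x z) :
    rk k (Set.univ : Set (IntermediateField.adjoin F (Set.range (sF z)))) ≤
      (n + Fintype.card (Fin n × MA n m) : ℕ) + 1 := by
  have h1 := rk_tower (k := k) (K := F)
    (S := (Set.univ : Set (IntermediateField.adjoin F (Set.range (sF z)))))
  rw [Set.union_univ] at h1
  rw [h1, ← rk_image (IntermediateField.adjoin F (Set.range (sF z))).val]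
  refine (add_le_add (mas3_rk h.model) ((rk_le_of_mem (T := Set.range (sF z)) ?_).trans
    (rk_range_le _))).trans (le_of_eq ?_)
  · rintro _ ⟨c, -, rfl⟩
    exact c.2
  · push_cast
    ring

/-- sections are spanned by polynomial vectors in the free coefficients -/
theorem master_gen_le (h : Master k x z) [IsFF (κC k x z) 𝕂] {ι ι' : Type} [Fintype ι]
    (φ : Matrix ι' ι F) (y : ℕ) :
    gen (LinearMap.ker (φ.map (algebraMap F 𝕂)).mulVecLin) (y • hdiv (κC k x z) x) ≤
      Submodule.span 𝕂 {w | w ∈ gen (LinearMap.ker (φ.map (algebraMap F 𝕂)).mulVecLin)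
        (y • hdiv (κC k x z) x) ∧ ∀ a, ∃ g : MvPolynomial (Fin n × MA n m) F,
          w a = MvPolynomial.aeval (sF z) g} := by
  classical
  set T := Submodule.span 𝕂 {w | w ∈ gen (LinearMap.ker (φ.map (algebraMap F 𝕂)).mulVecLin)
    (y • hdiv (κC k x z) x) ∧ ∀ a, ∃ g : MvPolynomial (Fin n × MA n m) F,
      w a = MvPolynomial.aeval (sF z) g} with hT
  refine Submodule.span_le.2 fun w hw =>
    (Submodule.span_le (p := T.restrictScalars (κC k x z))).2 ?_ hw
  rintro w ⟨hw, hw'⟩
  change w ∈ T
  let K := IntermediateField.adjoin F (Set.range (sF z))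
  have : IsScalarTower k K 𝕂 := IsScalarTower.of_algebraMap_eq fun _ => rfl
  have hK : ∀ a, algebraMap K 𝕂 (algebraMap F K a) = algebraMap F 𝕂 a := fun _ => rfl
  have hf : ∀ s : MvPolynomial (MF n m) k, ∃ q : MvPolynomial _ K,
      aeval (fun φ => z (.inr φ)) q = aeval (fC x z) s := by
    intro s
    induction s using MvPolynomial.induction_on with
    | C a => exact ⟨C (algebraMap k K a), by
        rw [aeval_C, aeval_C, ← IsScalarTower.algebraMap_apply]⟩
    | add p q hp hq =>
      obtain ⟨p, hp⟩ := hp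
      obtain ⟨q, hq⟩ := hq
      exact ⟨p + q, by rw [map_add, map_add, hp, hq]⟩
    | mul_X p a hp =>
      obtain ⟨p, hp⟩ := hp
      rcases a with β | ψ
      · exact ⟨p * C ⟨_, mas3_sC_mem (x := x) β.1 β.2⟩, by simp [hp, fC]⟩
      · exact ⟨p * X ψ, by simp [hp, fC]⟩
  obtain ⟨c, hc, hc0, P, hP⟩ := mas3_poly (mas3_indep h) (mas3_top h) (κC k x z).toSubfield
    (fun c hc => by
      obtain ⟨r, s, rfl⟩ := (IntermediateField.mem_adjoin_range_iff k _ c).1 hc
      obtain ⟨p, hp⟩ := hf r
      obtain ⟨q, hq⟩ := hf s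
      refine ⟨p, q, ?_, by rw [hp, hq]⟩
      rw [hq]
      exact (IntermediateField.mem_adjoin_range_iff k _ _).2 ⟨s, 1, by simp⟩)
    (w := w) fun V hV h1 h2 a => by
      let v : Place (κC k x z) 𝕂 := ⟨V, hV.ne_top, fun c => h2 _ c.2⟩
      obtain ⟨b, hb⟩ := hdiv_ex h.model v
      have hF : V.comap (algebraMap F 𝕂) = ⊤ := eq_top_iff.2 fun c _ => h1 (algebraMap F K c)
      rw [ord_of_comap_top hF] at hb
      have := hw' v a
      rw [Finsupp.smul_apply, show hdiv (κC k x z) x v = 0 by omega, smul_zero, neg_zero] at this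
      exact (mem_iff_ge (Or.inl hV)).2 this
  have key : ∀ d, (fun a => algebraMap K 𝕂 ((P a).coeff d)) ∈ T := by
    intro d
    obtain ⟨e, he, he'⟩ := mas3_den (w := fun a => algebraMap K 𝕂 ((P a).coeff d)) fun a => ((P a).coeff d).2
    rw [← Submodule.smul_mem_iff _ he]
    refine Submodule.subset_span ⟨Submodule.smul_mem _ _ (Submodule.subset_span
      (Submodule.subset_span ⟨?_, fun v a => ?_⟩)), he'⟩
    · rw [LinearMap.mem_ker] at hw ⊢
      funext i
      have h1 : ∑ a, C (algebraMap F K (φ i a)) * P a = 0 := by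
        apply mas3_indep h
        have := congrFun hw i
        simp only [Matrix.mulVecLin_apply, Matrix.mulVec, dotProduct, Matrix.map_apply,
          Pi.zero_apply] at this
        simp only [map_sum, map_mul, aeval_C, hP, map_zero, mul_left_comm _ c, ← Finset.mul_sum]
        exact mul_eq_zero_of_right _ this
      have h2 := congrArg (fun p => algebraMap K 𝕂 (coeff d p)) h1
      simp only [coeff_sum, coeff_C_mul, map_sum, map_mul, hK, coeff_zero, map_zero] at h2
      exact h2
    · by_cases hv : v.O.comap (algebraMap K 𝕂) = ⊤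
      · refine ((mem_iff_ge (Or.inl v.disc)).1 (mas3_const hv _)).mono ?_
        have : 0 ≤ hdiv (κC k x z) x v := hdiv_nonneg h.model v
        rw [Finsupp.smul_apply, nsmul_eq_mul]
        nlinarith
      · have hV := h.resInd_C v
        refine ge_coeff v.disc (gauss (mas3_rk' h) hv (z := fun φ => z (.inr φ))
          (fun ψ => mas3_mem hV (.inr ψ)) hV ?_ (C := {c | algebraMap K 𝕂 c ∈ v.O})
          (fun _ h => h) ?_).1 ?_ d
        · rw [← card_MF, add_assoc, ← Fintype.card_sum]
        · rintro (β | ψ)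
          · exact Algebra.subset_adjoin
              (Or.inl ⟨⟨_, mas3_sC_mem (x := x) β.1 β.2⟩, mas3_mem hV (.inl β), rfl⟩)
          · exact Algebra.subset_adjoin (Or.inr ⟨ψ, rfl⟩)
        · rw [hP]
          exact v.ge_smul (hw' v a) ⟨c, hc⟩
  rw [← Submodule.smul_mem_iff _ hc0]
  have e : c • w = ∑ d ∈ Finset.univ.biUnion fun a => (P a).support,
      (∏ j ∈ d.support, z (.inr j) ^ d j) • fun a => algebraMap K 𝕂 ((P a).coeff d) := by
    funext a
    rw [Pi.smul_apply, smul_eq_mul, ← hP, aeval_def, eval₂_eq, Finset.sum_apply]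
    rw [← Finset.sum_subset (Finset.subset_biUnion_of_mem (fun a => (P a).support)
      (Finset.mem_univ a))]
    · exact Finset.sum_congr rfl fun d _ => mul_comm _ _
    · intro d _ hd
      simp [notMem_support_iff.1 hd]
  rw [e]
  exact Submodule.sum_mem _ fun d _ => Submodule.smul_mem _ _ (key d)

end Pool.Agent.Lib.MP_7fcda1_ag
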