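import Pool.Agent.Lib.MP_7fcda1_ag.Gauss

open scoped IntermediateField Polynomial WithZero
open Module MvPolynomial

noncomputable section

universe u

namespace Pool.Agent.Lib.MP_7fcda1_ag

section poly
variable {R A Z : Type*} [CommRing R]

theorem mas3_dvd_rename [IsDomain R] {τ : A → Z} (hτ : Function.Injective τ)
    {π : MvPolynomial Z R} {w : MvPolynomial A R} (hw : w ≠ 0) (h : π ∣ rename τ w) :
    ∃ π₀, rename τ π₀ = π := by
  classical
  apply exists_rename_eq_of_vars_subset_range _ _ hτ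
  intro j hj
  obtain ⟨q, hq⟩ := h
  have h0 : rename τ w ≠ 0 := fun h => hw (rename_injective τ hτ (by rw [h, map_zero]))
  have hπ : π ≠ 0 := by rintro rfl; exact h0 (by rw [hq, zero_mul])
  have hq0 : q ≠ 0 := by rintro rfl; exact h0 (by rw [hq, mul_zero])
  have hj' : j ∈ (rename τ w).vars := by
    rw [mem_vars_iff_degreeOf_ne_zero, hq, degreeOf_mul_eq hπ hq0]
    have := mem_vars_iff_degreeOf_ne_zero.1 (Finset.mem_coe.1 hj)
    omega
  obtain ⟨i, -, rfl⟩ := mem_vars_rename τ w hj'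
  exact ⟨i, rfl⟩

theorem mas3_totalDegree_aeval {θ : A → MvPolynomial Z R} (hθ : ∀ a, (θ a).totalDegree ≤ 1)
    (g : MvPolynomial A R) : (aeval θ g).totalDegree ≤ g.totalDegree := by
  classical
  rw [aeval_def, eval₂_eq]
  refine totalDegree_finsetSum_le fun d hd => ?_
  refine (totalDegree_mul _ _).trans ?_
  rw [algebraMap_eq, totalDegree_C, zero_add]
  refine (totalDegree_finsetProd _ _).trans ?_
  refine le_trans ?_ (le_totalDegree hd)
  rw [Finsupp.sum]
  refine Finset.sum_le_sum fun i _ => (totalDegree_pow _ _).trans ?_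
  simpa using Nat.mul_le_mul_left (d i) (hθ i)

end poly

section val
variable {F L : Type*} [Field F] [Field L] [Algebra F L] {V : ValuationSubring L}
  {A Z : Type*}

theorem mas3_aeval_sub (hF : ∀ c, algebraMap F L c ∈ V) {u u' : A → L} (hu : ∀ a, u a ∈ V)
    (hu' : ∀ a, u' a ∈ V) (h : ∀ a, V.valuation (u a - u' a) < 1) (g : MvPolynomial A F) :
    V.valuation (aeval u g - aeval u' g) < 1 := by
  induction g using MvPolynomial.induction_on with
  | C a => simp
  | add p q hp hq =>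
    rw [map_add, map_add, add_sub_add_comm]
    exact Valuation.map_add_lt _ hp hq
  | mul_X p a hp =>
    rw [map_mul, map_mul, aeval_X, aeval_X,
      show aeval u p * u a - aeval u' p * u' a =
        (aeval u p - aeval u' p) * u a + aeval u' p * (u a - u' a) by ring]
    refine Valuation.map_add_lt _ ?_ ?_
    · rw [map_mul]
      exact mul_lt_one_of_lt_of_le hp ((V.valuation_le_one_iff _).2 (hu a))
    · rw [map_mul, mul_comm]
      exact mul_lt_one_of_lt_of_le (h a) ((V.valuation_le_one_iff _).2 (aeval_mem hF hu' p))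

theorem mas3_eval_ge {G : MvPolynomial Z F} {N η : ℤ} (hη : 0 ≤ η)
    (hG : ∀ d, Ge V N (algebraMap F L (G.coeff d))) {σ : Z → F}
    (hσ : ∀ j, Ge V (-η) (algebraMap F L (σ j))) {D : ℕ} (hD' : G.totalDegree ≤ D) :
    Ge V (N - D * η) (algebraMap F L (eval σ G)) := by
  rw [eval_eq, map_sum]
  refine Ge.sum fun d hd => ?_
  rw [map_mul, map_prod]
  have h1 := Ge.prod (V := V) (s := d.support) (f := fun i => algebraMap F L (σ i ^ d i))
    (n := fun i => (d i : ℤ) * -η) fun i _ => by rw [map_pow]; exact (hσ i).pow _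
  refine ((hG d).mul h1).mono ?_
  have h2 : ((d.sum fun _ e => e : ℕ) : ℤ) ≤ D := by exact_mod_cast (le_totalDegree hd).trans hD'
  rw [← Finset.sum_mul]
  rw [Finsupp.sum, Nat.cast_sum] at h2
  nlinarith

variable {k : Type*} [Field k] [Algebra k F] [Algebra k L] [IsScalarTower k F L] {Φ : Type*}
  [Fintype Z] [Fintype Φ] {ν : ℕ}

omit [Fintype Z] in
theorem mas3_not_unit {z : Z → L} {π : MvPolynomial Z F}
    (hπ : ∀ G, V.valuation (aeval z G) < 1 ↔ π ∣ G) : ¬IsUnit π := fun hu => by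
  simpa using (hπ 1).2 hu.dvd

theorem mas3_const (hV : V.comap (algebraMap F L) = ⊤) (c : F) : algebraMap F L c ∈ V := by
  have : c ∈ V.comap (algebraMap F L) := by rw [hV]; exact ValuationSubring.mem_top c
  exact this

/-- if one coordinate has positive order then the residues of the others are independent -/
theorem mas3_resInd (hF : rk k (Set.univ : Set F) ≤ ν + 1) (hV : V.comap (algebraMap F L) = ⊤)
    {z : Z → L} (hz : ∀ i, z i ∈ V) {f : Φ → L} (hf : ResInd k V f)
    (hc : ν + Fintype.card Z ≤ Fintype.card Φ)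
    (hfC : ∀ φ, f φ ∈ Algebra.adjoin F (Set.range z)) {j₀ : Z} (hj : V.valuation (z j₀) < 1)
    {τ : A → Z} (hτ : Function.Injective τ) (hj' : j₀ ∉ Set.range τ) : ResInd F V (z ∘ τ) := by
  obtain ⟨π, hπ⟩ := gauss_triv hF hV hz hf hc hfC
  intro g hg
  rw [← aeval_rename]
  refine le_antisymm ((V.valuation_le_one_iff _).2 (aeval_mem (mas3_const hV) hz _)) ?_
  by_contra hlt
  have h1 : π ∣ X j₀ := (hπ _).1 (by simpa using hj)
  have h2 : X j₀ ∣ π := by
    obtain ⟨q, hq⟩ := h1
    rcases (X_prime (i := j₀) (R := F)).irreducible.isUnit_or_isUnit hq with h | h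
    · exact (mas3_not_unit hπ h).elim
    · exact ⟨↑h.unit⁻¹, by rw [hq, mul_assoc, h.mul_val_inv, mul_one]⟩
  have h3 := map_dvd (killCompl hτ) (h2.trans ((hπ _).1 (not_le.1 hlt)))
  rw [killCompl_rename_app, killCompl, aeval_X, dif_neg hj'] at h3
  exact hg (zero_dvd_iff.1 h3)

theorem mas3_prim (hF : rk k (Set.univ : Set F) ≤ ν + 1) (hV : V.comap (algebraMap F L) = ⊤)
    {z : Z → L} (hz : ∀ i, z i ∈ V) {f : Φ → L} (hf : ResInd k V f)
    (hc : ν + Fintype.card Z ≤ Fintype.card Φ)
    (hfC : ∀ φ, f φ ∈ Algebra.adjoin F (Set.range z))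
    {τ : A → Z} (hτ : Function.Injective τ) {I : Type*} {ω : I → MvPolynomial A F} (h₀ : ω ≠ 0)
    (hω : ∀ π, Prime π → ∃ a, ¬π ∣ ω a) : ∃ a, V.valuation (aeval (z ∘ τ) (ω a)) = 1 := by
  obtain ⟨π, hπ⟩ := gauss_triv hF hV hz hf hc hfC
  by_contra! hne
  have hd : ∀ a, π ∣ rename τ (ω a) := fun a => by
    refine (hπ _).1 (lt_of_le_of_ne
      ((V.valuation_le_one_iff _).2 (aeval_mem (mas3_const hV) hz _)) ?_)
    rw [aeval_rename]
    exact hne a
  obtain ⟨a₀, ha₀⟩ := Function.ne_iff.1 h₀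
  obtain ⟨π₀, rfl⟩ := mas3_dvd_rename hτ ha₀ (hd a₀)
  have hd' : ∀ a, π₀ ∣ ω a := fun a => by simpa using map_dvd (killCompl hτ) (hd a)
  have h0 : π₀ ≠ 0 := by rintro rfl; exact ha₀ (zero_dvd_iff.1 (hd' a₀))
  obtain ⟨p, hp, hp'⟩ := WfDvdMonoid.exists_irreducible_factor
    (fun hu : IsUnit π₀ => mas3_not_unit hπ (hu.map _)) h0
  obtain ⟨a, ha⟩ := hω p hp.prime
  exact ha (hp'.trans (hd' a))

/-- Gauss property for linear forms, after removing `ν` of the given elements -/
theorem mas3_lin (hF : rk k (Set.univ : Set F) ≤ ν + 1) (hV : V.comap (algebraMap F L) ≠ ⊤)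
    {f : Φ → L} (hf : ResInd k V f) {r : Fin ν → Φ} (hr : Function.Injective r)
    (hfC : ∀ l, f (r l) ∈ Algebra.adjoin k (algebraMap F L '' {c | algebraMap F L c ∈ V} ∪
      f '' (Set.range r)ᶜ)) [Fintype A] {τ : A → Φ} (hτ : Function.Injective τ)
    (hτ' : ∀ a, τ a ∉ Set.range r) {c : A → F} (hc : ∀ a, algebraMap F L (c a) ∈ V) {a₀ : A}
    (h₀ : c a₀ = 1) : V.valuation (∑ a, f (τ a) * algebraMap F L (c a)) = 1 := by
  classical
  have hrange : Set.range (fun φ : {φ // φ ∉ Set.range r} => f φ) = f '' (Set.range r)ᶜ := by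
    ext y; simp
  have H := (gauss (Z := {φ // φ ∉ Set.range r}) hF hV (z := fun φ => f φ)
    (fun φ => hf.mem _ (IntermediateField.subset_adjoin _ _ ⟨_, rfl⟩)) hf
    (by
      have := Fintype.card_subtype_compl (fun φ => φ ∈ Set.range r)
      have h2 : Fintype.card {φ // φ ∈ Set.range r} = ν := by
        rw [← Fintype.card_congr (Equiv.ofInjective r hr), Fintype.card_fin]
      have h3 := Fintype.card_subtype_le (fun φ => φ ∈ Set.range r)
      omega)
    (C := {c | algebraMap F L c ∈ V}) (fun _ h => h) (fun φ => by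
      rw [hrange]
      by_cases h : φ ∈ Set.range r
      · obtain ⟨l, rfl⟩ := h
        exact hfC l
      · exact Algebra.subset_adjoin (Or.inr ⟨φ, h, rfl⟩))).1
    (∑ a, monomial (Finsupp.single ⟨τ a, hτ' a⟩ 1) (c a)) (fun d => ?_)
    ⟨Finsupp.single ⟨τ a₀, hτ' a₀⟩ 1, ?_⟩
  · simpa [aeval_monomial, mul_comm] using H
  · rw [coeff_sum, map_sum]
    refine sum_mem fun a _ => ?_
    rw [coeff_monomial]
    split_ifs
    · exact hc a
    · simp
  · rw [coeff_sum, Finset.sum_eq_single a₀]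
    · simp [h₀]
    · intro a _ ha
      rw [coeff_monomial, if_neg]
      intro h
      exact ha (hτ (congrArg Subtype.val (Finsupp.single_left_injective one_ne_zero h)))
    · simp

end val

/-- clearing denominators with constants -/
theorem mas3_clear {R L : Type*} [CommRing R] [IsDomain R] [UniqueFactorizationMonoid R] [Field L]
    [Algebra R L] [IsFractionRing R L] (κ : Subfield L)
    (hκ : ∀ c ∈ κ, ∃ p q : R, algebraMap R L q ∈ κ ∧ c = algebraMap R L p / algebraMap R L q)
    {a : L} (ha : ∀ V : ValuationSubring L, Disc V → (∀ r, algebraMap R L r ∈ V) →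
      (∀ c ∈ κ, c ∈ V) → a ∈ V) :
    ∃ c ∈ κ, c ≠ 0 ∧ c ∈ (algebraMap R L).range ∧ c * a ∈ (algebraMap R L).range := by
  obtain ⟨p, q, hq, rfl⟩ := IsFractionRing.div_surjective (A := R) a
  replace hq := nonZeroDivisors.ne_zero hq
  have inj := IsFractionRing.injective R L
  induction q using UniqueFactorizationMonoid.induction_on_prime generalizing p with
  | h₁ => exact (hq rfl).elim
  | h₂ q hu =>
    refine ⟨1, κ.one_mem, one_ne_zero, one_mem _, p * ↑hu.unit⁻¹, ?_⟩
    have : algebraMap R L q ≠ 0 := (map_ne_zero_iff _ inj).2 hq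
    rw [one_mul, eq_div_iff this, ← map_mul, mul_assoc, hu.val_inv_mul, mul_one]
  | h₃ q π hq0 hπ ih =>
    have hπ0 : algebraMap R L π ≠ 0 := (map_ne_zero_iff _ inj).2 hπ.ne_zero
    have hq1 : algebraMap R L q ≠ 0 := (map_ne_zero_iff _ inj).2 hq0
    by_cases h : ∃ t : R, algebraMap R L (π * t) ∈ κ ∧ t ≠ 0
    · obtain ⟨t, ht, ht0⟩ := h
      have e : algebraMap R L (t * p) / algebraMap R L q =
          algebraMap R L (π * t) * (algebraMap R L p / algebraMap R L (π * q)) := by
        simp only [map_mul]; field_simp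
      obtain ⟨c, hc, hc0, hc1, hc'⟩ := ih (t * p) (fun V h1 h2 h3 => by
        rw [e]; exact mul_mem (h2 _) (ha V h1 h2 h3)) hq0
      refine ⟨c * algebraMap R L (π * t), κ.mul_mem hc ht, mul_ne_zero hc0
        ((map_ne_zero_iff _ inj).2 (mul_ne_zero hπ.ne_zero ht0)), mul_mem hc1 ⟨_, rfl⟩, ?_⟩
      rwa [mul_assoc, ← e]
    · obtain ⟨V, hV, -, hV'⟩ := exists_disc_prime (L := L) hπ
      have h1 := ha V hV (fun r => (hV' r).1) fun c hc => by
        obtain ⟨p', q', hq', rfl⟩ := hκ c hc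
        by_cases h0 : q' = 0
        · simp [h0]
        have : V.valuation (algebraMap R L q') = 1 := by
          refine le_antisymm ((V.valuation_le_one_iff _).2 (hV' _).1) (not_lt.1 fun hlt => ?_)
          obtain ⟨t, rfl⟩ := (hV' _).2.1 hlt
          exact h ⟨t, hq', right_ne_zero_of_mul h0⟩
        rw [← V.valuation_le_one_iff, map_div₀, this, div_one, V.valuation_le_one_iff]
        exact (hV' _).1
      have h2 : π ∣ p := by
        refine (hV' p).2.1 ?_
        have e : algebraMap R L p =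
            algebraMap R L p / algebraMap R L (π * q) * algebraMap R L (π * q) := by
          simp only [map_mul]; field_simp
        rw [e, map_mul, mul_comm]
        exact mul_lt_one_of_lt_of_le ((hV' _).2.2 (dvd_mul_right _ _))
          ((V.valuation_le_one_iff _).2 h1)
      obtain ⟨p, rfl⟩ := h2
      have e : algebraMap R L (π * p) / algebraMap R L (π * q) =
          algebraMap R L p / algebraMap R L q := by
        simp only [map_mul]; field_simp
      rw [e] at ha ⊢
      exact ih p ha hq0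

theorem mas3_common {L ι : Type*} [Field L] [Fintype ι] (κ : Subfield L) (A : Subring L)
    {w : ι → L} (h : ∀ a, ∃ c ∈ κ, c ≠ 0 ∧ c ∈ A ∧ c * w a ∈ A) :
    ∃ c ∈ κ, c ≠ 0 ∧ ∀ a, c * w a ∈ A := by
  classical
  choose c h1 h2 h3 h4 using h
  refine ⟨∏ a, c a, prod_mem fun a _ => h1 a, Finset.prod_ne_zero_iff.2 fun a _ => h2 a,
    fun a => ?_⟩
  rw [← Finset.prod_erase_mul _ _ (Finset.mem_univ a), mul_assoc]
  exact mul_mem (prod_mem fun b _ => h3 b) (h4 a)

theorem mas3_poly {K L B ι : Type*} [Field K] [Field L] [Algebra K L] [Fintype ι] {u : B → L}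
    (hu : AlgebraicIndependent K u) (htop : IntermediateField.adjoin K (Set.range u) = ⊤)
    (κ : Subfield L)
    (hκ : ∀ c ∈ κ, ∃ p q : MvPolynomial B K, aeval u q ∈ κ ∧ c = aeval u p / aeval u q)
    {w : ι → L} (hw : ∀ V : ValuationSubring L, Disc V → (∀ c, algebraMap K L c ∈ V) →
      (∀ c ∈ κ, c ∈ V) → ∀ a, w a ∈ V) :
    ∃ c ∈ κ, c ≠ 0 ∧ ∃ P : ι → MvPolynomial B K, ∀ a, aeval u (P a) = c * w a := by
  let _ : Algebra (MvPolynomial B K) L := (aeval u : MvPolynomial B K →ₐ[K] L).toRingHom.toAlgebra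
  have e : ∀ p : MvPolynomial B K, algebraMap _ L p = aeval u p := fun _ => rfl
  have : FaithfulSMul (MvPolynomial B K) L :=
    (faithfulSMul_iff_algebraMap_injective _ _).2 hu
  have : IsFractionRing (MvPolynomial B K) L := IsFractionRing.of_field _ _ fun a =>
    (IntermediateField.mem_adjoin_range_iff K u a).1 (htop ▸ IntermediateField.mem_top)
  obtain ⟨c, h1, h2, h3⟩ := mas3_common κ (algebraMap (MvPolynomial B K) L).range fun a =>
    mas3_clear κ hκ (a := w a) fun V hV hR hc => hw V hV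
      (fun c => by simpa [e] using hR (C c)) hc a
  choose P hP using h3
  exact ⟨c, h1, h2, P, hP⟩

theorem mas3_den {K L B ι : Type*} [Field K] [Field L] [Algebra K L] [Fintype ι] {s : B → L}
    {w : ι → L} (hw : ∀ a, w a ∈ IntermediateField.adjoin K (Set.range s)) :
    ∃ c : L, c ≠ 0 ∧ ∀ a, ∃ g : MvPolynomial B K, c * w a = aeval s g := by
  obtain ⟨c, -, h2, h3⟩ := mas3_common ⊤ (aeval s : MvPolynomial B K →ₐ[K] L).range.toSubring
    (w := w) fun a => by
      obtain ⟨p, q, e⟩ := (IntermediateField.mem_adjoin_range_iff K s _).1 (hw a)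
      by_cases h : aeval s q = 0
      · exact ⟨1, trivial, one_ne_zero, one_mem _, by simp [e, h]⟩
      · exact ⟨_, trivial, h, ⟨q, rfl⟩, ⟨p, by rw [e, mul_div_cancel₀ _ h]; rfl⟩⟩
  exact ⟨c, h2, fun a => (h3 a).imp fun g hg => hg.symm⟩

end Pool.Agent.Lib.MP_7fcda1_ag
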