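import Pool.Agent.Lib.MP_7fcda1_ag.Mas1
import Pool.Agent.Lib.MP_7fcda1_ag.Mas3a

open scoped IntermediateField Polynomial WithZero
open Module MvPolynomial

noncomputable section

universe u

namespace Pool.Agent.Lib.MP_7fcda1_ag

variable {k F 𝕂 : Type u} [Field k] [IsAlgClosed k] [Field F] [Field 𝕂] [Algebra k F] [Algebra k 𝕂]
  [Algebra F 𝕂] [IsScalarTower k F 𝕂] {n m : ℕ} {x : Fin (n + 2) → F} {z : MZ n m → 𝕂}
  {V : ValuationSubring 𝕂}

omit [IsAlgClosed k] in
theorem mas3_rk (hx : Model k x) : rk k (Set.univ : Set F) ≤ n + 1 := by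
  rw [hx.rk_univ]; simp

omit [IsAlgClosed k] in
theorem mas3_mu_ne (hx : Model k x) (α : Option (MA n m)) : mu x α ≠ 0 := by
  cases α with
  | none => exact one_ne_zero
  | some β => exact pow_ne_zero _ (hx.ne_zero _)

omit [IsAlgClosed k] in
theorem mas3_min (hx : Model k x) (V : ValuationSubring 𝕂) : ∃ α₀ : Option (MA n m),
    ∀ α : Option (MA n m), algebraMap F 𝕂 (mu x α / mu x α₀) ∈ V := by
  obtain ⟨j, -, hj⟩ := exists_min_coord V (w := fun α : Option (MA n m) => algebraMap F 𝕂 (mu x α))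
    (fun h => by simpa [mu] using congrFun h none)
  exact ⟨j, fun α => by rw [map_div₀]; exact hj α⟩

theorem mas3_sum (i : Fin n) (α₀ : Option (MA n m)) :
    ∑ α, sC x z i α * algebraMap F 𝕂 (mu x α / mu x α₀) = 0 := by
  simp only [map_div₀, ← mul_div_assoc, ← Finset.sum_div, sum_sC, zero_div]

omit [IsAlgClosed k] [Algebra k 𝕂] [IsScalarTower k F 𝕂] in
theorem mas3_sC (hx : Model k x) (i : Fin n) (α₀ : Option (MA n m)) :
    sC x z i α₀ = -∑ α : {α // α ≠ α₀}, sC x z i α.1 * algebraMap F 𝕂 (mu x α.1 / mu x α₀) := by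
  classical
  have h := mas3_sum (x := x) (z := z) i α₀
  rw [Fintype.sum_eq_add_sum_subtype_ne _ α₀, div_self (mas3_mu_ne hx α₀), map_one, mul_one] at h
  exact eq_neg_of_add_eq_zero_left h

omit [IsAlgClosed k] [IsScalarTower k F 𝕂] [Algebra k F] in
theorem mas3_mem {Φ : Type*} {f : Φ → 𝕂} (hf : ResInd k V f) (φ : Φ) : f φ ∈ V :=
  hf.mem _ (IntermediateField.subset_adjoin _ _ ⟨_, rfl⟩)

omit [IsAlgClosed k] [IsScalarTower k F 𝕂] [Algebra k F] in
theorem mas3_unit {Φ : Type*} {f : Φ → 𝕂} (hf : ResInd k V f) (φ : Φ) : V.valuation (f φ) = 1 := by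
  simpa using hf (X φ) (X_ne_zero φ)

theorem mas3_sum_U (i : Fin n) (α₀ : Option (MA n m)) :
    ∑ α, fU x z i (.inl (i, α)) * algebraMap F 𝕂 (mu x α / mu x α₀) =
      tC z i * ∑ α, bC z i α * algebraMap F 𝕂 (mu x α / mu x α₀) := by
  simp only [fU, if_true, add_mul, Finset.sum_add_distrib, mas3_sum, zero_add, Finset.mul_sum,
    mul_assoc]

/-- `t i` is a unit at the places that are nontrivial on `F` -/
theorem Master.t_unit (h : Master k x z) (hV : Adm k x z V) (hF : V.comap (algebraMap F 𝕂) ≠ ⊤)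
    (i : Fin n) : V.valuation (tC z i) = 1 := by
  classical
  rcases hV with hV | ⟨j, hV⟩
  · exact mas3_unit hV (.inr (.inr i))
  by_cases hij : i = j
  swap
  · simpa [fU, hij] using mas3_unit hV (.inr (.inr i))
  subst hij
  obtain ⟨α₀, h₀⟩ := mas3_min (m := m) h.model V
  let r : Fin n → MF n m := fun l => if l = i then .inr (.inr i) else .inl (l, α₀)
  have hr : Function.Injective r := by
    intro l l' e
    by_cases h1 : l = i <;> by_cases h2 : l' = i <;> simp_all [r]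
  have hfC : ∀ l, fU x z i (r l) ∈ Algebra.adjoin k (algebraMap F 𝕂 '' {c | algebraMap F 𝕂 c ∈ V} ∪
      fU x z i '' (Set.range r)ᶜ) := by
    intro l
    by_cases hl : l = i
    · have := mas3_mem hV (.inr (.inr i))
      simp only [fU, if_true] at this
      simp only [r, hl, if_true, fU]
      exact Algebra.subset_adjoin (Or.inl ⟨_, this, rfl⟩)
    · simp only [r, hl, if_false, fU]
      rw [mas3_sC h.model l α₀]
      refine neg_mem (sum_mem fun α _ => mul_mem (Algebra.subset_adjoin (Or.inr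
        ⟨.inl (l, α.1), ?_, by simp [fU, hl]⟩)) (Algebra.subset_adjoin (Or.inl ⟨_, h₀ _, rfl⟩)))
      rintro ⟨l', e⟩
      by_cases h2 : l' = i
      · simp [r, h2] at e
      · simp only [r, h2, if_false, Sum.inl.injEq, Prod.mk.injEq] at e
        exact α.2 e.2.symm
  have h1 := mas3_lin (mas3_rk h.model) hF hV hr hfC (τ := fun α => .inl (i, α))
    (fun a b e => by simpa using e) (fun α => by
      rintro ⟨l, e⟩
      by_cases h2 : l = i <;> simp_all [r]) h₀ (div_self (mas3_mu_ne h.model α₀))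
  have h2 := mas3_lin (mas3_rk h.model) hF hV hr hfC (τ := fun α => .inr (.inl (i, α)))
    (fun a b e => by simpa using e) (fun α => by
      rintro ⟨l, e⟩
      by_cases h2 : l = i <;> simp_all [r]) h₀ (div_self (mas3_mu_ne h.model α₀))
  rw [mas3_sum_U, map_mul] at h1
  simp only [fU] at h2
  rwa [h2, mul_one] at h1

omit [IsAlgClosed k] [IsScalarTower k F 𝕂] [Algebra k F] in
theorem mas3_fC_mem (hV : Adm k x z V) (ht : ∀ i, tC z i ∈ V) (φ : MF n m) : fC x z φ ∈ V := by
  rcases hV with hV | ⟨j, hV⟩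
  · exact mas3_mem hV φ
  rcases φ with β | β | l
  · have h1 := mas3_mem hV (.inl β)
    have h2 := mas3_mem hV (.inr (.inl β))
    simp only [fU] at h1 h2
    split_ifs at h1 with hj
    · subst hj
      simpa [fC] using sub_mem h1 (mul_mem (ht β.1) h2)
    · exact h1
  · exact mas3_mem hV (.inr (.inl β))
  · exact ht l

omit [IsAlgClosed k] [IsScalarTower k F 𝕂] [Algebra k F] in
theorem mas3_adm (hV : Adm k x z V) : ∃ f : MF n m → 𝕂, ResInd k V f ∧
    ∀ S : Subring 𝕂, (∀ φ, fC x z φ ∈ S) →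
      (algebraMap F 𝕂 (x 1) ∈ V → algebraMap F 𝕂 (x 1) ∈ S) → ∀ φ, f φ ∈ S := by
  rcases hV with hV | ⟨j, hV⟩
  · exact ⟨_, hV, fun S h _ => h⟩
  refine ⟨_, hV, fun S h h' φ => ?_⟩
  rcases φ with β | β | l
  · simp only [fU]
    split_ifs with hj
    · exact add_mem (h (.inl (j, β.2))) (mul_mem (h (.inr (.inr j))) (h (.inr (.inl (j, β.2)))))
    · exact h (.inl β)
  · exact h (.inr (.inl β))
  · simp only [fU]
    split_ifs with hj
    · exact h' (by simpa [fU] using mas3_mem hV (.inr (.inr j)))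
    · exact h (.inr (.inr l))

theorem mas3_card (α₀ : Option (MA n m)) : n + Fintype.card
    ((Fin n × {α // α ≠ α₀}) ⊕ (Fin n × Option (MA n m)) ⊕ Fin n) ≤ Fintype.card (MF n m) := by
  classical
  have : Fintype.card {α // α ≠ α₀} = Fintype.card (MA n m) := by
    simp [Fintype.card_subtype_compl]
  rw [← card_MF]
  simp only [Fintype.card_sum, Fintype.card_prod (Fin n), this, le_refl]

/-- Gauss property in the chart coordinates: all `sC` except those with index `α₀` -/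
theorem Master.gauss_chart (h : Master k x z) (hV : Adm k x z V)
    (hF : V.comap (algebraMap F 𝕂) ≠ ⊤) {α₀ : Option (MA n m)}
    (h₀ : ∀ α : Option (MA n m), algebraMap F 𝕂 (mu x α / mu x α₀) ∈ V)
    (G : MvPolynomial ((Fin n × {α // α ≠ α₀}) ⊕ (Fin n × Option (MA n m)) ⊕ Fin n) F)
    (hG : ∀ j, algebraMap F 𝕂 (G.coeff j) ∈ V)
    (hG' : ∃ j, V.valuation (algebraMap F 𝕂 (G.coeff j)) = 1) :
    V.valuation (MvPolynomial.aeval
      (Sum.elim (fun β => sC x z β.1 β.2.1) fun φ => z (.inr φ)) G) = 1 := by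
  classical
  have hm := mas3_fC_mem hV fun i => (V.valuation_le_one_iff _).1 (h.t_unit hV hF i).le
  obtain ⟨f, hf, hf'⟩ := mas3_adm hV
  refine (gauss (mas3_rk h.model) hF ?_ hf (mas3_card α₀) (C := {c | algebraMap F 𝕂 c ∈ V})
    (fun _ h => h) (hf' (Algebra.adjoin k _).toSubring ?_ ?_)).1 G hG hG'
  · rintro (β | φ)
    · exact hm (.inl (β.1, β.2.1))
    · exact hm (.inr φ)
  · rintro (⟨l, α⟩ | φ)
    · by_cases hα : α = α₀
      · subst hα
        simp only [fC]
        rw [mas3_sC h.model l α]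
        exact neg_mem (sum_mem fun β _ => mul_mem (Algebra.subset_adjoin (Or.inr
          ⟨.inl (l, β), rfl⟩)) (Algebra.subset_adjoin (Or.inl ⟨_, h₀ _, rfl⟩)))
      · exact Algebra.subset_adjoin (Or.inr ⟨.inl (l, ⟨α, hα⟩), rfl⟩)
    · exact Algebra.subset_adjoin (Or.inr ⟨.inr φ, rfl⟩)
  · exact fun h1 => Algebra.subset_adjoin (Or.inl ⟨_, h1, rfl⟩)

omit [IsAlgClosed k] [IsScalarTower k F 𝕂] [Algebra k F] in
theorem Adm.const (hV : Adm k x z V) (c : k) : algebraMap k 𝕂 c ∈ V := by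
  rcases hV with hV | ⟨_, hV⟩ <;> exact hV.const c

theorem Master.spec_ge (h : Master k x z) (hV : Adm k x z V) (hD : Disc V)
    (hF : V.comap (algebraMap F 𝕂) ≠ ⊤) {η : ℤ} (hη : ∀ a, Ge V (-η) (algebraMap F 𝕂 (x a)))
    {σ : Fin n × MA n m → F} (hσ : ∀ β, Sec k x 1 (σ β))
    (hσ' : ∀ i, Sec k x 1 (∑ β, σ (i, β) * mu x (some β))) {g : MvPolynomial (Fin n × MA n m) F}
    {N : ℤ} (hg : Ge V N (MvPolynomial.aeval (sF z) g)) :
    Ge V (N - g.totalDegree * η) (algebraMap F 𝕂 (MvPolynomial.eval σ g)) := by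
  classical
  obtain ⟨α₀, h₀⟩ := mas3_min (m := m) h.model V
  let θ : Fin n × MA n m →
      MvPolynomial ((Fin n × {α // α ≠ α₀}) ⊕ (Fin n × Option (MA n m)) ⊕ Fin n) F :=
    fun β => if hβ : some β.2 = α₀ then
      -∑ α : {α // α ≠ α₀}, X (.inl (β.1, α)) * C (mu x α.1 / mu x α₀)
      else X (.inl (β.1, ⟨some β.2, hβ⟩))
  have hθ : ∀ β, (θ β).totalDegree ≤ 1 := by
    intro β
    simp only [θ]
    split_ifs
    · rw [totalDegree_neg]
      refine totalDegree_finsetSum_le fun α _ => (totalDegree_mul _ _).trans ?_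
      simp
    · simp
  have h1 : aeval (Sum.elim (fun β : Fin n × {α // α ≠ α₀} => sC x z β.1 β.2.1)
      fun φ => z (.inr φ)) (aeval θ g) = aeval (sF z) g := by
    rw [comp_aeval_apply]
    congr 2
    funext β
    simp only [θ]
    split_ifs with hβ
    · have := mas3_sC (z := z) h.model β.1 α₀
      simp only [map_neg, map_sum, map_mul, aeval_X, aeval_C, Sum.elim_inl]
      rw [← this, ← hβ]
      rfl
    · simp [sC, sF]
  let z₀ : MZ n m → F := Sum.elim σ 0
  have h2 : eval (Sum.elim (fun β : Fin n × {α // α ≠ α₀} => sC x z₀ β.1 β.2.1) 0) (aeval θ g) =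
      eval σ g := by
    rw [← coe_aeval_eq_eval, ← coe_aeval_eq_eval, RingHom.coe_coe, RingHom.coe_coe,
      comp_aeval_apply]
    congr 2
    funext β
    simp only [θ]
    split_ifs with hβ
    · have := mas3_sC (z := z₀) h.model β.1 α₀
      simp only [map_neg, map_sum, map_mul, aeval_X, aeval_C, Sum.elim_inl]
      rw [← this, ← hβ]
      rfl
    · simp [sC, z₀]
  have hk : ∀ c, algebraMap k F c ∈ V.comap (algebraMap F 𝕂) := fun c => by
    rw [ValuationSubring.mem_comap, ← IsScalarTower.algebraMap_apply]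
    exact hV.const c
  have hS : ∀ f, Sec k x 1 f → Ge V (-η) (algebraMap F 𝕂 f) := fun f hf => by
    simpa using Bd.ge h.model hD hη (hf.bd h.model hk)
  have hη0 : 0 ≤ η := by
    have := hη 0
    rw [h.model.zero, map_one, ge_iff one_ne_zero, ord_one] at this
    omega
  rw [← h2]
  refine mas3_eval_ge hη0 (ge_coeff hD (h.gauss_chart hV hF h₀) (by rw [h1]; exact hg)) ?_
    (mas3_totalDegree_aeval hθ g)
  rintro (⟨l, (_ | β), _⟩ | φ)
  · simpa [sC, z₀] using (hS _ (hσ' l)).neg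
  · exact hS _ (hσ _)
  · simp

theorem Master.prim (h : Master k x z) (hV : Adm k x z V) (hF : V.comap (algebraMap F 𝕂) = ⊤)
    (ht : ∀ i, tC z i ∈ V) {I : Type*} {ω : I → MvPolynomial (Fin n × MA n m) F} (h₀ : ω ≠ 0)
    (hω : ∀ π, Prime π → ∃ a, ¬π ∣ ω a) :
    ∃ a, V.valuation (MvPolynomial.aeval (sF z) (ω a)) = 1 := by
  have hm := mas3_fC_mem hV ht
  obtain ⟨f, hf, hf'⟩ := mas3_adm hV
  refine mas3_prim (mas3_rk h.model) hF (z := z) ?_ hf card_MF.le
    (hf' (Algebra.adjoin F _).toSubring ?_ fun _ => Subalgebra.algebraMap_mem _ _)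
    Sum.inl_injective h₀ hω
  · rintro (β | φ)
    · exact hm (.inl (β.1, some β.2))
    · exact hm (.inr φ)
  · rintro (⟨l, _ | β⟩ | φ)
    · exact neg_mem (sum_mem fun β _ => mul_mem (Algebra.subset_adjoin ⟨_, rfl⟩)
        (Subalgebra.algebraMap_mem _ _))
    · exact Algebra.subset_adjoin ⟨_, rfl⟩
    · exact Algebra.subset_adjoin ⟨_, rfl⟩

end Pool.Agent.Lib.MP_7fcda1_ag
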