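import Pool.Agent.Lib.MP_7fcda1_ag.Mas3b

open scoped IntermediateField Polynomial WithZero
open Module MvPolynomial

noncomputable section

universe u

namespace Pool.Agent.Lib.MP_7fcda1_ag

theorem mas3_scale {F L A : Type*} [Field F] [Field L] [Algebra F L] {V : ValuationSubring L}
    {τ : L} (hτ : V.valuation τ < 1) {w : A → ℕ} {s u₀ : A → L} (h₀ : ResInd F V u₀)
    (hu : ∀ a, V.valuation (τ ^ w a * s a - u₀ a) < 1) {g : MvPolynomial A F} (hg : g ≠ 0) :
    V.valuation (τ ^ weightedTotalDegree w g * aeval s g) = 1 := by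
  classical
  set D := weightedTotalDegree w g with hD
  have hu₀ : ∀ a, u₀ a ∈ V := fun a => h₀.mem _ (IntermediateField.subset_adjoin _ _ ⟨_, rfl⟩)
  have hu₁ : ∀ a, τ ^ w a * s a ∈ V := fun a => by
    simpa using add_mem ((V.valuation_le_one_iff _).1 (hu a).le) (hu₀ a)
  have h1 : weightedHomogeneousComponent w D g ≠ 0 := by
    obtain ⟨d, hd, hd'⟩ := Finset.exists_mem_eq_sup g.support (support_nonempty.2 hg)
      (Finsupp.weight w)
    refine ne_zero_iff.2 ⟨d, ?_⟩
    rw [coeff_weightedHomogeneousComponent, if_pos (show _ = D from hd'.symm)]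
    exact mem_support_iff.1 hd
  have h2 : ∀ d ∈ g.support, τ ^ D * aeval s (monomial d (g.coeff d)) =
      τ ^ (D - Finsupp.weight w d) * aeval (fun a => τ ^ w a * s a) (monomial d (g.coeff d)) := by
    intro d hd
    have : _ ≤ D := le_weightedTotalDegree w hd
    conv_lhs => rw [← Nat.sub_add_cancel this, pow_add]
    simp only [aeval_monomial, Finsupp.prod, mul_pow, Finset.prod_mul_distrib, ← pow_mul,
      Finset.prod_pow_eq_pow_sum, Finsupp.weight_apply, Finsupp.sum, smul_eq_mul, mul_comm (w _)]
    ring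
  have h3 : V.valuation (τ ^ D * aeval s g -
      aeval (fun a => τ ^ w a * s a) (weightedHomogeneousComponent w D g)) < 1 := by
    conv_lhs => rw [weightedHomogeneousComponent_apply, Finset.sum_filter]; enter [2, 1, 2, 2]
                rw [g.as_sum]
    rw [map_sum, map_sum, Finset.mul_sum, ← Finset.sum_sub_distrib]
    refine Valuation.map_sum_lt _ one_ne_zero fun d hd => ?_
    rw [h2 d hd]
    split_ifs with hw
    · simp [hw]
    · have := le_weightedTotalDegree w hd
      rw [map_zero, sub_zero, map_mul, map_pow]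
      exact mul_lt_one_of_lt_of_le (pow_lt_one₀ zero_le hτ (by omega))
        ((V.valuation_le_one_iff _).2 (aeval_mem h₀.const hu₁ _))
  have h4 := Valuation.map_add_lt _ h3 (mas3_aeval_sub h₀.const hu₁ hu₀ hu
    (weightedHomogeneousComponent w D g))
  rw [sub_add_sub_cancel, ← h₀ _ h1] at h4
  rw [← h₀ _ h1]
  exact Valuation.map_eq_of_sub_lt _ h4

variable {k F 𝕂 : Type u} [Field k] [IsAlgClosed k] [Field F] [Field 𝕂] [Algebra k F] [Algebra k 𝕂]
  [Algebra F 𝕂] [IsScalarTower k F 𝕂] {n m : ℕ} {x : Fin (n + 2) → F} {z : MZ n m → 𝕂}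
  {V : ValuationSubring 𝕂}

theorem mas3_sum_U' (i : Fin n) : ∑ α, fU x z i (.inl (i, α)) * algebraMap F 𝕂 (mu x α) =
    tC z i * ∑ α, bC z i α * algebraMap F 𝕂 (mu x α) := by
  simpa [mu] using mas3_sum_U (x := x) (z := z) i none

theorem mas3_sC_none (l : Fin n) {S : Subalgebra F 𝕂} (h : ∀ β, sC x z l (some β) ∈ S) :
    sC x z l none ∈ S :=
  neg_mem (sum_mem fun β _ => mul_mem (h β) (S.algebraMap_mem _))

theorem Master.pole (h : Master k x z) {i : Fin n} (hV : ResInd k V (fU x z i)) (hD : Disc V)
    (ht : tC z i ∉ V) {g : MvPolynomial (Fin n × MA n m) F} (hg : g ≠ 0) :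
    ord V (MvPolynomial.aeval (sF z) g) = bdeg i g * ord V (tC z i) := by
  classical
  have hF : V.comap (algebraMap F 𝕂) = ⊤ := by
    by_contra hF
    exact ht ((V.valuation_le_one_iff _).1 (h.t_unit (Or.inr ⟨i, hV⟩) hF i).le)
  have ht0 : tC z i ≠ 0 := fun e => ht (e ▸ V.zero_mem)
  have hτ : V.valuation (tC z i)⁻¹ < 1 := by
    rw [map_inv₀]
    exact inv_lt_one_of_one_lt₀ (not_le.1 fun e => ht ((V.valuation_le_one_iff _).1 e))
  have hb : ∀ l α, bC z l α ∈ V := fun l α => mas3_mem hV (.inr (.inl (l, α)))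
  let y : MZ n m → 𝕂 := Sum.elim (fun β => if β.1 = i then -bC z i (some β.2) else sF z β)
    (Sum.elim (fun β => if β.1 = i then fU x z i (.inl β) else bC z β.1 β.2)
      fun l => if l = i then (tC z i)⁻¹ else tC z l)
  have hy : ∀ j, y j ∈ V := by
    rintro (β | β | l) <;> simp only [y, Sum.elim_inl, Sum.elim_inr] <;> split_ifs with e
    · exact neg_mem (hb _ _)
    · simpa [fU, e, sC, sF] using mas3_mem hV (.inl (β.1, some β.2))
    · exact mas3_mem hV _
    · exact hb _ _
    · exact (V.valuation_le_one_iff _).1 hτ.le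
    · simpa [fU, e] using mas3_mem hV (.inr (.inr l))
  have hy' : ∀ j, y j ∈ Algebra.adjoin F (Set.range y) := fun j => Algebra.subset_adjoin ⟨j, rfl⟩
  have H : ResInd F V (y ∘ Sum.inl) := by
    refine mas3_resInd (mas3_rk h.model) hF hy hV card_MF.le ?_ (j₀ := .inr (.inr i))
      (by simpa [y] using hτ) Sum.inl_injective (by simp)
    rintro (⟨l, α⟩ | ⟨l, α⟩ | l)
    · by_cases e : l = i
      · simpa [y, e] using hy' (.inr (.inl (l, α)))
      · have : ∀ β, sC x z l (some β) ∈ Algebra.adjoin F (Set.range y) := fun β => by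
          simpa [y, e, sC, sF] using hy' (.inl (l, β))
        simp only [fU, e, if_false]
        cases α
        exacts [mas3_sC_none l this, this _]
    · by_cases e : l = i
      swap
      · simpa [y, e, fU] using hy' (.inr (.inl (l, α)))
      subst e
      have : ∀ β, bC z l (some β) ∈ Algebra.adjoin F (Set.range y) := fun β => by
        simpa [y] using neg_mem (hy' (.inl (l, β)))
      cases α
      swap
      · exact this _
      have e := mas3_sum_U' (x := x) (z := z) l
      rw [← inv_mul_eq_iff_eq_mul₀ ht0, Fintype.sum_option fun α => bC z l α * _,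
        ← sub_eq_iff_eq_add] at e
      simp only [mu, map_one, mul_one] at e
      simp only [fU]
      rw [← e]
      refine sub_mem (mul_mem ?_ (sum_mem fun α _ => mul_mem ?_ (Subalgebra.algebraMap_mem _ _)))
        (sum_mem fun β _ => mul_mem (this β) (Subalgebra.algebraMap_mem _ _))
      · simpa [y] using hy' (.inr (.inr l))
      · simpa [y] using hy' (.inr (.inl (l, α)))
    · simp only [fU]
      split_ifs with e
      · exact Subalgebra.algebraMap_mem _ _
      · simpa [y, e] using hy' (.inr (.inr l))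
  have H' := mas3_scale hτ (w := fun β => if β.1 = i then 1 else 0) (s := sF z) H (fun β => by
    by_cases e : β.1 = i
    · have e' : (tC z i)⁻¹ * sF z β + bC z i (some β.2) =
          (tC z i)⁻¹ * fU x z i (.inl (i, some β.2)) := by
        simp only [fU, if_true, sC, sF, ← e]
        field_simp [e ▸ ht0]
      simp only [y, e, if_true, pow_one, Function.comp, Sum.elim_inl, sub_neg_eq_add, e', map_mul,
        mas3_unit hV, mul_one, hτ]
    · simp [y, e]) hg
  obtain ⟨h1, h2⟩ := (val_eq_one_iff (Or.inl hD)).1 H'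
  rw [ord_mul (left_ne_zero_of_mul h1) (right_ne_zero_of_mul h1), ord_pow, ord_inv] at h2
  unfold bdeg
  linarith

/-- `b(x)` and `s'(x)` do not both vanish at a place that is trivial on `F` -/
theorem mas3_not_both (h : Master k x z) {i : Fin n} (hV : ResInd k V (fU x z i))
    (hF : V.comap (algebraMap F 𝕂) = ⊤)
    (hb : V.valuation (∑ α, bC z i α * algebraMap F 𝕂 (mu x α)) < 1) :
    V.valuation (tC z i * ∑ α, bC z i α * algebraMap F 𝕂 (mu x α)) = 1 := by
  classical
  rw [← mas3_sum_U']
  let y : MZ n m → 𝕂 := Sum.elim (fun β => fU x z i (.inl (β.1, some β.2)))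
    (Sum.elim (fun β => if β = (i, none) then ∑ α, bC z i α * algebraMap F 𝕂 (mu x α)
      else bC z β.1 β.2)
      fun l => if l = i then ∑ α, fU x z i (.inl (i, α)) * algebraMap F 𝕂 (mu x α) else tC z l)
  have hy : ∀ j, y j ∈ V := by
    rintro (β | β | l) <;> simp only [y, Sum.elim_inl, Sum.elim_inr]
    · exact mas3_mem hV _
    · split_ifs
      · exact (V.valuation_le_one_iff _).1 hb.le
      · exact mas3_mem hV (.inr (.inl β))
    · split_ifs with e
      · exact sum_mem fun α _ => mul_mem (mas3_mem hV _) (mas3_const hF _)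
      · simpa [fU, e] using mas3_mem hV (.inr (.inr l))
  have hy' : ∀ j, y j ∈ Algebra.adjoin F (Set.range y) := fun j => Algebra.subset_adjoin ⟨j, rfl⟩
  have key : ∀ c : Option (MA n m) → 𝕂, (∀ β, c (some β) ∈ Algebra.adjoin F (Set.range y)) →
      ∑ α, c α * algebraMap F 𝕂 (mu x α) ∈ Algebra.adjoin F (Set.range y) →
      c none ∈ Algebra.adjoin F (Set.range y) := fun c h1 h2 => by
    rw [Fintype.sum_option] at h2
    simpa [mu] using sub_mem h2 (sum_mem fun β (_ : β ∈ Finset.univ) =>
      mul_mem (h1 β) (Subalgebra.algebraMap_mem _ (mu x (some β))))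
  have H : ResInd F V (y ∘ fun _ : Unit => .inr (.inr i)) := by
    refine mas3_resInd (mas3_rk h.model) hF hy hV card_MF.le ?_ (j₀ := .inr (.inl (i, none)))
      (by simpa [y] using hb) (fun _ _ _ => rfl) (by simp)
    rintro (⟨l, _ | β⟩ | ⟨l, α⟩ | l)
    · refine key (fun α => fU x z i (.inl (l, α))) (fun β => hy' (.inl (l, β))) ?_
      by_cases e : l = i
      · simpa [y, e] using hy' (.inr (.inr l))
      · simp only [fU, e, if_false, sum_sC, zero_mem]
    · exact hy' (.inl (l, β))
    · by_cases e : (l, α) = (i, none)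
      · obtain ⟨rfl, rfl⟩ := Prod.mk.inj e
        refine key (bC z l) (fun β => ?_) ?_
        · simpa [y] using hy' (.inr (.inl (l, some β)))
        · simpa [y] using hy' (.inr (.inl (l, none)))
      · simpa only [y, e, fU, if_false, Sum.elim_inl, Sum.elim_inr] using hy' (.inr (.inl (l, α)))
    · simp only [fU]
      split_ifs with e
      · exact Subalgebra.algebraMap_mem _ _
      · simpa [y, e] using hy' (.inr (.inr l))
  simpa [y] using H (X ()) (X_ne_zero _)

theorem Master.deg_poles_t (h : Master k x z) (i : Fin n) [IsFF (κU k x z i) 𝕂] :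
    degD (poles (κU k x z i) (tC z i)) = m * degD (hdiv (𝕂 := 𝕂) (κU k x z i) x) := by
  classical
  have key : div (κU k x z i) (∑ α, bC z i α * algebraMap F 𝕂 (mu x α)) =
      poles (κU k x z i) (tC z i) - (m : ℤ) • hdiv (κU k x z i) x := by
    ext v
    have hV := h.resInd_U i v
    have hD : Disc v.O ∨ v.O = ⊤ := Or.inl v.disc
    rw [Finsupp.sub_apply, Finsupp.smul_apply, div_apply, poles_apply, smul_eq_mul]
    set b := ∑ α, bC z i α * algebraMap F 𝕂 (mu x α) with hb
    obtain ⟨a, ha⟩ := hdiv_ex h.model v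
    have hne : ∀ α : Option (MA n m), algebraMap F 𝕂 (mu x α) ≠ 0 := fun α => by
      simpa using mas3_mu_ne h.model α
    by_cases hF : v.O.comap (algebraMap F 𝕂) = ⊤
    · rw [ord_of_comap_top hF] at ha
      rw [show hdiv (κU k x z i) x v = 0 by omega, mul_zero, sub_zero]
      have hm : b ∈ v.O := sum_mem fun α _ =>
        mul_mem (mas3_mem hV (.inr (.inl (i, α)))) (mas3_const hF _)
      have hm' : tC z i * b ∈ v.O := by
        rw [hb, ← mas3_sum_U']
        exact sum_mem fun α _ => mul_mem (mas3_mem hV _) (mas3_const hF _)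
      rcases ((v.O.valuation_le_one_iff _).2 hm).lt_or_eq with h1 | h1
      · obtain ⟨h2, h3⟩ : tC z i * b ≠ 0 ∧ ord v.O (tC z i * b) = 0 :=
          (val_eq_one_iff hD).1 (mas3_not_both h hV hF h1)
        have h4 := (ge_iff (right_ne_zero_of_mul h2)).1 ((val_lt_one_iff hD).1 h1)
        rw [ord_mul (left_ne_zero_of_mul h2) (right_ne_zero_of_mul h2)] at h3
        omega
      · obtain ⟨h2, h3⟩ := (val_eq_one_iff hD).1 h1
        by_cases ht : tC z i = 0
        · simp [ht, h3]
        have h4 := (ge_iff (mul_ne_zero ht h2)).1 ((mem_iff_ge hD).1 hm')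
        rw [ord_mul ht h2] at h4
        omega
    · have h0 : 0 ≤ hdiv (κU k x z i) x v := hdiv_nonneg h.model v
      obtain ⟨α₀, hα₀⟩ : ∃ α₀ : Option (MA n m),
          ord v.O (algebraMap F 𝕂 (mu x α₀)) = -(m * hdiv (κU k x z i) x v) := by
        cases a using Fin.cases with
        | zero =>
          rw [h.model.zero, map_one, ord_one] at ha
          exact ⟨none, by simp [mu, show hdiv (κU k x z i) x v = 0 by omega]⟩
        | succ a =>
          refine ⟨some (a, ⟨m - 1, by have := h.pos; omega⟩), ?_⟩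
          have := h.pos
          simp only [mu, map_pow, ord_pow, ha, Nat.sub_add_cancel this, mul_neg]
      have h₀ : ∀ α : Option (MA n m), algebraMap F 𝕂 (mu x α / mu x α₀) ∈ v.O := fun α => by
        rw [mem_iff_ge hD, map_div₀, div_eq_inv_mul, ge_mul_iff (inv_ne_zero (hne _)), ord_inv, hα₀]
        cases α with
        | none =>
          rw [ge_iff (hne _)]
          simp only [mu, map_one, ord_one]
          nlinarith
        | some β =>
          simp only [mu, map_pow]
          refine ((hdiv_ge h.model v β.1.succ).pow _).mono ?_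
          have : ((β.2.1 + 1 : ℕ) : ℤ) ≤ m := by exact_mod_cast β.2.2
          nlinarith
      have h1 := h.gauss_chart (Or.inr ⟨i, hV⟩) hF h₀
        (∑ α, monomial (Finsupp.single (.inr (.inl (i, α))) 1) (mu x α / mu x α₀)) (fun d => by
          rw [coeff_sum, map_sum]
          refine sum_mem fun a _ => ?_
          rw [coeff_monomial]
          split_ifs
          · exact h₀ a
          · simp) ⟨Finsupp.single (.inr (.inl (i, α₀))) 1, by
            rw [coeff_sum, Finset.sum_eq_single α₀]
            · simp [div_self (mas3_mu_ne h.model α₀)]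
            · intro a _ ha
              rw [coeff_monomial, if_neg]
              intro e
              exact ha (by simpa using Finsupp.single_left_injective one_ne_zero e)
            · simp⟩
      have e : b = algebraMap F 𝕂 (mu x α₀) *
          ∑ α, algebraMap F 𝕂 (mu x α / mu x α₀) * z (.inr (.inl (i, α))) := by
        rw [hb, Finset.mul_sum]
        refine Finset.sum_congr rfl fun α _ => ?_
        rw [map_div₀, bC]
        field_simp [hne α₀]
      simp only [map_sum, aeval_monomial, pow_zero, Finsupp.prod_single_index, pow_one,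
        Sum.elim_inr] at h1
      obtain ⟨h2, h3⟩ := (val_eq_one_iff hD).1 h1
      have h4 := ((val_eq_one_iff hD).1 (h.t_unit (Or.inr ⟨i, hV⟩) hF i)).2
      rw [e, ord_mul (hne _) h2, hα₀, h4, h3]
      simp
  have := congrArg degD key
  rw [degD_div, map_sub, map_smul, smul_eq_mul] at this
  linarith

/-- sections of degree one are dense -/
theorem exists_spec (hx : Model k x) {g : MvPolynomial (Fin n × MA n m) F} (hg : g ≠ 0) :
    ∃ σ : Fin n × MA n m → F, (∀ β, Sec k x 1 (σ β)) ∧
      (∀ i, Sec k x 1 (∑ β, σ (i, β) * mu x (some β))) ∧ MvPolynomial.eval σ g ≠ 0 := by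
  classical
  have : Infinite F := Infinite.of_injective _ (algebraMap k F).injective
  let θ : Fin n × MA n m → MvPolynomial (Fin n × Fin (n + 1) × ℕ) F := fun β =>
    X (β.1, β.2.1, β.2.2.1) - C (x β.2.1.succ) *
      if β.2.2.1 + 1 < m then X (β.1, β.2.1, β.2.2.1 + 1) else 0
  have hev : ∀ γ, eval γ (aeval θ g) = eval (fun β => eval γ (θ β)) g := fun γ =>
    comp_aeval_apply _ (aeval γ) g
  have h1 : aeval θ g ≠ 0 := by
    intro e
    refine hg (MvPolynomial.funext fun σ => ?_)
    let σ' : Fin n × Fin (n + 1) × ℕ → F := fun β =>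
      if hβ : β.2.2 < m then σ (β.1, β.2.1, ⟨β.2.2, hβ⟩) else 0
    have := hev fun β => ∑ r ∈ Finset.range m, x β.2.1.succ ^ r * σ' (β.1, β.2.1, β.2.2 + r)
    rw [e, map_zero] at this
    rw [map_zero, this]
    congr 2
    funext ⟨l, a, j⟩
    have h2 := Finset.sum_range_succ (fun r => x a.succ ^ r * σ' (l, a, j + r)) m
    rw [Finset.sum_range_succ'] at h2
    have h3 : σ' (l, a, j + m) = 0 := dif_neg (by simp)
    have h4 : σ' (l, a, j + 0) = σ (l, a, j) := dif_pos j.2
    rw [h3, h4, mul_zero, add_zero, pow_zero, one_mul] at h2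
    simp only [θ, map_sub, map_mul, eval_X, eval_C]
    rw [← h2]
    split_ifs with hj
    · simp only [eval_X, Finset.mul_sum, pow_succ', mul_assoc, add_assoc, add_comm 1]
      ring
    · rw [Finset.sum_eq_zero fun r _ => by
        rw [show σ' (l, a, j + (r + 1)) = 0 from dif_neg (by simp only; omega), mul_zero]]
      simp
  obtain ⟨γ, hγ, hγ'⟩ : ∃ γ ∈ Set.pi Set.univ fun _ => Set.range (algebraMap k F),
      eval γ (aeval θ g) ≠ 0 := by
    by_contra! hc
    exact h1 (funext_set _ (fun _ => Set.infinite_range_of_injective (algebraMap k F).injective)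
      (by simpa using hc))
  have hc : ∀ β V, IsPD k x V → Bd x V 0 (γ β) := fun β V hV => by
    obtain ⟨c, hc⟩ := hγ β trivial
    rw [bd_zero_iff, ← hc]
    exact hV.2.1 c
  have hx1 : ∀ a (V : ValuationSubring F), Bd x V 1 (x a) := fun a V =>
    ⟨a, by rw [pow_one, div_self (hx.ne_zero a)]; exact V.one_mem⟩
  have hneg : ∀ f (V : ValuationSubring F), Bd x V 1 f → Bd x V 1 (-f) := fun f V ⟨a, ha⟩ =>
    ⟨a, by rw [neg_div]; exact neg_mem ha⟩
  have h0 : ∀ V : ValuationSubring F, Bd x V 1 0 := fun V => ⟨0, by simp⟩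
  refine ⟨fun β => eval γ (θ β), fun β V hV => ?_, fun l V hV => ?_, by rwa [← hev]⟩
  · simp only [θ, map_sub, map_mul, eval_X, eval_C]
    rw [sub_eq_add_neg]
    refine ((hc _ V hV).mono hx zero_le_one).add hx (hneg _ _ ?_)
    split_ifs
    · rw [eval_X]
      exact (hx1 _ V).mul hx (hc _ V hV)
    · simpa using h0 V
  · rw [Fintype.sum_prod_type]
    refine Bd.sum hx fun a _ => ?_
    let c : ℕ → F := fun j => (if j < m then γ (l, a, j) else 0) * x a.succ ^ (j + 1)
    have e : ∑ j : Fin m, eval γ (θ (l, a, j)) * mu x (some (a, j)) = c 0 - c m := by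
      rw [← Finset.sum_range_sub', ← Fin.sum_univ_eq_sum_range fun j => c j - c (j + 1)]
      refine Finset.sum_congr rfl fun j _ => ?_
      simp only [θ, c, mu, j.2, if_true, map_sub, map_mul, eval_X, eval_C]
      split_ifs
      · rw [eval_X]; ring
      · simp
    rw [e]
    simp only [c, lt_irrefl, if_false, zero_mul, sub_zero, zero_add, pow_one]
    split_ifs
    · exact (hc _ V hV).mul hx (hx1 _ V)
    · simpa using h0 V

end Pool.Agent.Lib.MP_7fcda1_ag
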