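import Pool.Agent.Lib.MP_7fcda1_ag.Pdv1a

open scoped IntermediateField Polynomial WithZero
open Module

noncomputable section

universe u

namespace Pool.Agent.Lib.MP_7fcda1_ag


variable {k F : Type u} [Field k] [Field F] [Algebra k F] {n : ℕ} {x : Fin (n + 2) → F}
  {V V' : ValuationSubring F} {f g : F} {m m' : ℕ}

theorem Pdv1.fg (hx : Model k x) :
    ∃ S : Set F, S.Finite ∧ IntermediateField.adjoin k S = ⊤ := by
  have := hx.fin
  obtain ⟨s, hs⟩ := Module.Finite.fg_top (R := K0 k x) (M := F)
  refine ⟨Set.range x ∪ s, (Set.finite_range x).union s.finite_toSet, eq_top_iff.2 fun a _ => ?_⟩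
  have ha : a ∈ Submodule.span (K0 k x) (s : Set F) := by rw [hs]; trivial
  induction ha using Submodule.span_induction with
  | mem b hb => exact IntermediateField.subset_adjoin _ _ (Or.inr hb)
  | zero => exact zero_mem _
  | add b c _ _ hb hc => exact add_mem (hb trivial) (hc trivial)
  | smul c b _ hb =>
    exact mul_mem (IntermediateField.adjoin.mono _ _ _ Set.subset_union_left c.2) (hb trivial)

theorem Pdv1.isFF' (hx : Model k x) {κ : Type u} [Field κ] [Algebra k κ] [Algebra κ F]
    [IsScalarTower k κ F] (h1 : rk k (Set.univ : Set κ) = n) : IsFF κ F := by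
  have h2 : rk κ (Set.univ : Set F) = 1 := by
    have := rk_tower (k := k) (K := κ) (S := (Set.univ : Set F))
    rw [Set.union_univ, hx.rk_univ, h1, Nat.cast_add, Nat.cast_one] at this
    exact (WithTop.add_left_cancel (ENat.natCast_ne_top n) this).symm
  obtain ⟨t, -, ht⟩ := exists_indep (k := κ) (S := (Set.univ : Set F)) (j := 1) (by rw [h2]; simp)
  obtain ⟨S, hS, hS'⟩ := Pdv1.fg hx
  refine ⟨t 0, ht.transcendental 0, finite_of_rk hS (eq_top_iff.2 fun a _ => ?_) ?_ ?_⟩
  · have ha : a ∈ IntermediateField.adjoin k S := by rw [hS']; trivial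
    have : IntermediateField.adjoin k S ≤
        (IntermediateField.adjoin κ (S ∪ (κ⟮t 0⟯ : Set F))).restrictScalars k := by
      rw [IntermediateField.adjoin_le_iff]
      exact Set.subset_union_left.trans (IntermediateField.subset_adjoin κ _)
    exact this ha
  · exact ne_top_of_le_ne_top (by rw [h2]; simp) (rk_mono (Set.subset_univ _))
  · rw [h2, Pdv1.rk_adjoin]
    have := rk_range_indep ht
    rw [Set.range_unique] at this
    exact this.ge.trans' (by simp)

theorem Pdv1.isFF (hx : Model k x) {w : Fin n → F} (hw : AlgebraicIndependent k w) :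
    IsFF (IntermediateField.adjoin k (Set.range w)) F := by
  refine Pdv1.isFF' hx ?_
  rw [← rk_image (IntermediateField.val _), Set.image_univ, IntermediateField.coe_val,
    Subtype.range_coe, Pdv1.rk_adjoin, rk_range_indep hw, Fintype.card_fin]

theorem IsPD.disc (hx : Model k x) (hV : IsPD k x V) : Disc V := by
  obtain ⟨h1, -, a, -, g, hg⟩ := hV
  have := Pdv1.isFF hx hg.indep
  exact Place.disc (κ := IntermediateField.adjoin k (Set.range fun i => x (g i) / x a))
    ⟨V, h1, fun c => hg.mem c c.2⟩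

theorem Pdv1.res_zero {σ : Type*} (v : Place k F) (z : σ → v.O) (G : MvPolynomial σ k) :
    MvPolynomial.aeval (fun i => IsLocalRing.residue v.O (z i)) G = 0 ↔
      v.O.valuation (MvPolynomial.aeval (fun i => (z i : F)) G) < 1 := by
  let φ : v.O →ₐ[k] F := ⟨v.O.subtype, fun _ => rfl⟩
  have h1 := MvPolynomial.comp_aeval_apply (f := z)
    (IsScalarTower.toAlgHom k v.O (IsLocalRing.ResidueField v.O)) G
  have h2 := MvPolynomial.comp_aeval_apply (f := z) φ G
  change IsLocalRing.residue v.O _ = MvPolynomial.aeval (fun i => IsLocalRing.residue v.O (z i)) G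
    at h1
  change (_ : F) = MvPolynomial.aeval (fun i => (z i : F)) G at h2
  rw [← h1, ← h2, IsLocalRing.residue_eq_zero_iff, ValuationSubring.valuation_lt_one_iff]
  rfl

theorem Pdv1.res_indep {σ : Type*} (v : Place k F) (z : σ → v.O)
    (h : ResInd k v.O fun i => (z i : F)) :
    AlgebraicIndependent k fun i => IsLocalRing.residue v.O (z i) := by
  rw [algebraicIndependent_iff]
  intro G hG
  by_contra hne
  exact ((Pdv1.res_zero v z G).1 hG).ne (h G hne)

/-- the residue field is finite over a rational function field in `n` variables -/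
theorem IsPD.residue (hx : Model k x) (v : Place k F) (hV : IsPD k x v.O) :
    ∃ w : Fin n → v.O, AlgebraicIndependent k (fun i => IsLocalRing.residue v.O (w i)) ∧
      FiniteDimensional (IntermediateField.adjoin k
        (Set.range fun i => IsLocalRing.residue v.O (w i))) (IsLocalRing.ResidueField v.O) := by
  obtain ⟨h1, -, a, ha, g, hg⟩ := hV
  have := Pdv1.isFF hx hg.indep
  refine ⟨fun i => ⟨x (g i) / x a, ha _⟩, Pdv1.res_indep v _ hg, ?_⟩
  set κ := IntermediateField.adjoin k (Set.range fun i => x (g i) / x a) with hκ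
  let v' : Place κ F := ⟨v.O, h1, fun c => hg.mem c c.2⟩
  let : Algebra κ (IsLocalRing.ResidueField v.O) :=
    inferInstanceAs (Algebra κ (IsLocalRing.ResidueField v'.O))
  have : FiniteDimensional κ (IsLocalRing.ResidueField v.O) :=
    inferInstanceAs (FiniteDimensional κ (IsLocalRing.ResidueField v'.O))
  refine Pdv1.fin_of_le (κ := κ) _ fun c => ?_
  obtain ⟨c, hc⟩ := c
  induction hc using IntermediateField.adjoin_induction with
  | mem b hb =>
    obtain ⟨i, rfl⟩ := hb
    exact IntermediateField.subset_adjoin _ _ ⟨i, rfl⟩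
  | algebraMap b => exact IntermediateField.algebraMap_mem _ b
  | add b c hb hc h h' =>
    have := add_mem h h'
    rwa [← map_add] at this
  | inv b hb h =>
    have := inv_mem h
    rwa [← map_inv₀] at this
  | mul b c hb hc h h' =>
    have := mul_mem h h'
    rwa [← map_mul] at this

theorem Pdv1.comap_ne_top (hx : Model k x) (h : V ≠ ⊤) :
    V.comap (algebraMap (K0 k x) F) ≠ ⊤ := fun h' => by
  have := hx.fin
  refine h (eq_top_of_algebraic (F := K0 k x) fun c => ?_)
  rw [← ValuationSubring.mem_comap, h']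
  trivial

theorem Pdv1.val_lt_iff {a : F} (ha : a ≠ 0) : V.valuation a⁻¹ < 1 ↔ a ∉ V := by
  rw [← V.valuation_le_one_iff, not_le, map_inv₀, inv_lt_one₀]
  exact zero_lt_iff.2 ((map_ne_zero _).2 ha)

theorem Pdv1.top_ne {σ : Type*} {G : MvPolynomial σ k} (hG : G ≠ 0) :
    MvPolynomial.homogeneousComponent G.totalDegree G ≠ 0 := by
  obtain ⟨e, he, h⟩ := Finset.exists_mem_eq_sup G.support
    (MvPolynomial.support_nonempty.2 hG) fun s => s.sum fun _ e => e
  intro h0
  have := congrArg (MvPolynomial.coeff e) h0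
  rw [MvPolynomial.coeff_homogeneousComponent, if_pos (show e.degree = G.totalDegree from h.symm)] at this
  exact MvPolynomial.mem_support_iff.1 he this

theorem Pdv1.ker_res (hx : Model k x) (v : Place k F) (hb : ∀ b, x b ∈ v.O) {a : Fin (n + 2)}
    (ha : ∀ b, x b / x a ∈ v.O) {g : Fin n → Fin (n + 2)}
    (hg : ResInd k v.O fun i => x (g i) / x a) : ∃ π : MvPolynomial (Fin (n + 1)) k, ∀ G,
      v.O.valuation (MvPolynomial.aeval (fun i : Fin (n + 1) => x i.succ) G) < 1 ↔ π ∣ G := by
  let z : Fin (n + 2) → v.O := fun b => ⟨x b, hb b⟩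
  let w : Fin (n + 2) → v.O := fun b => ⟨x b / x a, ha _⟩
  have hi := rk_range_indep (Pdv1.res_indep v (fun i => w (g i)) hg)
  have hwz : ∀ b, IsLocalRing.residue v.O (w b) * IsLocalRing.residue v.O (z a) =
      IsLocalRing.residue v.O (z b) := fun b => by
    rw [← map_mul]
    exact congrArg _ (Subtype.ext (div_mul_cancel₀ _ (hx.ne_zero a)))
  have hz0 : IsLocalRing.residue v.O (z 0) = 1 := by
    rw [show z 0 = 1 from Subtype.ext hx.zero, map_one]
  have hza : IsLocalRing.residue v.O (z a) ≠ 0 := right_ne_zero_of_mul_eq_one ((hwz 0).trans hz0)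
  have hle : rk k (Set.range fun i => IsLocalRing.residue v.O (w (g i))) ≤
      rk k (Set.range fun i : Fin (n + 1) => IsLocalRing.residue v.O (z i.succ)) := by
    refine rk_le_of_mem ?_
    rintro _ ⟨i, rfl⟩
    have hm : ∀ b, IsLocalRing.residue v.O (z b) ∈ IntermediateField.adjoin k
        (Set.range fun i : Fin (n + 1) => IsLocalRing.residue v.O (z i.succ)) := fun b => by
      refine Fin.cases ?_ (fun i => ?_) b
      · rw [hz0]; exact one_mem _
      · exact IntermediateField.subset_adjoin _ _ ⟨i, rfl⟩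
    simp only [(eq_div_iff hza).2 (hwz _)]
    exact div_mem (hm _) (hm _)
  rw [hi, Fintype.card_fin] at hle
  obtain ⟨π, hπ⟩ := ker_principal (k := k)
    (fun i : Fin (n + 1) => IsLocalRing.residue v.O (z i.succ)) (by
      rw [Fintype.card_fin, Nat.cast_add, Nat.cast_one]
      exact add_le_add_left hle _)
  exact ⟨π, fun G => (Pdv1.res_zero v (fun i : Fin (n + 1) => z i.succ) G).symm.trans (hπ G)⟩

/-- classification of the restrictions to the base -/
theorem IsPD.cases (hx : Model k x) (hV : IsPD k x V) :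
    (∃ π : MvPolynomial (Fin (n + 1)) k, Prime π ∧ ∀ a,
      MvPolynomial.aeval (fun i : Fin (n + 1) => x i.succ) a ∈ V ∧
      (V.valuation (MvPolynomial.aeval (fun i : Fin (n + 1) => x i.succ) a) < 1 ↔ π ∣ a)) ∨
    (V.valuation (x 1)⁻¹ < 1 ∧ ∀ a : MvPolynomial (Fin (n + 1)) k, a ≠ 0 →
      V.valuation (MvPolynomial.aeval (fun i : Fin (n + 1) => x i.succ) a /
        x 1 ^ a.totalDegree) = 1) := by
  obtain ⟨h1, hk, a, ha, g, hg⟩ := hV
  have ha0 := ha 0
  rw [hx.zero, one_div] at ha0
  by_cases hall : x a ∈ V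
  · left
    have hb : ∀ b, x b ∈ V := fun b => by
      have := mul_mem (ha b) hall
      rwa [div_mul_cancel₀ _ (hx.ne_zero a)] at this
    obtain ⟨π, hπ⟩ := Pdv1.ker_res hx ⟨V, h1, hk⟩ hb ha hg
    have hm : ∀ G, MvPolynomial.aeval (fun i : Fin (n + 1) => x i.succ) G ∈ V :=
      aeval_mem hk fun i => hb _
    refine ⟨π, ⟨?_, fun hu => ?_, fun G G' h => ?_⟩, fun G => ⟨hm G, hπ G⟩⟩
    · rintro rfl
      refine Pdv1.comap_ne_top hx h1 (eq_top_iff.2 fun c _ => ?_)
      refine ResInd.mem (V := V) (fun G hG => ?_) (c : F) ((Pdv1.K0_eq hx.zero).le c.2)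
      exact le_antisymm ((V.valuation_le_one_iff _).2 (hm G))
        (not_lt.1 fun h => hG (zero_dvd_iff.1 ((hπ G).1 h)))
    · have := (hπ 1).2 hu.dvd
      rw [map_one, map_one] at this
      exact lt_irrefl _ this
    · rw [← hπ, map_mul, map_mul] at h
      rw [← hπ, ← hπ]
      by_contra! h'
      exact h.not_ge (one_le_mul h'.1 h'.2)
  · right
    have hlt := (Pdv1.val_lt_iff (hx.ne_zero a)).2 hall
    have ha' : a ≠ 0 := by
      rintro rfl
      exact hall (by rw [hx.zero]; exact one_mem _)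
    have hu : ∀ i, V.valuation (x (g i) / x a) = 1 := fun i => by
      simpa using hg (MvPolynomial.X i) (MvPolynomial.X_ne_zero i)
    have hg0 : ∀ i, g i ≠ 0 := fun i h => by
      have := hu i
      rw [h, hx.zero, one_div] at this
      exact hlt.ne this
    have hga : ∀ i, g i ≠ a := fun i h => by
      have := hg.indep.transcendental i
      simp only [h, div_self (hx.ne_zero a)] at this
      exact this isAlgebraic_one
    have hinj : Function.Injective g := fun i j h => hg.indep.injective (by simp only [h])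
    have hsur : ∀ b, b ≠ 0 → b ≠ a → ∃ i, g i = b := fun b hb hb' => by
      have : Finset.univ.image g = (Finset.univ.erase 0).erase a := by
        refine Finset.eq_of_subset_of_card_le (fun c hc => ?_) ?_
        · obtain ⟨i, -, rfl⟩ := Finset.mem_image.1 hc
          simp [hg0, hga]
        · rw [Finset.card_image_of_injective _ hinj, Finset.card_erase_of_mem (by simp [ha']),
            Finset.card_erase_of_mem (by simp)]
          simp
      have h2 : b ∈ Finset.univ.image g := by rw [this]; simp [hb, hb']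
      simpa using h2
    have hh : ∀ i : Fin (n + 1), ∃ H : MvPolynomial (Fin n) k,
        MvPolynomial.aeval (fun i => x (g i) / x a) H = x i.succ / x a := fun i => by
      by_cases h : i.succ = a
      · exact ⟨1, by rw [h, div_self (hx.ne_zero a), map_one]⟩
      · obtain ⟨j, hj⟩ := hsur _ (Fin.succ_ne_zero i) h
        exact ⟨MvPolynomial.X j, by rw [MvPolynomial.aeval_X, hj]⟩
    choose H hH using hh
    have hhom : ∀ (G : MvPolynomial (Fin (n + 1)) k) d, G.IsHomogeneous d → G ≠ 0 →
        V.valuation (MvPolynomial.aeval (fun i : Fin (n + 1) => x i.succ / x a) G) = 1 := by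
      intro G d hG hG0
      have e : MvPolynomial.aeval (fun i => x (g i) / x a) (MvPolynomial.aeval H G) =
          MvPolynomial.aeval (fun i : Fin (n + 1) => x i.succ / x a) G := by
        rw [MvPolynomial.comp_aeval_apply]
        simp only [hH]
      rw [← e]
      refine hg _ fun h => ?_
      rw [h, map_zero, Pdv1.scale _ _ hG] at e
      exact div_ne_zero (Pdv1.aeval_ne hx hG0) (pow_ne_zero _ (hx.ne_zero a)) e.symm
    have h1a : V.valuation (x 1) = V.valuation (x a) := by
      have := hhom _ 1 (MvPolynomial.isHomogeneous_X k 0) (MvPolynomial.X_ne_zero 0)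
      rwa [MvPolynomial.aeval_X, map_div₀, div_eq_one_iff_eq ((map_ne_zero _).2 (hx.ne_zero a)),
        Fin.succ_zero_eq_one] at this
    refine ⟨by rwa [map_inv₀, h1a, ← map_inv₀], fun G hG => ?_⟩
    rw [map_div₀, map_pow, h1a, ← map_pow, ← map_div₀, Pdv1.expand, Finset.sum_range_succ,
      Nat.sub_self, pow_zero, mul_one]
    have ht := hhom _ _ (MvPolynomial.homogeneousComponent_isHomogeneous _ G) (Pdv1.top_ne hG)
    rw [Valuation.map_add_eq_of_lt_right, ht]
    rw [ht]
    refine Valuation.map_sum_lt _ one_ne_zero fun j hj => ?_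
    rw [map_mul, map_pow]
    refine mul_lt_one_of_nonneg_of_lt_one_right ((V.valuation_le_one_iff _).2
      (aeval_mem hk (fun i => ha _) _)) zero_le (pow_lt_one₀ zero_le hlt ?_)
    exact (Nat.sub_pos_of_lt (Finset.mem_range.1 hj)).ne'

theorem exists_pd_prime (hx : Model k x) {π : MvPolynomial (Fin (n + 1)) k} (hπ : Prime π) :
    ∃ V, IsPD k x V ∧ ∀ a, MvPolynomial.aeval (fun i : Fin (n + 1) => x i.succ) a ∈ V ∧
      (V.valuation (MvPolynomial.aeval (fun i : Fin (n + 1) => x i.succ) a) < 1 ↔ π ∣ a) := by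
  obtain ⟨V₀, hd, -, h⟩ := exists_disc_prime (L := FractionRing (MvPolynomial (Fin (n + 1)) k)) hπ
  let ψ : FractionRing (MvPolynomial (Fin (n + 1)) k) →+* F := IsFractionRing.lift
    (g := (MvPolynomial.aeval (R := k) fun i : Fin (n + 1) => x i.succ).toRingHom) hx.indep
  have hψ : ∀ G : MvPolynomial (Fin (n + 1)) k, ψ (algebraMap _ _ G) =
      MvPolynomial.aeval (fun i : Fin (n + 1) => x i.succ) G := fun G => IsFractionRing.lift_algebraMap _ _
  obtain ⟨V, rfl⟩ := exists_comap_eq ψ V₀
  have h' : ∀ a, MvPolynomial.aeval (fun i : Fin (n + 1) => x i.succ) a ∈ V ∧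
      (V.valuation (MvPolynomial.aeval (fun i : Fin (n + 1) => x i.succ) a) < 1 ↔ π ∣ a) :=
    fun G => by
      rw [← hψ, ← ValuationSubring.mem_comap, ← val_comap_lt_one]
      exact h G
  obtain ⟨g, hg⟩ := exists_indep_mod hπ
  refine ⟨V, ⟨?_, fun c => ?_, 0, fun b => ?_, fun i => (g i).succ, fun G hG => ?_⟩, h'⟩
  · rintro rfl
    exact hd.ne_top (eq_top_iff.2 fun c _ => ValuationSubring.mem_comap.2 trivial)
  · simpa using (h' (MvPolynomial.C c)).1
  · rw [hx.zero, div_one]
    refine Fin.cases ?_ (fun i => ?_) b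
    · rw [hx.zero]; exact one_mem _
    · simpa using (h' (MvPolynomial.X i)).1
  · have := h' (MvPolynomial.rename g G)
    rw [MvPolynomial.aeval_rename] at this
    simp only [hx.zero, div_one]
    exact le_antisymm ((V.valuation_le_one_iff _).2 this.1)
      (not_lt.1 fun h => hg G hG (this.2.1 h))

theorem exists_pd_inf (hx : Model k x) : ∃ V, IsPD k x V ∧ x 1 ∉ V := by
  obtain ⟨V, hV, h⟩ := exists_pd_prime (hx.chart 1) (π := MvPolynomial.X 0) MvPolynomial.X_prime
  refine ⟨V, (isPD_chart hx 1).1 hV, (Pdv1.val_lt_iff (hx.ne_zero 1)).1 ?_⟩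
  have := (h (MvPolynomial.X 0)).2.2 dvd_rfl
  rwa [MvPolynomial.aeval_X, Fin.succ_zero_eq_one, Equiv.swap_apply_right, hx.zero, one_div] at this

theorem Pdv1.w_mem (a : Fin (n + 2)) (g : Fin n → Fin (n + 2)) :
    IntermediateField.adjoin k (Set.range fun i => x (g i) / x a) ≤ K0 k x :=
  IntermediateField.adjoin_le_iff.2 (by
    rintro _ ⟨i, rfl⟩
    exact div_mem (Pdv1.x_mem _) (Pdv1.x_mem _))

theorem IsPD.of_base (hx : Model k x) (hV : IsPD k x V) (h' : V' ≠ ⊤)
    (h : ∀ c ∈ K0 k x, c ∈ V → c ∈ V') : IsPD k x V' ∧ SameBase k x V V' := by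
  have hd := ((hV.disc hx).comap (algebraMap (K0 k x) F)).resolve_left
    (Pdv1.comap_ne_top hx hV.1)
  have he := (hd.1.eq_or_top (V' := V'.comap (algebraMap (K0 k x) F))
    fun c hc => h c c.2 hc).resolve_right (Pdv1.comap_ne_top hx h')
  obtain ⟨-, hk, a, ha, g, hg⟩ := hV
  refine ⟨⟨h', fun c => h _ (IntermediateField.algebraMap_mem _ c) (hk c), a,
    fun b => h _ (div_mem (Pdv1.x_mem _) (Pdv1.x_mem _)) (ha b), g,
    resInd_of_mem hg.indep fun c hc => h c (Pdv1.w_mem a g hc) (hg.mem c hc)⟩, fun c hc => ?_⟩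
  exact (SetLike.ext_iff.1 he ⟨c, hc⟩).symm

theorem Pdv1.aeval_map {σ : Type*} {F' : Type u} [Field F'] [Algebra F F'] [Algebra k F']
    [IsScalarTower k F F'] (y : σ → F) (t : F) (G : MvPolynomial σ k) :
    algebraMap F F' (MvPolynomial.aeval (fun i => y i / t) G) =
      MvPolynomial.aeval (fun i => algebraMap F F' (y i) / algebraMap F F' t) G := by
  have := MvPolynomial.comp_aeval_apply (f := fun i => y i / t) (IsScalarTower.toAlgHom k F F') G
  simpa only [IsScalarTower.coe_toAlgHom', map_div₀] using this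

theorem IsPD.comap (hx : Model k x) {F' : Type u} [Field F'] [Algebra F F'] [Algebra k F']
    [IsScalarTower k F F'] [FiniteDimensional F F'] {W : ValuationSubring F'}
    (hW : IsPD k (fun a => algebraMap F F' (x a)) W) : IsPD k x (W.comap (algebraMap F F')) := by
  obtain ⟨h1, hk, a, ha, g, hg⟩ := hW
  refine ⟨fun h => h1 (eq_top_of_algebraic (F := F) fun c => ?_), fun c => ?_, a, fun b => ?_, g,
    fun G hG => ?_⟩
  · rw [← ValuationSubring.mem_comap, h]; trivial
  · rw [ValuationSubring.mem_comap, ← IsScalarTower.algebraMap_apply]; exact hk c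
  · rw [ValuationSubring.mem_comap, map_div₀]; exact ha b
  · rw [val_comap_eq_one, Pdv1.aeval_map]; exact hg G hG

theorem IsPD.extend (hV : IsPD k x V) (F' : Type u) [Field F'] [Algebra F F'] [Algebra k F']
    [IsScalarTower k F F'] : ∃ W : ValuationSubring F',
      IsPD k (fun a => algebraMap F F' (x a)) W ∧ W.comap (algebraMap F F') = V := by
  obtain ⟨W, rfl⟩ := exists_comap_eq (algebraMap F F') V
  obtain ⟨h1, hk, a, ha, g, hg⟩ := hV
  refine ⟨W, ⟨?_, fun c => ?_, a, fun b => ?_, g, fun G hG => ?_⟩, rfl⟩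
  · rintro rfl
    exact h1 (eq_top_iff.2 fun c _ => ValuationSubring.mem_comap.2 trivial)
  · rw [IsScalarTower.algebraMap_apply k F F']; exact hk c
  · rw [← map_div₀]; exact ha b
  · rw [← Pdv1.aeval_map, ← val_comap_eq_one]; exact hg G hG

theorem IsPD.finite_sameBase (hx : Model k x) (hV : IsPD k x V) :
    {V' | IsPD k x V' ∧ SameBase k x V V'}.Finite := by
  obtain ⟨c, hc⟩ : ∃ c : K0 k x, (c : F) ∉ V := by
    by_contra! h
    exact Pdv1.comap_ne_top hx hV.1 (eq_top_iff.2 fun c _ => h c)
  obtain ⟨-, -, a, -, g, hg⟩ := hV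
  have := Pdv1.isFF hx hg.indep
  refine ((finite_ord (κ := IntermediateField.adjoin k (Set.range fun i => x (g i) / x a))
    (c : F)).image Place.O).subset ?_
  rintro V' ⟨h1, h2⟩
  refine ⟨⟨V', h1.1, fun d => (h2 d (Pdv1.w_mem a g d.2)).1 (hg.mem d d.2)⟩, fun h => hc ?_, rfl⟩
  rw [h2 c c.2, mem_iff_ge (Or.inl (h1.disc hx))]
  exact Or.inr h.ge

/-- integrality over the local ring of the base -/
theorem IsPD.minpoly_mem (hx : Model k x) (hV : IsPD k x V)
    (h : ∀ V', IsPD k x V' → SameBase k x V V' → f ∈ V') (i : ℕ) :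
    ((minpoly (K0 k x) f).coeff i : F) ∈ V := by
  set A := V.comap (algebraMap (K0 k x) F) with hA
  have h1 : f ∈ (integralClosure (Subring.closure ((algebraMap A F).range : Set F)) F).toSubring := by
    rw [← iInf_valuationSubring_superset, Subring.mem_iInf]
    rintro ⟨V', hV'⟩
    by_cases ht : V' = ⊤
    · subst ht; trivial
    · obtain ⟨h2, h3⟩ := hV.of_base hx ht fun c hc hc' => hV' ⟨⟨⟨c, hc⟩, hc'⟩, rfl⟩
      exact h V' h2 h3
  rw [Subring.closure_eq] at h1
  have h2 : IsIntegral A f := by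
    let : Algebra A (algebraMap A F).range := (algebraMap A F).rangeRestrict.toAlgebra
    have : IsScalarTower A (algebraMap A F).range F := IsScalarTower.of_algebraMap_eq fun _ => rfl
    have : Algebra.IsIntegral A (algebraMap A F).range :=
      Algebra.isIntegral_of_surjective (algebraMap A F).rangeRestrict_surjective
    exact isIntegral_trans (A := (algebraMap A F).range) f h1
  rw [minpoly.isIntegrallyClosed_eq_field_fractions' (K0 k x) h2, Polynomial.coeff_map]
  exact ((minpoly A f).coeff i).2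

theorem IsPD.apx (hx : Model k x) (hV : IsPD k x V) (f : F) :
    ∃ c, V.valuation c = 1 ∧ ∀ V', IsPD k x V' → SameBase k x V V' → V' ≠ V →
      V'.valuation c < 1 ∧ c * f ∈ V' := by
  have hfin := hV.finite_sameBase hx
  obtain ⟨M, hM⟩ := (hfin.image fun W => -ord W f).bddAbove
  obtain ⟨c, h1, h2⟩ := approx hfin.toFinset (fun W hW => (hfin.mem_toFinset.1 hW).1.disc hx)
    (hfin.mem_toFinset.2 ⟨hV, fun _ _ => Iff.rfl⟩) (max 1 M)
  refine ⟨c, ?_, fun W hW hb hne => ?_⟩
  · have := (val_lt_one_iff (Or.inl (hV.disc hx))).2 (h1.mono (le_max_left _ _))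
    simpa using V.valuation.map_one_add_of_lt this
  · have h3 := h2 W (hfin.mem_toFinset.2 ⟨hW, hb⟩) hne
    have h4 : -ord W f ≤ M := hM ⟨W, ⟨hW, hb⟩, rfl⟩
    refine ⟨(val_lt_one_iff (Or.inl (hW.disc hx))).2 (h3.mono (le_max_left _ _)),
      (mem_iff_ge (Or.inl (hW.disc hx))).2 ((h3.mul ge_ord).mono ?_)⟩
    have := le_max_right 1 M
    omega

end Pool.Agent.Lib.MP_7fcda1_ag
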