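import Pool.Agent.Lib.MP_7fcda1_ag.CT1
import Pool.Agent.Lib.MP_7fcda1_ag.Gauss

open scoped IntermediateField Polynomial WithZero
open Module

noncomputable section

universe u

namespace Pool.Agent.Lib.MP_7fcda1_ag


variable {k F : Type u} [Field k] [Field F] [Algebra k F] {n : ℕ} {x : Fin (n + 2) → F}
  {V V' : ValuationSubring F} {f g : F} {m m' : ℕ}

theorem Model.ne_zero (hx : Model k x) (a : Fin (n + 2)) : x a ≠ 0 := by
  refine Fin.cases ?_ (fun i => ?_) a
  · rw [hx.zero]; exact one_ne_zero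
  · exact hx.indep.linearIndependent.ne_zero i

theorem Pdv1.K0_eq (h0 : x 0 = 1) :
    K0 k x = IntermediateField.adjoin k (Set.range fun i : Fin (n + 1) => x i.succ) := by
  apply le_antisymm
  · rw [IntermediateField.adjoin_le_iff]
    rintro _ ⟨a, rfl⟩
    refine Fin.cases ?_ (fun i => ?_) a
    · rw [h0]; exact one_mem _
    · exact IntermediateField.subset_adjoin _ _ ⟨i, rfl⟩
  · exact IntermediateField.adjoin.mono _ _ _ (by rintro _ ⟨i, rfl⟩; exact ⟨_, rfl⟩)

theorem Pdv1.x_mem (a : Fin (n + 2)) : x a ∈ K0 k x := IntermediateField.subset_adjoin _ _ ⟨a, rfl⟩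

theorem Pdv1.rk_adjoin {k E : Type*} [Field k] [Field E] [Algebra k E] (S : Set E) :
    rk k (IntermediateField.adjoin k S : Set E) = rk k S :=
  le_antisymm (rk_le_of_mem fun _ h => h) (rk_mono (IntermediateField.subset_adjoin _ _))

theorem Model.rk_univ (hx : Model k x) : rk k (Set.univ : Set F) = (n + 1 : ℕ) := by
  have := hx.fin
  rw [rk_univ_of_finite (S := Set.range x), ← Pdv1.rk_adjoin]
  change rk k (K0 k x : Set F) = _
  rw [Pdv1.K0_eq hx.zero, Pdv1.rk_adjoin, rk_range_indep hx.indep, Fintype.card_fin]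

theorem Pdv1.fin_of_le {κ E Ω : Type*} [Field κ] [Field E] [Field Ω] [Algebra E Ω] [Algebra κ Ω]
    [FiniteDimensional κ Ω] (B : IntermediateField E Ω) (h : ∀ c, algebraMap κ Ω c ∈ B) :
    FiniteDimensional B Ω := by
  let : Algebra κ B := ((algebraMap κ Ω).codRestrict B h).toAlgebra
  have : IsScalarTower κ B Ω := IsScalarTower.of_algebraMap_eq fun _ => rfl
  exact Module.Finite.of_restrictScalars_finite κ B Ω

theorem Pdv1.map_mem {κ E Ω σ : Type*} [Field κ] [Field E] [Field Ω] [Algebra κ E] [Algebra κ Ω]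
    (φ : E →ₐ[κ] Ω) (z : σ → E) {c : E} (hc : c ∈ IntermediateField.adjoin κ (Set.range z)) :
    φ c ∈ IntermediateField.adjoin κ (Set.range fun i => φ (z i)) := by
  rw [IntermediateField.mem_adjoin_range_iff] at hc ⊢
  obtain ⟨r, s, rfl⟩ := hc
  refine ⟨r, s, ?_⟩
  rw [map_div₀, MvPolynomial.comp_aeval_apply, MvPolynomial.comp_aeval_apply]

theorem Model.ext (hx : Model k x) {F' : Type u} [Field F'] [Algebra F F'] [Algebra k F']
    [IsScalarTower k F F'] [FiniteDimensional F F'] : Model k fun a => algebraMap F F' (x a) := by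
  refine ⟨by rw [hx.zero, map_one], ?_, ?_⟩
  · exact hx.indep.map' (f := IsScalarTower.toAlgHom k F F') (algebraMap F F').injective
  · have := hx.fin
    have : FiniteDimensional (K0 k x) F' := Module.Finite.trans F F'
    exact Pdv1.fin_of_le (κ := K0 k x) _ fun c =>
      Pdv1.map_mem (IsScalarTower.toAlgHom k F F') x c.2

theorem Pdv1.aeval_ne (hx : Model k x) {b : MvPolynomial (Fin (n + 1)) k} (hb : b ≠ 0) :
    MvPolynomial.aeval (fun i : Fin (n + 1) => x i.succ) b ≠ 0 := fun h =>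
  hb (hx.indep (by rw [h, map_zero]))

theorem Model.mem_K0 (hx : Model k x) : f ∈ K0 k x ↔ ∃ a b : MvPolynomial (Fin (n + 1)) k, b ≠ 0 ∧
    f = MvPolynomial.aeval (fun i : Fin (n + 1) => x i.succ) a /
      MvPolynomial.aeval (fun i : Fin (n + 1) => x i.succ) b := by
  rw [Pdv1.K0_eq hx.zero, IntermediateField.mem_adjoin_range_iff]
  constructor
  · rintro ⟨r, s, h⟩
    by_cases hs : s = 0
    · exact ⟨0, 1, one_ne_zero, by rw [h, hs]; simp⟩
    · exact ⟨r, s, hs, h⟩
  · rintro ⟨a, b, -, h⟩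
    exact ⟨a, b, h⟩

theorem K0_chart (hx : Model k x) (a : Fin (n + 2)) :
    K0 k (fun b => x (Equiv.swap 0 a b) / x a) = K0 k x := by
  apply le_antisymm
  · rw [IntermediateField.adjoin_le_iff]
    rintro _ ⟨b, rfl⟩
    exact div_mem (Pdv1.x_mem _) (Pdv1.x_mem _)
  · rw [IntermediateField.adjoin_le_iff]
    rintro _ ⟨b, rfl⟩
    have h1 := Pdv1.x_mem (k := k) (x := fun b => x (Equiv.swap 0 a b) / x a) (Equiv.swap 0 a b)
    have h2 := Pdv1.x_mem (k := k) (x := fun b => x (Equiv.swap 0 a b) / x a) a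
    have h3 := div_mem h1 h2
    simp only [Equiv.swap_apply_self, Equiv.swap_apply_right, hx.zero] at h3
    rwa [div_div_div_cancel_right₀ (hx.ne_zero a), div_one] at h3

/-- change of chart -/
theorem Model.chart (hx : Model k x) (a : Fin (n + 2)) :
    Model k fun b => x (Equiv.swap 0 a b) / x a := by
  have h0 : x (Equiv.swap 0 a 0) / x a = 1 := by
    rw [Equiv.swap_apply_left, div_self (hx.ne_zero a)]
  refine ⟨h0, ?_, ?_⟩
  · apply indep_of_rk
    rw [← rk_range_indep hx.indep]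
    apply rk_le_of_mem
    rintro _ ⟨i, rfl⟩
    rw [← Pdv1.K0_eq (x := fun b => x (Equiv.swap 0 a b) / x a) h0, K0_chart hx]
    exact Pdv1.x_mem _
  · rw [K0_chart hx]; exact hx.fin

theorem isPD_chart (hx : Model k x) (a : Fin (n + 2)) :
    IsPD k (fun b => x (Equiv.swap 0 a b) / x a) V ↔ IsPD k x V := by
  simp only [IsPD, div_div_div_cancel_right₀ (hx.ne_zero a)]
  refine and_congr_right fun _ => and_congr_right fun _ => ⟨?_, ?_⟩
  · rintro ⟨c, h1, g, h2⟩
    refine ⟨Equiv.swap 0 a c, fun b => ?_, fun i => Equiv.swap 0 a (g i), h2⟩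
    simpa using h1 (Equiv.swap 0 a b)
  · rintro ⟨c, h1, g, h2⟩
    refine ⟨Equiv.swap 0 a c, fun b => ?_, fun i => Equiv.swap 0 a (g i), ?_⟩
    · simpa using h1 _
    · simpa using h2

theorem Pdv1.chart_ex (hx : Model k x) (V : ValuationSubring F) : ∃ a, ∀ b, x b / x a ∈ V := by
  obtain ⟨a, -, h⟩ := exists_min_coord V (w := x) fun h => hx.ne_zero 0 (congrFun h 0)
  exact ⟨a, h⟩

theorem Bd.div_mem (hx : Model k x) (h : Bd x V m f) {a : Fin (n + 2)} (ha : ∀ b, x b / x a ∈ V) :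
    f / x a ^ m ∈ V := by
  obtain ⟨b, hb⟩ := h
  have := mul_mem hb (pow_mem (ha b) m)
  rwa [div_pow, div_mul_div_cancel₀ (pow_ne_zero m (hx.ne_zero b))] at this

theorem bd_zero_iff : Bd x V 0 f ↔ f ∈ V := by simp [Bd]

theorem Bd.mono (hx : Model k x) (h : Bd x V m f) (hm : m ≤ m') : Bd x V m' f := by
  obtain ⟨a, ha⟩ := Pdv1.chart_ex hx V
  obtain ⟨d, rfl⟩ := Nat.exists_eq_add_of_le hm
  refine ⟨a, ?_⟩
  have := mul_mem (h.div_mem hx ha) (pow_mem (ha 0) d)
  rwa [hx.zero, div_pow, one_pow, div_mul_div_comm, mul_one, ← pow_add] at this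

theorem Bd.add (hx : Model k x) (h : Bd x V m f) (h' : Bd x V m g) : Bd x V m (f + g) := by
  obtain ⟨a, ha⟩ := Pdv1.chart_ex hx V
  exact ⟨a, by rw [add_div]; exact add_mem (h.div_mem hx ha) (h'.div_mem hx ha)⟩

theorem Bd.mul (hx : Model k x) (h : Bd x V m f) (h' : Bd x V m' g) :
    Bd x V (m + m') (f * g) := by
  obtain ⟨a, ha⟩ := Pdv1.chart_ex hx V
  exact ⟨a, by rw [pow_add, ← div_mul_div_comm]; exact mul_mem (h.div_mem hx ha) (h'.div_mem hx ha)⟩

theorem Bd.pow (h : Bd x V m f) (j : ℕ) : Bd x V (j * m) (f ^ j) := by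
  obtain ⟨a, ha⟩ := h
  exact ⟨a, by rw [mul_comm, pow_mul, ← div_pow]; exact pow_mem ha j⟩

theorem Bd.sum (hx : Model k x) {σ : Type*} {s : Finset σ} {f : σ → F}
    (h : ∀ i ∈ s, Bd x V m (f i)) : Bd x V m (∑ i ∈ s, f i) := by
  obtain ⟨a, ha⟩ := Pdv1.chart_ex hx V
  exact ⟨a, by rw [Finset.sum_div]; exact sum_mem fun i hi => (h i hi).div_mem hx ha⟩

theorem Pdv1.scale {σ : Type*} (z : σ → F) (t : F) {G : MvPolynomial σ k} {d : ℕ}
    (hG : G.IsHomogeneous d) :
    MvPolynomial.aeval (fun i => z i / t) G = MvPolynomial.aeval z G / t ^ d := by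
  rw [MvPolynomial.aeval_def, MvPolynomial.aeval_def, MvPolynomial.eval₂_eq, MvPolynomial.eval₂_eq,
    Finset.sum_div]
  refine Finset.sum_congr rfl fun e he => ?_
  rw [mul_div_assoc, hG.degree_eq_sum_deg_support he, ← Finset.prod_pow_eq_pow_sum,
    ← Finset.prod_div_distrib]
  simp only [div_pow]

theorem Pdv1.expand {σ : Type*} (z : σ → F) (t : F) (G : MvPolynomial σ k) :
    MvPolynomial.aeval z G / t ^ G.totalDegree = ∑ j ∈ Finset.range (G.totalDegree + 1),
      MvPolynomial.aeval (fun i => z i / t) (MvPolynomial.homogeneousComponent j G) *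
        t⁻¹ ^ (G.totalDegree - j) := by
  have h := congrArg (MvPolynomial.aeval z) (MvPolynomial.sum_homogeneousComponent G)
  rw [← h, map_sum, Finset.sum_div]
  refine Finset.sum_congr rfl fun j hj => ?_
  obtain ⟨d, hd⟩ := Nat.exists_eq_add_of_le (Nat.lt_succ_iff.1 (Finset.mem_range.1 hj))
  rw [Pdv1.scale z t (MvPolynomial.homogeneousComponent_isHomogeneous j G), hd,
    Nat.add_sub_cancel_left, pow_add, inv_pow, div_mul_eq_div_div, div_eq_mul_inv _ (t ^ d)]

theorem bd_aeval (hx : Model k x) (hk : ∀ c, algebraMap k F c ∈ V)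
    (a : MvPolynomial (Fin (n + 1)) k) :
    Bd x V a.totalDegree (MvPolynomial.aeval (fun i : Fin (n + 1) => x i.succ) a) := by
  obtain ⟨c, hc⟩ := Pdv1.chart_ex hx V
  refine ⟨c, ?_⟩
  rw [Pdv1.expand]
  refine sum_mem fun j _ => mul_mem (aeval_mem hk (fun i => hc _) _) (pow_mem ?_ _)
  have := hc 0
  rwa [hx.zero, one_div] at this

theorem Bd.ge (hx : Model k x) {L : Type*} [Field L] {ψ : F →+* L} {W : ValuationSubring L}
    (hW : Disc W) {h : ℤ} (hh : ∀ a, Ge W (-h) (ψ (x a))) (hf : Bd x (W.comap ψ) m f) :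
    Ge W (-(m * h)) (ψ f) := by
  obtain ⟨a, ha⟩ := hf
  have h1 := ((mem_iff_ge (Or.inl hW)).1 (ValuationSubring.mem_comap.1 ha)).mul ((hh a).pow m)
  rw [← map_pow, ← map_mul, div_mul_cancel₀ _ (pow_ne_zero m (hx.ne_zero a))] at h1
  simpa using h1

end Pool.Agent.Lib.MP_7fcda1_ag
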