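import Pool.Agent.Lib.MP_7fcda1_ag.Bun2

open scoped IntermediateField Polynomial WithZero
open Module

noncomputable section

universe u

namespace Pool.Agent.Lib.MP_7fcda1_ag

theorem TP_rank_null {K V V' : Type*} [Field K] [AddCommGroup V] [Module K V] [AddCommGroup V']
    [Module K V'] (f : V →ₗ[K] V') (U : Submodule K V) [FiniteDimensional K U] :
    finrank K U = finrank K (U.map f) + finrank K ↥(U ⊓ LinearMap.ker f) := by
  have h := LinearMap.finrank_range_add_finrank_ker (f.domRestrict U)
  rw [LinearMap.range_domRestrict, LinearMap.ker_domRestrict,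
    ← Submodule.finrank_map_subtype_eq U, Submodule.map_comap_subtype] at h
  exact h.symm

variable {K₀ K K' L : Type*} [Field K₀] [Field K] [Field K'] [Field L] [Algebra K₀ L] [Algebra K L]
  [Algebra K' L] {ι : Type*}

/-- The image of `K` is contained in the field generated by `K₀` and `s`. -/
def TP_Gen (K₀ K : Type*) {L : Type*} [Field K₀] [Field K] [Field L] [Algebra K₀ L] [Algebra K L]
    (s : L) : Prop :=
  ∀ g : K, ∃ P Q : K₀[X], Polynomial.aeval s Q ≠ 0 ∧
    algebraMap K L g * Polynomial.aeval s Q = Polynomial.aeval s P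

/-- recursion lemma -/
theorem TP_rec {V : Type*} [AddCommGroup V] [Module K₀ V] [Module K V] [Module L V]
    [IsScalarTower K₀ L V] [IsScalarTower K L V]
    {s : L} (hs : TP_Gen K₀ K s) (U B : Submodule K₀ V) [FiniteDimensional K₀ U]
    (M : Submodule K V) [FiniteDimensional K M] (hM : ∀ w ∈ U, w ∈ M)
    (h : ∀ (N : ℕ) (W : ℕ → V), (∀ j, W j ∈ U) →
      ∑ j ∈ Finset.range (N + 1), s ^ j • W j = 0 → W N ∈ B) :
    finrank K₀ U ≤ finrank K₀ ↥(U ⊓ B) + finrank K M := by
  classical
  obtain ⟨C, hC⟩ := Submodule.exists_isCompl (B.comap U.subtype)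
  have h1 := Submodule.finrank_add_eq_of_isCompl hC
  have h2 : finrank K₀ (B.comap U.subtype) = finrank K₀ ↥(U ⊓ B) := by
    rw [← Submodule.finrank_map_subtype_eq U, Submodule.map_comap_subtype]
  obtain ⟨r, hr, ⟨b⟩⟩ : ∃ r, finrank K₀ C = r ∧ Nonempty (Basis (Fin r) K₀ C) :=
    ⟨_, rfl, ⟨Module.finBasis K₀ C⟩⟩
  let w : Fin r → V := fun i => ((b i : U) : V)
  have hwU : ∀ i, w i ∈ U := fun i => (b i : U).2
  have hind : ∀ c : Fin r → K₀, ∑ i, c i • w i ∈ B → c = 0 := by
    intro c hc
    have h3 : ((∑ i, c i • b i : C) : U) ∈ B.comap U.subtype := by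
      rw [Submodule.mem_comap]
      simpa [w] using hc
    have h4 : (∑ i, c i • b i : C) = 0 := by
      have := hC.disjoint
      rw [Submodule.disjoint_def] at this
      exact Subtype.ext (this _ h3 (∑ i, c i • b i : C).2)
    funext i
    exact Fintype.linearIndependent_iff.1 b.linearIndependent c h4 i
  have hli : LinearIndependent K fun i => (⟨w i, hM _ (hwU i)⟩ : M) := by
    rw [Fintype.linearIndependent_iff]
    intro g hg
    have hg' : ∑ i, algebraMap K L (g i) • w i = 0 := by
      have := congrArg Subtype.val hg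
      simpa [algebraMap_smul] using this
    choose P Q hQ hPQ using fun i => hs (g i)
    set Q₀ : K₀[X] := ∏ i, Q i with hQ₀
    have hQ₀0 : Polynomial.aeval s Q₀ ≠ 0 := by
      rw [hQ₀, map_prod]
      exact Finset.prod_ne_zero_iff.2 fun i _ => hQ i
    set P' : Fin r → K₀[X] := fun i => P i * ∏ j ∈ Finset.univ.erase i, Q j with hP'
    have hP'e : ∀ i, Polynomial.aeval s (P' i) = Polynomial.aeval s Q₀ * algebraMap K L (g i) := by
      intro i
      rw [hP', hQ₀, ← Finset.mul_prod_erase Finset.univ Q (Finset.mem_univ i)]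
      simp only [map_mul]
      rw [← hPQ i]
      ring
    have hsum : ∑ i, Polynomial.aeval s (P' i) • w i = 0 := by
      simp only [hP'e, mul_smul]
      rw [← Finset.smul_sum, hg', smul_zero]
    have hz : ∀ i, P' i = 0 := by
      by_contra hcon
      push Not at hcon
      obtain ⟨i₀, hi₀, hmax⟩ := Finset.exists_max_image (Finset.univ.filter fun i => P' i ≠ 0)
        (fun i => (P' i).natDegree) (by
          obtain ⟨i, hi⟩ := hcon
          exact ⟨i, by simpa using hi⟩)
      set N := (P' i₀).natDegree with hN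
      have hle : ∀ i, (P' i).natDegree < N + 1 := by
        intro i
        by_cases hi : P' i = 0
        · simp [hi]
        · exact Nat.lt_succ_of_le (hmax i (by simpa using hi))
      have h5 := h N (fun j => ∑ i, (P' i).coeff j • w i)
        (fun j => U.sum_mem fun i _ => U.smul_mem _ (hwU i)) (by
          rw [← hsum]
          simp only [Finset.smul_sum]
          rw [Finset.sum_comm]
          refine Finset.sum_congr rfl fun i _ => ?_
          rw [Polynomial.aeval_eq_sum_range' (hle i), Finset.sum_smul]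
          refine Finset.sum_congr rfl fun j _ => ?_
          rw [smul_comm, smul_assoc])
      have h6 := congrFun (hind _ h5) i₀
      have h7 : P' i₀ ≠ 0 := by simpa using hi₀
      exact h7 (Polynomial.leadingCoeff_eq_zero.1 h6)
    intro i
    have h8 := hP'e i
    rw [hz i, map_zero] at h8
    rcases mul_eq_zero.1 h8.symm with h9 | h9
    · exact absurd h9 hQ₀0
    · exact (map_eq_zero _).1 h9
  have h3 := hli.fintype_card_le_finrank
  rw [Fintype.card_fin] at h3
  omega

/-- the leading coefficient of a relation has a smaller pole -/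
theorem TP_step {V : ValuationSubring L} {s : L} (hs : s ≠ 0) {n : ℤ} {N : ℕ} {W : ℕ → L}
    (hW : ∀ j, Ge V n (W j)) (h : ∑ j ∈ Finset.range (N + 1), s ^ j * W j = 0) :
    Ge V (n + max 0 (-ord V s)) (W N) := by
  rcases le_total 0 (ord V s) with h0 | h0
  · rw [max_eq_left (by omega), add_zero]
    exact hW N
  rw [max_eq_right (by omega)]
  rw [Finset.sum_range_succ, add_comm, add_eq_zero_iff_eq_neg] at h
  have h1 : Ge V (((N : ℤ) - 1) * ord V s + n) (s ^ N * W N) := by
    rw [h]
    refine Ge.neg (Ge.sum fun j hj => ?_)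
    refine (Ge.mul (Ge.pow ge_ord j) (hW j)).mono ?_
    have hj' : (j : ℤ) ≤ N - 1 := by
      have := Finset.mem_range.1 hj
      omega
    nlinarith
  rw [ge_mul_iff (pow_ne_zero _ hs), ord_pow] at h1
  refine h1.mono (le_of_eq ?_)
  ring

theorem TP_ge_const (p : Place K' L) {n : ℤ} {a : L} (h : Ge p.O n a) {c : L}
    (hc : c ∈ (algebraMap K' L).range) : Ge p.O n (c * a) := by
  obtain ⟨c', rfl⟩ := hc
  have := p.ge_smul h c'
  rwa [Algebra.smul_def] at this

/-- Vectors with bounded poles, as a space over a subfield of the constants. -/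
def TP_lev (h0 : ∀ c : K₀, algebraMap K₀ L c ∈ (algebraMap K' L).range) (D : Place K' L → ℤ) :
    Submodule K₀ (ι → L) where
  carrier := {w | ∀ p : Place K' L, VGe p.O (-D p) w}
  zero_mem' := fun _ _ => ge_zero
  add_mem' := fun ha hb p => (ha p).add (hb p)
  smul_mem' := fun c w hw p i => by
    rw [Pi.smul_apply, Algebra.smul_def]
    exact TP_ge_const p (hw p i) (h0 c)

/-- filtration by the pole order -/
theorem TP_fil [IsFF K' L] {s : L} (hs : TP_Gen K₀ K s) (hs0 : s ≠ 0)
    (h0 : ∀ c : K₀, algebraMap K₀ L c ∈ (algebraMap K' L).range) {D₀ : Div K' L}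
    (hD : degD D₀ < 0) (M : ℕ → Submodule K (ι → L)) [∀ a, FiniteDimensional K (M a)] (n : ℕ)
    (U : Submodule K₀ (ι → L)) [FiniteDimensional K₀ U]
    (hU : ∀ w ∈ U, ∀ p : Place K' L, VGe p.O (-(D₀ p + n * poles K' s p)) w)
    (hM : ∀ a < n, ∀ w ∈ U,
      (∀ p : Place K' L, VGe p.O (-(D₀ p + (a + 1 : ℕ) * poles K' s p)) w) → w ∈ M a) :
    finrank K₀ U ≤ ∑ a ∈ Finset.range n, finrank K (M a) := by
  induction n generalizing U with
  | zero =>
    have : U = ⊥ := by
      rw [Submodule.eq_bot_iff]
      intro w hw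
      funext i
      refine eq_zero_of_degD_neg hD fun p => ?_
      simpa using hU w hw p i
    rw [this]
    simp
  | succ n ih =>
    have h1 := TP_rec hs U (TP_lev h0 fun p => D₀ p + n * poles K' s p) (M n)
      (fun w hw => hM n (Nat.lt_succ_self n) w hw (hU w hw)) (fun N W hW hsum p i => by
        have h2 := TP_step (V := p.O) hs0 (W := fun j => W j i) (N := N)
          (fun j => hU _ (hW j) p i) (by simpa using congrFun hsum i)
        rw [← poles_apply] at h2
        refine h2.mono (le_of_eq ?_)
        push_cast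
        ring)
    have h2 := ih (U ⊓ TP_lev h0 fun p => D₀ p + n * poles K' s p)
      (fun w hw => hw.2) (fun a ha w hw => hM a (by omega) w hw.1)
    rw [Finset.sum_range_succ]
    omega

theorem TP_ge_pow [IsFF K' L] (s : L) (p : Place K' L) (j : ℕ) :
    Ge p.O (-(j * poles K' s p)) (s ^ j) := by
  have h : Ge p.O (-poles K' s p) s := by
    refine ge_ord.mono ?_
    rw [poles_apply]
    have := le_max_right 0 (-ord p.O s)
    omega
  have := h.pow j
  rwa [mul_neg] at this

theorem TP_poles_nonneg [IsFF K' L] (s : L) (p : Place K' L) : 0 ≤ poles K' s p := by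
  rw [poles_apply]
  exact le_max_left _ _

/-- functions with poles only at the poles of `s` -/
theorem TP_bound [IsFF K' L] (s a : L) (h : ∀ p : Place K' L, s ∈ p.O → a ∈ p.O) :
    ∃ B : ℕ, ∀ p : Place K' L, Ge p.O (-(B * poles K' s p)) a := by
  obtain ⟨m, hm⟩ := ((finite_ord (κ := K') a).image fun p => -ord p.O a).bddAbove
  refine ⟨m.toNat, fun p => ?_⟩
  by_cases hp : s ∈ p.O
  · have := (mem_iff_ge (Or.inl p.disc)).1 (h p hp)
    refine this.mono ?_
    have := TP_poles_nonneg s p
    have h2 : (0 : ℤ) ≤ (m.toNat : ℤ) * poles K' s p := by positivity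
    omega
  · refine ge_ord.mono ?_
    have h1 : 1 ≤ poles K' s p := by
      rw [mem_iff_ge (Or.inl p.disc), Ge, not_or, not_le] at hp
      rw [poles_apply]
      have := le_max_right 0 (-ord p.O s)
      omega
    have h2 : -ord p.O a ≤ m.toNat := by
      by_cases h3 : ord p.O a = 0
      · rw [h3]; simp
      · exact (hm ⟨p, h3, rfl⟩).trans (Int.self_le_toNat m)
    have h3 : (0 : ℤ) ≤ m.toNat := Int.natCast_nonneg _
    nlinarith

end Pool.Agent.Lib.MP_7fcda1_ag
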