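import Pool.Agent.Lib.MP_7fcda1_ag.TPa

open scoped IntermediateField Polynomial WithZero
open Module

noncomputable section

universe u

namespace Pool.Agent.Lib.MP_7fcda1_ag

variable {K₀ Kt Ku L : Type*} [Field K₀] [Field Kt] [Field Ku] [Field L] [Algebra K₀ L]
  [Algebra Kt L] [Algebra Ku L] [IsFF Kt L] [IsFF Ku L] {ι : Type*} [Fintype ι] {t v : L}

theorem TP_poles_nonneg' (s : L) : 0 ≤ poles Kt s := fun p => TP_poles_nonneg s p

theorem TP_ker (hgv : TP_Gen K₀ Ku v) (hv0 : v ≠ 0)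
    (h0t : ∀ c : K₀, algebraMap K₀ L c ∈ (algebraMap Kt L).range) (he : 0 < degD (poles Kt v))
    {cu : ℕ} (hcu : RR Ku L cu) (E : Submodule L (ι → L)) {D : Div Ku L} (hD : 0 ≤ D)
    {y₁ y l : ℕ} (hy : y + l ≤ y₁)
    (hS : gen E (y • poles Kt v) = gen E ((y + l) • poles Kt v))
    (U : Submodule K₀ (ι → L)) [FiniteDimensional K₀ U] (hE : ∀ w ∈ U, w ∈ E)
    (hUt : ∀ w ∈ U, ∀ p : Place Kt L, VGe p.O (-(y₁ * poles Kt v p)) w)
    (hUu : ∀ w ∈ U, ∀ p : Place Ku L, VGe p.O (-D p) w) :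
    (finrank K₀ U : ℤ) + l * min (degD D) (-sdeg Ku (gen E (y • poles Kt v))) ≤
      (∑ a ∈ Finset.range (y₁ + 1), (finrank L (gen E (a • poles Kt v)) : ℤ)) * (degD D + cu) := by
  have h1 := TP_fil (K' := Kt) hgv hv0 h0t (D₀ := -poles Kt v) (by rw [map_neg]; omega)
    (fun a => Gam (gen E (a • poles Kt v)) D) (y₁ + 1) U
    (fun w hw p i => (hUt w hw p i).mono (le_of_eq (by simp; ring)))
    (fun a _ w hw h => by
      rw [mem_Gam]
      refine ⟨Submodule.subset_span ?_, hUu w hw⟩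
      rw [SetLike.mem_coe, mem_Gam]
      exact ⟨hE w hw, fun p i => (h p i).mono (le_of_eq (by simp; ring))⟩)
  have h2 : (finrank K₀ U : ℤ) ≤ ∑ a ∈ Finset.range (y₁ + 1),
      ((finrank L (gen E (a • poles Kt v)) : ℤ) * (degD D + cu) -
        min (degD D) (-sdeg Ku (gen E (a • poles Kt v)))) := by
    refine le_trans (by exact_mod_cast h1) (Finset.sum_le_sum fun a _ => Gam_le_min hcu _ hD)
  rw [Finset.sum_sub_distrib, ← Finset.sum_mul] at h2
  have hD0 : 0 ≤ degD D := by simpa using degD_mono hD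
  have h3 : ∑ a ∈ Finset.Ico y (y + l), min (degD D) (-sdeg Ku (gen E (a • poles Kt v))) ≤
      ∑ a ∈ Finset.range (y₁ + 1), min (degD D) (-sdeg Ku (gen E (a • poles Kt v))) := by
    refine Finset.sum_le_sum_of_subset_of_nonneg (fun a ha => ?_) fun a _ _ => ?_
    · rw [Finset.mem_Ico] at ha
      rw [Finset.mem_range]
      omega
    · have := sdeg_nonpos (κ := Ku) (gen E (a • poles Kt v))
      exact le_min hD0 (by omega)
  have h4 : ∑ a ∈ Finset.Ico y (y + l), min (degD D) (-sdeg Ku (gen E (a • poles Kt v))) =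
      l * min (degD D) (-sdeg Ku (gen E (y • poles Kt v))) := by
    rw [Finset.sum_congr rfl (g := fun _ => min (degD D) (-sdeg Ku (gen E (y • poles Kt v))))]
    · simp
    · intro a ha
      rw [Finset.mem_Ico] at ha
      have : gen E (a • poles Kt v) = gen E (y • poles Kt v) := by
        apply le_antisymm
        · rw [hS]
          exact gen_mono _ (nsmul_le_nsmul_left (TP_poles_nonneg' v) ha.2.le)
        · exact gen_mono _ (nsmul_le_nsmul_left (TP_poles_nonneg' v) ha.1)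
      rw [this]
  omega

omit [IsFF Kt L] [Fintype ι] in
theorem TP_im (hgt : TP_Gen K₀ Kt t) (ht0 : t ≠ 0)
    (h0u : ∀ c : K₀, algebraMap K₀ L c ∈ (algebraMap Ku L).range) {D : Div Ku L} {x x₁ : ℕ}
    (hx : degD D < (x₁ + 1 : ℕ) * degD (poles Ku t)) (I : Submodule Kt (ι → L))
    [FiniteDimensional Kt I] (U : Submodule K₀ (ι → L)) [FiniteDimensional K₀ U]
    (hI : ∀ w ∈ U, w ∈ I)
    (hU : ∀ w ∈ U, ∀ p : Place Ku L, VGe p.O (-(x * poles Ku t p + D p)) w) :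
    finrank K₀ U ≤ (x + x₁ + 1) * finrank Kt I := by
  have h1 := TP_fil (K' := Ku) hgt ht0 h0u (D₀ := D - (x₁ + 1) • poles Ku t)
    (by rw [map_sub, map_nsmul, nsmul_eq_mul]; omega) (fun _ => I) (x + x₁ + 1) U
    (fun w hw p i => (hU w hw p i).mono (le_of_eq (by simp; ring)))
    (fun a _ w hw _ => hI w hw)
  simpa using h1

theorem TP_arith {R e d ct cu B₀ x y₁ δ x₁ a b g ρ dk di S : ℕ} {m : ℤ} (ha : a + B₀ = x + 1)
    (hb : b + B₀ = y₁ + 1) (h1 : R * (a * b * e) = di + dk)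
    (h2 : (dk : ℤ) + m ≤ S * (x * e + y₁ * d + cu)) (h3 : S * e ≤ g + R * (e + ct))
    (h4 : S ≤ R * (y₁ + 1)) (h5 : di ≤ (x + x₁ + 1) * ρ) (h6 : ρ + g ≤ R * (y₁ * e + ct))
    (h7 : x₁ * e ≤ (y₁ + δ) * d) (he : 0 < e) :
    m ≤ ((B₀ + R * (2 * ct + cu + d + d * ct + e + e * B₀) : ℕ) : ℤ) * (x + y₁ + δ + 1) +
      R * d * y₁ * (2 * y₁ + δ) := by
  have h8 : x₁ ≤ (y₁ + δ) * d := le_trans (Nat.le_mul_of_pos_right _ he) h7
  have k1 : S * (x * e + y₁ * d + cu) ≤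
      x * (g + R * (e + ct)) + R * (y₁ + 1) * (y₁ * d + cu) := by
    have := Nat.mul_le_mul_left x h3
    have := Nat.mul_le_mul_right (y₁ * d + cu) h4
    linarith
  have k2 : x * g + (x + x₁ + 1) * ρ ≤ x * (R * (y₁ * e + ct)) + (x₁ + 1) * (R * (y₁ * e + ct)) := by
    have := Nat.mul_le_mul_left x h6
    have := Nat.mul_le_mul_left (x₁ + 1) (le_trans (Nat.le_add_right ρ g) h6)
    linarith
  have k3 : (x₁ + 1) * (y₁ * e + ct) ≤
      (y₁ + δ) * d * y₁ + (y₁ + δ) * d * ct + y₁ * e + ct := by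
    have := Nat.mul_le_mul_right y₁ h7
    have := Nat.mul_le_mul_right ct h8
    linarith
  have k4 : x * y₁ ≤ a * b + B₀ * (x + y₁) := by
    have e1 : x ≤ a + B₀ := by omega
    have e2 : y₁ ≤ b + B₀ := by omega
    have e3 : a ≤ x + 1 := by omega
    rcases Nat.eq_zero_or_pos B₀ with h0 | h0
    · subst h0
      have : x * y₁ ≤ a * b := Nat.mul_le_mul (by omega) (by omega)
      omega
    · have e4 : a ≤ x := by omega
      have := Nat.mul_le_mul_right y₁ e1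
      have := Nat.mul_le_mul_left a e2
      have := Nat.mul_le_mul_left B₀ e4
      linarith
  have k5 := Nat.mul_le_mul_left R k3
  have k6 := Nat.mul_le_mul_left (R * e) k4
  have k7 : S * (x * e + y₁ * d + cu) + di ≤ R * (a * b * e) +
      ((B₀ + R * (2 * ct + cu + d + d * ct + e + e * B₀)) * (x + y₁ + δ + 1) +
      R * d * y₁ * (2 * y₁ + δ)) := by
    have k8 : x * (R * (e + ct)) + R * (y₁ + 1) * (y₁ * d + cu) + x * (R * ct) +
        R * ((y₁ + δ) * d * y₁ + (y₁ + δ) * d * ct + y₁ * e + ct) + R * e * (B₀ * (x + y₁)) ≤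
        ((B₀ + R * (2 * ct + cu + d + d * ct + e + e * B₀)) * (x + y₁ + δ + 1) +
      R * d * y₁ * (2 * y₁ + δ)) := by
      apply Nat.le.intro (k := B₀ * (x + y₁ + δ + 1) +
        R * (x * (cu + d + d * ct) + y₁ * (2 * ct) + δ * (2 * ct + cu + d + e + e * B₀) +
          (ct + d + d * ct + e + e * B₀)))
      ring
    linarith
  have k9 : (S : ℤ) * (x * e + y₁ * d + cu) + di ≤ R * (a * b * e) +
      (((B₀ + R * (2 * ct + cu + d + d * ct + e + e * B₀) : ℕ) : ℤ) * (x + y₁ + δ + 1) +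
      R * d * y₁ * (2 * y₁ + δ)) := by exact_mod_cast k7
  have h1' : (R : ℤ) * (a * b * e) = di + dk := by exact_mod_cast h1
  linarith

theorem TP_abs (hgt : TP_Gen K₀ Kt t) (hgv : TP_Gen K₀ Ku v) (ht0 : t ≠ 0) (hv0 : v ≠ 0)
    (h0t : ∀ c : K₀, algebraMap K₀ L c ∈ (algebraMap Kt L).range)
    (h0u : ∀ c : K₀, algebraMap K₀ L c ∈ (algebraMap Ku L).range)
    (htc : t ∈ (algebraMap Kt L).range) (hvc : v ∈ (algebraMap Ku L).range) {e : ℕ} (he : 0 < e)
    (hυ : degD (poles Kt v) = e) (hτ : degD (poles Ku t) = e) (β : Fin e → L) (B₀ : ℕ)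
    (hβt : ∀ s (p : Place Kt L), Ge p.O (-(B₀ * poles Kt v p)) (β s))
    (hβu : ∀ s (p : Place Ku L), Ge p.O (-(B₀ * poles Ku t p)) (β s))
    (hβi : LinearIndependent K₀ fun q : (ℕ × ℕ) × Fin e => t ^ q.1.1 * v ^ q.1.2 * β q.2)
    {h : Div Ku L} (hh : 0 ≤ h) (ι : Type) [Fintype ι] :
    ∃ B : ℕ, ∀ (ι' : Type) [Fintype ι'] (φ : Matrix ι' ι L) (δ y₁ x y l : ℕ), B ≤ x → B ≤ y₁ →
      (∀ a b, ∀ w : Place Ku L, Ge w.O (-(δ * h w)) (φ a b)) → y + l ≤ y₁ →
      gen (LinearMap.ker φ.mulVecLin) (y • poles Kt v) =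
        gen (LinearMap.ker φ.mulVecLin) ((y + l) • poles Kt v) →
      l * min (x * degD (poles Kt v) + y₁ * degD h)
          (-sdeg Ku (gen (LinearMap.ker φ.mulVecLin) (y • poles Kt v))) ≤
        B * (x + y₁ + δ + 1) + Fintype.card ι * degD h * y₁ * (2 * y₁ + δ) := by
  classical
  obtain ⟨ct, hct⟩ := exists_RR Kt L
  obtain ⟨cu, hcu⟩ := exists_RR Ku L
  obtain ⟨d, hd⟩ : ∃ d : ℕ, degD h = d :=
    ⟨(degD h).toNat, (Int.toNat_of_nonneg (by simpa using degD_mono hh)).symm⟩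
  refine ⟨B₀ + Fintype.card ι * (2 * ct + cu + d + d * ct + e + e * B₀), ?_⟩
  intro ι' _ φ δ y₁ x y l hx hy₁ hφ hy hS
  obtain ⟨a, ha⟩ : ∃ a, a + B₀ = x + 1 := ⟨x + 1 - B₀, by omega⟩
  obtain ⟨b, hb⟩ : ∃ b, b + B₀ = y₁ + 1 := ⟨y₁ + 1 - B₀, by omega⟩
  set f : (Fin a × Fin b) × Fin e → L := fun q => t ^ (q.1.1 : ℕ) * v ^ (q.1.2 : ℕ) * β q.2 with hf
  have hfi : LinearIndependent K₀ f :=
    hβi.comp (fun q : (Fin a × Fin b) × Fin e => (((q.1.1 : ℕ), (q.1.2 : ℕ)), q.2)) (by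
      rintro ⟨⟨i, j⟩, s⟩ ⟨⟨i', j'⟩, s'⟩ hq
      simp only [Prod.mk.injEq] at hq
      obtain ⟨⟨h1, h2⟩, h3⟩ := hq
      rw [Fin.ext h1, Fin.ext h2, h3])
  set U₁ : Submodule K₀ L := Submodule.span K₀ (Set.range f) with hU₁
  have hfin : FiniteDimensional K₀ U₁ := FiniteDimensional.span_of_finite _ (Set.finite_range f)
  have hd₁ : finrank K₀ U₁ = a * b * e := by
    rw [hU₁, finrank_span_eq_card hfi]
    simp
  have hU₁t : ∀ z ∈ U₁, ∀ p : Place Kt L, Ge p.O (-(y₁ * poles Kt v p)) z := by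
    intro z hz p
    induction hz using Submodule.span_induction with
    | mem z hz =>
      obtain ⟨⟨⟨i, j⟩, s⟩, rfl⟩ := hz
      simp only [hf]
      rw [mul_assoc]
      refine TP_ge_const p (((TP_ge_pow v p j).mul (hβt s p)).mono ?_) (pow_mem htc _)
      have h1 := TP_poles_nonneg v p
      have h2 : ((j : ℕ) : ℤ) + B₀ ≤ y₁ := by have := j.2; omega
      nlinarith
    | zero => exact ge_zero
    | add _ _ _ _ h1 h2 => exact h1.add h2
    | smul c z _ h1 => rw [Algebra.smul_def]; exact TP_ge_const p h1 (h0t c)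
  have hU₁u : ∀ z ∈ U₁, ∀ p : Place Ku L, Ge p.O (-(x * poles Ku t p)) z := by
    intro z hz p
    induction hz using Submodule.span_induction with
    | mem z hz =>
      obtain ⟨⟨⟨i, j⟩, s⟩, rfl⟩ := hz
      simp only [hf]
      rw [mul_comm (t ^ _), mul_assoc]
      refine TP_ge_const p (((TP_ge_pow t p i).mul (hβu s p)).mono ?_) (pow_mem hvc _)
      have h1 := TP_poles_nonneg t p
      have h2 : ((i : ℕ) : ℤ) + B₀ ≤ x := by have := i.2; omega
      nlinarith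
    | zero => exact ge_zero
    | add _ _ _ _ h1 h2 => exact h1.add h2
    | smul c z _ h1 => rw [Algebra.smul_def]; exact TP_ge_const p h1 (h0u c)
  set U : Submodule K₀ (ι → L) := LinearMap.range (U₁.subtype.compLeft ι) with hU
  have hUm : ∀ w ∈ U, ∀ i, w i ∈ U₁ := by
    rintro _ ⟨w, rfl⟩ i
    exact (w i).2
  have hdU : finrank K₀ U = Fintype.card ι * (a * b * e) := by
    rw [hU, LinearMap.finrank_range_of_inj, Module.finrank_pi_fintype, ← hd₁]
    · simp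
    · intro w w' hw
      funext i
      exact Subtype.ext (congrFun hw i)
  have hh0 : ∀ p, 0 ≤ h p := fun p => hh p
  have hr := TP_rank_null (φ.mulVecLin.restrictScalars K₀) U
  set E := LinearMap.ker φ.mulVecLin with hE
  have hk := TP_ker hgv hv0 h0t (by rw [hυ]; exact_mod_cast he) hcu E
    (D := x • poles Ku t + y₁ • h)
    (add_nonneg (nsmul_nonneg (TP_poles_nonneg' t) _) (nsmul_nonneg hh _)) hy hS
    (U ⊓ LinearMap.ker (φ.mulVecLin.restrictScalars K₀)) (fun w hw => hw.2)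
    (fun w hw p i => hU₁t _ (hUm w hw.1 i) p) (fun w hw p i => (hU₁u _ (hUm w hw.1 i) p).mono (by
      have := hh0 p
      have : (0 : ℤ) ≤ y₁ * h p := by positivity
      simp only [Finsupp.add_apply, Finsupp.smul_apply, nsmul_eq_mul]
      omega))
  have hr' := TP_rank_null (φ.mulVecLin.restrictScalars Kt)
    (Gam (⊤ : Submodule L (ι → L)) (y₁ • poles Kt v))
  have hG : Gam (⊤ : Submodule L (ι → L)) (y₁ • poles Kt v) ⊓
      LinearMap.ker (φ.mulVecLin.restrictScalars Kt) = Gam E (y₁ • poles Kt v) := by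
    ext w
    rw [Submodule.mem_inf, mem_Gam, mem_Gam]
    exact ⟨fun h => ⟨h.2, h.1.2⟩, fun h => ⟨⟨trivial, h.2⟩, h.1⟩⟩
  rw [hG] at hr'
  have hG2 := Gam_le_min hct (⊤ : Submodule L (ι → L))
    (nsmul_nonneg (TP_poles_nonneg' (Kt := Kt) v) y₁)
  rw [sdeg_top, map_nsmul, hυ, finrank_top, Module.finrank_fintype_fun_eq_card, neg_zero,
    nsmul_eq_mul, min_eq_right (by positivity), sub_zero, hr'] at hG2
  have hi := TP_im hgt ht0 h0u (D := (y₁ + δ) • h) (x := x) (x₁ := (y₁ + δ) * d / e) (by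
      rw [map_nsmul, hd, hτ, nsmul_eq_mul]
      have := Nat.lt_div_mul_add (a := (y₁ + δ) * d) he
      have h2 : (y₁ + δ) * d < ((y₁ + δ) * d / e + 1) * e := by rw [add_one_mul]; exact this
      exact_mod_cast h2)
    ((Gam (⊤ : Submodule L (ι → L)) (y₁ • poles Kt v)).map (φ.mulVecLin.restrictScalars Kt))
    (U.map (φ.mulVecLin.restrictScalars K₀)) (by
      rintro _ ⟨w, hw, rfl⟩
      refine ⟨w, ?_, rfl⟩
      rw [SetLike.mem_coe, mem_Gam]
      exact ⟨trivial, fun p i => by simpa using hU₁t _ (hUm w hw i) p⟩) (by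
      rintro _ ⟨w, hw, rfl⟩ p i
      change Ge p.O _ (∑ j, φ i j * w j)
      refine Ge.sum fun j _ => ((hφ i j p).mul (hU₁u _ (hUm w hw j) p)).mono ?_
      have := hh0 p
      have : (0 : ℤ) ≤ y₁ * h p := by positivity
      simp only [Finsupp.smul_apply, nsmul_eq_mul]
      push_cast
      nlinarith)
  have hs := sum_rank_le hct E (TP_poles_nonneg' (Kt := Kt) v) y₁
  rw [← Finset.sum_mul, hυ, ← Nat.cast_sum] at hs
  rw [map_add, map_nsmul, map_nsmul, hτ, hd, nsmul_eq_mul, nsmul_eq_mul, ← Nat.cast_sum] at hk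
  rw [hυ, hd]
  refine TP_arith (x₁ := (y₁ + δ) * d / e) ha hb (hdU.symm.trans hr) hk (by exact_mod_cast hs) ?_ hi
    (by exact_mod_cast hG2) (Nat.div_mul_le_self _ _) he
  calc ∑ a ∈ Finset.range (y₁ + 1), finrank L (gen E (a • poles Kt v))
      ≤ ∑ _a ∈ Finset.range (y₁ + 1), Fintype.card ι := Finset.sum_le_sum fun a _ => by
        have := Submodule.finrank_le (gen E (a • poles Kt v))
        rwa [Module.finrank_fintype_fun_eq_card] at this
    _ = Fintype.card ι * (y₁ + 1) := by simp [mul_comm]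

end Pool.Agent.Lib.MP_7fcda1_ag
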